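import Mathlib

set_option autoImplicit false

/-!
# Concatenation of blocks, and the greedy lemma for representing systems
-/

namespace Pool.Agent.H155R3

open Filter Topology

/-- Concatenate blocks of distinct points into one injective sequence. -/
theorem concat_blocks {S : Type*} [Nonempty S] [DecidableEq S]
    (Q : ℕ → Finset S → List (ℂ × S) → Prop)
    (hQ : ∀ j (A : Finset S), ∃ L : List (ℂ × S), L ≠ [] ∧ (L.map Prod.snd).Nodup ∧
      (∀ q ∈ L, q.2 ∉ A) ∧ Q j A L) :
    ∃ (Λ : ℕ → S) (n : ℕ → ℕ) (L : ℕ → List (ℂ × S)), Function.Injective Λ ∧ StrictMono n ∧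
      n 0 = 0 ∧ (∀ j, n (j + 1) = n j + (L j).length) ∧
      (∀ j i (hi : i < (L j).length), ((L j)[i]).2 = Λ (n j + i)) ∧
      ∀ j, Q j ((Finset.range (n j)).image Λ) (L j) := by
  classical
  choose L' hL0 hL1 hL2 hL3 using hQ
  let P : ℕ → List (ℂ × S) := fun j => Nat.rec [] (fun j l => l ++ L' j ((l.map Prod.snd).toFinset)) j
  have hP0 : P 0 = [] := rfl
  have hPs : ∀ j, P (j + 1) = P j ++ L' j (((P j).map Prod.snd).toFinset) := fun j => rfl
  have hlen : ∀ j, (P (j + 1)).length = (P j).length + (L' j (((P j).map Prod.snd).toFinset)).length := by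
    intro j; rw [hPs, List.length_append]
  have hmono : StrictMono (fun j => (P j).length) := by
    apply strictMono_nat_of_lt_succ
    intro j
    rw [hlen]
    have := List.length_pos_iff.mpr (hL0 j (((P j).map Prod.snd).toFinset))
    omega
  have hge : ∀ j, j ≤ (P j).length := fun j => hmono.le_apply
  have hpre : ∀ j k, P j <+: P (j + k) := by
    intro j k
    induction k with
    | zero => simp
    | succ k ih => exact ih.trans ⟨_, (hPs (j + k)).symm⟩
  have hpre' : ∀ {j k}, j ≤ k → P j <+: P k := by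
    intro j k h
    obtain ⟨d, rfl⟩ := Nat.exists_eq_add_of_le h
    exact hpre j d
  have hnodup : ∀ j, ((P j).map Prod.snd).Nodup := by
    intro j
    induction j with
    | zero => simp [hP0]
    | succ j ih =>
      rw [hPs, List.map_append, List.nodup_append]
      refine ⟨ih, hL1 _ _, ?_⟩
      intro a ha b hb hab
      subst hab
      obtain ⟨q, hq, rfl⟩ := List.mem_map.mp hb
      exact hL2 _ _ q hq (List.mem_toFinset.mpr ha)
  let s0 : S := Classical.arbitrary S
  let Λ : ℕ → S := fun k => ((P (k + 1)).map Prod.snd).getD k s0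
  have hΛ : ∀ j k, k < (P j).length → ((P j).map Prod.snd)[k]? = some (Λ k) := by
    intro j k hk
    have hk1 : k < (P (k + 1)).length := lt_of_lt_of_le (Nat.lt_succ_self k) (hge (k + 1))
    have h1 : ((P (k + 1)).map Prod.snd)[k]? = some (Λ k) := by
      simp only [Λ]
      rw [List.getD_eq_getElem?_getD, List.getElem?_eq_getElem (by simpa using hk1)]
      simp
    rcases le_total j (k + 1) with h | h
    · obtain ⟨t, ht⟩ := hpre' h
      rw [← h1, ← ht, List.map_append, List.getElem?_append_left (by simpa using hk)]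
    · obtain ⟨t, ht⟩ := hpre' h
      rw [← h1, ← ht, List.map_append, List.getElem?_append_left (by simpa using hk1)]
  refine ⟨Λ, fun j => (P j).length, fun j => L' j (((P j).map Prod.snd).toFinset), ?_, hmono, by simp [hP0],
    hlen, ?_, ?_⟩
  · intro a b hab
    by_contra hne
    set J := max a b + 1 with hJ
    have ha : a < (P J).length := lt_of_lt_of_le (by omega) (hge J)
    have hb : b < (P J).length := lt_of_lt_of_le (by omega) (hge J)
    have h1 := hΛ J a ha
    have h2 := hΛ J b hb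
    rw [hab, ← h2] at h1
    have ha' : a < ((P J).map Prod.snd).length := by simpa using ha
    have hb' : b < ((P J).map Prod.snd).length := by simpa using hb
    rw [List.getElem?_eq_getElem ha', List.getElem?_eq_getElem hb'] at h1
    exact hne ((List.Nodup.getElem_inj_iff (hnodup J)).mp (Option.some_injective _ h1))
  · intro j i hi
    have hi0 : i < (L' j (((P j).map Prod.snd).toFinset)).length := hi
    have hi' : (P j).length + i < (P (j + 1)).length := by rw [hlen]; omega
    have h1 := hΛ (j + 1) ((P j).length + i) hi'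
    rw [hPs, List.map_append, List.getElem?_append_right (by simp)] at h1
    simp only [List.length_map, Nat.add_sub_cancel_left] at h1
    rw [List.getElem?_map, List.getElem?_eq_getElem hi] at h1
    simpa using h1
  · intro j
    have : (Finset.range (P j).length).image Λ = ((P j).map Prod.snd).toFinset := by
      ext s
      simp only [Finset.mem_image, Finset.mem_range, List.mem_toFinset]
      constructor
      · rintro ⟨k, hk, rfl⟩
        exact List.mem_of_getElem? (hΛ j k hk)
      · intro hs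
        obtain ⟨k, hk, hks⟩ := List.getElem_of_mem hs
        have hk' : k < (P j).length := by simpa using hk
        refine ⟨k, hk', ?_⟩
        have := hΛ j k hk'
        rw [List.getElem?_eq_getElem hk, hks] at this
        exact (Option.some_injective _ this).symm
    rw [this]
    exact hL3 _ _

/-- The greedy lemma: if every vector can be approximated by combinations over blocks
`[n₀, n₁)`, with `n₀` arbitrary, whose partial sums are controlled, the system is representing. -/
theorem greedy {X : Type*} [NormedAddCommGroup X] [NormedSpace ℂ X] (x : ℕ → X)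
    (hP : ∀ (g : X) (ε : ℝ), 0 < ε → ∀ n₀ : ℕ, ∃ n₁ > n₀, ∃ c : ℕ → ℂ,
      (∀ N ≤ n₁, ‖∑ k ∈ Finset.Ico n₀ N, c k • x k‖ ≤ ‖g‖ + ε) ∧
      ‖(∑ k ∈ Finset.Ico n₀ n₁, c k • x k) - g‖ ≤ ε) (f : X) :
    ∃ c : ℕ → ℂ, Tendsto (fun N => ∑ k ∈ Finset.range N, c k • x k) atTop (𝓝 f) := by
  classical
  choose n₁ hn₁ c hc1 hc2 using hP
  have hpos : ∀ s : ℕ, (0 : ℝ) < (1 / 2 : ℝ) ^ s := fun s => by positivity
  -- state: (position, residual)
  let st : ℕ → ℕ × X := fun s => Nat.rec (0, f) (fun s p =>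
    (n₁ p.2 _ (hpos s) p.1, p.2 - ∑ k ∈ Finset.Ico p.1 (n₁ p.2 _ (hpos s) p.1),
      c p.2 _ (hpos s) p.1 k • x k)) s
  let n : ℕ → ℕ := fun s => (st s).1
  let r : ℕ → X := fun s => (st s).2
  let d : ℕ → ℕ → ℂ := fun s => c (r s) _ (hpos s) (n s)
  have hn0 : n 0 = 0 := rfl
  have hr0 : r 0 = f := rfl
  have hns : ∀ s, n (s + 1) = n₁ (r s) _ (hpos s) (n s) := fun s => rfl
  have hrs : ∀ s, r (s + 1) = r s - ∑ k ∈ Finset.Ico (n s) (n (s + 1)), d s k • x k := fun s => rfl
  have hnm : StrictMono n := strictMono_nat_of_lt_succ fun s => by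
    rw [hns]; exact hn₁ _ _ _ _
  have hd1 : ∀ s N, N ≤ n (s + 1) → ‖∑ k ∈ Finset.Ico (n s) N, d s k • x k‖ ≤ ‖r s‖ + (1 / 2 : ℝ) ^ s :=
    fun s N hN => hc1 (r s) _ (hpos s) (n s) N hN
  have hrn : ∀ s, ‖r (s + 1)‖ ≤ (1 / 2 : ℝ) ^ s := by
    intro s
    rw [hrs, norm_sub_rev]
    exact hc2 (r s) _ (hpos s) (n s)
  have hge : ∀ s, s ≤ n s := fun s => hnm.le_apply
  -- the block index of `k`
  let b : ℕ → ℕ := fun k => Nat.findGreatest (fun s => n s ≤ k) k
  have hb : ∀ s k, n s ≤ k → k < n (s + 1) → b k = s := by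
    intro s k h1 h2
    apply le_antisymm
    · by_contra hlt
      push Not at hlt
      have h3 : n (b k) ≤ k := Nat.findGreatest_spec (P := fun s => n s ≤ k) (m := 0) (Nat.zero_le _) (by simp [hn0])
      have h4 : n (s + 1) ≤ n (b k) := hnm.monotone hlt
      omega
    · exact Nat.le_findGreatest ((hge s).trans h1) h1
  let C : ℕ → ℂ := fun k => d (b k) k
  have hblock : ∀ s N, N ≤ n (s + 1) → ∑ k ∈ Finset.Ico (n s) N, C k • x k =
      ∑ k ∈ Finset.Ico (n s) N, d s k • x k := by
    intro s N hN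
    apply Finset.sum_congr rfl
    intro k hk
    rw [Finset.mem_Ico] at hk
    simp only [C]
    rw [hb s k hk.1 (lt_of_lt_of_le hk.2 hN)]
  have hfull : ∀ s, ∑ k ∈ Finset.range (n s), C k • x k = f - r s := by
    intro s
    induction s with
    | zero => simp [hn0, hr0]
    | succ s ih =>
      rw [Finset.range_eq_Ico, ← Finset.sum_Ico_consecutive _ (Nat.zero_le (n s)) (hnm.monotone (Nat.le_succ s)),
        ← Finset.range_eq_Ico, ih, hblock s _ le_rfl, hrs]
      abel
  refine ⟨C, ?_⟩
  rw [tendsto_iff_norm_sub_tendsto_zero]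
  rw [Metric.tendsto_atTop]
  intro ε hε
  obtain ⟨m, hm⟩ := exists_pow_lt_of_lt_one (show (0 : ℝ) < ε / 5 by positivity) (show (1 / 2 : ℝ) < 1 by norm_num)
  refine ⟨n (m + 1), fun N hN => ?_⟩
  have h0 : n (b N) ≤ N := Nat.findGreatest_spec (P := fun s => n s ≤ N) (m := 0) (Nat.zero_le _) (by simp [hn0])
  have h1 : m + 1 ≤ b N := Nat.le_findGreatest ((hge (m + 1)).trans hN) hN
  have h2 : N ≤ n (b N + 1) := by
    by_contra hlt
    push Not at hlt
    have : b N + 1 ≤ b N := Nat.le_findGreatest ((hge _).trans hlt.le) hlt.le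
    omega
  obtain ⟨s, hs⟩ : ∃ s, b N = s + 1 := ⟨b N - 1, by omega⟩
  rw [hs] at h0 h2 h1
  have h3 : ∑ k ∈ Finset.range N, C k • x k - f = -r (s + 1) + ∑ k ∈ Finset.Ico (n (s + 1)) N, d (s + 1) k • x k := by
    rw [Finset.range_eq_Ico, ← Finset.sum_Ico_consecutive _ (Nat.zero_le (n (s + 1))) h0,
        ← Finset.range_eq_Ico]
    have e1 := hfull (s + 1)
    have e2 := hblock (s + 1) N h2
    rw [e2]
    erw [e1]
    abel
  rw [Real.dist_eq, sub_zero, abs_norm, h3]
  have h4 := hd1 (s + 1) N h2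
  have h5 := hrn s
  have h6 : (1 / 2 : ℝ) ^ s ≤ (1 / 2 : ℝ) ^ m := pow_le_pow_of_le_one (by norm_num) (by norm_num) (by omega)
  have h7 : (1 / 2 : ℝ) ^ (s + 1) ≤ (1 / 2 : ℝ) ^ m := pow_le_pow_of_le_one (by norm_num) (by norm_num) (by omega)
  calc ‖-r (s + 1) + ∑ k ∈ Finset.Ico (n (s + 1)) N, d (s + 1) k • x k‖
      ≤ ‖r (s + 1)‖ + ‖∑ k ∈ Finset.Ico (n (s + 1)) N, d (s + 1) k • x k‖ := by
        refine (norm_add_le _ _).trans ?_
        rw [norm_neg]
    _ ≤ (1 / 2 : ℝ) ^ m + ((1 / 2 : ℝ) ^ m + (1 / 2 : ℝ) ^ m) := by linarith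
    _ < ε := by linarith

end Pool.Agent.H155R3
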