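import Mathlib

set_option autoImplicit false

/-!
# Algebraic identities for Cauchy kernels
-/

namespace Pool.Agent.H155R3

open Finset

theorem two_kernels (a b z : ℂ) (hab : a - b ≠ 0) (ha : 1 - a * z ≠ 0) (hb : 1 - b * z ≠ 0) :
    (1 - a * z)⁻¹ * (1 - b * z)⁻¹ = (a / (a - b)) * (1 - a * z)⁻¹ - (b / (a - b)) * (1 - b * z)⁻¹ := by
  have eA := mul_inv_cancel₀ ha
  have eB := mul_inv_cancel₀ hb
  have eD := mul_inv_cancel₀ hab
  rw [div_eq_mul_inv, div_eq_mul_inv]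
  linear_combination (-(1 - a * z)⁻¹ * (1 - b * z)⁻¹) * eD + (a * (a - b)⁻¹ * (1 - a * z)⁻¹) * eB -
    (b * (a - b)⁻¹ * (1 - b * z)⁻¹) * eA

theorem one_kernel (b z : ℂ) (hb : 1 - b * z ≠ 0) :
    b * (b - z) * (1 - b * z)⁻¹ = 1 - (1 - b ^ 2) * (1 - b * z)⁻¹ := by
  field_simp
  ring

theorem kernel_ne_zero (a : ℝ) (z : ℂ) (h0 : 0 < a) (ha : a < 1) (hz : ‖z‖ ≤ 1) :
    (1 - (a : ℂ) * z) ≠ 0 := by
  intro h
  have : (a : ℂ) * z = 1 := by linear_combination -h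
  have h2 : ‖(a : ℂ) * z‖ = 1 := by rw [this, norm_one]
  rw [norm_mul, Complex.norm_real, Real.norm_of_nonneg h0.le] at h2
  nlinarith [norm_nonneg z]

/-- Product of elementary factors as a combination of kernels. -/
theorem partial_fractions (lam : ℕ → ℝ) (J : ℕ) (hinj : ∀ i < J, ∀ j < J, lam i = lam j → i = j)
    (h1 : ∀ i < J, 0 < lam i ∧ lam i < 1) :
    ∃ c : ℕ → ℂ, ∀ z : ℂ, ‖z‖ ≤ 1 →
      1 - ∑ j ∈ range J, c j * (1 - (lam j : ℂ) * z)⁻¹ =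
        ∏ j ∈ range J, ((lam j : ℂ) * ((lam j : ℂ) - z) * (1 - (lam j : ℂ) * z)⁻¹) := by
  induction J with
  | zero => exact ⟨fun _ => 0, fun z _ => by simp⟩
  | succ J ih =>
    obtain ⟨c, hc⟩ := ih (fun i hi j hj => hinj i (by omega) j (by omega)) (fun i hi => h1 i (by omega))
    obtain ⟨hb0, hb1⟩ := h1 J (by omega)
    -- new coefficients
    let d : ℕ → ℂ := fun j => if j < J then c j - c j * (1 - (lam J : ℂ) ^ 2) * ((lam j : ℂ) / ((lam j : ℂ) - (lam J : ℂ)))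
      else (1 - (lam J : ℂ) ^ 2) + ∑ i ∈ range J, c i * (1 - (lam J : ℂ) ^ 2) * ((lam J : ℂ) / ((lam i : ℂ) - (lam J : ℂ)))
    refine ⟨d, fun z hz => ?_⟩
    have hbz : 1 - (lam J : ℂ) * z ≠ 0 := kernel_ne_zero _ _ hb0 hb1 hz
    have hab : ∀ j ∈ range J, (lam j : ℂ) - (lam J : ℂ) ≠ 0 := by
      intro j hj h
      have hj' := mem_range.mp hj
      have : lam j = lam J := by
        have : (lam j : ℂ) = (lam J : ℂ) := by linear_combination h
        exact_mod_cast this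
      have := hinj j (by omega) J (by omega) this
      omega
    have haz : ∀ j ∈ range J, 1 - (lam j : ℂ) * z ≠ 0 := by
      intro j hj
      have hj' := mem_range.mp hj
      obtain ⟨ha0, ha1⟩ := h1 j (by omega)
      exact kernel_ne_zero _ _ ha0 ha1 hz
    rw [prod_range_succ, ← hc z hz, sum_range_succ, one_kernel _ _ hbz]
    have e2 : ∑ j ∈ range J, d j * (1 - (lam j : ℂ) * z)⁻¹ =
        ∑ j ∈ range J, (c j * (1 - (lam j : ℂ) * z)⁻¹ - c j * (1 - (lam J : ℂ) ^ 2) *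
          ((lam j : ℂ) / ((lam j : ℂ) - (lam J : ℂ))) * (1 - (lam j : ℂ) * z)⁻¹) := by
      apply sum_congr rfl
      intro j hj
      have := mem_range.mp hj
      simp only [d, if_pos this]
      ring
    have e3 : d J = (1 - (lam J : ℂ) ^ 2) + ∑ i ∈ range J, c i * (1 - (lam J : ℂ) ^ 2) *
        ((lam J : ℂ) / ((lam i : ℂ) - (lam J : ℂ))) := by
      simp [d]
    have e4 : (∑ j ∈ range J, c j * (1 - (lam j : ℂ) * z)⁻¹) * ((1 - (lam J : ℂ) ^ 2) * (1 - (lam J : ℂ) * z)⁻¹) =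
        ∑ j ∈ range J, c j * (1 - (lam J : ℂ) ^ 2) * ((lam j : ℂ) / ((lam j : ℂ) - (lam J : ℂ))) * (1 - (lam j : ℂ) * z)⁻¹ -
        (∑ i ∈ range J, c i * (1 - (lam J : ℂ) ^ 2) * ((lam J : ℂ) / ((lam i : ℂ) - (lam J : ℂ)))) * (1 - (lam J : ℂ) * z)⁻¹ := by
      rw [sum_mul, sum_mul, ← sum_sub_distrib]
      apply sum_congr rfl
      intro j hj
      have := two_kernels (lam j : ℂ) (lam J : ℂ) z (hab j hj) (haz j hj) hbz
      linear_combination (c j * (1 - (lam J : ℂ) ^ 2)) * this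
    rw [e2, e3, sum_sub_distrib]
    linear_combination -e4

/-- On the circle the elementary factor has modulus `a`. -/
theorem norm_factor (a : ℝ) (ha0 : 0 < a) (ha1 : a < 1) (z : ℂ) (hz : ‖z‖ = 1) :
    ‖(a : ℂ) * ((a : ℂ) - z) * (1 - (a : ℂ) * z)⁻¹‖ = a := by
  have hz2 : z.re * z.re + z.im * z.im = 1 := by
    have := Complex.sq_norm z
    rw [hz, Complex.normSq_apply] at this
    nlinarith
  have hne : (1 - (a : ℂ) * z) ≠ 0 := kernel_ne_zero a z ha0 ha1 hz.le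
  have e : ‖(a : ℂ) - z‖ = ‖1 - (a : ℂ) * z‖ := by
    have h1 : ‖(a : ℂ) - z‖ ^ 2 = ‖1 - (a : ℂ) * z‖ ^ 2 := by
      rw [Complex.sq_norm, Complex.sq_norm, Complex.normSq_apply, Complex.normSq_apply]
      simp
      linear_combination (1 - a ^ 2) * hz2
    exact (pow_left_inj₀ (norm_nonneg _) (norm_nonneg _) two_ne_zero).1 h1
  rw [norm_mul, norm_mul, norm_inv, e, Complex.norm_real, Real.norm_of_nonneg ha0.le, mul_assoc,
    mul_inv_cancel₀ (by simpa using hne), mul_one]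

/-- Orthogonality for powers of a primitive root. -/
theorem sum_root {N : ℕ} (hN : 0 < N) {w : ℂ} (hw : IsPrimitiveRoot w N) {k d : ℕ} (hk : k < N)
    (hd : d < N) : ∑ l ∈ range N, (w ^ l) ^ k * ((w ^ l) ^ d)⁻¹ = if k = d then (N : ℂ) else 0 := by
  have hw0 : w ≠ 0 := hw.ne_zero hN.ne'
  split_ifs with h
  · subst h
    rw [sum_congr rfl (g := fun _ => (1 : ℂ))]
    · simp
    · intro l _
      rw [mul_inv_cancel₀]
      positivity
  · have e : ∀ l ∈ range N, (w ^ l) ^ k * ((w ^ l) ^ d)⁻¹ = (w ^ k * (w ^ d)⁻¹) ^ l := by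
      intro l _
      rw [mul_pow, inv_pow (w ^ d) l, ← pow_mul, ← pow_mul, ← pow_mul, ← pow_mul, mul_comm l k, mul_comm l d]
    rw [sum_congr rfl e]
    have hyN : (w ^ k * (w ^ d)⁻¹) ^ N = 1 := by
      rw [mul_pow, inv_pow (w ^ d), ← pow_mul, ← pow_mul, mul_comm k, mul_comm d, pow_mul, pow_mul,
        hw.pow_eq_one]
      simp
    have hy1 : (w ^ k * (w ^ d)⁻¹) ≠ 1 := by
      intro h1
      apply h
      have h2 : w ^ d ≠ 0 := by positivity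
      have h3 : w ^ k = w ^ d := by
        rw [← mul_one (w ^ d), ← h1]
        field_simp
      exact hw.pow_inj hk hd h3
    rw [geom_sum_eq hy1 N, hyN]
    simp

/-- The averaging identity over `N`-th roots. -/
theorem average_kernel {N : ℕ} (hN : 0 < N) {w : ℂ} (hw : IsPrimitiveRoot w N) (x z : ℂ) (hx : x ≠ 0)
    (hx1 : x ^ N ≠ 1) (g : Polynomial ℂ) (hg : g.natDegree < N) :
    ∑ l ∈ range N, g.eval (z / (x * w ^ l)) * (1 - x * w ^ l)⁻¹ =
      N * g.eval z * (1 - x ^ N)⁻¹ := by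
  have hw0 : w ≠ 0 := hw.ne_zero hN.ne'
  have e1 : ∀ l ∈ range N, g.eval (z / (x * w ^ l)) * (1 - x * w ^ l)⁻¹ =
      ∑ d ∈ range N, ∑ k ∈ range N, (g.coeff d * z ^ d * (1 - x ^ N)⁻¹ * (x ^ k * (x ^ d)⁻¹)) *
        ((w ^ l) ^ k * ((w ^ l) ^ d)⁻¹) := by
    intro l _
    have hp : (x * w ^ l) ^ N = x ^ N := by
      rw [mul_pow, ← pow_mul, mul_comm l N, pow_mul, hw.pow_eq_one, one_pow, mul_one]
    have h1 : x * w ^ l ≠ 1 := by
      intro h
      rw [h, one_pow] at hp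
      exact hx1 hp.symm
    have h2 : (1 - x * w ^ l)⁻¹ = (∑ k ∈ range N, (x * w ^ l) ^ k) * (1 - x ^ N)⁻¹ := by
      have h3 : (1 - x * w ^ l) ≠ 0 := fun h => h1 (by linear_combination -h)
      have h4 : (1 - x ^ N) ≠ 0 := fun h => hx1 (by linear_combination -h)
      have h5 := mul_neg_geom_sum (x * w ^ l) N
      rw [hp] at h5
      rw [eq_mul_inv_iff_mul_eq₀ h4, inv_mul_eq_iff_eq_mul₀ h3]
      exact h5.symm
    rw [h2, Polynomial.eval_eq_sum_range' hg, sum_mul]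
    apply sum_congr rfl
    intro d _
    rw [sum_mul, mul_sum]
    apply sum_congr rfl
    intro k _
    rw [div_pow, mul_pow, mul_pow]
    have : (w ^ l) ^ d ≠ 0 := by positivity
    have : x ^ d ≠ 0 := by positivity
    field_simp
  rw [sum_congr rfl e1, sum_comm, Polynomial.eval_eq_sum_range' hg, mul_sum, sum_mul]
  apply sum_congr rfl
  intro d hd
  rw [sum_comm]
  have e2 : ∀ k ∈ range N, ∑ l ∈ range N, (g.coeff d * z ^ d * (1 - x ^ N)⁻¹ * (x ^ k * (x ^ d)⁻¹)) *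
        ((w ^ l) ^ k * ((w ^ l) ^ d)⁻¹) =
        (g.coeff d * z ^ d * (1 - x ^ N)⁻¹ * (x ^ k * (x ^ d)⁻¹)) * (if k = d then (N : ℂ) else 0) := by
    intro k hk
    rw [← mul_sum, sum_root hN hw (mem_range.mp hk) (mem_range.mp hd)]
  rw [sum_congr rfl e2, sum_eq_single d]
  · rw [if_pos rfl, mul_inv_cancel₀ (by positivity)]
    ring
  · intro k _ hk
    rw [if_neg hk, mul_zero]
  · intro h
    exact absurd hd h

/-- Special case: the plain average. -/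
theorem average_one {N : ℕ} (hN : 0 < N) {w : ℂ} (hw : IsPrimitiveRoot w N) (x : ℂ)
    (hx1 : x ^ N ≠ 1) :
    ∑ l ∈ range N, (1 - x * w ^ l)⁻¹ = N * (1 - x ^ N)⁻¹ := by
  rcases eq_or_ne x 0 with rfl | hx
  · simp [hN.ne']
  · have := average_kernel hN hw x 1 hx hx1 1 (by simpa using hN)
    simpa using this

/-- Averages of Poisson kernels. -/
theorem average_sq {N : ℕ} (hN : 0 < N) {w : ℂ} (hw : IsPrimitiveRoot w N) (a lam : ℝ) (ha0 : 0 ≤ a)
    (ha1 : a < 1) (hlam : a ^ N ≤ lam) (hlam1 : lam < 1) (v : ℂ) (hv : ‖v‖ = 1) :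
    ∑ l ∈ range N, (1 / ‖1 - (a : ℂ) * v * w ^ l‖ ^ 2) ≤ N * (2 / ((1 - lam) * (1 - a))) := by
  have hw1 : ‖w‖ = 1 := hw.norm'_eq_one hN.ne'
  set x : ℂ := (a : ℂ) * v with hx
  have hxn : ‖x‖ = a := by rw [hx, norm_mul, Complex.norm_real, Real.norm_of_nonneg ha0, hv, mul_one]
  have hxN : ‖x ^ N‖ ≤ lam := by rw [norm_pow, hxn]; exact hlam
  have hx1 : x ^ N ≠ 1 := by
    intro h
    rw [h, norm_one] at hxN
    linarith
  have h1 := average_one hN hw x hx1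
  -- real part identity
  have key : ∀ y : ℂ, ‖y‖ = a → (1 - a ^ 2) * (1 / ‖1 - y‖ ^ 2) = 2 * ((1 - y)⁻¹).re - 1 := by
    intro y hy
    have hne : (1 - y) ≠ 0 := by
      intro h
      have : y = 1 := by linear_combination -h
      rw [this, norm_one] at hy
      linarith
    have hpos : 0 < Complex.normSq (1 - y) := Complex.normSq_pos.mpr hne
    have hy2 : y.re * y.re + y.im * y.im = a ^ 2 := by
      rw [← hy, Complex.sq_norm, Complex.normSq_apply]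
    rw [Complex.sq_norm, Complex.inv_re]
    rw [eq_sub_iff_add_eq]
    have e : Complex.normSq (1 - y) = (1 - y.re) * (1 - y.re) + y.im * y.im := by
      rw [Complex.normSq_apply]; simp
    have e2 : (1 - y).re = 1 - y.re := by simp
    rw [e2]
    have hD := hpos.ne'
    have e3 : Complex.normSq (1 - y) = 1 - 2 * y.re + a ^ 2 := by rw [e, ← hy2]; ring
    generalize Complex.normSq (1 - y) = D at hD e3 ⊢
    field_simp
    rw [e3]
    ring
  have h2 : (1 - a ^ 2) * ∑ l ∈ range N, (1 / ‖1 - x * w ^ l‖ ^ 2) = N * (2 * ((1 - x ^ N)⁻¹).re - 1) := by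
    rw [mul_sum]
    have e3 : ∀ l ∈ range N, (1 - a ^ 2) * (1 / ‖1 - x * w ^ l‖ ^ 2) = 2 * ((1 - x * w ^ l)⁻¹).re - 1 := by
      intro l _
      apply key
      rw [norm_mul, norm_pow, hw1, one_pow, mul_one, hxn]
    rw [sum_congr rfl e3, sum_sub_distrib, ← mul_sum, ← Complex.re_sum, h1]
    simp
    ring
  have h3 : 2 * ((1 - x ^ N)⁻¹).re - 1 ≤ 2 / (1 - lam) := by
    have h4 : ((1 - x ^ N)⁻¹).re ≤ ‖(1 - x ^ N)⁻¹‖ := Complex.re_le_norm _
    have h5 : 1 - lam ≤ ‖1 - x ^ N‖ := by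
      have := norm_sub_norm_le (1 : ℂ) (x ^ N)
      rw [norm_one] at this
      linarith
    have h6 : ‖(1 - x ^ N)⁻¹‖ ≤ 1 / (1 - lam) := by
      rw [norm_inv, ← one_div]
      exact one_div_le_one_div_of_le (by linarith) h5
    have : 2 / (1 - lam) = 2 * (1 / (1 - lam)) := by ring
    linarith
  have h7 : (0 : ℝ) < 1 - a ^ 2 := by nlinarith
  have h8 : 1 - a ≤ 1 - a ^ 2 := by nlinarith
  have h9 : ∑ l ∈ range N, (1 / ‖1 - x * w ^ l‖ ^ 2) ≤ N * (2 / (1 - lam)) / (1 - a ^ 2) := by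
    rw [le_div_iff₀ h7, mul_comm, h2]
    exact mul_le_mul_of_nonneg_left h3 (by positivity)
  refine h9.trans ?_
  have h10 : (0 : ℝ) < 1 - lam := by linarith
  have h11 : (0 : ℝ) < 1 - a := by linarith
  rw [div_le_iff₀ h7]
  have : (N : ℝ) * (2 / ((1 - lam) * (1 - a))) * (1 - a ^ 2) = N * (2 / (1 - lam)) * ((1 - a ^ 2) / (1 - a)) := by
    field_simp
  rw [this]
  have h12 : 1 ≤ (1 - a ^ 2) / (1 - a) := by rw [le_div_iff₀ h11]; linarith
  have h13 : (0 : ℝ) ≤ N * (2 / (1 - lam)) := by positivity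
  nlinarith

/-- A dyadic bound for `1/|1-y|`. -/
theorem dyadic_bound (I : ℕ) (y : ℂ) (hy : ‖y‖ ≤ 1) (hI : (1 / 2 : ℝ) ^ I ≤ ‖1 - y‖) :
    1 / ‖1 - y‖ ≤ 8 * ∑ i ∈ range (I + 1), (1 / 2 : ℝ) ^ i * (1 / ‖1 - ((1 - (1 / 2) ^ i : ℝ) : ℂ) * y‖ ^ 2) := by
  have hpos : 0 < ‖1 - y‖ := lt_of_lt_of_le (by positivity) hI
  -- choose the least `i` with `2^{-i} ≤ ‖1-y‖`
  classical
  have hex : ∃ i, (1 / 2 : ℝ) ^ i ≤ ‖1 - y‖ := ⟨I, hI⟩
  set i := Nat.find hex with hi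
  have h1 : (1 / 2 : ℝ) ^ i ≤ ‖1 - y‖ := Nat.find_spec hex
  have hiI : i ≤ I := Nat.find_min' hex hI
  have hterm : ∀ j ∈ range (I + 1), 0 ≤ (1 / 2 : ℝ) ^ j * (1 / ‖1 - ((1 - (1 / 2) ^ j : ℝ) : ℂ) * y‖ ^ 2) := by
    intro j _; positivity
  have hle := single_le_sum hterm (mem_range.mpr (Nat.lt_succ_of_le hiI))
  have h2 : ‖1 - ((1 - (1 / 2) ^ i : ℝ) : ℂ) * y‖ ≤ 2 * ‖1 - y‖ := by
    have e : 1 - ((1 - (1 / 2) ^ i : ℝ) : ℂ) * y = (1 - y) + (((1 / 2) ^ i : ℝ) : ℂ) * y := by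
      push_cast; ring
    rw [e]
    refine (norm_add_le _ _).trans ?_
    rw [norm_mul, Complex.norm_real, Real.norm_of_nonneg (by positivity)]
    have : (1 / 2 : ℝ) ^ i * ‖y‖ ≤ (1 / 2 : ℝ) ^ i := by
      have := mul_le_mul_of_nonneg_left hy (show (0 : ℝ) ≤ (1 / 2) ^ i by positivity)
      linarith
    linarith
  have h3 : ‖1 - y‖ ≤ 2 * (1 / 2 : ℝ) ^ i := by
    rcases Nat.eq_zero_or_pos i with h | h
    · rw [h]
      have := norm_sub_le (1 : ℂ) y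
      rw [norm_one] at this
      simp
      linarith
    · have := Nat.find_min hex (m := i - 1) (by omega)
      push Not at this
      have e : (1 / 2 : ℝ) ^ (i - 1) = 2 * (1 / 2 : ℝ) ^ i := by
        obtain ⟨k, hk⟩ := Nat.exists_eq_add_of_lt h
        rw [hk]
        simp only [zero_add, Nat.add_sub_cancel]
        rw [pow_succ]; ring
      linarith
  have h4 : 0 < ‖1 - ((1 - (1 / 2) ^ i : ℝ) : ℂ) * y‖ := by
    rw [norm_pos_iff]
    intro h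
    have : ((1 - (1 / 2) ^ i : ℝ) : ℂ) * y = 1 := by linear_combination -h
    have h5 : ‖((1 - (1 / 2) ^ i : ℝ) : ℂ) * y‖ = 1 := by rw [this, norm_one]
    have h6 : (1 / 2 : ℝ) ^ i ≤ 1 := pow_le_one₀ (by norm_num) (by norm_num)
    rw [norm_mul, Complex.norm_real, Real.norm_of_nonneg (by linarith)] at h5
    have h7 : (0 : ℝ) < (1 / 2) ^ i := by positivity
    nlinarith [norm_nonneg y]
  have h5 : (1 : ℝ) / (4 * ‖1 - y‖ ^ 2) ≤ 1 / ‖1 - ((1 - (1 / 2) ^ i : ℝ) : ℂ) * y‖ ^ 2 := by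
    apply one_div_le_one_div_of_le (by positivity)
    have := pow_le_pow_left₀ h4.le h2 2
    nlinarith
  have h6 : 1 / ‖1 - y‖ ≤ 8 * ((1 / 2 : ℝ) ^ i * (1 / (4 * ‖1 - y‖ ^ 2))) := by
    have h7 : 8 * ((1 / 2 : ℝ) ^ i * (1 / (4 * ‖1 - y‖ ^ 2))) = (2 * (1 / 2 : ℝ) ^ i) / ‖1 - y‖ ^ 2 := by
      field_simp; ring
    rw [h7, div_le_div_iff₀ hpos (by positivity)]
    nlinarith
  calc 1 / ‖1 - y‖ ≤ 8 * ((1 / 2 : ℝ) ^ i * (1 / (4 * ‖1 - y‖ ^ 2))) := h6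
    _ ≤ 8 * ((1 / 2 : ℝ) ^ i * (1 / ‖1 - ((1 - (1 / 2) ^ i : ℝ) : ℂ) * y‖ ^ 2)) := by
        gcongr
    _ ≤ _ := by
        apply mul_le_mul_of_nonneg_left hle (by norm_num)

/-- The logarithmic bound. -/
theorem log_bound {N : ℕ} (hN : 0 < N) {w : ℂ} (hw : IsPrimitiveRoot w N) (rho lam : ℝ) (hr0 : 0 ≤ rho)
    (hr1 : rho < 1) (hlam : rho ^ N ≤ lam) (hlam1 : lam < 1) (I : ℕ) (hI : (1 / 2 : ℝ) ^ I ≤ 1 - rho)
    (v : ℂ) (hv : ‖v‖ = 1) :
    ∑ l ∈ range N, (1 / ‖1 - (rho : ℂ) * v * w ^ l‖) ≤ N * (16 * (I + 1) / (1 - lam)) := by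
  have hw1 : ‖w‖ = 1 := hw.norm'_eq_one hN.ne'
  have h1 : ∀ l ∈ range N, 1 / ‖1 - (rho : ℂ) * v * w ^ l‖ ≤
      8 * ∑ i ∈ range (I + 1), (1 / 2 : ℝ) ^ i * (1 / ‖1 - (((1 - (1 / 2) ^ i) * rho : ℝ) : ℂ) * v * w ^ l‖ ^ 2) := by
    intro l _
    have hn : ‖(rho : ℂ) * v * w ^ l‖ = rho := by
      rw [norm_mul, norm_mul, norm_pow, hw1, hv, Complex.norm_real, Real.norm_of_nonneg hr0]; simp
    have h2 : (1 / 2 : ℝ) ^ I ≤ ‖1 - (rho : ℂ) * v * w ^ l‖ := by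
      have := norm_sub_norm_le (1 : ℂ) ((rho : ℂ) * v * w ^ l)
      rw [norm_one, hn] at this
      linarith
    have := dyadic_bound I ((rho : ℂ) * v * w ^ l) (by rw [hn]; exact hr1.le) h2
    refine this.trans (le_of_eq ?_)
    congr 1
    apply sum_congr rfl
    intro i _
    congr 4
    push_cast
    ring
  refine (sum_le_sum h1).trans ?_
  rw [← mul_sum, sum_comm]
  have h2 : ∀ i ∈ range (I + 1), ∑ l ∈ range N, (1 / 2 : ℝ) ^ i *
      (1 / ‖1 - (((1 - (1 / 2) ^ i) * rho : ℝ) : ℂ) * v * w ^ l‖ ^ 2) ≤ N * (2 / (1 - lam)) := by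
    intro i _
    have hp : (0 : ℝ) < (1 / 2) ^ i := by positivity
    have hp1 : (1 / 2 : ℝ) ^ i ≤ 1 := pow_le_one₀ (by norm_num) (by norm_num)
    have ha0 : 0 ≤ (1 - (1 / 2 : ℝ) ^ i) * rho := mul_nonneg (by linarith) hr0
    have ha1 : (1 - (1 / 2 : ℝ) ^ i) * rho ≤ 1 - (1 / 2) ^ i := by
      have := mul_le_mul_of_nonneg_left hr1.le (show (0 : ℝ) ≤ 1 - (1 / 2) ^ i by linarith)
      linarith
    have ha2 : (1 - (1 / 2 : ℝ) ^ i) * rho ≤ rho := by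
      have := mul_le_mul_of_nonneg_right (show 1 - (1 / 2 : ℝ) ^ i ≤ 1 by linarith) hr0
      linarith
    have ha3 : ((1 - (1 / 2 : ℝ) ^ i) * rho) ^ N ≤ lam := (pow_le_pow_left₀ ha0 ha2 N).trans hlam
    have := average_sq hN hw _ lam ha0 (by linarith) ha3 hlam1 v hv
    rw [← mul_sum]
    calc (1 / 2 : ℝ) ^ i * ∑ l ∈ range N, (1 / ‖1 - (((1 - (1 / 2) ^ i) * rho : ℝ) : ℂ) * v * w ^ l‖ ^ 2)
        ≤ (1 / 2 : ℝ) ^ i * (N * (2 / ((1 - lam) * (1 - (1 - (1 / 2 : ℝ) ^ i) * rho)))) :=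
          mul_le_mul_of_nonneg_left this hp.le
      _ ≤ (1 / 2 : ℝ) ^ i * (N * (2 / ((1 - lam) * (1 / 2 : ℝ) ^ i))) := by
          apply mul_le_mul_of_nonneg_left _ hp.le
          apply mul_le_mul_of_nonneg_left _ (by positivity)
          apply div_le_div_of_nonneg_left (by norm_num) (mul_pos (by linarith) hp)
          apply mul_le_mul_of_nonneg_left _ (by linarith)
          linarith
      _ = N * (2 / (1 - lam)) := by
          have : (1 - lam) ≠ 0 := by linarith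
          field_simp
  refine (mul_le_mul_of_nonneg_left (sum_le_sum h2) (by norm_num)).trans (le_of_eq ?_)
  rw [sum_const, card_range]
  simp only [nsmul_eq_mul]
  push_cast
  ring

end Pool.Agent.H155R3
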