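import Pool.Agent.H155R3.Concat

set_option autoImplicit false

/-!
# Vectors reachable by blocks with controlled partial sums form a closed subspace
-/

namespace Pool.Agent.H155R3

open Filter Topology

variable {X : Type*} [NormedAddCommGroup X] [NormedSpace ℂ X] {S : Type*}

/-- Weighted sum of the kernels in a list. -/
def lsum (K : S → X) (L : List (ℂ × S)) : X := (L.map (fun q => q.1 • K q.2)).sum

theorem lsum_nil (K : S → X) : lsum K [] = 0 := by simp [lsum]

theorem lsum_append (K : S → X) (L M : List (ℂ × S)) : lsum K (L ++ M) = lsum K L + lsum K M := by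
  simp [lsum]

theorem lsum_smul (K : S → X) (c : ℂ) (L : List (ℂ × S)) :
    lsum K (L.map (fun q => (c * q.1, q.2))) = c • lsum K L := by
  induction L with
  | nil => simp [lsum]
  | cons q L ih =>
    simp only [lsum, List.map_cons, List.sum_cons, smul_add] at ih ⊢
    rw [ih, mul_smul]

/-- Sums over an interval of indices as list sums. -/
theorem sum_Ico_eq_lsum (K : S → X) (L : List (ℂ × S)) (x : ℕ → X) (a : ℕ) (c : ℕ → ℂ)
    (hc : ∀ i (hi : i < L.length), c (a + i) = (L[i]).1)
    (hx : ∀ i (hi : i < L.length), x (a + i) = K (L[i]).2) (m : ℕ) (hm : m ≤ L.length) :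
    ∑ k ∈ Finset.Ico a (a + m), c k • x k = lsum K (L.take m) := by
  induction m with
  | zero => simp [lsum]
  | succ m ih =>
    have hm' : m < L.length := hm
    rw [← Nat.add_assoc, Finset.sum_Ico_succ_top (by omega), ih hm'.le, hc m hm', hx m hm',
      List.take_add_one, List.getElem?_eq_getElem hm', lsum_append]
    simp [lsum]

/-- `g` can be reached, up to any `ε`, by blocks avoiding any given finite set, with partial
sums bounded by `‖g‖ + ε`. -/
def Good (K : S → X) (g : X) : Prop :=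
  ∀ ε : ℝ, 0 < ε → ∀ A : Finset S, ∃ L : List (ℂ × S), (L.map Prod.snd).Nodup ∧
    (∀ q ∈ L, q.2 ∉ A) ∧ (∀ m, ‖lsum K (L.take m)‖ ≤ ‖g‖ + ε) ∧ ‖lsum K L - g‖ ≤ ε

def Reach (K : S → X) (A : Finset S) (a : X) (e B : ℝ) : Prop :=
  ∃ L : List (ℂ × S), (L.map Prod.snd).Nodup ∧
    (∀ q ∈ L, q.2 ∉ A) ∧ (∀ m, ‖lsum K (L.take m)‖ ≤ B) ∧ ‖lsum K L - a‖ ≤ e

theorem Good.smul {K : S → X} {g : X} (hg : Good K g) (c : ℂ) : Good K (c • g) := by
  intro ε hε A
  have h1 : (0 : ℝ) < ‖c‖ + 1 := by positivity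
  obtain ⟨L, h2, h3, h4, h5⟩ := hg (ε / (‖c‖ + 1)) (by positivity) A
  have key : ‖c‖ * (ε / (‖c‖ + 1)) ≤ ε := by
    rw [mul_div_assoc', div_le_iff₀ h1]
    nlinarith [norm_nonneg c]
  refine ⟨L.map (fun q => (c * q.1, q.2)), ?_, ?_, ?_, ?_⟩
  · rw [List.map_map]; exact h2
  · intro q hq
    obtain ⟨q', hq', rfl⟩ := List.mem_map.mp hq
    exact h3 q' hq'
  · intro m
    rw [← List.map_take, lsum_smul, norm_smul, norm_smul]
    calc ‖c‖ * ‖lsum K (List.take m L)‖ ≤ ‖c‖ * (‖g‖ + ε / (‖c‖ + 1)) := by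
          exact mul_le_mul_of_nonneg_left (h4 m) (norm_nonneg c)
      _ = ‖c‖ * ‖g‖ + ‖c‖ * (ε / (‖c‖ + 1)) := by ring
      _ ≤ ‖c‖ * ‖g‖ + ε := by linarith
  · rw [lsum_smul, ← smul_sub, norm_smul]
    exact (mul_le_mul_of_nonneg_left h5 (norm_nonneg c)).trans key

theorem Reach.step {K : S → X} {A : Finset S} {a g : X} {e B δ : ℝ} (hR : Reach K A a e B)
    (hg : Good K g) (hδ : 0 < δ) (hB : ‖a‖ + e + ‖g‖ + δ ≤ B) : Reach K A (a + g) (e + δ) B := by
  classical
  obtain ⟨L, h1, h2, h3, h4⟩ := hR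
  obtain ⟨M, g1, g2, g3, g4⟩ := hg δ hδ (A ∪ (L.map Prod.snd).toFinset)
  refine ⟨L ++ M, ?_, ?_, ?_, ?_⟩
  · rw [List.map_append, List.nodup_append]
    refine ⟨h1, g1, ?_⟩
    intro s hs t ht hst
    subst hst
    obtain ⟨q, hq, rfl⟩ := List.mem_map.mp ht
    exact g2 q hq (Finset.mem_union_right _ (List.mem_toFinset.mpr hs))
  · intro q hq
    rcases List.mem_append.mp hq with hq | hq
    · exact h2 q hq
    · intro hA
      exact g2 q hq (Finset.mem_union_left _ hA)
  · intro m
    rcases le_total m L.length with hm | hm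
    · rw [List.take_append_of_le_length hm]
      exact h3 m
    · obtain ⟨d, rfl⟩ := Nat.exists_eq_add_of_le hm
      rw [List.take_length_add_append, lsum_append]
      have e1 : lsum K L = (lsum K L - a) + a := by abel
      calc ‖lsum K L + lsum K (List.take d M)‖ ≤ ‖lsum K L‖ + ‖lsum K (List.take d M)‖ := norm_add_le _ _
        _ ≤ (e + ‖a‖) + (‖g‖ + δ) := by
            refine add_le_add ?_ (g3 d)
            rw [e1]
            exact (norm_add_le _ _).trans (add_le_add h4 le_rfl)
        _ ≤ B := by linarith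
  · rw [lsum_append]
    have : lsum K L + lsum K M - (a + g) = (lsum K L - a) + (lsum K M - g) := by abel
    rw [this]
    exact (norm_add_le _ _).trans (add_le_add h4 g4)

theorem Good.add {K : S → X} {g h : X} (hg : Good K g) (hh : Good K h) : Good K (g + h) := by
  intro ε hε A
  obtain ⟨M, hM⟩ := exists_nat_gt ((‖g‖ + ‖h‖) / (ε / 4))
  have hM0 : (0 : ℝ) < M := lt_of_le_of_lt (by positivity) hM
  have hM1 : (‖g‖ + ‖h‖) / M ≤ ε / 4 := by
    rw [div_le_iff₀ hM0]
    rw [div_lt_iff₀ (by positivity)] at hM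
    linarith
  set δ : ℝ := ε / (8 * M) with hδ
  have hδ0 : 0 < δ := by positivity
  have hMδ : 2 * M * δ = ε / 4 := by rw [hδ]; field_simp; ring
  have hM1' : (1 : ℝ) ≤ M := by exact_mod_cast Nat.one_le_iff_ne_zero.mpr (by rintro rfl; simp at hM0)
  have hδε : δ ≤ ε / 8 := by
    rw [hδ]
    apply div_le_div_of_nonneg_left hε.le (by norm_num) (by linarith)
  have hg' := hg.smul ((1 / M : ℝ) : ℂ)
  have hh' := hh.smul ((1 / M : ℝ) : ℂ)
  have key : ∀ t : ℕ, t ≤ M → Reach K A (((t / M : ℝ) : ℂ) • (g + h)) (2 * t * δ) (‖g + h‖ + ε) := by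
    intro t
    induction t with
    | zero =>
      intro _
      refine ⟨[], by simp, by simp, ?_, by simp [lsum]⟩
      intro m
      simp [lsum]
      positivity
    | succ t ih =>
      intro ht
      have htM : (t : ℝ) + 1 ≤ M := by exact_mod_cast ht
      have ht0 : (0 : ℝ) ≤ t := by positivity
      have hR := ih (by omega)
      have n1 : ‖(((t / M : ℝ) : ℂ) • (g + h))‖ ≤ ‖g + h‖ := by
        rw [norm_smul, Complex.norm_real, Real.norm_of_nonneg (by positivity)]
        have : (t : ℝ) / M ≤ 1 := by rw [div_le_one hM0]; linarith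
        nlinarith [norm_nonneg (g + h)]
      have n2 : ‖(((1 / M : ℝ) : ℂ) • g)‖ ≤ ‖g‖ / M := by
        rw [norm_smul, Complex.norm_real, Real.norm_of_nonneg (by positivity)]
        apply le_of_eq; ring
      have n3 : ‖(((1 / M : ℝ) : ℂ) • h)‖ ≤ ‖h‖ / M := by
        rw [norm_smul, Complex.norm_real, Real.norm_of_nonneg (by positivity)]
        apply le_of_eq; ring
      have n4 : ‖g‖ / M + ‖h‖ / M ≤ ε / 4 := by rw [← add_div]; exact hM1
      have n5 : 2 * t * δ ≤ ε / 4 := by
        rw [← hMδ]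
        apply mul_le_mul_of_nonneg_right _ hδ0.le
        linarith
      have hh0 : 0 ≤ ‖h‖ / M := by positivity
      have hg0 : 0 ≤ ‖g‖ / M := by positivity
      have s1 := hR.step hg' hδ0 (by linarith)
      have n6 : ‖(((t / M : ℝ) : ℂ) • (g + h)) + (((1 / M : ℝ) : ℂ) • g)‖ ≤ ‖g + h‖ + ‖g‖ / M :=
        (norm_add_le _ _).trans (add_le_add n1 n2)
      have s2 := s1.step hh' hδ0 (by linarith)
      have e1 : (((t / M : ℝ) : ℂ) • (g + h)) + (((1 / M : ℝ) : ℂ) • g) + (((1 / M : ℝ) : ℂ) • h) =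
          ((((t + 1 : ℕ) : ℝ) / M : ℝ) : ℂ) • (g + h) := by
        rw [add_assoc, ← smul_add, ← add_smul]
        congr 1
        push_cast
        ring
      have e2 : 2 * (t : ℝ) * δ + δ + δ = 2 * ((t + 1 : ℕ) : ℝ) * δ := by push_cast; ring
      rw [e1, e2] at s2
      exact s2
  obtain ⟨L, h1, h2, h3, h4⟩ := key M le_rfl
  refine ⟨L, h1, h2, h3, ?_⟩
  rw [div_self hM0.ne', hMδ] at h4
  simp only [Complex.ofReal_one, one_smul] at h4
  linarith

theorem Good.closure {K : S → X} {g : X} (h : ∀ ε : ℝ, 0 < ε → ∃ g', Good K g' ∧ ‖g' - g‖ ≤ ε) :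
    Good K g := by
  intro ε hε A
  obtain ⟨g', hg', hd⟩ := h (ε / 2) (by positivity)
  obtain ⟨L, h1, h2, h3, h4⟩ := hg' (ε / 2) (by positivity) A
  refine ⟨L, h1, h2, ?_, ?_⟩
  · intro m
    have e1 : g' = (g' - g) + g := by abel
    have : ‖g'‖ ≤ ε / 2 + ‖g‖ := by
      rw [e1]; exact (norm_add_le _ _).trans (add_le_add hd le_rfl)
    linarith [h3 m]
  · have : lsum K L - g = (lsum K L - g') + (g' - g) := by abel
    rw [this]
    exact (norm_add_le _ _).trans (by linarith)

theorem Good.zero (K : S → X) : Good K (0 : X) := by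
  intro ε hε A
  refine ⟨[], by simp, by simp, ?_, by simp [lsum, hε.le]⟩
  intro m
  simp [lsum, hε.le]

theorem Good.kernel {K : S → X} {s : S} (h : ∀ ε : ℝ, 0 < ε → {s' | ‖K s' - K s‖ ≤ ε}.Infinite) :
    Good K (K s) := by
  intro ε hε A
  obtain ⟨s', hs', hA⟩ := (h ε hε).exists_notMem_finset A
  refine ⟨[(1, s')], by simp, by simpa using hA, ?_, by simpa [lsum] using hs'⟩
  intro m
  have e1 : ‖K s'‖ ≤ ‖K s‖ + ε := by
    have : K s' = (K s' - K s) + K s := by abel
    rw [this]
    refine (norm_add_le _ _).trans ?_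
    have := Set.mem_ofPred_eq ▸ hs'
    linarith
  rcases m with _ | m
  · simp [lsum]; positivity
  · simpa [lsum] using e1

/-- The good vectors as a submodule. -/
def goodSubmodule (K : S → X) : Submodule ℂ X where
  carrier := {g | Good K g}
  add_mem' := fun hg hh => hg.add hh
  zero_mem' := Good.zero K
  smul_mem' := fun c _ hg => hg.smul c

theorem good_of_dense {K : S → X} (h : ∀ s, ∀ ε : ℝ, 0 < ε → {s' | ‖K s' - K s‖ ≤ ε}.Infinite)
    (hd : ∀ g : X, g ∈ closure (Submodule.span ℂ (Set.range K) : Set X)) (g : X) : Good K g := by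
  apply Good.closure
  intro ε hε
  obtain ⟨g', hg', hd'⟩ := Metric.mem_closure_iff.mp (hd g) ε hε
  refine ⟨g', ?_, ?_⟩
  · have : Submodule.span ℂ (Set.range K) ≤ goodSubmodule K := by
      rw [Submodule.span_le]
      rintro _ ⟨s, rfl⟩
      exact Good.kernel (h s)
    exact this hg'
  · rw [dist_comm, dist_eq_norm] at hd'
    exact hd'.le

/-- **Existence of representing systems.** If every kernel is a limit of infinitely many others and
the kernels span a dense subspace of a separable space, then some injective sequence of kernels is a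
representing system. -/
theorem exists_representing [TopologicalSpace.SeparableSpace X] [Infinite S] (K : S → X)
    (hgood : ∀ g, Good K g) :
    ∃ Λ : ℕ → S, Function.Injective Λ ∧ ∀ f : X, ∃ c : ℕ → ℂ,
      Tendsto (fun N => ∑ k ∈ Finset.range N, c k • K (Λ k)) atTop (𝓝 f) := by
  classical
  let G : ℕ → X := fun j => TopologicalSpace.denseSeq X (Nat.unpair j).1
  let E : ℕ → ℝ := fun j => 1 / (((Nat.unpair j).2 : ℝ) + 1)
  have hE : ∀ j, 0 < E j := fun j => by positivity
  obtain ⟨Λ, n, L, hinj, hmono, hn0, hlen, hL, hQ⟩ := concat_blocks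
    (fun j _ L => (∀ m, ‖lsum K (L.take m)‖ ≤ ‖G j‖ + E j) ∧ ‖lsum K L - G j‖ ≤ E j) (by
      intro j A
      obtain ⟨L, h1, h2, h3, h4⟩ := hgood (G j) (E j) (hE j) A
      obtain ⟨s, hs⟩ := Infinite.exists_notMem_finset (A ∪ (L.map Prod.snd).toFinset)
      have hs1 : s ∉ A := fun h => hs (Finset.mem_union_left _ h)
      have hs2 : s ∉ L.map Prod.snd := fun h => hs (Finset.mem_union_right _ (List.mem_toFinset.mpr h))
      refine ⟨L ++ [(0, s)], by simp, ?_, ?_, ?_, ?_⟩
      · rw [List.map_append, List.nodup_append]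
        refine ⟨h1, by simp, ?_⟩
        intro a ha b hb hab
        simp at hb
        rw [hab, hb] at ha
        exact hs2 ha
      · intro q hq
        rcases List.mem_append.mp hq with hq | hq
        · exact h2 q hq
        · simp at hq
          rw [hq]; exact hs1
      · intro m
        rcases le_total m L.length with hm | hm
        · rw [List.take_append_of_le_length hm]
          exact h3 m
        · obtain ⟨d, rfl⟩ := Nat.exists_eq_add_of_le hm
          rw [List.take_length_add_append, lsum_append]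
          have : lsum K (List.take d [((0 : ℂ), s)]) = 0 := by
            rcases d with _ | d <;> simp [lsum]
          rw [this, add_zero]
          have := h3 L.length
          rwa [List.take_length] at this
      · rw [lsum_append]
        simpa [lsum] using h4)
  refine ⟨Λ, hinj, fun f => ?_⟩
  apply greedy (fun k => K (Λ k))
  intro g ε hε n₀
  obtain ⟨i, hi⟩ : ∃ i, ‖TopologicalSpace.denseSeq X i - g‖ ≤ ε / 3 := by
    have h1 := TopologicalSpace.denseRange_denseSeq X
    obtain ⟨i, hi⟩ := h1.exists_dist_lt g (show (0 : ℝ) < ε / 3 by positivity)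
    exact ⟨i, by rw [← dist_eq_norm, dist_comm]; exact hi.le⟩
  obtain ⟨k, hk⟩ := exists_nat_gt (max (3 / ε) n₀)
  have hk1 : 3 / ε < k := lt_of_le_of_lt (le_max_left _ _) hk
  have hk2 : n₀ < k := by exact_mod_cast lt_of_le_of_lt (le_max_right _ _) hk
  set j := Nat.pair i k with hj
  have hGj : G j = TopologicalSpace.denseSeq X i := by simp [G, hj]
  have hEj : E j ≤ ε / 3 := by
    simp only [E, hj, Nat.unpair_pair]
    rw [div_le_iff₀ (by positivity)]
    rw [div_lt_iff₀ hε] at hk1
    nlinarith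
  obtain ⟨hQ1, hQ2⟩ := hQ j
  rw [hGj] at hQ1 hQ2
  have hnj : n₀ < n j := lt_of_lt_of_le hk2 ((Nat.right_le_pair i k).trans hmono.le_apply)
  have hGn : ‖TopologicalSpace.denseSeq X i‖ ≤ ‖g‖ + ε / 3 := by
    have : TopologicalSpace.denseSeq X i = g + (TopologicalSpace.denseSeq X i - g) := by abel
    rw [this]
    exact (norm_add_le _ _).trans (add_le_add le_rfl hi)
  let c : ℕ → ℂ := fun k => if k < n j then 0 else ((L j).getD (k - n j) (0, Λ 0)).1
  have hc : ∀ i (hi : i < (L j).length), c (n j + i) = ((L j)[i]).1 := by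
    intro i hi
    simp only [c]
    rw [if_neg (by omega), Nat.add_sub_cancel_left, List.getD_eq_getElem?_getD,
      List.getElem?_eq_getElem hi]
    rfl
  have hx : ∀ i (hi : i < (L j).length), K (Λ (n j + i)) = K ((L j)[i]).2 := by
    intro i hi
    rw [hL j i hi]
  have hzero : ∀ N, N ≤ n j → ∑ k ∈ Finset.Ico n₀ N, c k • K (Λ k) = 0 := by
    intro N hN
    apply Finset.sum_eq_zero
    intro k hk
    rw [Finset.mem_Ico] at hk
    simp only [c]
    rw [if_pos (by omega), zero_smul]
  have hsum : ∀ m, m ≤ (L j).length → ∑ k ∈ Finset.Ico n₀ (n j + m), c k • K (Λ k) = lsum K ((L j).take m) := by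
    intro m hm
    rw [← Finset.sum_Ico_consecutive _ hnj.le (Nat.le_add_right (n j) m), hzero _ le_rfl, zero_add]
    exact sum_Ico_eq_lsum K (L j) (fun k => K (Λ k)) (n j) c hc hx m hm
  refine ⟨n (j + 1), lt_trans hnj (hmono (Nat.lt_succ_self j)), c, ?_, ?_⟩
  · intro N hN
    rcases le_total N (n j) with h | h
    · rw [hzero N h, norm_zero]; positivity
    · obtain ⟨m, rfl⟩ := Nat.exists_eq_add_of_le h
      rw [hlen] at hN
      rw [hsum m (by omega)]
      linarith [hQ1 m]
  · rw [hlen, hsum _ le_rfl, List.take_length]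
    have : lsum K (L j) - g = (lsum K (L j) - TopologicalSpace.denseSeq X i) + (TopologicalSpace.denseSeq X i - g) := by
      abel
    rw [this]
    exact (norm_add_le _ _).trans (by linarith)

end Pool.Agent.H155R3
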