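import Pool.Agent.H155R3.D1
import Pool.Agent.H155R3.Good

set_option autoImplicit false

/-!
# Shells of points: the kernels at the `N`-th roots of finitely many levels
-/

namespace Pool.Agent.H155R3

open Finset

/-- The circle `ℝ/ℤ`. -/
abbrev Tor : Type := AddCircle (1 : ℝ)

/-- The open unit disc. -/
abbrev DD : Type := {z : ℂ // ‖z‖ < 1}

theorem norm_e1 (t : Tor) : ‖(fourier 1 t : ℂ)‖ = 1 := by
  rw [fourier_apply]
  exact Circle.norm_coe _

theorem cker_ne (s : DD) (t : Tor) : 1 - starRingEnd ℂ s.1 * (fourier 1 t : ℂ) ≠ 0 := by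
  intro h
  have h1 : starRingEnd ℂ s.1 * (fourier 1 t : ℂ) = 1 := by linear_combination -h
  have h2 : ‖starRingEnd ℂ s.1 * (fourier 1 t : ℂ)‖ = 1 := by rw [h1, norm_one]
  rw [norm_mul, norm_e1, mul_one, RCLike.norm_conj] at h2
  exact s.2.ne h2

/-- The Cauchy kernel on the circle. -/
noncomputable def cker (s : DD) : C(Tor, ℂ) :=
  ⟨fun t => (1 - starRingEnd ℂ s.1 * (fourier 1 t : ℂ))⁻¹, by
    apply Continuous.inv₀
    · exact continuous_const.sub (continuous_const.mul (fourier 1).continuous)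
    · exact cker_ne s⟩

theorem cker_apply (s : DD) (t : Tor) : cker s t = (1 - starRingEnd ℂ s.1 * (fourier 1 t : ℂ))⁻¹ := rfl

/-- A polynomial on the circle. -/
noncomputable def polyT (g : Polynomial ℂ) : C(Tor, ℂ) :=
  ⟨fun t => g.eval (fourier 1 t : ℂ), g.continuous.comp (fourier 1).continuous⟩

theorem polyT_apply (g : Polynomial ℂ) (t : Tor) : polyT g t = g.eval (fourier 1 t : ℂ) := rfl

theorem infinite_unimodular : {v : ℂ | ‖v‖ = 1}.Infinite := by
  have h : Function.Injective (fun k : ℕ => (1 + (k : ℂ) * Complex.I) / (1 - (k : ℂ) * Complex.I)) := by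
    intro k m hkm
    have hne : ∀ j : ℕ, (1 - (j : ℂ) * Complex.I) ≠ 0 := by
      intro j hj
      have := congrArg Complex.re hj
      simp at this
    simp only at hkm
    rw [div_eq_div_iff (hne k) (hne m)] at hkm
    have := congrArg Complex.im hkm
    simp at this
    have h3 : (k : ℝ) = m := by linarith
    exact_mod_cast h3
  refine (Set.infinite_range_of_injective h).mono ?_
  rintro _ ⟨k, rfl⟩
  have e : ‖(1 + (k : ℂ) * Complex.I)‖ = ‖(1 - (k : ℂ) * Complex.I)‖ := by
    have h1 : ‖(1 + (k : ℂ) * Complex.I)‖ ^ 2 = ‖(1 - (k : ℂ) * Complex.I)‖ ^ 2 := by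
      rw [Complex.sq_norm, Complex.sq_norm, Complex.normSq_apply, Complex.normSq_apply]
      simp
    exact (pow_left_inj₀ (norm_nonneg _) (norm_nonneg _) two_ne_zero).1 h1
  change ‖(1 + (k : ℂ) * Complex.I) / (1 - (k : ℂ) * Complex.I)‖ = 1
  rw [norm_div, e, div_self]
  rw [norm_ne_zero_iff]
  intro hj
  have := congrArg Complex.re hj
  simp at this

/-- The number of points of the list in the disc of radius `r`. -/
noncomputable def cnt (L : List (ℂ × DD)) (r : ℝ) : ℕ :=
  L.countP (fun q => decide (‖q.2.1‖ < r))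

theorem cnt_append (L M : List (ℂ × DD)) (r : ℝ) : cnt (L ++ M) r = cnt L r + cnt M r := by
  simp [cnt]

theorem cnt_le (L : List (ℂ × DD)) (r : ℝ) : cnt L r ≤ L.length := List.countP_le_length

/-- Radii. -/
theorem radius_facts (lam : ℝ) (h1 : 1 / 2 ≤ lam) (h2 : lam < 1) (N : ℕ) (hN : 0 < N) :
    ∃ rho : ℝ, rho ^ N = lam ∧ lam ≤ rho ∧ rho < 1 ∧ (1 - lam) / N ≤ 1 - rho ∧
      1 - rho ≤ 2 * (1 - lam) / N := by
  have hN' : (0 : ℝ) < N := by exact_mod_cast hN
  set rho : ℝ := lam ^ ((N : ℝ)⁻¹) with hrho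
  have hl : 0 < lam := by linarith
  have hpow : rho ^ N = lam := Real.rpow_inv_natCast_pow hl.le hN.ne'
  have hr0 : 0 < rho := Real.rpow_pos_of_pos hl _
  have hr1 : rho < 1 := Real.rpow_lt_one hl.le h2 (by positivity)
  have hlr : lam ≤ rho := by
    rw [← hpow]
    exact pow_le_of_le_one hr0.le hr1.le hN.ne'
  refine ⟨rho, hpow, hlr, hr1, ?_, ?_⟩
  · rw [div_le_iff₀ hN']
    have := one_add_mul_le_pow (a := rho - 1) (by linarith) N
    rw [add_sub_cancel, hpow] at this
    linarith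
  · rw [le_div_iff₀ hN']
    have h3 := one_add_mul_le_pow (a := rho⁻¹ - 1) (by
      have : 0 < rho⁻¹ := by positivity
      linarith) N
    rw [add_sub_cancel, inv_pow, hpow] at h3
    have h4 : 1 - rho ≤ rho⁻¹ - 1 := by
      have h5 : rho * rho⁻¹ = 1 := mul_inv_cancel₀ hr0.ne'
      have : 0 < rho⁻¹ := by positivity
      nlinarith [sq_nonneg (rho - 1)]
    have h6 : lam⁻¹ - 1 ≤ 2 * (1 - lam) := by
      have h5 : lam * lam⁻¹ = 1 := mul_inv_cancel₀ hl.ne'
      have h7 : lam⁻¹ ≤ 2 := by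
        rw [inv_le_comm₀ hl (by norm_num)]
        linarith
      have : 0 < lam⁻¹ := by positivity
      nlinarith
    have h8 : (N : ℝ) * (1 - rho) ≤ N * (rho⁻¹ - 1) := mul_le_mul_of_nonneg_left h4 hN'.le
    linarith

/-- **The shell lemma.** -/
theorem shell (κ : ℝ) (hκ0 : 0 < κ) (hκ1 : κ ≤ 1 / 2) (J : ℕ) (c : ℕ → ℂ)
    (hc : ∀ z : ℂ, ‖z‖ ≤ 1 →
      1 - ∑ j ∈ range J, c j * (1 - ((1 - κ / (j + 1) : ℝ) : ℂ) * z)⁻¹ =
        ∏ j ∈ range J, (((1 - κ / (j + 1) : ℝ) : ℂ) * (((1 - κ / (j + 1) : ℝ) : ℂ) - z) *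
          (1 - ((1 - κ / (j + 1) : ℝ) : ℂ) * z)⁻¹))
    (g : Polynomial ℂ) :
    ∃ C : ℝ, 0 ≤ C ∧ ∀ n : ℕ, g.natDegree < 2 ^ n → ∀ A : Finset DD, ∃ L : List (ℂ × DD),
      (L.map Prod.snd).Nodup ∧ (∀ q ∈ L, q.2 ∉ A) ∧ L.length = J * 2 ^ n ∧
      ‖lsum cker L - polyT g‖ ≤ ‖polyT g‖ * ∏ j ∈ range J, (1 - κ / (j + 1) : ℝ) ∧
      (∀ t, (L.map (fun q => ‖q.1‖ * ‖cker q.2 t‖)).sum ≤ C * (n + 1)) ∧
      (∀ q ∈ L, 1 - ‖q.2.1‖ ≤ 2 * κ / 2 ^ n) ∧
      (∀ r < (1 : ℝ), (1 - r) * cnt L r ≤ 2 * κ) := by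
  classical
  set lam : ℕ → ℝ := fun j => 1 - κ / (j + 1) with hlam
  have hj1 : ∀ j : ℕ, (1 : ℝ) ≤ (j : ℝ) + 1 := fun j => by
    have : (0 : ℝ) ≤ j := by positivity
    linarith
  have hlam1 : ∀ j, 1 / 2 ≤ lam j := by
    intro j
    simp only [hlam]
    have : κ / (j + 1) ≤ κ := div_le_self hκ0.le (hj1 j)
    linarith
  have hlam2 : ∀ j, lam j < 1 := by
    intro j
    simp only [hlam]
    have : 0 < κ / (j + 1) := by positivity
    linarith
  have hlam3 : ∀ j, 1 - lam j = κ / (j + 1) := fun j => by simp [hlam]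
  have hlaminj : ∀ i j, lam i = lam j → i = j := by
    intro i j h
    have h1 : κ / ((i : ℝ) + 1) = κ / (j + 1) := by
      rw [← hlam3, ← hlam3, h]
    rw [div_eq_div_iff (by positivity) (by positivity)] at h1
    have h2 : (j : ℝ) + 1 = i + 1 := mul_left_cancel₀ hκ0.ne' h1
    have h3 : (j : ℝ) = i := by linarith
    exact (by exact_mod_cast h3.symm)
  -- a bound for `g` on the disc of radius two
  obtain ⟨G, hG⟩ := (isCompact_closedBall (0 : ℂ) 2).exists_bound_of_continuousOn (f := fun z => g.eval z)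
    g.continuous.continuousOn
  have hG0 : 0 ≤ G := (norm_nonneg _).trans (hG 0 (by simp))
  -- a lower bound for `1 - lam j`
  obtain ⟨i0, hi0⟩ := exists_pow_lt_of_lt_one (show (0 : ℝ) < κ / (J + 1) by positivity)
    (show (1 / 2 : ℝ) < 1 by norm_num)
  have hlow : ∀ j < J, κ / (J + 1) ≤ 1 - lam j := by
    intro j hj
    rw [hlam3]
    apply div_le_div_of_nonneg_left hκ0.le (by positivity)
    have : (j : ℝ) < J := by exact_mod_cast hj
    linarith
  set S : ℝ := ∑ j ∈ range J, ‖c j‖ with hS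
  have hS0 : 0 ≤ S := sum_nonneg fun _ _ => norm_nonneg _
  refine ⟨S * G * (16 * (i0 + 1) / (κ / (J + 1))), by positivity, fun n hn A => ?_⟩
  set N : ℕ := 2 ^ n with hNdef
  have hN : 0 < N := by positivity
  have hN' : (0 : ℝ) < N := by exact_mod_cast hN
  have hNR : (N : ℝ) = 2 ^ n := by rw [hNdef]; push_cast; rfl
  have hw := Complex.isPrimitiveRoot_exp N hN.ne'
  set w : ℂ := Complex.exp (2 * Real.pi * Complex.I / N) with hwdef
  have hw1 : ‖w‖ = 1 := hw.norm'_eq_one hN.ne'
  have hw0 : w ≠ 0 := hw.ne_zero hN.ne'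
  choose rho hr1 hr2 hr3 hr4 hr5 using fun j => radius_facts (lam j) (hlam1 j) (hlam2 j) N hN
  have hr0 : ∀ j, 0 < rho j := fun j => by linarith [hlam1 j, hr2 j]
  -- the rotation
  let bad : Set ℂ := ⋃ a ∈ A, ⋃ j ∈ range J, ⋃ l ∈ range N, {starRingEnd ℂ a.1 / ((rho j : ℂ) * w ^ l)}
  have hbad : bad.Finite := by
    refine A.finite_toSet.biUnion fun a _ => ?_
    refine (range J).finite_toSet.biUnion fun j _ => ?_
    exact (range N).finite_toSet.biUnion fun l _ => Set.finite_singleton _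
  obtain ⟨v, hv1, hvbad⟩ := infinite_unimodular.exists_notMem_finite hbad
  have hv : ‖v‖ = 1 := hv1
  have hv0 : v ≠ 0 := by rw [← norm_ne_zero_iff, hv]; norm_num
  -- points
  have hptnorm : ∀ j l : ℕ, ‖starRingEnd ℂ ((rho j : ℂ) * v * w ^ l)‖ = rho j := by
    intro j l
    rw [RCLike.norm_conj, norm_mul, norm_mul, norm_pow, hw1, hv, Complex.norm_real,
      Real.norm_of_nonneg (hr0 j).le]
    simp
  let pt : ℕ → ℕ → DD := fun j l => ⟨starRingEnd ℂ ((rho j : ℂ) * v * w ^ l), by rw [hptnorm]; exact hr3 j⟩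
  have hptn : ∀ j l, ‖(pt j l).1‖ = rho j := hptnorm
  let coef : ℕ → ℕ → ℂ := fun j l => c j * g.eval (1 / ((rho j : ℂ) * v * w ^ l)) / N
  let F : Fin J × Fin N → ℂ × DD := fun p => (coef p.1 p.2, pt p.1 p.2)
  have hFinj : Function.Injective (fun p => (F p).2) := by
    rintro ⟨j, l⟩ ⟨j', l'⟩ h
    simp only [F, pt] at h
    have h1 : starRingEnd ℂ ((rho j : ℂ) * v * w ^ (l : ℕ)) = starRingEnd ℂ ((rho j' : ℂ) * v * w ^ (l' : ℕ)) :=
      congrArg Subtype.val h
    have h2 : rho j = rho j' := by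
      rw [← hptnorm j l, ← hptnorm j' l', h1]
    have h3 : (j : ℕ) = j' := hlaminj _ _ (by rw [← hr1, ← hr1, h2])
    have h4 : (rho j : ℂ) * v * w ^ (l : ℕ) = (rho j' : ℂ) * v * w ^ (l' : ℕ) :=
      (starRingEnd ℂ).injective h1
    rw [← h2] at h4
    have h5 : (rho j : ℂ) * v ≠ 0 := mul_ne_zero (by exact_mod_cast (hr0 j).ne') hv0
    have h6 := mul_left_cancel₀ h5 h4
    have h7 := hw.pow_inj l.2 l'.2 h6
    exact Prod.ext (Fin.ext h3) (Fin.ext h7)
  set L : List (ℂ × DD) := (Finset.univ : Finset (Fin J × Fin N)).toList.map F with hL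
  have hsumL : ∀ {M : Type} [AddCommMonoid M] (φ : ℂ × DD → M), (L.map φ).sum =
      ∑ j ∈ range J, ∑ l ∈ range N, φ (coef j l, pt j l) := by
    intro M _ φ
    rw [hL, List.map_map, Finset.sum_map_toList, ← Finset.univ_product_univ, Finset.sum_product]
    rw [Finset.sum_range]
    apply Finset.sum_congr rfl
    intro j _
    rw [Finset.sum_range]
    rfl
  have hmemL : ∀ q ∈ L, ∃ j < J, ∃ l < N, q = (coef j l, pt j l) := by
    intro q hq
    rw [hL, List.mem_map] at hq
    obtain ⟨⟨j, l⟩, _, rfl⟩ := hq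
    exact ⟨j, j.2, l, l.2, rfl⟩
  refine ⟨L, ?_, ?_, ?_, ?_, ?_, ?_, ?_⟩
  · rw [hL, List.map_map]
    exact (Finset.nodup_toList _).map hFinj
  · intro q hq hA
    obtain ⟨j, hj, l, hl, rfl⟩ := hmemL q hq
    apply hvbad
    simp only [bad, Set.mem_iUnion]
    refine ⟨pt j l, hA, j, mem_range.mpr hj, l, mem_range.mpr hl, ?_⟩
    rw [Set.mem_singleton_iff]
    have : starRingEnd ℂ (pt j l).1 = (rho j : ℂ) * v * w ^ l := by
      simp only [pt]
      rw [Complex.conj_conj]
    rw [this]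
    have h5 : (rho j : ℂ) ≠ 0 := by exact_mod_cast (hr0 j).ne'
    have h6 : w ^ l ≠ 0 := pow_ne_zero _ hw0
    field_simp
  · rw [hL, List.length_map, Finset.length_toList]
    simp
  · -- the sum of the shell
    rw [ContinuousMap.norm_le _ (by
      apply mul_nonneg (norm_nonneg _)
      apply prod_nonneg
      intro j _
      have := hlam1 j
      simp only [hlam] at this
      linarith)]
    intro t
    set z : ℂ := (fourier 1 t : ℂ) with hz
    have hz1 : ‖z‖ = 1 := norm_e1 t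
    have e1 : lsum cker L t = ∑ j ∈ range J, ∑ l ∈ range N, coef j l * (1 - (rho j : ℂ) * v * w ^ l * z)⁻¹ := by
      have : lsum cker L = ∑ j ∈ range J, ∑ l ∈ range N, coef j l • cker (pt j l) := hsumL _
      rw [this, ContinuousMap.sum_apply]
      apply sum_congr rfl
      intro j _
      rw [ContinuousMap.sum_apply]
      apply sum_congr rfl
      intro l _
      rw [ContinuousMap.smul_apply, cker_apply, smul_eq_mul]
      have : starRingEnd ℂ (pt j l).1 = (rho j : ℂ) * v * w ^ l := by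
        simp only [pt]
        rw [Complex.conj_conj]
      rw [this]
    have hx1 : ∀ j, ((rho j : ℂ) * v * z) ^ N = (lam j : ℂ) * (v * z) ^ N := by
      intro j
      rw [mul_assoc, mul_pow, ← hr1 j]
      push_cast
      rfl
    have hvz : ‖(v * z) ^ N‖ = 1 := by rw [norm_pow, norm_mul, hv, hz1]; simp
    have e2 : ∀ j ∈ range J, ∑ l ∈ range N, coef j l * (1 - (rho j : ℂ) * v * w ^ l * z)⁻¹ =
        g.eval z * (c j * (1 - (lam j : ℂ) * (v * z) ^ N)⁻¹) := by
      intro j _
      have hxne : (rho j : ℂ) * v * z ≠ 0 := by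
        rw [← norm_ne_zero_iff, norm_mul, norm_mul, hv, hz1, Complex.norm_real, Real.norm_of_nonneg (hr0 j).le]
        simp [(hr0 j).ne']
      have hxN : ((rho j : ℂ) * v * z) ^ N ≠ 1 := by
        intro h
        have h2 : ‖((rho j : ℂ) * v * z) ^ N‖ = 1 := by rw [h, norm_one]
        rw [hx1, norm_mul, hvz, Complex.norm_real, Real.norm_of_nonneg (by linarith [hlam1 j]), mul_one] at h2
        exact (hlam2 j).ne h2
      have h1 := average_kernel hN hw ((rho j : ℂ) * v * z) z hxne hxN g hn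
      rw [hx1] at h1
      have h3 : ∑ l ∈ range N, coef j l * (1 - (rho j : ℂ) * v * w ^ l * z)⁻¹ =
          (c j / N) * ∑ l ∈ range N, g.eval (z / ((rho j : ℂ) * v * z * w ^ l)) * (1 - (rho j : ℂ) * v * z * w ^ l)⁻¹ := by
        rw [mul_sum]
        apply sum_congr rfl
        intro l _
        have hz0 : z ≠ 0 := by rw [← norm_ne_zero_iff, hz1]; norm_num
        have e3 : z / ((rho j : ℂ) * v * z * w ^ l) = 1 / ((rho j : ℂ) * v * w ^ l) := by
          have h5 : (rho j : ℂ) ≠ 0 := by exact_mod_cast (hr0 j).ne'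
          have h6 : w ^ l ≠ 0 := pow_ne_zero _ hw0
          field_simp
        have e4 : (rho j : ℂ) * v * z * w ^ l = (rho j : ℂ) * v * w ^ l * z := by ring
        rw [e3, e4]
        simp only [coef]
        ring
      rw [h3, h1]
      have : (N : ℂ) ≠ 0 := by exact_mod_cast hN.ne'
      field_simp
    rw [ContinuousMap.sub_apply, e1, sum_congr rfl e2, ← mul_sum, polyT_apply]
    have e5 := hc ((v * z) ^ N) hvz.le
    have e6 : g.eval z * ∑ j ∈ range J, c j * (1 - (lam j : ℂ) * (v * z) ^ N)⁻¹ - g.eval z =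
        -(g.eval z * ∏ j ∈ range J, ((lam j : ℂ) * ((lam j : ℂ) - (v * z) ^ N) *
          (1 - (lam j : ℂ) * (v * z) ^ N)⁻¹)) := by
      rw [← e5]; ring
    rw [e6, norm_neg, norm_mul]
    have e7 : ‖∏ j ∈ range J, ((lam j : ℂ) * ((lam j : ℂ) - (v * z) ^ N) *
          (1 - (lam j : ℂ) * (v * z) ^ N)⁻¹)‖ = ∏ j ∈ range J, lam j := by
      rw [norm_prod]
      apply prod_congr rfl
      intro j _
      exact norm_factor (lam j) (by linarith [hlam1 j]) (hlam2 j) _ hvz
    rw [e7]
    apply mul_le_mul_of_nonneg_right _ (prod_nonneg fun j _ => by linarith [hlam1 j])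
    exact ContinuousMap.norm_coe_le_norm (polyT g) t
  · -- the absolute bound
    intro t
    set z : ℂ := (fourier 1 t : ℂ) with hz
    have hz1 : ‖z‖ = 1 := norm_e1 t
    rw [hsumL (fun q => ‖q.1‖ * ‖cker q.2 t‖)]
    have hI : ∀ j < J, (1 / 2 : ℝ) ^ (n + i0) ≤ 1 - rho j := by
      intro j hj
      refine le_trans ?_ (hr4 j)
      rw [le_div_iff₀ hN', hNR, pow_add]
      have : (1 / 2 : ℝ) ^ n * 2 ^ n = 1 := by rw [← mul_pow]; norm_num
      calc (1 / 2 : ℝ) ^ n * (1 / 2) ^ i0 * 2 ^ n = ((1 / 2 : ℝ) ^ n * 2 ^ n) * (1 / 2) ^ i0 := by ring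
        _ = (1 / 2) ^ i0 := by rw [this, one_mul]
        _ ≤ κ / (J + 1) := hi0.le
        _ ≤ 1 - lam j := hlow j hj
    have hb : ∀ j ∈ range J, ∑ l ∈ range N, ‖coef j l‖ * ‖cker (pt j l) t‖ ≤
        ‖c j‖ * (G * (16 * ((n + i0 : ℕ) + 1) / (κ / (J + 1)))) := by
      intro j hj
      have hj' := mem_range.mp hj
      have h1 : ∀ l ∈ range N, ‖coef j l‖ * ‖cker (pt j l) t‖ ≤
          (‖c j‖ * G / N) * (1 / ‖1 - (rho j : ℂ) * (v * z) * w ^ l‖) := by
        intro l _
        have h2 : ‖coef j l‖ ≤ ‖c j‖ * G / N := by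
          simp only [coef]
          rw [norm_div, norm_mul]
          have : ‖(N : ℂ)‖ = N := by simp
          rw [this]
          apply div_le_div_of_nonneg_right _ hN'.le
          apply mul_le_mul_of_nonneg_left _ (norm_nonneg _)
          apply hG
          rw [mem_closedBall_zero_iff, norm_div, norm_one, norm_mul, norm_mul, norm_pow, hw1, hv,
            Complex.norm_real, Real.norm_of_nonneg (hr0 j).le]
          simp only [one_pow, mul_one]
          rw [div_le_iff₀ (hr0 j)]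
          linarith [hlam1 j, hr2 j]
        have h3 : ‖cker (pt j l) t‖ = 1 / ‖1 - (rho j : ℂ) * (v * z) * w ^ l‖ := by
          rw [cker_apply, norm_inv, one_div]
          have : starRingEnd ℂ (pt j l).1 = (rho j : ℂ) * v * w ^ l := by
            simp only [pt]
            rw [Complex.conj_conj]
          rw [this]
          congr 3
          ring
        rw [h3]
        exact mul_le_mul_of_nonneg_right h2 (by positivity)
      have h4 := log_bound hN hw (rho j) (lam j) (hr0 j).le (hr3 j) (hr1 j).le (hlam2 j) (n + i0) (hI j hj')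
        (v * z) (by rw [norm_mul, hv, hz1, mul_one])
      calc ∑ l ∈ range N, ‖coef j l‖ * ‖cker (pt j l) t‖
          ≤ ∑ l ∈ range N, (‖c j‖ * G / N) * (1 / ‖1 - (rho j : ℂ) * (v * z) * w ^ l‖) := sum_le_sum h1
        _ = (‖c j‖ * G / N) * ∑ l ∈ range N, (1 / ‖1 - (rho j : ℂ) * (v * z) * w ^ l‖) := by rw [mul_sum]
        _ ≤ (‖c j‖ * G / N) * (N * (16 * ((n + i0 : ℕ) + 1) / (1 - lam j))) := by
            apply mul_le_mul_of_nonneg_left h4 (by positivity)
        _ = ‖c j‖ * (G * (16 * ((n + i0 : ℕ) + 1) / (1 - lam j))) := by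
            field_simp
        _ ≤ ‖c j‖ * (G * (16 * ((n + i0 : ℕ) + 1) / (κ / (J + 1)))) := by
            gcongr
            exact hlow j hj'
    refine (sum_le_sum hb).trans ?_
    rw [← sum_mul, ← hS]
    have h5 : (((n + i0 : ℕ) : ℝ) + 1) ≤ (i0 + 1) * (n + 1) := by
      push_cast
      have : (0 : ℝ) ≤ n := by positivity
      have : (0 : ℝ) ≤ i0 := by positivity
      nlinarith
    have h6 : 16 * (((n + i0 : ℕ) : ℝ) + 1) / (κ / (J + 1)) ≤ 16 * (i0 + 1) / (κ / (J + 1)) * (n + 1) := by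
      rw [div_mul_eq_mul_div]
      apply div_le_div_of_nonneg_right _ (by positivity)
      nlinarith
    calc S * (G * (16 * (((n + i0 : ℕ) : ℝ) + 1) / (κ / (J + 1))))
        ≤ S * (G * (16 * (i0 + 1) / (κ / (J + 1)) * (n + 1))) := by gcongr
      _ = S * G * (16 * (i0 + 1) / (κ / (J + 1))) * (n + 1) := by ring
  · intro q hq
    obtain ⟨j, hj, l, hl, rfl⟩ := hmemL q hq
    rw [hptn]
    refine (hr5 j).trans ?_
    rw [hNR]
    apply div_le_div_of_nonneg_right _ (by positivity)
    rw [hlam3]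
    have : κ / ((j : ℝ) + 1) ≤ κ := div_le_self hκ0.le (hj1 j)
    linarith
  · intro r hr
    have h1r : 0 < 1 - r := by linarith
    -- the count
    have hcnt : cnt L r = N * ((range J).filter (fun j => rho j < r)).card := by
      have h1 : cnt L r = ((Finset.univ : Finset (Fin J × Fin N)).filter (fun p => rho p.1 < r)).card := by
        rw [cnt, hL, ← Multiset.coe_countP (p := fun q : ℂ × DD => ‖q.2.1‖ < r), ← Multiset.map_coe,
          Multiset.countP_map, Finset.coe_toList, Finset.card_def, Finset.filter_val]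
        congr 1
        apply Multiset.filter_congr
        rintro ⟨j, l⟩ _
        simp only [F]
        rw [hptn]
      rw [h1]
      have h2 : ((Finset.univ : Finset (Fin J × Fin N)).filter (fun p => rho p.1 < r)) =
          ((Finset.univ : Finset (Fin J)).filter (fun j : Fin J => rho (j : ℕ) < r)) ×ˢ (Finset.univ : Finset (Fin N)) := by
        ext ⟨j, l⟩
        simp
      rw [h2, card_product, card_univ, Fintype.card_fin, mul_comm]
      congr 1
      have h3 : (range J).filter (fun j => rho j < r) =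
          ((Finset.univ : Finset (Fin J)).filter (fun j : Fin J => rho (j : ℕ) < r)).map Fin.valEmbedding := by
        ext j
        simp only [mem_filter, mem_range, mem_map, mem_univ, true_and, Fin.valEmbedding_apply]
        constructor
        · rintro ⟨h4, h5⟩
          exact ⟨⟨j, h4⟩, h5, rfl⟩
        · rintro ⟨i, h4, rfl⟩
          exact ⟨i.2, h4⟩
      rw [h3, card_map]
    set X : ℝ := 2 * κ / (N * (1 - r)) with hX
    have hX0 : 0 < X := by positivity
    have hsub : (range J).filter (fun j => rho j < r) ⊆ range ⌊X⌋₊ := by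
      intro j hj
      rw [mem_filter] at hj
      rw [mem_range, ← Nat.succ_le_iff]
      apply Nat.le_floor
      have h3 := hr5 j
      rw [hlam3] at h3
      have h4 : 1 - r < 2 * (κ / ((j : ℝ) + 1)) / N := by linarith [hj.2]
      rw [lt_div_iff₀ hN', mul_div_assoc', lt_div_iff₀ (by positivity)] at h4
      rw [hX, le_div_iff₀ (by positivity)]
      push_cast
      nlinarith
    have hcard : (((range J).filter (fun j => rho j < r)).card : ℝ) ≤ X := by
      have := card_le_card hsub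
      rw [card_range] at this
      exact (by exact_mod_cast this : (((range J).filter (fun j => rho j < r)).card : ℝ) ≤ (⌊X⌋₊ : ℝ)).trans
        (Nat.floor_le hX0.le)
    rw [hcnt]
    push_cast
    calc (1 - r) * (N * (((range J).filter (fun j => rho j < r)).card : ℝ))
        ≤ (1 - r) * (N * X) := by gcongr
      _ = 2 * κ := by
        rw [hX]
        field_simp

end Pool.Agent.H155R3
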