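import Pool.Agent.H155R3.D3a

set_option autoImplicit false

/-!
# Blocks in the space of continuous functions on the circle
-/

namespace Pool.Agent.H155R3

open Finset Filter Topology

theorem lsum_take_bound (L : List (ℂ × DD)) (B : ℝ) (hB : 0 ≤ B)
    (h : ∀ t, (L.map (fun q => ‖q.1‖ * ‖cker q.2 t‖)).sum ≤ B) (m : ℕ) :
    ‖lsum cker (L.take m)‖ ≤ B := by
  rw [ContinuousMap.norm_le _ hB]
  intro t
  refine le_trans ?_ (h t)
  have h1 : ∀ M : List (ℂ × DD), ‖lsum cker M t‖ ≤ (M.map (fun q => ‖q.1‖ * ‖cker q.2 t‖)).sum := by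
    intro M
    induction M with
    | nil => simp [lsum]
    | cons q M ih =>
      have e : lsum cker (q :: M) = q.1 • cker q.2 + lsum cker M := by simp [lsum]
      rw [e, List.map_cons, List.sum_cons, ContinuousMap.add_apply, ContinuousMap.smul_apply, smul_eq_mul]
      refine (norm_add_le _ _).trans ?_
      rw [norm_mul]
      exact add_le_add le_rfl ih
  refine (h1 _).trans ?_
  conv_rhs => rw [← List.take_append_drop m L]
  rw [List.map_append, List.sum_append]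
  have : 0 ≤ ((L.drop m).map (fun q => ‖q.1‖ * ‖cker q.2 t‖)).sum := by
    apply List.sum_nonneg
    intro x hx
    obtain ⟨q, _, rfl⟩ := List.mem_map.mp hx
    positivity
  linarith

theorem prod_small (κ : ℝ) (hκ0 : 0 < κ) (hκ1 : κ ≤ 1 / 2) (δ : ℝ) (hδ : 0 < δ) :
    ∃ J : ℕ, 1 ≤ J ∧ ∏ j ∈ range J, (1 - κ / (j + 1) : ℝ) ≤ δ := by
  have h1 := Real.tendsto_sum_range_one_div_nat_succ_atTop
  have h2 : Tendsto (fun n : ℕ => Real.exp (-(κ * ∑ i ∈ range n, (1 / (i + 1 : ℝ))))) atTop (𝓝 0) := by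
    apply Real.tendsto_exp_atBot.comp
    apply tendsto_neg_atTop_atBot.comp
    exact h1.const_mul_atTop hκ0
  obtain ⟨J, hJ⟩ := ((h2.eventually (gt_mem_nhds hδ)).and (eventually_ge_atTop 1)).exists
  refine ⟨J, hJ.2, le_trans ?_ hJ.1.le⟩
  rw [mul_sum, ← sum_neg_distrib, Real.exp_sum]
  apply Finset.prod_le_prod
  · intro j _
    have : κ / ((j : ℝ) + 1) ≤ κ := div_le_self hκ0.le (by
      have : (0 : ℝ) ≤ j := by positivity
      linarith)
    linarith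
  · intro j _
    have := Real.add_one_le_exp (-(κ * (1 / ((j : ℝ) + 1))))
    have e : κ / ((j : ℝ) + 1) = κ * (1 / ((j : ℝ) + 1)) := by ring
    rw [e]
    linarith

theorem block (g : Polynomial ℂ) (ε : ℝ) (hε : 0 < ε) (η : ℝ) (hη : 0 < η) (A : Finset DD) :
    ∃ L : List (ℂ × DD), L ≠ [] ∧ (L.map Prod.snd).Nodup ∧ (∀ q ∈ L, q.2 ∉ A) ∧
      (∀ m, ∃ τ : ℝ, 0 ≤ τ ∧ τ ≤ 1 ∧ ‖lsum cker (L.take m) - (τ : ℂ) • polyT g‖ ≤ ε) ∧
      ‖lsum cker L - polyT g‖ ≤ ε ∧ (∀ q ∈ L, (1 - ‖q.2.1‖) * A.card ≤ η) ∧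
      (∀ r < (1 : ℝ), (1 - r) * cnt L r ≤ η) := by
  set κ : ℝ := min (η / 4) (1 / 2) with hκ
  have hκ0 : 0 < κ := lt_min (by positivity) (by norm_num)
  have hκ1 : κ ≤ 1 / 2 := min_le_right _ _
  have hκη : 4 * κ ≤ η := by have := min_le_left (η / 4) (1 / 2); linarith
  obtain ⟨J, hJ1, hJ⟩ := prod_small κ hκ0 hκ1 ((ε / 2) / (‖polyT g‖ + 1)) (by positivity)
  have hprod0 : 0 ≤ ∏ j ∈ range J, (1 - κ / (j + 1) : ℝ) := by
    apply prod_nonneg
    intro j _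
    have : κ / ((j : ℝ) + 1) ≤ κ := div_le_self hκ0.le (by
      have : (0 : ℝ) ≤ j := by positivity
      linarith)
    linarith
  have hJ' : ‖polyT g‖ * ∏ j ∈ range J, (1 - κ / (j + 1) : ℝ) ≤ ε / 2 := by
    have h1 : ‖polyT g‖ * ∏ j ∈ range J, (1 - κ / (j + 1) : ℝ) ≤ (‖polyT g‖ + 1) * ((ε / 2) / (‖polyT g‖ + 1)) := by
      apply mul_le_mul _ hJ hprod0 (by positivity)
      linarith
    rwa [mul_div_cancel₀ _ (by positivity)] at h1
  obtain ⟨c, hc⟩ := partial_fractions (fun j => 1 - κ / (j + 1)) J (by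
    intro i _ j _ h
    have h1 : κ / ((i : ℝ) + 1) = κ / (j + 1) := by linarith
    rw [div_eq_div_iff (by positivity) (by positivity)] at h1
    have h2 : (j : ℝ) + 1 = i + 1 := mul_left_cancel₀ hκ0.ne' h1
    have h3 : (i : ℝ) = j := by linarith
    exact_mod_cast h3) (by
    intro i _
    have h1 : κ / ((i : ℝ) + 1) ≤ κ := div_le_self hκ0.le (by
      have : (0 : ℝ) ≤ i := by positivity
      linarith)
    have h2 : 0 < κ / ((i : ℝ) + 1) := by positivity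
    constructor <;> linarith)
  obtain ⟨C, hC0, hshell⟩ := shell κ hκ0 hκ1 J c hc g
  refine block_abs cker (polyT g) κ ε η C J (g.natDegree + 1) hκ0 hκη hε hC0 hJ1 ?_ A
  intro n hn A'
  have hdeg : g.natDegree < 2 ^ n := lt_of_lt_of_le (Nat.lt_succ_self _) (hn.trans Nat.lt_two_pow_self.le)
  obtain ⟨L₁, k1, k2, k3, k4, k5, k6, k7⟩ := hshell n hdeg A'
  exact ⟨L₁, k1, k2, k3, k4.trans hJ', lsum_take_bound L₁ _ (by positivity) k5, k6, k7⟩

end Pool.Agent.H155R3
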