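import Pool.Agent.H155R3.D2

set_option autoImplicit false

/-!
# Blocks: several shells with logarithmic weights (abstract part)
-/

namespace Pool.Agent.H155R3

open Finset Filter Topology

section abs

variable {X : Type*} [NormedAddCommGroup X] [NormedSpace ℂ X]

/-- What is asked of a shell at level `n`. -/
structure ShellData (K : DD → X) (g : X) (κ δ C : ℝ) (J n : ℕ) (A : Finset DD) (L : List (ℂ × DD)) :
    Prop where
  nodup : (L.map Prod.snd).Nodup
  avoid : ∀ q ∈ L, q.2 ∉ A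
  len : L.length = J * 2 ^ n
  total : ‖lsum K L - g‖ ≤ δ
  part : ∀ k, ‖lsum K (L.take k)‖ ≤ C * (n + 1)
  near : ∀ q ∈ L, 1 - ‖q.2.1‖ ≤ 2 * κ / 2 ^ n
  dens : ∀ r < (1 : ℝ), (1 - r) * cnt L r ≤ 2 * κ

/-- The property of a partial block. -/
structure PartBlock (K : DD → X) (g : X) (κ ε η s : ℝ) (N : ℕ) (A : Finset DD) (L : List (ℂ × DD)) :
    Prop where
  nodup : (L.map Prod.snd).Nodup
  avoid : ∀ q ∈ L, q.2 ∉ A
  len : A.card + L.length ≤ N
  part : ∀ k, ∃ τ : ℝ, 0 ≤ τ ∧ τ ≤ 1 ∧ ‖lsum K (L.take k) - (τ : ℂ) • g‖ ≤ ε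
  total : ‖lsum K L - (s : ℂ) • g‖ ≤ (ε / 2) * s
  near : ∀ q ∈ L, (1 - ‖q.2.1‖) * A.card ≤ η
  dens : ∀ r < (1 : ℝ), (1 - r) * cnt L r ≤ 4 * κ

theorem PartBlock.step {K : DD → X} {g : X} {κ ε η s C δ wt : ℝ} {J n b : ℕ} {A : Finset DD}
    [DecidableEq DD]
    {L L₁ : List (ℂ × DD)} (h : PartBlock K g κ ε η s (2 ^ n) A L)
    (h₁ : ShellData K g κ δ C J n (A ∪ (L.map Prod.snd).toFinset) L₁) (hκ0 : 0 < κ) (hκη : 4 * κ ≤ η)
    (hε : 0 < ε) (hδ : δ ≤ ε / 2) (hs0 : 0 ≤ s) (hs1 : s ≤ 1) (hwt0 : 0 < wt)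
    (hwt : wt * (C * (n + 1)) ≤ ε / 2) (hb : 1 + J ≤ 2 ^ b) :
    PartBlock K g κ ε η (s + wt) (2 ^ (n + b)) A (L ++ L₁.map (fun q => ((wt : ℂ) * q.1, q.2))) := by
  set L' : List (ℂ × DD) := L₁.map (fun q => ((wt : ℂ) * q.1, q.2)) with hL'
  have hL'len : L'.length = J * 2 ^ n := by rw [hL', List.length_map, h₁.len]
  have hL'pt : L'.map Prod.snd = L₁.map Prod.snd := by
    rw [hL', List.map_map]; rfl
  have hL'mem : ∀ q ∈ L', ∃ q' ∈ L₁, q.2 = q'.2 := by
    intro q hq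
    rw [hL', List.mem_map] at hq
    obtain ⟨q', hq', rfl⟩ := hq
    exact ⟨q', hq', rfl⟩
  have hL'cnt : ∀ r, cnt L' r = cnt L₁ r := by
    intro r
    rw [hL', cnt, cnt, List.countP_map]
    rfl
  have hL'sum : lsum K L' = (wt : ℂ) • lsum K L₁ := lsum_smul _ _ _
  have hwtn : ‖(wt : ℂ)‖ = wt := by rw [Complex.norm_real, Real.norm_of_nonneg hwt0.le]
  have hL'take : ∀ k, ‖lsum K (L'.take k)‖ ≤ ε / 2 := by
    intro k
    rw [hL', ← List.map_take, lsum_smul, norm_smul, hwtn]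
    exact (mul_le_mul_of_nonneg_left (h₁.part k) hwt0.le).trans hwt
  have l5' : ‖lsum K L - (s : ℂ) • g‖ ≤ ε / 2 := h.total.trans (by
    have := mul_le_mul_of_nonneg_left hs1 (show (0 : ℝ) ≤ ε / 2 by positivity)
    linarith)
  have hnorm' : ∀ q ∈ L', (1 - ‖q.2.1‖) ≤ 2 * κ / 2 ^ n := by
    intro q hq
    obtain ⟨q', hq', e⟩ := hL'mem q hq
    rw [e]
    exact h₁.near q' hq'
  have hnorm0 : ∀ q ∈ L', 0 < 1 - ‖q.2.1‖ := fun q _ => by have := q.2.2; linarith
  have hAL : (A.card : ℝ) + L.length ≤ 2 ^ n := by exact_mod_cast h.len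
  refine ⟨?_, ?_, ?_, ?_, ?_, ?_, ?_⟩
  · rw [List.map_append, List.nodup_append]
    refine ⟨h.nodup, by rw [hL'pt]; exact h₁.nodup, ?_⟩
    intro x hx y hy hxy
    subst hxy
    rw [hL'pt] at hy
    obtain ⟨q, hq, rfl⟩ := List.mem_map.mp hy
    exact h₁.avoid q hq (Finset.mem_union_right _ (List.mem_toFinset.mpr hx))
  · intro q hq
    rcases List.mem_append.mp hq with hq | hq
    · exact h.avoid q hq
    · obtain ⟨q', hq', e⟩ := hL'mem q hq
      rw [e]
      intro hA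
      exact h₁.avoid q' hq' (Finset.mem_union_left _ hA)
  · rw [List.length_append, hL'len]
    have := h.len
    calc A.card + (L.length + J * 2 ^ n) = (A.card + L.length) + J * 2 ^ n := by ring
      _ ≤ 2 ^ n + J * 2 ^ n := by omega
      _ = (1 + J) * 2 ^ n := by ring
      _ ≤ 2 ^ b * 2 ^ n := Nat.mul_le_mul_right _ hb
      _ = 2 ^ (n + b) := by rw [← pow_add]; congr 1; ring
  · intro k
    rcases le_total k L.length with hk | hk
    · rw [List.take_append_of_le_length hk]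
      exact h.part k
    · obtain ⟨d, rfl⟩ := Nat.exists_eq_add_of_le hk
      rw [List.take_length_add_append, lsum_append]
      refine ⟨s, hs0, hs1, ?_⟩
      have e : lsum K L + lsum K (List.take d L') - (s : ℂ) • g =
          (lsum K L - (s : ℂ) • g) + lsum K (List.take d L') := by abel
      rw [e]
      refine (norm_add_le _ _).trans ?_
      have := hL'take d
      linarith
  · rw [lsum_append, hL'sum]
    have e : lsum K L + (wt : ℂ) • lsum K L₁ - ((s + wt : ℝ) : ℂ) • g =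
        (lsum K L - (s : ℂ) • g) + (wt : ℂ) • (lsum K L₁ - g) := by
      push_cast
      rw [add_smul, smul_sub]
      abel
    rw [e]
    refine (norm_add_le _ _).trans ?_
    rw [norm_smul, hwtn]
    have h1 : wt * ‖lsum K L₁ - g‖ ≤ wt * (ε / 2) :=
      mul_le_mul_of_nonneg_left (h₁.total.trans hδ) hwt0.le
    have := h.total
    linarith
  · intro q hq
    rcases List.mem_append.mp hq with hq | hq
    · exact h.near q hq
    · have h1 := hnorm' q hq
      have h2 := hnorm0 q hq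
      have h3 : (A.card : ℝ) ≤ 2 ^ n := by
        have : (0 : ℝ) ≤ L.length := by positivity
        linarith
      calc (1 - ‖q.2.1‖) * A.card ≤ (2 * κ / 2 ^ n) * 2 ^ n :=
            mul_le_mul h1 h3 (by positivity) (by positivity)
        _ = 2 * κ := by field_simp
        _ ≤ η := by linarith
  · intro r hr
    have h1r : 0 < 1 - r := by linarith
    rw [cnt_append]
    push_cast
    by_cases hz : cnt L' r = 0
    · rw [hz]
      have := h.dens r hr
      simpa using this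
    · have hpos : 0 < cnt L' r := Nat.pos_of_ne_zero hz
      rw [cnt, List.countP_pos_iff] at hpos
      obtain ⟨q, hq, hqr⟩ := hpos
      have hqr' : ‖q.2.1‖ < r := by simpa using hqr
      have h1 : 1 - r ≤ 2 * κ / 2 ^ n := by
        have := hnorm' q hq
        linarith
      have h2 : (cnt L r : ℝ) ≤ 2 ^ n := by
        have h3 : (cnt L r : ℝ) ≤ L.length := by exact_mod_cast cnt_le L r
        have : (0 : ℝ) ≤ A.card := by positivity
        linarith
      have h4 : (1 - r) * cnt L r ≤ (2 * κ / 2 ^ n) * 2 ^ n :=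
        mul_le_mul h1 h2 (by positivity) (by positivity)
      have h5 : (2 * κ / 2 ^ n) * 2 ^ n = 2 * κ := by field_simp
      have h6 := h₁.dens r hr
      rw [hL'cnt]
      nlinarith

theorem block_abs (K : DD → X) (g : X) (κ ε η C : ℝ) (J a₀ : ℕ) (hκ0 : 0 < κ) (hκη : 4 * κ ≤ η)
    (hε : 0 < ε) (hC0 : 0 ≤ C) (hJ1 : 1 ≤ J)
    (hshell : ∀ n, a₀ ≤ n → ∀ A : Finset DD, ∃ L, ShellData K g κ (ε / 2) C J n A L) (A : Finset DD) :
    ∃ L : List (ℂ × DD), L ≠ [] ∧ (L.map Prod.snd).Nodup ∧ (∀ q ∈ L, q.2 ∉ A) ∧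
      (∀ m, ∃ τ : ℝ, 0 ≤ τ ∧ τ ≤ 1 ∧ ‖lsum K (L.take m) - (τ : ℂ) • g‖ ≤ ε) ∧
      ‖lsum K L - g‖ ≤ ε ∧ (∀ q ∈ L, (1 - ‖q.2.1‖) * A.card ≤ η) ∧
      (∀ r < (1 : ℝ), (1 - r) * cnt L r ≤ η) := by
  classical
  obtain ⟨b, hb⟩ : ∃ b : ℕ, 1 + J ≤ 2 ^ b := ⟨1 + J, Nat.lt_two_pow_self.le⟩
  obtain ⟨a, ha⟩ : ∃ a : ℕ, a₀ ≤ a ∧ A.card ≤ 2 ^ a :=
    ⟨max a₀ A.card, le_max_left _ _, (le_max_right a₀ A.card).trans (Nat.lt_two_pow_self).le⟩
  obtain ⟨ha0, ha1⟩ := ha
  obtain ⟨M, hM⟩ : ∃ M : ℕ, C * (a + b + 1) / (ε / 2) + 1 ≤ ∑ i ∈ range M, (1 / (i + 1 : ℝ)) :=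
    ((Real.tendsto_sum_range_one_div_nat_succ_atTop).eventually (eventually_ge_atTop _)).exists
  set H : ℝ := ∑ i ∈ range M, (1 / (i + 1 : ℝ)) with hH
  have hH1 : 1 ≤ H := by
    have : 0 ≤ C * (a + b + 1) / (ε / 2) := by positivity
    linarith
  have hH0 : 0 < H := by linarith
  have hH2 : C * (a + b + 1) / H ≤ ε / 2 := by
    rw [div_le_iff₀ hH0]
    have h1 : C * (a + b + 1) / (ε / 2) ≤ H := by linarith
    rw [div_le_iff₀ (by positivity)] at h1
    linarith
  have hM1 : 1 ≤ M := by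
    by_contra h
    have : M = 0 := by omega
    rw [this] at hH
    simp at hH
    linarith
  -- partial weights
  let s : ℕ → ℝ := fun m => (∑ i ∈ range m, (1 / (i + 1 : ℝ))) / H
  have hs0 : s 0 = 0 := by simp [s]
  have hsM : s M = 1 := by simp only [s]; rw [← hH, div_self hH0.ne']
  have hss : ∀ m : ℕ, s (m + 1) = s m + 1 / (((m : ℝ) + 1) * H) := by
    intro m
    simp only [s]
    rw [sum_range_succ, add_div]
    congr 1
    field_simp
  have hsnn : ∀ m, 0 ≤ s m := fun m => by positivity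
  have hs1 : ∀ m ≤ M, s m ≤ 1 := by
    intro m hm
    simp only [s]
    rw [div_le_one hH0, hH]
    apply sum_le_sum_of_subset_of_nonneg (range_subset_range.mpr hm)
    intro i _ _
    positivity
  have key : ∀ m : ℕ, m ≤ M → ∃ L : List (ℂ × DD), (1 ≤ m → L ≠ []) ∧
      PartBlock K g κ ε η (s m) (2 ^ (a + b * m)) A L := by
    intro m
    induction m with
    | zero =>
      intro _
      refine ⟨[], by simp, by simp, by simp, by simpa using ha1, ?_, ?_, by simp, ?_⟩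
      · intro k
        refine ⟨0, le_rfl, by norm_num, ?_⟩
        rw [List.take_nil, lsum_nil, Complex.ofReal_zero, zero_smul, sub_zero, norm_zero]
        exact hε.le
      · rw [lsum_nil, hs0, Complex.ofReal_zero, zero_smul, sub_zero, norm_zero, mul_zero]
      · intro r hr
        simp [cnt, hκ0.le]
    | succ m ih =>
      intro hm
      obtain ⟨L, -, hL⟩ := ih (by omega)
      obtain ⟨L₁, hL₁⟩ := hshell (a + b * m) (by omega) (A ∪ (L.map Prod.snd).toFinset)
      have hwt0 : (0 : ℝ) < 1 / (((m : ℝ) + 1) * H) := by positivity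
      have hwt : 1 / (((m : ℝ) + 1) * H) * (C * (((a + b * m : ℕ) : ℝ) + 1)) ≤ ε / 2 := by
        have h1 : (((a + b * m : ℕ) : ℝ) + 1) ≤ (a + b + 1) * (m + 1) := by
          push_cast
          have : (0 : ℝ) ≤ a := by positivity
          have : (0 : ℝ) ≤ b := by positivity
          have : (0 : ℝ) ≤ m := by positivity
          nlinarith
        calc 1 / (((m : ℝ) + 1) * H) * (C * (((a + b * m : ℕ) : ℝ) + 1))
            ≤ 1 / (((m : ℝ) + 1) * H) * (C * ((a + b + 1) * (m + 1))) := by gcongr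
          _ = C * (a + b + 1) / H := by field_simp
          _ ≤ ε / 2 := hH2
      have h2 := hL.step hL₁ hκ0 hκη hε le_rfl (hsnn m) (hs1 m (by omega)) hwt0 hwt hb
      rw [← hss, show a + b * m + b = a + b * (m + 1) by ring] at h2
      refine ⟨_, ?_, h2⟩
      intro _ h
      have h3 := (List.append_eq_nil_iff.mp h).2
      have h4 := congrArg List.length h3
      rw [List.length_map, hL₁.len, List.length_nil] at h4
      have : 0 < J * 2 ^ (a + b * m) := by positivity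
      omega
  obtain ⟨L, l0, h⟩ := key M le_rfl
  have l5 := h.total
  rw [hsM] at l5
  refine ⟨L, l0 hM1, h.nodup, h.avoid, h.part, ?_, h.near, fun r hr => (h.dens r hr).trans hκη⟩
  rw [Complex.ofReal_one, one_smul, mul_one] at l5
  linarith

end abs

end Pool.Agent.H155R3
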