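import Pool.Agent.H155R3.D2

set_option autoImplicit false

/-!
# Analytic polynomials are dense in the Hardy space of the circle
-/

namespace Pool.Agent.H155R3

open Finset MeasureTheory AddCircle Filter Topology
open scoped ENNReal

/-- Normalised arc length. -/
noncomputable abbrev muT : Measure Tor := haarAddCircle

variable {p : ℝ≥0∞} [Fact (1 ≤ p)]

theorem lp_integrable (f : Lp ℂ p muT) : Integrable f muT := (Lp.memLp f).integrable Fact.out

theorem norm_fourierCoeff_le (f : Lp ℂ p muT) (k : ℤ) : ‖fourierCoeff f k‖ ≤ 1 * ‖f‖ := by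
  have h1 : ∫ t, ‖f t‖ ∂muT ≤ ‖f‖ := by
    have h2 : ∫ t, ‖f t‖ ∂muT = (eLpNorm f 1 muT).toReal := by
      rw [eLpNorm_one_eq_lintegral_enorm, integral_norm_eq_lintegral_enorm
        (lp_integrable f).aestronglyMeasurable]
    rw [h2, Lp.norm_def]
    refine ENNReal.toReal_mono (Lp.eLpNorm_ne_top f) ?_
    exact eLpNorm_le_eLpNorm_of_exponent_le Fact.out (Lp.aestronglyMeasurable f)
  rw [one_mul]
  refine le_trans ?_ h1
  refine (norm_integral_le_integral_norm _).trans (le_of_eq ?_)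
  apply integral_congr_ae
  refine Eventually.of_forall fun t => ?_
  simp only
  rw [norm_smul, fourier_apply, Circle.norm_coe, one_mul]

/-- The Fourier coefficient as a functional. -/
noncomputable def coefL (p : ℝ≥0∞) [Fact (1 ≤ p)] (k : ℤ) : Lp ℂ p muT →L[ℂ] ℂ :=
  LinearMap.mkContinuous
    { toFun := fun f => fourierCoeff f k
      map_add' := by
        intro f g
        rw [fourierCoeff_congr_ae (Lp.coeFn_add f g), fourierCoeff.add (lp_integrable f) (lp_integrable g)]
        rfl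
      map_smul' := by
        intro c f
        rw [fourierCoeff_congr_ae (Lp.coeFn_smul c f), fourierCoeff.const_smul]
        rfl } 1 (norm_fourierCoeff_le · k)

theorem coefL_apply (k : ℤ) (f : Lp ℂ p muT) : coefL p k f = fourierCoeff f k := rfl

theorem coefL_fourier (j k : ℤ) : coefL p j (fourierLp p k) = if j = k then 1 else 0 := by
  rw [coefL_apply, fourierCoeff_congr_ae (coeFn_fourierLp p k), fourierCoeff_fourier]
  by_cases h : j = k
  · subst h; simp
  · simp [h]

/-- The Fejer operator. -/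
noncomputable def fejer (p : ℝ≥0∞) [Fact (1 ≤ p)] (N : ℕ) : Lp ℂ p muT →L[ℂ] Lp ℂ p muT :=
  ((N : ℂ)⁻¹) • ∑ a ∈ range N, ∑ b ∈ range N,
    (coefL p ((a : ℤ) - b)).smulRight (fourierLp p ((a : ℤ) - b))

theorem fejer_apply (N : ℕ) (f : Lp ℂ p muT) : fejer p N f = ((N : ℂ)⁻¹) • ∑ a ∈ range N, ∑ b ∈ range N,
    (fourierCoeff f ((a : ℤ) - b)) • (fourierLp p ((a : ℤ) - b)) := by
  simp only [fejer, smul_apply, _root_.sum_apply,
    ContinuousLinearMap.smulRight_apply, coefL_apply]

/-- The multiplier of the Fejer operator. -/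
noncomputable def fej (N : ℕ) (k : ℤ) : ℂ :=
  ((N : ℂ)⁻¹) * ∑ a ∈ range N, ∑ b ∈ range N, if (a : ℤ) - b = k then 1 else 0

theorem fejer_fourier (N : ℕ) (k : ℤ) : fejer p N (fourierLp p k) = fej N k • fourierLp p k := by
  have h : ∀ a ∈ range N, ∀ b ∈ range N, (coefL p ((a : ℤ) - b) (fourierLp p k)) •
      (fourierLp p ((a : ℤ) - b) : Lp ℂ p muT) =
      (if (a : ℤ) - b = k then (1 : ℂ) else 0) • (fourierLp p k : Lp ℂ p muT) := by
    intro a _ b _
    rw [coefL_fourier]
    split_ifs with h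
    · rw [h]
    · simp
  simp only [fejer, smul_apply, _root_.sum_apply,
    ContinuousLinearMap.smulRight_apply]
  rw [sum_congr rfl fun a ha => sum_congr rfl fun b hb => h a ha b hb]
  simp_rw [← sum_smul]
  rw [smul_smul]
  rfl

/-- `(1/L) ∑ e_m(l/L)`. -/
theorem sum_fourier_points (L : ℕ) (hL : 0 < L) (m : ℤ) (hm : |m| < L) :
    ∑ l ∈ range L, (fourier m (((l : ℝ) / L : ℝ) : Tor) : ℂ) = if m = 0 then (L : ℂ) else 0 := by
  have hζ := Complex.isPrimitiveRoot_exp L hL.ne'
  have e : ∀ l ∈ range L, (fourier m (((l : ℝ) / L : ℝ) : Tor) : ℂ) =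
      ((Complex.exp (2 * Real.pi * Complex.I / L)) ^ m) ^ l := by
    intro l _
    rw [fourier_coe_apply, ← Complex.exp_int_mul, ← Complex.exp_nat_mul]
    congr 1
    push_cast
    field_simp
  rw [sum_congr rfl e]
  split_ifs with h
  · subst h; simp
  · have h1 : (Complex.exp (2 * Real.pi * Complex.I / L)) ^ m ≠ 1 := by
      intro h1
      rw [hζ.zpow_eq_one_iff_dvd] at h1
      have := Int.le_of_dvd (abs_pos.mpr h) ((dvd_abs _ _).mpr h1)
      omega
    rw [geom_sum_eq h1, ← zpow_natCast, ← zpow_mul, mul_comm m, zpow_mul, zpow_natCast, hζ.pow_eq_one]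
    simp

/-- The nonnegative weights. -/
noncomputable def wgt (N : ℕ) (s : Tor) : ℝ := ‖∑ a ∈ range N, (fourier (a : ℤ) s : ℂ)‖ ^ 2 / N

theorem wgt_eq (N : ℕ) (s : Tor) : ((wgt N s : ℝ) : ℂ) = (N : ℂ)⁻¹ * ∑ a ∈ range N, ∑ b ∈ range N,
    (fourier ((a : ℤ) - b) s : ℂ) := by
  have h1 : ((‖∑ a ∈ range N, (fourier (a : ℤ) s : ℂ)‖ ^ 2 : ℝ) : ℂ) =
      (∑ a ∈ range N, (fourier (a : ℤ) s : ℂ)) * (starRingEnd ℂ) (∑ b ∈ range N, (fourier (b : ℤ) s : ℂ)) := by
    rw [Complex.mul_conj, Complex.normSq_eq_norm_sq]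
  rw [wgt, Complex.ofReal_div, h1, map_sum, sum_mul_sum, div_eq_inv_mul]
  simp only [Complex.ofReal_natCast]
  congr 1
  apply sum_congr rfl
  intro a _
  apply sum_congr rfl
  intro b _
  rw [sub_eq_add_neg, fourier_add, fourier_neg]

theorem avg_fourier (N : ℕ) (L : ℕ) (hL : 0 < L) (k : ℤ) (hk : |k| + N ≤ L) (t : Tor) :
    ((L : ℂ)⁻¹) * ∑ l ∈ range L, ((wgt N (((l : ℝ) / L : ℝ) : Tor) : ℝ) : ℂ) *
      (fourier k (t - (((l : ℝ) / L : ℝ) : Tor)) : ℂ) = fej N k * (fourier k t : ℂ) := by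
  have h1 : ∀ l ∈ range L, ((wgt N (((l : ℝ) / L : ℝ) : Tor) : ℝ) : ℂ) *
      (fourier k (t - (((l : ℝ) / L : ℝ) : Tor)) : ℂ) =
      ∑ a ∈ range N, ∑ b ∈ range N, ((N : ℂ)⁻¹ * (fourier k t : ℂ)) *
        (fourier ((a : ℤ) - b - k) (((l : ℝ) / L : ℝ) : Tor) : ℂ) := by
    intro l _
    have h2 : (fourier k (t - (((l : ℝ) / L : ℝ) : Tor)) : ℂ) =
        (fourier k t : ℂ) * (fourier (-k) (((l : ℝ) / L : ℝ) : Tor) : ℂ) := by
      rw [fourier_apply, fourier_apply, fourier_apply, smul_sub, sub_eq_add_neg, toCircle_add,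
        Circle.coe_mul, neg_smul]
    rw [wgt_eq, h2, mul_sum, sum_mul]
    apply sum_congr rfl
    intro a _
    rw [mul_sum, sum_mul]
    apply sum_congr rfl
    intro b _
    rw [sub_eq_add_neg ((a : ℤ) - b) k, fourier_add]
    ring
  rw [sum_congr rfl h1, sum_comm]
  have h2 : ∀ a ∈ range N, ∑ l ∈ range L, ∑ b ∈ range N, ((N : ℂ)⁻¹ * (fourier k t : ℂ)) *
        (fourier ((a : ℤ) - b - k) (((l : ℝ) / L : ℝ) : Tor) : ℂ) =
      ∑ b ∈ range N, ((N : ℂ)⁻¹ * (fourier k t : ℂ)) * (L * if (a : ℤ) - b = k then (1 : ℂ) else 0) := by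
    intro a ha
    rw [sum_comm]
    apply sum_congr rfl
    intro b hb
    rw [← mul_sum, sum_fourier_points L hL]
    · congr 1
      by_cases h : (a : ℤ) - b = k
      · rw [if_pos h, if_pos (by omega)]; simp
      · rw [if_neg h, if_neg (by omega)]; simp
    · rw [mem_range] at ha hb
      rw [abs_lt]
      have h3 := abs_le.mp (le_refl |k|)
      constructor <;> omega
  rw [sum_congr rfl h2, fej, mul_sum, mul_sum, sum_mul]
  apply sum_congr rfl
  intro a _
  rw [mul_sum, mul_sum, sum_mul]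
  apply sum_congr rfl
  intro b _
  have : (L : ℂ) ≠ 0 := by exact_mod_cast hL.ne'
  field_simp

theorem fej_zero (N : ℕ) (hN : 0 < N) : fej N 0 = 1 := by
  rw [fej]
  have : ∀ a ∈ range N, ∑ b ∈ range N, (if (a : ℤ) - b = 0 then (1 : ℂ) else 0) = 1 := by
    intro a ha
    rw [sum_eq_single a]
    · simp
    · intro b _ hb
      rw [if_neg]
      omega
    · intro h; exact absurd ha h
  rw [sum_congr rfl this]
  have : (N : ℂ) ≠ 0 := by exact_mod_cast hN.ne'
  simp [this]

/-- The Fejer operator is a contraction on trigonometric polynomials. -/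
theorem fejer_poly (N : ℕ) (hN : 0 < N) (F : Finset ℤ) (c : ℤ → ℂ) :
    ‖fejer p N (∑ k ∈ F, c k • fourierLp p k)‖ ≤ ‖(∑ k ∈ F, c k • fourierLp p k : Lp ℂ p muT)‖ := by
  classical
  -- the continuous polynomial
  set Q : C(Tor, ℂ) := ∑ k ∈ F, c k • fourier k with hQ
  have hQ1 : (∑ k ∈ F, c k • fourierLp p k : Lp ℂ p muT) = ContinuousMap.toLp p muT ℂ Q := by
    rw [hQ, map_sum]
    apply sum_congr rfl
    intro k _
    rw [map_smul]
  obtain ⟨D, hD⟩ : ∃ D : ℕ, ∀ k ∈ F, |k| ≤ D := by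
    refine ⟨∑ k ∈ F, k.natAbs, fun k hk => ?_⟩
    have : k.natAbs ≤ ∑ x ∈ F, x.natAbs :=
      single_le_sum (f := fun k : ℤ => k.natAbs) (fun _ _ => Nat.zero_le _) hk
    rw [Int.abs_eq_natAbs]
    exact_mod_cast this
  set L : ℕ := D + N with hL
  have hL0 : 0 < L := by omega
  let pt : ℕ → Tor := fun l => (((l : ℝ) / L : ℝ) : Tor)
  let Qs : ℕ → C(Tor, ℂ) := fun l => Q.comp ⟨fun t => t - pt l, by fun_prop⟩
  have hQs : ∀ l, ‖(ContinuousMap.toLp p muT ℂ (Qs l) : Lp ℂ p muT)‖ =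
      ‖(ContinuousMap.toLp p muT ℂ Q : Lp ℂ p muT)‖ := by
    intro l
    rw [Lp.norm_def, Lp.norm_def]
    congr 1
    rw [eLpNorm_congr_ae (ContinuousMap.coeFn_toLp muT (Qs l)), eLpNorm_congr_ae (ContinuousMap.coeFn_toLp muT Q)]
    exact eLpNorm_comp_measurePreserving (f := fun t => t - pt l) Q.continuous.aestronglyMeasurable
      (measurePreserving_sub_right muT (pt l))
  have h1 : fejer p N (∑ k ∈ F, c k • fourierLp p k) =
      ((L : ℂ)⁻¹) • ∑ l ∈ range L, ((wgt N (pt l) : ℝ) : ℂ) • (ContinuousMap.toLp p muT ℂ (Qs l) : Lp ℂ p muT) := by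
    have h2 : fejer p N (∑ k ∈ F, c k • fourierLp p k) =
        ContinuousMap.toLp p muT ℂ (∑ k ∈ F, (c k * fej N k) • fourier k) := by
      rw [map_sum, map_sum]
      apply sum_congr rfl
      intro k _
      rw [map_smul, map_smul, fejer_fourier, smul_smul]
    have h3 : (∑ k ∈ F, (c k * fej N k) • fourier k : C(Tor, ℂ)) =
        ((L : ℂ)⁻¹) • ∑ l ∈ range L, ((wgt N (pt l) : ℝ) : ℂ) • Qs l := by
      ext t
      rw [ContinuousMap.sum_apply, ContinuousMap.smul_apply, ContinuousMap.sum_apply]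
      have e : ∀ l ∈ range L, (((wgt N (pt l) : ℝ) : ℂ) • Qs l) t =
          ∑ k ∈ F, c k * (((wgt N (pt l) : ℝ) : ℂ) * (fourier k (t - pt l) : ℂ)) := by
        intro l _
        rw [ContinuousMap.smul_apply, smul_eq_mul]
        have : Qs l t = ∑ k ∈ F, c k * (fourier k (t - pt l) : ℂ) := by
          change Q (t - pt l) = _
          rw [hQ, ContinuousMap.sum_apply]
          rfl
        rw [this, mul_sum]
        apply sum_congr rfl
        intro k _
        ring
      rw [sum_congr rfl e, sum_comm, smul_eq_mul, mul_sum]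
      apply sum_congr rfl
      intro k hk
      rw [← mul_sum]
      have := avg_fourier N L hL0 k (by have := hD k hk; omega) t
      rw [ContinuousMap.smul_apply, smul_eq_mul, mul_assoc, ← this]
      ring
    rw [h2, h3, map_smul, map_sum]
    simp only [map_smul]
  have hw : ((L : ℝ)⁻¹) * ∑ l ∈ range L, wgt N (pt l) = 1 := by
    have := avg_fourier N L hL0 0 (by simp; omega) 0
    rw [fej_zero N hN] at this
    simp only [fourier_zero, mul_one] at this
    apply Complex.ofReal_injective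
    push_cast
    exact this
  rw [h1, hQ1, norm_smul, norm_inv, Complex.norm_natCast]
  calc ((L : ℝ)⁻¹) * ‖∑ l ∈ range L, ((wgt N (pt l) : ℝ) : ℂ) • (ContinuousMap.toLp p muT ℂ (Qs l) : Lp ℂ p muT)‖
      ≤ ((L : ℝ)⁻¹) * ∑ l ∈ range L, wgt N (pt l) * ‖(ContinuousMap.toLp p muT ℂ Q : Lp ℂ p muT)‖ := by
        apply mul_le_mul_of_nonneg_left _ (by positivity)
        refine (norm_sum_le _ _).trans (sum_le_sum fun l _ => ?_)
        rw [norm_smul, hQs, Complex.norm_real, Real.norm_of_nonneg (by unfold wgt; positivity)]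
    _ = _ := by rw [← sum_mul, ← mul_assoc, hw, one_mul]

theorem fejer_le (hp : p ≠ ∞) (N : ℕ) (hN : 0 < N) (f : Lp ℂ p muT) : ‖fejer p N f‖ ≤ ‖f‖ := by
  have hcl : IsClosed {f : Lp ℂ p muT | ‖fejer p N f‖ ≤ ‖f‖} :=
    isClosed_le ((fejer p N).continuous.norm) continuous_norm
  have hsub : (Submodule.span ℂ (Set.range (fourierLp (T := (1 : ℝ)) p)) : Set (Lp ℂ p muT)) ⊆
      {f : Lp ℂ p muT | ‖fejer p N f‖ ≤ ‖f‖} := by
    intro q hq
    rw [SetLike.mem_coe, Finsupp.mem_span_range_iff_exists_finsupp] at hq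
    obtain ⟨c, rfl⟩ := hq
    exact fejer_poly N hN c.support c
  have := closure_minimal hsub hcl
  have h2 := span_fourierLp_closure_eq_top (T := (1 : ℝ)) hp
  have h3 : f ∈ (Submodule.span ℂ (Set.range (fourierLp (T := (1 : ℝ)) p))).topologicalClosure := by
    rw [h2]; trivial
  exact this h3

theorem fej_tendsto (k : ℤ) : Tendsto (fun N : ℕ => fej N k) atTop (𝓝 1) := by
  -- `fej N k = 1 - |k|/N` for `N ≥ |k|`; we only need a bound
  have hb : ∀ N : ℕ, 0 < N → ‖fej N k - 1‖ ≤ (|k| : ℤ) / (N : ℝ) := by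
    intro N hN
    have hN' : (0 : ℝ) < N := by exact_mod_cast hN
    have h1 : ∀ a ∈ range N, ∑ b ∈ range N, (if (a : ℤ) - b = k then (1 : ℂ) else 0) =
        if 0 ≤ (a : ℤ) - k ∧ (a : ℤ) - k < N then 1 else 0 := by
      intro a _
      split_ifs with h
      · rw [sum_eq_single ((a : ℤ) - k).toNat]
        · rw [if_pos]; omega
        · intro b _ hb
          rw [if_neg]; omega
        · intro h'
          exfalso
          apply h'
          rw [mem_range]; omega
      · apply sum_eq_zero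
        intro b hb
        rw [mem_range] at hb
        rw [if_neg]
        omega
    rw [fej, sum_congr rfl h1]
    have h2 : (N : ℂ)⁻¹ * ∑ a ∈ range N, (if 0 ≤ (a : ℤ) - k ∧ (a : ℤ) - k < N then (1 : ℂ) else 0) - 1 =
        -((N : ℂ)⁻¹ * ∑ a ∈ range N, (if 0 ≤ (a : ℤ) - k ∧ (a : ℤ) - k < N then (0 : ℂ) else 1)) := by
      have h3 : ∑ a ∈ range N, (if 0 ≤ (a : ℤ) - k ∧ (a : ℤ) - k < N then (1 : ℂ) else 0) +
          ∑ a ∈ range N, (if 0 ≤ (a : ℤ) - k ∧ (a : ℤ) - k < N then (0 : ℂ) else 1) = N := by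
        rw [← sum_add_distrib]
        have : ∀ a ∈ range N, ((if 0 ≤ (a : ℤ) - k ∧ (a : ℤ) - k < N then (1 : ℂ) else 0) +
          (if 0 ≤ (a : ℤ) - k ∧ (a : ℤ) - k < N then (0 : ℂ) else 1)) = 1 := by
          intro a _
          split_ifs <;> simp
        rw [sum_congr rfl this]
        simp
      have h4 : (N : ℂ) ≠ 0 := by exact_mod_cast hN.ne'
      have h5 := congrArg (fun z => (N : ℂ)⁻¹ * z) h3
      simp only [mul_add, inv_mul_cancel₀ h4] at h5
      linear_combination h5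
    rw [h2, norm_neg, norm_mul, norm_inv, Complex.norm_natCast, div_eq_inv_mul]
    apply mul_le_mul_of_nonneg_left _ (by positivity)
    have h6 : ∑ a ∈ range N, (if 0 ≤ (a : ℤ) - k ∧ (a : ℤ) - k < N then (0 : ℂ) else 1) =
        (((range N).filter (fun a : ℕ => ¬ (0 ≤ (a : ℤ) - k ∧ (a : ℤ) - k < N))).card : ℂ) := by
      rw [card_filter]
      push_cast
      apply sum_congr rfl
      intro a _
      by_cases h : (0 ≤ (a : ℤ) - k ∧ (a : ℤ) - k < N)
      · rw [if_pos h, if_neg (by simpa using h)]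
      · rw [if_neg h, if_pos h]
    rw [h6, Complex.norm_natCast]
    have h7 : ((range N).filter (fun a : ℕ => ¬ (0 ≤ (a : ℤ) - k ∧ (a : ℤ) - k < N))).card ≤ k.natAbs := by
      rcases le_total 0 k with hk | hk
      · calc _ ≤ (range k.natAbs).card := by
              apply card_le_card
              intro a ha
              rw [mem_filter, mem_range] at ha
              rw [mem_range]
              omega
          _ = k.natAbs := card_range _
      · calc _ ≤ (Finset.Ico (N - k.natAbs) N).card := by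
              apply card_le_card
              intro a ha
              rw [mem_filter, mem_range] at ha
              rw [Finset.mem_Ico]
              omega
          _ ≤ k.natAbs := by rw [Nat.card_Ico]; omega
    have h8 : ((k.natAbs : ℕ) : ℝ) = ((|k| : ℤ) : ℝ) := by
      rw [Nat.cast_natAbs]
    rw [← h8]
    exact_mod_cast h7
  rw [tendsto_iff_norm_sub_tendsto_zero]
  refine squeeze_zero' (Eventually.of_forall fun _ => norm_nonneg _)
    ((eventually_gt_atTop 0).mono fun N hN => hb N hN) ?_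
  exact tendsto_const_div_atTop_nhds_zero_nat _

theorem fejer_tendsto (hp : p ≠ ∞) (f : Lp ℂ p muT) : Tendsto (fun N : ℕ => fejer p N f) atTop (𝓝 f) := by
  rw [Metric.tendsto_atTop]
  intro ε hε
  have h2 := span_fourierLp_closure_eq_top (T := (1 : ℝ)) hp
  have h3 : f ∈ closure (Submodule.span ℂ (Set.range (fourierLp (T := (1 : ℝ)) p)) : Set (Lp ℂ p muT)) := by
    have : f ∈ (Submodule.span ℂ (Set.range (fourierLp (T := (1 : ℝ)) p))).topologicalClosure := by
      rw [h2]; trivial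
    exact this
  obtain ⟨q, hq, hfq⟩ := Metric.mem_closure_iff.mp h3 (ε / 3) (by positivity)
  rw [SetLike.mem_coe, Finsupp.mem_span_range_iff_exists_finsupp] at hq
  obtain ⟨c, hc⟩ := hq
  have hqt : Tendsto (fun N : ℕ => fejer p N q) atTop (𝓝 q) := by
    rw [← hc]
    simp only [Finsupp.sum, map_sum, map_smul, fejer_fourier]
    apply tendsto_finsetSum
    intro k _
    have := ((fej_tendsto k).smul_const (fourierLp p k : Lp ℂ p muT)).const_smul (c k)
    simpa using this
  obtain ⟨N0, hN0⟩ := Metric.tendsto_atTop.mp hqt (ε / 3) (by positivity)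
  refine ⟨max N0 1, fun N hN => ?_⟩
  have hN1 : N0 ≤ N := (le_max_left _ _).trans hN
  have hN2 : 0 < N := lt_of_lt_of_le Nat.one_pos ((le_max_right _ _).trans hN)
  have h4 := hN0 N hN1
  rw [dist_eq_norm] at h4 hfq ⊢
  have h5 := fejer_le hp N hN2 (f - q)
  rw [map_sub] at h5
  have e : fejer p N f - f = (fejer p N f - fejer p N q) + (fejer p N q - q) - (f - q) := by abel
  rw [e]
  calc ‖(fejer p N f - fejer p N q) + (fejer p N q - q) - (f - q)‖
      ≤ ‖(fejer p N f - fejer p N q) + (fejer p N q - q)‖ + ‖f - q‖ := norm_sub_le _ _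
    _ ≤ ‖fejer p N f - fejer p N q‖ + ‖fejer p N q - q‖ + ‖f - q‖ := by
        gcongr; exact norm_add_le _ _
    _ < ε := by linarith

/-- The closure of the analytic polynomials in `L^p`. -/
noncomputable def Van (p : ℝ≥0∞) [Fact (1 ≤ p)] : Submodule ℂ (Lp ℂ p muT) :=
  (Submodule.span ℂ (Set.range (fun n : ℕ => fourierLp (T := (1 : ℝ)) p (n : ℤ)))).topologicalClosure

theorem mem_Van (hp : p ≠ ∞) (f : Lp ℂ p muT) (hf : ∀ n : ℤ, n < 0 → fourierCoeff f n = 0) : f ∈ Van p := by
  have hcl : IsClosed (Van p : Set (Lp ℂ p muT)) := Submodule.isClosed_topologicalClosure _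
  refine hcl.mem_of_tendsto (fejer_tendsto hp f) (Eventually.of_forall fun N => ?_)
  rw [fejer_apply]
  apply Submodule.smul_mem
  apply Submodule.sum_mem
  intro a _
  apply Submodule.sum_mem
  intro b _
  rcases lt_or_ge ((a : ℤ) - b) 0 with h | h
  · rw [hf _ h, zero_smul]
    exact Submodule.zero_mem _
  · apply Submodule.smul_mem
    obtain ⟨m, hm⟩ := Int.eq_ofNat_of_zero_le h
    rw [hm]
    exact Submodule.le_topologicalClosure _ (Submodule.subset_span ⟨m, rfl⟩)

end Pool.Agent.H155R3
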