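import Pool.Agent.H155R3.D3
import Pool.Agent.H155R3.D4

set_option autoImplicit false

/-!
# A zero density representing system for all Hardy spaces of the circle
-/

namespace Pool.Agent.H155R3

open Finset MeasureTheory AddCircle Filter Topology
open scoped ENNReal

theorem fourier_pow (n : ℕ) (t : Tor) : (fourier (n : ℤ) t : ℂ) = (fourier 1 t : ℂ) ^ n := by
  induction n with
  | zero => simp
  | succ n ih =>
    rw [pow_succ, ← ih, ← fourier_add]
    push_cast
    rfl

section

variable (p : ℝ≥0∞) [Fact (1 ≤ p)]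

/-- Polynomials as elements of `L^p`. -/
noncomputable def Phi : Polynomial ℂ →ₗ[ℂ] Lp ℂ p muT where
  toFun g := ContinuousMap.toLp p muT ℂ (polyT g)
  map_add' := by
    intro g h
    rw [← map_add]
    congr 1
    ext t
    simp [polyT_apply]
  map_smul' := by
    intro c g
    rw [← map_smul]
    congr 1
    ext t
    rw [ContinuousMap.smul_apply, polyT_apply, polyT_apply, Polynomial.eval_smul]
    rfl

theorem Phi_apply (g : Polynomial ℂ) : Phi p g = ContinuousMap.toLp p muT ℂ (polyT g) := rfl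

theorem Phi_X (n : ℕ) : Phi p (Polynomial.X ^ n) = fourierLp p (n : ℤ) := by
  rw [Phi_apply]
  congr 1
  ext t
  rw [polyT_apply, fourier_pow]
  simp

theorem Phi_mem (g : Polynomial ℂ) : Phi p g ∈ Van p := by
  apply Submodule.le_topologicalClosure
  rw [Polynomial.as_sum_range_C_mul_X_pow g, map_sum]
  apply Submodule.sum_mem
  intro n _
  rw [← Polynomial.smul_eq_C_mul, map_smul, Phi_X]
  exact Submodule.smul_mem _ _ (Submodule.subset_span ⟨n, rfl⟩)

theorem Van_approx (f : Lp ℂ p muT) (hf : f ∈ Van p) (ε : ℝ) (hε : 0 < ε) :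
    ∃ g : Polynomial ℂ, ‖Phi p g - f‖ ≤ ε := by
  have h1 : f ∈ closure (Submodule.span ℂ (Set.range (fun n : ℕ => fourierLp (T := (1 : ℝ)) p (n : ℤ))) :
      Set (Lp ℂ p muT)) := hf
  obtain ⟨q, hq, hfq⟩ := Metric.mem_closure_iff.mp h1 ε hε
  have h2 : Submodule.span ℂ (Set.range (fun n : ℕ => fourierLp (T := (1 : ℝ)) p (n : ℤ))) ≤
      LinearMap.range (Phi p) := by
    rw [Submodule.span_le]
    rintro _ ⟨n, rfl⟩
    exact ⟨_, Phi_X p n⟩
  obtain ⟨g, hg⟩ := h2 hq
  refine ⟨g, ?_⟩
  rw [hg, ← dist_eq_norm, dist_comm]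
  exact hfq.le

theorem toLp_norm (f : C(Tor, ℂ)) : ‖(ContinuousMap.toLp p muT ℂ f : Lp ℂ p muT)‖ ≤ ‖f‖ := by
  have h1 := (ContinuousMap.toLp p muT ℂ : C(Tor, ℂ) →L[ℂ] Lp ℂ p muT).le_opNorm f
  have h2 := ContinuousMap.toLp_norm_le (p := p) (μ := muT) (𝕜 := ℂ) (E := ℂ) (α := Tor)
  have h3 : (measureUnivNNReal muT : ℝ) ^ p.toReal⁻¹ = 1 := by
    have : measureUnivNNReal muT = 1 := by
      rw [measureUnivNNReal]; simp
    rw [this]; simp
  rw [h3] at h2
  calc _ ≤ _ := h1
    _ ≤ 1 * ‖f‖ := mul_le_mul_of_nonneg_right h2 (norm_nonneg _)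
    _ = ‖f‖ := one_mul _

theorem cker_mem (s : DD) : (ContinuousMap.toLp p muT ℂ (cker s) : Lp ℂ p muT) ∈ Van p := by
  have hcl : IsClosed (Van p : Set (Lp ℂ p muT)) := Submodule.isClosed_topologicalClosure _
  set a : ℂ := starRingEnd ℂ s.1 with ha
  have ha1 : ‖a‖ < 1 := by rw [ha, RCLike.norm_conj]; exact s.2
  let G : ℕ → Polynomial ℂ := fun n => ∑ k ∈ range n, Polynomial.C (a ^ k) * Polynomial.X ^ k
  have hG : ∀ n, ‖Phi p (G n) - ContinuousMap.toLp p muT ℂ (cker s)‖ ≤ ‖a‖ ^ n * (1 - ‖a‖)⁻¹ := by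
    intro n
    rw [Phi_apply, ← map_sub]
    refine (toLp_norm p _).trans ?_
    have h0 : 0 ≤ ‖a‖ ^ n * (1 - ‖a‖)⁻¹ := by
      apply mul_nonneg (by positivity)
      rw [inv_nonneg]; linarith
    rw [ContinuousMap.norm_le _ h0]
    intro t
    have hz := norm_e1 t
    have hne := cker_ne s t
    rw [← ha] at hne
    rw [ContinuousMap.sub_apply, polyT_apply, cker_apply, ← ha]
    set z : ℂ := (fourier 1 t : ℂ) with hzdef
    have e1 : Polynomial.eval z (G n) = ∑ k ∈ range n, (a * z) ^ k := by
      simp only [G, Polynomial.eval_finsetSum]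
      apply sum_congr rfl
      intro k _
      simp [mul_pow]
    have e2 := mul_neg_geom_sum (a * z) n
    have e3 : Polynomial.eval z (G n) - (1 - a * z)⁻¹ = -((a * z) ^ n * (1 - a * z)⁻¹) := by
      rw [e1]
      have h3 : (∑ k ∈ range n, (a * z) ^ k) = (1 - (a * z) ^ n) * (1 - a * z)⁻¹ := by
        rw [eq_mul_inv_iff_mul_eq₀ hne, mul_comm]
        exact e2
      rw [h3]; ring
    rw [e3, norm_neg, norm_mul, norm_pow, norm_mul, hz, mul_one, norm_inv]
    apply mul_le_mul_of_nonneg_left _ (by positivity)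
    apply inv_anti₀ (by linarith)
    have := norm_sub_norm_le (1 : ℂ) (a * z)
    rw [norm_one, norm_mul, hz, mul_one] at this
    exact this
  have hlim : Tendsto (fun n => Phi p (G n)) atTop (𝓝 (ContinuousMap.toLp p muT ℂ (cker s))) := by
    rw [tendsto_iff_norm_sub_tendsto_zero]
    refine squeeze_zero (fun _ => norm_nonneg _) hG ?_
    have := (tendsto_pow_atTop_nhds_zero_of_lt_one (norm_nonneg a) ha1).mul_const ((1 - ‖a‖)⁻¹)
    simpa using this
  exact hcl.mem_of_tendsto hlim (Eventually.of_forall fun n => Phi_mem p _)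

end

/-- The continuous functions given by polynomials. -/
abbrev PolyC : Type := {f : C(Tor, ℂ) // ∃ g : Polynomial ℂ, polyT g = f}

instance : Nonempty PolyC := ⟨⟨polyT 0, 0, rfl⟩⟩

instance : Nonempty DD := ⟨⟨0, by simp⟩⟩

theorem lsum_map {X Y : Type*} [NormedAddCommGroup X] [NormedSpace ℂ X] [NormedAddCommGroup Y]
    [NormedSpace ℂ Y] {S : Type*} (K : S → X) (T : X →L[ℂ] Y) (L : List (ℂ × S)) :
    T (lsum K L) = lsum (fun s => T (K s)) L := by
  induction L with
  | nil => simp [lsum]
  | cons q L ih =>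
    simp only [lsum, List.map_cons, List.sum_cons, map_add, map_smul] at ih ⊢
    rw [ih]

theorem exists_zero_density : ∃ Λ : ℕ → DD, Function.Injective Λ ∧
    (∀ ε : ℝ, 0 < ε → ∃ r₀ < (1 : ℝ), ∀ r, r₀ < r → r < 1 → {n | ‖(Λ n).1‖ < r}.Finite ∧
      (1 - r) * ({n | ‖(Λ n).1‖ < r}.ncard : ℝ) ≤ ε) ∧
    ∀ (p : ℝ≥0∞) [Fact (1 ≤ p)], ∀ f ∈ Van p, ∃ c : ℕ → ℂ,
      Tendsto (fun N => ∑ k ∈ range N, c k • (ContinuousMap.toLp p muT ℂ (cker (Λ k)) : Lp ℂ p muT))
        atTop (𝓝 f) := by
  classical
  let D : ℕ → PolyC := TopologicalSpace.denseSeq PolyC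
  choose G hG using fun i => (D i).2
  let E : ℕ → ℝ := fun j => 1 / (((Nat.unpair j).2 : ℝ) + 1)
  have hE : ∀ j, 0 < E j := fun j => by positivity
  let H : ℕ → ℝ := fun j => 1 / ((j : ℝ) + 1)
  have hH : ∀ j, 0 < H j := fun j => by positivity
  obtain ⟨Λ, n, L, hinj, hmono, hn0, hlen, hL, hQ⟩ := concat_blocks
    (fun j A L => (∀ m, ∃ τ : ℝ, 0 ≤ τ ∧ τ ≤ 1 ∧
      ‖lsum cker (L.take m) - (τ : ℂ) • polyT (G (Nat.unpair j).1)‖ ≤ E j) ∧
      ‖lsum cker L - polyT (G (Nat.unpair j).1)‖ ≤ E j ∧ (∀ q ∈ L, (1 - ‖q.2.1‖) * A.card ≤ H j) ∧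
      (∀ r < (1 : ℝ), (1 - r) * cnt L r ≤ H j)) (by
      intro j A
      obtain ⟨L, h1, h2, h3, h4, h5, h6, h7⟩ := block (G (Nat.unpair j).1) (E j) (hE j) (H j) (hH j) A
      exact ⟨L, h1, h2, h3, h4, h5, h6, h7⟩)
  have hcard : ∀ j, ((Finset.range (n j)).image Λ).card = n j := by
    intro j
    rw [card_image_of_injective _ hinj, card_range]
  have hLpos : ∀ j, 0 < (L j).length := by
    intro j
    have := hmono (Nat.lt_succ_self j)
    have h2 := hlen j
    rw [Nat.succ_eq_add_one] at this
    omega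
  refine ⟨Λ, hinj, ?_, ?_⟩
  · -- the density
    intro ε hε
    obtain ⟨j₀, hj₀⟩ := exists_nat_gt (2 / ε)
    have hj₀' : 2 * H j₀ ≤ ε := by
      simp only [H]
      rw [mul_one_div, div_le_iff₀ (by positivity)]
      rw [div_lt_iff₀ hε] at hj₀
      nlinarith
    refine ⟨‖(Λ (n j₀)).1‖, (Λ (n j₀)).2, fun r hr0 hr1 => ?_⟩
    have h1r : 0 < 1 - r := by linarith
    -- blocks with points in the disc of radius `r`
    have hfar : ∀ j, 1 / (1 - r) < n j → ∀ q ∈ L j, r ≤ ‖q.2.1‖ := by
      intro j hj q hq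
      by_contra hlt
      push Not at hlt
      have h2 := (hQ j).2.2.1 q hq
      rw [hcard] at h2
      have h3 : H j ≤ 1 := by
        simp only [H]
        rw [div_le_one (by positivity)]
        have : (0 : ℝ) ≤ j := by positivity
        linarith
      rw [div_lt_iff₀ h1r] at hj
      have h4 : (1 - r) * n j ≤ (1 - ‖q.2.1‖) * n j := by
        apply mul_le_mul_of_nonneg_right _ (by positivity)
        linarith
      linarith
    obtain ⟨B, hB⟩ := exists_nat_gt (1 / (1 - r))
    have hBfar : ∀ j, B ≤ j → ∀ q ∈ L j, r ≤ ‖q.2.1‖ := by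
      intro j hj
      apply hfar
      refine lt_of_lt_of_le hB ?_
      exact_mod_cast hj.trans hmono.le_apply
    -- the last such block
    let P : ℕ → Prop := fun j => ∃ q ∈ L j, ‖q.2.1‖ < r
    have hP0 : P j₀ := by
      refine ⟨(L j₀)[0]'(hLpos j₀), List.getElem_mem _, ?_⟩
      rw [hL j₀ 0 (hLpos j₀)]
      simpa using hr0
    have hPB : ∀ j, P j → j < B := by
      rintro j ⟨q, hq, hqr⟩
      by_contra hlt
      push Not at hlt
      have := hBfar j hlt q hq
      linarith
    set j₁ := Nat.findGreatest P B with hj₁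
    have hPj₁ : P j₁ := Nat.findGreatest_spec (hPB j₀ hP0).le hP0
    have hj₀₁ : j₀ ≤ j₁ := Nat.le_findGreatest (hPB j₀ hP0).le hP0
    have hafter : ∀ j, j₁ < j → ∀ q ∈ L j, r ≤ ‖q.2.1‖ := by
      intro j hj q hq
      by_contra hlt
      push Not at hlt
      have hPj : P j := ⟨q, hq, hlt⟩
      have := Nat.le_findGreatest (hPB j hPj).le hPj
      omega
    -- the points
    have hsub : Λ '' {k | ‖(Λ k).1‖ < r} ⊆
        (((Finset.range (n j₁)).image Λ ∪ (((L j₁).filter (fun q => decide (‖q.2.1‖ < r))).map Prod.snd).toFinset :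
          Finset DD) : Set DD) := by
      rintro _ ⟨k, hk, rfl⟩
      rw [Set.mem_ofPred_eq] at hk
      rw [Finset.coe_union, Set.mem_union]
      rcases lt_or_ge k (n j₁) with h | h
      · left
        rw [Finset.mem_coe, Finset.mem_image]
        exact ⟨k, Finset.mem_range.mpr h, rfl⟩
      · right
        -- find the block of `k`
        have hex : ∃ j, k < n (j + 1) := ⟨k, lt_of_lt_of_le (Nat.lt_succ_self k) hmono.le_apply⟩
        set j := Nat.find hex with hjdef
        have hj1 : k < n (j + 1) := Nat.find_spec hex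
        have hj2 : n j ≤ k := by
          rcases Nat.eq_zero_or_pos j with h0 | h0
          · rw [h0, hn0]; exact Nat.zero_le _
          · have := Nat.find_min hex (m := j - 1) (by omega)
            rw [Nat.sub_add_cancel h0] at this
            omega
        have hj1' := hj1
        rw [hlen] at hj1'
        have hi : k - n j < (L j).length := by omega
        have hΛ := hL j (k - n j) hi
        rw [Nat.add_sub_cancel' hj2] at hΛ
        have hjj : j = j₁ := by
          rcases lt_trichotomy j j₁ with h3 | h3 | h3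
          · exfalso
            have : n (j + 1) ≤ n j₁ := hmono.monotone h3
            omega
          · exact h3
          · exfalso
            have := hafter j h3 _ (List.getElem_mem hi)
            rw [hΛ] at this
            linarith
        rw [Finset.mem_coe, List.mem_toFinset, List.mem_map]
        refine ⟨(L j)[k - n j], ?_, hΛ⟩
        rw [List.mem_filter]
        refine ⟨by rw [← hjj]; exact List.getElem_mem hi, ?_⟩
        rw [hΛ]
        simpa using hk
    have hfin : (Λ '' {k | ‖(Λ k).1‖ < r}).Finite := (Finset.finite_toSet _).subset hsub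
    have hfin' : {k | ‖(Λ k).1‖ < r}.Finite := hfin.of_finite_image hinj.injOn
    refine ⟨hfin', ?_⟩
    have hncard : {k | ‖(Λ k).1‖ < r}.ncard ≤ n j₁ + cnt (L j₁) r := by
      rw [← Set.ncard_image_of_injective _ hinj]
      refine (Set.ncard_le_ncard hsub (Finset.finite_toSet _)).trans ?_
      rw [Set.ncard_coe_finset]
      refine (card_union_le _ _).trans ?_
      rw [hcard]
      apply Nat.add_le_add_left
      refine (List.toFinset_card_le _).trans ?_
      rw [List.length_map, cnt, List.countP_eq_length_filter]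
    obtain ⟨q, hq, hqr⟩ := hPj₁
    have h2 := (hQ j₁).2.2.1 q hq
    rw [hcard] at h2
    have h3 := (hQ j₁).2.2.2 r hr1
    have h4 : (1 - r) * n j₁ ≤ H j₁ := by
      refine le_trans ?_ h2
      apply mul_le_mul_of_nonneg_right _ (by positivity)
      linarith
    have h5 : H j₁ ≤ H j₀ := by
      simp only [H]
      apply one_div_le_one_div_of_le (by positivity)
      have : (j₀ : ℝ) ≤ j₁ := by exact_mod_cast hj₀₁
      linarith
    calc (1 - r) * ({k | ‖(Λ k).1‖ < r}.ncard : ℝ) ≤ (1 - r) * ((n j₁ : ℝ) + cnt (L j₁) r) := by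
          apply mul_le_mul_of_nonneg_left _ h1r.le
          exact_mod_cast hncard
      _ = (1 - r) * n j₁ + (1 - r) * cnt (L j₁) r := by ring
      _ ≤ 2 * H j₀ := by linarith
      _ ≤ ε := hj₀'
  · -- the representation
    intro p _ f hf
    let T : C(Tor, ℂ) →L[ℂ] Lp ℂ p muT := ContinuousMap.toLp p muT ℂ
    let x : ℕ → Van p := fun k => ⟨T (cker (Λ k)), cker_mem p (Λ k)⟩
    have key : ∃ c : ℕ → ℂ, Tendsto (fun N => ∑ k ∈ Finset.range N, c k • x k) atTop (𝓝 (⟨f, hf⟩ : Van p)) := by
      apply greedy x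
      intro g ε hε n₀
      obtain ⟨g', hg'⟩ := Van_approx p g.1 g.2 (ε / 4) (by positivity)
      obtain ⟨i, hi⟩ : ∃ i, ‖polyT (G i) - polyT g'‖ ≤ ε / 4 := by
        have h1 := TopologicalSpace.denseRange_denseSeq PolyC
        obtain ⟨i, hi⟩ := h1.exists_dist_lt (⟨polyT g', g', rfl⟩ : PolyC) (show (0 : ℝ) < ε / 4 by positivity)
        refine ⟨i, ?_⟩
        rw [Subtype.dist_eq, dist_comm, dist_eq_norm] at hi
        rw [hG i]
        exact hi.le
      obtain ⟨k, hk⟩ := exists_nat_gt (max (4 / ε) n₀)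
      have hk1 : 4 / ε < k := lt_of_le_of_lt (le_max_left _ _) hk
      have hk2 : n₀ < k := by exact_mod_cast lt_of_le_of_lt (le_max_right _ _) hk
      set j := Nat.pair i k with hj
      have hGj : G (Nat.unpair j).1 = G i := by simp [hj]
      have hEj : E j ≤ ε / 4 := by
        simp only [E, hj, Nat.unpair_pair]
        rw [div_le_iff₀ (by positivity)]
        rw [div_lt_iff₀ hε] at hk1
        nlinarith
      obtain ⟨hQ1, hQ2, -, -⟩ := hQ j
      rw [hGj] at hQ2
      have hnj : n₀ < n j := lt_of_lt_of_le hk2 ((Nat.right_le_pair i k).trans hmono.le_apply)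
      have hTi : ‖T (polyT (G i)) - g.1‖ ≤ ε / 2 := by
        have e : T (polyT (G i)) - g.1 = T (polyT (G i) - polyT g') + (T (polyT g') - g.1) := by
          rw [map_sub]; abel
        rw [e]
        refine (norm_add_le _ _).trans ?_
        have h1 := (toLp_norm p (polyT (G i) - polyT g')).trans hi
        have h2 : ‖T (polyT g') - g.1‖ ≤ ε / 4 := hg'
        have h3 : ‖T (polyT (G i) - polyT g')‖ ≤ ε / 4 := h1
        linarith
      have hTn : ‖T (polyT (G i))‖ ≤ ‖g‖ + ε / 2 := by
        have e : T (polyT (G i)) = g.1 + (T (polyT (G i)) - g.1) := by abel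
        rw [e]
        exact (norm_add_le _ _).trans (add_le_add le_rfl hTi)
      let c : ℕ → ℂ := fun k => if k < n j then 0 else ((L j).getD (k - n j) (0, Λ 0)).1
      have hc : ∀ i (hi : i < (L j).length), c (n j + i) = ((L j)[i]).1 := by
        intro i hi
        simp only [c]
        rw [if_neg (by omega), Nat.add_sub_cancel_left, List.getD_eq_getElem?_getD,
          List.getElem?_eq_getElem hi]
        rfl
      have hx : ∀ i (hi : i < (L j).length), x (n j + i) =
          (fun s => (⟨T (cker s), cker_mem p s⟩ : Van p)) ((L j)[i]).2 := by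
        intro i hi
        simp only [x]
        rw [hL j i hi]
      have hzero : ∀ N, N ≤ n j → ∑ k ∈ Finset.Ico n₀ N, c k • x k = 0 := by
        intro N hN
        apply Finset.sum_eq_zero
        intro k hk
        rw [Finset.mem_Ico] at hk
        simp only [c]
        rw [if_pos (by omega), zero_smul]
      have hsum : ∀ m, m ≤ (L j).length → ∑ k ∈ Finset.Ico n₀ (n j + m), c k • x k =
          lsum (fun s => (⟨T (cker s), cker_mem p s⟩ : Van p)) ((L j).take m) := by
        intro m hm
        rw [← Finset.sum_Ico_consecutive _ hnj.le (Nat.le_add_right (n j) m), hzero _ le_rfl, zero_add]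
        exact sum_Ico_eq_lsum _ (L j) x (n j) c hc hx m hm
      have hcoe : ∀ M : List (ℂ × DD), ((lsum (fun s => (⟨T (cker s), cker_mem p s⟩ : Van p)) M : Van p) :
          Lp ℂ p muT) = T (lsum cker M) := by
        intro M
        rw [lsum_map cker T M]
        exact lsum_map (fun s => (⟨T (cker s), cker_mem p s⟩ : Van p)) (Van p).subtypeL M
      refine ⟨n (j + 1), lt_trans hnj (hmono (Nat.lt_succ_self j)), c, ?_, ?_⟩
      · intro N hN
        rcases le_total N (n j) with h | h
        · rw [hzero N h, norm_zero]; positivity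
        · obtain ⟨m, rfl⟩ := Nat.exists_eq_add_of_le h
          rw [hlen] at hN
          rw [hsum m (by omega), Submodule.coe_norm, hcoe]
          obtain ⟨τ, hτ0, hτ1, hτ⟩ := hQ1 m
          rw [hGj] at hτ
          have e : lsum cker (List.take m (L j)) = (lsum cker (List.take m (L j)) - (τ : ℂ) • polyT (G i)) +
              (τ : ℂ) • polyT (G i) := by abel
          rw [e, map_add, map_smul]
          refine (norm_add_le _ _).trans ?_
          rw [norm_smul, Complex.norm_real, Real.norm_of_nonneg hτ0]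
          have h1 : ‖T (lsum cker (List.take m (L j)) - (τ : ℂ) • polyT (G i))‖ ≤ E j :=
            (toLp_norm p _).trans hτ
          have h2 : τ * ‖T (polyT (G i))‖ ≤ ‖T (polyT (G i))‖ := by
            have := mul_le_mul_of_nonneg_right hτ1 (norm_nonneg (T (polyT (G i))))
            linarith
          linarith
      · rw [hlen, hsum _ le_rfl, List.take_length, Submodule.coe_norm, Submodule.coe_sub, hcoe]
        have e : T (lsum cker (L j)) - g.1 = T (lsum cker (L j) - polyT (G i)) + (T (polyT (G i)) - g.1) := by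
          rw [map_sub]; abel
        rw [e]
        refine (norm_add_le _ _).trans ?_
        have h1 : ‖T (lsum cker (L j) - polyT (G i))‖ ≤ E j := (toLp_norm p _).trans hQ2
        linarith
    obtain ⟨c, hc⟩ := key
    refine ⟨c, ?_⟩
    have := ((Van p).subtypeL.continuous.tendsto _).comp hc
    refine this.congr fun N => ?_
    simp [x, T]

end Pool.Agent.H155R3
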