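import Mathlib

set_option autoImplicit false

/-!
# Polynomials that are small near the origin and correct a given polynomial to one near `kN`
-/

namespace Pool.Agent.H155R3

open Finset Polynomial

/-- The polynomial with absolute values of coefficients, evaluated at `t`. -/
noncomputable def absval (P : ℂ[X]) (t : ℝ) : ℝ := ∑ k ∈ range (P.natDegree + 1), ‖P.coeff k‖ * t ^ k

theorem norm_eval_le_absval (P : ℂ[X]) (z : ℂ) : ‖P.eval z‖ ≤ absval P ‖z‖ := by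
  rw [Polynomial.eval_eq_sum_range]
  refine (norm_sum_le _ _).trans (le_of_eq ?_)
  apply sum_congr rfl
  intro k _
  rw [norm_mul, norm_pow]

theorem pow_le_exp (ε t : ℝ) (hε : 0 < ε) (ht : 0 ≤ t) (k : ℕ) :
    t ^ k ≤ (k.factorial : ℝ) / ε ^ k * Real.exp (ε * t) := by
  have h := Real.pow_div_factorial_le_exp (ε * t) (by positivity) k
  rw [div_le_iff₀ (by positivity), mul_pow] at h
  rw [div_mul_eq_mul_div, le_div_iff₀ (by positivity)]
  nlinarith

theorem absval_exp (P : ℂ[X]) (ε : ℝ) (hε : 0 < ε) :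
    ∃ C : ℝ, 0 < C ∧ ∀ t : ℝ, 0 ≤ t → absval P t ≤ C * Real.exp (ε * t) := by
  refine ⟨∑ k ∈ range (P.natDegree + 1), ‖P.coeff k‖ * ((k.factorial : ℝ) / ε ^ k) + 1, by positivity, ?_⟩
  intro t ht
  have h1 : absval P t ≤ ∑ k ∈ range (P.natDegree + 1), ‖P.coeff k‖ * ((k.factorial : ℝ) / ε ^ k * Real.exp (ε * t)) := by
    apply sum_le_sum
    intro k _
    exact mul_le_mul_of_nonneg_left (pow_le_exp ε t hε ht k) (norm_nonneg _)
  refine h1.trans ?_
  rw [add_mul, sum_mul, one_mul]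
  have : 0 < Real.exp (ε * t) := Real.exp_pos _
  have h2 : ∑ k ∈ range (P.natDegree + 1), ‖P.coeff k‖ * ((k.factorial : ℝ) / ε ^ k * Real.exp (ε * t)) =
      ∑ k ∈ range (P.natDegree + 1), ‖P.coeff k‖ * ((k.factorial : ℝ) / ε ^ k) * Real.exp (ε * t) := by
    apply sum_congr rfl
    intro k _
    ring
  linarith

theorem eval_exp (P : ℂ[X]) (ε : ℝ) (hε : 0 < ε) :
    ∃ C : ℝ, 0 < C ∧ ∀ z : ℂ, ‖P.eval z‖ ≤ C * Real.exp (ε * ‖z‖) := by
  obtain ⟨C, hC, h⟩ := absval_exp P ε hε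
  exact ⟨C, hC, fun z => (norm_eval_le_absval P z).trans (h _ (norm_nonneg z))⟩

/-- Polynomial growth. -/
theorem absval_pow (P : ℂ[X]) : ∃ C : ℝ, 0 < C ∧ ∀ t : ℝ, 1 ≤ t → absval P t ≤ C * t ^ P.natDegree := by
  refine ⟨∑ k ∈ range (P.natDegree + 1), ‖P.coeff k‖ + 1, by positivity, ?_⟩
  intro t ht
  have h1 : absval P t ≤ ∑ k ∈ range (P.natDegree + 1), ‖P.coeff k‖ * t ^ P.natDegree := by
    apply sum_le_sum
    intro k hk
    apply mul_le_mul_of_nonneg_left _ (norm_nonneg _)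
    exact pow_le_pow_right₀ ht (by rw [mem_range] at hk; omega)
  refine h1.trans ?_
  rw [← sum_mul, add_mul]
  have : 0 < t ^ P.natDegree := by positivity
  linarith

/-- `Π(w) = ∏_{k=1}^M (1 - w²/k²)`. -/
noncomputable def PiP (M : ℕ) : ℂ[X] := ∏ k ∈ range M, (1 - C (1 / ((k : ℂ) + 1) ^ 2) * X ^ 2)

theorem PiP_zero (M : ℕ) : (PiP M).eval 0 = 1 := by
  rw [PiP, Polynomial.eval_prod]
  simp

/-- Scaling a polynomial without constant term. -/
theorem scaled_bound (Y : ℂ[X]) (hY : Y.eval 0 = 0) (N : ℕ) (hN : 0 < N) (z : ℂ) :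
    ‖Y.eval (z / N)‖ ≤ (1 / N) * absval Y ‖z‖ := by
  have hN' : (1 : ℝ) ≤ N := by exact_mod_cast hN
  refine (norm_eval_le_absval Y _).trans ?_
  rw [absval, absval, mul_sum]
  apply sum_le_sum
  intro k _
  rcases Nat.eq_zero_or_pos k with rfl | hk
  · have : Y.coeff 0 = 0 := by rw [Polynomial.coeff_zero_eq_eval_zero]; exact hY
    rw [this]; simp
  · rw [norm_div, Complex.norm_natCast, div_pow]
    have h1 : ‖z‖ ^ k / (N : ℝ) ^ k ≤ (1 / N) * ‖z‖ ^ k := by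
      rw [div_eq_inv_mul, one_div]
      apply mul_le_mul_of_nonneg_right _ (by positivity)
      apply inv_anti₀ (by positivity)
      exact le_self_pow₀ hN' hk.ne'
    calc ‖Y.coeff k‖ * (‖z‖ ^ k / (N : ℝ) ^ k) ≤ ‖Y.coeff k‖ * ((1 / N) * ‖z‖ ^ k) :=
          mul_le_mul_of_nonneg_left h1 (norm_nonneg _)
      _ = 1 / N * (‖Y.coeff k‖ * ‖z‖ ^ k) := by ring

/-- `Π(x/N)` is `O(1/N)` for `x` within `L` of `kN`, `0 < |k| ≤ M`. -/
theorem PiP_near (M L : ℕ) : ∃ B : ℝ, 0 < B ∧ ∀ N : ℕ, 0 < N → ∀ k : ℤ, k ≠ 0 → |k| ≤ M →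
    ∀ x : ℂ, ‖x - k * N‖ ≤ L → ‖(PiP M).eval (x / N)‖ ≤ B / N := by
  set D : ℝ := 1 + ((M : ℝ) + L) ^ 2 with hD
  have hD1 : 1 ≤ D := by
    have : (0 : ℝ) ≤ ((M : ℝ) + L) ^ 2 := by positivity
    linarith
  refine ⟨(L * (2 * M + L) + 1) * D ^ M, by positivity, ?_⟩
  intro N hN k hk hkM x hx
  have hN' : (1 : ℝ) ≤ N := by exact_mod_cast hN
  have hN0 : (0 : ℝ) < N := by linarith
  have hNC : (N : ℂ) ≠ 0 := by exact_mod_cast hN.ne'
  have hkR : ‖(k : ℂ)‖ ≤ M := by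
    rw [Complex.norm_intCast]
    exact_mod_cast hkM
  have hxn : ‖x‖ ≤ M * N + L := by
    have e : x = (x - k * N) + k * N := by ring
    rw [e]
    refine (norm_add_le _ _).trans ?_
    rw [norm_mul, Complex.norm_natCast]
    have := mul_le_mul_of_nonneg_right hkR hN0.le
    linarith
  have hxN : ‖x / N‖ ≤ M + L := by
    rw [norm_div, Complex.norm_natCast, div_le_iff₀ hN0]
    have : (L : ℝ) ≤ L * N := by
      have := mul_le_mul_of_nonneg_left hN' (show (0 : ℝ) ≤ L by positivity)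
      linarith
    nlinarith
  -- all factors
  have hfac : ∀ i ∈ range M, ‖1 - (1 / ((i : ℂ) + 1) ^ 2) * (x / N) ^ 2‖ ≤ D := by
    intro i _
    refine (norm_sub_le _ _).trans ?_
    rw [norm_one, norm_mul, norm_div, norm_one, norm_pow, norm_pow]
    have h1 : (1 : ℝ) ≤ ‖(i : ℂ) + 1‖ := by
      have : ((i : ℂ) + 1) = ((i + 1 : ℕ) : ℂ) := by push_cast; rfl
      rw [this, Complex.norm_natCast]
      push_cast
      have : (0 : ℝ) ≤ i := by positivity
      linarith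
    have h2 : 1 / ‖(i : ℂ) + 1‖ ^ 2 ≤ 1 := by
      rw [div_le_one (by positivity)]
      nlinarith
    have h3 : ‖x / N‖ ^ 2 ≤ ((M : ℝ) + L) ^ 2 := pow_le_pow_left₀ (norm_nonneg _) hxN 2
    have h4 : 1 / ‖(i : ℂ) + 1‖ ^ 2 * ‖x / N‖ ^ 2 ≤ 1 * ((M : ℝ) + L) ^ 2 :=
      mul_le_mul h2 h3 (by positivity) (by norm_num)
    linarith
  -- the special factor
  set k' : ℕ := k.natAbs - 1 with hk'
  have hk1 : 1 ≤ k.natAbs := Int.natAbs_pos.mpr hk
  have hkabs : ((k.natAbs : ℕ) : ℤ) ≤ M := by rw [Int.natCast_natAbs]; exact hkM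
  have hk'M : k' ∈ range M := by
    rw [mem_range]
    omega
  have hspec : ‖1 - (1 / ((k' : ℂ) + 1) ^ 2) * (x / N) ^ 2‖ ≤ (L * (2 * M + L)) / N := by
    have e1 : ((k' : ℂ) + 1) ^ 2 = (k : ℂ) ^ 2 := by
      have : ((k' : ℂ) + 1) = ((k.natAbs : ℤ) : ℂ) := by
        have h1 : (k.natAbs : ℤ) = (k' : ℤ) + 1 := by omega
        rw [h1]; push_cast; rfl
      rw [this, ← Int.cast_pow, Int.natAbs_sq, Int.cast_pow]
    have hkC : (k : ℂ) ≠ 0 := by exact_mod_cast hk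
    have e2 : 1 - (1 / ((k' : ℂ) + 1) ^ 2) * (x / N) ^ 2 = (k * N - x) * (k * N + x) / ((k * N) ^ 2) := by
      rw [e1]
      field_simp
      ring
    rw [e2, norm_div, norm_mul, norm_pow, norm_mul, Complex.norm_natCast]
    have h1 : ‖(k : ℂ) * N - x‖ ≤ L := by rw [norm_sub_rev]; exact hx
    have h2 : ‖(k : ℂ) * N + x‖ ≤ 2 * M * N + L := by
      refine (norm_add_le _ _).trans ?_
      rw [norm_mul, Complex.norm_natCast]
      have := mul_le_mul_of_nonneg_right hkR hN0.le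
      linarith
    have h3 : (1 : ℝ) ≤ ‖(k : ℂ)‖ := by
      rw [Complex.norm_intCast]
      exact_mod_cast Int.one_le_abs hk
    have h4 : (N : ℝ) ^ 2 ≤ (‖(k : ℂ)‖ * N) ^ 2 := by
      apply pow_le_pow_left₀ hN0.le
      nlinarith
    calc ‖(k : ℂ) * N - x‖ * ‖(k : ℂ) * N + x‖ / (‖(k : ℂ)‖ * N) ^ 2
        ≤ L * (2 * M * N + L) / (‖(k : ℂ)‖ * N) ^ 2 := by
          apply div_le_div_of_nonneg_right _ (by positivity)
          exact mul_le_mul h1 h2 (norm_nonneg _) (by positivity)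
      _ ≤ L * (2 * M * N + L) / (N : ℝ) ^ 2 := by
          apply div_le_div_of_nonneg_left (by positivity) (by positivity) h4
      _ ≤ L * ((2 * M + L) * N) / (N : ℝ) ^ 2 := by
          apply div_le_div_of_nonneg_right _ (by positivity)
          apply mul_le_mul_of_nonneg_left _ (by positivity)
          have := mul_le_mul_of_nonneg_left hN' (show (0 : ℝ) ≤ L by positivity)
          nlinarith
      _ = (L * (2 * M + L)) / N := by field_simp
  rw [PiP, Polynomial.eval_prod]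
  have e3 : ∀ i ∈ range M, Polynomial.eval (x / N) (1 - C (1 / ((i : ℂ) + 1) ^ 2) * X ^ 2) =
      1 - (1 / ((i : ℂ) + 1) ^ 2) * (x / N) ^ 2 := by
    intro i _; simp
  rw [prod_congr rfl e3, norm_prod, ← mul_prod_erase _ _ hk'M]
  have h5 : ∏ i ∈ (range M).erase k', ‖1 - (1 / ((i : ℂ) + 1) ^ 2) * (x / N) ^ 2‖ ≤ D ^ M := by
    refine (prod_le_prod (fun _ _ => norm_nonneg _) (fun i hi => hfac i (mem_of_mem_erase hi))).trans ?_
    rw [prod_const, card_erase_of_mem hk'M, card_range]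
    exact pow_le_pow_right₀ hD1 (by omega)
  calc ‖1 - (1 / ((k' : ℂ) + 1) ^ 2) * (x / N) ^ 2‖ *
        ∏ i ∈ (range M).erase k', ‖1 - (1 / ((i : ℂ) + 1) ^ 2) * (x / N) ^ 2‖
      ≤ ((L * (2 * M + L)) / N) * D ^ M :=
        mul_le_mul hspec h5 (prod_nonneg fun _ _ => norm_nonneg _) (by positivity)
    _ = (L * (2 * M + L)) * D ^ M / N := by ring
    _ ≤ (L * (2 * M + L) + 1) * D ^ M / N := by
        apply div_le_div_of_nonneg_right _ hN0.le
        apply mul_le_mul_of_nonneg_right _ (by positivity)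
        linarith

/-- **The interpolation lemma.** -/
theorem interp (S : ℂ[X]) (M L : ℕ) (η ε R : ℝ) (hη : 0 < η) (hε : 0 < ε) :
    ∃ N₀ : ℕ, ∀ N : ℕ, N₀ ≤ N → ∃ P : ℂ[X], (∀ z : ℂ, ‖z‖ ≤ R → ‖P.eval z‖ ≤ η) ∧
      (∀ z : ℂ, ‖P.eval z‖ ≤ η * Real.exp (ε * ‖z‖)) ∧
      ∀ k : ℤ, k ≠ 0 → |k| ≤ M → ∀ x : ℂ, ‖x - k * N‖ ≤ L → ‖S.eval x + P.eval x - 1‖ ≤ η := by
  set d : ℕ := (1 - S).natDegree with hd
  set Y : ℂ[X] := 1 - (PiP M) ^ (d + 1) with hY
  have hY0 : Y.eval 0 = 0 := by rw [hY]; simp [PiP_zero]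
  obtain ⟨C1, hC1, h1⟩ := absval_exp Y (ε / 2) (by positivity)
  obtain ⟨C2, hC2, h2⟩ := eval_exp (1 - S) (ε / 2) (by positivity)
  obtain ⟨C3, hC3, h3⟩ := absval_pow (1 - S)
  obtain ⟨B, hB, h4⟩ := PiP_near M L
  obtain ⟨N1, hN1⟩ := exists_nat_gt (C1 * C2 / η)
  obtain ⟨N2, hN2⟩ := exists_nat_gt (C1 * C2 * Real.exp (ε * R) / η)
  obtain ⟨N3, hN3⟩ := exists_nat_gt (B ^ (d + 1) * (C3 * ((M : ℝ) + L + 1) ^ d) / η)
  refine ⟨max (max N1 N2) (max N3 1), fun N hN => ?_⟩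
  have hNN1 : N1 ≤ N := le_trans (le_trans (le_max_left _ _) (le_max_left _ _)) hN
  have hNN2 : N2 ≤ N := le_trans (le_trans (le_max_right _ _) (le_max_left _ _)) hN
  have hNN3 : N3 ≤ N := le_trans (le_trans (le_max_left _ _) (le_max_right _ _)) hN
  have hNN4 : 1 ≤ N := le_trans (le_trans (le_max_right _ _) (le_max_right _ _)) hN
  have hNpos : 0 < N := hNN4
  have hN' : (1 : ℝ) ≤ N := by exact_mod_cast hNN4
  have hN0 : (0 : ℝ) < N := by linarith
  have hNC : (N : ℂ) ≠ 0 := by exact_mod_cast hNpos.ne'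
  let P : ℂ[X] := (1 - S) * Y.comp (C ((N : ℂ)⁻¹) * X)
  have hPeval : ∀ z : ℂ, P.eval z = (1 - S.eval z) * Y.eval (z / N) := by
    intro z
    simp only [P, Polynomial.eval_mul, Polynomial.eval_comp, Polynomial.eval_C, Polynomial.eval_X,
      Polynomial.eval_sub, Polynomial.eval_one]
    rw [div_eq_inv_mul]
  have hmain : ∀ z : ℂ, ‖P.eval z‖ ≤ (C1 * C2 / N) * Real.exp (ε * ‖z‖) := by
    intro z
    rw [hPeval, norm_mul]
    have h5 := scaled_bound Y hY0 N hNpos z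
    have h6 := h1 ‖z‖ (norm_nonneg z)
    have h7 := h2 z
    rw [Polynomial.eval_sub, Polynomial.eval_one] at h7
    have h8 : ‖Y.eval (z / N)‖ ≤ (1 / N) * (C1 * Real.exp (ε / 2 * ‖z‖)) :=
      h5.trans (mul_le_mul_of_nonneg_left h6 (by positivity))
    calc ‖1 - S.eval z‖ * ‖Y.eval (z / N)‖
        ≤ (C2 * Real.exp (ε / 2 * ‖z‖)) * ((1 / N) * (C1 * Real.exp (ε / 2 * ‖z‖))) :=
          mul_le_mul h7 h8 (norm_nonneg _) (by positivity)
      _ = (C1 * C2 / N) * (Real.exp (ε / 2 * ‖z‖) * Real.exp (ε / 2 * ‖z‖)) := by ring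
      _ = (C1 * C2 / N) * Real.exp (ε * ‖z‖) := by rw [← Real.exp_add]; congr 2; ring
  have hCN : C1 * C2 / N ≤ η := by
    rw [div_le_iff₀ hN0]
    rw [div_lt_iff₀ hη] at hN1
    have : (N1 : ℝ) ≤ N := by exact_mod_cast hNN1
    nlinarith
  refine ⟨P, ?_, ?_, ?_⟩
  · intro z hz
    refine (hmain z).trans ?_
    have h5 : Real.exp (ε * ‖z‖) ≤ Real.exp (ε * R) := by
      apply Real.exp_le_exp.mpr
      exact mul_le_mul_of_nonneg_left hz hε.le
    calc (C1 * C2 / N) * Real.exp (ε * ‖z‖) ≤ (C1 * C2 / N) * Real.exp (ε * R) :=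
          mul_le_mul_of_nonneg_left h5 (by positivity)
      _ = (C1 * C2 * Real.exp (ε * R)) / N := by ring
      _ ≤ η := by
        rw [div_le_iff₀ hN0]
        rw [div_lt_iff₀ hη] at hN2
        have : (N2 : ℝ) ≤ N := by exact_mod_cast hNN2
        nlinarith
  · intro z
    exact (hmain z).trans (mul_le_mul_of_nonneg_right hCN (Real.exp_pos _).le)
  · intro k hk hkM x hx
    have e : S.eval x + P.eval x - 1 = -((1 - S.eval x) * ((PiP M).eval (x / N)) ^ (d + 1)) := by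
      rw [hPeval, hY, Polynomial.eval_sub, Polynomial.eval_one, Polynomial.eval_pow]
      ring
    rw [e, norm_neg, norm_mul, norm_pow]
    have h5 := h4 N hNpos k hk hkM x hx
    have hkR : ‖(k : ℂ)‖ ≤ M := by
      rw [Complex.norm_intCast]
      exact_mod_cast hkM
    have hxn : ‖x‖ ≤ M * N + L := by
      have e : x = (x - k * N) + k * N := by ring
      rw [e]
      refine (norm_add_le _ _).trans ?_
      rw [norm_mul, Complex.norm_natCast]
      have := mul_le_mul_of_nonneg_right hkR hN0.le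
      linarith
    have hx2 : ‖x‖ ≤ ((M : ℝ) + L + 1) * N := by
      have := mul_le_mul_of_nonneg_left hN' (show (0 : ℝ) ≤ L by positivity)
      nlinarith
    have ht1 : (1 : ℝ) ≤ ((M : ℝ) + L + 1) * N := by
      have : (0 : ℝ) ≤ M := by positivity
      have : (0 : ℝ) ≤ L := by positivity
      nlinarith
    have h6 : ‖1 - S.eval x‖ ≤ C3 * (((M : ℝ) + L + 1) * N) ^ d := by
      have h7 := norm_eval_le_absval (1 - S) x
      rw [Polynomial.eval_sub, Polynomial.eval_one] at h7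
      refine h7.trans (le_trans ?_ (h3 _ ht1))
      unfold absval
      apply sum_le_sum
      intro i _
      apply mul_le_mul_of_nonneg_left _ (norm_nonneg _)
      exact pow_le_pow_left₀ (norm_nonneg _) hx2 i
    have h8 : ‖(PiP M).eval (x / N)‖ ^ (d + 1) ≤ (B / N) ^ (d + 1) := pow_le_pow_left₀ (norm_nonneg _) h5 _
    calc ‖1 - S.eval x‖ * ‖(PiP M).eval (x / N)‖ ^ (d + 1)
        ≤ (C3 * (((M : ℝ) + L + 1) * N) ^ d) * (B / N) ^ (d + 1) :=
          mul_le_mul h6 h8 (by positivity) (by positivity)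
      _ = (B ^ (d + 1) * (C3 * ((M : ℝ) + L + 1) ^ d)) / N := by
          rw [mul_pow, div_pow, pow_succ (N : ℝ) d]
          field_simp
      _ ≤ η := by
        rw [div_le_iff₀ hN0]
        rw [div_lt_iff₀ hη] at hN3
        have : (N3 : ℝ) ≤ N := by exact_mod_cast hNN3
        nlinarith

end Pool.Agent.H155R3
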