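import Mathlib

set_option autoImplicit false

/-!
# Trigonometric polynomials on the circle and the correction step
-/

namespace Pool.Agent.H155R3

open MeasureTheory Set

/-- The trigonometric polynomial with coefficients `α`. -/
noncomputable def TP (α : ℤ →₀ ℂ) : C(AddCircle (1:ℝ), ℂ) :=
  Finsupp.linearCombination ℂ (fun n : ℤ => (fourier n : C(AddCircle (1:ℝ), ℂ))) α

theorem TP_apply (α : ℤ →₀ ℂ) (x : AddCircle (1:ℝ)) : TP α x = ∑ n ∈ α.support, α n * fourier n x := by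
  rw [TP, Finsupp.linearCombination_apply, Finsupp.sum]
  simp

theorem TP_single (n : ℤ) (c : ℂ) (x : AddCircle (1:ℝ)) : TP (Finsupp.single n c) x = c * fourier n x := by
  rw [TP, Finsupp.linearCombination_single]
  simp

theorem TP_add (α β : ℤ →₀ ℂ) : TP (α + β) = TP α + TP β := by
  unfold TP; exact map_add _ _ _

theorem TP_sub (α β : ℤ →₀ ℂ) : TP (α - β) = TP α - TP β := by
  unfold TP; exact map_sub _ _ _

theorem TP_sum {ι : Type*} (s : Finset ι) (β : ι → ℤ →₀ ℂ) : TP (∑ i ∈ s, β i) = ∑ i ∈ s, TP (β i) := by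
  unfold TP; exact map_sum _ _ _

theorem integral_fourier_ne {n : ℤ} (hn : n ≠ 0) : ∫ x : AddCircle (1:ℝ), (fourier n x : ℂ) = 0 :=
  integral_eq_zero_of_add_right_eq_neg (μ := (volume : Measure (AddCircle (1:ℝ))))
    (fourier_add_half_inv_index hn one_pos)

theorem integrable_cont (g : C(AddCircle (1:ℝ), ℂ)) : Integrable (fun x => g x) := by
  exact g.continuous.integrable_of_hasCompactSupport (HasCompactSupport.of_compactSpace _)

theorem vol_univ : (volume : Measure (AddCircle (1:ℝ))) univ = 1 := by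
  rw [AddCircle.measure_univ]; simp

instance : IsProbabilityMeasure (volume : Measure (AddCircle (1:ℝ))) := ⟨vol_univ⟩

theorem integral_TP (α : ℤ →₀ ℂ) : ∫ x : AddCircle (1:ℝ), TP α x = α 0 := by
  simp_rw [TP_apply]
  rw [integral_finsetSum]
  · simp_rw [integral_const_mul]
    have h1 : ∀ n ∈ α.support, α n * ∫ x : AddCircle (1:ℝ), (fourier n x : ℂ) = if n = 0 then α n else 0 := by
      intro n _
      split_ifs with h
      · subst h
        simp
      · rw [integral_fourier_ne h, mul_zero]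
    rw [Finset.sum_congr rfl h1, Finset.sum_ite_eq']
    split_ifs with h
    · rfl
    · exact (Finsupp.notMem_support_iff.mp h).symm
  · intro n _
    exact (integrable_cont (fourier n)).const_mul _

theorem TP_approx (g : C(AddCircle (1:ℝ), ℂ)) (τ : ℝ) (hτ : 0 < τ) : ∃ a : ℤ →₀ ℂ, ‖TP a - g‖ ≤ τ := by
  have h1 : g ∈ (Submodule.span ℂ (range <| @fourier (1:ℝ))).topologicalClosure := by
    rw [span_fourier_closure_eq_top]; trivial
  have h2 : g ∈ closure ((Submodule.span ℂ (range <| @fourier (1:ℝ)) : Submodule ℂ C(AddCircle (1:ℝ), ℂ)) : Set C(AddCircle (1:ℝ), ℂ)) := h1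
  rw [Metric.mem_closure_iff] at h2
  obtain ⟨q, hq, hq2⟩ := h2 τ hτ
  rw [SetLike.mem_coe, Finsupp.mem_span_range_iff_exists_finsupp] at hq
  obtain ⟨c, hc⟩ := hq
  refine ⟨c, ?_⟩
  have : TP c = q := by rw [← hc, TP, Finsupp.linearCombination_apply]
  rw [this, ← dist_eq_norm, dist_comm]
  exact hq2.le

theorem TP_approx_zero (κ : C(AddCircle (1:ℝ), ℂ)) (hκ : ∫ x, κ x = 0) (τ : ℝ) (hτ : 0 < τ) :
    ∃ b : ℤ →₀ ℂ, b 0 = 0 ∧ ‖TP b - κ‖ ≤ τ := by
  obtain ⟨a, ha⟩ := TP_approx κ (τ / 2) (by positivity)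
  refine ⟨a - Finsupp.single 0 (a 0), by simp, ?_⟩
  have h1 : a 0 = ∫ x, (TP a - κ) x := by
    have : ∫ x, (TP a - κ) x = (∫ x, TP a x) - ∫ x, κ x := by
      rw [← integral_sub (integrable_cont _) (integrable_cont _)]
      rfl
    rw [this, hκ, integral_TP, sub_zero]
  have h2 : ‖a 0‖ ≤ τ / 2 := by
    rw [h1]
    refine (norm_integral_le_of_norm_le_const (C := τ / 2) (Filter.Eventually.of_forall fun x => ?_)).trans ?_
    · exact (ContinuousMap.norm_coe_le_norm _ x).trans ha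
    · simp
  rw [ContinuousMap.norm_le _ hτ.le]
  intro x
  have e : (TP (a - Finsupp.single 0 (a 0)) - κ) x = (TP a - κ) x - a 0 := by
    rw [TP_sub, ContinuousMap.sub_apply, ContinuousMap.sub_apply, TP_single, ContinuousMap.sub_apply]
    simp
    ring
  rw [e]
  refine (norm_sub_le _ _).trans ?_
  have := (ContinuousMap.norm_coe_le_norm (TP a - κ) x).trans ha
  linarith

theorem exists_kappa (ε : ℝ) (hε : 0 < ε) : ∃ κ : C(AddCircle (1:ℝ), ℂ), (∫ x, κ x) = 0 ∧
    ∃ A : Set (AddCircle (1:ℝ)), MeasurableSet A ∧ volume Aᶜ ≤ ENNReal.ofReal ε ∧ ∀ x ∈ A, κ x = 1 := by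
  set b : AddCircle (1:ℝ) → ℝ := fun x => max 0 (1 - ‖x‖ / (ε / 2)) with hb
  have hbc : Continuous b := by
    apply Continuous.max continuous_const
    exact continuous_const.sub (continuous_norm.div_const _)
  have hb0 : ∀ x, 0 ≤ b x := fun x => le_max_left _ _
  have hI : 0 < ∫ x, b x := by
    apply hbc.integral_pos_of_hasCompactSupport_nonneg_nonzero (HasCompactSupport.of_compactSpace _) hb0 (x := 0)
    simp [hb]
  set I : ℝ := ∫ x, b x with hId
  let κ : C(AddCircle (1:ℝ), ℂ) := ⟨fun x => 1 - ((b x / I : ℝ) : ℂ), by fun_prop⟩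
  refine ⟨κ, ?_, (Metric.closedBall 0 (ε / 2))ᶜ, measurableSet_closedBall.compl, ?_, ?_⟩
  · have h1 : ∀ x, κ x = 1 - ((b x / I : ℝ) : ℂ) := fun x => rfl
    simp_rw [h1]
    rw [integral_sub (integrable_const _), integral_const, integral_complex_ofReal, integral_div]
    · rw [← hId, div_self hI.ne']
      simp
    · have : Continuous fun x => ((b x / I : ℝ) : ℂ) := by fun_prop
      exact this.integrable_of_hasCompactSupport (HasCompactSupport.of_compactSpace _)
  · rw [compl_compl, AddCircle.volume_closedBall]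
    apply ENNReal.ofReal_le_ofReal
    refine (min_le_right _ _).trans (le_of_eq ?_)
    ring
  · intro x hx
    have h1 : ε / 2 < ‖x‖ := by
      simpa [Metric.mem_closedBall, dist_zero_right] using hx
    have h2 : b x = 0 := by
      simp only [hb]
      apply max_eq_left
      have : 1 ≤ ‖x‖ / (ε / 2) := by rw [le_div_iff₀ (by positivity)]; linarith
      linarith
    change 1 - ((b x / I : ℝ) : ℂ) = 1
    rw [h2]; simp

theorem exists_support_bound (a : ℤ →₀ ℂ) : ∃ L : ℕ, ∀ l ∈ a.support, |l| ≤ L := by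
  refine ⟨a.support.sup Int.natAbs, fun l hl => ?_⟩
  have := Finset.le_sup (f := Int.natAbs) hl
  rw [← Int.natCast_natAbs]
  exact_mod_cast this

theorem exists_prod (a b : ℤ →₀ ℂ) (N : ℕ) : ∃ β : ℤ →₀ ℂ,
    (∀ j ∈ β.support, ∃ l ∈ a.support, ∃ k ∈ b.support, j = l + k * N) ∧
    ∀ x : AddCircle (1:ℝ), TP β x = TP a x * TP b (N • x) := by
  refine ⟨∑ l ∈ a.support, ∑ k ∈ b.support, Finsupp.single (l + k * N) (a l * b k), ?_, ?_⟩
  · intro j hj
    have h1 := Finsupp.support_finsetSum hj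
    rw [Finset.mem_biUnion] at h1
    obtain ⟨l, hl, h2⟩ := h1
    have h3 := Finsupp.support_finsetSum h2
    rw [Finset.mem_biUnion] at h3
    obtain ⟨k, hk, h4⟩ := h3
    have h5 := Finsupp.support_single_subset h4
    rw [Finset.mem_singleton] at h5
    exact ⟨l, hl, k, hk, h5⟩
  · intro x
    have e : ∀ l ∈ a.support, (TP (∑ k ∈ b.support, Finsupp.single (l + k * N) (a l * b k))) x =
        (a l * fourier l x) * TP b (N • x) := by
      intro l _
      rw [TP_sum, ContinuousMap.sum_apply, TP_apply b, Finset.mul_sum]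
      apply Finset.sum_congr rfl
      intro k _
      rw [TP_single, fourier_add]
      have : (fourier (k * N) x : ℂ) = fourier k (N • x) := by
        rw [fourier_apply, fourier_apply, mul_zsmul, natCast_zsmul]
      rw [this]
      ring
    rw [TP_sum, ContinuousMap.sum_apply, Finset.sum_congr rfl e, ← Finset.sum_mul, ← TP_apply]

theorem measurePreserving_nsmul (N : ℕ) (hN : 1 ≤ N) :
    MeasurePreserving (fun x : AddCircle (1:ℝ) => N • x) volume volume := by
  rcases eq_or_lt_of_le hN with h | h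
  · subst h
    have e : (fun x : AddCircle (1:ℝ) => 1 • x) = id := by funext x; simp
    rw [e]
    exact MeasurePreserving.id _
  · exact (AddCircle.ergodic_nsmul h).toMeasurePreserving

/-- Continuous truncation. -/
theorem exists_clip (r : C(AddCircle (1:ℝ), ℂ)) (δ : ℝ) (hδ : 0 < δ) :
    ∃ c : C(AddCircle (1:ℝ), ℂ), (∀ x, ‖c x‖ ≤ δ) ∧ ∀ x, ‖r x‖ ≤ δ → c x = r x := by
  have hcont : Continuous fun x => r x * ((δ / max δ ‖r x‖ : ℝ) : ℂ) := by
    apply r.continuous.mul
    apply Complex.continuous_ofReal.comp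
    apply Continuous.div continuous_const (continuous_const.max r.continuous.norm)
    intro x
    exact (lt_of_lt_of_le hδ (le_max_left _ _)).ne'
  refine ⟨⟨_, hcont⟩, fun x => ?_, fun x hx => ?_⟩
  · change ‖r x * ((δ / max δ ‖r x‖ : ℝ) : ℂ)‖ ≤ δ
    have h1 : 0 < max δ ‖r x‖ := lt_of_lt_of_le hδ (le_max_left _ _)
    rw [norm_mul, Complex.norm_real, Real.norm_of_nonneg (by positivity), ← mul_div_assoc, div_le_iff₀ h1]
    rw [mul_comm]
    exact mul_le_mul_of_nonneg_left (le_max_right _ _) hδ.le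
  · change r x * ((δ / max δ ‖r x‖ : ℝ) : ℂ) = r x
    rw [max_eq_left hx, div_self hδ.ne']
    simp

/-- **The correction step.** -/
theorem correction : ∃ B : ℝ → ℝ, (∀ ε, 0 < B ε) ∧ ∀ ε δ δ' : ℝ, 0 < ε → 0 < δ → 0 < δ' → ∀ α : ℤ →₀ ℂ,
    ∀ E : Set (AddCircle (1:ℝ)), MeasurableSet E → (∀ x ∈ E, ‖TP α x‖ ≤ δ) → ∃ M L : ℕ, ∀ N : ℕ, 1 ≤ N →
    ∃ β : ℤ →₀ ℂ, ∃ E' ⊆ E, MeasurableSet E' ∧ volume (E \ E') ≤ ENNReal.ofReal ε ∧
      (∀ j ∈ β.support, ∃ k : ℤ, k ≠ 0 ∧ |k| ≤ M ∧ |j - k * N| ≤ L) ∧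
      (∀ x ∈ E', ‖TP (α - β) x‖ ≤ δ') ∧ (∀ x, ‖TP β x‖ ≤ 2 * δ * B ε) := by
  classical
  have hk : ∀ ε : ℝ, ∃ κ : C(AddCircle (1:ℝ), ℂ), 0 < ε → (∫ x, κ x) = 0 ∧
    ∃ A : Set (AddCircle (1:ℝ)), MeasurableSet A ∧ volume Aᶜ ≤ ENNReal.ofReal ε ∧ ∀ x ∈ A, κ x = 1 := by
    intro ε
    by_cases hε : 0 < ε
    · obtain ⟨κ, h1, h2⟩ := exists_kappa ε hε
      exact ⟨κ, fun _ => ⟨h1, h2⟩⟩
    · exact ⟨0, fun h => absurd h hε⟩
  choose κ hκ using hk
  refine ⟨fun ε => ‖κ ε‖ + 1, fun ε => by positivity, ?_⟩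
  intro ε δ δ' hε hδ hδ' α E hE hα
  obtain ⟨hκ0, A, hA, hAv, hA1⟩ := hκ ε hε
  obtain ⟨c, hc1, hc2⟩ := exists_clip (TP α) δ hδ
  obtain ⟨a, ha⟩ := TP_approx c (min δ (δ' / 2)) (by positivity)
  obtain ⟨b, hb0, hb⟩ := TP_approx_zero (κ ε) hκ0 (min 1 (δ' / (4 * δ))) (by positivity)
  obtain ⟨L, hL⟩ := exists_support_bound a
  obtain ⟨M, hM⟩ := exists_support_bound b
  refine ⟨M, L, fun N hN => ?_⟩
  obtain ⟨β, hβ1, hβ2⟩ := exists_prod a b N
  have hpa : ∀ x, ‖TP a x‖ ≤ 2 * δ := by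
    intro x
    have h1 := (ContinuousMap.norm_coe_le_norm (TP a - c) x).trans (ha.trans (min_le_left _ _))
    rw [ContinuousMap.sub_apply] at h1
    have h2 := hc1 x
    have h3 : TP a x = (TP a x - c x) + c x := by ring
    rw [h3]
    refine (norm_add_le _ _).trans ?_
    linarith
  refine ⟨β, E ∩ (fun x : AddCircle (1:ℝ) => N • x) ⁻¹' A, inter_subset_left,
    hE.inter ((measurePreserving_nsmul N hN).measurable hA), ?_, ?_, ?_, ?_⟩
  · have h1 : E \ (E ∩ (fun x : AddCircle (1:ℝ) => N • x) ⁻¹' A) ⊆ (fun x : AddCircle (1:ℝ) => N • x) ⁻¹' Aᶜ := by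
      intro x hx
      simp only [mem_sdiff, mem_inter_iff, not_and] at hx
      exact hx.2 hx.1
    refine (measure_mono h1).trans ?_
    rw [(measurePreserving_nsmul N hN).measure_preimage hA.compl.nullMeasurableSet]
    exact hAv
  · intro j hj
    obtain ⟨l, hl, k, hk, e⟩ := hβ1 j hj
    refine ⟨k, ?_, hM k hk, ?_⟩
    · rintro rfl
      exact (Finsupp.mem_support_iff.mp hk) hb0
    · rw [e]
      have : l + k * N - k * N = l := by ring
      rw [this]
      exact hL l hl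
  · intro x hx
    have hxE := hx.1
    have hxA : N • x ∈ A := hx.2
    have h1 : c x = TP α x := hc2 x (hα x hxE)
    rw [TP_sub, ContinuousMap.sub_apply, hβ2, ← h1]
    have h2 : c x - TP a x * TP b (N • x) = -(TP a x - c x) + TP a x * (κ ε (N • x) - TP b (N • x)) := by
      rw [hA1 _ hxA]; ring
    rw [h2]
    have h3 := (ContinuousMap.norm_coe_le_norm (TP a - c) x).trans (ha.trans (min_le_right _ _))
    rw [ContinuousMap.sub_apply] at h3
    have h4 := (ContinuousMap.norm_coe_le_norm (TP b - κ ε) (N • x)).trans (hb.trans (min_le_right _ _))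
    rw [ContinuousMap.sub_apply, norm_sub_rev] at h4
    refine (norm_add_le _ _).trans ?_
    rw [norm_neg, norm_mul]
    have h5 : ‖TP a x‖ * ‖κ ε (N • x) - TP b (N • x)‖ ≤ 2 * δ * (δ' / (4 * δ)) :=
      mul_le_mul (hpa x) h4 (norm_nonneg _) (by positivity)
    have h6 : 2 * δ * (δ' / (4 * δ)) = δ' / 2 := by field_simp; ring
    linarith
  · intro x
    rw [hβ2, norm_mul]
    apply mul_le_mul (hpa x) _ (norm_nonneg _) (by positivity)
    have h4 := (ContinuousMap.norm_coe_le_norm (TP b - κ ε) (N • x)).trans (hb.trans (min_le_left _ _))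
    rw [ContinuousMap.sub_apply] at h4
    have h5 := ContinuousMap.norm_coe_le_norm (κ ε) (N • x)
    have h6 : TP b (N • x) = (TP b (N • x) - κ ε (N • x)) + κ ε (N • x) := by ring
    rw [h6]
    refine (norm_add_le _ _).trans ?_
    linarith

end Pool.Agent.H155R3
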