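import Pool.Agent.H155R3.E1
import Pool.Agent.H155R3.E2

set_option autoImplicit false

/-!
# The recursive construction
-/

namespace Pool.Agent.H155R3

open MeasureTheory Set Polynomial Filter Topology

structure St where
  α : ℤ →₀ ℂ
  S : ℂ[X]
  E : Set (AddCircle (1:ℝ))
  R : ℝ

theorem exists_recursion {σ : Type*} (Inv : ℕ → σ → Prop) (Rel : ℕ → σ → σ → Prop) (s0 : σ) (h0 : Inv 0 s0)
    (hstep : ∀ n s, Inv n s → ∃ s', Inv (n + 1) s' ∧ Rel n s s') :
    ∃ s : ℕ → σ, s 0 = s0 ∧ ∀ n, Inv n (s n) ∧ Rel n (s n) (s (n + 1)) := by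
  classical
  have : Nonempty σ := ⟨s0⟩
  choose! g hg using hstep
  let s : ℕ → σ := fun n => Nat.rec s0 (fun n t => g n t) n
  have hs : ∀ n, s (n + 1) = g n (s n) := fun n => rfl
  have hInv : ∀ n, Inv n (s n) := by
    intro n
    induction n with
    | zero => exact h0
    | succ n ih => rw [hs]; exact (hg n (s n) ih).1
  refine ⟨s, rfl, fun n => ⟨hInv n, ?_⟩⟩
  rw [hs]
  exact (hg n (s n) (hInv n)).2

def Inv (δ : ℕ → ℝ) (n : ℕ) (s : St) : Prop :=
  MeasurableSet s.E ∧ ∀ x ∈ s.E, ‖TP s.α x‖ ≤ δ n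

def Rel (B : ℝ → ℝ) (ε δ η : ℕ → ℝ) (n : ℕ) (s s' : St) : Prop :=
  s'.E ⊆ s.E ∧ volume (s.E \ s'.E) ≤ ENNReal.ofReal (ε n) ∧ s.R + 1 ≤ s'.R ∧
  (∀ x, ‖TP (s.α - s'.α) x‖ ≤ 2 * δ n * B (ε n)) ∧
  (∀ z : ℂ, ‖z‖ ≤ s.R → ‖(s'.S - s.S).eval z‖ ≤ η n) ∧
  (∀ z : ℂ, ‖(s'.S - s.S).eval z‖ ≤ η n * Real.exp (1 / (n + 1) * ‖z‖)) ∧
  (∀ j ∈ (s.α - s'.α).support, ∀ x : ℝ, |x + j| ≤ 1 / 2 → ‖s'.S.eval (x : ℂ) - 1‖ ≤ η n ∧ |x| ≤ s'.R)

theorem step : ∃ B : ℝ → ℝ, (∀ ε, 0 < B ε) ∧ ∀ ε δ η : ℕ → ℝ, (∀ n, 0 < ε n) → (∀ n, 0 < δ n) → (∀ n, 0 < η n) →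
    ∀ n s, Inv δ n s → ∃ s', Inv δ (n + 1) s' ∧ Rel B ε δ η n s s' := by
  obtain ⟨B, hB, hcor⟩ := correction
  refine ⟨B, hB, ?_⟩
  intro ε δ η hε hδ hη n s hs
  obtain ⟨M, L, hML⟩ := hcor (ε n) (δ n) (δ (n + 1)) (hε n) (hδ n) (hδ (n + 1)) s.α s.E hs.1 hs.2
  obtain ⟨N₀, hN₀⟩ := interp s.S M (L + 1) (η n) (1 / (n + 1)) s.R (hη n) (by positivity)
  obtain ⟨P, hP1, hP2, hP3⟩ := hN₀ (max N₀ 1) (le_max_left _ _)
  obtain ⟨β, E', hE', hE'm, hE'v, hβ, hβ1, hβ2⟩ := hML (max N₀ 1) (le_max_right _ _)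
  set N := max N₀ 1 with hN
  refine ⟨⟨s.α - β, s.S + P, E', max (s.R + 1) (M * N + L + 1)⟩, ⟨hE'm, hβ1⟩, hE', hE'v, le_max_left _ _, ?_, ?_, ?_, ?_⟩
  · simpa only [sub_sub_cancel] using hβ2
  · simpa only [add_sub_cancel_left] using hP1
  · simpa only [add_sub_cancel_left] using hP2
  · simp only [sub_sub_cancel]
    intro j hj x hx
    obtain ⟨k, hk0, hkM, hkj⟩ := hβ j hj
    have h1 : |x + k * N| ≤ L + 1 := by
      have e : x + k * N = (x + j) - (((j - k * N : ℤ)) : ℝ) := by push_cast; ring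
      have h2 : |(((j - k * N : ℤ)) : ℝ)| ≤ L := by
        rw [← Int.cast_abs]
        exact_mod_cast hkj
      rw [e]
      refine (abs_sub _ _).trans ?_
      linarith
    have hkM' : |(k : ℝ)| ≤ M := by
      rw [← Int.cast_abs]
      exact_mod_cast hkM
    constructor
    · rw [Polynomial.eval_add]
      apply hP3 (-k) (by simpa using hk0) (by simpa using hkM)
      have e : (x : ℂ) - ((-k : ℤ) : ℂ) * N = ((x + k * N : ℝ) : ℂ) := by push_cast; ring
      rw [e, Complex.norm_real, Real.norm_eq_abs]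
      push_cast
      exact h1
    · refine le_trans ?_ (le_max_right _ _)
      have e : x = (x + k * N) - k * N := by ring
      have h3 : |(k : ℝ) * N| ≤ M * N := by
        rw [abs_mul, Nat.abs_cast]
        exact mul_le_mul_of_nonneg_right hkM' (Nat.cast_nonneg _)
      rw [e]
      refine (abs_sub _ _).trans ?_
      linarith

theorem construction (ρ : ℝ) (hρ : 0 < ρ) : ∃ K : ℝ, 0 < K ∧ ∀ η : ℝ, 0 < η → ∃ F : ℂ → ℂ, ∃ β : ℕ → (ℤ →₀ ℂ),
    ∃ E : Set (AddCircle (1:ℝ)), Differentiable ℂ F ∧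
      (∀ ε : ℝ, 0 < ε → ∃ C : ℝ, ∀ z : ℂ, ‖F z‖ ≤ C * Real.exp (ε * ‖z‖)) ∧
      (∀ z : ℂ, ‖z‖ ≤ 1 → ‖F z‖ ≤ η) ∧
      (∀ n, ∀ j ∈ (β n).support, ∀ x : ℝ, |x + j| ≤ 1 / 2 → ‖F x - 1‖ ≤ η) ∧
      (∀ n x, ‖TP (β n) x‖ ≤ K * (1 / 2) ^ n) ∧
      MeasurableSet E ∧ volume Eᶜ ≤ ENNReal.ofReal ρ ∧
      ∀ x ∈ E, Tendsto (fun n => ∑ i ∈ Finset.range n, TP (β i) x) atTop (𝓝 1) := by
  obtain ⟨B, hB, hstep⟩ := step
  set ε : ℕ → ℝ := fun n => ρ / 2 * (1 / 2) ^ n with hεd
  have hε : ∀ n, 0 < ε n := fun n => by positivity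
  set δ : ℕ → ℝ := fun n => (1 / 2) ^ n * (1 + B (ε 0)) / (1 + B (ε n)) with hδd
  have hB1 : ∀ n, 0 < 1 + B (ε n) := fun n => by linarith [hB (ε n)]
  have hδ : ∀ n, 0 < δ n := fun n => div_pos (mul_pos (by positivity) (hB1 0)) (hB1 n)
  refine ⟨2 * (1 + B (ε 0)), by linarith [hB1 0], ?_⟩
  intro η hη
  set η' : ℕ → ℝ := fun n => η / 2 * (1 / 2) ^ n with hη'd
  have hη' : ∀ n, 0 < η' n := fun n => by positivity
  obtain ⟨s, hs0, hs⟩ := exists_recursion (Inv δ) (Rel B ε δ η')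
    (⟨Finsupp.single 0 1, 0, univ, 1⟩ : St) ⟨MeasurableSet.univ, fun x _ => by
      change ‖TP (Finsupp.single 0 1) x‖ ≤ δ 0
      rw [TP_single, fourier_zero]
      simp only [hδd, pow_zero, one_mul]
      rw [div_self (hB1 0).ne']
      simp⟩ (hstep ε δ η' hε hδ hη')
  have hδle : ∀ n, δ n ≤ (1 + B (ε 0)) * (1 / 2) ^ n := by
    intro n
    simp only [hδd]
    rw [mul_comm]
    apply div_le_self (mul_nonneg (hB1 0).le (by positivity))
    linarith [hB (ε n)]
  -- the entire function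
  set P : ℕ → ℂ[X] := fun n => (s (n + 1)).S - (s n).S with hP
  have hPexp : ∀ n z, ‖(P n).eval z‖ ≤ η' n * Real.exp (1 / (n + 1) * ‖z‖) := fun n => (hs n).2.2.2.2.2.2.1
  have hPR : ∀ n z, ‖z‖ ≤ (s n).R → ‖(P n).eval z‖ ≤ η' n := fun n => (hs n).2.2.2.2.2.1
  have hSsum : ∀ n, (s n).S = ∑ i ∈ Finset.range n, P i := by
    intro n
    simp only [hP]
    rw [Finset.sum_range_sub (fun i => (s i).S), hs0]
    simp
  have hmono : Monotone fun n => (s n).R := by
    apply monotone_nat_of_le_succ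
    intro n
    linarith [(hs n).2.2.2.1]
  have hR1 : ∀ n, 1 ≤ (s n).R := by
    intro n
    have := hmono (Nat.zero_le n)
    simpa [hs0] using this
  have hη'sum : Summable η' := (summable_geometric_two).mul_left _
  have hη'has : HasSum η' η := by
    have := hasSum_geometric_two.mul_left (η / 2)
    simpa [hη'd] using this
  let F : ℂ → ℂ := fun z => ∑' n, (P n).eval z
  have hPsummable : ∀ z, Summable fun n => (P n).eval z := by
    intro z
    refine Summable.of_norm_bounded (hη'sum.mul_right (Real.exp ‖z‖)) (fun n => (hPexp n z).trans ?_)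
    apply mul_le_mul_of_nonneg_left _ (hη' n).le
    apply Real.exp_le_exp.mpr
    have : 1 / ((n : ℝ) + 1) ≤ 1 := by
      rw [div_le_one (by positivity)]
      have : (0 : ℝ) ≤ n := Nat.cast_nonneg n
      linarith
    calc 1 / ((n : ℝ) + 1) * ‖z‖ ≤ 1 * ‖z‖ := mul_le_mul_of_nonneg_right this (norm_nonneg _)
      _ = ‖z‖ := one_mul _
  refine ⟨F, fun n => (s n).α - (s (n + 1)).α, ⋂ n, (s n).E, ?_, ?_, ?_, ?_, ?_, ?_, ?_, ?_⟩
  · intro z
    have h1 : DifferentiableOn ℂ F (Metric.ball 0 (‖z‖ + 1)) := by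
      apply Complex.differentiableOn_tsum_of_summable_norm (u := fun n => η' n * Real.exp (‖z‖ + 1))
        (hη'sum.mul_right _) (fun n => (P n).differentiable.differentiableOn) Metric.isOpen_ball
      intro n w hw
      refine (hPexp n w).trans ?_
      apply mul_le_mul_of_nonneg_left _ (hη' n).le
      apply Real.exp_le_exp.mpr
      have h2 : ‖w‖ ≤ ‖z‖ + 1 := by
        have := Metric.mem_ball.mp hw
        rw [dist_zero_right] at this
        exact this.le
      have : 1 / ((n : ℝ) + 1) ≤ 1 := by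
        rw [div_le_one (by positivity)]
        have : (0 : ℝ) ≤ n := Nat.cast_nonneg n
        linarith
      calc 1 / ((n : ℝ) + 1) * ‖w‖ ≤ 1 * ‖w‖ := mul_le_mul_of_nonneg_right this (norm_nonneg _)
        _ ≤ ‖z‖ + 1 := by rw [one_mul]; exact h2
    exact h1.differentiableAt (Metric.isOpen_ball.mem_nhds (by simp [Metric.mem_ball]))
  · intro e he
    obtain ⟨n₀, hn₀⟩ := exists_nat_gt (1 / e)
    have hc : ∀ n, ∃ C : ℝ, 0 < C ∧ ∀ z : ℂ, ‖(P n).eval z‖ ≤ C * Real.exp (e * ‖z‖) := fun n => eval_exp (P n) e he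
    choose C hC0 hC using hc
    let c : ℕ → ℝ := fun n => η' n + if n < n₀ then C n else 0
    have hcsum : Summable c := by
      apply hη'sum.add
      apply summable_of_hasFiniteSupport
      apply (Finset.finite_toSet (Finset.range n₀)).subset
      intro n hn
      simp only [Function.mem_support, ne_eq, ite_eq_right_iff, not_forall] at hn
      simpa using hn.1
    refine ⟨∑' n, c n, fun z => ?_⟩
    have h1 : ∀ n, ‖(P n).eval z‖ ≤ c n * Real.exp (e * ‖z‖) := by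
      intro n
      by_cases hn : n < n₀
      · refine (hC n z).trans ?_
        apply mul_le_mul_of_nonneg_right _ (Real.exp_pos _).le
        simp only [c, hn, if_true]
        linarith [hη' n]
      · refine (hPexp n z).trans ?_
        simp only [c, hn, if_false, add_zero]
        apply mul_le_mul_of_nonneg_left _ (hη' n).le
        apply Real.exp_le_exp.mpr
        apply mul_le_mul_of_nonneg_right _ (norm_nonneg _)
        have h2 : (n₀ : ℝ) ≤ n := by exact_mod_cast not_lt.mp hn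
        rw [div_lt_iff₀ he] at hn₀
        rw [div_le_iff₀ (by positivity)]
        nlinarith
    exact tsum_of_norm_bounded (hcsum.hasSum.mul_right _) h1
  · intro z hz
    exact tsum_of_norm_bounded hη'has (fun n => hPR n z (hz.trans (hR1 n)))
  · intro n j hj x hx
    obtain ⟨h1, h2⟩ := (hs n).2.2.2.2.2.2.2 j hj x hx
    have h3 : F x = (s (n + 1)).S.eval (x : ℂ) + ∑' m, (P (m + (n + 1))).eval (x : ℂ) := by
      have := (hPsummable x).sum_add_tsum_nat_add (n + 1)
      change ∑' n, (P n).eval (x : ℂ) = _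
      rw [← this, hSsum, Polynomial.eval_finsetSum]
    have h4 : ‖∑' m, (P (m + (n + 1))).eval (x : ℂ)‖ ≤ η * (1 / 2) ^ (n + 1) := by
      refine tsum_of_norm_bounded (g := fun m => η' (m + (n + 1))) ?_ (fun m => ?_)
      · have h5 := hasSum_geometric_two.mul_left (η / 2 * (1 / 2) ^ (n + 1))
        have e1 : (fun m => η' (m + (n + 1))) = fun i : ℕ => η / 2 * (1 / 2) ^ (n + 1) * (1 / 2) ^ i := by
          funext m
          simp only [hη'd]
          rw [pow_add]; ring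
        rw [e1]
        have e2 : η * (1 / 2) ^ (n + 1) = η / 2 * (1 / 2) ^ (n + 1) * 2 := by ring
        rw [e2]
        exact h5
      · apply hPR
        rw [Complex.norm_real, Real.norm_eq_abs]
        exact h2.trans (hmono (by omega))
    rw [h3]
    have e : (s (n + 1)).S.eval (x : ℂ) + ∑' m, (P (m + (n + 1))).eval (x : ℂ) - 1 =
        ((s (n + 1)).S.eval (x : ℂ) - 1) + ∑' m, (P (m + (n + 1))).eval (x : ℂ) := by ring
    rw [e]
    refine (norm_add_le _ _).trans ?_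
    have h6 : η' n + η * (1 / 2) ^ (n + 1) = η * (1 / 2) ^ n := by
      simp only [hη'd]; rw [pow_succ]; ring
    have h7 : η * (1 / 2 : ℝ) ^ n ≤ η * 1 :=
      mul_le_mul_of_nonneg_left (pow_le_one₀ (by norm_num) (by norm_num)) hη.le
    linarith
  · intro n x
    refine ((hs n).2.2.2.2.1 x).trans ?_
    have h1 : δ n * B (ε n) ≤ (1 / 2) ^ n * (1 + B (ε 0)) := by
      simp only [hδd]
      rw [div_mul_eq_mul_div, div_le_iff₀ (hB1 n)]
      apply mul_le_mul_of_nonneg_left _ (mul_nonneg (by positivity) (hB1 0).le)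
      linarith
    calc 2 * δ n * B (ε n) = 2 * (δ n * B (ε n)) := by ring
      _ ≤ 2 * ((1 / 2) ^ n * (1 + B (ε 0))) := by linarith
      _ = 2 * (1 + B (ε 0)) * (1 / 2) ^ n := by ring
  · exact MeasurableSet.iInter fun n => (hs n).1.1
  · have h1 : (⋂ n, (s n).E)ᶜ ⊆ ⋃ n, ((s n).E \ (s (n + 1)).E) := by
      intro x hx
      simp only [mem_compl_iff, mem_iInter, not_forall] at hx
      classical
      have hf := Nat.find_spec hx
      have hf2 : Nat.find hx ≠ 0 := by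
        intro h0
        rw [h0, hs0] at hf
        exact hf (mem_univ x)
      obtain ⟨m, hm⟩ := Nat.exists_eq_succ_of_ne_zero hf2
      rw [mem_iUnion]
      refine ⟨m, ?_, ?_⟩
      · by_contra h
        have := Nat.find_min' hx h
        omega
      · rw [hm] at hf; exact hf
    refine (measure_mono h1).trans ((measure_iUnion_le _).trans ?_)
    have h2 : ∑' n, volume ((s n).E \ (s (n + 1)).E) ≤ ∑' n, ENNReal.ofReal (ε n) :=
      ENNReal.tsum_le_tsum fun n => (hs n).2.2.1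
    refine h2.trans ?_
    have h3 : HasSum ε ρ := by
      have := hasSum_geometric_two.mul_left (ρ / 2)
      simpa [hεd] using this
    rw [← ENNReal.ofReal_tsum_of_nonneg (fun n => (hε n).le) h3.summable, h3.tsum_eq]
  · intro x hx
    rw [mem_iInter] at hx
    have h1 : ∀ n, ∑ i ∈ Finset.range n, TP ((s i).α - (s (i + 1)).α) x = 1 - TP (s n).α x := by
      intro n
      simp_rw [TP_sub, ContinuousMap.sub_apply]
      rw [Finset.sum_range_sub' (fun i => TP (s i).α x), hs0, TP_single, fourier_zero]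
      simp
    simp_rw [h1]
    have h2 : Tendsto (fun n => TP (s n).α x) atTop (𝓝 0) := by
      apply squeeze_zero_norm (fun n => ((hs n).1.2 x (hx n)).trans (hδle n))
      have := (tendsto_pow_atTop_nhds_zero_of_lt_one (r := (1 / 2 : ℝ)) (by norm_num) (by norm_num)).const_mul (1 + B (ε 0))
      simpa using this
    have := (tendsto_const_nhds (x := (1 : ℂ)) (f := atTop (α := ℕ))).sub h2
    simpa using this

end Pool.Agent.H155R3
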