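import Pool.Agent.H155R3.E3

set_option autoImplicit false

/-!
# Fourier side
-/

namespace Pool.Agent.H155R3

open MeasureTheory Set Filter Topology FourierTransform SchwartzMap

/-- The duality relation between an `L²` function and its Fourier transform. -/
theorem duality (f : Lp ℂ 2 (volume : Measure ℝ)) (h : SchwartzMap ℝ ℂ) :
    ∫ ξ : ℝ, (𝓕 f : Lp ℂ 2 (volume : Measure ℝ)) ξ * h ξ =
      ∫ x : ℝ, f x * ∫ ξ : ℝ, Complex.exp (((-2 * Real.pi * x * ξ : ℝ) : ℂ) * Complex.I) * h ξ := by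
  have h1 := congrArg (fun u : TemperedDistribution ℝ ℂ => u h) (Lp.fourier_toTemperedDistribution_eq f)
  simp only [TemperedDistribution.fourier_apply, Lp.toTemperedDistribution_apply] at h1
  have e1 : ∫ ξ : ℝ, (𝓕 f : Lp ℂ 2 (volume : Measure ℝ)) ξ * h ξ =
      ∫ ξ : ℝ, h ξ • (𝓕 f : Lp ℂ 2 (volume : Measure ℝ)) ξ := by
    apply integral_congr_ae
    filter_upwards with ξ
    rw [smul_eq_mul, mul_comm]
  rw [e1, ← h1]
  apply integral_congr_ae
  filter_upwards with x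
  rw [smul_eq_mul, mul_comm, SchwartzMap.fourier_coe, Real.fourier_real_eq_integral_exp_smul]
  congr 1
  apply integral_congr_ae
  filter_upwards with ξ
  rw [smul_eq_mul]
  congr 4
  ring

/-- Combination of integer translates. -/
noncomputable def VV (v : SchwartzMap ℝ ℂ) (β : ℤ →₀ ℂ) : SchwartzMap ℝ ℂ :=
  ∑ j ∈ β.support, β j • v.compSubConstCLM ℂ (-(j : ℝ))

theorem VV_apply (v : SchwartzMap ℝ ℂ) (β : ℤ →₀ ℂ) (x : ℝ) :
    VV v β x = ∑ j ∈ β.support, β j * v (x + j) := by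
  unfold VV
  rw [SchwartzMap.sum_apply]
  apply Finset.sum_congr rfl
  intro j _
  rw [SchwartzMap.smul_apply, compSubConstCLM_apply, smul_eq_mul, sub_neg_eq_add]

theorem fourier_translate (v : SchwartzMap ℝ ℂ) (j : ℤ) (ξ : ℝ) :
    𝓕 (v.compSubConstCLM ℂ (-(j : ℝ))) ξ = fourier j (ξ : AddCircle (1:ℝ)) * 𝓕 v ξ := by
  rw [SchwartzMap.fourier_coe, SchwartzMap.fourier_coe, Real.fourier_real_eq_integral_exp_smul,
    Real.fourier_real_eq_integral_exp_smul, fourier_coe_apply]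
  rw [← integral_const_mul]
  rw [← integral_add_right_eq_self (fun y : ℝ => Complex.exp (2 * Real.pi * Complex.I * j * ξ / (1:ℝ)) *
    Complex.exp (↑(-2 * Real.pi * y * ξ) * Complex.I) • v y) (j : ℝ)]
  apply integral_congr_ae
  filter_upwards with x
  rw [compSubConstCLM_apply, sub_neg_eq_add, smul_eq_mul, smul_eq_mul, ← mul_assoc, ← Complex.exp_add]
  congr 2
  push_cast
  ring

theorem fourier_VV (v : SchwartzMap ℝ ℂ) (β : ℤ →₀ ℂ) (ξ : ℝ) :
    𝓕 (VV v β) ξ = TP β (ξ : AddCircle (1:ℝ)) * 𝓕 v ξ := by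
  have h1 : 𝓕 (VV v β) = ∑ j ∈ β.support, β j • 𝓕 (v.compSubConstCLM ℂ (-(j : ℝ))) := by
    unfold VV
    have := map_sum (SchwartzMap.fourierTransformCLM ℂ (V := ℝ) (E := ℂ)) (fun j : ℤ => β j • v.compSubConstCLM ℂ (-(j : ℝ))) β.support
    simp only [map_smul, SchwartzMap.fourierTransformCLM_apply] at this
    exact this
  rw [h1, SchwartzMap.sum_apply, TP_apply, Finset.sum_mul]
  apply Finset.sum_congr rfl
  intro j _
  rw [SchwartzMap.smul_apply, fourier_translate, smul_eq_mul]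
  ring

theorem norm_VV_le (v : SchwartzMap ℝ ℂ) (β : ℤ →₀ ℂ) (c : ℝ) (hc : ∀ x, ‖TP β x‖ ≤ c) :
    ‖(VV v β).toLp 2 (volume : Measure ℝ)‖ ≤ c * ‖v.toLp 2 (volume : Measure ℝ)‖ := by
  rw [← SchwartzMap.norm_fourier_toL2_eq (VV v β), ← SchwartzMap.norm_fourier_toL2_eq v]
  apply Lp.norm_le_mul_norm_of_ae_le_mul
  filter_upwards [(𝓕 (VV v β)).coeFn_toLp 2 (volume : Measure ℝ), (𝓕 v).coeFn_toLp 2 (volume : Measure ℝ)] with ξ h1 h2
  rw [h1, h2, fourier_VV, norm_mul]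
  exact mul_le_mul_of_nonneg_right (hc _) (norm_nonneg _)

/-- Subsequence convergence a.e. -/
theorem exists_ae_subseq {f : Lp ℂ 2 (volume : Measure ℝ)} {fs : ℕ → Lp ℂ 2 (volume : Measure ℝ)}
    (hf : Tendsto fs atTop (𝓝 f)) : ∃ ns : ℕ → ℕ, StrictMono ns ∧
      ∀ᵐ x ∂(volume : Measure ℝ), Tendsto (fun i => fs (ns i) x) atTop (𝓝 (f x)) :=
  (tendstoInMeasure_of_tendsto_Lp hf).exists_seq_tendsto_ae

/-- Multiplication by a function is a closed operator. -/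
theorem mul_closed (G : ℝ → ℂ) (f h : Lp ℂ 2 (volume : Measure ℝ)) (fs hs : ℕ → Lp ℂ 2 (volume : Measure ℝ))
    (hf : Tendsto fs atTop (𝓝 f)) (hh : Tendsto hs atTop (𝓝 h))
    (he : ∀ n, ∀ᵐ x ∂(volume : Measure ℝ), hs n x = G x * fs n x) :
    ∀ᵐ x ∂(volume : Measure ℝ), h x = G x * f x := by
  obtain ⟨ns, hns, h1⟩ := exists_ae_subseq hf
  obtain ⟨ms, hms, h2⟩ := exists_ae_subseq (hh.comp hns.tendsto_atTop)
  filter_upwards [h1, h2, ae_all_iff.mpr he] with x h3 h4 h5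
  have h6 : Tendsto (fun i => hs (ns (ms i)) x) atTop (𝓝 (G x * f x)) := by
    simp_rw [h5]
    exact ((h3.comp hms.tendsto_atTop)).const_mul _
  exact tendsto_nhds_unique h4 h6

/-- If `‖G φ‖ ≤ η ‖φ‖` then `G φ` is in `L²` with the corresponding bound. -/
theorem mul_memLp (G : ℝ → ℂ) (hG : Continuous G) (φ : SchwartzMap ℝ ℂ) (η : ℝ)
    (h : ∀ x, ‖G x * φ x‖ ≤ η * ‖φ x‖) :
    ∃ g : Lp ℂ 2 (volume : Measure ℝ), (∀ᵐ x ∂(volume : Measure ℝ), g x = G x * φ x) ∧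
      ‖g‖ ≤ η * ‖φ.toLp 2 (volume : Measure ℝ)‖ := by
  have h1 : MemLp (fun x => G x * φ x) 2 (volume : Measure ℝ) := by
    apply (φ.memLp 2 (volume : Measure ℝ)).of_le_mul (c := η)
    · exact (hG.mul φ.continuous).aestronglyMeasurable
    · exact Filter.Eventually.of_forall h
  refine ⟨h1.toLp _, h1.coeFn_toLp, ?_⟩
  apply Lp.norm_le_mul_norm_of_ae_le_mul
  filter_upwards [h1.coeFn_toLp, φ.coeFn_toLp 2 (volume : Measure ℝ)] with x h2 h3
  rw [h2, h3]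
  exact h x

end Pool.Agent.H155R3
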