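import Pool.Agent.H155R3.E4

set_option autoImplicit false

/-!
# Assembly
-/

namespace Pool.Agent.H155R3

open MeasureTheory Set Filter Topology FourierTransform SchwartzMap

theorem exists_bump : ∃ v : SchwartzMap ℝ ℂ, (∀ x : ℝ, v x ≠ 0 → |x| ≤ 1 / 2) ∧ 𝓕 v 0 ≠ 0 := by
  let b : ContDiffBump (0 : ℝ) := ⟨1 / 4, 1 / 2, by norm_num, by norm_num⟩
  have hcs : HasCompactSupport fun x : ℝ => ((b x : ℝ) : ℂ) := b.hasCompactSupport.comp_left Complex.ofReal_zero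
  have hcd : ContDiff ℝ (⊤ : ℕ∞) fun x : ℝ => ((b x : ℝ) : ℂ) := Complex.ofRealCLM.contDiff.comp b.contDiff
  refine ⟨hcs.toSchwartzMap hcd, ?_, ?_⟩
  · intro x hx
    by_contra h
    rw [not_le] at h
    apply hx
    change ((b x : ℝ) : ℂ) = 0
    have : b x = 0 := b.zero_of_le_dist (by rw [dist_zero_right, Real.norm_eq_abs]; exact h.le)
    rw [this]; simp
  · rw [SchwartzMap.fourier_coe, Real.fourier_real_eq_integral_exp_smul]
    have e : ∫ x : ℝ, Complex.exp (↑(-2 * Real.pi * x * 0) * Complex.I) • (hcs.toSchwartzMap hcd) x =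
        ((∫ x : ℝ, b x : ℝ) : ℂ) := by
      rw [← integral_complex_ofReal]
      apply integral_congr_ae
      filter_upwards with x
      simp
    rw [e]
    have hpos : 0 < ∫ x : ℝ, b x := by
      apply b.continuous.integral_pos_of_hasCompactSupport_nonneg_nonzero b.hasCompactSupport (fun x => b.nonneg) (x := 0)
      have : b 0 = 1 := b.one_of_mem_closedBall (by simp [Metric.mem_closedBall, b.rIn_pos.le])
      rw [this]; norm_num
    exact_mod_cast hpos.ne'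

/-- The counterexample. -/
theorem counterexample : ∃ F : ℂ → ℂ, Differentiable ℂ F ∧
    (∀ ε : ℝ, 0 < ε → ∃ C : ℝ, ∀ z : ℂ, ‖F z‖ ≤ C * Real.exp (ε * ‖z‖)) ∧
    ∃ f h : Lp ℂ 2 (volume : Measure ℝ), (∀ᵐ x ∂(volume : Measure ℝ), h x = F (x : ℂ) * f x) ∧
    ∃ E : Set ℝ, MeasurableSet E ∧
      (∀ᵐ ξ ∂(volume : Measure ℝ), ξ ∈ E → (𝓕 f : Lp ℂ 2 (volume : Measure ℝ)) ξ = 0) ∧
      ¬ (∀ᵐ ξ ∂(volume : Measure ℝ), ξ ∈ E → (𝓕 h : Lp ℂ 2 (volume : Measure ℝ)) ξ = 0) := by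
  obtain ⟨v, hv, hv0⟩ := exists_bump
  -- lower bound for the transform of `v` near the origin
  set c₀ : ℝ := ‖𝓕 v 0‖ / 2 with hc₀
  have hc₀pos : 0 < c₀ := by
    have : 0 < ‖𝓕 v 0‖ := norm_pos_iff.mpr hv0
    positivity
  obtain ⟨ρ, hρ0, hρ1, hρ⟩ : ∃ ρ : ℝ, 0 < ρ ∧ ρ ≤ 1 ∧ ∀ ξ : ℝ, 0 < ξ → ξ ≤ ρ → c₀ ≤ ‖𝓕 v ξ‖ := by
    have hcont : Continuous fun ξ : ℝ => ‖𝓕 v ξ‖ := (𝓕 v).continuous.norm
    have hnhds : ∀ᶠ ξ in 𝓝 (0 : ℝ), c₀ < ‖𝓕 v ξ‖ := by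
      apply hcont.continuousAt.eventually_const_lt
      rw [hc₀]
      have : 0 < ‖𝓕 v 0‖ := norm_pos_iff.mpr hv0
      linarith
    rw [Metric.eventually_nhds_iff] at hnhds
    obtain ⟨r, hr, h⟩ := hnhds
    refine ⟨min 1 (r / 2), by positivity, min_le_left _ _, fun ξ h1 h2 => ?_⟩
    apply (h _).le
    rw [dist_zero_right, Real.norm_of_nonneg h1.le]
    have := h2.trans (min_le_right _ _)
    linarith
  obtain ⟨K, hK, hcon⟩ := construction (ρ / 2) (by positivity)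
  set A : ℝ := ‖v.toLp 2 (volume : Measure ℝ)‖ with hA
  have hA0 : 0 ≤ A := norm_nonneg _
  set η : ℝ := c₀ * Real.sqrt (ρ / 2) / (2 * (A * (1 + 2 * K) + 1)) with hη
  have hηpos : 0 < η := by
    have : 0 < Real.sqrt (ρ / 2) := Real.sqrt_pos.mpr (by positivity)
    positivity
  obtain ⟨F, β, E, hFd, hFt, hF1, hF2, hβ, hEm, hEv, hE⟩ := hcon η hηpos
  refine ⟨F, hFd, hFt, ?_⟩
  have hFc : Continuous fun x : ℝ => F (x : ℂ) := hFd.continuous.comp Complex.continuous_ofReal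
  -- pieces
  have hv1 : ∀ x : ℝ, ‖F (x : ℂ) * v x‖ ≤ η * ‖v x‖ := by
    intro x
    by_cases hx : v x = 0
    · rw [hx]; simp
    · rw [norm_mul]
      apply mul_le_mul_of_nonneg_right _ (norm_nonneg _)
      apply hF1
      rw [Complex.norm_real, Real.norm_eq_abs]
      linarith [hv x hx]
  have hV1 : ∀ n, ∀ x : ℝ, ‖(F (x : ℂ) - 1) * VV v (β n) x‖ ≤ η * ‖VV v (β n) x‖ := by
    intro n x
    by_cases hx : VV v (β n) x = 0
    · rw [hx]; simp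
    · rw [norm_mul]
      apply mul_le_mul_of_nonneg_right _ (norm_nonneg _)
      rw [VV_apply] at hx
      obtain ⟨j, hj, hj2⟩ := Finset.exists_ne_zero_of_sum_ne_zero hx
      exact hF2 n j hj x (hv _ (right_ne_zero_of_mul hj2))
  obtain ⟨e0, he0, he0n⟩ := mul_memLp (fun x : ℝ => F (x : ℂ)) hFc v η hv1
  have hex : ∀ n, ∃ g : Lp ℂ 2 (volume : Measure ℝ),
      (∀ᵐ x ∂(volume : Measure ℝ), g x = (F (x : ℂ) - 1) * VV v (β n) x) ∧
      ‖g‖ ≤ η * ‖(VV v (β n)).toLp 2 (volume : Measure ℝ)‖ := fun n =>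
    mul_memLp (fun x : ℝ => F (x : ℂ) - 1) (hFc.sub continuous_const) (VV v (β n)) η (hV1 n)
  choose e he hen using hex
  set g : ℕ → Lp ℂ 2 (volume : Measure ℝ) := fun n => (VV v (β n)).toLp 2 (volume : Measure ℝ) with hg
  have hgn : ∀ n, ‖g n‖ ≤ K * (1 / 2) ^ n * A := fun n => norm_VV_le v (β n) _ (hβ n)
  have hgeo : HasSum (fun n : ℕ => K * (1 / 2) ^ n * A) (K * 2 * A) :=
    (hasSum_geometric_two.mul_left K).mul_right A
  have hgs : Summable g := Summable.of_norm_bounded hgeo.summable hgn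
  have hen' : ∀ n, ‖e n‖ ≤ η * (K * (1 / 2) ^ n * A) := fun n =>
    (hen n).trans (mul_le_mul_of_nonneg_left (hgn n) hηpos.le)
  have hes : Summable e := Summable.of_norm_bounded (hgeo.summable.mul_left η) hen'
  set v2 : Lp ℂ 2 (volume : Measure ℝ) := v.toLp 2 (volume : Measure ℝ) with hv2
  set f : Lp ℂ 2 (volume : Measure ℝ) := v2 - ∑' n, g n with hf
  set err : Lp ℂ 2 (volume : Measure ℝ) := e0 - ∑' n, e n with herr
  have herrn : ‖err‖ ≤ η * (A * (1 + 2 * K)) := by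
    rw [herr]
    refine (norm_sub_le _ _).trans ?_
    have h1 : ‖∑' n, e n‖ ≤ η * (K * 2 * A) := tsum_of_norm_bounded (hgeo.mul_left η) hen'
    have h2 : η * (A * (1 + 2 * K)) = η * A + η * (K * 2 * A) := by ring
    rw [h2]
    exact add_le_add he0n h1
  set h : Lp ℂ 2 (volume : Measure ℝ) := f - v2 + err with hh
  let fs : ℕ → Lp ℂ 2 (volume : Measure ℝ) := fun n => v2 - ∑ i ∈ Finset.range n, g i
  let hs : ℕ → Lp ℂ 2 (volume : Measure ℝ) := fun n => (fs n - v2) + (e0 - ∑ i ∈ Finset.range n, e i)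
  have hfs : Tendsto fs atTop (𝓝 f) := hgs.hasSum.tendsto_sum_nat.const_sub _
  have hhs : Tendsto hs atTop (𝓝 h) := (hfs.sub_const _).add (hes.hasSum.tendsto_sum_nat.const_sub _)
  have hfsae : ∀ n, ∀ᵐ x ∂(volume : Measure ℝ), fs n x = v x - ∑ i ∈ Finset.range n, VV v (β i) x := by
    intro n
    have h1 : ∀ᵐ x ∂(volume : Measure ℝ), ∀ i, g i x = VV v (β i) x :=
      ae_all_iff.mpr fun i => (VV v (β i)).coeFn_toLp 2 (volume : Measure ℝ)
    filter_upwards [Lp.coeFn_sub v2 (∑ i ∈ Finset.range n, g i), v.coeFn_toLp 2 (volume : Measure ℝ),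
      Lp.coeFn_finsetSum (Finset.range n) g, h1] with x h2 h3 h4 h5
    change (v2 - ∑ i ∈ Finset.range n, g i : Lp ℂ 2 (volume : Measure ℝ)) x = _
    rw [h2, Pi.sub_apply, hv2, h3, h4, Finset.sum_apply]
    congr 1
    exact Finset.sum_congr rfl fun i _ => h5 i
  -- the transform of `f` vanishes on `E`
  have hfz : ∀ᵐ ξ ∂(volume : Measure ℝ), ξ ∈ {ξ : ℝ | 0 < ξ ∧ ξ ≤ ρ ∧ (ξ : AddCircle (1:ℝ)) ∈ E} →
      (𝓕 f : Lp ℂ 2 (volume : Measure ℝ)) ξ = 0 := by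
    have hT : Tendsto (fun n => (𝓕 (fs n) : Lp ℂ 2 (volume : Measure ℝ))) atTop (𝓝 (𝓕 f)) :=
      ((Lp.fourierTransformₗᵢ ℝ ℂ).continuous.tendsto f).comp hfs
    obtain ⟨ns, hns, h1⟩ := exists_ae_subseq hT
    have h2 : ∀ n, ∀ᵐ ξ ∂(volume : Measure ℝ), (𝓕 (fs n) : Lp ℂ 2 (volume : Measure ℝ)) ξ =
        𝓕 v ξ * (1 - ∑ i ∈ Finset.range n, TP (β i) (ξ : AddCircle (1:ℝ))) := by
      intro n
      have e1 : (𝓕 (fs n) : Lp ℂ 2 (volume : Measure ℝ)) =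
          (𝓕 v).toLp 2 (volume : Measure ℝ) - ∑ i ∈ Finset.range n, (𝓕 (VV v (β i))).toLp 2 (volume : Measure ℝ) := by
        have h3 : (𝓕 (fs n) : Lp ℂ 2 (volume : Measure ℝ)) = Lp.fourierTransformₗᵢ ℝ ℂ (fs n) := rfl
        rw [h3, map_sub, map_sum]
        congr 1
        · exact SchwartzMap.toLp_fourier_eq v
        · exact Finset.sum_congr rfl fun i _ => SchwartzMap.toLp_fourier_eq (VV v (β i))
      rw [e1]
      have h4 : ∀ᵐ x ∂(volume : Measure ℝ), ∀ i, ((𝓕 (VV v (β i))).toLp 2 (volume : Measure ℝ)) x = 𝓕 (VV v (β i)) x :=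
        ae_all_iff.mpr fun i => (𝓕 (VV v (β i))).coeFn_toLp 2 (volume : Measure ℝ)
      filter_upwards [Lp.coeFn_sub ((𝓕 v).toLp 2 (volume : Measure ℝ)) (∑ i ∈ Finset.range n, (𝓕 (VV v (β i))).toLp 2 (volume : Measure ℝ)),
        (𝓕 v).coeFn_toLp 2 (volume : Measure ℝ),
        Lp.coeFn_finsetSum (Finset.range n) (fun i => (𝓕 (VV v (β i))).toLp 2 (volume : Measure ℝ)), h4] with x h5 h6 h7 h8
      rw [h5, Pi.sub_apply, h6, h7, Finset.sum_apply, Finset.sum_congr rfl fun i _ => (h8 i).trans (fourier_VV v (β i) x),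
        ← Finset.sum_mul]
      ring
    filter_upwards [h1, ae_all_iff.mpr h2] with ξ h3 h4 hξ
    have h5 : Tendsto (fun i => (𝓕 (fs (ns i)) : Lp ℂ 2 (volume : Measure ℝ)) ξ) atTop (𝓝 (𝓕 v ξ * (1 - 1))) := by
      simp_rw [h4]
      exact (((hE _ hξ.2.2).comp hns.tendsto_atTop).const_sub 1).const_mul _
    rw [sub_self, mul_zero] at h5
    exact tendsto_nhds_unique h3 h5
  refine ⟨f, h, ?_, {ξ | 0 < ξ ∧ ξ ≤ ρ ∧ (ξ : AddCircle (1:ℝ)) ∈ E}, ?_, ?_, ?_⟩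
  · apply mul_closed (fun x : ℝ => F (x : ℂ)) f h fs hs hfs hhs
    intro n
    have h1 : ∀ᵐ x ∂(volume : Measure ℝ), ∀ i, e i x = (F (x : ℂ) - 1) * VV v (β i) x := ae_all_iff.mpr he
    filter_upwards [Lp.coeFn_add (fs n - v2) (e0 - ∑ i ∈ Finset.range n, e i), Lp.coeFn_sub (fs n) v2,
      Lp.coeFn_sub e0 (∑ i ∈ Finset.range n, e i), Lp.coeFn_finsetSum (Finset.range n) e, he0, h1, hfsae n,
      v.coeFn_toLp 2 (volume : Measure ℝ)] with x h2 h3 h4 h5 h6 h7 h8 h9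
    change ((fs n - v2) + (e0 - ∑ i ∈ Finset.range n, e i) : Lp ℂ 2 (volume : Measure ℝ)) x = _
    rw [h2, Pi.add_apply, h3, h4, Pi.sub_apply, Pi.sub_apply, h5, Finset.sum_apply, h6, h8, hv2, h9]
    rw [Finset.sum_congr rfl fun i _ => h7 i, ← Finset.mul_sum]
    ring
  · have h1 : {ξ : ℝ | 0 < ξ ∧ ξ ≤ ρ ∧ (ξ : AddCircle (1:ℝ)) ∈ E} =
        Ioc 0 ρ ∩ (fun ξ : ℝ => (ξ : AddCircle (1:ℝ))) ⁻¹' E := by
      ext ξ; simp [and_assoc]
    rw [h1]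
    exact measurableSet_Ioc.inter (AddCircle.measurable_mk' hEm)
  · exact hfz
  · -- the transform of `h` does not
    intro hzero
    set E' : Set ℝ := {ξ | 0 < ξ ∧ ξ ≤ ρ ∧ (ξ : AddCircle (1:ℝ)) ∈ E} with hE'
    have h1 : (𝓕 h : Lp ℂ 2 (volume : Measure ℝ)) = 𝓕 f - (𝓕 v).toLp 2 (volume : Measure ℝ) + 𝓕 err := by
      have h3 : (𝓕 h : Lp ℂ 2 (volume : Measure ℝ)) = Lp.fourierTransformₗᵢ ℝ ℂ h := rfl
      rw [h3, hh, map_add, map_sub]
      congr 2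
      exact SchwartzMap.toLp_fourier_eq v
    have h2 : ∀ᵐ ξ ∂(volume : Measure ℝ), ξ ∈ E' → ENNReal.ofReal c₀ ≤ ‖(𝓕 err : Lp ℂ 2 (volume : Measure ℝ)) ξ‖ₑ := by
      filter_upwards [hzero, hfz, Lp.coeFn_add (𝓕 f - (𝓕 v).toLp 2 (volume : Measure ℝ)) (𝓕 err),
        Lp.coeFn_sub (𝓕 f) ((𝓕 v).toLp 2 (volume : Measure ℝ)), (𝓕 v).coeFn_toLp 2 (volume : Measure ℝ)] with ξ h3 h4 h5 h6 h7 hξ
      have h8 := h3 hξ
      rw [h1, h5, Pi.add_apply, h6, Pi.sub_apply, h4 hξ, h7] at h8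
      have h9 : (𝓕 err : Lp ℂ 2 (volume : Measure ℝ)) ξ = 𝓕 v ξ := by
        have h10 : (𝓕 err : Lp ℂ 2 (volume : Measure ℝ)) ξ - 𝓕 v ξ = 0 := by
          rw [← h8]; ring
        exact sub_eq_zero.mp h10
      rw [h9, ← ofReal_norm]
      exact ENNReal.ofReal_le_ofReal (hρ ξ hξ.1 hξ.2.1)
    have h3 : volume E' ≤ volume {ξ | ENNReal.ofReal c₀ ≤ ‖(𝓕 err : Lp ℂ 2 (volume : Measure ℝ)) ξ‖ₑ} :=
      measure_mono_ae h2
    have h4 : ENNReal.ofReal (ρ / 2) ≤ volume E' := by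
      have h5 : Ioc 0 ρ ⊆ E' ∪ ((fun ξ : ℝ => (ξ : AddCircle (1:ℝ))) ⁻¹' Eᶜ ∩ Ioc 0 (0 + 1)) := by
        intro ξ hξ
        by_cases h6 : (ξ : AddCircle (1:ℝ)) ∈ E
        · exact Or.inl ⟨hξ.1, hξ.2, h6⟩
        · exact Or.inr ⟨h6, hξ.1, by rw [zero_add]; exact hξ.2.trans hρ1⟩
      have h6 := (measure_mono (μ := volume) h5).trans (measure_union_le _ _)
      have h7 : volume ((fun ξ : ℝ => (ξ : AddCircle (1:ℝ))) ⁻¹' Eᶜ ∩ Ioc 0 (0 + 1)) = volume Eᶜ := by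
        have h8 := (AddCircle.measurePreserving_mk (1:ℝ) 0).measure_preimage hEm.compl.nullMeasurableSet
        rw [Measure.restrict_apply (AddCircle.measurable_mk' hEm.compl)] at h8
        exact h8
      rw [h7, Real.volume_Ioc, sub_zero] at h6
      have h8 : ENNReal.ofReal ρ ≤ volume E' + ENNReal.ofReal (ρ / 2) := h6.trans (by gcongr)
      have h9 : ENNReal.ofReal ρ = ENNReal.ofReal (ρ / 2) + ENNReal.ofReal (ρ / 2) := by
        rw [← ENNReal.ofReal_add (by positivity) (by positivity)]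
        congr 1; ring
      rw [h9] at h8
      exact (ENNReal.add_le_add_iff_right ENNReal.ofReal_ne_top).mp h8
    have h5 := mul_meas_ge_le_pow_eLpNorm' (volume : Measure ℝ) (p := 2) two_ne_zero ENNReal.ofNat_ne_top
      (Lp.aestronglyMeasurable (𝓕 err : Lp ℂ 2 (volume : Measure ℝ))) (ENNReal.ofReal c₀)
    have h6 : eLpNorm (𝓕 err : Lp ℂ 2 (volume : Measure ℝ)) 2 (volume : Measure ℝ) = ENNReal.ofReal ‖err‖ := by
      rw [← Lp.norm_fourier_eq err, Lp.norm_def, ENNReal.ofReal_toReal (Lp.eLpNorm_ne_top _)]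
    rw [h6] at h5
    have h7 : ENNReal.ofReal c₀ ^ (2 : ENNReal).toReal * ENNReal.ofReal (ρ / 2) ≤
        ENNReal.ofReal (η * (A * (1 + 2 * K))) ^ (2 : ENNReal).toReal := by
      refine le_trans ?_ (h5.trans ?_)
      · gcongr
        exact h4.trans h3
      · gcongr
    have h8 : (2 : ENNReal).toReal = 2 := by simp
    rw [h8, ENNReal.ofReal_rpow_of_nonneg hc₀pos.le (by norm_num), ENNReal.ofReal_rpow_of_nonneg (by positivity) (by norm_num),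
      ← ENNReal.ofReal_mul (by positivity), ENNReal.ofReal_le_ofReal_iff (by positivity)] at h7
    have h9 : c₀ ^ (2:ℝ) * (ρ / 2) = (c₀ * Real.sqrt (ρ / 2)) ^ 2 := by
      rw [Real.rpow_two, mul_pow, Real.sq_sqrt (by positivity)]
    rw [h9, Real.rpow_two] at h7
    have h10 : c₀ * Real.sqrt (ρ / 2) ≤ η * (A * (1 + 2 * K)) :=
      (pow_le_pow_iff_left₀ (by positivity) (by positivity) two_ne_zero).mp h7
    have h11 : 0 < c₀ * Real.sqrt (ρ / 2) := mul_pos hc₀pos (Real.sqrt_pos.mpr (by positivity))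
    have h12 : η * (2 * (A * (1 + 2 * K) + 1)) = c₀ * Real.sqrt (ρ / 2) := by
      rw [hη]
      have : 2 * (A * (1 + 2 * K) + 1) ≠ 0 := by positivity
      field_simp
    have h13 : 0 ≤ A * (1 + 2 * K) := by positivity
    nlinarith

end Pool.Agent.H155R3
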