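import Mathlib

set_option autoImplicit false

/-!
# Haar measure on the infinite torus: averaging over translations
-/

namespace Pool.Agent.H155R3

open MeasureTheory Set

abbrev TT := AddCircle (1:ℝ)
abbrev Om := ℕ → TT

/-- Haar probability measure of the circle. -/
noncomputable abbrev hh : Measure TT := AddCircle.haarAddCircle

/-- Haar probability measure of the infinite torus. -/
noncomputable def mu : Measure Om := Measure.infinitePi (fun _ : ℕ => (AddCircle.haarAddCircle : Measure TT))

instance : IsProbabilityMeasure mu := by unfold mu; infer_instance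

instance : mu.IsAddLeftInvariant := by
  constructor
  intro a
  have h := Measure.infinitePi_map_pi (μ := fun _ : ℕ => (AddCircle.haarAddCircle : Measure TT))
    (f := fun i x => a i + x) (fun i => by fun_prop)
  have e : (fun x : Om => a + x) = fun x i => a i + x i := by funext x i; rfl
  unfold mu
  rw [e, h]
  congr 1
  funext i
  exact map_add_left_eq_self _ _

instance : mu.IsAddRightInvariant := by infer_instance

theorem integral_shift {E : Type*} [NormedAddCommGroup E] [NormedSpace ℝ E] (F : Om → E) (s : Om) :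
    ∫ z, F (z + s) ∂mu = ∫ z, F z ∂mu := integral_add_right_eq_self F s

/-- Averaging over a family of translations. -/
theorem avg_shift {E Y : Type*} [NormedAddCommGroup E] [NormedSpace ℝ E] [CompleteSpace E] [MeasurableSpace Y]
    (κ : Measure Y) [IsProbabilityMeasure κ] (ρ : Y → Om) (hρ : Measurable ρ) (F : Om → E)
    (hF : StronglyMeasurable F) (C : ℝ) (hC : ∀ z, ‖F z‖ ≤ C) :
    ∫ z, F z ∂mu = ∫ z, ∫ y, F (z + ρ y) ∂κ ∂mu := by
  have hm : Measurable fun p : Om × Y => p.1 + ρ p.2 := by fun_prop
  have hint : Integrable (fun p : Om × Y => F (p.1 + ρ p.2)) (mu.prod κ) := by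
    apply Integrable.of_bound (hF.comp_measurable hm).aestronglyMeasurable C
    exact Filter.Eventually.of_forall fun p => hC _
  rw [integral_integral_swap (f := fun z y => F (z + ρ y)) hint]
  simp_rw [integral_shift]
  rw [integral_const]
  simp

/-- The coordinate characters. -/
noncomputable def ch (i : ℕ) (z : Om) : ℂ := (AddCircle.toCircle (z i) : ℂ)

theorem norm_ch (i : ℕ) (z : Om) : ‖ch i z‖ = 1 := Circle.norm_coe _

theorem ch_ne (i : ℕ) (z : Om) : ch i z ≠ 0 := by
  intro h
  have := norm_ch i z
  rw [h] at this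
  simp at this

theorem continuous_ch (i : ℕ) : Continuous (ch i) := by
  unfold ch
  fun_prop

theorem ch_add (i : ℕ) (z w : Om) : ch i (z + w) = ch i z * ch i w := by
  unfold ch
  rw [Pi.add_apply, AddCircle.toCircle_add]
  simp

/-- Value of the basic character. -/
noncomputable def tc (t : TT) : ℂ := (AddCircle.toCircle t : ℂ)

theorem norm_tc (t : TT) : ‖tc t‖ = 1 := Circle.norm_coe _

theorem tc_ne (t : TT) : tc t ≠ 0 := by
  intro h
  have := norm_tc t
  rw [h] at this
  simp at this

theorem continuous_tc : Continuous tc := by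
  unfold tc
  fun_prop

theorem tc_add (s t : TT) : tc (s + t) = tc s * tc t := by
  unfold tc
  rw [AddCircle.toCircle_add]
  simp

theorem tc_zpow (n : ℤ) (t : TT) : tc t ^ n = (fourier n t : ℂ) := by
  rw [fourier_apply, AddCircle.toCircle_zsmul]
  simp [tc]

theorem ch_eq_tc (i : ℕ) (z : Om) : ch i z = tc (z i) := rfl

theorem integral_tc_zpow {n : ℤ} (hn : n ≠ 0) : ∫ t, tc t ^ n ∂hh = 0 := by
  simp_rw [tc_zpow]
  exact integral_eq_zero_of_add_right_eq_neg (μ := hh) (fourier_add_half_inv_index hn one_pos)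

theorem integrable_cont_T {F : TT → ℂ} (hF : Continuous F) : Integrable F hh :=
  hF.integrable_of_hasCompactSupport (HasCompactSupport.of_compactSpace _)

theorem integrable_cont_T' {F : TT → ℝ} (hF : Continuous F) : Integrable F hh :=
  hF.integrable_of_hasCompactSupport (HasCompactSupport.of_compactSpace _)

theorem integrable_cont_Om {F : Om → ℂ} (hF : Continuous F) : Integrable F mu :=
  hF.integrable_of_hasCompactSupport (HasCompactSupport.of_compactSpace _)

theorem integrable_cont_Om' {F : Om → ℝ} (hF : Continuous F) : Integrable F mu :=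
  hF.integrable_of_hasCompactSupport (HasCompactSupport.of_compactSpace _)

/-- If `F` is homogeneous of degree `k ≠ 0` under a flow then its integral vanishes. -/
theorem integral_zero_of_flow (F : Om → ℂ) (ρ : TT → Om) (k : ℤ) (hk : k ≠ 0)
    (h : ∀ t z, F (z + ρ t) = tc t ^ k * F z) : ∫ z, F z ∂mu = 0 := by
  set s : TT := ((1 / 2 / k : ℝ) : TT) with hs
  have h1 : tc s ^ k = -1 := by
    have h2 := fourier_add_half_inv_index (T := (1:ℝ)) hk one_pos (0 : TT)
    rw [zero_add, fourier_eval_zero, ← tc_zpow] at h2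
    exact h2
  have h3 := integral_shift F (ρ s)
  simp_rw [h, h1] at h3
  rw [integral_const_mul] at h3
  have h4 : (2 : ℂ) * ∫ z, F z ∂mu = 0 := by linear_combination -h3
  simpa using h4

/-- Bound of an integral operator on `L¹`. -/
theorem kernel_bound (f : Om → ℂ) (hf : Integrable f mu) (K : Om × Om → ℂ) (hK : StronglyMeasurable K)
    (C : ℝ) (hC : ∀ p, ‖K p‖ ≤ C) (B : ℝ) (hB : ∀ ζ, ∫ z, ‖K (ζ, z)‖ ∂mu ≤ B) :
    ∫ z, ‖∫ ζ, f ζ * K (ζ, z) ∂mu‖ ∂mu ≤ B * ∫ ζ, ‖f ζ‖ ∂mu := by
  have hint : Integrable (fun p : Om × Om => f p.1 * K p) (mu.prod mu) := by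
    have h1 : Integrable (fun p : Om × Om => f p.1) (mu.prod mu) := hf.comp_fst mu
    exact h1.mul_bdd hK.aestronglyMeasurable (Filter.Eventually.of_forall hC)
  have hint2 : Integrable (fun p : Om × Om => f p.2 * K (p.2, p.1)) (mu.prod mu) := hint.swap
  calc ∫ z, ‖∫ ζ, f ζ * K (ζ, z) ∂mu‖ ∂mu ≤ ∫ z, ∫ ζ, ‖f ζ * K (ζ, z)‖ ∂mu ∂mu := by
        apply integral_mono hint2.integral_prod_left.norm hint2.norm.integral_prod_left
        intro z
        exact norm_integral_le_integral_norm _
    _ = ∫ ζ, ∫ z, ‖f ζ * K (ζ, z)‖ ∂mu ∂mu := integral_integral_swap (f := fun z ζ => ‖f ζ * K (ζ, z)‖) hint2.norm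
    _ = ∫ ζ, ‖f ζ‖ * ∫ z, ‖K (ζ, z)‖ ∂mu ∂mu := by
        apply integral_congr_ae
        filter_upwards with ζ
        rw [← integral_const_mul]
        simp_rw [norm_mul]
    _ ≤ ∫ ζ, B * ‖f ζ‖ ∂mu := by
        apply integral_mono_ae
        · have := hint.norm.integral_prod_left
          refine this.congr ?_
          filter_upwards with ζ
          rw [← integral_const_mul]
          simp_rw [norm_mul]
        · exact hf.norm.const_mul B
        · filter_upwards with ζ
          rw [mul_comm B]
          exact mul_le_mul_of_nonneg_left (hB ζ) (norm_nonneg _)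
    _ = B * ∫ ζ, ‖f ζ‖ ∂mu := integral_const_mul _ _

end Pool.Agent.H155R3
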