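import Pool.Agent.H155R3.H1

set_option autoImplicit false

/-!
# A Burkholder type function for first order analytic increments
-/

namespace Pool.Agent.H155R3

open MeasureTheory Set

theorem polar (x : ℂ) : ∃ ξ : ℂ, ‖ξ‖ = 1 ∧ x = ξ * ‖x‖ := by
  by_cases hx : x = 0
  · exact ⟨1, by simp, by simp [hx]⟩
  · refine ⟨x / ‖x‖, ?_, ?_⟩
    · rw [norm_div, Complex.norm_real, norm_norm, div_self (norm_ne_zero_iff.mpr hx)]
    · have : (‖x‖ : ℂ) ≠ 0 := by exact_mod_cast norm_ne_zero_iff.mpr hx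
      field_simp

theorem integral_tc : ∫ t, tc t ∂hh = 0 := by
  simpa using integral_tc_zpow (n := 1) one_ne_zero

theorem integral_tc_sq : ∫ t, tc t ^ 2 ∂hh = 0 := by
  have := integral_tc_zpow (n := 2) two_ne_zero
  simpa using this

theorem sq_re_im (σ : ℂ) (hσ : ‖σ‖ = 1) : σ.re ^ 2 + σ.im ^ 2 = 1 := by
  have := Complex.sq_norm σ
  rw [hσ, Complex.normSq_apply] at this
  nlinarith

/-- Pointwise lower bound with a test function. -/
theorem pointwise_test (X G α β : ℝ) (σ : ℂ) (hσ : ‖σ‖ = 1) (hαβ : α ^ 2 + 4 * β ^ 2 = 1) :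
    α * (X + G * σ.re) + 2 * β * G * σ.im ^ 2 ≤ ‖(X : ℂ) + σ * G‖ := by
  have h1 := sq_re_im σ hσ
  have h2 : ‖(X : ℂ) + σ * G‖ ^ 2 = (X + G * σ.re) ^ 2 + (G * σ.im) ^ 2 := by
    rw [Complex.sq_norm, Complex.normSq_apply]
    simp
    ring
  have h3 : (α * (X + G * σ.re) + 2 * β * G * σ.im ^ 2) ^ 2 ≤ ‖(X : ℂ) + σ * G‖ ^ 2 := by
    rw [h2]
    have h4 : (α * (X + G * σ.re) + (2 * β * σ.im) * (G * σ.im)) ^ 2 ≤
        (α ^ 2 + (2 * β * σ.im) ^ 2) * ((X + G * σ.re) ^ 2 + (G * σ.im) ^ 2) := by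
      nlinarith [sq_nonneg (α * (G * σ.im) - (2 * β * σ.im) * (X + G * σ.re))]
    have h5 : α ^ 2 + (2 * β * σ.im) ^ 2 ≤ 1 := by
      have : σ.im ^ 2 ≤ 1 := by nlinarith [sq_nonneg σ.re]
      nlinarith [sq_nonneg β]
    have h6 : 0 ≤ (X + G * σ.re) ^ 2 + (G * σ.im) ^ 2 := by positivity
    calc (α * (X + G * σ.re) + 2 * β * G * σ.im ^ 2) ^ 2
        = (α * (X + G * σ.re) + (2 * β * σ.im) * (G * σ.im)) ^ 2 := by ring
      _ ≤ (α ^ 2 + (2 * β * σ.im) ^ 2) * ((X + G * σ.re) ^ 2 + (G * σ.im) ^ 2) := h4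
      _ ≤ 1 * ((X + G * σ.re) ^ 2 + (G * σ.im) ^ 2) := mul_le_mul_of_nonneg_right h5 h6
      _ = _ := one_mul _
  exact (abs_le_of_sq_le_sq' h3 (norm_nonneg _)).2

theorem integral_re_tc (c : ℂ) : ∫ t, (tc t * c).re ∂hh = 0 := by
  have h1 : Integrable (fun t => tc t * c) hh := integrable_cont_T (continuous_tc.mul continuous_const)
  have h2 := Complex.reCLM.integral_comp_comm h1
  simp only [Complex.reCLM_apply] at h2
  rw [h2, integral_mul_const, integral_tc, zero_mul, Complex.zero_re]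

theorem integral_im_tc (c : ℂ) (hc : ‖c‖ = 1) : ∫ t, (tc t * c).im ^ 2 ∂hh = 1 / 2 := by
  have h1 : Integrable (fun t => tc t ^ 2 * c ^ 2) hh :=
    integrable_cont_T ((continuous_tc.pow 2).mul continuous_const)
  have h2 := Complex.reCLM.integral_comp_comm h1
  simp only [Complex.reCLM_apply] at h2
  rw [integral_mul_const, integral_tc_sq, zero_mul, Complex.zero_re] at h2
  have h3 : ∀ t, (tc t * c).im ^ 2 = 1 / 2 - (1 / 2) * (tc t ^ 2 * c ^ 2).re := by
    intro t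
    have h4 := sq_re_im (tc t * c) (by rw [norm_mul, norm_tc, hc, one_mul])
    have h5 : (tc t ^ 2 * c ^ 2).re = (tc t * c).re ^ 2 - (tc t * c).im ^ 2 := by
      rw [← mul_pow, sq, Complex.mul_re]
      ring
    rw [h5]
    linarith
  simp_rw [h3]
  rw [integral_sub (integrable_const _), integral_const_mul, h2]
  · simp
  · apply Integrable.const_mul
    exact h1.re

/-- Lower bound for the mean of `‖x + τ g‖`. -/
theorem mean_lower (x g : ℂ) : Real.sqrt (‖x‖ ^ 2 + ‖g‖ ^ 2 / 4) ≤ ∫ t, ‖x + tc t * g‖ ∂hh := by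
  set R : ℝ := Real.sqrt (‖x‖ ^ 2 + ‖g‖ ^ 2 / 4) with hR
  by_cases hR0 : R = 0
  · rw [hR0]
    exact integral_nonneg fun t => norm_nonneg _
  have hRpos : 0 < R := lt_of_le_of_ne (Real.sqrt_nonneg _) (Ne.symm hR0)
  have hR2 : R ^ 2 = ‖x‖ ^ 2 + ‖g‖ ^ 2 / 4 := Real.sq_sqrt (by positivity)
  obtain ⟨ξ, hξ, hx⟩ := polar x
  obtain ⟨η, hη, hg⟩ := polar g
  have hξ0 : ξ ≠ 0 := by intro h; rw [h] at hξ; simp at hξ
  set c : ℂ := η / ξ with hc
  have hcn : ‖c‖ = 1 := by rw [hc, norm_div, hη, hξ, div_one]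
  set α : ℝ := ‖x‖ / R with hα
  set β : ℝ := ‖g‖ / (4 * R) with hβ
  have hαβ : α ^ 2 + 4 * β ^ 2 = 1 := by
    have : α ^ 2 + 4 * β ^ 2 = (‖x‖ ^ 2 + ‖g‖ ^ 2 / 4) / R ^ 2 := by
      rw [hα, hβ]; field_simp
    rw [this, ← hR2, div_self (by positivity)]
  have hpt : ∀ t, α * (‖x‖ + ‖g‖ * (tc t * c).re) + 2 * β * ‖g‖ * (tc t * c).im ^ 2 ≤ ‖x + tc t * g‖ := by
    intro t
    have h1 := pointwise_test ‖x‖ ‖g‖ α β (tc t * c) (by rw [norm_mul, norm_tc, hcn, one_mul]) hαβ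
    have h2 : x + tc t * g = ξ * ((‖x‖ : ℂ) + tc t * c * ‖g‖) := by
      rw [hc]
      conv_lhs => rw [hx, hg]
      field_simp
    rw [h2, norm_mul, hξ, one_mul]
    exact h1
  have hI1 : Integrable (fun t => (tc t * c).re) hh :=
    integrable_cont_T' (Complex.continuous_re.comp (continuous_tc.mul continuous_const))
  have hI2 : Integrable (fun t => (tc t * c).im ^ 2) hh :=
    integrable_cont_T' ((Complex.continuous_im.comp (continuous_tc.mul continuous_const)).pow 2)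
  have hI3 : Integrable (fun t => ‖x + tc t * g‖) hh :=
    integrable_cont_T' (continuous_const.add (continuous_tc.mul continuous_const)).norm
  have h3 : ∫ t, (α * (‖x‖ + ‖g‖ * (tc t * c).re) + 2 * β * ‖g‖ * (tc t * c).im ^ 2) ∂hh = R := by
    have e : ∀ t, α * (‖x‖ + ‖g‖ * (tc t * c).re) + 2 * β * ‖g‖ * (tc t * c).im ^ 2 =
        α * ‖x‖ + ((α * ‖g‖) * (tc t * c).re + (2 * β * ‖g‖) * (tc t * c).im ^ 2) := fun t => by ring
    have hsum : Integrable (fun t => (α * ‖g‖) * (tc t * c).re + (2 * β * ‖g‖) * (tc t * c).im ^ 2) hh :=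
      (hI1.const_mul _).add (hI2.const_mul _)
    simp_rw [e]
    rw [integral_add (integrable_const _) hsum,
      integral_add (hI1.const_mul _) (hI2.const_mul _), integral_const_mul (α * ‖g‖),
      integral_const_mul (2 * β * ‖g‖),
      integral_re_tc, integral_im_tc c hcn]
    simp only [integral_const, probReal_univ, smul_eq_mul, one_mul, mul_zero, zero_add]
    have : α * ‖x‖ + 2 * β * ‖g‖ * (1 / 2) = (‖x‖ ^ 2 + ‖g‖ ^ 2 / 4) / R := by
      rw [hα, hβ]; field_simp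
    rw [this, ← hR2]
    field_simp
  rw [← h3]
  apply integral_mono _ hI3 hpt
  exact (((integrable_const _).add (hI1.const_mul _)).const_mul _).add (hI2.const_mul _)

/-- Upper bound for the mean of a square root. -/
theorem mean_upper (p g : ℂ) (Q : ℝ) (hQ : 0 ≤ Q) :
    ∫ t, Real.sqrt (‖p + tc t * g‖ ^ 2 + Q) ∂hh ≤ Real.sqrt (‖p‖ ^ 2 + ‖g‖ ^ 2 + Q) := by
  set s : ℝ := Real.sqrt (‖p‖ ^ 2 + ‖g‖ ^ 2 + Q) with hs
  have hexp : ∀ t, ‖p + tc t * g‖ ^ 2 = ‖p‖ ^ 2 + ‖g‖ ^ 2 + 2 * (tc t * (g * (starRingEnd ℂ) p)).re := by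
    intro t
    rw [Complex.sq_norm, Complex.normSq_add, Complex.normSq_mul]
    have : Complex.normSq (tc t) = 1 := by rw [Complex.normSq_eq_norm_sq, norm_tc]; norm_num
    rw [this, one_mul, Complex.sq_norm, Complex.sq_norm]
    have e : (p * (starRingEnd ℂ) (tc t * g)).re = (tc t * (g * (starRingEnd ℂ) p)).re := by
      have : tc t * (g * (starRingEnd ℂ) p) = (starRingEnd ℂ) (p * (starRingEnd ℂ) (tc t * g)) := by
        simp [map_mul]
        ring
      rw [this, Complex.conj_re]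
    rw [e]
  have hcont : Continuous fun t => ‖p + tc t * g‖ ^ 2 :=
    (continuous_const.add (continuous_tc.mul continuous_const)).norm.pow 2
  have hmean : ∫ t, ‖p + tc t * g‖ ^ 2 ∂hh = ‖p‖ ^ 2 + ‖g‖ ^ 2 := by
    simp_rw [hexp]
    rw [integral_add (integrable_const _), integral_const_mul, integral_re_tc]
    · simp
    · apply Integrable.const_mul
      exact integrable_cont_T' (Complex.continuous_re.comp (continuous_tc.mul continuous_const))
  by_cases hs0 : s = 0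
  · have h1 : ‖p‖ ^ 2 + ‖g‖ ^ 2 + Q = 0 := by
      rw [hs, Real.sqrt_eq_zero (by positivity)] at hs0
      exact hs0
    have hp : ‖p‖ ^ 2 = 0 := by nlinarith [sq_nonneg ‖p‖, sq_nonneg ‖g‖]
    have hg : ‖g‖ ^ 2 = 0 := by nlinarith [sq_nonneg ‖p‖, sq_nonneg ‖g‖]
    have hQ0 : Q = 0 := by nlinarith [sq_nonneg ‖p‖, sq_nonneg ‖g‖]
    have hp' : p = 0 := by simpa using hp
    have hg' : g = 0 := by simpa using hg
    rw [hs0, hp', hg', hQ0]
    simp
  have hspos : 0 < s := lt_of_le_of_ne (Real.sqrt_nonneg _) (Ne.symm hs0)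
  have hs2 : s ^ 2 = ‖p‖ ^ 2 + ‖g‖ ^ 2 + Q := Real.sq_sqrt (by positivity)
  have hpt : ∀ t, Real.sqrt (‖p + tc t * g‖ ^ 2 + Q) ≤ ((‖p + tc t * g‖ ^ 2 + Q) / s + s) / 2 := by
    intro t
    set y : ℝ := ‖p + tc t * g‖ ^ 2 + Q with hy
    have hy0 : 0 ≤ y := by positivity
    have h1 : Real.sqrt y ^ 2 = y := Real.sq_sqrt hy0
    rw [le_div_iff₀ (by norm_num)]
    have h2 : y / s + s = (y + s ^ 2) / s := by field_simp
    rw [h2, le_div_iff₀ hspos]
    nlinarith [sq_nonneg (Real.sqrt y - s)]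
  calc ∫ t, Real.sqrt (‖p + tc t * g‖ ^ 2 + Q) ∂hh
      ≤ ∫ t, ((‖p + tc t * g‖ ^ 2 + Q) / s + s) / 2 ∂hh := by
        apply integral_mono _ _ hpt
        · exact integrable_cont_T' (Real.continuous_sqrt.comp (hcont.add continuous_const))
        · exact integrable_cont_T' ((((hcont.add continuous_const).div_const _).add continuous_const).div_const _)
    _ = s := by
        rw [integral_div, integral_add _ (integrable_const _), integral_div, integral_add _ (integrable_const _), hmean]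
        · simp only [integral_const, probReal_univ, smul_eq_mul, one_mul]
          rw [← hs2]
          field_simp
          ring
        · exact integrable_cont_T' hcont
        · exact integrable_cont_T' ((hcont.add continuous_const).div_const _)

/-- The Burkholder type function. -/
noncomputable def UU (p q : ℂ) : ℝ := 6 * ‖p + q‖ - Real.sqrt (‖p‖ ^ 2 + ‖q‖ ^ 2)

theorem UU_comm (p q : ℂ) : UU p q = UU q p := by
  unfold UU; rw [add_comm p q, add_comm (‖p‖ ^ 2)]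

theorem UU_mul (m p q : ℂ) (hm : ‖m‖ = 1) : UU (m * p) (m * q) = UU p q := by
  unfold UU
  rw [← mul_add, norm_mul, norm_mul, norm_mul, hm, one_mul, one_mul, one_mul]

theorem UU_le (p q : ℂ) : UU p q ≤ 6 * ‖p + q‖ - ‖p‖ := by
  unfold UU
  have : ‖p‖ ≤ Real.sqrt (‖p‖ ^ 2 + ‖q‖ ^ 2) := by
    apply Real.le_sqrt_of_sq_le
    nlinarith [sq_nonneg ‖q‖]
  linarith

theorem continuous_UU {X : Type*} [TopologicalSpace X] {p q : X → ℂ} (hp : Continuous p) (hq : Continuous q) :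
    Continuous fun x => UU (p x) (q x) := by
  unfold UU
  fun_prop

theorem UU_real (x ρ g : ℝ) (hx : 0 ≤ x) (hρ : 0 ≤ ρ) (hxρ : x ^ 2 ≤ 2 * ρ ^ 2) :
    Real.sqrt (ρ ^ 2 + g ^ 2) - ρ ≤ 6 * (Real.sqrt (x ^ 2 + g ^ 2 / 4) - x) := by
  set A := Real.sqrt (x ^ 2 + g ^ 2 / 4) with hA
  set B := Real.sqrt (ρ ^ 2 + g ^ 2) with hB
  have hA2 : A ^ 2 = x ^ 2 + g ^ 2 / 4 := Real.sq_sqrt (by positivity)
  have hB2 : B ^ 2 = ρ ^ 2 + g ^ 2 := Real.sq_sqrt (by positivity)
  have hA0 : 0 ≤ A := Real.sqrt_nonneg _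
  have hB0 : 0 ≤ B := Real.sqrt_nonneg _
  by_cases hg : g = 0
  · have h1 : A = x := by
      rw [hA, hg]; simp [Real.sqrt_sq hx]
    have h2 : B = ρ := by
      rw [hB, hg]; simp [Real.sqrt_sq hρ]
    rw [h1, h2]; simp
  have hg2 : 0 < g ^ 2 := by positivity
  have hApos : 0 < A := by
    rw [hA]; apply Real.sqrt_pos.mpr; positivity
  have hBpos : 0 < B := by
    rw [hB]; apply Real.sqrt_pos.mpr; positivity
  -- A + x ≤ (3/2)(B + ρ)
  have h1 : A ≤ (3 / 2) * B := by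
    apply abs_le_of_sq_le_sq' _ (by positivity) |>.2
    rw [hA2, mul_pow, hB2]; nlinarith
  have h2 : x ≤ (3 / 2) * ρ := by
    apply abs_le_of_sq_le_sq' _ (by positivity) |>.2
    nlinarith [sq_nonneg ρ]
  have h3 : A - x = (g ^ 2 / 4) / (A + x) := by
    rw [eq_div_iff (by positivity)]; nlinarith
  have h4 : B - ρ = g ^ 2 / (B + ρ) := by
    rw [eq_div_iff (by positivity)]; nlinarith
  rw [h3, h4, div_le_iff₀ (by positivity)]
  have h5 : 6 * ((g ^ 2 / 4) / (A + x)) * (B + ρ) = g ^ 2 * ((3 / 2) * (B + ρ) / (A + x)) := by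
    field_simp; ring
  rw [h5]
  have h6 : 1 ≤ (3 / 2) * (B + ρ) / (A + x) := by
    rw [le_div_iff₀ (by positivity)]; linarith
  nlinarith

/-- Sub-mean value property in the first variable. -/
theorem UU_step (p q g : ℂ) : UU p q ≤ ∫ t, UU (p + tc t * g) q ∂hh := by
  have h1 := mean_lower (p + q) g
  have h2 := mean_upper p g (‖q‖ ^ 2) (by positivity)
  have hI1 : Integrable (fun t => ‖p + q + tc t * g‖) hh :=
    integrable_cont_T' (continuous_const.add (continuous_tc.mul continuous_const)).norm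
  have hI2 : Integrable (fun t => Real.sqrt (‖p + tc t * g‖ ^ 2 + ‖q‖ ^ 2)) hh :=
    integrable_cont_T' (Real.continuous_sqrt.comp (((continuous_const.add
      (continuous_tc.mul continuous_const)).norm.pow 2).add continuous_const))
  have h3 : ∫ t, UU (p + tc t * g) q ∂hh = 6 * ∫ t, ‖p + q + tc t * g‖ ∂hh -
      ∫ t, Real.sqrt (‖p + tc t * g‖ ^ 2 + ‖q‖ ^ 2) ∂hh := by
    rw [← integral_const_mul, ← integral_sub (hI1.const_mul _) hI2]
    apply integral_congr_ae
    filter_upwards with t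
    unfold UU
    congr 3
    ring
  rw [h3]
  set ρ : ℝ := Real.sqrt (‖p‖ ^ 2 + ‖q‖ ^ 2) with hρ
  have hρ2 : ρ ^ 2 = ‖p‖ ^ 2 + ‖q‖ ^ 2 := Real.sq_sqrt (by positivity)
  have h4 := UU_real ‖p + q‖ ρ ‖g‖ (norm_nonneg _) (Real.sqrt_nonneg _) (by
    rw [hρ2]
    have := norm_add_le p q
    nlinarith [sq_nonneg (‖p‖ - ‖q‖), norm_nonneg p, norm_nonneg q, norm_nonneg (p + q)])
  have h5 : ‖p‖ ^ 2 + ‖g‖ ^ 2 + ‖q‖ ^ 2 = ρ ^ 2 + ‖g‖ ^ 2 := by rw [hρ2]; ring
  rw [h5] at h2
  unfold UU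
  linarith

theorem UU_step_inv (p q g : ℂ) : UU p q ≤ ∫ t, UU (p + (tc t)⁻¹ * g) q ∂hh := by
  have h1 := UU_step p q g
  have h2 : ∫ t, UU (p + (tc t)⁻¹ * g) q ∂hh = ∫ t, UU (p + tc t * g) q ∂hh := by
    rw [← integral_neg_eq_self (fun t => UU (p + tc t * g) q) hh]
    apply integral_congr_ae
    filter_upwards with t
    have : tc (-t) = (tc t)⁻¹ := by
      unfold tc
      rw [AddCircle.toCircle_neg]
      simp
    rw [this]
  rw [h2]
  exact h1

theorem UU_bdd {p q : Om → ℂ} (hp : Continuous p) (hq : Continuous q) : ∃ C, ∀ z, ‖UU (p z) (q z)‖ ≤ C := by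
  obtain ⟨C, hC⟩ := (isCompact_range (continuous_UU hp hq)).isBounded.exists_norm_le
  exact ⟨C, fun z => hC _ ⟨z, rfl⟩⟩

/-- Adding a first order increment to the first entry increases the mean of `UU`. -/
theorem step_p (ρ : TT → Om) (hρ : Continuous ρ) (p q s : Om → ℂ) (hp : Continuous p) (hq : Continuous q)
    (hs : Continuous s) (hp' : ∀ t z, p (z + ρ t) = p z) (hq' : ∀ t z, q (z + ρ t) = q z)
    (hs' : ∀ t z, s (z + ρ t) = tc t * s z) :
    ∫ z, UU (p z) (q z) ∂mu ≤ ∫ z, UU (p z + s z) (q z) ∂mu := by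
  obtain ⟨C, hC⟩ := UU_bdd (hp.add hs) hq
  rw [avg_shift hh ρ hρ.measurable (fun z => UU (p z + s z) (q z))
    (continuous_UU (hp.add hs) hq).stronglyMeasurable C hC]
  apply integral_mono (integrable_cont_Om' (continuous_UU hp hq))
  · apply Integrable.of_bound (C := C)
    · have : StronglyMeasurable fun x : Om × TT => UU (p (x.1 + ρ x.2) + s (x.1 + ρ x.2)) (q (x.1 + ρ x.2)) := by
        apply Continuous.stronglyMeasurable
        apply continuous_UU <;> fun_prop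
      exact this.integral_prod_right.aestronglyMeasurable
    · filter_upwards with z
      refine (norm_integral_le_of_norm_le_const (C := C) (Filter.Eventually.of_forall fun t => hC _)).trans ?_
      simp
  · intro z
    simp only [hp', hq', hs']
    exact UU_step _ _ _

theorem step_p_inv (ρ : TT → Om) (hρ : Continuous ρ) (p q s : Om → ℂ) (hp : Continuous p) (hq : Continuous q)
    (hs : Continuous s) (hp' : ∀ t z, p (z + ρ t) = p z) (hq' : ∀ t z, q (z + ρ t) = q z)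
    (hs' : ∀ t z, s (z + ρ t) = (tc t)⁻¹ * s z) :
    ∫ z, UU (p z) (q z) ∂mu ≤ ∫ z, UU (p z + s z) (q z) ∂mu := by
  obtain ⟨C, hC⟩ := UU_bdd (hp.add hs) hq
  rw [avg_shift hh ρ hρ.measurable (fun z => UU (p z + s z) (q z))
    (continuous_UU (hp.add hs) hq).stronglyMeasurable C hC]
  apply integral_mono (integrable_cont_Om' (continuous_UU hp hq))
  · apply Integrable.of_bound (C := C)
    · have : StronglyMeasurable fun x : Om × TT => UU (p (x.1 + ρ x.2) + s (x.1 + ρ x.2)) (q (x.1 + ρ x.2)) := by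
        apply Continuous.stronglyMeasurable
        apply continuous_UU <;> fun_prop
      exact this.integral_prod_right.aestronglyMeasurable
    · filter_upwards with z
      refine (norm_integral_le_of_norm_le_const (C := C) (Filter.Eventually.of_forall fun t => hC _)).trans ?_
      simp
  · intro z
    simp only [hp', hq', hs']
    exact UU_step_inv _ _ _

theorem step_q (ρ : TT → Om) (hρ : Continuous ρ) (p q s : Om → ℂ) (hp : Continuous p) (hq : Continuous q)
    (hs : Continuous s) (hp' : ∀ t z, p (z + ρ t) = p z) (hq' : ∀ t z, q (z + ρ t) = q z)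
    (hs' : ∀ t z, s (z + ρ t) = tc t * s z) :
    ∫ z, UU (p z) (q z) ∂mu ≤ ∫ z, UU (p z) (q z + s z) ∂mu := by
  have := step_p ρ hρ q p s hq hp hs hq' hp' hs'
  simpa only [UU_comm] using this

end Pool.Agent.H155R3
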