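import Pool.Agent.H155R3.H2

set_option autoImplicit false
set_option linter.unusedSectionVars false

/-!
# The lexicographic order of multilinear monomials
-/

namespace Pool.Agent.H155R3

open MeasureTheory Set

theorem ch_shift_eq (i : ℕ) (z : Om) (t : TT) : ch i (z + Pi.single i t) = tc t * ch i z := by
  rw [ch_add, mul_comm]
  congr 1
  unfold ch tc
  simp

theorem ch_shift_ne {i j : ℕ} (h : j ≠ i) (z : Om) (t : TT) : ch j (z + Pi.single i t) = ch j z := by
  unfold ch
  rw [Pi.add_apply, Pi.single_eq_of_ne h, add_zero]

theorem continuous_shift (i : ℕ) : Continuous fun t : TT => (Pi.single i t : Om) := by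
  apply continuous_pi
  intro j
  by_cases h : j = i
  · subst h
    simpa using continuous_id'
  · simp only [Pi.single_eq_of_ne h]
    exact continuous_const

section

variable {ι : Type*} [DecidableEq ι]

/-- Linear combination along a list. -/
noncomputable def lsum (l : List (Finset ι)) (c : Finset ι → ℂ) (m : Finset ι → Om → ℂ) (z : Om) : ℂ :=
  (l.map fun A => c A * m A z).sum

theorem lsum_nil (c : Finset ι → ℂ) (m : Finset ι → Om → ℂ) (z : Om) : lsum [] c m z = 0 := rfl

theorem lsum_append (l l' : List (Finset ι)) (c : Finset ι → ℂ) (m : Finset ι → Om → ℂ) (z : Om) :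
    lsum (l ++ l') c m z = lsum l c m z + lsum l' c m z := by
  unfold lsum
  rw [List.map_append, List.sum_append]

theorem continuous_lsum (l : List (Finset ι)) (c : Finset ι → ℂ) (m : Finset ι → Om → ℂ)
    (hm : ∀ A, Continuous (m A)) : Continuous (lsum l c m) := by
  induction l with
  | nil => exact continuous_const
  | cons A l ih =>
    have : lsum (A :: l) c m = fun z => c A * m A z + lsum l c m z := by
      funext z; simp [lsum]
    rw [this]
    exact (continuous_const.mul (hm A)).add ih

theorem lsum_congr (l : List (Finset ι)) (c : Finset ι → ℂ) (m m' : Finset ι → Om → ℂ) (z : Om)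
    (h : ∀ A ∈ l, m A z = m' A z) : lsum l c m z = lsum l c m' z := by
  unfold lsum
  congr 1
  apply List.map_congr_left
  intro A hA
  rw [h A hA]

theorem lsum_smul (l : List (Finset ι)) (c : Finset ι → ℂ) (m : Finset ι → Om → ℂ) (f : Om → ℂ) (z : Om) :
    lsum l c (fun A z => f z * m A z) z = f z * lsum l c m z := by
  unfold lsum
  rw [← List.sum_map_mul_left]
  congr 1
  apply List.map_congr_left
  intro A _
  ring

/-- The multilinear monomials. -/
noncomputable def mm (zz : ι → ℕ) (w u : ι → Om → ℂ) (I A : Finset ι) (z : Om) : ℂ :=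
  ∏ i ∈ I, (if i ∈ A then ch (zz i) z * u i z else w i z)

theorem continuous_mm (zz : ι → ℕ) (w u : ι → Om → ℂ) (hw : ∀ i, Continuous (w i)) (hu : ∀ i, Continuous (u i))
    (I A : Finset ι) : Continuous (mm zz w u I A) := by
  unfold mm
  apply continuous_finsetProd
  intro i _
  split_ifs
  · exact (continuous_ch _).mul (hu i)
  · exact hw i

theorem mm_shift (zz : ι → ℕ) (hzz : Function.Injective zz) (w u : ι → Om → ℂ)
    (hw : ∀ i j t z, w i (z + Pi.single (zz j) t) = w i z) (hu : ∀ i j t z, u i (z + Pi.single (zz j) t) = u i z)
    (I A : Finset ι) (i₀ : ι) (hi₀ : i₀ ∉ I) (t : TT) (z : Om) :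
    mm zz w u I A (z + Pi.single (zz i₀) t) = mm zz w u I A z := by
  unfold mm
  apply Finset.prod_congr rfl
  intro i hi
  have hne : zz i ≠ zz i₀ := fun h => hi₀ (hzz h ▸ hi)
  rw [ch_shift_ne hne, hu, hw]

theorem lsum_shift (l : List (Finset ι)) (c : Finset ι → ℂ) (m : Finset ι → Om → ℂ) (s z : Om)
    (h : ∀ A, m A (z + s) = m A z) : lsum l c m (z + s) = lsum l c m z := by
  unfold lsum
  congr 1
  apply List.map_congr_left
  intro A _
  rw [h]

theorem exists_order (zz : ι → ℕ) (hzz : Function.Injective zz) (w u : ι → Om → ℂ)
    (hwc : ∀ i, Continuous (w i)) (huc : ∀ i, Continuous (u i)) (hw1 : ∀ i z, ‖w i z‖ = 1) (hu1 : ∀ i z, ‖u i z‖ = 1)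
    (hw : ∀ i j t z, w i (z + Pi.single (zz j) t) = w i z) (hu : ∀ i j t z, u i (z + Pi.single (zz j) t) = u i z)
    (I : Finset ι) : ∃ l : List (Finset ι), l.Nodup ∧ (∀ A, A ∈ l ↔ A ⊆ I) ∧
      ∀ (c : Finset ι → ℂ) (N : ℕ),
        0 ≤ ∫ z, UU (lsum (l.take N) c (mm zz w u I) z) (lsum (l.drop N) c (mm zz w u I) z) ∂mu := by
  induction I using Finset.induction_on with
  | empty =>
    refine ⟨[∅], by simp, by intro A; simp, ?_⟩
    intro c N
    rcases Nat.eq_zero_or_pos N with rfl | hN
    · apply integral_nonneg
      intro z
      simp only [List.take_zero, List.drop_zero, lsum, List.map_nil, List.sum_nil, List.map_cons, List.sum_cons,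
        add_zero, mm, Finset.prod_empty, mul_one, UU, zero_add, norm_zero]
      have : Real.sqrt (0 ^ 2 + ‖c ∅‖ ^ 2) = ‖c ∅‖ := by
        rw [zero_pow two_ne_zero, zero_add, Real.sqrt_sq (norm_nonneg _)]
      rw [this]
      change 0 ≤ 6 * ‖c ∅‖ - ‖c ∅‖
      have := norm_nonneg (c ∅)
      linarith
    · apply integral_nonneg
      intro z
      obtain ⟨M, rfl⟩ := Nat.exists_eq_succ_of_ne_zero hN.ne'
      simp only [Nat.succ_eq_add_one, List.take_succ_cons, List.take_nil, List.drop_succ_cons, List.drop_nil, lsum, List.map_nil, List.sum_nil, List.map_cons, List.sum_cons,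
        add_zero, mm, Finset.prod_empty, mul_one, UU, norm_zero]
      have : Real.sqrt (‖c ∅‖ ^ 2 + 0 ^ 2) = ‖c ∅‖ := by
        rw [zero_pow two_ne_zero, add_zero, Real.sqrt_sq (norm_nonneg _)]
      rw [this]
      change 0 ≤ 6 * ‖c ∅‖ - ‖c ∅‖
      have := norm_nonneg (c ∅)
      linarith
  | insert i₀ I hi₀ ih =>
    obtain ⟨l, hnd, hmem, hgood⟩ := ih
    have hnot : ∀ A ∈ l, i₀ ∉ A := fun A hA h => hi₀ ((hmem A).mp hA h)
    refine ⟨l ++ l.map (insert i₀), ?_, ?_, ?_⟩
    · apply List.Nodup.append hnd
      · apply List.Nodup.map_on _ hnd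
        intro A hA B hB h
        have h1 := congrArg (fun s => Finset.erase s i₀) h
        simp only [Finset.erase_insert (hnot A hA), Finset.erase_insert (hnot B hB)] at h1
        exact h1
      · intro A hA hA'
        rw [List.mem_map] at hA'
        obtain ⟨B, _, rfl⟩ := hA'
        exact hnot _ hA (Finset.mem_insert_self _ _)
    · intro A
      rw [List.mem_append, List.mem_map]
      constructor
      · rintro (h | ⟨B, hB, rfl⟩)
        · exact ((hmem A).mp h).trans (Finset.subset_insert _ _)
        · exact Finset.insert_subset_insert _ ((hmem B).mp hB)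
      · intro h
        by_cases hA : i₀ ∈ A
        · right
          refine ⟨A.erase i₀, ?_, Finset.insert_erase hA⟩
          rw [hmem]
          intro x hx
          rw [Finset.mem_erase] at hx
          exact Finset.mem_of_mem_insert_of_ne (h hx.2) hx.1
        · left
          rw [hmem]
          intro x hx
          exact Finset.mem_of_mem_insert_of_ne (h hx) (fun h' => hA (h' ▸ hx))
    · intro c N
      set m := mm zz w u I with hm
      set m' := mm zz w u (insert i₀ I) with hm'
      set x : Om → ℂ := fun z => ch (zz i₀) z * u i₀ z with hx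
      have hmc : ∀ A, Continuous (m A) := fun A => continuous_mm zz w u hwc huc I A
      have hm0 : ∀ A, i₀ ∉ A → ∀ z, m' A z = w i₀ z * m A z := by
        intro A hA z
        rw [hm', hm]
        unfold mm
        rw [Finset.prod_insert hi₀, if_neg hA]
      have hm1 : ∀ A, ∀ z, m' (insert i₀ A) z = x z * m A z := by
        intro A z
        rw [hm', hm]
        unfold mm
        rw [Finset.prod_insert hi₀, if_pos (Finset.mem_insert_self _ _)]
        congr 1
        apply Finset.prod_congr rfl
        intro i hi
        have hne : i ≠ i₀ := fun h => hi₀ (h ▸ hi)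
        have : i ∈ insert i₀ A ↔ i ∈ A := by simp [hne]
        simp only [this]
      have hL0 : ∀ l' : List (Finset ι), (∀ A ∈ l', A ∈ l) → ∀ z, lsum l' c m' z = w i₀ z * lsum l' c m z := by
        intro l' hl' z
        rw [← lsum_smul]
        apply lsum_congr
        intro A hA
        exact hm0 A (hnot A (hl' A hA)) z
      have hL1 : ∀ l' : List (Finset ι), ∀ z, lsum (l'.map (insert i₀)) c m' z =
          x z * lsum l' (fun A => c (insert i₀ A)) m z := by
        intro l' z
        rw [← lsum_smul]
        unfold lsum
        rw [List.map_map]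
        congr 1
        apply List.map_congr_left
        intro A _
        simp only [Function.comp]
        rw [hm1]
      have hsh : ∀ (l' : List (Finset ι)) (c' : Finset ι → ℂ) t z,
          lsum l' c' m (z + Pi.single (zz i₀) t) = lsum l' c' m z := by
        intro l' c' t z
        apply lsum_shift
        intro A
        exact mm_shift zz hzz w u hw hu I A i₀ hi₀ t z
      have hw0 : ∀ z, w i₀ z ≠ 0 := by
        intro z h
        have := hw1 i₀ z
        rw [h] at this
        simp at this
      have hu0 : ∀ z, u i₀ z ≠ 0 := by
        intro z h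
        have := hu1 i₀ z
        rw [h] at this
        simp at this
      by_cases hN : N ≤ l.length
      · have e1 : (l ++ l.map (insert i₀)).take N = l.take N := List.take_append_of_le_length hN
        have e2 : (l ++ l.map (insert i₀)).drop N = l.drop N ++ l.map (insert i₀) := List.drop_append_of_le_length hN
        rw [e1, e2]
        have e3 : ∀ z, UU (lsum (l.take N) c m' z) (lsum (l.drop N ++ l.map (insert i₀)) c m' z) =
            UU (lsum (l.take N) c m z) (lsum (l.drop N) c m z +
              (w i₀ z)⁻¹ * (x z * lsum l (fun A => c (insert i₀ A)) m z)) := by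
          intro z
          rw [lsum_append, hL0 _ (fun A hA => List.mem_of_mem_take hA), hL0 _ (fun A hA => List.mem_of_mem_drop hA), hL1]
          refine Eq.trans ?_ (UU_mul (w i₀ z) _ _ (hw1 i₀ z))
          congr 1
          have := hw0 z
          field_simp
        simp_rw [e3]
        refine (hgood c N).trans ?_
        apply step_q (fun t => Pi.single (zz i₀) t) (continuous_shift _)
        · exact continuous_lsum _ _ _ hmc
        · exact continuous_lsum _ _ _ hmc
        · exact ((hwc i₀).inv₀ hw0).mul (((continuous_ch _).mul (huc i₀)).mul (continuous_lsum _ _ _ hmc))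
        · intro t z; exact hsh _ _ t z
        · intro t z; exact hsh _ _ t z
        · intro t z
          simp only [hx, hsh, hw, hu, ch_shift_eq]
          ring
      · have hN' : l.length ≤ N := (not_le.mp hN).le
        obtain ⟨N', rfl⟩ := Nat.exists_eq_add_of_le hN'
        have e1 : (l ++ l.map (insert i₀)).take (l.length + N') = l ++ (l.take N').map (insert i₀) := by
          rw [List.take_append, List.take_of_length_le (by omega), List.map_take]
          simp
        have e2 : (l ++ l.map (insert i₀)).drop (l.length + N') = (l.drop N').map (insert i₀) := by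
          rw [List.drop_append, List.drop_of_length_le (by omega), List.map_drop]
          simp
        rw [e1, e2]
        have hx0 : ∀ z, x z ≠ 0 := fun z => mul_ne_zero (ch_ne _ z) (hu0 z)
        have hx1 : ∀ z, ‖x z‖ = 1 := fun z => by rw [hx]; simp only [norm_mul, norm_ch, hu1, mul_one]
        have e3 : ∀ z, UU (lsum (l ++ (l.take N').map (insert i₀)) c m' z) (lsum ((l.drop N').map (insert i₀)) c m' z) =
            UU (lsum (l.take N') (fun A => c (insert i₀ A)) m z + (x z)⁻¹ * (w i₀ z * lsum l c m z))
              (lsum (l.drop N') (fun A => c (insert i₀ A)) m z) := by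
          intro z
          rw [lsum_append, hL0 _ (fun A hA => hA), hL1, hL1]
          refine Eq.trans ?_ (UU_mul (x z) _ _ (hx1 z))
          congr 1
          have := hx0 z
          field_simp
          ring
        simp_rw [e3]
        refine (hgood (fun A => c (insert i₀ A)) N').trans ?_
        apply step_p_inv (fun t => Pi.single (zz i₀) t) (continuous_shift _)
        · exact continuous_lsum _ _ _ hmc
        · exact continuous_lsum _ _ _ hmc
        · exact ((((continuous_ch _).mul (huc i₀))).inv₀ hx0).mul ((hwc i₀).mul (continuous_lsum _ _ _ hmc))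
        · intro t z; exact hsh _ _ t z
        · intro t z; exact hsh _ _ t z
        · intro t z
          simp only [hx, hsh, hw, hu, ch_shift_eq]
          have h1 := tc_ne t
          have h2 := ch_ne (zz i₀) z
          have h3 := hu0 z
          field_simp

end

end Pool.Agent.H155R3
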