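import Pool.Agent.H155R3.H1

set_option autoImplicit false

/-!
# De la Vallee-Poussin coefficients and moments of sums of independent phases
-/

namespace Pool.Agent.H155R3

open MeasureTheory Set Finset

/-- Bilinear Parseval identity on the circle. -/
theorem parseval2 (n : ℕ) (a b : ℕ → ℂ) :
    ∫ t, (∑ k ∈ range n, tc t ^ k * a k) * (starRingEnd ℂ) (∑ k ∈ range n, tc t ^ k * b k) ∂hh =
      ∑ k ∈ range n, a k * (starRingEnd ℂ) (b k) := by
  have h1 : ∀ t, (∑ k ∈ range n, tc t ^ k * a k) * (starRingEnd ℂ) (∑ k ∈ range n, tc t ^ k * b k) =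
      ∑ k ∈ range n, ∑ l ∈ range n, (a k * (starRingEnd ℂ) (b l)) * tc t ^ ((k : ℤ) - l) := by
    intro t
    rw [map_sum, sum_mul_sum]
    apply sum_congr rfl; intro k _
    apply sum_congr rfl; intro l _
    rw [map_mul, map_pow, zpow_sub₀ (tc_ne t), zpow_natCast, zpow_natCast]
    have h2 : (starRingEnd ℂ) (tc t) = (tc t)⁻¹ := by
      rw [Complex.inv_def, Complex.normSq_eq_norm_sq, norm_tc]; simp
    rw [h2, inv_pow]
    field_simp
  simp_rw [h1]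
  have hI : ∀ k l : ℕ, Integrable (fun t => (a k * (starRingEnd ℂ) (b l)) * tc t ^ ((k : ℤ) - l)) hh := by
    intro k l
    apply integrable_cont_T
    apply continuous_const.mul
    exact continuous_tc.zpow₀ _ (fun t => Or.inl (tc_ne t))
  rw [integral_finsetSum _ (fun k _ => integrable_finsetSum _ (fun l _ => hI k l))]
  apply sum_congr rfl; intro k hk
  rw [integral_finsetSum _ (fun l _ => hI k l)]
  have h3 : ∀ l ∈ range n, ∫ t, (a k * (starRingEnd ℂ) (b l)) * tc t ^ ((k : ℤ) - l) ∂hh =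
      if l = k then a k * (starRingEnd ℂ) (b k) else 0 := by
    intro l _
    rw [integral_const_mul]
    split_ifs with h
    · subst h; simp
    · rw [integral_tc_zpow (by intro h'; apply h; omega), mul_zero]
  rw [sum_congr rfl h3, sum_ite_eq' (range n) k, if_pos hk]

theorem parseval1 (n : ℕ) (a : ℕ → ℂ) :
    ∫ t, ‖∑ k ∈ range n, tc t ^ k * a k‖ ^ 2 ∂hh = ∑ k ∈ range n, ‖a k‖ ^ 2 := by
  have h := parseval2 n a a
  have h1 : ∀ x : ℂ, x * (starRingEnd ℂ) x = ((‖x‖ ^ 2 : ℝ) : ℂ) := by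
    intro x
    rw [Complex.mul_conj, Complex.normSq_eq_norm_sq]
  simp_rw [h1] at h
  rw [integral_complex_ofReal, ← Complex.ofReal_sum] at h
  exact_mod_cast h

/-- The Dirichlet sums. -/
noncomputable def DD (N : ℕ) (τ : ℂ) : ℂ := ∑ k ∈ Finset.Icc (-(N : ℤ)) N, τ ^ k

theorem DD_succ (N : ℕ) (τ : ℂ) : DD (N + 1) τ = DD N τ + τ ^ ((N : ℤ) + 1) + τ ^ (-((N : ℤ) + 1)) := by
  unfold DD
  have h1 : Finset.Icc (-((N + 1 : ℕ) : ℤ)) ((N + 1 : ℕ) : ℤ) =
      insert ((N : ℤ) + 1) (insert (-((N : ℤ) + 1)) (Finset.Icc (-(N : ℤ)) N)) := by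
    ext k
    simp only [Finset.mem_Icc, Finset.mem_insert]
    push_cast
    omega
  rw [h1, sum_insert, sum_insert]
  · ring
  · simp only [Finset.mem_Icc]; omega
  · simp only [Finset.mem_insert, Finset.mem_Icc]; omega

theorem geom_aux (N : ℕ) (τ : ℂ) (hτ : τ ≠ 0) :
    τ ^ N * (∑ i ∈ range N, τ⁻¹ ^ i) * τ + τ = τ ^ N * (∑ i ∈ range N, τ⁻¹ ^ i) + τ ^ (N + 1) := by
  induction N with
  | zero => simp
  | succ N ih =>
    rw [sum_range_succ]
    have e1 : τ ^ (N + 1) * (∑ i ∈ range N, τ⁻¹ ^ i + τ⁻¹ ^ N) = τ * (τ ^ N * (∑ i ∈ range N, τ⁻¹ ^ i)) + τ := by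
      rw [mul_add, inv_pow, pow_succ]
      field_simp
    rw [e1]
    linear_combination τ * ih

theorem DD_eq (N : ℕ) (τ : ℂ) (hτ : τ ≠ 0) :
    DD N τ = (∑ i ∈ range (N + 1), τ ^ i) * (∑ i ∈ range (N + 1), τ⁻¹ ^ i) -
      (∑ i ∈ range N, τ ^ i) * (∑ i ∈ range N, τ⁻¹ ^ i) := by
  induction N with
  | zero => simp [DD]
  | succ N ih =>
    rw [DD_succ, ih]
    have h1 := geom_aux N τ hτ
    have h2 := geom_aux N τ⁻¹ (inv_ne_zero hτ)
    rw [inv_inv] at h2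
    have h3 := geom_aux (N + 1) τ hτ
    have h4 := geom_aux (N + 1) τ⁻¹ (inv_ne_zero hτ)
    rw [inv_inv] at h4
    have e1 : τ ^ ((N : ℤ) + 1) = τ ^ (N + 1) := by
      rw [← zpow_natCast]; push_cast; rfl
    have e2 : τ ^ (-((N : ℤ) + 1)) = τ⁻¹ ^ (N + 1) := by
      rw [zpow_neg, ← inv_zpow, ← zpow_natCast]; push_cast; rfl
    have e3 : τ * τ⁻¹ = 1 := mul_inv_cancel₀ hτ
    rw [e1, e2]
    rw [sum_range_succ (fun i => τ ^ i) (N + 1), sum_range_succ (fun i => τ⁻¹ ^ i) (N + 1),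
      sum_range_succ (fun i => τ ^ i) N, sum_range_succ (fun i => τ⁻¹ ^ i) N] at *
    have e4 : τ ^ N * τ⁻¹ ^ N = 1 := by rw [← mul_pow, e3, one_pow]
    have e5 : τ ^ (N + 1) * τ⁻¹ ^ (N + 1) = 1 := by rw [← mul_pow, e3, one_pow]
    have e6 : τ ^ (N + 1) = τ ^ N * τ := pow_succ _ _
    have e7 : τ⁻¹ ^ (N + 1) = τ⁻¹ ^ N * τ⁻¹ := pow_succ _ _
    have e8 : τ ^ (N + 1) * τ⁻¹ ^ N = τ := by rw [e6]; linear_combination τ * e4
    have e9 : τ⁻¹ ^ (N + 1) * τ ^ N = τ⁻¹ := by rw [e7]; linear_combination τ⁻¹ * e4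
    set Q := ∑ i ∈ range N, τ ^ i
    set Q' := ∑ i ∈ range N, τ⁻¹ ^ i
    have f1 : τ ^ (N + 1) * Q' = τ ^ N * Q' + τ ^ (N + 1) - τ := by rw [e6] at *; linear_combination h1
    have f2 : τ⁻¹ ^ (N + 1) * Q = τ⁻¹ ^ N * Q + τ⁻¹ ^ (N + 1) - τ⁻¹ := by rw [e7] at *; linear_combination h2
    linear_combination -f1 - f2 + e4 - e5 - e8 - e9

/-- The coefficients of the de la Vallee-Poussin kernel. -/
noncomputable def vc (a b : ℕ) (k : ℤ) : ℂ :=
  (∑ N ∈ Finset.Ico a b, if |k| ≤ (N : ℤ) then (1 : ℂ) else 0) / ((b : ℂ) - a)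

theorem vc_one (a b : ℕ) (hab : a < b) (k : ℤ) (hk : |k| ≤ a) : vc a b k = 1 := by
  unfold vc
  have h1 : ∀ N ∈ Finset.Ico a b, (if |k| ≤ (N : ℤ) then (1 : ℂ) else 0) = 1 := by
    intro N hN
    rw [Finset.mem_Ico] at hN
    rw [if_pos]
    have : (a : ℤ) ≤ N := by exact_mod_cast hN.1
    omega
  rw [sum_congr rfl h1]
  simp only [sum_const, Nat.card_Ico, nsmul_eq_mul, mul_one]
  rw [Nat.cast_sub hab.le]
  have : (b : ℂ) - a ≠ 0 := by
    rw [sub_ne_zero]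
    exact_mod_cast hab.ne'
  exact div_self this

theorem vc_sum (a b : ℕ) (τ : ℂ) :
    ∑ k ∈ Finset.Ioo (-(b : ℤ)) b, vc a b k * τ ^ k = (∑ N ∈ Finset.Ico a b, DD N τ) / ((b : ℂ) - a) := by
  unfold vc DD
  have h1 : ∀ k ∈ Finset.Ioo (-(b : ℤ)) b,
      (∑ N ∈ Finset.Ico a b, if |k| ≤ (N : ℤ) then (1 : ℂ) else 0) / ((b : ℂ) - a) * τ ^ k =
      (∑ N ∈ Finset.Ico a b, if |k| ≤ (N : ℤ) then τ ^ k else 0) / ((b : ℂ) - a) := by
    intro k _
    rw [div_mul_eq_mul_div, sum_mul]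
    congr 1
    apply sum_congr rfl
    intro N _
    split_ifs <;> simp
  rw [sum_congr rfl h1, ← sum_div]
  congr 1
  rw [sum_comm]
  apply sum_congr rfl
  intro N hN
  rw [Finset.mem_Ico] at hN
  rw [← sum_filter]
  apply sum_congr _ (fun _ _ => rfl)
  ext k
  simp only [Finset.mem_filter, Finset.mem_Ioo, Finset.mem_Icc]
  rw [abs_le]
  have : (N : ℤ) < b := by exact_mod_cast hN.2
  omega

theorem vc_norm (a b : ℕ) (hab : a < b) :
    ∫ t, ‖∑ k ∈ Finset.Ioo (-(b : ℤ)) b, vc a b k * tc t ^ k‖ ∂hh ≤ ((b : ℝ) + a) / (b - a) := by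
  have hba : (0 : ℝ) < b - a := by
    rw [sub_pos]; exact_mod_cast hab
  have hconj : ∀ t, ∀ N : ℕ, ∑ i ∈ range N, (tc t)⁻¹ ^ i = (starRingEnd ℂ) (∑ i ∈ range N, tc t ^ i) := by
    intro t N
    rw [map_sum]
    apply sum_congr rfl
    intro i _
    have h2 : (starRingEnd ℂ) (tc t) = (tc t)⁻¹ := by
      rw [Complex.inv_def, Complex.normSq_eq_norm_sq, norm_tc]; simp
    rw [map_pow, h2]
  have h1 : ∀ t, ∑ k ∈ Finset.Ioo (-(b : ℤ)) b, vc a b k * tc t ^ k =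
      ((‖∑ i ∈ range b, tc t ^ i‖ ^ 2 - ‖∑ i ∈ range a, tc t ^ i‖ ^ 2 : ℝ) : ℂ) / ((b : ℂ) - a) := by
    intro t
    rw [vc_sum]
    congr 1
    have h2 : ∀ N ∈ Finset.Ico a b, DD N (tc t) =
        (∑ i ∈ range (N + 1), tc t ^ i) * (∑ i ∈ range (N + 1), (tc t)⁻¹ ^ i) -
        (∑ i ∈ range N, tc t ^ i) * (∑ i ∈ range N, (tc t)⁻¹ ^ i) := fun N _ => DD_eq N _ (tc_ne t)
    rw [sum_congr rfl h2, sum_Ico_sub (fun N => (∑ i ∈ range N, tc t ^ i) * (∑ i ∈ range N, (tc t)⁻¹ ^ i)) hab.le]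
    rw [hconj, hconj, Complex.mul_conj, Complex.mul_conj, Complex.normSq_eq_norm_sq, Complex.normSq_eq_norm_sq]
    push_cast
    rfl
  have hp : ∀ N : ℕ, ∫ t, ‖∑ i ∈ range N, tc t ^ i‖ ^ 2 ∂hh = N := by
    intro N
    have := parseval1 N (fun _ => 1)
    simpa using this
  have hc : ∀ N : ℕ, Continuous fun t => ‖∑ i ∈ range N, tc t ^ i‖ ^ 2 := by
    intro N
    have : Continuous fun t => ∑ i ∈ range N, tc t ^ i := by
      apply continuous_finsetSum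
      intro i _
      exact continuous_tc.pow i
    exact this.norm.pow 2
  calc ∫ t, ‖∑ k ∈ Finset.Ioo (-(b : ℤ)) b, vc a b k * tc t ^ k‖ ∂hh
      ≤ ∫ t, (‖∑ i ∈ range b, tc t ^ i‖ ^ 2 + ‖∑ i ∈ range a, tc t ^ i‖ ^ 2) / (b - a) ∂hh := by
        apply integral_mono_of_nonneg
        · exact Filter.Eventually.of_forall fun t => norm_nonneg _
        · exact integrable_cont_T' (((hc b).add (hc a)).div_const _)
        · filter_upwards with t
          rw [h1, norm_div, Complex.norm_real, Real.norm_eq_abs]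
          have h3 : ‖(b : ℂ) - a‖ = (b : ℝ) - a := by
            have : (b : ℂ) - a = (((b : ℝ) - a : ℝ) : ℂ) := by push_cast; rfl
            rw [this, Complex.norm_real, Real.norm_of_nonneg hba.le]
          rw [h3]
          apply div_le_div_of_nonneg_right _ hba.le
          refine (abs_sub _ _).trans ?_
          rw [abs_of_nonneg (by positivity), abs_of_nonneg (by positivity)]
    _ = ((b : ℝ) + a) / (b - a) := by
        rw [integral_div, integral_add (integrable_cont_T' (hc b)) (integrable_cont_T' (hc a)), hp, hp]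

end Pool.Agent.H155R3
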