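import Pool.Agent.H155R3.H3
import Pool.Agent.H155R3.H4

set_option autoImplicit false

/-!
# Moments
-/

namespace Pool.Agent.H155R3

open MeasureTheory Finset

/-- Sum of phases. -/
noncomputable def SS (c : ℕ → ℕ) (M : ℕ) (z : Om) : ℂ := ∑ i ∈ range M, ch (c i) z

/-- Elementary symmetric functions of the phases. -/
noncomputable def ee (c : ℕ → ℕ) (M d : ℕ) (z : Om) : ℂ := ∑ A ∈ powersetCard d (range M), ∏ i ∈ A, ch (c i) z

theorem SS_succ (c : ℕ → ℕ) (M : ℕ) (z : Om) : SS c (M + 1) z = SS c M z + ch (c M) z := by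
  unfold SS; rw [sum_range_succ]

theorem ee_zero (c : ℕ → ℕ) (M : ℕ) (z : Om) : ee c M 0 z = 1 := by
  unfold ee; simp

theorem ee_zero_succ (c : ℕ → ℕ) (d : ℕ) (z : Om) : ee c 0 (d + 1) z = 0 := by
  unfold ee
  rw [Finset.range_zero, powersetCard_eq_empty.mpr (by simp)]
  simp

theorem ee_succ (c : ℕ → ℕ) (M d : ℕ) (z : Om) :
    ee c (M + 1) (d + 1) z = ee c M (d + 1) z + ch (c M) z * ee c M d z := by
  unfold ee
  rw [Finset.range_add_one, powersetCard_succ_insert notMem_range_self, sum_union, sum_image]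
  · congr 1
    rw [mul_sum]
    apply sum_congr rfl
    intro A hA
    rw [mem_powersetCard] at hA
    rw [prod_insert (fun h => notMem_range_self (hA.1 h))]
  · intro A hA B hB h
    have hA' : M ∉ A := fun h' => notMem_range_self ((mem_powersetCard.mp (mem_coe.mp hA)).1 h')
    have hB' : M ∉ B := fun h' => notMem_range_self ((mem_powersetCard.mp (mem_coe.mp hB)).1 h')
    have h1 := congrArg (fun s => Finset.erase s M) h
    simp only [Finset.erase_insert hA', Finset.erase_insert hB'] at h1
    exact h1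
  · rw [Finset.disjoint_left]
    intro A hA hA'
    rw [mem_image] at hA'
    obtain ⟨B, _, rfl⟩ := hA'
    exact notMem_range_self ((mem_powersetCard.mp hA).1 (mem_insert_self _ _))

theorem continuous_SS (c : ℕ → ℕ) (M : ℕ) : Continuous (SS c M) := by
  unfold SS
  exact continuous_finsetSum _ fun i _ => continuous_ch _

theorem continuous_ee (c : ℕ → ℕ) (M d : ℕ) : Continuous (ee c M d) := by
  unfold ee
  exact continuous_finsetSum _ fun A _ => continuous_finsetProd _ fun i _ => continuous_ch _

theorem SS_shift (c : ℕ → ℕ) (hc : Function.Injective c) (M : ℕ) (t : TT) (z : Om) :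
    SS c M (z + Pi.single (c M) t) = SS c M z := by
  unfold SS
  apply sum_congr rfl
  intro i hi
  rw [ch_shift_ne]
  intro h
  have := hc h
  rw [mem_range] at hi
  omega

theorem ee_shift (c : ℕ → ℕ) (hc : Function.Injective c) (M d : ℕ) (t : TT) (z : Om) :
    ee c M d (z + Pi.single (c M) t) = ee c M d z := by
  unfold ee
  apply sum_congr rfl
  intro A hA
  apply prod_congr rfl
  intro i hi
  rw [ch_shift_ne]
  intro h
  have := hc h
  have h2 := (mem_powersetCard.mp hA).1 hi
  rw [mem_range] at h2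
  omega

theorem conj_ch (i : ℕ) (z : Om) : ch i z * (starRingEnd ℂ) (ch i z) = 1 := by
  rw [Complex.mul_conj, Complex.normSq_eq_norm_sq, norm_ch]; simp

theorem step_bilinear (j : ℕ) (n : ℕ) (a b : ℕ → Om → ℂ) (ha : ∀ k, Continuous (a k)) (hb : ∀ k, Continuous (b k))
    (ha' : ∀ k t z, a k (z + Pi.single j t) = a k z) (hb' : ∀ k t z, b k (z + Pi.single j t) = b k z) :
    ∫ z, (∑ k ∈ range n, ch j z ^ k * a k z) * (starRingEnd ℂ) (∑ k ∈ range n, ch j z ^ k * b k z) ∂mu =
      ∑ k ∈ range n, ∫ z, a k z * (starRingEnd ℂ) (b k z) ∂mu := by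
  set F : Om → ℂ := fun z => (∑ k ∈ range n, ch j z ^ k * a k z) * (starRingEnd ℂ) (∑ k ∈ range n, ch j z ^ k * b k z) with hF
  have hFc : Continuous F := by
    apply Continuous.mul
    · exact continuous_finsetSum _ fun k _ => ((continuous_ch j).pow k).mul (ha k)
    · exact Complex.continuous_conj.comp (continuous_finsetSum _ fun k _ => ((continuous_ch j).pow k).mul (hb k))
  obtain ⟨C, hC⟩ := (isCompact_range hFc).isBounded.exists_norm_le
  rw [avg_shift hh (fun t => (Pi.single j t : Om)) (continuous_shift j).measurable F hFc.stronglyMeasurable C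
    (fun z => hC _ ⟨z, rfl⟩)]
  rw [← integral_finsetSum]
  · apply integral_congr_ae
    filter_upwards with z
    have h1 : ∀ t, F (z + Pi.single j t) =
        (∑ k ∈ range n, tc t ^ k * (ch j z ^ k * a k z)) * (starRingEnd ℂ) (∑ k ∈ range n, tc t ^ k * (ch j z ^ k * b k z)) := by
      intro t
      simp only [hF, ch_shift_eq, ha', hb']
      congr 1
      · apply sum_congr rfl; intro k _; ring
      · congr 1; apply sum_congr rfl; intro k _; ring
    simp_rw [h1]
    rw [parseval2]
    apply sum_congr rfl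
    intro k _
    rw [map_mul, map_pow]
    have h2 : ch j z ^ k * (starRingEnd ℂ) (ch j z) ^ k = 1 := by
      rw [← mul_pow, conj_ch, one_pow]
    linear_combination (a k z * (starRingEnd ℂ) (b k z)) * h2
  · intro k _
    exact integrable_cont_Om ((ha k).mul (Complex.continuous_conj.comp (hb k)))

theorem norm_pow_eq (x : ℂ) (l : ℕ) : ((‖x‖ ^ (2 * l) : ℝ) : ℂ) = x ^ l * (starRingEnd ℂ) (x ^ l) := by
  rw [Complex.mul_conj, Complex.normSq_eq_norm_sq, norm_pow]
  push_cast
  ring

theorem R_rec (c : ℕ → ℕ) (hc : Function.Injective c) (M l : ℕ) :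
    ∫ z, ‖SS c (M + 1) z‖ ^ (2 * l) ∂mu =
      ∑ k ∈ range (l + 1), (l.choose k : ℝ) ^ 2 * ∫ z, ‖SS c M z‖ ^ (2 * (l - k)) ∂mu := by
  have h1 : ((∫ z, ‖SS c (M + 1) z‖ ^ (2 * l) ∂mu : ℝ) : ℂ) =
      ∑ k ∈ range (l + 1), ∫ z, ((l.choose k : ℂ) * SS c M z ^ (l - k)) *
        (starRingEnd ℂ) ((l.choose k : ℂ) * SS c M z ^ (l - k)) ∂mu := by
    rw [← integral_complex_ofReal]
    rw [← step_bilinear (c M) (l + 1) (fun k z => (l.choose k : ℂ) * SS c M z ^ (l - k))
      (fun k z => (l.choose k : ℂ) * SS c M z ^ (l - k))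
      (fun k => continuous_const.mul ((continuous_SS c M).pow _))
      (fun k => continuous_const.mul ((continuous_SS c M).pow _))
      (fun k t z => by rw [SS_shift c hc]) (fun k t z => by rw [SS_shift c hc])]
    apply integral_congr_ae
    filter_upwards with z
    rw [norm_pow_eq]
    have h2 : SS c (M + 1) z ^ l = ∑ k ∈ range (l + 1), ch (c M) z ^ k * ((l.choose k : ℂ) * SS c M z ^ (l - k)) := by
      rw [SS_succ, add_comm, add_pow]
      apply sum_congr rfl
      intro k _
      ring
    rw [h2]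
  have h3 : ∀ k, ∫ z, ((l.choose k : ℂ) * SS c M z ^ (l - k)) *
        (starRingEnd ℂ) ((l.choose k : ℂ) * SS c M z ^ (l - k)) ∂mu =
      (((l.choose k : ℝ) ^ 2 * ∫ z, ‖SS c M z‖ ^ (2 * (l - k)) ∂mu : ℝ) : ℂ) := by
    intro k
    rw [← integral_const_mul, ← integral_complex_ofReal]
    apply integral_congr_ae
    filter_upwards with z
    push_cast
    have := norm_pow_eq (SS c M z) (l - k)
    push_cast at this
    rw [this, map_mul, Complex.conj_natCast, map_pow]
    ring
  simp_rw [h3] at h1
  exact_mod_cast h1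

theorem R_le (c : ℕ → ℕ) (hc : Function.Injective c) (M : ℕ) : ∀ l : ℕ,
    ∫ z, ‖SS c M z‖ ^ (2 * l) ∂mu ≤ (l.factorial : ℝ) * (M : ℝ) ^ l := by
  induction M with
  | zero =>
    intro l
    have h0 : ∀ z, SS c 0 z = 0 := fun z => by simp [SS]
    simp_rw [h0]
    rcases Nat.eq_zero_or_pos l with rfl | hl
    · simp
    · rw [norm_zero, zero_pow (by omega)]
      simp [hl.ne']
  | succ M ih =>
    intro l
    rw [R_rec c hc]
    have h1 : ∀ k ∈ range (l + 1), (l.choose k : ℝ) ^ 2 * ∫ z, ‖SS c M z‖ ^ (2 * (l - k)) ∂mu ≤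
        (l.factorial : ℝ) * ((M : ℝ) ^ (l - k) * (l.choose k : ℝ)) := by
      intro k hk
      rw [mem_range] at hk
      have h2 : (l.choose k : ℝ) * ((l - k).factorial : ℝ) ≤ (l.factorial : ℝ) := by
        have h3 := Nat.choose_mul_factorial_mul_factorial (show k ≤ l by omega)
        have h4 : l.choose k * (l - k).factorial ≤ l.factorial := by
          rw [← h3]
          have := Nat.factorial_pos k
          calc l.choose k * (l - k).factorial = l.choose k * 1 * (l - k).factorial := by ring
            _ ≤ l.choose k * k.factorial * (l - k).factorial := by gcongr; omega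
        exact_mod_cast h4
      calc (l.choose k : ℝ) ^ 2 * ∫ z, ‖SS c M z‖ ^ (2 * (l - k)) ∂mu
          ≤ (l.choose k : ℝ) ^ 2 * (((l - k).factorial : ℝ) * (M : ℝ) ^ (l - k)) :=
            mul_le_mul_of_nonneg_left (ih (l - k)) (by positivity)
        _ = ((l.choose k : ℝ) * ((l - k).factorial : ℝ)) * ((M : ℝ) ^ (l - k) * (l.choose k : ℝ)) := by ring
        _ ≤ (l.factorial : ℝ) * ((M : ℝ) ^ (l - k) * (l.choose k : ℝ)) :=
            mul_le_mul_of_nonneg_right h2 (by positivity)
    refine (sum_le_sum h1).trans (le_of_eq ?_)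
    rw [← mul_sum]
    congr 1
    push_cast
    rw [add_comm (M : ℝ) 1, add_pow]
    apply sum_congr rfl
    intro k _
    ring

theorem J_eq (c : ℕ → ℕ) (hc : Function.Injective c) (M : ℕ) : ∀ d : ℕ,
    ∫ z, SS c M z ^ d * (starRingEnd ℂ) (ee c M d z) ∂mu = (d.factorial : ℂ) * (M.choose d : ℂ) := by
  induction M with
  | zero =>
    intro d
    rcases Nat.eq_zero_or_pos d with rfl | hd
    · simp [ee_zero]
    · obtain ⟨e, rfl⟩ := Nat.exists_eq_succ_of_ne_zero hd.ne'
      simp [ee_zero_succ]
  | succ M ih =>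
    intro d
    rcases Nat.eq_zero_or_pos d with rfl | hd
    · simp [ee_zero]
    · obtain ⟨e, rfl⟩ := Nat.exists_eq_succ_of_ne_zero hd.ne'
      rw [Nat.succ_eq_add_one]
      have h1 : ∀ z, SS c (M + 1) z ^ (e + 1) * (starRingEnd ℂ) (ee c (M + 1) (e + 1) z) =
          (∑ k ∈ range (e + 2), ch (c M) z ^ k * (((e + 1).choose k : ℂ) * SS c M z ^ (e + 1 - k))) *
          (starRingEnd ℂ) (∑ k ∈ range (e + 2), ch (c M) z ^ k *
            (if k = 0 then ee c M (e + 1) z else if k = 1 then ee c M e z else 0)) := by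
        intro z
        congr 1
        · rw [SS_succ, add_comm, add_pow]
          apply sum_congr rfl
          intro k _
          ring
        · congr 1
          rw [ee_succ, sum_range_succ', sum_range_succ']
          simp [add_comm]
      simp_rw [h1]
      rw [step_bilinear (c M) (e + 2) (fun k z => ((e + 1).choose k : ℂ) * SS c M z ^ (e + 1 - k))
        (fun k z => if k = 0 then ee c M (e + 1) z else if k = 1 then ee c M e z else 0)
        (fun k => continuous_const.mul ((continuous_SS c M).pow _))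
        (fun k => by
          by_cases h0 : k = 0
          · simp only [h0, if_true]; exact continuous_ee _ _ _
          · by_cases h2 : k = 1
            · simp only [h2, one_ne_zero, if_false, if_true]; exact continuous_ee _ _ _
            · simp only [h0, h2, if_false]; exact continuous_const)
        (fun k t z => by rw [SS_shift c hc]) (fun k t z => by simp only [ee_shift c hc])]
      rw [sum_range_succ', sum_range_succ']
      have h2 : ∀ k ∈ range e, ∫ z, ((e + 1).choose (k + 1 + 1) : ℂ) * SS c M z ^ (e + 1 - (k + 1 + 1)) *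
          (starRingEnd ℂ) (if k + 1 + 1 = 0 then ee c M (e + 1) z else if k + 1 + 1 = 1 then ee c M e z else 0) ∂mu = 0 := by
        intro k _
        simp
      rw [sum_eq_zero h2]
      have h3 := ih (e + 1)
      have h4 := ih e
      simp only [zero_add, Nat.choose_one_right, Nat.add_sub_cancel, if_true, one_ne_zero, if_false, Nat.choose_zero_right,
        Nat.cast_one, one_mul, Nat.sub_zero]
      rw [h3]
      have h5 : ∫ z, ((e + 1 : ℕ) : ℂ) * SS c M z ^ e * (starRingEnd ℂ) (ee c M e z) ∂mu =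
          ((e + 1 : ℕ) : ℂ) * ((e.factorial : ℂ) * (M.choose e : ℂ)) := by
        rw [← h4, ← integral_const_mul]
        apply integral_congr_ae
        filter_upwards with z
        ring
      rw [h5, Nat.choose_succ_succ, Nat.factorial_succ]
      push_cast
      ring

theorem r_eq (c : ℕ → ℕ) (hc : Function.Injective c) (M : ℕ) : ∀ d : ℕ,
    ∫ z, ee c M d z * (starRingEnd ℂ) (ee c M d z) ∂mu = (M.choose d : ℂ) := by
  induction M with
  | zero =>
    intro d
    rcases Nat.eq_zero_or_pos d with rfl | hd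
    · simp [ee_zero]
    · obtain ⟨e, rfl⟩ := Nat.exists_eq_succ_of_ne_zero hd.ne'
      simp [ee_zero_succ]
  | succ M ih =>
    intro d
    rcases Nat.eq_zero_or_pos d with rfl | hd
    · simp [ee_zero]
    · obtain ⟨e, rfl⟩ := Nat.exists_eq_succ_of_ne_zero hd.ne'
      rw [Nat.succ_eq_add_one]
      set b : ℕ → Om → ℂ := fun k z => if k = 0 then ee c M (e + 1) z else ee c M e z with hb
      have hbc : ∀ k, Continuous (b k) := by
        intro k
        by_cases h0 : k = 0
        · simp only [hb, h0, if_true]; exact continuous_ee _ _ _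
        · simp only [hb, h0, if_false]; exact continuous_ee _ _ _
      have h1 : ∀ z, ee c (M + 1) (e + 1) z = ∑ k ∈ range 2, ch (c M) z ^ k * b k z := by
        intro z
        rw [ee_succ, sum_range_succ, sum_range_succ]
        simp [hb]
      simp_rw [h1]
      rw [step_bilinear (c M) 2 b b hbc hbc (fun k t z => by simp only [hb, ee_shift c hc])
        (fun k t z => by simp only [hb, ee_shift c hc])]
      rw [sum_range_succ, sum_range_succ]
      simp only [hb, range_zero, sum_empty, zero_add, if_true, one_ne_zero, if_false]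
      rw [ih (e + 1), ih e, Nat.choose_succ_succ]
      push_cast
      ring

theorem r_real (c : ℕ → ℕ) (hc : Function.Injective c) (M d : ℕ) :
    ∫ z, ‖ee c M d z‖ ^ 2 ∂mu = (M.choose d : ℝ) := by
  have h1 := r_eq c hc M d
  have h2 : ∀ z, ee c M d z * (starRingEnd ℂ) (ee c M d z) = ((‖ee c M d z‖ ^ 2 : ℝ) : ℂ) := by
    intro z
    rw [Complex.mul_conj, Complex.normSq_eq_norm_sq]
  simp_rw [h2] at h1
  rw [integral_complex_ofReal] at h1
  exact_mod_cast h1

theorem D_eq (c : ℕ → ℕ) (hc : Function.Injective c) (M d : ℕ) :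
    ∫ z, ‖SS c M z ^ d - (d.factorial : ℂ) * ee c M d z‖ ^ 2 ∂mu =
      (∫ z, ‖SS c M z‖ ^ (2 * d) ∂mu) - (d.factorial : ℝ) ^ 2 * (M.choose d : ℝ) := by
  have h1 : ∀ z, ‖SS c M z ^ d - (d.factorial : ℂ) * ee c M d z‖ ^ 2 =
      ‖SS c M z‖ ^ (2 * d) + (d.factorial : ℝ) ^ 2 * ‖ee c M d z‖ ^ 2 -
        2 * (d.factorial : ℝ) * (SS c M z ^ d * (starRingEnd ℂ) (ee c M d z)).re := by
    intro z
    rw [Complex.sq_norm, Complex.normSq_sub, Complex.normSq_mul, Complex.normSq_natCast, Complex.normSq_eq_norm_sq,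
      Complex.normSq_eq_norm_sq, norm_pow, map_mul, Complex.conj_natCast]
    have : (SS c M z ^ d * ((d.factorial : ℂ) * (starRingEnd ℂ) (ee c M d z))).re =
        (d.factorial : ℝ) * (SS c M z ^ d * (starRingEnd ℂ) (ee c M d z)).re := by
      have e : SS c M z ^ d * ((d.factorial : ℂ) * (starRingEnd ℂ) (ee c M d z)) =
        ((d.factorial : ℝ) : ℂ) * (SS c M z ^ d * (starRingEnd ℂ) (ee c M d z)) := by push_cast; ring
      rw [e, Complex.re_ofReal_mul]
    rw [this]
    ring
  have hI1 : Integrable (fun z => ‖SS c M z‖ ^ (2 * d)) mu := integrable_cont_Om' ((continuous_SS c M).norm.pow _)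
  have hI2 : Integrable (fun z => ‖ee c M d z‖ ^ 2) mu := integrable_cont_Om' ((continuous_ee c M d).norm.pow _)
  have hI3 : Integrable (fun z => SS c M z ^ d * (starRingEnd ℂ) (ee c M d z)) mu :=
    integrable_cont_Om (((continuous_SS c M).pow d).mul (Complex.continuous_conj.comp (continuous_ee c M d)))
  have h2 : ∫ z, (SS c M z ^ d * (starRingEnd ℂ) (ee c M d z)).re ∂mu = (d.factorial : ℝ) * (M.choose d : ℝ) := by
    have h3 := Complex.reCLM.integral_comp_comm hI3
    simp only [Complex.reCLM_apply] at h3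
    rw [h3, J_eq c hc]
    have : (d.factorial : ℂ) * (M.choose d : ℂ) = (((d.factorial : ℝ) * (M.choose d : ℝ) : ℝ) : ℂ) := by push_cast; rfl
    rw [this, Complex.ofReal_re]
  simp_rw [h1]
  have hI4 : Integrable (fun z => (SS c M z ^ d * (starRingEnd ℂ) (ee c M d z)).re) mu := hI3.re
  have hI5 : Integrable (fun z => ‖SS c M z‖ ^ (2 * d) + (d.factorial : ℝ) ^ 2 * ‖ee c M d z‖ ^ 2) mu :=
    hI1.add (hI2.const_mul _)
  rw [integral_sub hI5 (hI4.const_mul _), integral_add hI1 (hI2.const_mul _),
    integral_const_mul, integral_const_mul, r_real c hc, h2]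
  ring

end Pool.Agent.H155R3
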