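import Pool.Agent.H155R3.H5

set_option autoImplicit false

/-!
# Multi-affine polynomials which behave like powers of a unimodular function
-/

namespace Pool.Agent.H155R3

open MeasureTheory Finset

theorem theta_lower (M l : ℕ) (hM : 1 ≤ M) (hl : l ≤ M) :
    1 - (l : ℝ) ^ 2 / M ≤ (l.factorial : ℝ) * (M.choose l : ℝ) / (M : ℝ) ^ l := by
  have hM0 : (0 : ℝ) < M := by exact_mod_cast hM
  have h1 : ((M + 1 - l : ℕ) : ℝ) ^ l ≤ (l.factorial : ℝ) * (M.choose l : ℝ) := by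
    have h2 := Nat.pow_sub_le_descFactorial M l
    rw [Nat.descFactorial_eq_factorial_mul_choose] at h2
    exact_mod_cast h2
  have h3 : (M : ℝ) - l ≤ ((M + 1 - l : ℕ) : ℝ) := by
    rw [Nat.cast_sub (by omega)]; push_cast; linarith
  have h4 : (0 : ℝ) ≤ (M : ℝ) - l := by
    rw [sub_nonneg]; exact_mod_cast hl
  rw [le_div_iff₀ (by positivity)]
  have h5 : ((M : ℝ) - l) ^ l ≤ (l.factorial : ℝ) * (M.choose l : ℝ) :=
    (pow_le_pow_left₀ h4 h3 l).trans h1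
  refine le_trans ?_ h5
  have h6 : ((M : ℝ) - l) ^ l = (1 + (-(l : ℝ) / M)) ^ l * (M : ℝ) ^ l := by
    rw [← mul_pow]; congr 1; field_simp; ring
  rw [h6]
  apply mul_le_mul_of_nonneg_right _ (by positivity)
  have h7 : (-2 : ℝ) ≤ -(l : ℝ) / M := by
    rw [le_div_iff₀ hM0]
    have : (l : ℝ) ≤ M := by exact_mod_cast hl
    linarith
  have h8 := one_add_mul_le_pow h7 l
  have h9 : 1 + (l : ℝ) * (-(l : ℝ) / M) = 1 - (l : ℝ) ^ 2 / M := by ring
  linarith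

/-- The direction of the sum. -/
noncomputable def om (c : ℕ → ℕ) (M : ℕ) (z : Om) : ℂ := SS c M z / (‖SS c M z‖ : ℂ)

theorem om_norm_le (c : ℕ → ℕ) (M : ℕ) (z : Om) : ‖om c M z‖ ≤ 1 := by
  unfold om
  rw [norm_div, Complex.norm_real, norm_norm]
  exact div_self_le_one _

theorem om_norm_eq (c : ℕ → ℕ) (M : ℕ) (z : Om) (h : SS c M z ≠ 0) : ‖om c M z‖ = 1 := by
  unfold om
  rw [norm_div, Complex.norm_real, norm_norm, div_self (norm_ne_zero_iff.mpr h)]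

theorem om_mul (c : ℕ → ℕ) (M : ℕ) (z : Om) : om c M z * (‖SS c M z‖ : ℂ) = SS c M z := by
  unfold om
  by_cases h : SS c M z = 0
  · simp [h]
  · have : (‖SS c M z‖ : ℂ) ≠ 0 := by exact_mod_cast norm_ne_zero_iff.mpr h
    field_simp

theorem measurable_om (c : ℕ → ℕ) (M : ℕ) : Measurable (om c M) := by
  unfold om
  have h := (continuous_SS c M).measurable
  exact h.div (Complex.measurable_ofReal.comp h.norm)

theorem SS_rot (c : ℕ → ℕ) (M : ℕ) (t : TT) (z : Om) : SS c M (z + fun _ => t) = tc t * SS c M z := by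
  unfold SS
  rw [mul_sum]
  apply sum_congr rfl
  intro i _
  rw [ch_add, mul_comm]
  rfl

theorem om_rot (c : ℕ → ℕ) (M : ℕ) (t : TT) (z : Om) : om c M (z + fun _ => t) = tc t * om c M z := by
  unfold om
  rw [SS_rot, norm_mul, norm_tc, one_mul]
  ring

/-- The normalising constants. -/
noncomputable def lam (c : ℕ → ℕ) (M d : ℕ) : ℂ := ∫ z, ee c M d z * (starRingEnd ℂ) (om c M z) ^ d ∂mu

theorem exists_tc (x : ℂ) (hx : ‖x‖ = 1) : ∃ s : TT, tc s = x := by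
  refine ⟨((Complex.arg x / (2 * Real.pi) : ℝ) : TT), ?_⟩
  unfold tc
  rw [AddCircle.toCircle_apply_mk, Circle.coe_exp]
  have h1 : (2 * Real.pi / 1 * (Complex.arg x / (2 * Real.pi)) : ℝ) = Complex.arg x := by
    have := Real.pi_pos
    field_simp
  rw [h1]
  have := Complex.norm_mul_exp_arg_mul_I x
  rw [hx] at this
  simpa using this

theorem rot_mean (K : ℕ) (v : ℕ → ℂ) (x : ℂ) (hx : ‖x‖ = 1) :
    ∫ t, ‖∑ j ∈ range K, v j * (tc t * x) ^ j‖ ∂hh = ∫ t, ‖∑ j ∈ range K, v j * tc t ^ j‖ ∂hh := by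
  obtain ⟨s, rfl⟩ := exists_tc x hx
  have := integral_add_right_eq_self (μ := hh) (fun t => ‖∑ j ∈ range K, v j * tc t ^ j‖) s
  rw [← this]
  apply integral_congr_ae
  filter_upwards with t
  rw [tc_add]

theorem int_norm_le {F : Om → ℂ} (hF : AEStronglyMeasurable F mu) (δ : ℝ) (hδ : 0 < δ)
    (hI : Integrable (fun z => ‖F z‖ ^ 2) mu) (h : ∫ z, ‖F z‖ ^ 2 ∂mu ≤ δ ^ 2) : ∫ z, ‖F z‖ ∂mu ≤ δ := by
  have h1 : ∀ z, ‖F z‖ ≤ δ / 2 + ‖F z‖ ^ 2 / (2 * δ) := by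
    intro z
    have h2 : δ / 2 + ‖F z‖ ^ 2 / (2 * δ) = (δ ^ 2 + ‖F z‖ ^ 2) / (2 * δ) := by field_simp
    rw [h2, le_div_iff₀ (by positivity)]
    nlinarith [sq_nonneg (δ - ‖F z‖)]
  calc ∫ z, ‖F z‖ ∂mu ≤ ∫ z, (δ / 2 + ‖F z‖ ^ 2 / (2 * δ)) ∂mu := by
        apply integral_mono_of_nonneg (Filter.Eventually.of_forall fun z => norm_nonneg _)
        · exact (integrable_const _).add (hI.div_const _)
        · exact Filter.Eventually.of_forall h1
    _ = δ / 2 + (∫ z, ‖F z‖ ^ 2 ∂mu) / (2 * δ) := by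
        rw [integral_add (integrable_const _) (hI.div_const _), integral_div (2 * δ)]
        simp
    _ ≤ δ / 2 + δ ^ 2 / (2 * δ) := by gcongr
    _ = δ := by field_simp; ring

theorem weighted_le {P y : Om → ℝ} (hP : Continuous P) (hy : Continuous y) (hP0 : ∀ z, 0 ≤ P z)
    (hP1 : ∫ z, P z ∂mu ≤ 1) (δ : ℝ) (hδ : 0 < δ) (h : ∫ z, P z * y z ^ 2 ∂mu ≤ δ ^ 2) :
    ∫ z, P z * |y z| ∂mu ≤ δ := by
  have h1 : ∀ z, P z * |y z| ≤ (δ / 2) * P z + (P z * y z ^ 2) / (2 * δ) := by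
    intro z
    have h2 : |y z| ≤ δ / 2 + y z ^ 2 / (2 * δ) := by
      have h3 : δ / 2 + y z ^ 2 / (2 * δ) = (δ ^ 2 + |y z| ^ 2) / (2 * δ) := by rw [sq_abs]; field_simp
      rw [h3, le_div_iff₀ (by positivity)]
      nlinarith [sq_nonneg (δ - |y z|)]
    calc P z * |y z| ≤ P z * (δ / 2 + y z ^ 2 / (2 * δ)) := mul_le_mul_of_nonneg_left h2 (hP0 z)
      _ = _ := by ring
  have hI1 : Integrable P mu := integrable_cont_Om' hP
  have hI2 : Integrable (fun z => P z * y z ^ 2) mu := integrable_cont_Om' (hP.mul (hy.pow 2))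
  calc ∫ z, P z * |y z| ∂mu ≤ ∫ z, ((δ / 2) * P z + (P z * y z ^ 2) / (2 * δ)) ∂mu := by
        apply integral_mono (integrable_cont_Om' (hP.mul hy.abs)) _ h1
        exact (hI1.const_mul _).add (hI2.div_const _)
    _ = (δ / 2) * (∫ z, P z ∂mu) + (∫ z, P z * y z ^ 2 ∂mu) / (2 * δ) := by
        rw [integral_add (hI1.const_mul _) (hI2.div_const _), integral_div, integral_const_mul]
    _ ≤ (δ / 2) * 1 + δ ^ 2 / (2 * δ) := by gcongr
    _ = δ := by field_simp; ring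

/-- Choice of the parameters. -/
theorem exists_params (K : ℕ) (δ : ℝ) (hδ : 0 < δ) : ∃ m M : ℕ, 1 ≤ m ∧ 1 ≤ M ∧
    (∀ j ≤ K, ((m + 2 * j).factorial : ℝ) / ((m.factorial : ℝ) * ((m : ℝ) + 1) ^ (2 * j)) ≤ 1 + δ) ∧
    ∀ l ≤ 2 * m + K, 2 * m + K ≤ M ∧ (l : ℝ) ^ 2 / M ≤ δ ∧ (l.factorial : ℝ) * ((l : ℝ) ^ 2 / M) ≤ δ := by
  -- first the choice of m
  have h1 : ∃ m : ℕ, 1 ≤ m ∧ (((m : ℝ) + 2 * K) / ((m : ℝ) + 1)) ^ (2 * K) ≤ 1 + δ ∧ (1 : ℝ) ≤ ((m : ℝ) + 2 * K + 1) / ((m : ℝ) + 1) := by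
    have h2 : Filter.Tendsto (fun m : ℕ => (((m : ℝ) + 2 * K) / ((m : ℝ) + 1)) ^ (2 * K)) Filter.atTop (nhds 1) := by
      have h3 : Filter.Tendsto (fun m : ℕ => 1 + (2 * (K : ℝ) - 1) * (1 / ((m : ℝ) + 1))) Filter.atTop (nhds (1 + (2 * (K : ℝ) - 1) * 0)) :=
        tendsto_const_nhds.add (tendsto_one_div_add_atTop_nhds_zero_nat.const_mul _)
      rw [mul_zero, add_zero] at h3
      have h4 := h3.pow (2 * K)
      rw [one_pow] at h4
      refine h4.congr (fun m => ?_)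
      congr 1
      have : (m : ℝ) + 1 ≠ 0 := by positivity
      field_simp
      ring
    have h3 := (h2.eventually_lt_const (show (1 : ℝ) < 1 + δ by linarith)).and (Filter.eventually_ge_atTop 1)
    obtain ⟨m, hm1, hm2⟩ := h3.exists
    refine ⟨m, hm2, hm1.le, ?_⟩
    rw [le_div_iff₀ (by positivity)]
    have : (0 : ℝ) ≤ K := Nat.cast_nonneg K
    linarith
  obtain ⟨m, hm, hm2, _⟩ := h1
  obtain ⟨M₀, hM₀⟩ := exists_nat_gt ((((2 * m + K).factorial : ℝ) * ((2 * m + K : ℕ) : ℝ) ^ 2) / δ)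
  refine ⟨m, max M₀ (2 * m + K), hm, by omega, ?_, ?_⟩
  · intro j hj
    have h2 : ((m + 2 * j).factorial : ℝ) ≤ (m.factorial : ℝ) * ((m : ℝ) + 2 * K) ^ (2 * j) := by
      have h3 := Nat.factorial_mul_ascFactorial m (2 * j)
      have h4 := Nat.ascFactorial_le_pow_add m (2 * j)
      rw [← h3]
      push_cast
      apply mul_le_mul_of_nonneg_left _ (by positivity)
      calc ((m + 1).ascFactorial (2 * j) : ℝ) ≤ ((m + 2 * j : ℕ) : ℝ) ^ (2 * j) := by exact_mod_cast h4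
        _ ≤ ((m : ℝ) + 2 * K) ^ (2 * j) := by
          apply pow_le_pow_left₀ (by positivity)
          push_cast
          have : (j : ℝ) ≤ K := by exact_mod_cast hj
          linarith
    have h3 : ((m + 2 * j).factorial : ℝ) / ((m.factorial : ℝ) * ((m : ℝ) + 1) ^ (2 * j)) ≤
        (((m : ℝ) + 2 * K) / ((m : ℝ) + 1)) ^ (2 * j) := by
      rw [div_pow, div_le_div_iff₀ (by positivity) (by positivity)]
      nlinarith [pow_pos (show (0:ℝ) < (m : ℝ) + 1 by positivity) (2 * j)]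
    refine h3.trans (le_trans ?_ hm2)
    rcases Nat.eq_zero_or_pos K with hK | hK
    · have : j = 0 := by omega
      subst this; subst hK; simp
    · apply pow_le_pow_right₀ _ (by omega)
      rw [le_div_iff₀ (by positivity)]
      have : (1 : ℝ) ≤ K := by exact_mod_cast hK
      linarith
  · intro l hl
    have hMpos : (0 : ℝ) < ((max M₀ (2 * m + K) : ℕ) : ℝ) := by
      have : 0 < max M₀ (2 * m + K) := by omega
      exact_mod_cast this
    have h2 : (l.factorial : ℝ) * (l : ℝ) ^ 2 ≤ ((2 * m + K).factorial : ℝ) * ((2 * m + K : ℕ) : ℝ) ^ 2 := by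
      have h3 : (l.factorial : ℝ) ≤ ((2 * m + K).factorial : ℝ) := by exact_mod_cast Nat.factorial_le hl
      have h4 : (l : ℝ) ≤ ((2 * m + K : ℕ) : ℝ) := by exact_mod_cast hl
      gcongr
    have h3 : ((2 * m + K).factorial : ℝ) * ((2 * m + K : ℕ) : ℝ) ^ 2 ≤ δ * ((max M₀ (2 * m + K) : ℕ) : ℝ) := by
      rw [div_lt_iff₀ hδ] at hM₀
      have : (M₀ : ℝ) ≤ ((max M₀ (2 * m + K) : ℕ) : ℝ) := by exact_mod_cast le_max_left _ _
      nlinarith
    have h4 : (1 : ℝ) ≤ (l.factorial : ℝ) := by exact_mod_cast Nat.factorial_pos l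
    refine ⟨le_max_right _ _, ?_, ?_⟩
    · rw [div_le_iff₀ hMpos]
      nlinarith [sq_nonneg (l : ℝ)]
    · rw [← mul_div_assoc, div_le_iff₀ hMpos]
      linarith

end Pool.Agent.H155R3
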