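import Pool.Agent.H155R3.H6

set_option autoImplicit false

/-!
# The key approximation
-/

namespace Pool.Agent.H155R3

open MeasureTheory Finset

theorem abs_pow_sub_one_le (x : ℝ) (hx : 0 ≤ x) (j : ℕ) : |x ^ j - 1| ≤ |(x ^ 2) ^ j - 1| := by
  have h1 : (x ^ 2) ^ j - 1 = (x ^ j - 1) * (x ^ j + 1) := by ring
  rw [h1, abs_mul]
  have h2 : 1 ≤ |x ^ j + 1| := by
    rw [abs_of_nonneg (by positivity)]
    have : 0 ≤ x ^ j := by positivity
    linarith
  nlinarith [abs_nonneg (x ^ j - 1)]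

theorem lemmaC (K : ℕ) (v : ℕ → ℂ) (ε : ℝ) (hε : 0 < ε) : ∃ m M : ℕ, 1 ≤ m ∧
    ∀ c : ℕ → ℕ, Function.Injective c → (∀ j ≤ K, lam c M (2 * m + j) ≠ 0) ∧
      ∫ z, ‖∑ j ∈ range (K + 1), v j * ((lam c M (2 * m + j))⁻¹ * ee c M (2 * m + j) z)‖ ∂mu ≤
        (∫ t, ‖∑ j ∈ range (K + 1), v j * tc t ^ j‖ ∂hh) + ε := by
  set W : ℝ := ∑ j ∈ range (K + 1), ‖v j‖ with hW
  have hW0 : 0 ≤ W := sum_nonneg fun _ _ => norm_nonneg _
  set δ : ℝ := min (1 / 12) (ε / (20 * (W + 1))) with hδd
  have hδ : 0 < δ := by positivity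
  have hδ1 : δ ≤ 1 / 12 := min_le_left _ _
  have hδ2 : 20 * δ * W ≤ ε := by
    have h1 : δ ≤ ε / (20 * (W + 1)) := min_le_right _ _
    rw [le_div_iff₀ (by positivity)] at h1
    nlinarith
  obtain ⟨m, M, hm, hM, hA, hB⟩ := exists_params K (δ ^ 2 / 3) (by positivity)
  refine ⟨m, M, hm, fun c hc => ?_⟩
  have hM0 : (0 : ℝ) < M := by exact_mod_cast hM
  have hbig : 2 * m + K ≤ M := (hB 0 (Nat.zero_le _)).1
  -- moments
  have hR1 : ∀ l : ℕ, (∫ z, ‖SS c M z‖ ^ (2 * l) ∂mu) / (M : ℝ) ^ l ≤ (l.factorial : ℝ) := by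
    intro l
    rw [div_le_iff₀ (by positivity)]
    exact R_le c hc M l
  have hR2 : ∀ l : ℕ, l ≤ 2 * m + K → (l.factorial : ℝ) * (1 - (l : ℝ) ^ 2 / M) ≤ (∫ z, ‖SS c M z‖ ^ (2 * l) ∂mu) / (M : ℝ) ^ l := by
    intro l hl
    have h1 := D_eq c hc M l
    have h2 : 0 ≤ ∫ z, ‖SS c M z ^ l - (l.factorial : ℂ) * ee c M l z‖ ^ 2 ∂mu := integral_nonneg fun z => by positivity
    have h3 := theta_lower M l hM (hl.trans hbig)
    have h4 : (l.factorial : ℝ) * ((l.factorial : ℝ) * (M.choose l : ℝ) / (M : ℝ) ^ l) ≤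
        (∫ z, ‖SS c M z‖ ^ (2 * l) ∂mu) / (M : ℝ) ^ l := by
      rw [← mul_div_assoc]
      apply div_le_div_of_nonneg_right _ (by positivity)
      nlinarith
    exact (mul_le_mul_of_nonneg_left h3 (by positivity)).trans h4
  have hD : ∀ l : ℕ, l ≤ 2 * m + K →
      (∫ z, ‖SS c M z ^ l - (l.factorial : ℂ) * ee c M l z‖ ^ 2 ∂mu) / (M : ℝ) ^ l ≤ δ ^ 2 := by
    intro l hl
    rw [D_eq c hc M l, sub_div]
    have h1 := hR1 l
    have h3 := theta_lower M l hM (hl.trans hbig)
    have h4 := (hB l hl).2.2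
    have h5 : (l.factorial : ℝ) ^ 2 * (M.choose l : ℝ) / (M : ℝ) ^ l =
        (l.factorial : ℝ) * ((l.factorial : ℝ) * (M.choose l : ℝ) / (M : ℝ) ^ l) := by ring
    rw [h5]
    have h6 := mul_le_mul_of_nonneg_left h3 (show (0 : ℝ) ≤ (l.factorial : ℝ) by positivity)
    nlinarith [sq_nonneg δ]
  -- density
  set P : Om → ℝ := fun z => (‖SS c M z‖ ^ 2 / M) ^ m / (m.factorial : ℝ) with hP
  set x2 : Om → ℝ := fun z => (‖SS c M z‖ ^ 2 / M) / ((m : ℝ) + 1) with hx2
  have hPc : Continuous P := (((continuous_SS c M).norm.pow 2).div_const _ |>.pow m).div_const _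
  have hx2c : Continuous x2 := (((continuous_SS c M).norm.pow 2).div_const _).div_const _
  have hP0 : ∀ z, 0 ≤ P z := fun z => by positivity
  have hmom : ∀ l : ℕ, ∫ z, P z * x2 z ^ l ∂mu =
      (∫ z, ‖SS c M z‖ ^ (2 * (m + l)) ∂mu) / (M : ℝ) ^ (m + l) / ((m.factorial : ℝ) * ((m : ℝ) + 1) ^ l) := by
    intro l
    rw [← integral_div, ← integral_div]
    apply integral_congr_ae
    filter_upwards with z
    simp only [hP, hx2]
    rw [div_pow _ ((m : ℝ) + 1) l, pow_mul, pow_add, pow_add, div_pow, div_pow]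
    field_simp
  have hP1 : ∫ z, P z ∂mu ≤ 1 := by
    have h1 := hmom 0
    simp only [pow_zero, mul_one, add_zero] at h1
    rw [h1, div_le_one (by positivity)]
    exact hR1 m
  have hP2 : 1 - δ ≤ ∫ z, P z ∂mu := by
    have h1 := hmom 0
    simp only [pow_zero, mul_one, add_zero] at h1
    rw [h1, le_div_iff₀ (by positivity)]
    refine le_trans ?_ (hR2 m (by omega))
    have h2 := (hB m (by omega)).2.1
    have h3 : (0:ℝ) < (m.factorial : ℝ) := by positivity
    rw [mul_comm]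
    apply mul_le_mul_of_nonneg_left _ h3.le
    nlinarith
  have hvar : ∀ j ≤ K, ∫ z, P z * (x2 z ^ j - 1) ^ 2 ∂mu ≤ δ ^ 2 := by
    intro j hj
    have h1 : ∀ z, P z * (x2 z ^ j - 1) ^ 2 = P z * x2 z ^ (2 * j) + P z - 2 * (P z * x2 z ^ j) := by
      intro z; ring
    have hIl : ∀ l : ℕ, Integrable (fun z => P z * x2 z ^ l) mu := fun l => integrable_cont_Om' (hPc.mul (hx2c.pow l))
    have hIP : Integrable P mu := integrable_cont_Om' hPc
    have hI3 : Integrable (fun z => P z * x2 z ^ (2 * j) + P z) mu := (hIl _).add hIP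
    simp_rw [h1]
    rw [integral_sub hI3 ((hIl j).const_mul 2), integral_add (hIl _) hIP, integral_const_mul, hmom, hmom]
    have h2 : (∫ z, ‖SS c M z‖ ^ (2 * (m + 2 * j)) ∂mu) / (M : ℝ) ^ (m + 2 * j) / ((m.factorial : ℝ) * ((m : ℝ) + 1) ^ (2 * j)) ≤
        1 + δ ^ 2 / 3 :=
      (div_le_div_of_nonneg_right (hR1 _) (by positivity)).trans (hA j hj)
    have h3 : 1 - δ ^ 2 / 3 ≤ (∫ z, ‖SS c M z‖ ^ (2 * (m + j)) ∂mu) / (M : ℝ) ^ (m + j) / ((m.factorial : ℝ) * ((m : ℝ) + 1) ^ j) := by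
      rw [le_div_iff₀ (by positivity)]
      refine le_trans ?_ (hR2 (m + j) (by omega))
      have h4 := (hB (m + j) (by omega)).2.1
      have h5 : (m.factorial : ℝ) * ((m : ℝ) + 1) ^ j ≤ ((m + j).factorial : ℝ) := by
        exact_mod_cast Nat.factorial_mul_pow_le_factorial (m := m) (n := j)
      have h6 : 0 ≤ 1 - δ ^ 2 / 3 := by nlinarith
      calc (1 - δ ^ 2 / 3) * ((m.factorial : ℝ) * ((m : ℝ) + 1) ^ j) ≤ (1 - δ ^ 2 / 3) * ((m + j).factorial : ℝ) :=
            mul_le_mul_of_nonneg_left h5 h6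
        _ = ((m + j).factorial : ℝ) * (1 - δ ^ 2 / 3) := mul_comm _ _
        _ ≤ ((m + j).factorial : ℝ) * (1 - ((m + j : ℕ) : ℝ) ^ 2 / M) := by
            apply mul_le_mul_of_nonneg_left _ (by positivity)
            linarith
    nlinarith
  -- the three families of functions
  set κ : ℕ → ℝ := fun j => ((2 * m + j).factorial : ℝ) / (Real.sqrt M ^ (2 * m + j) * (m.factorial : ℝ) * Real.sqrt ((m : ℝ) + 1) ^ j) with hκ
  have hκpos : ∀ j, 0 < κ j := fun j => by
    have h1 : 0 < Real.sqrt M := Real.sqrt_pos.mpr hM0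
    have h2 : 0 < Real.sqrt ((m : ℝ) + 1) := Real.sqrt_pos.mpr (by positivity)
    positivity
  set hf : ℕ → Om → ℂ := fun j z => (κ j : ℂ) * ee c M (2 * m + j) z with hhf
  set gf : ℕ → Om → ℂ := fun j z => (P z : ℂ) * om c M z ^ (2 * m + j) with hgf
  set ff : ℕ → Om → ℂ := fun j z => SS c M z ^ (2 * m + j) / ((Real.sqrt M ^ (2 * m + j) * (m.factorial : ℝ) * Real.sqrt ((m : ℝ) + 1) ^ j : ℝ) : ℂ) with hff
  have hhfc : ∀ j, Continuous (hf j) := fun j => continuous_const.mul (continuous_ee _ _ _)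
  have hffc : ∀ j, Continuous (ff j) := fun j => ((continuous_SS c M).pow _).div_const _
  have hgfm : ∀ j, Measurable (gf j) := fun j =>
    (Complex.measurable_ofReal.comp hPc.measurable).mul ((measurable_om c M).pow_const _)
  obtain ⟨CP, hCP⟩ := (isCompact_range hPc).isBounded.exists_norm_le
  have hgfb : ∀ j z, ‖gf j z‖ ≤ CP := by
    intro j z
    simp only [hgf]
    rw [norm_mul, Complex.norm_real, norm_pow]
    have h1 : ‖om c M z‖ ^ (2 * m + j) ≤ 1 := pow_le_one₀ (norm_nonneg _) (om_norm_le c M z)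
    have h2 : ‖P z‖ ≤ CP := hCP _ ⟨z, rfl⟩
    have h3 := norm_nonneg (P z)
    calc ‖P z‖ * ‖om c M z‖ ^ (2 * m + j) ≤ ‖P z‖ * 1 := mul_le_mul_of_nonneg_left h1 h3
      _ ≤ CP := by rw [mul_one]; exact h2
  have hgfi : ∀ j, Integrable (gf j) mu := fun j =>
    Integrable.of_bound (hgfm j).aestronglyMeasurable CP (Filter.Eventually.of_forall (hgfb j))
  have hhfi : ∀ j, Integrable (hf j) mu := fun j => integrable_cont_Om (hhfc j)
  have hffi : ∀ j, Integrable (ff j) mu := fun j => integrable_cont_Om (hffc j)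
  have hsM : Real.sqrt M ^ 2 = M := Real.sq_sqrt hM0.le
  have hsm : Real.sqrt ((m : ℝ) + 1) ^ 2 = (m : ℝ) + 1 := Real.sq_sqrt (by positivity)
  have hsMpos : 0 < Real.sqrt M := Real.sqrt_pos.mpr hM0
  have hsmpos : 0 < Real.sqrt ((m : ℝ) + 1) := Real.sqrt_pos.mpr (by positivity)
  have hsm1 : 1 ≤ Real.sqrt ((m : ℝ) + 1) := by
    rw [Real.one_le_sqrt]
    have : (0 : ℝ) ≤ m := Nat.cast_nonneg m
    linarith
  have hclose1 : ∀ j ≤ K, ∫ z, ‖hf j z - ff j z‖ ∂mu ≤ δ := by
    intro j hj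
    have hI : Integrable (fun z => ‖hf j z - ff j z‖ ^ 2) mu := integrable_cont_Om' (((hhfc j).sub (hffc j)).norm.pow 2)
    apply int_norm_le ((hhfc j).sub (hffc j)).aestronglyMeasurable δ hδ hI
    have h1 : ∀ z, ‖hf j z - ff j z‖ ^ 2 =
        ‖SS c M z ^ (2 * m + j) - ((2 * m + j).factorial : ℂ) * ee c M (2 * m + j) z‖ ^ 2 / (M : ℝ) ^ (2 * m + j) /
          ((m.factorial : ℝ) ^ 2 * ((m : ℝ) + 1) ^ j) := by
      intro z
      have h2 : hf j z - ff j z = -(SS c M z ^ (2 * m + j) - ((2 * m + j).factorial : ℂ) * ee c M (2 * m + j) z) /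
          ((Real.sqrt M ^ (2 * m + j) * (m.factorial : ℝ) * Real.sqrt ((m : ℝ) + 1) ^ j : ℝ) : ℂ) := by
        simp only [hhf, hff, hκ]
        push_cast
        ring
      rw [h2, norm_div, norm_neg, Complex.norm_real, Real.norm_of_nonneg (by positivity), div_pow, div_div]
      congr 1
      rw [mul_pow, mul_pow, ← pow_mul, ← pow_mul, mul_comm (2 * m + j) 2, mul_comm j 2, pow_mul, pow_mul, hsM, hsm]
      ring
    have h1' : (∫ z, ‖hf j z - ff j z‖ ^ 2 ∂mu) = (∫ z, ‖SS c M z ^ (2 * m + j) - ((2 * m + j).factorial : ℂ) * ee c M (2 * m + j) z‖ ^ 2 ∂mu) /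
        (M : ℝ) ^ (2 * m + j) / ((m.factorial : ℝ) ^ 2 * ((m : ℝ) + 1) ^ j) := by
      rw [← integral_div, ← integral_div]
      exact integral_congr_ae (Filter.Eventually.of_forall h1)
    show (∫ z, ‖hf j z - ff j z‖ ^ 2 ∂mu) ≤ _
    rw [h1']
    have h2 := hD (2 * m + j) (by omega)
    have h3 : (1 : ℝ) ≤ (m.factorial : ℝ) ^ 2 * ((m : ℝ) + 1) ^ j := by
      have h4 : (1 : ℝ) ≤ (m.factorial : ℝ) := by exact_mod_cast Nat.factorial_pos m
      have h5 : (1 : ℝ) ≤ ((m : ℝ) + 1) ^ j := one_le_pow₀ (by have : (0 : ℝ) ≤ m := Nat.cast_nonneg m; linarith)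
      have h6 : (1 : ℝ) ≤ (m.factorial : ℝ) ^ 2 := one_le_pow₀ h4
      nlinarith
    rw [div_le_iff₀ (by positivity)]
    nlinarith [sq_nonneg δ]
  have hclose2 : ∀ j ≤ K, ∫ z, ‖ff j z - gf j z‖ ∂mu ≤ δ := by
    intro j hj
    refine le_trans ?_ (weighted_le hPc ((hx2c.pow j).sub continuous_const) hP0 hP1 δ hδ (hvar j hj))
    apply integral_mono_of_nonneg (Filter.Eventually.of_forall fun z => norm_nonneg _)
    · exact integrable_cont_Om' (hPc.mul ((hx2c.pow j).sub continuous_const).abs)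
    · filter_upwards with z
      set x : ℝ := ‖SS c M z‖ / (Real.sqrt M * Real.sqrt ((m : ℝ) + 1)) with hx
      have hxx : x ^ 2 = x2 z := by
        simp only [hx, hx2]
        rw [div_pow, mul_pow, hsM, hsm, div_div]
      have h1 : ff j z - gf j z = om c M z ^ (2 * m + j) * ((P z * (x ^ j - 1) : ℝ) : ℂ) := by
        simp only [hff, hgf]
        have h0 : SS c M z ^ (2 * m + j) = om c M z ^ (2 * m + j) * ((‖SS c M z‖ : ℂ) ^ (2 * m + j)) := by
          rw [← mul_pow, om_mul c M z]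
        rw [h0, mul_div_assoc]
        have h2 : ((‖SS c M z‖ : ℂ) ^ (2 * m + j)) / ((Real.sqrt M ^ (2 * m + j) * (m.factorial : ℝ) * Real.sqrt ((m : ℝ) + 1) ^ j : ℝ) : ℂ) =
            ((P z * x ^ j : ℝ) : ℂ) := by
          rw [← Complex.ofReal_pow, ← Complex.ofReal_div]
          congr 1
          simp only [hP, hx]
          rw [div_pow, div_pow, mul_pow, ← pow_mul]
          have h3 : (M : ℝ) ^ m = Real.sqrt M ^ (2 * m) := by rw [pow_mul, hsM]
          rw [h3, pow_add, pow_add]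
          field_simp
        rw [h2]
        push_cast
        ring
      rw [h1, norm_mul, norm_pow, Complex.norm_real, norm_mul, Real.norm_of_nonneg (hP0 z), Real.norm_eq_abs]
      have h4 : ‖om c M z‖ ^ (2 * m + j) ≤ 1 := pow_le_one₀ (norm_nonneg _) (om_norm_le c M z)
      have h5 : |x ^ j - 1| ≤ |x2 z ^ j - 1| := by
        rw [← hxx]; exact abs_pow_sub_one_le x (by positivity) j
      calc ‖om c M z‖ ^ (2 * m + j) * (P z * |x ^ j - 1|) ≤ 1 * (P z * |x ^ j - 1|) :=
            mul_le_mul_of_nonneg_right h4 (mul_nonneg (hP0 z) (abs_nonneg _))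
        _ ≤ P z * |x2 z ^ j - 1| := by
            rw [one_mul]; exact mul_le_mul_of_nonneg_left h5 (hP0 z)
  have hclose : ∀ j ≤ K, ∫ z, ‖hf j z - gf j z‖ ∂mu ≤ 2 * δ := by
    intro j hj
    calc ∫ z, ‖hf j z - gf j z‖ ∂mu ≤ ∫ z, (‖hf j z - ff j z‖ + ‖ff j z - gf j z‖) ∂mu := by
          apply integral_mono ((hhfi j).sub (hgfi j)).norm (((hhfi j).sub (hffi j)).norm.add ((hffi j).sub (hgfi j)).norm)
          intro z
          exact norm_sub_le_norm_sub_add_norm_sub _ _ _
      _ = (∫ z, ‖hf j z - ff j z‖ ∂mu) + ∫ z, ‖ff j z - gf j z‖ ∂mu :=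
          integral_add ((hhfi j).sub (hffi j)).norm ((hffi j).sub (hgfi j)).norm
      _ ≤ 2 * δ := by linarith [hclose1 j hj, hclose2 j hj]
  have hgnorm : ∀ j, ∫ z, ‖gf j z‖ ∂mu ≤ 1 := by
    intro j
    refine le_trans ?_ hP1
    apply integral_mono_of_nonneg (Filter.Eventually.of_forall fun z => norm_nonneg _) (integrable_cont_Om' hPc)
    filter_upwards with z
    simp only [hgf]
    rw [norm_mul, Complex.norm_real, norm_pow, Real.norm_of_nonneg (hP0 z)]
    exact mul_le_of_le_one_right (hP0 z) (pow_le_one₀ (norm_nonneg _) (om_norm_le c M z))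
  have hhnorm : ∀ j ≤ K, ∫ z, ‖hf j z‖ ∂mu ≤ 2 := by
    intro j hj
    calc ∫ z, ‖hf j z‖ ∂mu ≤ ∫ z, (‖hf j z - gf j z‖ + ‖gf j z‖) ∂mu := by
          apply integral_mono (hhfi j).norm (((hhfi j).sub (hgfi j)).norm.add (hgfi j).norm)
          intro z
          have := norm_add_le (hf j z - gf j z) (gf j z)
          simpa using this
      _ = (∫ z, ‖hf j z - gf j z‖ ∂mu) + ∫ z, ‖gf j z‖ ∂mu := integral_add ((hhfi j).sub (hgfi j)).norm (hgfi j).norm
      _ ≤ 2 := by linarith [hclose j hj, hgnorm j]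
  -- the normalising constants
  have homm : ∀ j, Measurable fun z => (starRingEnd ℂ) (om c M z) ^ (2 * m + j) := fun j =>
    (Complex.continuous_conj.measurable.comp (measurable_om c M)).pow_const _
  have homb : ∀ j z, ‖(starRingEnd ℂ) (om c M z) ^ (2 * m + j)‖ ≤ 1 := by
    intro j z
    rw [norm_pow, RCLike.norm_conj]
    exact pow_le_one₀ (norm_nonneg _) (om_norm_le c M z)
  have hlam : ∀ j ≤ K, ‖(κ j : ℂ) * lam c M (2 * m + j) - 1‖ ≤ 3 * δ := by
    intro j hj
    have h1 : (κ j : ℂ) * lam c M (2 * m + j) = ∫ z, hf j z * (starRingEnd ℂ) (om c M z) ^ (2 * m + j) ∂mu := by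
      unfold lam
      rw [← integral_const_mul]
      apply integral_congr_ae
      filter_upwards with z
      simp only [hhf]
      ring
    have h2 : ∫ z, gf j z * (starRingEnd ℂ) (om c M z) ^ (2 * m + j) ∂mu = ((∫ z, P z ∂mu : ℝ) : ℂ) := by
      rw [← integral_complex_ofReal]
      apply integral_congr_ae
      filter_upwards with z
      simp only [hgf]
      by_cases hz : SS c M z = 0
      · have : P z = 0 := by
          simp only [hP, hz, norm_zero]
          rw [zero_pow two_ne_zero, zero_div, zero_pow (by omega), zero_div]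
        rw [this]; simp
      · rw [mul_assoc, ← mul_pow, Complex.mul_conj, Complex.normSq_eq_norm_sq, om_norm_eq c M z hz]
        simp
    have h3 : Integrable (fun z => hf j z * (starRingEnd ℂ) (om c M z) ^ (2 * m + j)) mu :=
      (hhfi j).mul_bdd (homm j).aestronglyMeasurable (Filter.Eventually.of_forall (homb j))
    have h4 : Integrable (fun z => gf j z * (starRingEnd ℂ) (om c M z) ^ (2 * m + j)) mu :=
      (hgfi j).mul_bdd (homm j).aestronglyMeasurable (Filter.Eventually.of_forall (homb j))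
    have h5 : ‖(κ j : ℂ) * lam c M (2 * m + j) - ((∫ z, P z ∂mu : ℝ) : ℂ)‖ ≤ 2 * δ := by
      rw [h1, ← h2, ← integral_sub h3 h4]
      refine (norm_integral_le_integral_norm _).trans (le_trans ?_ (hclose j hj))
      apply integral_mono_of_nonneg (Filter.Eventually.of_forall fun z => norm_nonneg _) ((hhfi j).sub (hgfi j)).norm
      filter_upwards with z
      rw [← sub_mul, norm_mul]
      exact mul_le_of_le_one_right (norm_nonneg _) (homb j z)
    have h6 : ‖((∫ z, P z ∂mu : ℝ) : ℂ) - 1‖ ≤ δ := by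
      have e : ((∫ z, P z ∂mu : ℝ) : ℂ) - 1 = (((∫ z, P z ∂mu) - 1 : ℝ) : ℂ) := by push_cast; rfl
      rw [e, Complex.norm_real, Real.norm_eq_abs, abs_le]
      constructor <;> linarith
    have h7 : (κ j : ℂ) * lam c M (2 * m + j) - 1 = ((κ j : ℂ) * lam c M (2 * m + j) - ((∫ z, P z ∂mu : ℝ) : ℂ)) +
        (((∫ z, P z ∂mu : ℝ) : ℂ) - 1) := by ring
    rw [h7]
    refine (norm_add_le _ _).trans ?_
    linarith
  have hlow : ∀ j ≤ K, 3 / 4 ≤ ‖(κ j : ℂ) * lam c M (2 * m + j)‖ := by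
    intro j hj
    have h1 := hlam j hj
    have h2 : ‖(1 : ℂ)‖ ≤ ‖(κ j : ℂ) * lam c M (2 * m + j)‖ + ‖(κ j : ℂ) * lam c M (2 * m + j) - 1‖ := by
      have e : (1 : ℂ) = (κ j : ℂ) * lam c M (2 * m + j) - ((κ j : ℂ) * lam c M (2 * m + j) - 1) := by ring
      conv_lhs => rw [e]
      exact norm_sub_le _ _
    rw [norm_one] at h2
    linarith
  have hlam0 : ∀ j ≤ K, lam c M (2 * m + j) ≠ 0 := by
    intro j hj h
    have := hlow j hj
    rw [h, mul_zero, norm_zero] at this
    linarith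
  refine ⟨hlam0, ?_⟩
  -- final estimate
  have hcoef : ∀ j ≤ K, ‖((κ j : ℂ) * lam c M (2 * m + j))⁻¹ - 1‖ ≤ 4 * δ := by
    intro j hj
    have h1 := hlam j hj
    have h2 := hlow j hj
    have h3 : (κ j : ℂ) * lam c M (2 * m + j) ≠ 0 := by
      intro h; rw [h, norm_zero] at h2; linarith
    have h4 : ((κ j : ℂ) * lam c M (2 * m + j))⁻¹ - 1 =
        -((κ j : ℂ) * lam c M (2 * m + j) - 1) / ((κ j : ℂ) * lam c M (2 * m + j)) := by
      rw [eq_div_iff h3, sub_mul, inv_mul_cancel₀ h3]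
      ring
    rw [h4, norm_div, norm_neg, div_le_iff₀ (by linarith)]
    nlinarith
  have hsplit : ∀ z, ∑ j ∈ range (K + 1), v j * ((lam c M (2 * m + j))⁻¹ * ee c M (2 * m + j) z) =
      (∑ j ∈ range (K + 1), v j * gf j z) + ∑ j ∈ range (K + 1), (v j * (hf j z - gf j z) +
        v j * ((((κ j : ℂ) * lam c M (2 * m + j))⁻¹ - 1) * hf j z)) := by
    intro z
    rw [← sum_add_distrib]
    apply sum_congr rfl
    intro j _
    have hk : (κ j : ℂ) ≠ 0 := by exact_mod_cast (hκpos j).ne'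
    simp only [hhf]
    rw [mul_inv]
    field_simp
    ring
  have hgsum : ∫ z, ‖∑ j ∈ range (K + 1), v j * gf j z‖ ∂mu ≤ ∫ t, ‖∑ j ∈ range (K + 1), v j * tc t ^ j‖ ∂hh := by
    set V : ℝ := ∫ t, ‖∑ j ∈ range (K + 1), v j * tc t ^ j‖ ∂hh with hV
    have hV0 : 0 ≤ V := integral_nonneg fun _ => norm_nonneg _
    have hFm : StronglyMeasurable fun z => ‖∑ j ∈ range (K + 1), v j * gf j z‖ := by
      have : Measurable fun z => ∑ j ∈ range (K + 1), v j * gf j z :=
        Finset.measurable_fun_sum _ fun j _ => (hgfm j).const_mul _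
      exact this.norm.stronglyMeasurable
    have hFb : ∀ z, ‖‖∑ j ∈ range (K + 1), v j * gf j z‖‖ ≤ W * CP := by
      intro z
      rw [norm_norm, hW, sum_mul]
      refine (norm_sum_le _ _).trans (sum_le_sum fun j _ => ?_)
      rw [norm_mul]
      exact mul_le_mul_of_nonneg_left (hgfb j z) (norm_nonneg _)
    rw [avg_shift hh (fun t => (fun _ => t : Om)) (by fun_prop) _ hFm (W * CP) hFb]
    calc ∫ z, ∫ t, ‖∑ j ∈ range (K + 1), v j * gf j (z + fun _ => t)‖ ∂hh ∂mu ≤ ∫ z, P z * V ∂mu := by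
          apply integral_mono_of_nonneg
          · exact Filter.Eventually.of_forall fun z => integral_nonneg fun _ => norm_nonneg _
          · exact (integrable_cont_Om' hPc).mul_const _
          · filter_upwards with z
            have h1 : ∀ t, ‖∑ j ∈ range (K + 1), v j * gf j (z + fun _ => t)‖ =
                P z * (‖om c M z‖ ^ (2 * m) * ‖∑ j ∈ range (K + 1), v j * (tc t * om c M z) ^ j‖) := by
              intro t
              have h2 : P (z + fun _ => t) = P z := by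
                simp only [hP]
                rw [SS_rot, norm_mul, norm_tc, one_mul]
              have h3 : ∑ j ∈ range (K + 1), v j * gf j (z + fun _ => t) =
                  (P z : ℂ) * ((tc t * om c M z) ^ (2 * m) * ∑ j ∈ range (K + 1), v j * (tc t * om c M z) ^ j) := by
                rw [mul_sum, mul_sum]
                apply sum_congr rfl
                intro j _
                simp only [hgf]
                rw [h2, om_rot, pow_add]
                ring
              rw [h3, norm_mul, norm_mul, norm_pow, norm_mul, norm_tc, one_mul, Complex.norm_real,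
                Real.norm_of_nonneg (hP0 z)]
            simp_rw [h1]
            rw [integral_const_mul]
            apply mul_le_mul_of_nonneg_left _ (hP0 z)
            rw [integral_const_mul]
            by_cases hz : SS c M z = 0
            · have : om c M z = 0 := by unfold om; rw [hz]; simp
              rw [this, norm_zero, zero_pow (by omega), zero_mul]
              exact hV0
            · rw [om_norm_eq c M z hz, one_pow, one_mul, rot_mean _ _ _ (om_norm_eq c M z hz)]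
      _ = (∫ z, P z ∂mu) * V := integral_mul_const _ _
      _ ≤ 1 * V := mul_le_mul_of_nonneg_right hP1 hV0
      _ = V := one_mul _
  have hI1 : Integrable (fun z => ∑ j ∈ range (K + 1), v j * gf j z) mu :=
    integrable_finsetSum _ fun j _ => (hgfi j).const_mul _
  have hI2 : ∀ j, Integrable (fun z => v j * (hf j z - gf j z) +
        v j * ((((κ j : ℂ) * lam c M (2 * m + j))⁻¹ - 1) * hf j z)) mu := fun j =>
    (((hhfi j).sub (hgfi j)).const_mul _).add (((hhfi j).const_mul _).const_mul _)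
  calc ∫ z, ‖∑ j ∈ range (K + 1), v j * ((lam c M (2 * m + j))⁻¹ * ee c M (2 * m + j) z)‖ ∂mu
      ≤ ∫ z, (‖∑ j ∈ range (K + 1), v j * gf j z‖ + ∑ j ∈ range (K + 1), ‖v j * (hf j z - gf j z) +
        v j * ((((κ j : ℂ) * lam c M (2 * m + j))⁻¹ - 1) * hf j z)‖) ∂mu := by
        apply integral_mono_of_nonneg (Filter.Eventually.of_forall fun z => norm_nonneg _)
        · exact hI1.norm.add (integrable_finsetSum _ fun j _ => (hI2 j).norm)
        · filter_upwards with z
          rw [hsplit]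
          exact (norm_add_le _ _).trans (add_le_add le_rfl (norm_sum_le _ _))
    _ = (∫ z, ‖∑ j ∈ range (K + 1), v j * gf j z‖ ∂mu) + ∑ j ∈ range (K + 1), ∫ z, ‖v j * (hf j z - gf j z) +
        v j * ((((κ j : ℂ) * lam c M (2 * m + j))⁻¹ - 1) * hf j z)‖ ∂mu := by
        rw [integral_add hI1.norm (integrable_finsetSum _ fun j _ => (hI2 j).norm),
          integral_finsetSum _ fun j _ => (hI2 j).norm]
    _ ≤ (∫ t, ‖∑ j ∈ range (K + 1), v j * tc t ^ j‖ ∂hh) + ∑ j ∈ range (K + 1), ‖v j‖ * (10 * δ) := by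
        apply add_le_add hgsum
        apply sum_le_sum
        intro j hj
        have hj' : j ≤ K := by rw [mem_range] at hj; omega
        calc ∫ z, ‖v j * (hf j z - gf j z) + v j * ((((κ j : ℂ) * lam c M (2 * m + j))⁻¹ - 1) * hf j z)‖ ∂mu
            ≤ ∫ z, (‖v j‖ * ‖hf j z - gf j z‖ + ‖v j‖ * (4 * δ * ‖hf j z‖)) ∂mu := by
              apply integral_mono (hI2 j).norm
              · exact (((hhfi j).sub (hgfi j)).norm.const_mul _).add (((hhfi j).norm.const_mul _).const_mul _)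
              · intro z
                refine (norm_add_le _ _).trans ?_
                rw [norm_mul, norm_mul, norm_mul]
                apply add_le_add le_rfl
                apply mul_le_mul_of_nonneg_left _ (norm_nonneg _)
                exact mul_le_mul_of_nonneg_right (hcoef j hj') (norm_nonneg _)
          _ = ‖v j‖ * (∫ z, ‖hf j z - gf j z‖ ∂mu) + ‖v j‖ * (4 * δ * ∫ z, ‖hf j z‖ ∂mu) := by
              have g1 : Integrable (fun z => ‖v j‖ * ‖hf j z - gf j z‖) mu := ((hhfi j).sub (hgfi j)).norm.const_mul _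
              have g2 : Integrable (fun z => ‖v j‖ * (4 * δ * ‖hf j z‖)) mu := ((hhfi j).norm.const_mul _).const_mul _
              rw [integral_add g1 g2, integral_const_mul, integral_const_mul, integral_const_mul]
          _ ≤ ‖v j‖ * (2 * δ) + ‖v j‖ * (4 * δ * 2) := by
              apply add_le_add
              · exact mul_le_mul_of_nonneg_left (hclose j hj') (norm_nonneg _)
              · apply mul_le_mul_of_nonneg_left _ (norm_nonneg _)
                exact mul_le_mul_of_nonneg_left (hhnorm j hj') (by positivity)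
          _ = ‖v j‖ * (10 * δ) := by ring
    _ = (∫ t, ‖∑ j ∈ range (K + 1), v j * tc t ^ j‖ ∂hh) + W * (10 * δ) := by rw [hW, sum_mul]
    _ ≤ (∫ t, ‖∑ j ∈ range (K + 1), v j * tc t ^ j‖ ∂hh) + ε := by nlinarith

end Pool.Agent.H155R3
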