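import Pool.Agent.H155R3.H7

set_option autoImplicit false

/-!
# Polynomials on the infinite torus: diagonal operators and restrictions
-/

namespace Pool.Agent.H155R3

open MeasureTheory MvPolynomial

abbrev PP := MvPolynomial ℕ ℂ

/-- Evaluation of a polynomial on the torus. -/
noncomputable def ev (z : Om) : PP →ₐ[ℂ] ℂ := aeval (fun i => ch i z)

/-- monomials -/
noncomputable def mo (κ : ℕ →₀ ℕ) : PP := monomial κ 1

theorem ev_mo (κ : ℕ →₀ ℕ) (z : Om) : ev z (mo κ) = κ.prod fun i k => ch i z ^ k := by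
  simp [ev, mo, aeval_monomial]

theorem norm_ev_mo (κ : ℕ →₀ ℕ) (z : Om) : ‖ev z (mo κ)‖ = 1 := by
  rw [ev_mo, Finsupp.prod, norm_prod]
  apply Finset.prod_eq_one
  intro i _
  rw [norm_pow, norm_ch, one_pow]

theorem ev_mo_ne (κ : ℕ →₀ ℕ) (z : Om) : ev z (mo κ) ≠ 0 := by
  intro h
  have := norm_ev_mo κ z
  rw [h] at this
  simp at this

theorem mo_ind {P : PP → Prop} (h0 : ∀ κ, P (mo κ)) (hadd : ∀ p q, P p → P q → P (p + q))
    (hs : ∀ (c : ℂ) p, P p → P (c • p)) (p : PP) : P p := by
  induction p using MvPolynomial.induction_on' with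
  | monomial κ a =>
    have : monomial κ a = a • mo κ := by unfold mo; rw [smul_monomial]; simp
    rw [this]
    exact hs a _ (h0 κ)
  | add p q hp hq => exact hadd p q hp hq

theorem continuous_ev (p : PP) : Continuous fun z => ev z p := by
  induction p using mo_ind with
  | h0 κ =>
    simp_rw [ev_mo]
    unfold Finsupp.prod
    exact continuous_finsetProd _ fun i _ => (continuous_ch i).pow _
  | hadd p q hp hq => simp_rw [map_add]; exact hp.add hq
  | hs c p hp => simp_rw [map_smul]; exact hp.const_smul c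

/-- The `L¹` norm of a polynomial. -/
noncomputable def NN (p : PP) : ℝ := ∫ z, ‖ev z p‖ ∂mu

theorem NN_nonneg (p : PP) : 0 ≤ NN p := integral_nonneg fun _ => norm_nonneg _

theorem integrable_ev (p : PP) : Integrable (fun z => ev z p) mu := integrable_cont_Om (continuous_ev p)

theorem NN_add (p q : PP) : NN (p + q) ≤ NN p + NN q := by
  unfold NN
  rw [← integral_add (integrable_ev p).norm (integrable_ev q).norm]
  apply integral_mono (integrable_ev _).norm ((integrable_ev p).norm.add (integrable_ev q).norm)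
  intro z
  simp only [map_add]
  exact norm_add_le _ _

theorem NN_smul (c : ℂ) (p : PP) : NN (c • p) = ‖c‖ * NN p := by
  unfold NN
  rw [← integral_const_mul]
  simp_rw [map_smul, smul_eq_mul, norm_mul]

theorem NN_neg (p : PP) : NN (-p) = NN p := by
  unfold NN
  simp_rw [map_neg, norm_neg]

theorem NN_sub (p q : PP) : NN (p - q) ≤ NN p + NN q := by
  rw [sub_eq_add_neg, ← NN_neg q]
  exact NN_add _ _

theorem NN_zero : NN 0 = 0 := by simp [NN]

/-- The flow in direction `wt`. -/
noncomputable def fl (wt : ℕ → ℤ) (t : TT) : Om := fun i => wt i • t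

theorem continuous_fl (wt : ℕ → ℤ) : Continuous (fl wt) := by
  unfold fl
  fun_prop

theorem tc_zsmul (n : ℤ) (t : TT) : tc (n • t) = tc t ^ n := by
  unfold tc
  rw [AddCircle.toCircle_zsmul]
  simp

theorem ch_fl (wt : ℕ → ℤ) (t : TT) (i : ℕ) (z : Om) : ch i (z + fl wt t) = tc t ^ wt i * ch i z := by
  rw [ch_add, mul_comm]
  congr 1
  exact tc_zsmul _ _

theorem ev_fl (wt : ℕ → ℤ) (t : TT) (z : Om) (κ : ℕ →₀ ℕ) :
    ev (z + fl wt t) (mo κ) = tc t ^ (Finsupp.weight wt κ) * ev z (mo κ) := by
  rw [ev_mo, ev_mo, Finsupp.weight_apply, Finsupp.prod, Finsupp.prod, Finsupp.sum]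
  have h : ∀ s : Finset ℕ, ∏ i ∈ s, ch i (z + fl wt t) ^ (κ i) = tc t ^ (∑ i ∈ s, κ i • wt i) * ∏ i ∈ s, ch i z ^ (κ i) := by
    intro s
    induction s using Finset.induction_on with
    | empty => simp
    | insert a s ha ih =>
      rw [Finset.prod_insert ha, Finset.prod_insert ha, Finset.sum_insert ha, ih, zpow_add₀ (tc_ne t), ch_fl, mul_pow]
      have : (tc t ^ wt a) ^ κ a = tc t ^ (κ a • wt a) := by
        rw [← zpow_natCast, ← zpow_mul]
        congr 1
        rw [nsmul_eq_mul, mul_comm]
      rw [this]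
      ring
  exact h _

/-- Diagonal operators. -/
noncomputable def dg (m : (ℕ →₀ ℕ) → ℂ) : Module.End ℂ PP :=
  (basisMonomials ℕ ℂ).constr ℂ fun κ => m κ • mo κ

theorem dg_mo (m : (ℕ →₀ ℕ) → ℂ) (κ : ℕ →₀ ℕ) : dg m (mo κ) = m κ • mo κ := by
  have := (basisMonomials ℕ ℂ).constr_basis ℂ (fun κ => m κ • mo κ) κ
  rw [coe_basisMonomials] at this
  exact this

theorem lin_ext {M : Type*} [AddCommMonoid M] [Module ℂ M] {f g : PP →ₗ[ℂ] M} (h : ∀ κ, f (mo κ) = g (mo κ)) : f = g := by
  apply (basisMonomials ℕ ℂ).ext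
  intro κ
  rw [coe_basisMonomials]
  exact h κ

theorem dg_mul (m m' : (ℕ →₀ ℕ) → ℂ) : dg m * dg m' = dg fun κ => m κ * m' κ := by
  apply lin_ext
  intro κ
  rw [Module.End.mul_apply, dg_mo, map_smul, dg_mo, dg_mo, smul_smul, mul_comm]

theorem dg_add (m m' : (ℕ →₀ ℕ) → ℂ) : dg m + dg m' = dg fun κ => m κ + m' κ := by
  apply lin_ext
  intro κ
  rw [LinearMap.add_apply, dg_mo, dg_mo, dg_mo, add_smul]

theorem dg_one : dg (fun _ => 1) = 1 := by
  apply lin_ext
  intro κ
  rw [dg_mo]; simp

theorem dg_zero : dg (fun _ => 0) = 0 := by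
  apply lin_ext
  intro κ
  rw [dg_mo]; simp

theorem coeff_dg (m : (ℕ →₀ ℕ) → ℂ) (p : PP) (κ : ℕ →₀ ℕ) : coeff κ (dg m p) = m κ * coeff κ p := by
  induction p using mo_ind with
  | h0 κ' =>
    rw [dg_mo, coeff_smul]
    unfold mo
    rw [coeff_monomial]
    by_cases h : κ' = κ
    · rw [if_pos h, h]; simp
    · rw [if_neg h]; simp
  | hadd p q hp hq => rw [map_add, coeff_add, coeff_add, hp, hq]; ring
  | hs c p hp => rw [map_smul, coeff_smul, coeff_smul, hp, smul_eq_mul, smul_eq_mul]; ring

open Classical in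
/-- Restriction to a set of exponents. -/
noncomputable def res (Γ : (ℕ →₀ ℕ) → Prop) : Module.End ℂ PP := dg fun κ => if Γ κ then 1 else 0

open Classical in
theorem coeff_res (Γ : (ℕ →₀ ℕ) → Prop) (p : PP) (κ : ℕ →₀ ℕ) :
    coeff κ (res Γ p) = if Γ κ then coeff κ p else 0 := by
  unfold res
  rw [coeff_dg]
  split_ifs <;> simp

open Classical in
theorem res_mo (Γ : (ℕ →₀ ℕ) → Prop) (κ : ℕ →₀ ℕ) : res Γ (mo κ) = if Γ κ then mo κ else 0 := by
  unfold res
  rw [dg_mo]
  split_ifs <;> simp

theorem res_mul (Γ Δ : (ℕ →₀ ℕ) → Prop) : res Γ * res Δ = res fun κ => Γ κ ∧ Δ κ := by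
  unfold res
  rw [dg_mul]
  congr 1
  funext κ
  by_cases h1 : Γ κ <;> by_cases h2 : Δ κ <;> simp [h1, h2]

theorem res_congr {Γ Δ : (ℕ →₀ ℕ) → Prop} (h : ∀ κ, Γ κ ↔ Δ κ) : res Γ = res Δ := by
  congr 1
  funext κ
  exact propext (h κ)

theorem res_empty {Γ : (ℕ →₀ ℕ) → Prop} (h : ∀ κ, ¬ Γ κ) : res Γ = 0 := by
  rw [← dg_zero]
  unfold res
  congr 1
  funext κ
  simp [h κ]

/-- Orthogonality of characters. -/
theorem integral_tc_zpow' (n : ℤ) : ∫ t, tc t ^ n ∂hh = if n = 0 then 1 else 0 := by
  by_cases h : n = 0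
  · rw [if_pos h, h]; simp
  · rw [if_neg h, integral_tc_zpow h]

theorem continuous_tc_zpow (n : ℤ) : Continuous fun t => tc t ^ n :=
  continuous_tc.zpow₀ n (fun t => Or.inl (tc_ne t))

/-- Restriction to a homogeneous component is a contraction. -/
theorem res_wt_formula (wt : ℕ → ℤ) (k : ℤ) (p : PP) (z : Om) :
    ev z (res (fun κ => Finsupp.weight wt κ = k) p) = ∫ t, tc t ^ (-k) * ev (z + fl wt t) p ∂hh := by
  have hc : ∀ p : PP, Continuous fun t => tc t ^ (-k) * ev (z + fl wt t) p := fun p =>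
    (continuous_tc_zpow _).mul ((continuous_ev p).comp (continuous_const.add (continuous_fl wt)))
  induction p using mo_ind with
  | h0 κ =>
    simp_rw [ev_fl]
    have : ∀ t, tc t ^ (-k) * (tc t ^ (Finsupp.weight wt κ) * ev z (mo κ)) = tc t ^ (Finsupp.weight wt κ - k) * ev z (mo κ) := by
      intro t
      rw [← mul_assoc, ← zpow_add₀ (tc_ne t)]
      congr 2
      ring
    simp_rw [this]
    rw [integral_mul_const, integral_tc_zpow', res_mo]
    by_cases h : Finsupp.weight wt κ = k
    · rw [if_pos h, if_pos (by omega), one_mul]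
    · rw [if_neg h, if_neg (by omega), zero_mul, map_zero]
  | hadd p q hp hq =>
    rw [map_add, map_add, hp, hq, ← integral_add (integrable_cont_T (hc p)) (integrable_cont_T (hc q))]
    congr 1
    funext t
    rw [map_add]; ring
  | hs c p hp =>
    rw [map_smul, map_smul, hp, smul_eq_mul, ← integral_const_mul]
    congr 1
    funext t
    rw [map_smul, smul_eq_mul]; ring

theorem bdd_ev (p : PP) : ∃ C : ℝ, ∀ z, ‖ev z p‖ ≤ C := by
  obtain ⟨C, hC⟩ := (isCompact_range (continuous_ev p)).isBounded.exists_norm_le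
  exact ⟨C, fun z => hC _ ⟨z, rfl⟩⟩

theorem res_wt_le (wt : ℕ → ℤ) (k : ℤ) (p : PP) :
    NN (res (fun κ => Finsupp.weight wt κ = k) p) ≤ NN p := by
  unfold NN
  simp_rw [res_wt_formula]
  obtain ⟨C, hC⟩ := bdd_ev p
  rw [avg_shift hh (fl wt) (continuous_fl wt).measurable (fun z => ‖ev z p‖) (continuous_ev p).norm.stronglyMeasurable
    C (fun z => by rw [norm_norm]; exact hC z)]
  apply integral_mono_of_nonneg (Filter.Eventually.of_forall fun z => norm_nonneg _)
  · have hcont : Continuous fun q : Om × TT => ‖ev (q.1 + fl wt q.2) p‖ :=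
      ((continuous_ev p).comp (continuous_fst.add ((continuous_fl wt).comp continuous_snd))).norm
    have hI : Integrable (fun q : Om × TT => ‖ev (q.1 + fl wt q.2) p‖) (mu.prod hh) := by
      apply Integrable.of_bound hcont.aestronglyMeasurable C
      exact Filter.Eventually.of_forall fun q => by rw [norm_norm]; exact hC _
    exact hI.integral_prod_left
  · filter_upwards with z
    refine (norm_integral_le_integral_norm _).trans (le_of_eq ?_)
    congr 1
    funext t
    rw [norm_mul, norm_zpow, norm_tc, one_zpow, one_mul]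

/-- Restriction to a set cut out by homogeneity conditions is a contraction. -/
theorem res_le (Γ : (ℕ →₀ ℕ) → Prop)
    (sep : ∀ κ, ¬ Γ κ → ∃ (wt : ℕ → ℤ) (k : ℤ), (∀ κ', Γ κ' → Finsupp.weight wt κ' = k) ∧ Finsupp.weight wt κ ≠ k)
    (p : PP) : NN (res Γ p) ≤ NN p := by
  classical
  have key : ∀ (n : ℕ) (p : PP), (p.support.filter fun κ => ¬ Γ κ).card ≤ n → NN (res Γ p) ≤ NN p := by
    intro n
    induction n with
    | zero =>
      intro p hp
      have h0 : (p.support.filter fun κ => ¬ Γ κ) = ∅ := by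
        rw [← Finset.card_eq_zero]; omega
      have : res Γ p = p := by
        ext κ
        rw [coeff_res]
        split_ifs with h
        · rfl
        · by_contra h1
          have h2 : κ ∈ (p.support.filter fun κ => ¬ Γ κ) := by
            rw [Finset.mem_filter, mem_support_iff]
            exact ⟨fun h3 => h1 h3.symm, h⟩
          rw [h0] at h2
          simp at h2
      rw [this]
    | succ n ih =>
      intro p hp
      by_cases hb : (p.support.filter fun κ => ¬ Γ κ).Nonempty
      · obtain ⟨κ, hκ⟩ := hb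
        rw [Finset.mem_filter] at hκ
        obtain ⟨wt, k, h1, h2⟩ := sep κ hκ.2
        set p' := res (fun κ => Finsupp.weight wt κ = k) p with hp'
        have e1 : res Γ p' = res Γ p := by
          ext κ'
          rw [coeff_res, hp', coeff_res, coeff_res]
          split_ifs with h3 h4
          · rfl
          · exact absurd (h1 κ' h3) h4
          · rfl
        have e2 : (p'.support.filter fun κ => ¬ Γ κ).card ≤ n := by
          have hsub : (p'.support.filter fun κ => ¬ Γ κ) ⊆ (p.support.filter fun κ => ¬ Γ κ).erase κ := by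
            intro κ' h3
            rw [Finset.mem_filter, mem_support_iff, hp', coeff_res] at h3
            rw [Finset.mem_erase, Finset.mem_filter, mem_support_iff]
            by_cases h4 : Finsupp.weight wt κ' = k
            · rw [if_pos h4] at h3
              refine ⟨?_, h3⟩
              rintro rfl
              exact h2 h4
            · rw [if_neg h4] at h3
              exact absurd rfl h3.1
          have := Finset.card_le_card hsub
          rw [Finset.card_erase_of_mem (by rw [Finset.mem_filter]; exact hκ)] at this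
          omega
        rw [← e1]
        exact (ih p' e2).trans (res_wt_le wt k p)
      · rw [Finset.not_nonempty_iff_eq_empty] at hb
        apply ih
        rw [hb]; simp
  exact key _ p le_rfl

theorem weight_single (wt : ℕ → ℤ) (i k : ℕ) : Finsupp.weight wt (Finsupp.single i k) = (k : ℤ) * wt i := by
  rw [Finsupp.weight_apply, Finsupp.sum_single_index (by simp), nsmul_eq_mul]

/-- Fourier coefficients of polynomials. -/
theorem coeff_eq_integral (p : PP) (κ : ℕ →₀ ℕ) : coeff κ p = ∫ z, ev z p * (ev z (mo κ))⁻¹ ∂mu := by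
  have hcont : ∀ p : PP, Continuous fun z => ev z p * (ev z (mo κ))⁻¹ := fun p =>
    (continuous_ev p).mul ((continuous_ev _).inv₀ fun z => ev_mo_ne κ z)
  induction p using mo_ind with
  | h0 κ' =>
    unfold mo
    rw [coeff_monomial]
    by_cases h : κ' = κ
    · rw [if_pos h, h]
      have : ∀ z, ev z (monomial κ 1) * (ev z (monomial κ 1))⁻¹ = 1 := fun z => mul_inv_cancel₀ (ev_mo_ne κ z)
      simp_rw [this]
      simp
    · rw [if_neg h]
      obtain ⟨i, hi⟩ : ∃ i, κ' i ≠ κ i := by
        by_contra h'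
        push Not at h'
        exact h (Finsupp.ext h')
      symm
      apply integral_zero_of_flow _ (fl (fun j => if j = i then 1 else 0)) ((κ' i : ℤ) - κ i) (by omega)
      intro t z
      have hw : ∀ κ'' : ℕ →₀ ℕ, Finsupp.weight (fun j => if j = i then (1 : ℤ) else 0) κ'' = κ'' i := by
        intro κ''
        rw [Finsupp.weight_apply, Finsupp.sum]
        simp
        intro h; rw [h]; simp
      have h1 := ev_fl (fun j => if j = i then 1 else 0) t z κ'
      have h2 := ev_fl (fun j => if j = i then 1 else 0) t z κ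
      unfold mo at h1 h2
      rw [h1, h2, hw, hw, mul_inv, zpow_sub₀ (tc_ne t)]
      field_simp
  | hadd p q hp hq =>
    rw [coeff_add, hp, hq, ← integral_add (integrable_cont_Om (hcont p)) (integrable_cont_Om (hcont q))]
    congr 1
    funext z
    rw [map_add]; ring
  | hs c p hp =>
    rw [coeff_smul, hp, smul_eq_mul, ← integral_const_mul]
    congr 1
    funext z
    rw [map_smul, smul_eq_mul]; ring

theorem ev_inj {p q : PP} (h : ∀ z, ev z p = ev z q) : p = q := by
  ext κ
  rw [coeff_eq_integral, coeff_eq_integral]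
  simp_rw [h]

theorem coeff_le_NN (p : PP) (κ : ℕ →₀ ℕ) : ‖coeff κ p‖ ≤ NN p := by
  rw [coeff_eq_integral]
  refine (norm_integral_le_integral_norm _).trans (le_of_eq ?_)
  unfold NN
  congr 1
  funext z
  rw [norm_mul, norm_inv, norm_ev_mo, inv_one, mul_one]

theorem NN_pos {p : PP} (h : p ≠ 0) : 0 < NN p := by
  obtain ⟨κ, hκ⟩ := MvPolynomial.exists_coeff_ne_zero h
  exact lt_of_lt_of_le (norm_pos_iff.mpr hκ) (coeff_le_NN p κ)

end Pool.Agent.H155R3
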