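import Pool.Agent.H155R3.K4

set_option autoImplicit false
set_option linter.all false

/-!
# Density of analytic polynomials
-/

namespace Pool.Agent.H155R3

open MeasureTheory Finset MvPolynomial Filter Topology

/-- Laurent monomials -/
noncomputable def lm (k : ℕ →₀ ℤ) (z : Om) : ℂ := k.prod fun i m => ch i z ^ m

theorem continuous_lm (k : ℕ →₀ ℤ) : Continuous (lm k) := by
  unfold lm Finsupp.prod
  exact continuous_finsetProd _ fun i _ => continuous_ch_zpow _ _

theorem lm_add (k l : ℕ →₀ ℤ) (z : Om) : lm (k + l) z = lm k z * lm l z := by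
  unfold lm
  rw [Finsupp.prod_add_index']
  · intro i; simp
  · intro i a b; rw [zpow_add₀ (ch_ne i z)]

theorem lm_zero (z : Om) : lm 0 z = 1 := by simp [lm]

theorem norm_lm (k : ℕ →₀ ℤ) (z : Om) : ‖lm k z‖ = 1 := by
  unfold lm Finsupp.prod
  rw [norm_prod]
  exact prod_eq_one fun i _ => by rw [norm_zpow, norm_ch, one_zpow]

theorem lm_neg (k : ℕ →₀ ℤ) (z : Om) : lm (-k) z = (starRingEnd ℂ) (lm k z) := by
  have h1 : lm k z * lm (-k) z = 1 := by rw [← lm_add, add_neg_cancel, lm_zero]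
  have h2 : lm k z * (starRingEnd ℂ) (lm k z) = 1 := by
    rw [Complex.mul_conj, Complex.normSq_eq_norm_sq, norm_lm]; simp
  have h3 : lm k z ≠ 0 := by
    intro h
    rw [h, zero_mul] at h1
    exact zero_ne_one h1
  exact mul_left_cancel₀ h3 (h1.trans h2.symm)

noncomputable def lmC (k : ℕ →₀ ℤ) : C(Om, ℂ) := ⟨lm k, continuous_lm k⟩

noncomputable def chC (i : ℕ) : C(Om, ℂ) := ⟨ch i, continuous_ch i⟩

theorem adjoin_le : ∀ g ∈ StarAlgebra.adjoin ℂ (Set.range chC), g ∈ Submodule.span ℂ (Set.range lmC) := by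
  intro g hg
  have hone : (1 : C(Om, ℂ)) ∈ Submodule.span ℂ (Set.range lmC) := by
    apply Submodule.subset_span
    refine ⟨0, ?_⟩
    ext z
    exact lm_zero z
  induction hg using StarAlgebra.adjoin_induction with
  | mem x hx =>
    obtain ⟨i, rfl⟩ := hx
    apply Submodule.subset_span
    refine ⟨Finsupp.single i 1, ?_⟩
    ext z
    show lm (Finsupp.single i 1) z = ch i z
    unfold lm
    rw [Finsupp.prod_single_index (by simp), zpow_one]
  | algebraMap r =>
    rw [Algebra.algebraMap_eq_smul_one]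
    exact Submodule.smul_mem _ _ hone
  | add x y _ _ hx hy => exact Submodule.add_mem _ hx hy
  | mul x y _ _ hx hy =>
    have h1 := Submodule.mul_mem_mul hx hy
    rw [Submodule.span_mul_span] at h1
    refine Submodule.span_mono ?_ h1
    rintro _ ⟨_, ⟨k, rfl⟩, _, ⟨l, rfl⟩, rfl⟩
    refine ⟨k + l, ?_⟩
    ext z
    exact lm_add k l z
  | star x hx0 hx =>
    clear hx0
    induction hx using Submodule.span_induction with
    | mem x hx =>
      obtain ⟨k, rfl⟩ := hx
      apply Submodule.subset_span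
      refine ⟨-k, ?_⟩
      ext z
      exact lm_neg k z
    | zero => rw [star_zero]; exact Submodule.zero_mem _
    | add x y _ _ hx hy => rw [star_add]; exact Submodule.add_mem _ hx hy
    | smul a x _ hx => rw [star_smul]; exact Submodule.smul_mem _ _ hx

theorem span_lm_dense : Dense ((Submodule.span ℂ (Set.range lmC) : Submodule ℂ C(Om, ℂ)) : Set C(Om, ℂ)) := by
  have h1 : (StarAlgebra.adjoin ℂ (Set.range chC)).topologicalClosure = ⊤ := by
    apply ContinuousMap.starSubalgebra_topologicalClosure_eq_top_of_separatesPoints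
    intro x y hxy
    obtain ⟨i, hi⟩ : ∃ i, x i ≠ y i := by
      by_contra h
      push Not at h
      exact hxy (funext h)
    refine ⟨ch i, ⟨chC i, StarAlgebra.subset_adjoin ℂ _ ⟨i, rfl⟩, rfl⟩, ?_⟩
    intro h
    apply hi
    apply AddCircle.injective_toCircle one_ne_zero
    exact Subtype.ext h
  have h2 : Dense ((StarAlgebra.adjoin ℂ (Set.range chC) : StarSubalgebra ℂ C(Om, ℂ)) : Set C(Om, ℂ)) := by
    intro g
    have h3 : g ∈ (StarAlgebra.adjoin ℂ (Set.range chC)).topologicalClosure := by rw [h1]; trivial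
    exact h3
  exact h2.mono fun g hg => adjoin_le g hg

/-- trigonometric polynomials are dense in `L¹` -/
theorem trig_dense (f : Lp ℂ 1 mu) (ε : ℝ) (hε : 0 < ε) : ∃ g ∈ Submodule.span ℂ (Set.range lmC),
    ∫ z, ‖f z - g z‖ ∂mu ≤ ε := by
  obtain ⟨h, hh⟩ := (ContinuousMap.toLp_denseRange ℂ mu ℂ (p := 1) (by norm_num)).exists_dist_lt f (half_pos hε)
  obtain ⟨g, hg, hgd⟩ := Metric.dense_iff.mp span_lm_dense h (ε / 2) (half_pos hε)
  refine ⟨g, hgd, ?_⟩
  have e1 : ∫ z, ‖f z - h z‖ ∂mu ≤ ε / 2 := by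
    rw [dist_eq_norm, L1.norm_eq_integral_norm] at hh
    refine le_trans (le_of_eq ?_) hh.le
    apply integral_congr_ae
    filter_upwards [Lp.coeFn_sub f (ContinuousMap.toLp 1 mu ℂ h), ContinuousMap.coeFn_toLp (p := 1) (𝕜 := ℂ) mu h] with z h1 h2
    rw [h1, Pi.sub_apply, h2]
  have e2 : ∀ z, ‖h z - g z‖ ≤ ε / 2 := by
    intro z
    rw [Metric.mem_ball, dist_eq_norm] at hg
    have := ContinuousMap.norm_coe_le_norm (g - h) z
    rw [ContinuousMap.sub_apply] at this
    rw [norm_sub_rev]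
    linarith
  have hfi : Integrable (fun z => f z) mu := L1.integrable_coeFn f
  have hhi : Integrable (fun z => h z) mu := integrable_cont_Om h.continuous
  have hgi : Integrable (fun z => g z) mu := integrable_cont_Om g.continuous
  calc ∫ z, ‖f z - g z‖ ∂mu ≤ ∫ z, (‖f z - h z‖ + ε / 2) ∂mu := by
        apply integral_mono (hfi.sub hgi).norm ((hfi.sub hhi).norm.add (integrable_const _))
        intro z
        have h3 := norm_sub_le_norm_sub_add_norm_sub (f z) (h z) (g z)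
        have h4 := e2 z
        show ‖f z - g z‖ ≤ ‖f z - h z‖ + ε / 2
        linarith
    _ = (∫ z, ‖f z - h z‖ ∂mu) + ε / 2 := by
        have g1 : Integrable (fun z => ‖f z - h z‖) mu := (hfi.sub hhi).norm
        rw [integral_add g1 (integrable_const _), integral_const]
        simp
    _ ≤ ε := by linarith

/-- variant of the orthogonal expansion with integer degrees -/
theorem orthE' (b : ℕ) (φ : ℕ → ℕ → Om → ℂ) (hφ : ∀ x j, BM (φ x j))
    (ρ : ℕ → TT → Om)
    (hd : ∀ x j t z, φ x j (z + ρ x t) = tc t ^ ((b : ℤ) - j) * φ x j z)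
    (hd' : ∀ x y j t z, x ≠ y → φ y j (z + ρ x t) = φ y j z) (e : ℕ → ℕ)
    (n : ℕ) (h0 : ∀ x < n, e x < 2 * b + 1) :
    ∀ (F : Om → ℂ), BM F → (∀ x < n, ∀ t z, F (z + ρ x t) = tc t ^ ((e x : ℤ) - b) * F z) →
    ∫ z, F z * ∏ x ∈ range n, ∑ j ∈ range (2 * b + 1), φ x j z ∂mu =
      ∫ z, F z * ∏ x ∈ range n, φ x (e x) z ∂mu := by
  induction n with
  | zero => intro F _ _; simp
  | succ n ih =>
    intro F hF hFd
    have e1 : ∀ z, F z * ∏ x ∈ range (n + 1), ∑ j ∈ range (2 * b + 1), φ x j z =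
        ∑ j ∈ range (2 * b + 1), (F z * φ n j z) * ∏ x ∈ range n, ∑ j ∈ range (2 * b + 1), φ x j z := by
      intro z
      rw [prod_range_succ, ← sum_mul, ← mul_sum]
      ring
    simp_rw [e1]
    have hbm : ∀ j, BM fun z => (F z * φ n j z) * ∏ x ∈ range n, ∑ j ∈ range (2 * b + 1), φ x j z := fun j =>
      (hF.mul (hφ n j)).mul (BM.prod _ fun x => BM.sum _ fun j => hφ x j)
    rw [integral_finsetSum _ fun j _ => (hbm j).integrable]
    have e2 : ∀ j ∈ range (2 * b + 1),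
        ∫ z, (F z * φ n j z) * ∏ x ∈ range n, ∑ j ∈ range (2 * b + 1), φ x j z ∂mu =
        if j = e n then ∫ z, F z * ∏ x ∈ range (n + 1), φ x (e x) z ∂mu else 0 := by
      intro j hj
      rw [ih (fun x hx => h0 x (by omega)) (fun z => F z * φ n j z) (hF.mul (hφ n j))]
      · split_ifs with h
        · rw [h]
          congr 1
          funext z
          rw [prod_range_succ]
          ring
        · apply integral_zero_of_flow _ (ρ n) ((e n : ℤ) - j) (by omega)
          intro t z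
          have h1 : ∏ x ∈ range n, φ x (e x) (z + ρ n t) = ∏ x ∈ range n, φ x (e x) z := by
            apply prod_congr rfl
            intro x hx
            rw [mem_range] at hx
            exact hd' n x _ t z (by omega)
          rw [h1, hFd n (by omega), hd]
          have h2 : tc t ^ ((e n : ℤ) - j) = tc t ^ ((e n : ℤ) - b) * tc t ^ ((b : ℤ) - j) := by
            rw [← zpow_add₀ (tc_ne t)]
            congr 1
            ring
          rw [h2]
          ring
      · intro x hx t z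
        rw [hFd x (by omega), hd' x n j t z (by omega)]
        ring
    rw [sum_congr rfl e2, sum_ite_eq', if_pos (mem_range.mpr (h0 n (by omega)))]

section

variable (P : Par) (n : ℕ)

/-- factors of the de la Vallee Poussin kernel -/
noncomputable def ffac (x : ℕ) (ζ z : Om) : ℂ :=
  ∑ j ∈ range (2 * P.b n + 1), vv P n j * ch x z ^ ((j : ℤ) - P.b n) * ch x ζ ^ ((P.b n : ℤ) - j)

noncomputable def KF (q : Om × Om) : ℂ := ∏ x ∈ range n, ffac P n x q.1 q.2

theorem continuous_KF : Continuous (KF P n) := by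
  unfold KF ffac
  apply continuous_finsetProd
  intro x _
  apply continuous_finsetSum
  intro j _
  exact (continuous_const.mul ((continuous_ch_zpow _ _).comp continuous_snd)).mul ((continuous_ch_zpow _ _).comp continuous_fst)

theorem ffac_same (x : ℕ) (ζ z : Om) :
    ∫ t, ‖ffac P n x ζ (z + Pi.single x t)‖ ∂hh ≤ 1 + 1 / ((n : ℝ) + 1) := by
  refine le_trans (le_of_eq ?_) (P.ha n)
  set σ : ℂ := ch x z * (ch x ζ)⁻¹ with hσ
  have hσ1 : ‖σ‖ = 1 := by rw [hσ, norm_mul, norm_inv, norm_ch, norm_ch]; simp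
  have hσ0 : σ ≠ 0 := by intro h; rw [h] at hσ1; simp at hσ1
  have key : ∀ t, ‖ffac P n x ζ (z + Pi.single x t)‖ = ‖∑ j ∈ range (2 * P.b n + 1), vv P n j * (tc t * σ) ^ j‖ := by
    intro t
    have hne : tc t * σ ≠ 0 := mul_ne_zero (tc_ne t) hσ0
    have h3 : ffac P n x ζ (z + Pi.single x t) = ((tc t * σ) ^ (P.b n))⁻¹ *
        ∑ j ∈ range (2 * P.b n + 1), vv P n j * (tc t * σ) ^ j := by
      unfold ffac
      rw [mul_sum]
      apply sum_congr rfl
      intro j _
      rw [ch_shift_eq]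
      have h4 : ((tc t * σ) ^ (P.b n))⁻¹ * (tc t * σ) ^ j = (tc t * σ) ^ ((j : ℤ) - P.b n) := by
        rw [← zpow_natCast, ← zpow_natCast, ← zpow_neg, ← zpow_add₀ hne]
        congr 1
        ring
      have h6 : (tc t * σ) ^ ((j : ℤ) - P.b n) = (tc t * ch x z) ^ ((j : ℤ) - P.b n) * ch x ζ ^ ((P.b n : ℤ) - j) := by
        rw [hσ, ← mul_assoc, mul_zpow _ (ch x ζ)⁻¹, inv_zpow', neg_sub]
      calc vv P n j * (tc t * ch x z) ^ ((j : ℤ) - P.b n) * ch x ζ ^ ((P.b n : ℤ) - j)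
          = vv P n j * ((tc t * ch x z) ^ ((j : ℤ) - P.b n) * ch x ζ ^ ((P.b n : ℤ) - j)) := by ring
        _ = _ := by rw [← h6, ← h4]; ring
    rw [h3, norm_mul, norm_inv, norm_pow, norm_mul, norm_tc, hσ1]
    simp
  simp_rw [key]
  rw [rot_mean _ _ _ hσ1]
  rfl

theorem ffac_ne (x y : ℕ) (h : x ≠ y) (ζ z : Om) (t : TT) : ffac P n y ζ (z + Pi.single x t) = ffac P n y ζ z := by
  unfold ffac
  apply sum_congr rfl
  intro j _
  rw [ch_shift_ne h.symm]

theorem fker_bound (ζ : Om) (k : ℕ) : ∫ z, ‖∏ x ∈ range k, ffac P n x ζ z‖ ∂mu ≤ (1 + 1 / ((n : ℝ) + 1)) ^ k := by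
  have hcg : ∀ x, Continuous fun z => ffac P n x ζ z := fun x => by
    unfold ffac
    apply continuous_finsetSum
    intro j _
    exact (continuous_const.mul (continuous_ch_zpow _ _)).mul continuous_const
  have hcP : ∀ k, Continuous fun z => ‖∏ x ∈ range k, ffac P n x ζ z‖ := fun k =>
    (continuous_finsetProd _ fun x _ => hcg x).norm
  induction k with
  | zero => simp
  | succ k ih =>
    obtain ⟨C, hCC⟩ := (isCompact_range (hcP (k + 1))).isBounded.exists_norm_le
    rw [avg_shift hh (fun t => (Pi.single k t : Om)) (continuous_shift k).measurable _ (hcP (k + 1)).stronglyMeasurable C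
      (fun z => hCC _ ⟨z, rfl⟩)]
    have e1 : ∀ z, ∫ t, ‖∏ x ∈ range (k + 1), ffac P n x ζ (z + Pi.single k t)‖ ∂hh ≤
        ‖∏ x ∈ range k, ffac P n x ζ z‖ * (1 + 1 / ((n : ℝ) + 1)) := by
      intro z
      have e2 : ∀ t, ‖∏ x ∈ range (k + 1), ffac P n x ζ (z + Pi.single k t)‖ =
          ‖∏ x ∈ range k, ffac P n x ζ z‖ * ‖ffac P n k ζ (z + Pi.single k t)‖ := by
        intro t
        rw [prod_range_succ, norm_mul]
        congr 2
        apply prod_congr rfl
        intro x hx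
        rw [mem_range] at hx
        exact ffac_ne P n k x (by omega) ζ z t
      simp_rw [e2]
      rw [integral_const_mul]
      exact mul_le_mul_of_nonneg_left (ffac_same P n k ζ z) (norm_nonneg _)
    calc ∫ z, ∫ t, ‖∏ x ∈ range (k + 1), ffac P n x ζ (z + Pi.single k t)‖ ∂hh ∂mu
        ≤ ∫ z, ‖∏ x ∈ range k, ffac P n x ζ z‖ * (1 + 1 / ((n : ℝ) + 1)) ∂mu := by
          apply integral_mono_of_nonneg
          · exact Filter.Eventually.of_forall fun z => integral_nonneg fun _ => norm_nonneg _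
          · exact (integrable_cont_Om' (hcP k)).mul_const _
          · exact Filter.Eventually.of_forall e1
      _ = (∫ z, ‖∏ x ∈ range k, ffac P n x ζ z‖ ∂mu) * (1 + 1 / ((n : ℝ) + 1)) := integral_mul_const _ _
      _ ≤ (1 + 1 / ((n : ℝ) + 1)) ^ k * (1 + 1 / ((n : ℝ) + 1)) := mul_le_mul_of_nonneg_right ih (by positivity)
      _ = (1 + 1 / ((n : ℝ) + 1)) ^ (k + 1) := (pow_succ _ _).symm

theorem KF_le (h : Om → ℂ) (hh : Integrable h mu) :
    ∫ z, ‖∫ ζ, h ζ * KF P n (ζ, z) ∂mu‖ ∂mu ≤ 3 * ∫ z, ‖h z‖ ∂mu := by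
  obtain ⟨C, hC⟩ := (isCompact_range (continuous_KF P n)).isBounded.exists_norm_le
  have h1 := kernel_bound h hh (KF P n) (continuous_KF P n).stronglyMeasurable C
    (fun p => hC _ ⟨p, rfl⟩) ((1 + 1 / ((n : ℝ) + 1)) ^ n) (fun ζ => fker_bound P n ζ n)
  refine h1.trans ?_
  exact mul_le_mul_of_nonneg_right (cst_pow n) (integral_nonneg fun _ => norm_nonneg _)

theorem lm_single (x : ℕ) (t : TT) (k : ℕ →₀ ℤ) (z : Om) : lm k (z + Pi.single x t) = tc t ^ (k x) * lm k z := by
  unfold lm Finsupp.prod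
  by_cases hx : x ∈ k.support
  · rw [← mul_prod_erase _ _ hx, ← mul_prod_erase _ _ hx]
    simp only
    rw [ch_shift_eq, mul_zpow]
    have : ∏ i ∈ k.support.erase x, ch i (z + Pi.single x t) ^ k i = ∏ i ∈ k.support.erase x, ch i z ^ k i := by
      apply prod_congr rfl
      intro i hi
      rw [mem_erase] at hi
      rw [ch_shift_ne hi.1]
    rw [this]
    ring
  · rw [Finsupp.notMem_support_iff.mp hx, zpow_zero, one_mul]
    apply prod_congr rfl
    intro i hi
    have : i ≠ x := fun h => hx (h ▸ hi)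
    simp only
    rw [ch_shift_ne this]

theorem KF_lm (k : ℕ →₀ ℤ) (hs : ∀ i ∈ k.support, i < n) (hk : ∀ i, |k i| ≤ P.a n) (z : Om) :
    ∫ ζ, lm k ζ * KF P n (ζ, z) ∂mu = lm k z := by
  have hab := P.hab n
  have hb : ∀ i, ((k i + P.b n).toNat : ℤ) = k i + P.b n := by
    intro i
    have h1 := hk i
    rw [abs_le] at h1
    apply Int.toNat_of_nonneg
    omega
  have e1 : ∀ ζ, lm k ζ * KF P n (ζ, z) = lm k ζ *
      ∏ x ∈ range n, ∑ j ∈ range (2 * P.b n + 1), (fun x j ζ => vv P n j * ch x z ^ ((j : ℤ) - P.b n) *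
        ch x ζ ^ ((P.b n : ℤ) - j)) x j ζ := by
    intro ζ
    rfl
  simp_rw [e1]
  have g1 : ∀ x j, BM ((fun x j ζ => vv P n j * ch x z ^ ((j : ℤ) - P.b n) * ch x ζ ^ ((P.b n : ℤ) - j)) x j) := by
    intro x j
    apply BM.of_continuous
    exact continuous_const.mul (continuous_ch_zpow _ _)
  have g2 : ∀ x j t ζ, (fun x j ζ => vv P n j * ch x z ^ ((j : ℤ) - P.b n) * ch x ζ ^ ((P.b n : ℤ) - j)) x j
      (ζ + (fun x t => (Pi.single x t : Om)) x t) = tc t ^ ((P.b n : ℤ) - j) *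
      (fun x j ζ => vv P n j * ch x z ^ ((j : ℤ) - P.b n) * ch x ζ ^ ((P.b n : ℤ) - j)) x j ζ := by
    intro x j t ζ
    simp only
    rw [ch_shift_eq, mul_zpow]
    ring
  have g3 : ∀ x y j t ζ, x ≠ y → (fun x j ζ => vv P n j * ch x z ^ ((j : ℤ) - P.b n) * ch x ζ ^ ((P.b n : ℤ) - j)) y j
      (ζ + (fun x t => (Pi.single x t : Om)) x t) =
      (fun x j ζ => vv P n j * ch x z ^ ((j : ℤ) - P.b n) * ch x ζ ^ ((P.b n : ℤ) - j)) y j ζ := by
    intro x y j t ζ hxy
    simp only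
    rw [ch_shift_ne hxy.symm]
  have g4 : ∀ x < n, (k x + P.b n).toNat < 2 * P.b n + 1 := by
    intro x _
    have h1 := hk x
    have h2 := hb x
    rw [abs_le] at h1
    omega
  have g5 : BM (lm k) := BM.of_continuous (continuous_lm k)
  have g6 : ∀ x < n, ∀ t ζ, lm k (ζ + (fun x t => (Pi.single x t : Om)) x t) =
      tc t ^ ((((fun x => (k x + P.b n).toNat) x : ℕ) : ℤ) - P.b n) * lm k ζ := by
    intro x _ t ζ
    simp only
    rw [lm_single, hb x]
    congr 2
    ring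
  rw [orthE' (P.b n) (fun x j ζ => vv P n j * ch x z ^ ((j : ℤ) - P.b n) * ch x ζ ^ ((P.b n : ℤ) - j)) g1
    (fun x t => Pi.single x t) g2 g3 (fun x => (k x + P.b n).toNat) n g4 (lm k) g5 g6]
  have e2 : ∀ ζ, lm k ζ * ∏ x ∈ range n, (fun x j ζ => vv P n j * ch x z ^ ((j : ℤ) - P.b n) *
      ch x ζ ^ ((P.b n : ℤ) - j)) x ((k x + P.b n).toNat) ζ = lm k z := by
    intro ζ
    have h1 : ∀ x, (fun x j ζ => vv P n j * ch x z ^ ((j : ℤ) - P.b n) * ch x ζ ^ ((P.b n : ℤ) - j)) x ((k x + P.b n).toNat) ζ =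
        ch x z ^ (k x) * (ch x ζ ^ (k x))⁻¹ := by
      intro x
      simp only
      have h2 : vv P n (k x + P.b n).toNat = 1 := by
        unfold vv
        rw [hb x, add_sub_cancel_right]
        exact vc_one _ _ hab _ (hk x)
      rw [h2, hb x, one_mul, ← zpow_neg]
      congr 2 <;> ring
    have h3 : ∀ w : Om, lm k w = ∏ x ∈ range n, ch x w ^ (k x) := by
      intro w
      unfold lm Finsupp.prod
      apply prod_subset
      · intro i hi
        exact mem_range.mpr (hs i hi)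
      · intro i _ hi
        simp only
        rw [Finsupp.notMem_support_iff.mp hi, zpow_zero]
    simp_rw [h1]
    rw [prod_mul_distrib, ← h3 z, h3 ζ, mul_comm, mul_assoc, ← prod_mul_distrib]
    have h4 : ∏ x ∈ range n, ((ch x ζ ^ (k x))⁻¹ * ch x ζ ^ (k x)) = 1 :=
      prod_eq_one fun x _ => inv_mul_cancel₀ (zpow_ne_zero _ (ch_ne _ _))
    rw [h4, mul_one]
  simp_rw [e2]
  simp

end

theorem KF_trig (P : Par) (g : C(Om, ℂ)) (hg : g ∈ Submodule.span ℂ (Set.range lmC)) :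
    ∃ n0, ∀ n ≥ n0, ∀ z, ∫ ζ, g ζ * KF P n (ζ, z) ∂mu = g z := by
  have hI : ∀ (g : C(Om, ℂ)) n z, Integrable (fun ζ => g ζ * KF P n (ζ, z)) mu := fun g n z =>
    integrable_cont_Om (g.continuous.mul ((continuous_KF P n).comp (by fun_prop)))
  induction hg using Submodule.span_induction with
  | mem x hx =>
    obtain ⟨k, rfl⟩ := hx
    refine ⟨(k.support.sup id + 1) + k.support.sup (fun i => (k i).natAbs), fun n hn z => ?_⟩
    apply KF_lm
    · intro i hi
      have : i ≤ k.support.sup id := Finset.le_sup (f := id) hi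
      omega
    · intro i
      have h1 := P.han n
      by_cases h : k i = 0
      · rw [h]; simp
      · have h2 : (k i).natAbs ≤ k.support.sup (fun i => (k i).natAbs) :=
          Finset.le_sup (f := fun i => (k i).natAbs) (Finsupp.mem_support_iff.mpr h)
        rw [Int.abs_eq_natAbs]
        exact_mod_cast (by omega : (k i).natAbs ≤ P.a n)
  | zero => exact ⟨0, fun n _ z => by simp⟩
  | add x y _ _ hx hy =>
    obtain ⟨n1, h1⟩ := hx
    obtain ⟨n2, h2⟩ := hy
    refine ⟨n1 + n2, fun n hn z => ?_⟩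
    have e : ∀ ζ, (x + y) ζ * KF P n (ζ, z) = x ζ * KF P n (ζ, z) + y ζ * KF P n (ζ, z) := fun ζ => by
      rw [ContinuousMap.add_apply, add_mul]
    simp_rw [e]
    rw [integral_add (hI x n z) (hI y n z), h1 n (by omega) z, h2 n (by omega) z]
    rfl
  | smul a x _ hx =>
    obtain ⟨n1, h1⟩ := hx
    refine ⟨n1, fun n hn z => ?_⟩
    have e : ∀ ζ, (a • x) ζ * KF P n (ζ, z) = a * (x ζ * KF P n (ζ, z)) := fun ζ => by
      rw [ContinuousMap.smul_apply, smul_eq_mul, mul_assoc]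
    simp_rw [e]
    rw [integral_const_mul, h1 n hn z]
    rfl

/-- spectral condition -/
def Spec (f : Om → ℂ) : Prop := ∀ k : ℕ →₀ ℤ, (∃ i, k i < 0) →
  ∫ z, (∏ i ∈ k.support, (fourier (-(k i)) (z i) : ℂ)) * f z ∂mu = 0

theorem fourier_prod (k : ℕ →₀ ℤ) (s : Finset ℕ) (hs : k.support ⊆ s) (z : Om) :
    (∏ i ∈ k.support, (fourier (-(k i)) (z i) : ℂ)) = ∏ i ∈ s, ch i z ^ (-(k i)) := by
  have h1 : ∀ i, (fourier (-(k i)) (z i) : ℂ) = ch i z ^ (-(k i)) := fun i => (tc_zpow _ _).symm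
  simp_rw [h1]
  apply prod_subset hs
  intro i _ hi
  rw [Finsupp.notMem_support_iff.mp hi]
  simp

theorem KF_poly (P : Par) (n : ℕ) (f : Om → ℂ) (hf : Integrable f mu) (hs : Spec f) :
    ∃ p : PP, ∀ z, ∫ ζ, f ζ * KF P n (ζ, z) ∂mu = ev z p := by
  classical
  set T : Finset (Fin n → ℕ) := Fintype.piFinset fun _ => range (2 * P.b n + 1) with hT
  set cf : (Fin n → ℕ) → ℂ := fun φ => (∏ x : Fin n, vv P n (φ x)) * ∫ ζ, f ζ * ∏ x : Fin n, ch x ζ ^ ((P.b n : ℤ) - φ x) ∂mu with hcf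
  refine ⟨∑ φ ∈ T, if (∀ x, P.b n ≤ φ x) then cf φ • ∏ x : Fin n, (X (x : ℕ) : PP) ^ (φ x - P.b n) else 0, fun z => ?_⟩
  have e1 : ∀ ζ, f ζ * KF P n (ζ, z) = ∑ φ ∈ T, ((∏ x : Fin n, vv P n (φ x)) * ∏ x : Fin n, ch x z ^ ((φ x : ℤ) - P.b n)) *
      (f ζ * ∏ x : Fin n, ch x ζ ^ ((P.b n : ℤ) - φ x)) := by
    intro ζ
    unfold KF ffac
    rw [prod_range, prod_univ_sum, mul_sum]
    apply sum_congr rfl
    intro φ _
    rw [prod_mul_distrib, prod_mul_distrib]
    ring
  have hI : ∀ φ : Fin n → ℕ, Integrable (fun ζ => f ζ * ∏ x : Fin n, ch x ζ ^ ((P.b n : ℤ) - φ x)) mu := by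
    intro φ
    apply hf.mul_bdd (c := 1)
    · exact (continuous_finsetProd _ fun x _ => continuous_ch_zpow _ _).aestronglyMeasurable
    · refine Filter.Eventually.of_forall fun ζ => ?_
      rw [norm_prod]
      exact (prod_eq_one fun x _ => by rw [norm_zpow, norm_ch, one_zpow]).le
  simp_rw [e1]
  rw [integral_finsetSum _ fun φ _ => (hI φ).const_mul _, map_sum]
  apply sum_congr rfl
  intro φ _
  rw [integral_const_mul]
  split_ifs with h
  · rw [map_smul, map_prod, smul_eq_mul]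
    simp only [hcf, map_pow, ev_X]
    have h2 : ∏ x : Fin n, ch x z ^ ((φ x : ℤ) - P.b n) = ∏ x : Fin n, ch x z ^ (φ x - P.b n) := by
      apply prod_congr rfl
      intro x _
      rw [← zpow_natCast]
      congr 1
      have := h x
      omega
    rw [h2]
    ring
  · rw [map_zero]
    push Not at h
    obtain ⟨x0, hx0⟩ := h
    have h3 : ∫ ζ, f ζ * ∏ x : Fin n, ch x ζ ^ ((P.b n : ℤ) - φ x) ∂mu = 0 := by
      set k : ℕ →₀ ℤ := Finsupp.onFinset (range n) (fun i => if h : i < n then (φ ⟨i, h⟩ : ℤ) - P.b n else 0) (by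
        intro i hi
        rw [mem_range]
        by_contra h
        exact hi (dif_neg h)) with hk
      have hk1 : ∀ x : Fin n, k x = (φ x : ℤ) - P.b n := by
        intro x
        rw [hk, Finsupp.onFinset_apply, dif_pos x.2]
      have h4 := hs k ⟨x0, by rw [hk1]; omega⟩
      rw [← h4]
      congr 1
      funext ζ
      rw [fourier_prod k (range n) (Finsupp.support_onFinset_subset) ζ, prod_range, mul_comm]
      congr 1
      apply prod_congr rfl
      intro x _
      rw [hk1]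
      congr 1
      ring
    rw [h3, mul_zero]

/-- density of the analytic polynomials -/
theorem poly_dense (P : Par) (f : Lp ℂ 1 mu) (hs : Spec f) (ε : ℝ) (hε : 0 < ε) :
    ∃ p : PP, ∫ z, ‖f z - ev z p‖ ∂mu ≤ ε := by
  obtain ⟨g, hg, hgd⟩ := trig_dense f (ε / 4) (by positivity)
  obtain ⟨n, hn⟩ := KF_trig P g hg
  have hfi : Integrable (fun z => f z) mu := L1.integrable_coeFn f
  have hgi : Integrable (fun z => g z) mu := integrable_cont_Om g.continuous
  obtain ⟨p, hp⟩ := KF_poly P n f hfi hs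
  refine ⟨p, ?_⟩
  have hKc : ∀ z, Continuous fun ζ => KF P n (ζ, z) := fun z => (continuous_KF P n).comp (by fun_prop)
  have hKb : ∀ z, ∃ C, ∀ ζ, ‖KF P n (ζ, z)‖ ≤ C := fun z => by
    obtain ⟨C, hC⟩ := (isCompact_range (hKc z)).isBounded.exists_norm_le
    exact ⟨C, fun ζ => hC _ ⟨ζ, rfl⟩⟩
  have e1 : ∀ z, f z - ev z p = (f z - g z) + ∫ ζ, (g ζ - f ζ) * KF P n (ζ, z) ∂mu := by
    intro z
    obtain ⟨C, hC⟩ := hKb z
    have i1 : Integrable (fun ζ => g ζ * KF P n (ζ, z)) mu :=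
      hgi.mul_bdd (hKc z).aestronglyMeasurable (Filter.Eventually.of_forall hC)
    have i2 : Integrable (fun ζ => f ζ * KF P n (ζ, z)) mu :=
      hfi.mul_bdd (hKc z).aestronglyMeasurable (Filter.Eventually.of_forall hC)
    have h1 : ∫ ζ, (g ζ - f ζ) * KF P n (ζ, z) ∂mu = g z - ev z p := by
      simp_rw [sub_mul]
      rw [integral_sub i1 i2, hn n le_rfl z, hp z]
    rw [h1]; ring
  have hd : Integrable (fun ζ => g ζ - f ζ) mu := hgi.sub hfi
  have h2 := KF_le P n (fun ζ => g ζ - f ζ) hd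
  have h3 : ∫ z, ‖g z - f z‖ ∂mu = ∫ z, ‖f z - g z‖ ∂mu := by
    congr 1; funext z; rw [norm_sub_rev]
  have i3 : Integrable (fun z => ‖∫ ζ, (g ζ - f ζ) * KF P n (ζ, z) ∂mu‖) mu := by
    have h4 : (fun z => ∫ ζ, (g ζ - f ζ) * KF P n (ζ, z) ∂mu) = fun z => (f z - ev z p) - (f z - g z) := by
      funext z; rw [e1 z]; ring
    rw [show (fun z => ‖∫ ζ, (g ζ - f ζ) * KF P n (ζ, z) ∂mu‖) = fun z => ‖(f z - ev z p) - (f z - g z)‖ from by
      funext z; rw [e1 z]; congr 1; ring]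
    exact ((hfi.sub (integrable_ev p)).sub (hfi.sub hgi)).norm
  have i4 : Integrable (fun z => ‖f z - g z‖) mu := (hfi.sub hgi).norm
  calc ∫ z, ‖f z - ev z p‖ ∂mu ≤ ∫ z, (‖f z - g z‖ + ‖∫ ζ, (g ζ - f ζ) * KF P n (ζ, z) ∂mu‖) ∂mu := by
        apply integral_mono (hfi.sub (integrable_ev p)).norm (i4.add i3)
        intro z
        show ‖f z - ev z p‖ ≤ ‖f z - g z‖ + ‖∫ ζ, (g ζ - f ζ) * KF P n (ζ, z) ∂mu‖
        rw [e1 z]
        exact norm_add_le _ _
    _ = (∫ z, ‖f z - g z‖ ∂mu) + ∫ z, ‖∫ ζ, (g ζ - f ζ) * KF P n (ζ, z) ∂mu‖ ∂mu := integral_add i4 i3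
    _ ≤ ε := by linarith

end Pool.Agent.H155R3
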