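import Pool.Agent.H155R3.K8
import Pool.Agent.H155R3.K9

set_option autoImplicit false
set_option linter.all false

/-!
# Schauder basis of the Hardy space of the infinite torus
-/

namespace Pool.Agent.H155R3

open MeasureTheory Finset MvPolynomial Filter Topology

/-- polynomials as elements of `L¹` -/
noncomputable def emb : PP →ₗ[ℂ] Lp ℂ 1 mu where
  toFun p := (integrable_ev p).toL1 (fun z => ev z p)
  map_add' p q := by
    rw [← Integrable.toL1_add]
    congr 1
    funext z
    simp
  map_smul' c p := by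
    rw [RingHom.id_apply, ← Integrable.toL1_smul]
    congr 1
    funext z
    simp

theorem coe_emb (p : PP) : (emb p : Om → ℂ) =ᵐ[mu] fun z => ev z p := Integrable.coeFn_toL1 (integrable_ev p)

theorem norm_emb (p : PP) : ‖emb p‖ = NN p := by
  unfold NN
  exact L1.norm_of_fun_eq_integral_norm (integrable_ev p)

theorem spec_poly (p : PP) : Spec (fun z => ev z p) := by
  intro k hk
  have hc : ∀ p : PP, Continuous fun z => (∏ i ∈ k.support, (fourier (-(k i)) (z i) : ℂ)) * ev z p := by
    intro p
    simp_rw [fourier_prod k k.support (Finset.Subset.refl _)]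
    exact (continuous_finsetProd _ fun i _ => continuous_ch_zpow _ _).mul (continuous_ev p)
  induction p using mo_ind with
  | h0 κ =>
    obtain ⟨i, hi⟩ := hk
    have hik : i ∈ k.support := by rw [Finsupp.mem_support_iff]; omega
    apply integral_zero_of_flow _ (fun t => Pi.single i t) ((κ i : ℤ) - k i) (by omega)
    intro t z
    simp only
    rw [fourier_prod k k.support (Finset.Subset.refl _), fourier_prod k k.support (Finset.Subset.refl _), ev_single,
      ← mul_prod_erase _ _ hik, ← mul_prod_erase _ _ hik, ch_shift_eq, mul_zpow]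
    have h1 : ∏ j ∈ k.support.erase i, ch j (z + Pi.single i t) ^ (-(k j)) = ∏ j ∈ k.support.erase i, ch j z ^ (-(k j)) := by
      apply prod_congr rfl
      intro j hj
      rw [mem_erase] at hj
      rw [ch_shift_ne hj.1]
    rw [h1, sub_eq_add_neg, zpow_add₀ (tc_ne t)]
    ring
  | hadd p q hp hq =>
    have e : ∀ z, (∏ i ∈ k.support, (fourier (-(k i)) (z i) : ℂ)) * ev z (p + q) =
        (∏ i ∈ k.support, (fourier (-(k i)) (z i) : ℂ)) * ev z p + (∏ i ∈ k.support, (fourier (-(k i)) (z i) : ℂ)) * ev z q := by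
      intro z; rw [map_add]; ring
    simp_rw [e]
    rw [integral_add (integrable_cont_Om (hc p)) (integrable_cont_Om (hc q)), hp, hq, add_zero]
  | hs c p hp =>
    have e : ∀ z, (∏ i ∈ k.support, (fourier (-(k i)) (z i) : ℂ)) * ev z (c • p) =
        c * ((∏ i ∈ k.support, (fourier (-(k i)) (z i) : ℂ)) * ev z p) := by
      intro z; rw [map_smul, smul_eq_mul]; ring
    simp_rw [e]
    rw [integral_const_mul, hp, mul_zero]

theorem spec_congr {f g : Om → ℂ} (h : f =ᵐ[mu] g) (hf : Spec f) : Spec g := by
  intro k hk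
  rw [← hf k hk]
  apply integral_congr_ae
  filter_upwards [h] with z hz
  rw [hz]

theorem final : ∃ e : ℕ → Lp ℂ 1 mu, (∀ n, Spec (e n)) ∧
    ∀ f : Lp ℂ 1 mu, Spec f → ∃! c : ℕ → ℂ, Tendsto (fun N : ℕ => ∑ n ∈ Finset.range N, c n • e n) atTop (𝓝 f) := by
  obtain ⟨P⟩ := exists_par
  obtain ⟨b, C, hb0, hspan, hC⟩ := exists_basic_poly P
  refine ⟨fun n => emb (b n), fun n => spec_congr (coe_emb (b n)).symm (spec_poly (b n)), fun f hf => ?_⟩
  have hsum : ∀ (c : ℕ → ℂ) (n : ℕ), ∑ i ∈ Finset.range n, c i • emb (b i) = emb (∑ i ∈ Finset.range n, c i • b i) := by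
    intro c n
    rw [map_sum]
    apply sum_congr rfl
    intro i _
    rw [map_smul]
  apply grunblum (fun n => emb (b n)) ?_ C ?_ f ?_
  · intro i h
    have h1 := norm_emb (b i)
    rw [h, norm_zero] at h1
    exact absurd h1.symm (NN_pos (hb0 i)).ne'
  · intro c n m hnm
    rw [hsum, hsum, norm_emb, norm_emb]
    exact hC c n m hnm
  · rw [Metric.mem_closure_iff]
    intro ε hε
    obtain ⟨p, hp⟩ := poly_dense P f hf (ε / 2) (half_pos hε)
    refine ⟨emb p, ?_, ?_⟩
    · have h1 : emb p ∈ Submodule.map emb (Submodule.span ℂ (Set.range b)) := Submodule.mem_map_of_mem (hspan p)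
      rw [Submodule.map_span, ← Set.range_comp] at h1
      exact h1
    · rw [dist_eq_norm, L1.norm_eq_integral_norm]
      refine lt_of_le_of_lt ?_ (half_lt_self hε)
      refine le_trans (le_of_eq ?_) hp
      apply integral_congr_ae
      filter_upwards [Lp.coeFn_sub f (emb p), coe_emb p] with z h1 h2
      rw [h1, Pi.sub_apply, h2]

end Pool.Agent.H155R3
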