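import Pool.Agent.H155R3.K10

set_option autoImplicit false
set_option linter.all false

/-!
# Schauder basis: closure form
-/

namespace Pool.Agent.H155R3

open MeasureTheory Finset MvPolynomial Filter Topology

/-- the set of monomials in `L¹` -/
def monoSet : Set (Lp ℂ 1 mu) :=
  {g | ∃ ν : ℕ →₀ ℕ, (g : Om → ℂ) =ᵐ[mu] (fun θ => ∏ j ∈ ν.support, (fourier (ν j : ℤ) (θ j) : ℂ))}

theorem ev_mo_fourier (ν : ℕ →₀ ℕ) (θ : Om) : ev θ (mo ν) = ∏ j ∈ ν.support, (fourier (ν j : ℤ) (θ j) : ℂ) := by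
  rw [ev_mo, Finsupp.prod]
  apply prod_congr rfl
  intro j _
  rw [← tc_zpow, zpow_natCast]
  rfl

theorem emb_mo_mem (ν : ℕ →₀ ℕ) : emb (mo ν) ∈ monoSet := by
  refine ⟨ν, ?_⟩
  filter_upwards [coe_emb (mo ν)] with θ h
  rw [h, ev_mo_fourier]

theorem monoSet_eq (g : Lp ℂ 1 mu) (hg : g ∈ monoSet) : ∃ ν, g = emb (mo ν) := by
  obtain ⟨ν, hν⟩ := hg
  refine ⟨ν, ?_⟩
  apply Lp.ext
  filter_upwards [hν, coe_emb (mo ν)] with θ h1 h2
  rw [h1, h2, ev_mo_fourier]

theorem emb_mem_span (p : PP) : emb p ∈ Submodule.span ℂ monoSet := by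
  induction p using mo_ind with
  | h0 κ => exact Submodule.subset_span (emb_mo_mem κ)
  | hadd p q hp hq => rw [map_add]; exact Submodule.add_mem _ hp hq
  | hs c p hp => rw [map_smul]; exact Submodule.smul_mem _ _ hp

theorem final' : ∃ e : ℕ → Lp ℂ 1 mu, (∀ n, e n ∈ (Submodule.span ℂ monoSet).topologicalClosure) ∧
    ∀ f ∈ (Submodule.span ℂ monoSet).topologicalClosure,
      ∃! c : ℕ → ℂ, Tendsto (fun N : ℕ => ∑ n ∈ Finset.range N, c n • e n) atTop (𝓝 f) := by
  obtain ⟨P⟩ := exists_par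
  obtain ⟨b, C, hb0, hspan, hC⟩ := exists_basic_poly P
  refine ⟨fun n => emb (b n), fun n => Submodule.le_topologicalClosure _ (emb_mem_span (b n)), fun f hf => ?_⟩
  have hsum : ∀ (c : ℕ → ℂ) (n : ℕ), ∑ i ∈ Finset.range n, c i • emb (b i) = emb (∑ i ∈ Finset.range n, c i • b i) := by
    intro c n
    rw [map_sum]
    apply sum_congr rfl
    intro i _
    rw [map_smul]
  apply grunblum (fun n => emb (b n)) ?_ C ?_ f ?_
  · intro i h
    have h1 := norm_emb (b i)
    rw [h, norm_zero] at h1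
    exact absurd h1.symm (NN_pos (hb0 i)).ne'
  · intro c n m hnm
    rw [hsum, hsum, norm_emb, norm_emb]
    exact hC c n m hnm
  · have hle : Submodule.span ℂ monoSet ≤ Submodule.span ℂ (Set.range fun n => emb (b n)) := by
      rw [Submodule.span_le]
      intro g hg
      obtain ⟨ν, rfl⟩ := monoSet_eq g hg
      have h1 : emb (mo ν) ∈ Submodule.map emb (Submodule.span ℂ (Set.range b)) := Submodule.mem_map_of_mem (hspan (mo ν))
      rw [Submodule.map_span, ← Set.range_comp] at h1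
      exact h1
    exact closure_mono hle hf

end Pool.Agent.H155R3
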