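import Mathlib

set_option autoImplicit false
set_option linter.all false

/-!
# Algebra of the dilation
-/

namespace Pool.Agent.H155R3

/-- The multiplication table used in the dilation argument. -/
structure DTab {R : Type*} [Ring R] (e0 e1 f0 F α0 α1 γ0 γ1 s t : R) : Prop where
  h_e0_e0 : e0 * e0 = e0
  h_e1_e1 : e1 * e1 = e1
  h_f0_f0 : f0 * f0 = f0
  h_F_F : F * F = F
  h_e0_e1 : e0 * e1 = 0
  h_e1_e0 : e1 * e0 = 0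
  h_e0_f0 : e0 * f0 = 0
  h_f0_e0 : f0 * e0 = 0
  h_e1_f0 : e1 * f0 = 0
  h_f0_e1 : f0 * e1 = 0
  h_F_e0 : F * e0 = 0
  h_e0_F : e0 * F = 0
  h_F_e1 : F * e1 = 0
  h_e1_F : e1 * F = 0
  h_F_f0 : F * f0 = 0
  h_f0_F : f0 * F = 0
  h_α0_e0 : α0 * e0 = α0
  h_α1_e1 : α1 * e1 = α1
  h_α0_e1 : α0 * e1 = 0
  h_α1_e0 : α1 * e0 = 0
  h_α0_f0 : α0 * f0 = 0
  h_α0_F : α0 * F = 0
  h_e0_α0 : e0 * α0 = 0
  h_e1_α0 : e1 * α0 = 0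
  h_f0_α0 : f0 * α0 = 0
  h_F_α0 : F * α0 = 0
  h_α0_α0 : α0 * α0 = 0
  h_α0_α1 : α0 * α1 = 0
  h_α1_f0 : α1 * f0 = 0
  h_α1_F : α1 * F = 0
  h_e0_α1 : e0 * α1 = 0
  h_e1_α1 : e1 * α1 = 0
  h_f0_α1 : f0 * α1 = 0
  h_F_α1 : F * α1 = 0
  h_α1_α0 : α1 * α0 = 0
  h_α1_α1 : α1 * α1 = 0
  h_e0_γ0 : e0 * γ0 = γ0
  h_e1_γ1 : e1 * γ1 = γ1
  h_e1_γ0 : e1 * γ0 = 0
  h_e0_γ1 : e0 * γ1 = 0
  h_f0_γ0 : f0 * γ0 = 0
  h_F_γ0 : F * γ0 = 0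
  h_γ0_e0 : γ0 * e0 = 0
  h_γ0_e1 : γ0 * e1 = 0
  h_γ0_f0 : γ0 * f0 = 0
  h_γ0_F : γ0 * F = 0
  h_γ0_γ0 : γ0 * γ0 = 0
  h_γ0_γ1 : γ0 * γ1 = 0
  h_f0_γ1 : f0 * γ1 = 0
  h_F_γ1 : F * γ1 = 0
  h_γ1_e0 : γ1 * e0 = 0
  h_γ1_e1 : γ1 * e1 = 0
  h_γ1_f0 : γ1 * f0 = 0
  h_γ1_F : γ1 * F = 0
  h_γ1_γ0 : γ1 * γ0 = 0
  h_γ1_γ1 : γ1 * γ1 = 0
  h_α0_γ1 : α0 * γ1 = 0
  h_α1_γ0 : α1 * γ0 = 0
  h_s_e0 : s * e0 = s
  h_s_e1 : s * e1 = 0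
  h_s_f0 : s * f0 = 0
  h_s_F : s * F = 0
  h_e0_s : e0 * s = 0
  h_e1_s : e1 * s = 0
  h_f0_s : f0 * s = s
  h_F_s : F * s = 0
  h_α0_s : α0 * s = 0
  h_α1_s : α1 * s = 0
  h_γ0_s : γ0 * s = 0
  h_γ1_s : γ1 * s = 0
  h_s_α0 : s * α0 = 0
  h_s_α1 : s * α1 = 0
  h_s_γ1 : s * γ1 = 0
  h_s_s : s * s = 0
  h_t_f0 : t * f0 = t
  h_t_e0 : t * e0 = 0
  h_t_e1 : t * e1 = 0
  h_t_F : t * F = 0
  h_e0_t : e0 * t = t
  h_e1_t : e1 * t = 0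
  h_f0_t : f0 * t = 0
  h_F_t : F * t = 0
  h_α1_t : α1 * t = 0
  h_γ0_t : γ0 * t = 0
  h_γ1_t : γ1 * t = 0
  h_t_α0 : t * α0 = 0
  h_t_α1 : t * α1 = 0
  h_t_γ0 : t * γ0 = 0
  h_t_γ1 : t * γ1 = 0
  h_t_t : t * t = 0
  h_s_t : s * t = f0
  h_t_s : t * s = e0
  k1 : α1 * (γ1 * α0) = α0
  k2 : γ0 * (α1 * γ1) = γ0

section

variable {R : Type*} [Ring R] (e0 e1 f0 F α0 α1 γ0 γ1 s t : R)

def dw (e α γ : R) : R := (2 * e - γ * α) * γ + (e - γ * α)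
def di (e α γ : R) : R := α + (e - γ * α)
def dP0 : R := di e0 α0 γ0 * dw e0 α0 γ0 + F
def dP1 : R := di e1 α1 γ1 * dw e1 α1 γ1 + (F + (e0 + f0))
def dD : R := dw e1 α1 γ1 + e0 + (γ1 * α0 + (e0 - γ0 * α0)) * (t - dw e0 α0 γ0)
def dU : R := (2 * e0 - γ0 * α0) * (γ0 * α1) + (e0 - γ0 * α0)
def dJ : R := di e1 α1 γ1 + e0 - (di e0 α0 γ0 - s) * dU e0 α0 α1 γ0

theorem d_DJ (T : DTab e0 e1 f0 F α0 α1 γ0 γ1 s t) :
    dD e0 e1 α0 α1 γ0 γ1 t * dJ e0 e1 α0 α1 γ0 γ1 s = e1 + e0 := by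
  have h_e0_e0_ : ∀ X : R, e0 * (e0 * X) = e0 * X := fun X => by rw [← mul_assoc, T.h_e0_e0]
  have h_e1_e1_ : ∀ X : R, e1 * (e1 * X) = e1 * X := fun X => by rw [← mul_assoc, T.h_e1_e1]
  have h_f0_f0_ : ∀ X : R, f0 * (f0 * X) = f0 * X := fun X => by rw [← mul_assoc, T.h_f0_f0]
  have h_F_F_ : ∀ X : R, F * (F * X) = F * X := fun X => by rw [← mul_assoc, T.h_F_F]
  have h_e0_e1_ : ∀ X : R, e0 * (e1 * X) = 0 := fun X => by rw [← mul_assoc, T.h_e0_e1]; exact zero_mul X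
  have h_e1_e0_ : ∀ X : R, e1 * (e0 * X) = 0 := fun X => by rw [← mul_assoc, T.h_e1_e0]; exact zero_mul X
  have h_e0_f0_ : ∀ X : R, e0 * (f0 * X) = 0 := fun X => by rw [← mul_assoc, T.h_e0_f0]; exact zero_mul X
  have h_f0_e0_ : ∀ X : R, f0 * (e0 * X) = 0 := fun X => by rw [← mul_assoc, T.h_f0_e0]; exact zero_mul X
  have h_e1_f0_ : ∀ X : R, e1 * (f0 * X) = 0 := fun X => by rw [← mul_assoc, T.h_e1_f0]; exact zero_mul X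
  have h_f0_e1_ : ∀ X : R, f0 * (e1 * X) = 0 := fun X => by rw [← mul_assoc, T.h_f0_e1]; exact zero_mul X
  have h_F_e0_ : ∀ X : R, F * (e0 * X) = 0 := fun X => by rw [← mul_assoc, T.h_F_e0]; exact zero_mul X
  have h_e0_F_ : ∀ X : R, e0 * (F * X) = 0 := fun X => by rw [← mul_assoc, T.h_e0_F]; exact zero_mul X
  have h_F_e1_ : ∀ X : R, F * (e1 * X) = 0 := fun X => by rw [← mul_assoc, T.h_F_e1]; exact zero_mul X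
  have h_e1_F_ : ∀ X : R, e1 * (F * X) = 0 := fun X => by rw [← mul_assoc, T.h_e1_F]; exact zero_mul X
  have h_F_f0_ : ∀ X : R, F * (f0 * X) = 0 := fun X => by rw [← mul_assoc, T.h_F_f0]; exact zero_mul X
  have h_f0_F_ : ∀ X : R, f0 * (F * X) = 0 := fun X => by rw [← mul_assoc, T.h_f0_F]; exact zero_mul X
  have h_α0_e0_ : ∀ X : R, α0 * (e0 * X) = α0 * X := fun X => by rw [← mul_assoc, T.h_α0_e0]
  have h_α1_e1_ : ∀ X : R, α1 * (e1 * X) = α1 * X := fun X => by rw [← mul_assoc, T.h_α1_e1]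
  have h_α0_e1_ : ∀ X : R, α0 * (e1 * X) = 0 := fun X => by rw [← mul_assoc, T.h_α0_e1]; exact zero_mul X
  have h_α1_e0_ : ∀ X : R, α1 * (e0 * X) = 0 := fun X => by rw [← mul_assoc, T.h_α1_e0]; exact zero_mul X
  have h_α0_f0_ : ∀ X : R, α0 * (f0 * X) = 0 := fun X => by rw [← mul_assoc, T.h_α0_f0]; exact zero_mul X
  have h_α0_F_ : ∀ X : R, α0 * (F * X) = 0 := fun X => by rw [← mul_assoc, T.h_α0_F]; exact zero_mul X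
  have h_e0_α0_ : ∀ X : R, e0 * (α0 * X) = 0 := fun X => by rw [← mul_assoc, T.h_e0_α0]; exact zero_mul X
  have h_e1_α0_ : ∀ X : R, e1 * (α0 * X) = 0 := fun X => by rw [← mul_assoc, T.h_e1_α0]; exact zero_mul X
  have h_f0_α0_ : ∀ X : R, f0 * (α0 * X) = 0 := fun X => by rw [← mul_assoc, T.h_f0_α0]; exact zero_mul X
  have h_F_α0_ : ∀ X : R, F * (α0 * X) = 0 := fun X => by rw [← mul_assoc, T.h_F_α0]; exact zero_mul X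
  have h_α0_α0_ : ∀ X : R, α0 * (α0 * X) = 0 := fun X => by rw [← mul_assoc, T.h_α0_α0]; exact zero_mul X
  have h_α0_α1_ : ∀ X : R, α0 * (α1 * X) = 0 := fun X => by rw [← mul_assoc, T.h_α0_α1]; exact zero_mul X
  have h_α1_f0_ : ∀ X : R, α1 * (f0 * X) = 0 := fun X => by rw [← mul_assoc, T.h_α1_f0]; exact zero_mul X
  have h_α1_F_ : ∀ X : R, α1 * (F * X) = 0 := fun X => by rw [← mul_assoc, T.h_α1_F]; exact zero_mul X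
  have h_e0_α1_ : ∀ X : R, e0 * (α1 * X) = 0 := fun X => by rw [← mul_assoc, T.h_e0_α1]; exact zero_mul X
  have h_e1_α1_ : ∀ X : R, e1 * (α1 * X) = 0 := fun X => by rw [← mul_assoc, T.h_e1_α1]; exact zero_mul X
  have h_f0_α1_ : ∀ X : R, f0 * (α1 * X) = 0 := fun X => by rw [← mul_assoc, T.h_f0_α1]; exact zero_mul X
  have h_F_α1_ : ∀ X : R, F * (α1 * X) = 0 := fun X => by rw [← mul_assoc, T.h_F_α1]; exact zero_mul X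
  have h_α1_α0_ : ∀ X : R, α1 * (α0 * X) = 0 := fun X => by rw [← mul_assoc, T.h_α1_α0]; exact zero_mul X
  have h_α1_α1_ : ∀ X : R, α1 * (α1 * X) = 0 := fun X => by rw [← mul_assoc, T.h_α1_α1]; exact zero_mul X
  have h_e0_γ0_ : ∀ X : R, e0 * (γ0 * X) = γ0 * X := fun X => by rw [← mul_assoc, T.h_e0_γ0]
  have h_e1_γ1_ : ∀ X : R, e1 * (γ1 * X) = γ1 * X := fun X => by rw [← mul_assoc, T.h_e1_γ1]
  have h_e1_γ0_ : ∀ X : R, e1 * (γ0 * X) = 0 := fun X => by rw [← mul_assoc, T.h_e1_γ0]; exact zero_mul X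
  have h_e0_γ1_ : ∀ X : R, e0 * (γ1 * X) = 0 := fun X => by rw [← mul_assoc, T.h_e0_γ1]; exact zero_mul X
  have h_f0_γ0_ : ∀ X : R, f0 * (γ0 * X) = 0 := fun X => by rw [← mul_assoc, T.h_f0_γ0]; exact zero_mul X
  have h_F_γ0_ : ∀ X : R, F * (γ0 * X) = 0 := fun X => by rw [← mul_assoc, T.h_F_γ0]; exact zero_mul X
  have h_γ0_e0_ : ∀ X : R, γ0 * (e0 * X) = 0 := fun X => by rw [← mul_assoc, T.h_γ0_e0]; exact zero_mul X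
  have h_γ0_e1_ : ∀ X : R, γ0 * (e1 * X) = 0 := fun X => by rw [← mul_assoc, T.h_γ0_e1]; exact zero_mul X
  have h_γ0_f0_ : ∀ X : R, γ0 * (f0 * X) = 0 := fun X => by rw [← mul_assoc, T.h_γ0_f0]; exact zero_mul X
  have h_γ0_F_ : ∀ X : R, γ0 * (F * X) = 0 := fun X => by rw [← mul_assoc, T.h_γ0_F]; exact zero_mul X
  have h_γ0_γ0_ : ∀ X : R, γ0 * (γ0 * X) = 0 := fun X => by rw [← mul_assoc, T.h_γ0_γ0]; exact zero_mul X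
  have h_γ0_γ1_ : ∀ X : R, γ0 * (γ1 * X) = 0 := fun X => by rw [← mul_assoc, T.h_γ0_γ1]; exact zero_mul X
  have h_f0_γ1_ : ∀ X : R, f0 * (γ1 * X) = 0 := fun X => by rw [← mul_assoc, T.h_f0_γ1]; exact zero_mul X
  have h_F_γ1_ : ∀ X : R, F * (γ1 * X) = 0 := fun X => by rw [← mul_assoc, T.h_F_γ1]; exact zero_mul X
  have h_γ1_e0_ : ∀ X : R, γ1 * (e0 * X) = 0 := fun X => by rw [← mul_assoc, T.h_γ1_e0]; exact zero_mul X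
  have h_γ1_e1_ : ∀ X : R, γ1 * (e1 * X) = 0 := fun X => by rw [← mul_assoc, T.h_γ1_e1]; exact zero_mul X
  have h_γ1_f0_ : ∀ X : R, γ1 * (f0 * X) = 0 := fun X => by rw [← mul_assoc, T.h_γ1_f0]; exact zero_mul X
  have h_γ1_F_ : ∀ X : R, γ1 * (F * X) = 0 := fun X => by rw [← mul_assoc, T.h_γ1_F]; exact zero_mul X
  have h_γ1_γ0_ : ∀ X : R, γ1 * (γ0 * X) = 0 := fun X => by rw [← mul_assoc, T.h_γ1_γ0]; exact zero_mul X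
  have h_γ1_γ1_ : ∀ X : R, γ1 * (γ1 * X) = 0 := fun X => by rw [← mul_assoc, T.h_γ1_γ1]; exact zero_mul X
  have h_α0_γ1_ : ∀ X : R, α0 * (γ1 * X) = 0 := fun X => by rw [← mul_assoc, T.h_α0_γ1]; exact zero_mul X
  have h_α1_γ0_ : ∀ X : R, α1 * (γ0 * X) = 0 := fun X => by rw [← mul_assoc, T.h_α1_γ0]; exact zero_mul X
  have h_s_e0_ : ∀ X : R, s * (e0 * X) = s * X := fun X => by rw [← mul_assoc, T.h_s_e0]
  have h_s_e1_ : ∀ X : R, s * (e1 * X) = 0 := fun X => by rw [← mul_assoc, T.h_s_e1]; exact zero_mul X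
  have h_s_f0_ : ∀ X : R, s * (f0 * X) = 0 := fun X => by rw [← mul_assoc, T.h_s_f0]; exact zero_mul X
  have h_s_F_ : ∀ X : R, s * (F * X) = 0 := fun X => by rw [← mul_assoc, T.h_s_F]; exact zero_mul X
  have h_e0_s_ : ∀ X : R, e0 * (s * X) = 0 := fun X => by rw [← mul_assoc, T.h_e0_s]; exact zero_mul X
  have h_e1_s_ : ∀ X : R, e1 * (s * X) = 0 := fun X => by rw [← mul_assoc, T.h_e1_s]; exact zero_mul X
  have h_f0_s_ : ∀ X : R, f0 * (s * X) = s * X := fun X => by rw [← mul_assoc, T.h_f0_s]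
  have h_F_s_ : ∀ X : R, F * (s * X) = 0 := fun X => by rw [← mul_assoc, T.h_F_s]; exact zero_mul X
  have h_α0_s_ : ∀ X : R, α0 * (s * X) = 0 := fun X => by rw [← mul_assoc, T.h_α0_s]; exact zero_mul X
  have h_α1_s_ : ∀ X : R, α1 * (s * X) = 0 := fun X => by rw [← mul_assoc, T.h_α1_s]; exact zero_mul X
  have h_γ0_s_ : ∀ X : R, γ0 * (s * X) = 0 := fun X => by rw [← mul_assoc, T.h_γ0_s]; exact zero_mul X
  have h_γ1_s_ : ∀ X : R, γ1 * (s * X) = 0 := fun X => by rw [← mul_assoc, T.h_γ1_s]; exact zero_mul X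
  have h_s_α0_ : ∀ X : R, s * (α0 * X) = 0 := fun X => by rw [← mul_assoc, T.h_s_α0]; exact zero_mul X
  have h_s_α1_ : ∀ X : R, s * (α1 * X) = 0 := fun X => by rw [← mul_assoc, T.h_s_α1]; exact zero_mul X
  have h_s_γ1_ : ∀ X : R, s * (γ1 * X) = 0 := fun X => by rw [← mul_assoc, T.h_s_γ1]; exact zero_mul X
  have h_s_s_ : ∀ X : R, s * (s * X) = 0 := fun X => by rw [← mul_assoc, T.h_s_s]; exact zero_mul X
  have h_t_f0_ : ∀ X : R, t * (f0 * X) = t * X := fun X => by rw [← mul_assoc, T.h_t_f0]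
  have h_t_e0_ : ∀ X : R, t * (e0 * X) = 0 := fun X => by rw [← mul_assoc, T.h_t_e0]; exact zero_mul X
  have h_t_e1_ : ∀ X : R, t * (e1 * X) = 0 := fun X => by rw [← mul_assoc, T.h_t_e1]; exact zero_mul X
  have h_t_F_ : ∀ X : R, t * (F * X) = 0 := fun X => by rw [← mul_assoc, T.h_t_F]; exact zero_mul X
  have h_e0_t_ : ∀ X : R, e0 * (t * X) = t * X := fun X => by rw [← mul_assoc, T.h_e0_t]
  have h_e1_t_ : ∀ X : R, e1 * (t * X) = 0 := fun X => by rw [← mul_assoc, T.h_e1_t]; exact zero_mul X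
  have h_f0_t_ : ∀ X : R, f0 * (t * X) = 0 := fun X => by rw [← mul_assoc, T.h_f0_t]; exact zero_mul X
  have h_F_t_ : ∀ X : R, F * (t * X) = 0 := fun X => by rw [← mul_assoc, T.h_F_t]; exact zero_mul X
  have h_α1_t_ : ∀ X : R, α1 * (t * X) = 0 := fun X => by rw [← mul_assoc, T.h_α1_t]; exact zero_mul X
  have h_γ0_t_ : ∀ X : R, γ0 * (t * X) = 0 := fun X => by rw [← mul_assoc, T.h_γ0_t]; exact zero_mul X
  have h_γ1_t_ : ∀ X : R, γ1 * (t * X) = 0 := fun X => by rw [← mul_assoc, T.h_γ1_t]; exact zero_mul X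
  have h_t_α0_ : ∀ X : R, t * (α0 * X) = 0 := fun X => by rw [← mul_assoc, T.h_t_α0]; exact zero_mul X
  have h_t_α1_ : ∀ X : R, t * (α1 * X) = 0 := fun X => by rw [← mul_assoc, T.h_t_α1]; exact zero_mul X
  have h_t_γ0_ : ∀ X : R, t * (γ0 * X) = 0 := fun X => by rw [← mul_assoc, T.h_t_γ0]; exact zero_mul X
  have h_t_γ1_ : ∀ X : R, t * (γ1 * X) = 0 := fun X => by rw [← mul_assoc, T.h_t_γ1]; exact zero_mul X
  have h_t_t_ : ∀ X : R, t * (t * X) = 0 := fun X => by rw [← mul_assoc, T.h_t_t]; exact zero_mul X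
  have h_s_t_ : ∀ X : R, s * (t * X) = f0 * X := fun X => by rw [← mul_assoc, T.h_s_t]
  have h_t_s_ : ∀ X : R, t * (s * X) = e0 * X := fun X => by rw [← mul_assoc, T.h_t_s]
  have k1_ : ∀ X : R, α1 * (γ1 * (α0 * X)) = α0 * X := fun X => by rw [← mul_assoc γ1, ← mul_assoc, T.k1]
  have k2_ : ∀ X : R, γ0 * (α1 * (γ1 * X)) = γ0 * X := fun X => by rw [← mul_assoc α1, ← mul_assoc, T.k2]
  simp only [dD, dU, dJ, dP0, dP1, dw, di, two_mul, mul_add, add_mul, mul_sub, sub_mul, mul_assoc, mul_zero, zero_mul, add_zero, zero_add, sub_zero, T.h_e0_e0, T.h_e1_e1, T.h_f0_f0, T.h_F_F, T.h_e0_e1, T.h_e1_e0, T.h_e0_f0, T.h_f0_e0, T.h_e1_f0, T.h_f0_e1, T.h_F_e0, T.h_e0_F, T.h_F_e1, T.h_e1_F, T.h_F_f0, T.h_f0_F, T.h_α0_e0, T.h_α1_e1, T.h_α0_e1, T.h_α1_e0, T.h_α0_f0, T.h_α0_F, T.h_e0_α0, T.h_e1_α0, T.h_f0_α0, T.h_F_α0, T.h_α0_α0, T.h_α0_α1,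 T.h_α1_f0, T.h_α1_F, T.h_e0_α1, T.h_e1_α1, T.h_f0_α1, T.h_F_α1, T.h_α1_α0, T.h_α1_α1, T.h_e0_γ0, T.h_e1_γ1, T.h_e1_γ0, T.h_e0_γ1, T.h_f0_γ0, T.h_F_γ0, T.h_γ0_e0, T.h_γ0_e1, T.h_γ0_f0, T.h_γ0_F, T.h_γ0_γ0, T.h_γ0_γ1, T.h_f0_γ1, T.h_F_γ1, T.h_γ1_e0, T.h_γ1_e1, T.h_γ1_f0, T.h_γ1_F, T.h_γ1_γ0, T.h_γ1_γ1, T.h_α0_γ1, T.h_α1_γ0, T.h_s_e0, T.h_s_e1, T.h_s_f0, T.h_s_F, T.h_e0_s, T.h_e1_s, T.h_f0_s, T.h_F_s, T.h_α0_s, T.h_α1_s, T.h_γ0_s, T.h_γ1_s, T.h_s_α0, T.h_s_α1, T.h_s_γ1, T.h_s_s, T.h_t_f0, T.h_t_e0, T.h_t_e1, T.h_t_F, T.h_e0_t, T.h_e1_t, T.h_f0_t, T.h_F_t, T.h_α1_t, T.h_γ0_t, T.h_γ1_t, T.h_t_α0, T.h_t_α1, T.h_t_γ0, T.h_t_γ1, T.h_t_t, T.h_s_t, T.h_t_s, T.k1, T.k2, h_e0_e0_, h_e1_e1_, h_f0_f0_, h_F_F_, h_e0_e1_, h_e1_e0_, h_e0_f0_, h_f0_e0_, h_e1_f0_, h_f0_e1_, h_F_e0_, h_e0_F_, h_F_e1_, h_e1_F_, h_F_f0_, h_f0_F_, h_α0_e0_,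 h_α1_e1_, h_α0_e1_, h_α1_e0_, h_α0_f0_, h_α0_F_, h_e0_α0_, h_e1_α0_, h_f0_α0_, h_F_α0_, h_α0_α0_, h_α0_α1_, h_α1_f0_, h_α1_F_, h_e0_α1_, h_e1_α1_, h_f0_α1_, h_F_α1_, h_α1_α0_, h_α1_α1_, h_e0_γ0_, h_e1_γ1_, h_e1_γ0_, h_e0_γ1_, h_f0_γ0_, h_F_γ0_, h_γ0_e0_, h_γ0_e1_, h_γ0_f0_, h_γ0_F_, h_γ0_γ0_, h_γ0_γ1_, h_f0_γ1_, h_F_γ1_, h_γ1_e0_, h_γ1_e1_, h_γ1_f0_, h_γ1_F_, h_γ1_γ0_, h_γ1_γ1_, h_α0_γ1_, h_α1_γ0_, h_s_e0_, h_s_e1_, h_s_f0_, h_s_F_, h_e0_s_, h_e1_s_, h_f0_s_, h_F_s_, h_α0_s_, h_α1_s_, h_γ0_s_, h_γ1_s_, h_s_α0_, h_s_α1_, h_s_γ1_, h_s_s_, h_t_f0_, h_t_e0_, h_t_e1_, h_t_F_, h_e0_t_, h_e1_t_, h_f0_t_, h_F_t_, h_α1_t_, h_γ0_t_, h_γ1_t_, h_t_α0_, h_t_α1_, h_t_γ0_, h_t_γ1_, h_t_t_, h_s_t_, h_t_s_, k1_, k2_]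
  try abel

theorem d_JD (T : DTab e0 e1 f0 F α0 α1 γ0 γ1 s t) :
    dJ e0 e1 α0 α1 γ0 γ1 s * dD e0 e1 α0 α1 γ0 γ1 t = dP1 e0 e1 f0 F α1 γ1 - dP0 e0 F α0 γ0 := by
  have h_e0_e0_ : ∀ X : R, e0 * (e0 * X) = e0 * X := fun X => by rw [← mul_assoc, T.h_e0_e0]
  have h_e1_e1_ : ∀ X : R, e1 * (e1 * X) = e1 * X := fun X => by rw [← mul_assoc, T.h_e1_e1]
  have h_f0_f0_ : ∀ X : R, f0 * (f0 * X) = f0 * X := fun X => by rw [← mul_assoc, T.h_f0_f0]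
  have h_F_F_ : ∀ X : R, F * (F * X) = F * X := fun X => by rw [← mul_assoc, T.h_F_F]
  have h_e0_e1_ : ∀ X : R, e0 * (e1 * X) = 0 := fun X => by rw [← mul_assoc, T.h_e0_e1]; exact zero_mul X
  have h_e1_e0_ : ∀ X : R, e1 * (e0 * X) = 0 := fun X => by rw [← mul_assoc, T.h_e1_e0]; exact zero_mul X
  have h_e0_f0_ : ∀ X : R, e0 * (f0 * X) = 0 := fun X => by rw [← mul_assoc, T.h_e0_f0]; exact zero_mul X
  have h_f0_e0_ : ∀ X : R, f0 * (e0 * X) = 0 := fun X => by rw [← mul_assoc, T.h_f0_e0]; exact zero_mul X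
  have h_e1_f0_ : ∀ X : R, e1 * (f0 * X) = 0 := fun X => by rw [← mul_assoc, T.h_e1_f0]; exact zero_mul X
  have h_f0_e1_ : ∀ X : R, f0 * (e1 * X) = 0 := fun X => by rw [← mul_assoc, T.h_f0_e1]; exact zero_mul X
  have h_F_e0_ : ∀ X : R, F * (e0 * X) = 0 := fun X => by rw [← mul_assoc, T.h_F_e0]; exact zero_mul X
  have h_e0_F_ : ∀ X : R, e0 * (F * X) = 0 := fun X => by rw [← mul_assoc, T.h_e0_F]; exact zero_mul X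
  have h_F_e1_ : ∀ X : R, F * (e1 * X) = 0 := fun X => by rw [← mul_assoc, T.h_F_e1]; exact zero_mul X
  have h_e1_F_ : ∀ X : R, e1 * (F * X) = 0 := fun X => by rw [← mul_assoc, T.h_e1_F]; exact zero_mul X
  have h_F_f0_ : ∀ X : R, F * (f0 * X) = 0 := fun X => by rw [← mul_assoc, T.h_F_f0]; exact zero_mul X
  have h_f0_F_ : ∀ X : R, f0 * (F * X) = 0 := fun X => by rw [← mul_assoc, T.h_f0_F]; exact zero_mul X
  have h_α0_e0_ : ∀ X : R, α0 * (e0 * X) = α0 * X := fun X => by rw [← mul_assoc, T.h_α0_e0]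
  have h_α1_e1_ : ∀ X : R, α1 * (e1 * X) = α1 * X := fun X => by rw [← mul_assoc, T.h_α1_e1]
  have h_α0_e1_ : ∀ X : R, α0 * (e1 * X) = 0 := fun X => by rw [← mul_assoc, T.h_α0_e1]; exact zero_mul X
  have h_α1_e0_ : ∀ X : R, α1 * (e0 * X) = 0 := fun X => by rw [← mul_assoc, T.h_α1_e0]; exact zero_mul X
  have h_α0_f0_ : ∀ X : R, α0 * (f0 * X) = 0 := fun X => by rw [← mul_assoc, T.h_α0_f0]; exact zero_mul X
  have h_α0_F_ : ∀ X : R, α0 * (F * X) = 0 := fun X => by rw [← mul_assoc, T.h_α0_F]; exact zero_mul X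
  have h_e0_α0_ : ∀ X : R, e0 * (α0 * X) = 0 := fun X => by rw [← mul_assoc, T.h_e0_α0]; exact zero_mul X
  have h_e1_α0_ : ∀ X : R, e1 * (α0 * X) = 0 := fun X => by rw [← mul_assoc, T.h_e1_α0]; exact zero_mul X
  have h_f0_α0_ : ∀ X : R, f0 * (α0 * X) = 0 := fun X => by rw [← mul_assoc, T.h_f0_α0]; exact zero_mul X
  have h_F_α0_ : ∀ X : R, F * (α0 * X) = 0 := fun X => by rw [← mul_assoc, T.h_F_α0]; exact zero_mul X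
  have h_α0_α0_ : ∀ X : R, α0 * (α0 * X) = 0 := fun X => by rw [← mul_assoc, T.h_α0_α0]; exact zero_mul X
  have h_α0_α1_ : ∀ X : R, α0 * (α1 * X) = 0 := fun X => by rw [← mul_assoc, T.h_α0_α1]; exact zero_mul X
  have h_α1_f0_ : ∀ X : R, α1 * (f0 * X) = 0 := fun X => by rw [← mul_assoc, T.h_α1_f0]; exact zero_mul X
  have h_α1_F_ : ∀ X : R, α1 * (F * X) = 0 := fun X => by rw [← mul_assoc, T.h_α1_F]; exact zero_mul X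
  have h_e0_α1_ : ∀ X : R, e0 * (α1 * X) = 0 := fun X => by rw [← mul_assoc, T.h_e0_α1]; exact zero_mul X
  have h_e1_α1_ : ∀ X : R, e1 * (α1 * X) = 0 := fun X => by rw [← mul_assoc, T.h_e1_α1]; exact zero_mul X
  have h_f0_α1_ : ∀ X : R, f0 * (α1 * X) = 0 := fun X => by rw [← mul_assoc, T.h_f0_α1]; exact zero_mul X
  have h_F_α1_ : ∀ X : R, F * (α1 * X) = 0 := fun X => by rw [← mul_assoc, T.h_F_α1]; exact zero_mul X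
  have h_α1_α0_ : ∀ X : R, α1 * (α0 * X) = 0 := fun X => by rw [← mul_assoc, T.h_α1_α0]; exact zero_mul X
  have h_α1_α1_ : ∀ X : R, α1 * (α1 * X) = 0 := fun X => by rw [← mul_assoc, T.h_α1_α1]; exact zero_mul X
  have h_e0_γ0_ : ∀ X : R, e0 * (γ0 * X) = γ0 * X := fun X => by rw [← mul_assoc, T.h_e0_γ0]
  have h_e1_γ1_ : ∀ X : R, e1 * (γ1 * X) = γ1 * X := fun X => by rw [← mul_assoc, T.h_e1_γ1]
  have h_e1_γ0_ : ∀ X : R, e1 * (γ0 * X) = 0 := fun X => by rw [← mul_assoc, T.h_e1_γ0]; exact zero_mul X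
  have h_e0_γ1_ : ∀ X : R, e0 * (γ1 * X) = 0 := fun X => by rw [← mul_assoc, T.h_e0_γ1]; exact zero_mul X
  have h_f0_γ0_ : ∀ X : R, f0 * (γ0 * X) = 0 := fun X => by rw [← mul_assoc, T.h_f0_γ0]; exact zero_mul X
  have h_F_γ0_ : ∀ X : R, F * (γ0 * X) = 0 := fun X => by rw [← mul_assoc, T.h_F_γ0]; exact zero_mul X
  have h_γ0_e0_ : ∀ X : R, γ0 * (e0 * X) = 0 := fun X => by rw [← mul_assoc, T.h_γ0_e0]; exact zero_mul X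
  have h_γ0_e1_ : ∀ X : R, γ0 * (e1 * X) = 0 := fun X => by rw [← mul_assoc, T.h_γ0_e1]; exact zero_mul X
  have h_γ0_f0_ : ∀ X : R, γ0 * (f0 * X) = 0 := fun X => by rw [← mul_assoc, T.h_γ0_f0]; exact zero_mul X
  have h_γ0_F_ : ∀ X : R, γ0 * (F * X) = 0 := fun X => by rw [← mul_assoc, T.h_γ0_F]; exact zero_mul X
  have h_γ0_γ0_ : ∀ X : R, γ0 * (γ0 * X) = 0 := fun X => by rw [← mul_assoc, T.h_γ0_γ0]; exact zero_mul X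
  have h_γ0_γ1_ : ∀ X : R, γ0 * (γ1 * X) = 0 := fun X => by rw [← mul_assoc, T.h_γ0_γ1]; exact zero_mul X
  have h_f0_γ1_ : ∀ X : R, f0 * (γ1 * X) = 0 := fun X => by rw [← mul_assoc, T.h_f0_γ1]; exact zero_mul X
  have h_F_γ1_ : ∀ X : R, F * (γ1 * X) = 0 := fun X => by rw [← mul_assoc, T.h_F_γ1]; exact zero_mul X
  have h_γ1_e0_ : ∀ X : R, γ1 * (e0 * X) = 0 := fun X => by rw [← mul_assoc, T.h_γ1_e0]; exact zero_mul X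
  have h_γ1_e1_ : ∀ X : R, γ1 * (e1 * X) = 0 := fun X => by rw [← mul_assoc, T.h_γ1_e1]; exact zero_mul X
  have h_γ1_f0_ : ∀ X : R, γ1 * (f0 * X) = 0 := fun X => by rw [← mul_assoc, T.h_γ1_f0]; exact zero_mul X
  have h_γ1_F_ : ∀ X : R, γ1 * (F * X) = 0 := fun X => by rw [← mul_assoc, T.h_γ1_F]; exact zero_mul X
  have h_γ1_γ0_ : ∀ X : R, γ1 * (γ0 * X) = 0 := fun X => by rw [← mul_assoc, T.h_γ1_γ0]; exact zero_mul X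
  have h_γ1_γ1_ : ∀ X : R, γ1 * (γ1 * X) = 0 := fun X => by rw [← mul_assoc, T.h_γ1_γ1]; exact zero_mul X
  have h_α0_γ1_ : ∀ X : R, α0 * (γ1 * X) = 0 := fun X => by rw [← mul_assoc, T.h_α0_γ1]; exact zero_mul X
  have h_α1_γ0_ : ∀ X : R, α1 * (γ0 * X) = 0 := fun X => by rw [← mul_assoc, T.h_α1_γ0]; exact zero_mul X
  have h_s_e0_ : ∀ X : R, s * (e0 * X) = s * X := fun X => by rw [← mul_assoc, T.h_s_e0]
  have h_s_e1_ : ∀ X : R, s * (e1 * X) = 0 := fun X => by rw [← mul_assoc, T.h_s_e1]; exact zero_mul X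
  have h_s_f0_ : ∀ X : R, s * (f0 * X) = 0 := fun X => by rw [← mul_assoc, T.h_s_f0]; exact zero_mul X
  have h_s_F_ : ∀ X : R, s * (F * X) = 0 := fun X => by rw [← mul_assoc, T.h_s_F]; exact zero_mul X
  have h_e0_s_ : ∀ X : R, e0 * (s * X) = 0 := fun X => by rw [← mul_assoc, T.h_e0_s]; exact zero_mul X
  have h_e1_s_ : ∀ X : R, e1 * (s * X) = 0 := fun X => by rw [← mul_assoc, T.h_e1_s]; exact zero_mul X
  have h_f0_s_ : ∀ X : R, f0 * (s * X) = s * X := fun X => by rw [← mul_assoc, T.h_f0_s]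
  have h_F_s_ : ∀ X : R, F * (s * X) = 0 := fun X => by rw [← mul_assoc, T.h_F_s]; exact zero_mul X
  have h_α0_s_ : ∀ X : R, α0 * (s * X) = 0 := fun X => by rw [← mul_assoc, T.h_α0_s]; exact zero_mul X
  have h_α1_s_ : ∀ X : R, α1 * (s * X) = 0 := fun X => by rw [← mul_assoc, T.h_α1_s]; exact zero_mul X
  have h_γ0_s_ : ∀ X : R, γ0 * (s * X) = 0 := fun X => by rw [← mul_assoc, T.h_γ0_s]; exact zero_mul X
  have h_γ1_s_ : ∀ X : R, γ1 * (s * X) = 0 := fun X => by rw [← mul_assoc, T.h_γ1_s]; exact zero_mul X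
  have h_s_α0_ : ∀ X : R, s * (α0 * X) = 0 := fun X => by rw [← mul_assoc, T.h_s_α0]; exact zero_mul X
  have h_s_α1_ : ∀ X : R, s * (α1 * X) = 0 := fun X => by rw [← mul_assoc, T.h_s_α1]; exact zero_mul X
  have h_s_γ1_ : ∀ X : R, s * (γ1 * X) = 0 := fun X => by rw [← mul_assoc, T.h_s_γ1]; exact zero_mul X
  have h_s_s_ : ∀ X : R, s * (s * X) = 0 := fun X => by rw [← mul_assoc, T.h_s_s]; exact zero_mul X
  have h_t_f0_ : ∀ X : R, t * (f0 * X) = t * X := fun X => by rw [← mul_assoc, T.h_t_f0]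
  have h_t_e0_ : ∀ X : R, t * (e0 * X) = 0 := fun X => by rw [← mul_assoc, T.h_t_e0]; exact zero_mul X
  have h_t_e1_ : ∀ X : R, t * (e1 * X) = 0 := fun X => by rw [← mul_assoc, T.h_t_e1]; exact zero_mul X
  have h_t_F_ : ∀ X : R, t * (F * X) = 0 := fun X => by rw [← mul_assoc, T.h_t_F]; exact zero_mul X
  have h_e0_t_ : ∀ X : R, e0 * (t * X) = t * X := fun X => by rw [← mul_assoc, T.h_e0_t]
  have h_e1_t_ : ∀ X : R, e1 * (t * X) = 0 := fun X => by rw [← mul_assoc, T.h_e1_t]; exact zero_mul X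
  have h_f0_t_ : ∀ X : R, f0 * (t * X) = 0 := fun X => by rw [← mul_assoc, T.h_f0_t]; exact zero_mul X
  have h_F_t_ : ∀ X : R, F * (t * X) = 0 := fun X => by rw [← mul_assoc, T.h_F_t]; exact zero_mul X
  have h_α1_t_ : ∀ X : R, α1 * (t * X) = 0 := fun X => by rw [← mul_assoc, T.h_α1_t]; exact zero_mul X
  have h_γ0_t_ : ∀ X : R, γ0 * (t * X) = 0 := fun X => by rw [← mul_assoc, T.h_γ0_t]; exact zero_mul X
  have h_γ1_t_ : ∀ X : R, γ1 * (t * X) = 0 := fun X => by rw [← mul_assoc, T.h_γ1_t]; exact zero_mul X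
  have h_t_α0_ : ∀ X : R, t * (α0 * X) = 0 := fun X => by rw [← mul_assoc, T.h_t_α0]; exact zero_mul X
  have h_t_α1_ : ∀ X : R, t * (α1 * X) = 0 := fun X => by rw [← mul_assoc, T.h_t_α1]; exact zero_mul X
  have h_t_γ0_ : ∀ X : R, t * (γ0 * X) = 0 := fun X => by rw [← mul_assoc, T.h_t_γ0]; exact zero_mul X
  have h_t_γ1_ : ∀ X : R, t * (γ1 * X) = 0 := fun X => by rw [← mul_assoc, T.h_t_γ1]; exact zero_mul X
  have h_t_t_ : ∀ X : R, t * (t * X) = 0 := fun X => by rw [← mul_assoc, T.h_t_t]; exact zero_mul X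
  have h_s_t_ : ∀ X : R, s * (t * X) = f0 * X := fun X => by rw [← mul_assoc, T.h_s_t]
  have h_t_s_ : ∀ X : R, t * (s * X) = e0 * X := fun X => by rw [← mul_assoc, T.h_t_s]
  have k1_ : ∀ X : R, α1 * (γ1 * (α0 * X)) = α0 * X := fun X => by rw [← mul_assoc γ1, ← mul_assoc, T.k1]
  have k2_ : ∀ X : R, γ0 * (α1 * (γ1 * X)) = γ0 * X := fun X => by rw [← mul_assoc α1, ← mul_assoc, T.k2]
  simp only [dD, dU, dJ, dP0, dP1, dw, di, two_mul, mul_add, add_mul, mul_sub, sub_mul, mul_assoc, mul_zero, zero_mul, add_zero, zero_add, sub_zero, T.h_e0_e0, T.h_e1_e1, T.h_f0_f0, T.h_F_F, T.h_e0_e1, T.h_e1_e0, T.h_e0_f0, T.h_f0_e0, T.h_e1_f0, T.h_f0_e1, T.h_F_e0, T.h_e0_F, T.h_F_e1, T.h_e1_F, T.h_F_f0, T.h_f0_F, T.h_α0_e0, T.h_α1_e1, T.h_α0_e1, T.h_α1_e0, T.h_α0_f0, T.h_α0_F, T.h_e0_α0, T.h_e1_α0, T.h_f0_α0, T.h_F_α0, T.h_α0_α0, T.h_α0_α1,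 T.h_α1_f0, T.h_α1_F, T.h_e0_α1, T.h_e1_α1, T.h_f0_α1, T.h_F_α1, T.h_α1_α0, T.h_α1_α1, T.h_e0_γ0, T.h_e1_γ1, T.h_e1_γ0, T.h_e0_γ1, T.h_f0_γ0, T.h_F_γ0, T.h_γ0_e0, T.h_γ0_e1, T.h_γ0_f0, T.h_γ0_F, T.h_γ0_γ0, T.h_γ0_γ1, T.h_f0_γ1, T.h_F_γ1, T.h_γ1_e0, T.h_γ1_e1, T.h_γ1_f0, T.h_γ1_F, T.h_γ1_γ0, T.h_γ1_γ1, T.h_α0_γ1, T.h_α1_γ0, T.h_s_e0, T.h_s_e1, T.h_s_f0, T.h_s_F, T.h_e0_s, T.h_e1_s, T.h_f0_s, T.h_F_s, T.h_α0_s, T.h_α1_s, T.h_γ0_s, T.h_γ1_s, T.h_s_α0, T.h_s_α1, T.h_s_γ1, T.h_s_s, T.h_t_f0, T.h_t_e0, T.h_t_e1, T.h_t_F, T.h_e0_t, T.h_e1_t, T.h_f0_t, T.h_F_t, T.h_α1_t, T.h_γ0_t, T.h_γ1_t, T.h_t_α0, T.h_t_α1, T.h_t_γ0, T.h_t_γ1, T.h_t_t, T.h_s_t, T.h_t_s, T.k1, T.k2, h_e0_e0_, h_e1_e1_, h_f0_f0_, h_F_F_, h_e0_e1_, h_e1_e0_, h_e0_f0_, h_f0_e0_, h_e1_f0_, h_f0_e1_, h_F_e0_, h_e0_F_, h_F_e1_, h_e1_F_, h_F_f0_, h_f0_F_, h_α0_e0_,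 h_α1_e1_, h_α0_e1_, h_α1_e0_, h_α0_f0_, h_α0_F_, h_e0_α0_, h_e1_α0_, h_f0_α0_, h_F_α0_, h_α0_α0_, h_α0_α1_, h_α1_f0_, h_α1_F_, h_e0_α1_, h_e1_α1_, h_f0_α1_, h_F_α1_, h_α1_α0_, h_α1_α1_, h_e0_γ0_, h_e1_γ1_, h_e1_γ0_, h_e0_γ1_, h_f0_γ0_, h_F_γ0_, h_γ0_e0_, h_γ0_e1_, h_γ0_f0_, h_γ0_F_, h_γ0_γ0_, h_γ0_γ1_, h_f0_γ1_, h_F_γ1_, h_γ1_e0_, h_γ1_e1_, h_γ1_f0_, h_γ1_F_, h_γ1_γ0_, h_γ1_γ1_, h_α0_γ1_, h_α1_γ0_, h_s_e0_, h_s_e1_, h_s_f0_, h_s_F_, h_e0_s_, h_e1_s_, h_f0_s_, h_F_s_, h_α0_s_, h_α1_s_, h_γ0_s_, h_γ1_s_, h_s_α0_, h_s_α1_, h_s_γ1_, h_s_s_, h_t_f0_, h_t_e0_, h_t_e1_, h_t_F_, h_e0_t_, h_e1_t_, h_f0_t_, h_F_t_, h_α1_t_, h_γ0_t_, h_γ1_t_, h_t_α0_, h_t_α1_, h_t_γ0_, h_t_γ1_, h_t_t_, h_s_t_, h_t_s_, k1_, k2_]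
  try abel

theorem d_P00 (T : DTab e0 e1 f0 F α0 α1 γ0 γ1 s t) :
    dP0 e0 F α0 γ0 * dP0 e0 F α0 γ0 = dP0 e0 F α0 γ0 := by
  have h_e0_e0_ : ∀ X : R, e0 * (e0 * X) = e0 * X := fun X => by rw [← mul_assoc, T.h_e0_e0]
  have h_e1_e1_ : ∀ X : R, e1 * (e1 * X) = e1 * X := fun X => by rw [← mul_assoc, T.h_e1_e1]
  have h_f0_f0_ : ∀ X : R, f0 * (f0 * X) = f0 * X := fun X => by rw [← mul_assoc, T.h_f0_f0]
  have h_F_F_ : ∀ X : R, F * (F * X) = F * X := fun X => by rw [← mul_assoc, T.h_F_F]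
  have h_e0_e1_ : ∀ X : R, e0 * (e1 * X) = 0 := fun X => by rw [← mul_assoc, T.h_e0_e1]; exact zero_mul X
  have h_e1_e0_ : ∀ X : R, e1 * (e0 * X) = 0 := fun X => by rw [← mul_assoc, T.h_e1_e0]; exact zero_mul X
  have h_e0_f0_ : ∀ X : R, e0 * (f0 * X) = 0 := fun X => by rw [← mul_assoc, T.h_e0_f0]; exact zero_mul X
  have h_f0_e0_ : ∀ X : R, f0 * (e0 * X) = 0 := fun X => by rw [← mul_assoc, T.h_f0_e0]; exact zero_mul X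
  have h_e1_f0_ : ∀ X : R, e1 * (f0 * X) = 0 := fun X => by rw [← mul_assoc, T.h_e1_f0]; exact zero_mul X
  have h_f0_e1_ : ∀ X : R, f0 * (e1 * X) = 0 := fun X => by rw [← mul_assoc, T.h_f0_e1]; exact zero_mul X
  have h_F_e0_ : ∀ X : R, F * (e0 * X) = 0 := fun X => by rw [← mul_assoc, T.h_F_e0]; exact zero_mul X
  have h_e0_F_ : ∀ X : R, e0 * (F * X) = 0 := fun X => by rw [← mul_assoc, T.h_e0_F]; exact zero_mul X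
  have h_F_e1_ : ∀ X : R, F * (e1 * X) = 0 := fun X => by rw [← mul_assoc, T.h_F_e1]; exact zero_mul X
  have h_e1_F_ : ∀ X : R, e1 * (F * X) = 0 := fun X => by rw [← mul_assoc, T.h_e1_F]; exact zero_mul X
  have h_F_f0_ : ∀ X : R, F * (f0 * X) = 0 := fun X => by rw [← mul_assoc, T.h_F_f0]; exact zero_mul X
  have h_f0_F_ : ∀ X : R, f0 * (F * X) = 0 := fun X => by rw [← mul_assoc, T.h_f0_F]; exact zero_mul X
  have h_α0_e0_ : ∀ X : R, α0 * (e0 * X) = α0 * X := fun X => by rw [← mul_assoc, T.h_α0_e0]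
  have h_α1_e1_ : ∀ X : R, α1 * (e1 * X) = α1 * X := fun X => by rw [← mul_assoc, T.h_α1_e1]
  have h_α0_e1_ : ∀ X : R, α0 * (e1 * X) = 0 := fun X => by rw [← mul_assoc, T.h_α0_e1]; exact zero_mul X
  have h_α1_e0_ : ∀ X : R, α1 * (e0 * X) = 0 := fun X => by rw [← mul_assoc, T.h_α1_e0]; exact zero_mul X
  have h_α0_f0_ : ∀ X : R, α0 * (f0 * X) = 0 := fun X => by rw [← mul_assoc, T.h_α0_f0]; exact zero_mul X
  have h_α0_F_ : ∀ X : R, α0 * (F * X) = 0 := fun X => by rw [← mul_assoc, T.h_α0_F]; exact zero_mul X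
  have h_e0_α0_ : ∀ X : R, e0 * (α0 * X) = 0 := fun X => by rw [← mul_assoc, T.h_e0_α0]; exact zero_mul X
  have h_e1_α0_ : ∀ X : R, e1 * (α0 * X) = 0 := fun X => by rw [← mul_assoc, T.h_e1_α0]; exact zero_mul X
  have h_f0_α0_ : ∀ X : R, f0 * (α0 * X) = 0 := fun X => by rw [← mul_assoc, T.h_f0_α0]; exact zero_mul X
  have h_F_α0_ : ∀ X : R, F * (α0 * X) = 0 := fun X => by rw [← mul_assoc, T.h_F_α0]; exact zero_mul X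
  have h_α0_α0_ : ∀ X : R, α0 * (α0 * X) = 0 := fun X => by rw [← mul_assoc, T.h_α0_α0]; exact zero_mul X
  have h_α0_α1_ : ∀ X : R, α0 * (α1 * X) = 0 := fun X => by rw [← mul_assoc, T.h_α0_α1]; exact zero_mul X
  have h_α1_f0_ : ∀ X : R, α1 * (f0 * X) = 0 := fun X => by rw [← mul_assoc, T.h_α1_f0]; exact zero_mul X
  have h_α1_F_ : ∀ X : R, α1 * (F * X) = 0 := fun X => by rw [← mul_assoc, T.h_α1_F]; exact zero_mul X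
  have h_e0_α1_ : ∀ X : R, e0 * (α1 * X) = 0 := fun X => by rw [← mul_assoc, T.h_e0_α1]; exact zero_mul X
  have h_e1_α1_ : ∀ X : R, e1 * (α1 * X) = 0 := fun X => by rw [← mul_assoc, T.h_e1_α1]; exact zero_mul X
  have h_f0_α1_ : ∀ X : R, f0 * (α1 * X) = 0 := fun X => by rw [← mul_assoc, T.h_f0_α1]; exact zero_mul X
  have h_F_α1_ : ∀ X : R, F * (α1 * X) = 0 := fun X => by rw [← mul_assoc, T.h_F_α1]; exact zero_mul X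
  have h_α1_α0_ : ∀ X : R, α1 * (α0 * X) = 0 := fun X => by rw [← mul_assoc, T.h_α1_α0]; exact zero_mul X
  have h_α1_α1_ : ∀ X : R, α1 * (α1 * X) = 0 := fun X => by rw [← mul_assoc, T.h_α1_α1]; exact zero_mul X
  have h_e0_γ0_ : ∀ X : R, e0 * (γ0 * X) = γ0 * X := fun X => by rw [← mul_assoc, T.h_e0_γ0]
  have h_e1_γ1_ : ∀ X : R, e1 * (γ1 * X) = γ1 * X := fun X => by rw [← mul_assoc, T.h_e1_γ1]
  have h_e1_γ0_ : ∀ X : R, e1 * (γ0 * X) = 0 := fun X => by rw [← mul_assoc, T.h_e1_γ0]; exact zero_mul X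
  have h_e0_γ1_ : ∀ X : R, e0 * (γ1 * X) = 0 := fun X => by rw [← mul_assoc, T.h_e0_γ1]; exact zero_mul X
  have h_f0_γ0_ : ∀ X : R, f0 * (γ0 * X) = 0 := fun X => by rw [← mul_assoc, T.h_f0_γ0]; exact zero_mul X
  have h_F_γ0_ : ∀ X : R, F * (γ0 * X) = 0 := fun X => by rw [← mul_assoc, T.h_F_γ0]; exact zero_mul X
  have h_γ0_e0_ : ∀ X : R, γ0 * (e0 * X) = 0 := fun X => by rw [← mul_assoc, T.h_γ0_e0]; exact zero_mul X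
  have h_γ0_e1_ : ∀ X : R, γ0 * (e1 * X) = 0 := fun X => by rw [← mul_assoc, T.h_γ0_e1]; exact zero_mul X
  have h_γ0_f0_ : ∀ X : R, γ0 * (f0 * X) = 0 := fun X => by rw [← mul_assoc, T.h_γ0_f0]; exact zero_mul X
  have h_γ0_F_ : ∀ X : R, γ0 * (F * X) = 0 := fun X => by rw [← mul_assoc, T.h_γ0_F]; exact zero_mul X
  have h_γ0_γ0_ : ∀ X : R, γ0 * (γ0 * X) = 0 := fun X => by rw [← mul_assoc, T.h_γ0_γ0]; exact zero_mul X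
  have h_γ0_γ1_ : ∀ X : R, γ0 * (γ1 * X) = 0 := fun X => by rw [← mul_assoc, T.h_γ0_γ1]; exact zero_mul X
  have h_f0_γ1_ : ∀ X : R, f0 * (γ1 * X) = 0 := fun X => by rw [← mul_assoc, T.h_f0_γ1]; exact zero_mul X
  have h_F_γ1_ : ∀ X : R, F * (γ1 * X) = 0 := fun X => by rw [← mul_assoc, T.h_F_γ1]; exact zero_mul X
  have h_γ1_e0_ : ∀ X : R, γ1 * (e0 * X) = 0 := fun X => by rw [← mul_assoc, T.h_γ1_e0]; exact zero_mul X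
  have h_γ1_e1_ : ∀ X : R, γ1 * (e1 * X) = 0 := fun X => by rw [← mul_assoc, T.h_γ1_e1]; exact zero_mul X
  have h_γ1_f0_ : ∀ X : R, γ1 * (f0 * X) = 0 := fun X => by rw [← mul_assoc, T.h_γ1_f0]; exact zero_mul X
  have h_γ1_F_ : ∀ X : R, γ1 * (F * X) = 0 := fun X => by rw [← mul_assoc, T.h_γ1_F]; exact zero_mul X
  have h_γ1_γ0_ : ∀ X : R, γ1 * (γ0 * X) = 0 := fun X => by rw [← mul_assoc, T.h_γ1_γ0]; exact zero_mul X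
  have h_γ1_γ1_ : ∀ X : R, γ1 * (γ1 * X) = 0 := fun X => by rw [← mul_assoc, T.h_γ1_γ1]; exact zero_mul X
  have h_α0_γ1_ : ∀ X : R, α0 * (γ1 * X) = 0 := fun X => by rw [← mul_assoc, T.h_α0_γ1]; exact zero_mul X
  have h_α1_γ0_ : ∀ X : R, α1 * (γ0 * X) = 0 := fun X => by rw [← mul_assoc, T.h_α1_γ0]; exact zero_mul X
  have h_s_e0_ : ∀ X : R, s * (e0 * X) = s * X := fun X => by rw [← mul_assoc, T.h_s_e0]
  have h_s_e1_ : ∀ X : R, s * (e1 * X) = 0 := fun X => by rw [← mul_assoc, T.h_s_e1]; exact zero_mul X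
  have h_s_f0_ : ∀ X : R, s * (f0 * X) = 0 := fun X => by rw [← mul_assoc, T.h_s_f0]; exact zero_mul X
  have h_s_F_ : ∀ X : R, s * (F * X) = 0 := fun X => by rw [← mul_assoc, T.h_s_F]; exact zero_mul X
  have h_e0_s_ : ∀ X : R, e0 * (s * X) = 0 := fun X => by rw [← mul_assoc, T.h_e0_s]; exact zero_mul X
  have h_e1_s_ : ∀ X : R, e1 * (s * X) = 0 := fun X => by rw [← mul_assoc, T.h_e1_s]; exact zero_mul X
  have h_f0_s_ : ∀ X : R, f0 * (s * X) = s * X := fun X => by rw [← mul_assoc, T.h_f0_s]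
  have h_F_s_ : ∀ X : R, F * (s * X) = 0 := fun X => by rw [← mul_assoc, T.h_F_s]; exact zero_mul X
  have h_α0_s_ : ∀ X : R, α0 * (s * X) = 0 := fun X => by rw [← mul_assoc, T.h_α0_s]; exact zero_mul X
  have h_α1_s_ : ∀ X : R, α1 * (s * X) = 0 := fun X => by rw [← mul_assoc, T.h_α1_s]; exact zero_mul X
  have h_γ0_s_ : ∀ X : R, γ0 * (s * X) = 0 := fun X => by rw [← mul_assoc, T.h_γ0_s]; exact zero_mul X
  have h_γ1_s_ : ∀ X : R, γ1 * (s * X) = 0 := fun X => by rw [← mul_assoc, T.h_γ1_s]; exact zero_mul X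
  have h_s_α0_ : ∀ X : R, s * (α0 * X) = 0 := fun X => by rw [← mul_assoc, T.h_s_α0]; exact zero_mul X
  have h_s_α1_ : ∀ X : R, s * (α1 * X) = 0 := fun X => by rw [← mul_assoc, T.h_s_α1]; exact zero_mul X
  have h_s_γ1_ : ∀ X : R, s * (γ1 * X) = 0 := fun X => by rw [← mul_assoc, T.h_s_γ1]; exact zero_mul X
  have h_s_s_ : ∀ X : R, s * (s * X) = 0 := fun X => by rw [← mul_assoc, T.h_s_s]; exact zero_mul X
  have h_t_f0_ : ∀ X : R, t * (f0 * X) = t * X := fun X => by rw [← mul_assoc, T.h_t_f0]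
  have h_t_e0_ : ∀ X : R, t * (e0 * X) = 0 := fun X => by rw [← mul_assoc, T.h_t_e0]; exact zero_mul X
  have h_t_e1_ : ∀ X : R, t * (e1 * X) = 0 := fun X => by rw [← mul_assoc, T.h_t_e1]; exact zero_mul X
  have h_t_F_ : ∀ X : R, t * (F * X) = 0 := fun X => by rw [← mul_assoc, T.h_t_F]; exact zero_mul X
  have h_e0_t_ : ∀ X : R, e0 * (t * X) = t * X := fun X => by rw [← mul_assoc, T.h_e0_t]
  have h_e1_t_ : ∀ X : R, e1 * (t * X) = 0 := fun X => by rw [← mul_assoc, T.h_e1_t]; exact zero_mul X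
  have h_f0_t_ : ∀ X : R, f0 * (t * X) = 0 := fun X => by rw [← mul_assoc, T.h_f0_t]; exact zero_mul X
  have h_F_t_ : ∀ X : R, F * (t * X) = 0 := fun X => by rw [← mul_assoc, T.h_F_t]; exact zero_mul X
  have h_α1_t_ : ∀ X : R, α1 * (t * X) = 0 := fun X => by rw [← mul_assoc, T.h_α1_t]; exact zero_mul X
  have h_γ0_t_ : ∀ X : R, γ0 * (t * X) = 0 := fun X => by rw [← mul_assoc, T.h_γ0_t]; exact zero_mul X
  have h_γ1_t_ : ∀ X : R, γ1 * (t * X) = 0 := fun X => by rw [← mul_assoc, T.h_γ1_t]; exact zero_mul X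
  have h_t_α0_ : ∀ X : R, t * (α0 * X) = 0 := fun X => by rw [← mul_assoc, T.h_t_α0]; exact zero_mul X
  have h_t_α1_ : ∀ X : R, t * (α1 * X) = 0 := fun X => by rw [← mul_assoc, T.h_t_α1]; exact zero_mul X
  have h_t_γ0_ : ∀ X : R, t * (γ0 * X) = 0 := fun X => by rw [← mul_assoc, T.h_t_γ0]; exact zero_mul X
  have h_t_γ1_ : ∀ X : R, t * (γ1 * X) = 0 := fun X => by rw [← mul_assoc, T.h_t_γ1]; exact zero_mul X
  have h_t_t_ : ∀ X : R, t * (t * X) = 0 := fun X => by rw [← mul_assoc, T.h_t_t]; exact zero_mul X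
  have h_s_t_ : ∀ X : R, s * (t * X) = f0 * X := fun X => by rw [← mul_assoc, T.h_s_t]
  have h_t_s_ : ∀ X : R, t * (s * X) = e0 * X := fun X => by rw [← mul_assoc, T.h_t_s]
  have k1_ : ∀ X : R, α1 * (γ1 * (α0 * X)) = α0 * X := fun X => by rw [← mul_assoc γ1, ← mul_assoc, T.k1]
  have k2_ : ∀ X : R, γ0 * (α1 * (γ1 * X)) = γ0 * X := fun X => by rw [← mul_assoc α1, ← mul_assoc, T.k2]
  simp only [dD, dU, dJ, dP0, dP1, dw, di, two_mul, mul_add, add_mul, mul_sub, sub_mul, mul_assoc, mul_zero, zero_mul, add_zero, zero_add, sub_zero, T.h_e0_e0, T.h_e1_e1, T.h_f0_f0, T.h_F_F, T.h_e0_e1, T.h_e1_e0, T.h_e0_f0, T.h_f0_e0, T.h_e1_f0, T.h_f0_e1, T.h_F_e0, T.h_e0_F, T.h_F_e1, T.h_e1_F, T.h_F_f0, T.h_f0_F, T.h_α0_e0, T.h_α1_e1, T.h_α0_e1, T.h_α1_e0, T.h_α0_f0, T.h_α0_F, T.h_e0_α0, T.h_e1_α0, T.h_f0_α0, T.h_F_α0, T.h_α0_α0, T.h_α0_α1,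 T.h_α1_f0, T.h_α1_F, T.h_e0_α1, T.h_e1_α1, T.h_f0_α1, T.h_F_α1, T.h_α1_α0, T.h_α1_α1, T.h_e0_γ0, T.h_e1_γ1, T.h_e1_γ0, T.h_e0_γ1, T.h_f0_γ0, T.h_F_γ0, T.h_γ0_e0, T.h_γ0_e1, T.h_γ0_f0, T.h_γ0_F, T.h_γ0_γ0, T.h_γ0_γ1, T.h_f0_γ1, T.h_F_γ1, T.h_γ1_e0, T.h_γ1_e1, T.h_γ1_f0, T.h_γ1_F, T.h_γ1_γ0, T.h_γ1_γ1, T.h_α0_γ1, T.h_α1_γ0, T.h_s_e0, T.h_s_e1, T.h_s_f0, T.h_s_F, T.h_e0_s, T.h_e1_s, T.h_f0_s, T.h_F_s, T.h_α0_s, T.h_α1_s, T.h_γ0_s, T.h_γ1_s, T.h_s_α0, T.h_s_α1, T.h_s_γ1, T.h_s_s, T.h_t_f0, T.h_t_e0, T.h_t_e1, T.h_t_F, T.h_e0_t, T.h_e1_t, T.h_f0_t, T.h_F_t, T.h_α1_t, T.h_γ0_t, T.h_γ1_t, T.h_t_α0, T.h_t_α1, T.h_t_γ0, T.h_t_γ1, T.h_t_t, T.h_s_t, T.h_t_s, T.k1, T.k2, h_e0_e0_, h_e1_e1_, h_f0_f0_, h_F_F_, h_e0_e1_, h_e1_e0_, h_e0_f0_, h_f0_e0_, h_e1_f0_, h_f0_e1_, h_F_e0_, h_e0_F_, h_F_e1_, h_e1_F_, h_F_f0_, h_f0_F_, h_α0_e0_,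 h_α1_e1_, h_α0_e1_, h_α1_e0_, h_α0_f0_, h_α0_F_, h_e0_α0_, h_e1_α0_, h_f0_α0_, h_F_α0_, h_α0_α0_, h_α0_α1_, h_α1_f0_, h_α1_F_, h_e0_α1_, h_e1_α1_, h_f0_α1_, h_F_α1_, h_α1_α0_, h_α1_α1_, h_e0_γ0_, h_e1_γ1_, h_e1_γ0_, h_e0_γ1_, h_f0_γ0_, h_F_γ0_, h_γ0_e0_, h_γ0_e1_, h_γ0_f0_, h_γ0_F_, h_γ0_γ0_, h_γ0_γ1_, h_f0_γ1_, h_F_γ1_, h_γ1_e0_, h_γ1_e1_, h_γ1_f0_, h_γ1_F_, h_γ1_γ0_, h_γ1_γ1_, h_α0_γ1_, h_α1_γ0_, h_s_e0_, h_s_e1_, h_s_f0_, h_s_F_, h_e0_s_, h_e1_s_, h_f0_s_, h_F_s_, h_α0_s_, h_α1_s_, h_γ0_s_, h_γ1_s_, h_s_α0_, h_s_α1_, h_s_γ1_, h_s_s_, h_t_f0_, h_t_e0_, h_t_e1_, h_t_F_, h_e0_t_, h_e1_t_, h_f0_t_, h_F_t_, h_α1_t_, h_γ0_t_, h_γ1_t_, h_t_α0_, h_t_α1_, h_t_γ0_, h_t_γ1_, h_t_t_, h_s_t_, h_t_s_, k1_, k2_]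
  try abel

theorem d_P10 (T : DTab e0 e1 f0 F α0 α1 γ0 γ1 s t) :
    dP1 e0 e1 f0 F α1 γ1 * dP0 e0 F α0 γ0 = dP0 e0 F α0 γ0 := by
  have h_e0_e0_ : ∀ X : R, e0 * (e0 * X) = e0 * X := fun X => by rw [← mul_assoc, T.h_e0_e0]
  have h_e1_e1_ : ∀ X : R, e1 * (e1 * X) = e1 * X := fun X => by rw [← mul_assoc, T.h_e1_e1]
  have h_f0_f0_ : ∀ X : R, f0 * (f0 * X) = f0 * X := fun X => by rw [← mul_assoc, T.h_f0_f0]
  have h_F_F_ : ∀ X : R, F * (F * X) = F * X := fun X => by rw [← mul_assoc, T.h_F_F]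
  have h_e0_e1_ : ∀ X : R, e0 * (e1 * X) = 0 := fun X => by rw [← mul_assoc, T.h_e0_e1]; exact zero_mul X
  have h_e1_e0_ : ∀ X : R, e1 * (e0 * X) = 0 := fun X => by rw [← mul_assoc, T.h_e1_e0]; exact zero_mul X
  have h_e0_f0_ : ∀ X : R, e0 * (f0 * X) = 0 := fun X => by rw [← mul_assoc, T.h_e0_f0]; exact zero_mul X
  have h_f0_e0_ : ∀ X : R, f0 * (e0 * X) = 0 := fun X => by rw [← mul_assoc, T.h_f0_e0]; exact zero_mul X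
  have h_e1_f0_ : ∀ X : R, e1 * (f0 * X) = 0 := fun X => by rw [← mul_assoc, T.h_e1_f0]; exact zero_mul X
  have h_f0_e1_ : ∀ X : R, f0 * (e1 * X) = 0 := fun X => by rw [← mul_assoc, T.h_f0_e1]; exact zero_mul X
  have h_F_e0_ : ∀ X : R, F * (e0 * X) = 0 := fun X => by rw [← mul_assoc, T.h_F_e0]; exact zero_mul X
  have h_e0_F_ : ∀ X : R, e0 * (F * X) = 0 := fun X => by rw [← mul_assoc, T.h_e0_F]; exact zero_mul X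
  have h_F_e1_ : ∀ X : R, F * (e1 * X) = 0 := fun X => by rw [← mul_assoc, T.h_F_e1]; exact zero_mul X
  have h_e1_F_ : ∀ X : R, e1 * (F * X) = 0 := fun X => by rw [← mul_assoc, T.h_e1_F]; exact zero_mul X
  have h_F_f0_ : ∀ X : R, F * (f0 * X) = 0 := fun X => by rw [← mul_assoc, T.h_F_f0]; exact zero_mul X
  have h_f0_F_ : ∀ X : R, f0 * (F * X) = 0 := fun X => by rw [← mul_assoc, T.h_f0_F]; exact zero_mul X
  have h_α0_e0_ : ∀ X : R, α0 * (e0 * X) = α0 * X := fun X => by rw [← mul_assoc, T.h_α0_e0]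
  have h_α1_e1_ : ∀ X : R, α1 * (e1 * X) = α1 * X := fun X => by rw [← mul_assoc, T.h_α1_e1]
  have h_α0_e1_ : ∀ X : R, α0 * (e1 * X) = 0 := fun X => by rw [← mul_assoc, T.h_α0_e1]; exact zero_mul X
  have h_α1_e0_ : ∀ X : R, α1 * (e0 * X) = 0 := fun X => by rw [← mul_assoc, T.h_α1_e0]; exact zero_mul X
  have h_α0_f0_ : ∀ X : R, α0 * (f0 * X) = 0 := fun X => by rw [← mul_assoc, T.h_α0_f0]; exact zero_mul X
  have h_α0_F_ : ∀ X : R, α0 * (F * X) = 0 := fun X => by rw [← mul_assoc, T.h_α0_F]; exact zero_mul X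
  have h_e0_α0_ : ∀ X : R, e0 * (α0 * X) = 0 := fun X => by rw [← mul_assoc, T.h_e0_α0]; exact zero_mul X
  have h_e1_α0_ : ∀ X : R, e1 * (α0 * X) = 0 := fun X => by rw [← mul_assoc, T.h_e1_α0]; exact zero_mul X
  have h_f0_α0_ : ∀ X : R, f0 * (α0 * X) = 0 := fun X => by rw [← mul_assoc, T.h_f0_α0]; exact zero_mul X
  have h_F_α0_ : ∀ X : R, F * (α0 * X) = 0 := fun X => by rw [← mul_assoc, T.h_F_α0]; exact zero_mul X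
  have h_α0_α0_ : ∀ X : R, α0 * (α0 * X) = 0 := fun X => by rw [← mul_assoc, T.h_α0_α0]; exact zero_mul X
  have h_α0_α1_ : ∀ X : R, α0 * (α1 * X) = 0 := fun X => by rw [← mul_assoc, T.h_α0_α1]; exact zero_mul X
  have h_α1_f0_ : ∀ X : R, α1 * (f0 * X) = 0 := fun X => by rw [← mul_assoc, T.h_α1_f0]; exact zero_mul X
  have h_α1_F_ : ∀ X : R, α1 * (F * X) = 0 := fun X => by rw [← mul_assoc, T.h_α1_F]; exact zero_mul X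
  have h_e0_α1_ : ∀ X : R, e0 * (α1 * X) = 0 := fun X => by rw [← mul_assoc, T.h_e0_α1]; exact zero_mul X
  have h_e1_α1_ : ∀ X : R, e1 * (α1 * X) = 0 := fun X => by rw [← mul_assoc, T.h_e1_α1]; exact zero_mul X
  have h_f0_α1_ : ∀ X : R, f0 * (α1 * X) = 0 := fun X => by rw [← mul_assoc, T.h_f0_α1]; exact zero_mul X
  have h_F_α1_ : ∀ X : R, F * (α1 * X) = 0 := fun X => by rw [← mul_assoc, T.h_F_α1]; exact zero_mul X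
  have h_α1_α0_ : ∀ X : R, α1 * (α0 * X) = 0 := fun X => by rw [← mul_assoc, T.h_α1_α0]; exact zero_mul X
  have h_α1_α1_ : ∀ X : R, α1 * (α1 * X) = 0 := fun X => by rw [← mul_assoc, T.h_α1_α1]; exact zero_mul X
  have h_e0_γ0_ : ∀ X : R, e0 * (γ0 * X) = γ0 * X := fun X => by rw [← mul_assoc, T.h_e0_γ0]
  have h_e1_γ1_ : ∀ X : R, e1 * (γ1 * X) = γ1 * X := fun X => by rw [← mul_assoc, T.h_e1_γ1]
  have h_e1_γ0_ : ∀ X : R, e1 * (γ0 * X) = 0 := fun X => by rw [← mul_assoc, T.h_e1_γ0]; exact zero_mul X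
  have h_e0_γ1_ : ∀ X : R, e0 * (γ1 * X) = 0 := fun X => by rw [← mul_assoc, T.h_e0_γ1]; exact zero_mul X
  have h_f0_γ0_ : ∀ X : R, f0 * (γ0 * X) = 0 := fun X => by rw [← mul_assoc, T.h_f0_γ0]; exact zero_mul X
  have h_F_γ0_ : ∀ X : R, F * (γ0 * X) = 0 := fun X => by rw [← mul_assoc, T.h_F_γ0]; exact zero_mul X
  have h_γ0_e0_ : ∀ X : R, γ0 * (e0 * X) = 0 := fun X => by rw [← mul_assoc, T.h_γ0_e0]; exact zero_mul X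
  have h_γ0_e1_ : ∀ X : R, γ0 * (e1 * X) = 0 := fun X => by rw [← mul_assoc, T.h_γ0_e1]; exact zero_mul X
  have h_γ0_f0_ : ∀ X : R, γ0 * (f0 * X) = 0 := fun X => by rw [← mul_assoc, T.h_γ0_f0]; exact zero_mul X
  have h_γ0_F_ : ∀ X : R, γ0 * (F * X) = 0 := fun X => by rw [← mul_assoc, T.h_γ0_F]; exact zero_mul X
  have h_γ0_γ0_ : ∀ X : R, γ0 * (γ0 * X) = 0 := fun X => by rw [← mul_assoc, T.h_γ0_γ0]; exact zero_mul X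
  have h_γ0_γ1_ : ∀ X : R, γ0 * (γ1 * X) = 0 := fun X => by rw [← mul_assoc, T.h_γ0_γ1]; exact zero_mul X
  have h_f0_γ1_ : ∀ X : R, f0 * (γ1 * X) = 0 := fun X => by rw [← mul_assoc, T.h_f0_γ1]; exact zero_mul X
  have h_F_γ1_ : ∀ X : R, F * (γ1 * X) = 0 := fun X => by rw [← mul_assoc, T.h_F_γ1]; exact zero_mul X
  have h_γ1_e0_ : ∀ X : R, γ1 * (e0 * X) = 0 := fun X => by rw [← mul_assoc, T.h_γ1_e0]; exact zero_mul X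
  have h_γ1_e1_ : ∀ X : R, γ1 * (e1 * X) = 0 := fun X => by rw [← mul_assoc, T.h_γ1_e1]; exact zero_mul X
  have h_γ1_f0_ : ∀ X : R, γ1 * (f0 * X) = 0 := fun X => by rw [← mul_assoc, T.h_γ1_f0]; exact zero_mul X
  have h_γ1_F_ : ∀ X : R, γ1 * (F * X) = 0 := fun X => by rw [← mul_assoc, T.h_γ1_F]; exact zero_mul X
  have h_γ1_γ0_ : ∀ X : R, γ1 * (γ0 * X) = 0 := fun X => by rw [← mul_assoc, T.h_γ1_γ0]; exact zero_mul X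
  have h_γ1_γ1_ : ∀ X : R, γ1 * (γ1 * X) = 0 := fun X => by rw [← mul_assoc, T.h_γ1_γ1]; exact zero_mul X
  have h_α0_γ1_ : ∀ X : R, α0 * (γ1 * X) = 0 := fun X => by rw [← mul_assoc, T.h_α0_γ1]; exact zero_mul X
  have h_α1_γ0_ : ∀ X : R, α1 * (γ0 * X) = 0 := fun X => by rw [← mul_assoc, T.h_α1_γ0]; exact zero_mul X
  have h_s_e0_ : ∀ X : R, s * (e0 * X) = s * X := fun X => by rw [← mul_assoc, T.h_s_e0]
  have h_s_e1_ : ∀ X : R, s * (e1 * X) = 0 := fun X => by rw [← mul_assoc, T.h_s_e1]; exact zero_mul X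
  have h_s_f0_ : ∀ X : R, s * (f0 * X) = 0 := fun X => by rw [← mul_assoc, T.h_s_f0]; exact zero_mul X
  have h_s_F_ : ∀ X : R, s * (F * X) = 0 := fun X => by rw [← mul_assoc, T.h_s_F]; exact zero_mul X
  have h_e0_s_ : ∀ X : R, e0 * (s * X) = 0 := fun X => by rw [← mul_assoc, T.h_e0_s]; exact zero_mul X
  have h_e1_s_ : ∀ X : R, e1 * (s * X) = 0 := fun X => by rw [← mul_assoc, T.h_e1_s]; exact zero_mul X
  have h_f0_s_ : ∀ X : R, f0 * (s * X) = s * X := fun X => by rw [← mul_assoc, T.h_f0_s]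
  have h_F_s_ : ∀ X : R, F * (s * X) = 0 := fun X => by rw [← mul_assoc, T.h_F_s]; exact zero_mul X
  have h_α0_s_ : ∀ X : R, α0 * (s * X) = 0 := fun X => by rw [← mul_assoc, T.h_α0_s]; exact zero_mul X
  have h_α1_s_ : ∀ X : R, α1 * (s * X) = 0 := fun X => by rw [← mul_assoc, T.h_α1_s]; exact zero_mul X
  have h_γ0_s_ : ∀ X : R, γ0 * (s * X) = 0 := fun X => by rw [← mul_assoc, T.h_γ0_s]; exact zero_mul X
  have h_γ1_s_ : ∀ X : R, γ1 * (s * X) = 0 := fun X => by rw [← mul_assoc, T.h_γ1_s]; exact zero_mul X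
  have h_s_α0_ : ∀ X : R, s * (α0 * X) = 0 := fun X => by rw [← mul_assoc, T.h_s_α0]; exact zero_mul X
  have h_s_α1_ : ∀ X : R, s * (α1 * X) = 0 := fun X => by rw [← mul_assoc, T.h_s_α1]; exact zero_mul X
  have h_s_γ1_ : ∀ X : R, s * (γ1 * X) = 0 := fun X => by rw [← mul_assoc, T.h_s_γ1]; exact zero_mul X
  have h_s_s_ : ∀ X : R, s * (s * X) = 0 := fun X => by rw [← mul_assoc, T.h_s_s]; exact zero_mul X
  have h_t_f0_ : ∀ X : R, t * (f0 * X) = t * X := fun X => by rw [← mul_assoc, T.h_t_f0]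
  have h_t_e0_ : ∀ X : R, t * (e0 * X) = 0 := fun X => by rw [← mul_assoc, T.h_t_e0]; exact zero_mul X
  have h_t_e1_ : ∀ X : R, t * (e1 * X) = 0 := fun X => by rw [← mul_assoc, T.h_t_e1]; exact zero_mul X
  have h_t_F_ : ∀ X : R, t * (F * X) = 0 := fun X => by rw [← mul_assoc, T.h_t_F]; exact zero_mul X
  have h_e0_t_ : ∀ X : R, e0 * (t * X) = t * X := fun X => by rw [← mul_assoc, T.h_e0_t]
  have h_e1_t_ : ∀ X : R, e1 * (t * X) = 0 := fun X => by rw [← mul_assoc, T.h_e1_t]; exact zero_mul X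
  have h_f0_t_ : ∀ X : R, f0 * (t * X) = 0 := fun X => by rw [← mul_assoc, T.h_f0_t]; exact zero_mul X
  have h_F_t_ : ∀ X : R, F * (t * X) = 0 := fun X => by rw [← mul_assoc, T.h_F_t]; exact zero_mul X
  have h_α1_t_ : ∀ X : R, α1 * (t * X) = 0 := fun X => by rw [← mul_assoc, T.h_α1_t]; exact zero_mul X
  have h_γ0_t_ : ∀ X : R, γ0 * (t * X) = 0 := fun X => by rw [← mul_assoc, T.h_γ0_t]; exact zero_mul X
  have h_γ1_t_ : ∀ X : R, γ1 * (t * X) = 0 := fun X => by rw [← mul_assoc, T.h_γ1_t]; exact zero_mul X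
  have h_t_α0_ : ∀ X : R, t * (α0 * X) = 0 := fun X => by rw [← mul_assoc, T.h_t_α0]; exact zero_mul X
  have h_t_α1_ : ∀ X : R, t * (α1 * X) = 0 := fun X => by rw [← mul_assoc, T.h_t_α1]; exact zero_mul X
  have h_t_γ0_ : ∀ X : R, t * (γ0 * X) = 0 := fun X => by rw [← mul_assoc, T.h_t_γ0]; exact zero_mul X
  have h_t_γ1_ : ∀ X : R, t * (γ1 * X) = 0 := fun X => by rw [← mul_assoc, T.h_t_γ1]; exact zero_mul X
  have h_t_t_ : ∀ X : R, t * (t * X) = 0 := fun X => by rw [← mul_assoc, T.h_t_t]; exact zero_mul X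
  have h_s_t_ : ∀ X : R, s * (t * X) = f0 * X := fun X => by rw [← mul_assoc, T.h_s_t]
  have h_t_s_ : ∀ X : R, t * (s * X) = e0 * X := fun X => by rw [← mul_assoc, T.h_t_s]
  have k1_ : ∀ X : R, α1 * (γ1 * (α0 * X)) = α0 * X := fun X => by rw [← mul_assoc γ1, ← mul_assoc, T.k1]
  have k2_ : ∀ X : R, γ0 * (α1 * (γ1 * X)) = γ0 * X := fun X => by rw [← mul_assoc α1, ← mul_assoc, T.k2]
  simp only [dD, dU, dJ, dP0, dP1, dw, di, two_mul, mul_add, add_mul, mul_sub, sub_mul, mul_assoc, mul_zero, zero_mul, add_zero, zero_add, sub_zero, T.h_e0_e0, T.h_e1_e1, T.h_f0_f0, T.h_F_F, T.h_e0_e1, T.h_e1_e0, T.h_e0_f0, T.h_f0_e0, T.h_e1_f0, T.h_f0_e1, T.h_F_e0, T.h_e0_F, T.h_F_e1, T.h_e1_F, T.h_F_f0, T.h_f0_F, T.h_α0_e0, T.h_α1_e1, T.h_α0_e1, T.h_α1_e0, T.h_α0_f0, T.h_α0_F, T.h_e0_α0, T.h_e1_α0, T.h_f0_α0, T.h_F_α0, T.h_α0_α0, T.h_α0_α1,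 T.h_α1_f0, T.h_α1_F, T.h_e0_α1, T.h_e1_α1, T.h_f0_α1, T.h_F_α1, T.h_α1_α0, T.h_α1_α1, T.h_e0_γ0, T.h_e1_γ1, T.h_e1_γ0, T.h_e0_γ1, T.h_f0_γ0, T.h_F_γ0, T.h_γ0_e0, T.h_γ0_e1, T.h_γ0_f0, T.h_γ0_F, T.h_γ0_γ0, T.h_γ0_γ1, T.h_f0_γ1, T.h_F_γ1, T.h_γ1_e0, T.h_γ1_e1, T.h_γ1_f0, T.h_γ1_F, T.h_γ1_γ0, T.h_γ1_γ1, T.h_α0_γ1, T.h_α1_γ0, T.h_s_e0, T.h_s_e1, T.h_s_f0, T.h_s_F, T.h_e0_s, T.h_e1_s, T.h_f0_s, T.h_F_s, T.h_α0_s, T.h_α1_s, T.h_γ0_s, T.h_γ1_s, T.h_s_α0, T.h_s_α1, T.h_s_γ1, T.h_s_s, T.h_t_f0, T.h_t_e0, T.h_t_e1, T.h_t_F, T.h_e0_t, T.h_e1_t, T.h_f0_t, T.h_F_t, T.h_α1_t, T.h_γ0_t, T.h_γ1_t, T.h_t_α0, T.h_t_α1, T.h_t_γ0, T.h_t_γ1, T.h_t_t, T.h_s_t, T.h_t_s, T.k1, T.k2, h_e0_e0_, h_e1_e1_, h_f0_f0_, h_F_F_, h_e0_e1_, h_e1_e0_, h_e0_f0_, h_f0_e0_, h_e1_f0_, h_f0_e1_, h_F_e0_, h_e0_F_, h_F_e1_, h_e1_F_, h_F_f0_, h_f0_F_, h_α0_e0_,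 h_α1_e1_, h_α0_e1_, h_α1_e0_, h_α0_f0_, h_α0_F_, h_e0_α0_, h_e1_α0_, h_f0_α0_, h_F_α0_, h_α0_α0_, h_α0_α1_, h_α1_f0_, h_α1_F_, h_e0_α1_, h_e1_α1_, h_f0_α1_, h_F_α1_, h_α1_α0_, h_α1_α1_, h_e0_γ0_, h_e1_γ1_, h_e1_γ0_, h_e0_γ1_, h_f0_γ0_, h_F_γ0_, h_γ0_e0_, h_γ0_e1_, h_γ0_f0_, h_γ0_F_, h_γ0_γ0_, h_γ0_γ1_, h_f0_γ1_, h_F_γ1_, h_γ1_e0_, h_γ1_e1_, h_γ1_f0_, h_γ1_F_, h_γ1_γ0_, h_γ1_γ1_, h_α0_γ1_, h_α1_γ0_, h_s_e0_, h_s_e1_, h_s_f0_, h_s_F_, h_e0_s_, h_e1_s_, h_f0_s_, h_F_s_, h_α0_s_, h_α1_s_, h_γ0_s_, h_γ1_s_, h_s_α0_, h_s_α1_, h_s_γ1_, h_s_s_, h_t_f0_, h_t_e0_, h_t_e1_, h_t_F_, h_e0_t_, h_e1_t_, h_f0_t_, h_F_t_, h_α1_t_, h_γ0_t_, h_γ1_t_, h_t_α0_, h_t_α1_, h_t_γ0_, h_t_γ1_, h_t_t_, h_s_t_, h_t_s_, k1_, k2_]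
  try abel

theorem d_P01 (T : DTab e0 e1 f0 F α0 α1 γ0 γ1 s t) :
    dP0 e0 F α0 γ0 * dP1 e0 e1 f0 F α1 γ1 = dP0 e0 F α0 γ0 := by
  have h_e0_e0_ : ∀ X : R, e0 * (e0 * X) = e0 * X := fun X => by rw [← mul_assoc, T.h_e0_e0]
  have h_e1_e1_ : ∀ X : R, e1 * (e1 * X) = e1 * X := fun X => by rw [← mul_assoc, T.h_e1_e1]
  have h_f0_f0_ : ∀ X : R, f0 * (f0 * X) = f0 * X := fun X => by rw [← mul_assoc, T.h_f0_f0]
  have h_F_F_ : ∀ X : R, F * (F * X) = F * X := fun X => by rw [← mul_assoc, T.h_F_F]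
  have h_e0_e1_ : ∀ X : R, e0 * (e1 * X) = 0 := fun X => by rw [← mul_assoc, T.h_e0_e1]; exact zero_mul X
  have h_e1_e0_ : ∀ X : R, e1 * (e0 * X) = 0 := fun X => by rw [← mul_assoc, T.h_e1_e0]; exact zero_mul X
  have h_e0_f0_ : ∀ X : R, e0 * (f0 * X) = 0 := fun X => by rw [← mul_assoc, T.h_e0_f0]; exact zero_mul X
  have h_f0_e0_ : ∀ X : R, f0 * (e0 * X) = 0 := fun X => by rw [← mul_assoc, T.h_f0_e0]; exact zero_mul X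
  have h_e1_f0_ : ∀ X : R, e1 * (f0 * X) = 0 := fun X => by rw [← mul_assoc, T.h_e1_f0]; exact zero_mul X
  have h_f0_e1_ : ∀ X : R, f0 * (e1 * X) = 0 := fun X => by rw [← mul_assoc, T.h_f0_e1]; exact zero_mul X
  have h_F_e0_ : ∀ X : R, F * (e0 * X) = 0 := fun X => by rw [← mul_assoc, T.h_F_e0]; exact zero_mul X
  have h_e0_F_ : ∀ X : R, e0 * (F * X) = 0 := fun X => by rw [← mul_assoc, T.h_e0_F]; exact zero_mul X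
  have h_F_e1_ : ∀ X : R, F * (e1 * X) = 0 := fun X => by rw [← mul_assoc, T.h_F_e1]; exact zero_mul X
  have h_e1_F_ : ∀ X : R, e1 * (F * X) = 0 := fun X => by rw [← mul_assoc, T.h_e1_F]; exact zero_mul X
  have h_F_f0_ : ∀ X : R, F * (f0 * X) = 0 := fun X => by rw [← mul_assoc, T.h_F_f0]; exact zero_mul X
  have h_f0_F_ : ∀ X : R, f0 * (F * X) = 0 := fun X => by rw [← mul_assoc, T.h_f0_F]; exact zero_mul X
  have h_α0_e0_ : ∀ X : R, α0 * (e0 * X) = α0 * X := fun X => by rw [← mul_assoc, T.h_α0_e0]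
  have h_α1_e1_ : ∀ X : R, α1 * (e1 * X) = α1 * X := fun X => by rw [← mul_assoc, T.h_α1_e1]
  have h_α0_e1_ : ∀ X : R, α0 * (e1 * X) = 0 := fun X => by rw [← mul_assoc, T.h_α0_e1]; exact zero_mul X
  have h_α1_e0_ : ∀ X : R, α1 * (e0 * X) = 0 := fun X => by rw [← mul_assoc, T.h_α1_e0]; exact zero_mul X
  have h_α0_f0_ : ∀ X : R, α0 * (f0 * X) = 0 := fun X => by rw [← mul_assoc, T.h_α0_f0]; exact zero_mul X
  have h_α0_F_ : ∀ X : R, α0 * (F * X) = 0 := fun X => by rw [← mul_assoc, T.h_α0_F]; exact zero_mul X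
  have h_e0_α0_ : ∀ X : R, e0 * (α0 * X) = 0 := fun X => by rw [← mul_assoc, T.h_e0_α0]; exact zero_mul X
  have h_e1_α0_ : ∀ X : R, e1 * (α0 * X) = 0 := fun X => by rw [← mul_assoc, T.h_e1_α0]; exact zero_mul X
  have h_f0_α0_ : ∀ X : R, f0 * (α0 * X) = 0 := fun X => by rw [← mul_assoc, T.h_f0_α0]; exact zero_mul X
  have h_F_α0_ : ∀ X : R, F * (α0 * X) = 0 := fun X => by rw [← mul_assoc, T.h_F_α0]; exact zero_mul X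
  have h_α0_α0_ : ∀ X : R, α0 * (α0 * X) = 0 := fun X => by rw [← mul_assoc, T.h_α0_α0]; exact zero_mul X
  have h_α0_α1_ : ∀ X : R, α0 * (α1 * X) = 0 := fun X => by rw [← mul_assoc, T.h_α0_α1]; exact zero_mul X
  have h_α1_f0_ : ∀ X : R, α1 * (f0 * X) = 0 := fun X => by rw [← mul_assoc, T.h_α1_f0]; exact zero_mul X
  have h_α1_F_ : ∀ X : R, α1 * (F * X) = 0 := fun X => by rw [← mul_assoc, T.h_α1_F]; exact zero_mul X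
  have h_e0_α1_ : ∀ X : R, e0 * (α1 * X) = 0 := fun X => by rw [← mul_assoc, T.h_e0_α1]; exact zero_mul X
  have h_e1_α1_ : ∀ X : R, e1 * (α1 * X) = 0 := fun X => by rw [← mul_assoc, T.h_e1_α1]; exact zero_mul X
  have h_f0_α1_ : ∀ X : R, f0 * (α1 * X) = 0 := fun X => by rw [← mul_assoc, T.h_f0_α1]; exact zero_mul X
  have h_F_α1_ : ∀ X : R, F * (α1 * X) = 0 := fun X => by rw [← mul_assoc, T.h_F_α1]; exact zero_mul X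
  have h_α1_α0_ : ∀ X : R, α1 * (α0 * X) = 0 := fun X => by rw [← mul_assoc, T.h_α1_α0]; exact zero_mul X
  have h_α1_α1_ : ∀ X : R, α1 * (α1 * X) = 0 := fun X => by rw [← mul_assoc, T.h_α1_α1]; exact zero_mul X
  have h_e0_γ0_ : ∀ X : R, e0 * (γ0 * X) = γ0 * X := fun X => by rw [← mul_assoc, T.h_e0_γ0]
  have h_e1_γ1_ : ∀ X : R, e1 * (γ1 * X) = γ1 * X := fun X => by rw [← mul_assoc, T.h_e1_γ1]
  have h_e1_γ0_ : ∀ X : R, e1 * (γ0 * X) = 0 := fun X => by rw [← mul_assoc, T.h_e1_γ0]; exact zero_mul X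
  have h_e0_γ1_ : ∀ X : R, e0 * (γ1 * X) = 0 := fun X => by rw [← mul_assoc, T.h_e0_γ1]; exact zero_mul X
  have h_f0_γ0_ : ∀ X : R, f0 * (γ0 * X) = 0 := fun X => by rw [← mul_assoc, T.h_f0_γ0]; exact zero_mul X
  have h_F_γ0_ : ∀ X : R, F * (γ0 * X) = 0 := fun X => by rw [← mul_assoc, T.h_F_γ0]; exact zero_mul X
  have h_γ0_e0_ : ∀ X : R, γ0 * (e0 * X) = 0 := fun X => by rw [← mul_assoc, T.h_γ0_e0]; exact zero_mul X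
  have h_γ0_e1_ : ∀ X : R, γ0 * (e1 * X) = 0 := fun X => by rw [← mul_assoc, T.h_γ0_e1]; exact zero_mul X
  have h_γ0_f0_ : ∀ X : R, γ0 * (f0 * X) = 0 := fun X => by rw [← mul_assoc, T.h_γ0_f0]; exact zero_mul X
  have h_γ0_F_ : ∀ X : R, γ0 * (F * X) = 0 := fun X => by rw [← mul_assoc, T.h_γ0_F]; exact zero_mul X
  have h_γ0_γ0_ : ∀ X : R, γ0 * (γ0 * X) = 0 := fun X => by rw [← mul_assoc, T.h_γ0_γ0]; exact zero_mul X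
  have h_γ0_γ1_ : ∀ X : R, γ0 * (γ1 * X) = 0 := fun X => by rw [← mul_assoc, T.h_γ0_γ1]; exact zero_mul X
  have h_f0_γ1_ : ∀ X : R, f0 * (γ1 * X) = 0 := fun X => by rw [← mul_assoc, T.h_f0_γ1]; exact zero_mul X
  have h_F_γ1_ : ∀ X : R, F * (γ1 * X) = 0 := fun X => by rw [← mul_assoc, T.h_F_γ1]; exact zero_mul X
  have h_γ1_e0_ : ∀ X : R, γ1 * (e0 * X) = 0 := fun X => by rw [← mul_assoc, T.h_γ1_e0]; exact zero_mul X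
  have h_γ1_e1_ : ∀ X : R, γ1 * (e1 * X) = 0 := fun X => by rw [← mul_assoc, T.h_γ1_e1]; exact zero_mul X
  have h_γ1_f0_ : ∀ X : R, γ1 * (f0 * X) = 0 := fun X => by rw [← mul_assoc, T.h_γ1_f0]; exact zero_mul X
  have h_γ1_F_ : ∀ X : R, γ1 * (F * X) = 0 := fun X => by rw [← mul_assoc, T.h_γ1_F]; exact zero_mul X
  have h_γ1_γ0_ : ∀ X : R, γ1 * (γ0 * X) = 0 := fun X => by rw [← mul_assoc, T.h_γ1_γ0]; exact zero_mul X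
  have h_γ1_γ1_ : ∀ X : R, γ1 * (γ1 * X) = 0 := fun X => by rw [← mul_assoc, T.h_γ1_γ1]; exact zero_mul X
  have h_α0_γ1_ : ∀ X : R, α0 * (γ1 * X) = 0 := fun X => by rw [← mul_assoc, T.h_α0_γ1]; exact zero_mul X
  have h_α1_γ0_ : ∀ X : R, α1 * (γ0 * X) = 0 := fun X => by rw [← mul_assoc, T.h_α1_γ0]; exact zero_mul X
  have h_s_e0_ : ∀ X : R, s * (e0 * X) = s * X := fun X => by rw [← mul_assoc, T.h_s_e0]
  have h_s_e1_ : ∀ X : R, s * (e1 * X) = 0 := fun X => by rw [← mul_assoc, T.h_s_e1]; exact zero_mul X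
  have h_s_f0_ : ∀ X : R, s * (f0 * X) = 0 := fun X => by rw [← mul_assoc, T.h_s_f0]; exact zero_mul X
  have h_s_F_ : ∀ X : R, s * (F * X) = 0 := fun X => by rw [← mul_assoc, T.h_s_F]; exact zero_mul X
  have h_e0_s_ : ∀ X : R, e0 * (s * X) = 0 := fun X => by rw [← mul_assoc, T.h_e0_s]; exact zero_mul X
  have h_e1_s_ : ∀ X : R, e1 * (s * X) = 0 := fun X => by rw [← mul_assoc, T.h_e1_s]; exact zero_mul X
  have h_f0_s_ : ∀ X : R, f0 * (s * X) = s * X := fun X => by rw [← mul_assoc, T.h_f0_s]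
  have h_F_s_ : ∀ X : R, F * (s * X) = 0 := fun X => by rw [← mul_assoc, T.h_F_s]; exact zero_mul X
  have h_α0_s_ : ∀ X : R, α0 * (s * X) = 0 := fun X => by rw [← mul_assoc, T.h_α0_s]; exact zero_mul X
  have h_α1_s_ : ∀ X : R, α1 * (s * X) = 0 := fun X => by rw [← mul_assoc, T.h_α1_s]; exact zero_mul X
  have h_γ0_s_ : ∀ X : R, γ0 * (s * X) = 0 := fun X => by rw [← mul_assoc, T.h_γ0_s]; exact zero_mul X
  have h_γ1_s_ : ∀ X : R, γ1 * (s * X) = 0 := fun X => by rw [← mul_assoc, T.h_γ1_s]; exact zero_mul X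
  have h_s_α0_ : ∀ X : R, s * (α0 * X) = 0 := fun X => by rw [← mul_assoc, T.h_s_α0]; exact zero_mul X
  have h_s_α1_ : ∀ X : R, s * (α1 * X) = 0 := fun X => by rw [← mul_assoc, T.h_s_α1]; exact zero_mul X
  have h_s_γ1_ : ∀ X : R, s * (γ1 * X) = 0 := fun X => by rw [← mul_assoc, T.h_s_γ1]; exact zero_mul X
  have h_s_s_ : ∀ X : R, s * (s * X) = 0 := fun X => by rw [← mul_assoc, T.h_s_s]; exact zero_mul X
  have h_t_f0_ : ∀ X : R, t * (f0 * X) = t * X := fun X => by rw [← mul_assoc, T.h_t_f0]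
  have h_t_e0_ : ∀ X : R, t * (e0 * X) = 0 := fun X => by rw [← mul_assoc, T.h_t_e0]; exact zero_mul X
  have h_t_e1_ : ∀ X : R, t * (e1 * X) = 0 := fun X => by rw [← mul_assoc, T.h_t_e1]; exact zero_mul X
  have h_t_F_ : ∀ X : R, t * (F * X) = 0 := fun X => by rw [← mul_assoc, T.h_t_F]; exact zero_mul X
  have h_e0_t_ : ∀ X : R, e0 * (t * X) = t * X := fun X => by rw [← mul_assoc, T.h_e0_t]
  have h_e1_t_ : ∀ X : R, e1 * (t * X) = 0 := fun X => by rw [← mul_assoc, T.h_e1_t]; exact zero_mul X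
  have h_f0_t_ : ∀ X : R, f0 * (t * X) = 0 := fun X => by rw [← mul_assoc, T.h_f0_t]; exact zero_mul X
  have h_F_t_ : ∀ X : R, F * (t * X) = 0 := fun X => by rw [← mul_assoc, T.h_F_t]; exact zero_mul X
  have h_α1_t_ : ∀ X : R, α1 * (t * X) = 0 := fun X => by rw [← mul_assoc, T.h_α1_t]; exact zero_mul X
  have h_γ0_t_ : ∀ X : R, γ0 * (t * X) = 0 := fun X => by rw [← mul_assoc, T.h_γ0_t]; exact zero_mul X
  have h_γ1_t_ : ∀ X : R, γ1 * (t * X) = 0 := fun X => by rw [← mul_assoc, T.h_γ1_t]; exact zero_mul X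
  have h_t_α0_ : ∀ X : R, t * (α0 * X) = 0 := fun X => by rw [← mul_assoc, T.h_t_α0]; exact zero_mul X
  have h_t_α1_ : ∀ X : R, t * (α1 * X) = 0 := fun X => by rw [← mul_assoc, T.h_t_α1]; exact zero_mul X
  have h_t_γ0_ : ∀ X : R, t * (γ0 * X) = 0 := fun X => by rw [← mul_assoc, T.h_t_γ0]; exact zero_mul X
  have h_t_γ1_ : ∀ X : R, t * (γ1 * X) = 0 := fun X => by rw [← mul_assoc, T.h_t_γ1]; exact zero_mul X
  have h_t_t_ : ∀ X : R, t * (t * X) = 0 := fun X => by rw [← mul_assoc, T.h_t_t]; exact zero_mul X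
  have h_s_t_ : ∀ X : R, s * (t * X) = f0 * X := fun X => by rw [← mul_assoc, T.h_s_t]
  have h_t_s_ : ∀ X : R, t * (s * X) = e0 * X := fun X => by rw [← mul_assoc, T.h_t_s]
  have k1_ : ∀ X : R, α1 * (γ1 * (α0 * X)) = α0 * X := fun X => by rw [← mul_assoc γ1, ← mul_assoc, T.k1]
  have k2_ : ∀ X : R, γ0 * (α1 * (γ1 * X)) = γ0 * X := fun X => by rw [← mul_assoc α1, ← mul_assoc, T.k2]
  simp only [dD, dU, dJ, dP0, dP1, dw, di, two_mul, mul_add, add_mul, mul_sub, sub_mul, mul_assoc, mul_zero, zero_mul, add_zero, zero_add, sub_zero, T.h_e0_e0, T.h_e1_e1, T.h_f0_f0, T.h_F_F, T.h_e0_e1, T.h_e1_e0, T.h_e0_f0, T.h_f0_e0, T.h_e1_f0, T.h_f0_e1, T.h_F_e0, T.h_e0_F, T.h_F_e1, T.h_e1_F, T.h_F_f0, T.h_f0_F, T.h_α0_e0, T.h_α1_e1, T.h_α0_e1, T.h_α1_e0, T.h_α0_f0, T.h_α0_F, T.h_e0_α0, T.h_e1_α0, T.h_f0_α0, T.h_F_α0, T.h_α0_α0, T.h_α0_α1,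 T.h_α1_f0, T.h_α1_F, T.h_e0_α1, T.h_e1_α1, T.h_f0_α1, T.h_F_α1, T.h_α1_α0, T.h_α1_α1, T.h_e0_γ0, T.h_e1_γ1, T.h_e1_γ0, T.h_e0_γ1, T.h_f0_γ0, T.h_F_γ0, T.h_γ0_e0, T.h_γ0_e1, T.h_γ0_f0, T.h_γ0_F, T.h_γ0_γ0, T.h_γ0_γ1, T.h_f0_γ1, T.h_F_γ1, T.h_γ1_e0, T.h_γ1_e1, T.h_γ1_f0, T.h_γ1_F, T.h_γ1_γ0, T.h_γ1_γ1, T.h_α0_γ1, T.h_α1_γ0, T.h_s_e0, T.h_s_e1, T.h_s_f0, T.h_s_F, T.h_e0_s, T.h_e1_s, T.h_f0_s, T.h_F_s, T.h_α0_s, T.h_α1_s, T.h_γ0_s, T.h_γ1_s, T.h_s_α0, T.h_s_α1, T.h_s_γ1, T.h_s_s, T.h_t_f0, T.h_t_e0, T.h_t_e1, T.h_t_F, T.h_e0_t, T.h_e1_t, T.h_f0_t, T.h_F_t, T.h_α1_t, T.h_γ0_t, T.h_γ1_t, T.h_t_α0, T.h_t_α1, T.h_t_γ0, T.h_t_γ1, T.h_t_t, T.h_s_t, T.h_t_s, T.k1, T.k2, h_e0_e0_, h_e1_e1_, h_f0_f0_, h_F_F_, h_e0_e1_, h_e1_e0_, h_e0_f0_, h_f0_e0_, h_e1_f0_, h_f0_e1_, h_F_e0_, h_e0_F_, h_F_e1_, h_e1_F_, h_F_f0_, h_f0_F_, h_α0_e0_,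 h_α1_e1_, h_α0_e1_, h_α1_e0_, h_α0_f0_, h_α0_F_, h_e0_α0_, h_e1_α0_, h_f0_α0_, h_F_α0_, h_α0_α0_, h_α0_α1_, h_α1_f0_, h_α1_F_, h_e0_α1_, h_e1_α1_, h_f0_α1_, h_F_α1_, h_α1_α0_, h_α1_α1_, h_e0_γ0_, h_e1_γ1_, h_e1_γ0_, h_e0_γ1_, h_f0_γ0_, h_F_γ0_, h_γ0_e0_, h_γ0_e1_, h_γ0_f0_, h_γ0_F_, h_γ0_γ0_, h_γ0_γ1_, h_f0_γ1_, h_F_γ1_, h_γ1_e0_, h_γ1_e1_, h_γ1_f0_, h_γ1_F_, h_γ1_γ0_, h_γ1_γ1_, h_α0_γ1_, h_α1_γ0_, h_s_e0_, h_s_e1_, h_s_f0_, h_s_F_, h_e0_s_, h_e1_s_, h_f0_s_, h_F_s_, h_α0_s_, h_α1_s_, h_γ0_s_, h_γ1_s_, h_s_α0_, h_s_α1_, h_s_γ1_, h_s_s_, h_t_f0_, h_t_e0_, h_t_e1_, h_t_F_, h_e0_t_, h_e1_t_, h_f0_t_, h_F_t_, h_α1_t_, h_γ0_t_, h_γ1_t_, h_t_α0_, h_t_α1_, h_t_γ0_, h_t_γ1_, h_t_t_, h_s_t_, h_t_s_, k1_, k2_]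
  try abel

theorem d_eD (T : DTab e0 e1 f0 F α0 α1 γ0 γ1 s t) :
    (e1 + e0) * dD e0 e1 α0 α1 γ0 γ1 t = dD e0 e1 α0 α1 γ0 γ1 t := by
  have h_e0_e0_ : ∀ X : R, e0 * (e0 * X) = e0 * X := fun X => by rw [← mul_assoc, T.h_e0_e0]
  have h_e1_e1_ : ∀ X : R, e1 * (e1 * X) = e1 * X := fun X => by rw [← mul_assoc, T.h_e1_e1]
  have h_f0_f0_ : ∀ X : R, f0 * (f0 * X) = f0 * X := fun X => by rw [← mul_assoc, T.h_f0_f0]
  have h_F_F_ : ∀ X : R, F * (F * X) = F * X := fun X => by rw [← mul_assoc, T.h_F_F]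
  have h_e0_e1_ : ∀ X : R, e0 * (e1 * X) = 0 := fun X => by rw [← mul_assoc, T.h_e0_e1]; exact zero_mul X
  have h_e1_e0_ : ∀ X : R, e1 * (e0 * X) = 0 := fun X => by rw [← mul_assoc, T.h_e1_e0]; exact zero_mul X
  have h_e0_f0_ : ∀ X : R, e0 * (f0 * X) = 0 := fun X => by rw [← mul_assoc, T.h_e0_f0]; exact zero_mul X
  have h_f0_e0_ : ∀ X : R, f0 * (e0 * X) = 0 := fun X => by rw [← mul_assoc, T.h_f0_e0]; exact zero_mul X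
  have h_e1_f0_ : ∀ X : R, e1 * (f0 * X) = 0 := fun X => by rw [← mul_assoc, T.h_e1_f0]; exact zero_mul X
  have h_f0_e1_ : ∀ X : R, f0 * (e1 * X) = 0 := fun X => by rw [← mul_assoc, T.h_f0_e1]; exact zero_mul X
  have h_F_e0_ : ∀ X : R, F * (e0 * X) = 0 := fun X => by rw [← mul_assoc, T.h_F_e0]; exact zero_mul X
  have h_e0_F_ : ∀ X : R, e0 * (F * X) = 0 := fun X => by rw [← mul_assoc, T.h_e0_F]; exact zero_mul X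
  have h_F_e1_ : ∀ X : R, F * (e1 * X) = 0 := fun X => by rw [← mul_assoc, T.h_F_e1]; exact zero_mul X
  have h_e1_F_ : ∀ X : R, e1 * (F * X) = 0 := fun X => by rw [← mul_assoc, T.h_e1_F]; exact zero_mul X
  have h_F_f0_ : ∀ X : R, F * (f0 * X) = 0 := fun X => by rw [← mul_assoc, T.h_F_f0]; exact zero_mul X
  have h_f0_F_ : ∀ X : R, f0 * (F * X) = 0 := fun X => by rw [← mul_assoc, T.h_f0_F]; exact zero_mul X
  have h_α0_e0_ : ∀ X : R, α0 * (e0 * X) = α0 * X := fun X => by rw [← mul_assoc, T.h_α0_e0]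
  have h_α1_e1_ : ∀ X : R, α1 * (e1 * X) = α1 * X := fun X => by rw [← mul_assoc, T.h_α1_e1]
  have h_α0_e1_ : ∀ X : R, α0 * (e1 * X) = 0 := fun X => by rw [← mul_assoc, T.h_α0_e1]; exact zero_mul X
  have h_α1_e0_ : ∀ X : R, α1 * (e0 * X) = 0 := fun X => by rw [← mul_assoc, T.h_α1_e0]; exact zero_mul X
  have h_α0_f0_ : ∀ X : R, α0 * (f0 * X) = 0 := fun X => by rw [← mul_assoc, T.h_α0_f0]; exact zero_mul X
  have h_α0_F_ : ∀ X : R, α0 * (F * X) = 0 := fun X => by rw [← mul_assoc, T.h_α0_F]; exact zero_mul X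
  have h_e0_α0_ : ∀ X : R, e0 * (α0 * X) = 0 := fun X => by rw [← mul_assoc, T.h_e0_α0]; exact zero_mul X
  have h_e1_α0_ : ∀ X : R, e1 * (α0 * X) = 0 := fun X => by rw [← mul_assoc, T.h_e1_α0]; exact zero_mul X
  have h_f0_α0_ : ∀ X : R, f0 * (α0 * X) = 0 := fun X => by rw [← mul_assoc, T.h_f0_α0]; exact zero_mul X
  have h_F_α0_ : ∀ X : R, F * (α0 * X) = 0 := fun X => by rw [← mul_assoc, T.h_F_α0]; exact zero_mul X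
  have h_α0_α0_ : ∀ X : R, α0 * (α0 * X) = 0 := fun X => by rw [← mul_assoc, T.h_α0_α0]; exact zero_mul X
  have h_α0_α1_ : ∀ X : R, α0 * (α1 * X) = 0 := fun X => by rw [← mul_assoc, T.h_α0_α1]; exact zero_mul X
  have h_α1_f0_ : ∀ X : R, α1 * (f0 * X) = 0 := fun X => by rw [← mul_assoc, T.h_α1_f0]; exact zero_mul X
  have h_α1_F_ : ∀ X : R, α1 * (F * X) = 0 := fun X => by rw [← mul_assoc, T.h_α1_F]; exact zero_mul X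
  have h_e0_α1_ : ∀ X : R, e0 * (α1 * X) = 0 := fun X => by rw [← mul_assoc, T.h_e0_α1]; exact zero_mul X
  have h_e1_α1_ : ∀ X : R, e1 * (α1 * X) = 0 := fun X => by rw [← mul_assoc, T.h_e1_α1]; exact zero_mul X
  have h_f0_α1_ : ∀ X : R, f0 * (α1 * X) = 0 := fun X => by rw [← mul_assoc, T.h_f0_α1]; exact zero_mul X
  have h_F_α1_ : ∀ X : R, F * (α1 * X) = 0 := fun X => by rw [← mul_assoc, T.h_F_α1]; exact zero_mul X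
  have h_α1_α0_ : ∀ X : R, α1 * (α0 * X) = 0 := fun X => by rw [← mul_assoc, T.h_α1_α0]; exact zero_mul X
  have h_α1_α1_ : ∀ X : R, α1 * (α1 * X) = 0 := fun X => by rw [← mul_assoc, T.h_α1_α1]; exact zero_mul X
  have h_e0_γ0_ : ∀ X : R, e0 * (γ0 * X) = γ0 * X := fun X => by rw [← mul_assoc, T.h_e0_γ0]
  have h_e1_γ1_ : ∀ X : R, e1 * (γ1 * X) = γ1 * X := fun X => by rw [← mul_assoc, T.h_e1_γ1]
  have h_e1_γ0_ : ∀ X : R, e1 * (γ0 * X) = 0 := fun X => by rw [← mul_assoc, T.h_e1_γ0]; exact zero_mul X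
  have h_e0_γ1_ : ∀ X : R, e0 * (γ1 * X) = 0 := fun X => by rw [← mul_assoc, T.h_e0_γ1]; exact zero_mul X
  have h_f0_γ0_ : ∀ X : R, f0 * (γ0 * X) = 0 := fun X => by rw [← mul_assoc, T.h_f0_γ0]; exact zero_mul X
  have h_F_γ0_ : ∀ X : R, F * (γ0 * X) = 0 := fun X => by rw [← mul_assoc, T.h_F_γ0]; exact zero_mul X
  have h_γ0_e0_ : ∀ X : R, γ0 * (e0 * X) = 0 := fun X => by rw [← mul_assoc, T.h_γ0_e0]; exact zero_mul X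
  have h_γ0_e1_ : ∀ X : R, γ0 * (e1 * X) = 0 := fun X => by rw [← mul_assoc, T.h_γ0_e1]; exact zero_mul X
  have h_γ0_f0_ : ∀ X : R, γ0 * (f0 * X) = 0 := fun X => by rw [← mul_assoc, T.h_γ0_f0]; exact zero_mul X
  have h_γ0_F_ : ∀ X : R, γ0 * (F * X) = 0 := fun X => by rw [← mul_assoc, T.h_γ0_F]; exact zero_mul X
  have h_γ0_γ0_ : ∀ X : R, γ0 * (γ0 * X) = 0 := fun X => by rw [← mul_assoc, T.h_γ0_γ0]; exact zero_mul X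
  have h_γ0_γ1_ : ∀ X : R, γ0 * (γ1 * X) = 0 := fun X => by rw [← mul_assoc, T.h_γ0_γ1]; exact zero_mul X
  have h_f0_γ1_ : ∀ X : R, f0 * (γ1 * X) = 0 := fun X => by rw [← mul_assoc, T.h_f0_γ1]; exact zero_mul X
  have h_F_γ1_ : ∀ X : R, F * (γ1 * X) = 0 := fun X => by rw [← mul_assoc, T.h_F_γ1]; exact zero_mul X
  have h_γ1_e0_ : ∀ X : R, γ1 * (e0 * X) = 0 := fun X => by rw [← mul_assoc, T.h_γ1_e0]; exact zero_mul X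
  have h_γ1_e1_ : ∀ X : R, γ1 * (e1 * X) = 0 := fun X => by rw [← mul_assoc, T.h_γ1_e1]; exact zero_mul X
  have h_γ1_f0_ : ∀ X : R, γ1 * (f0 * X) = 0 := fun X => by rw [← mul_assoc, T.h_γ1_f0]; exact zero_mul X
  have h_γ1_F_ : ∀ X : R, γ1 * (F * X) = 0 := fun X => by rw [← mul_assoc, T.h_γ1_F]; exact zero_mul X
  have h_γ1_γ0_ : ∀ X : R, γ1 * (γ0 * X) = 0 := fun X => by rw [← mul_assoc, T.h_γ1_γ0]; exact zero_mul X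
  have h_γ1_γ1_ : ∀ X : R, γ1 * (γ1 * X) = 0 := fun X => by rw [← mul_assoc, T.h_γ1_γ1]; exact zero_mul X
  have h_α0_γ1_ : ∀ X : R, α0 * (γ1 * X) = 0 := fun X => by rw [← mul_assoc, T.h_α0_γ1]; exact zero_mul X
  have h_α1_γ0_ : ∀ X : R, α1 * (γ0 * X) = 0 := fun X => by rw [← mul_assoc, T.h_α1_γ0]; exact zero_mul X
  have h_s_e0_ : ∀ X : R, s * (e0 * X) = s * X := fun X => by rw [← mul_assoc, T.h_s_e0]
  have h_s_e1_ : ∀ X : R, s * (e1 * X) = 0 := fun X => by rw [← mul_assoc, T.h_s_e1]; exact zero_mul X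
  have h_s_f0_ : ∀ X : R, s * (f0 * X) = 0 := fun X => by rw [← mul_assoc, T.h_s_f0]; exact zero_mul X
  have h_s_F_ : ∀ X : R, s * (F * X) = 0 := fun X => by rw [← mul_assoc, T.h_s_F]; exact zero_mul X
  have h_e0_s_ : ∀ X : R, e0 * (s * X) = 0 := fun X => by rw [← mul_assoc, T.h_e0_s]; exact zero_mul X
  have h_e1_s_ : ∀ X : R, e1 * (s * X) = 0 := fun X => by rw [← mul_assoc, T.h_e1_s]; exact zero_mul X
  have h_f0_s_ : ∀ X : R, f0 * (s * X) = s * X := fun X => by rw [← mul_assoc, T.h_f0_s]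
  have h_F_s_ : ∀ X : R, F * (s * X) = 0 := fun X => by rw [← mul_assoc, T.h_F_s]; exact zero_mul X
  have h_α0_s_ : ∀ X : R, α0 * (s * X) = 0 := fun X => by rw [← mul_assoc, T.h_α0_s]; exact zero_mul X
  have h_α1_s_ : ∀ X : R, α1 * (s * X) = 0 := fun X => by rw [← mul_assoc, T.h_α1_s]; exact zero_mul X
  have h_γ0_s_ : ∀ X : R, γ0 * (s * X) = 0 := fun X => by rw [← mul_assoc, T.h_γ0_s]; exact zero_mul X
  have h_γ1_s_ : ∀ X : R, γ1 * (s * X) = 0 := fun X => by rw [← mul_assoc, T.h_γ1_s]; exact zero_mul X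
  have h_s_α0_ : ∀ X : R, s * (α0 * X) = 0 := fun X => by rw [← mul_assoc, T.h_s_α0]; exact zero_mul X
  have h_s_α1_ : ∀ X : R, s * (α1 * X) = 0 := fun X => by rw [← mul_assoc, T.h_s_α1]; exact zero_mul X
  have h_s_γ1_ : ∀ X : R, s * (γ1 * X) = 0 := fun X => by rw [← mul_assoc, T.h_s_γ1]; exact zero_mul X
  have h_s_s_ : ∀ X : R, s * (s * X) = 0 := fun X => by rw [← mul_assoc, T.h_s_s]; exact zero_mul X
  have h_t_f0_ : ∀ X : R, t * (f0 * X) = t * X := fun X => by rw [← mul_assoc, T.h_t_f0]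
  have h_t_e0_ : ∀ X : R, t * (e0 * X) = 0 := fun X => by rw [← mul_assoc, T.h_t_e0]; exact zero_mul X
  have h_t_e1_ : ∀ X : R, t * (e1 * X) = 0 := fun X => by rw [← mul_assoc, T.h_t_e1]; exact zero_mul X
  have h_t_F_ : ∀ X : R, t * (F * X) = 0 := fun X => by rw [← mul_assoc, T.h_t_F]; exact zero_mul X
  have h_e0_t_ : ∀ X : R, e0 * (t * X) = t * X := fun X => by rw [← mul_assoc, T.h_e0_t]
  have h_e1_t_ : ∀ X : R, e1 * (t * X) = 0 := fun X => by rw [← mul_assoc, T.h_e1_t]; exact zero_mul X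
  have h_f0_t_ : ∀ X : R, f0 * (t * X) = 0 := fun X => by rw [← mul_assoc, T.h_f0_t]; exact zero_mul X
  have h_F_t_ : ∀ X : R, F * (t * X) = 0 := fun X => by rw [← mul_assoc, T.h_F_t]; exact zero_mul X
  have h_α1_t_ : ∀ X : R, α1 * (t * X) = 0 := fun X => by rw [← mul_assoc, T.h_α1_t]; exact zero_mul X
  have h_γ0_t_ : ∀ X : R, γ0 * (t * X) = 0 := fun X => by rw [← mul_assoc, T.h_γ0_t]; exact zero_mul X
  have h_γ1_t_ : ∀ X : R, γ1 * (t * X) = 0 := fun X => by rw [← mul_assoc, T.h_γ1_t]; exact zero_mul X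
  have h_t_α0_ : ∀ X : R, t * (α0 * X) = 0 := fun X => by rw [← mul_assoc, T.h_t_α0]; exact zero_mul X
  have h_t_α1_ : ∀ X : R, t * (α1 * X) = 0 := fun X => by rw [← mul_assoc, T.h_t_α1]; exact zero_mul X
  have h_t_γ0_ : ∀ X : R, t * (γ0 * X) = 0 := fun X => by rw [← mul_assoc, T.h_t_γ0]; exact zero_mul X
  have h_t_γ1_ : ∀ X : R, t * (γ1 * X) = 0 := fun X => by rw [← mul_assoc, T.h_t_γ1]; exact zero_mul X
  have h_t_t_ : ∀ X : R, t * (t * X) = 0 := fun X => by rw [← mul_assoc, T.h_t_t]; exact zero_mul X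
  have h_s_t_ : ∀ X : R, s * (t * X) = f0 * X := fun X => by rw [← mul_assoc, T.h_s_t]
  have h_t_s_ : ∀ X : R, t * (s * X) = e0 * X := fun X => by rw [← mul_assoc, T.h_t_s]
  have k1_ : ∀ X : R, α1 * (γ1 * (α0 * X)) = α0 * X := fun X => by rw [← mul_assoc γ1, ← mul_assoc, T.k1]
  have k2_ : ∀ X : R, γ0 * (α1 * (γ1 * X)) = γ0 * X := fun X => by rw [← mul_assoc α1, ← mul_assoc, T.k2]
  simp only [dD, dU, dJ, dP0, dP1, dw, di, two_mul, mul_add, add_mul, mul_sub, sub_mul, mul_assoc, mul_zero, zero_mul, add_zero, zero_add, sub_zero, T.h_e0_e0, T.h_e1_e1, T.h_f0_f0, T.h_F_F, T.h_e0_e1, T.h_e1_e0, T.h_e0_f0, T.h_f0_e0, T.h_e1_f0, T.h_f0_e1, T.h_F_e0, T.h_e0_F, T.h_F_e1, T.h_e1_F, T.h_F_f0, T.h_f0_F, T.h_α0_e0, T.h_α1_e1, T.h_α0_e1, T.h_α1_e0, T.h_α0_f0, T.h_α0_F, T.h_e0_α0, T.h_e1_α0, T.h_f0_α0, T.h_F_α0, T.h_α0_α0, T.h_α0_α1,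 T.h_α1_f0, T.h_α1_F, T.h_e0_α1, T.h_e1_α1, T.h_f0_α1, T.h_F_α1, T.h_α1_α0, T.h_α1_α1, T.h_e0_γ0, T.h_e1_γ1, T.h_e1_γ0, T.h_e0_γ1, T.h_f0_γ0, T.h_F_γ0, T.h_γ0_e0, T.h_γ0_e1, T.h_γ0_f0, T.h_γ0_F, T.h_γ0_γ0, T.h_γ0_γ1, T.h_f0_γ1, T.h_F_γ1, T.h_γ1_e0, T.h_γ1_e1, T.h_γ1_f0, T.h_γ1_F, T.h_γ1_γ0, T.h_γ1_γ1, T.h_α0_γ1, T.h_α1_γ0, T.h_s_e0, T.h_s_e1, T.h_s_f0, T.h_s_F, T.h_e0_s, T.h_e1_s, T.h_f0_s, T.h_F_s, T.h_α0_s, T.h_α1_s, T.h_γ0_s, T.h_γ1_s, T.h_s_α0, T.h_s_α1, T.h_s_γ1, T.h_s_s, T.h_t_f0, T.h_t_e0, T.h_t_e1, T.h_t_F, T.h_e0_t, T.h_e1_t, T.h_f0_t, T.h_F_t, T.h_α1_t, T.h_γ0_t, T.h_γ1_t, T.h_t_α0, T.h_t_α1, T.h_t_γ0, T.h_t_γ1, T.h_t_t, T.h_s_t, T.h_t_s, T.k1, T.k2, h_e0_e0_, h_e1_e1_, h_f0_f0_, h_F_F_, h_e0_e1_, h_e1_e0_, h_e0_f0_, h_f0_e0_, h_e1_f0_, h_f0_e1_, h_F_e0_, h_e0_F_, h_F_e1_, h_e1_F_, h_F_f0_, h_f0_F_, h_α0_e0_,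 h_α1_e1_, h_α0_e1_, h_α1_e0_, h_α0_f0_, h_α0_F_, h_e0_α0_, h_e1_α0_, h_f0_α0_, h_F_α0_, h_α0_α0_, h_α0_α1_, h_α1_f0_, h_α1_F_, h_e0_α1_, h_e1_α1_, h_f0_α1_, h_F_α1_, h_α1_α0_, h_α1_α1_, h_e0_γ0_, h_e1_γ1_, h_e1_γ0_, h_e0_γ1_, h_f0_γ0_, h_F_γ0_, h_γ0_e0_, h_γ0_e1_, h_γ0_f0_, h_γ0_F_, h_γ0_γ0_, h_γ0_γ1_, h_f0_γ1_, h_F_γ1_, h_γ1_e0_, h_γ1_e1_, h_γ1_f0_, h_γ1_F_, h_γ1_γ0_, h_γ1_γ1_, h_α0_γ1_, h_α1_γ0_, h_s_e0_, h_s_e1_, h_s_f0_, h_s_F_, h_e0_s_, h_e1_s_, h_f0_s_, h_F_s_, h_α0_s_, h_α1_s_, h_γ0_s_, h_γ1_s_, h_s_α0_, h_s_α1_, h_s_γ1_, h_s_s_, h_t_f0_, h_t_e0_, h_t_e1_, h_t_F_, h_e0_t_, h_e1_t_, h_f0_t_, h_F_t_, h_α1_t_, h_γ0_t_, h_γ1_t_, h_t_α0_, h_t_α1_, h_t_γ0_, h_t_γ1_, h_t_t_, h_s_t_, h_t_s_, k1_, k2_]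
  try abel

theorem d_Je (T : DTab e0 e1 f0 F α0 α1 γ0 γ1 s t) :
    dJ e0 e1 α0 α1 γ0 γ1 s * (e1 + e0) = dJ e0 e1 α0 α1 γ0 γ1 s := by
  have h_e0_e0_ : ∀ X : R, e0 * (e0 * X) = e0 * X := fun X => by rw [← mul_assoc, T.h_e0_e0]
  have h_e1_e1_ : ∀ X : R, e1 * (e1 * X) = e1 * X := fun X => by rw [← mul_assoc, T.h_e1_e1]
  have h_f0_f0_ : ∀ X : R, f0 * (f0 * X) = f0 * X := fun X => by rw [← mul_assoc, T.h_f0_f0]
  have h_F_F_ : ∀ X : R, F * (F * X) = F * X := fun X => by rw [← mul_assoc, T.h_F_F]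
  have h_e0_e1_ : ∀ X : R, e0 * (e1 * X) = 0 := fun X => by rw [← mul_assoc, T.h_e0_e1]; exact zero_mul X
  have h_e1_e0_ : ∀ X : R, e1 * (e0 * X) = 0 := fun X => by rw [← mul_assoc, T.h_e1_e0]; exact zero_mul X
  have h_e0_f0_ : ∀ X : R, e0 * (f0 * X) = 0 := fun X => by rw [← mul_assoc, T.h_e0_f0]; exact zero_mul X
  have h_f0_e0_ : ∀ X : R, f0 * (e0 * X) = 0 := fun X => by rw [← mul_assoc, T.h_f0_e0]; exact zero_mul X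
  have h_e1_f0_ : ∀ X : R, e1 * (f0 * X) = 0 := fun X => by rw [← mul_assoc, T.h_e1_f0]; exact zero_mul X
  have h_f0_e1_ : ∀ X : R, f0 * (e1 * X) = 0 := fun X => by rw [← mul_assoc, T.h_f0_e1]; exact zero_mul X
  have h_F_e0_ : ∀ X : R, F * (e0 * X) = 0 := fun X => by rw [← mul_assoc, T.h_F_e0]; exact zero_mul X
  have h_e0_F_ : ∀ X : R, e0 * (F * X) = 0 := fun X => by rw [← mul_assoc, T.h_e0_F]; exact zero_mul X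
  have h_F_e1_ : ∀ X : R, F * (e1 * X) = 0 := fun X => by rw [← mul_assoc, T.h_F_e1]; exact zero_mul X
  have h_e1_F_ : ∀ X : R, e1 * (F * X) = 0 := fun X => by rw [← mul_assoc, T.h_e1_F]; exact zero_mul X
  have h_F_f0_ : ∀ X : R, F * (f0 * X) = 0 := fun X => by rw [← mul_assoc, T.h_F_f0]; exact zero_mul X
  have h_f0_F_ : ∀ X : R, f0 * (F * X) = 0 := fun X => by rw [← mul_assoc, T.h_f0_F]; exact zero_mul X
  have h_α0_e0_ : ∀ X : R, α0 * (e0 * X) = α0 * X := fun X => by rw [← mul_assoc, T.h_α0_e0]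
  have h_α1_e1_ : ∀ X : R, α1 * (e1 * X) = α1 * X := fun X => by rw [← mul_assoc, T.h_α1_e1]
  have h_α0_e1_ : ∀ X : R, α0 * (e1 * X) = 0 := fun X => by rw [← mul_assoc, T.h_α0_e1]; exact zero_mul X
  have h_α1_e0_ : ∀ X : R, α1 * (e0 * X) = 0 := fun X => by rw [← mul_assoc, T.h_α1_e0]; exact zero_mul X
  have h_α0_f0_ : ∀ X : R, α0 * (f0 * X) = 0 := fun X => by rw [← mul_assoc, T.h_α0_f0]; exact zero_mul X
  have h_α0_F_ : ∀ X : R, α0 * (F * X) = 0 := fun X => by rw [← mul_assoc, T.h_α0_F]; exact zero_mul X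
  have h_e0_α0_ : ∀ X : R, e0 * (α0 * X) = 0 := fun X => by rw [← mul_assoc, T.h_e0_α0]; exact zero_mul X
  have h_e1_α0_ : ∀ X : R, e1 * (α0 * X) = 0 := fun X => by rw [← mul_assoc, T.h_e1_α0]; exact zero_mul X
  have h_f0_α0_ : ∀ X : R, f0 * (α0 * X) = 0 := fun X => by rw [← mul_assoc, T.h_f0_α0]; exact zero_mul X
  have h_F_α0_ : ∀ X : R, F * (α0 * X) = 0 := fun X => by rw [← mul_assoc, T.h_F_α0]; exact zero_mul X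
  have h_α0_α0_ : ∀ X : R, α0 * (α0 * X) = 0 := fun X => by rw [← mul_assoc, T.h_α0_α0]; exact zero_mul X
  have h_α0_α1_ : ∀ X : R, α0 * (α1 * X) = 0 := fun X => by rw [← mul_assoc, T.h_α0_α1]; exact zero_mul X
  have h_α1_f0_ : ∀ X : R, α1 * (f0 * X) = 0 := fun X => by rw [← mul_assoc, T.h_α1_f0]; exact zero_mul X
  have h_α1_F_ : ∀ X : R, α1 * (F * X) = 0 := fun X => by rw [← mul_assoc, T.h_α1_F]; exact zero_mul X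
  have h_e0_α1_ : ∀ X : R, e0 * (α1 * X) = 0 := fun X => by rw [← mul_assoc, T.h_e0_α1]; exact zero_mul X
  have h_e1_α1_ : ∀ X : R, e1 * (α1 * X) = 0 := fun X => by rw [← mul_assoc, T.h_e1_α1]; exact zero_mul X
  have h_f0_α1_ : ∀ X : R, f0 * (α1 * X) = 0 := fun X => by rw [← mul_assoc, T.h_f0_α1]; exact zero_mul X
  have h_F_α1_ : ∀ X : R, F * (α1 * X) = 0 := fun X => by rw [← mul_assoc, T.h_F_α1]; exact zero_mul X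
  have h_α1_α0_ : ∀ X : R, α1 * (α0 * X) = 0 := fun X => by rw [← mul_assoc, T.h_α1_α0]; exact zero_mul X
  have h_α1_α1_ : ∀ X : R, α1 * (α1 * X) = 0 := fun X => by rw [← mul_assoc, T.h_α1_α1]; exact zero_mul X
  have h_e0_γ0_ : ∀ X : R, e0 * (γ0 * X) = γ0 * X := fun X => by rw [← mul_assoc, T.h_e0_γ0]
  have h_e1_γ1_ : ∀ X : R, e1 * (γ1 * X) = γ1 * X := fun X => by rw [← mul_assoc, T.h_e1_γ1]
  have h_e1_γ0_ : ∀ X : R, e1 * (γ0 * X) = 0 := fun X => by rw [← mul_assoc, T.h_e1_γ0]; exact zero_mul X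
  have h_e0_γ1_ : ∀ X : R, e0 * (γ1 * X) = 0 := fun X => by rw [← mul_assoc, T.h_e0_γ1]; exact zero_mul X
  have h_f0_γ0_ : ∀ X : R, f0 * (γ0 * X) = 0 := fun X => by rw [← mul_assoc, T.h_f0_γ0]; exact zero_mul X
  have h_F_γ0_ : ∀ X : R, F * (γ0 * X) = 0 := fun X => by rw [← mul_assoc, T.h_F_γ0]; exact zero_mul X
  have h_γ0_e0_ : ∀ X : R, γ0 * (e0 * X) = 0 := fun X => by rw [← mul_assoc, T.h_γ0_e0]; exact zero_mul X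
  have h_γ0_e1_ : ∀ X : R, γ0 * (e1 * X) = 0 := fun X => by rw [← mul_assoc, T.h_γ0_e1]; exact zero_mul X
  have h_γ0_f0_ : ∀ X : R, γ0 * (f0 * X) = 0 := fun X => by rw [← mul_assoc, T.h_γ0_f0]; exact zero_mul X
  have h_γ0_F_ : ∀ X : R, γ0 * (F * X) = 0 := fun X => by rw [← mul_assoc, T.h_γ0_F]; exact zero_mul X
  have h_γ0_γ0_ : ∀ X : R, γ0 * (γ0 * X) = 0 := fun X => by rw [← mul_assoc, T.h_γ0_γ0]; exact zero_mul X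
  have h_γ0_γ1_ : ∀ X : R, γ0 * (γ1 * X) = 0 := fun X => by rw [← mul_assoc, T.h_γ0_γ1]; exact zero_mul X
  have h_f0_γ1_ : ∀ X : R, f0 * (γ1 * X) = 0 := fun X => by rw [← mul_assoc, T.h_f0_γ1]; exact zero_mul X
  have h_F_γ1_ : ∀ X : R, F * (γ1 * X) = 0 := fun X => by rw [← mul_assoc, T.h_F_γ1]; exact zero_mul X
  have h_γ1_e0_ : ∀ X : R, γ1 * (e0 * X) = 0 := fun X => by rw [← mul_assoc, T.h_γ1_e0]; exact zero_mul X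
  have h_γ1_e1_ : ∀ X : R, γ1 * (e1 * X) = 0 := fun X => by rw [← mul_assoc, T.h_γ1_e1]; exact zero_mul X
  have h_γ1_f0_ : ∀ X : R, γ1 * (f0 * X) = 0 := fun X => by rw [← mul_assoc, T.h_γ1_f0]; exact zero_mul X
  have h_γ1_F_ : ∀ X : R, γ1 * (F * X) = 0 := fun X => by rw [← mul_assoc, T.h_γ1_F]; exact zero_mul X
  have h_γ1_γ0_ : ∀ X : R, γ1 * (γ0 * X) = 0 := fun X => by rw [← mul_assoc, T.h_γ1_γ0]; exact zero_mul X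
  have h_γ1_γ1_ : ∀ X : R, γ1 * (γ1 * X) = 0 := fun X => by rw [← mul_assoc, T.h_γ1_γ1]; exact zero_mul X
  have h_α0_γ1_ : ∀ X : R, α0 * (γ1 * X) = 0 := fun X => by rw [← mul_assoc, T.h_α0_γ1]; exact zero_mul X
  have h_α1_γ0_ : ∀ X : R, α1 * (γ0 * X) = 0 := fun X => by rw [← mul_assoc, T.h_α1_γ0]; exact zero_mul X
  have h_s_e0_ : ∀ X : R, s * (e0 * X) = s * X := fun X => by rw [← mul_assoc, T.h_s_e0]
  have h_s_e1_ : ∀ X : R, s * (e1 * X) = 0 := fun X => by rw [← mul_assoc, T.h_s_e1]; exact zero_mul X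
  have h_s_f0_ : ∀ X : R, s * (f0 * X) = 0 := fun X => by rw [← mul_assoc, T.h_s_f0]; exact zero_mul X
  have h_s_F_ : ∀ X : R, s * (F * X) = 0 := fun X => by rw [← mul_assoc, T.h_s_F]; exact zero_mul X
  have h_e0_s_ : ∀ X : R, e0 * (s * X) = 0 := fun X => by rw [← mul_assoc, T.h_e0_s]; exact zero_mul X
  have h_e1_s_ : ∀ X : R, e1 * (s * X) = 0 := fun X => by rw [← mul_assoc, T.h_e1_s]; exact zero_mul X
  have h_f0_s_ : ∀ X : R, f0 * (s * X) = s * X := fun X => by rw [← mul_assoc, T.h_f0_s]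
  have h_F_s_ : ∀ X : R, F * (s * X) = 0 := fun X => by rw [← mul_assoc, T.h_F_s]; exact zero_mul X
  have h_α0_s_ : ∀ X : R, α0 * (s * X) = 0 := fun X => by rw [← mul_assoc, T.h_α0_s]; exact zero_mul X
  have h_α1_s_ : ∀ X : R, α1 * (s * X) = 0 := fun X => by rw [← mul_assoc, T.h_α1_s]; exact zero_mul X
  have h_γ0_s_ : ∀ X : R, γ0 * (s * X) = 0 := fun X => by rw [← mul_assoc, T.h_γ0_s]; exact zero_mul X
  have h_γ1_s_ : ∀ X : R, γ1 * (s * X) = 0 := fun X => by rw [← mul_assoc, T.h_γ1_s]; exact zero_mul X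
  have h_s_α0_ : ∀ X : R, s * (α0 * X) = 0 := fun X => by rw [← mul_assoc, T.h_s_α0]; exact zero_mul X
  have h_s_α1_ : ∀ X : R, s * (α1 * X) = 0 := fun X => by rw [← mul_assoc, T.h_s_α1]; exact zero_mul X
  have h_s_γ1_ : ∀ X : R, s * (γ1 * X) = 0 := fun X => by rw [← mul_assoc, T.h_s_γ1]; exact zero_mul X
  have h_s_s_ : ∀ X : R, s * (s * X) = 0 := fun X => by rw [← mul_assoc, T.h_s_s]; exact zero_mul X
  have h_t_f0_ : ∀ X : R, t * (f0 * X) = t * X := fun X => by rw [← mul_assoc, T.h_t_f0]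
  have h_t_e0_ : ∀ X : R, t * (e0 * X) = 0 := fun X => by rw [← mul_assoc, T.h_t_e0]; exact zero_mul X
  have h_t_e1_ : ∀ X : R, t * (e1 * X) = 0 := fun X => by rw [← mul_assoc, T.h_t_e1]; exact zero_mul X
  have h_t_F_ : ∀ X : R, t * (F * X) = 0 := fun X => by rw [← mul_assoc, T.h_t_F]; exact zero_mul X
  have h_e0_t_ : ∀ X : R, e0 * (t * X) = t * X := fun X => by rw [← mul_assoc, T.h_e0_t]
  have h_e1_t_ : ∀ X : R, e1 * (t * X) = 0 := fun X => by rw [← mul_assoc, T.h_e1_t]; exact zero_mul X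
  have h_f0_t_ : ∀ X : R, f0 * (t * X) = 0 := fun X => by rw [← mul_assoc, T.h_f0_t]; exact zero_mul X
  have h_F_t_ : ∀ X : R, F * (t * X) = 0 := fun X => by rw [← mul_assoc, T.h_F_t]; exact zero_mul X
  have h_α1_t_ : ∀ X : R, α1 * (t * X) = 0 := fun X => by rw [← mul_assoc, T.h_α1_t]; exact zero_mul X
  have h_γ0_t_ : ∀ X : R, γ0 * (t * X) = 0 := fun X => by rw [← mul_assoc, T.h_γ0_t]; exact zero_mul X
  have h_γ1_t_ : ∀ X : R, γ1 * (t * X) = 0 := fun X => by rw [← mul_assoc, T.h_γ1_t]; exact zero_mul X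
  have h_t_α0_ : ∀ X : R, t * (α0 * X) = 0 := fun X => by rw [← mul_assoc, T.h_t_α0]; exact zero_mul X
  have h_t_α1_ : ∀ X : R, t * (α1 * X) = 0 := fun X => by rw [← mul_assoc, T.h_t_α1]; exact zero_mul X
  have h_t_γ0_ : ∀ X : R, t * (γ0 * X) = 0 := fun X => by rw [← mul_assoc, T.h_t_γ0]; exact zero_mul X
  have h_t_γ1_ : ∀ X : R, t * (γ1 * X) = 0 := fun X => by rw [← mul_assoc, T.h_t_γ1]; exact zero_mul X
  have h_t_t_ : ∀ X : R, t * (t * X) = 0 := fun X => by rw [← mul_assoc, T.h_t_t]; exact zero_mul X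
  have h_s_t_ : ∀ X : R, s * (t * X) = f0 * X := fun X => by rw [← mul_assoc, T.h_s_t]
  have h_t_s_ : ∀ X : R, t * (s * X) = e0 * X := fun X => by rw [← mul_assoc, T.h_t_s]
  have k1_ : ∀ X : R, α1 * (γ1 * (α0 * X)) = α0 * X := fun X => by rw [← mul_assoc γ1, ← mul_assoc, T.k1]
  have k2_ : ∀ X : R, γ0 * (α1 * (γ1 * X)) = γ0 * X := fun X => by rw [← mul_assoc α1, ← mul_assoc, T.k2]
  simp only [dD, dU, dJ, dP0, dP1, dw, di, two_mul, mul_add, add_mul, mul_sub, sub_mul, mul_assoc, mul_zero, zero_mul, add_zero, zero_add, sub_zero, T.h_e0_e0, T.h_e1_e1, T.h_f0_f0, T.h_F_F, T.h_e0_e1, T.h_e1_e0, T.h_e0_f0, T.h_f0_e0, T.h_e1_f0, T.h_f0_e1, T.h_F_e0, T.h_e0_F, T.h_F_e1, T.h_e1_F, T.h_F_f0, T.h_f0_F, T.h_α0_e0, T.h_α1_e1, T.h_α0_e1, T.h_α1_e0, T.h_α0_f0, T.h_α0_F, T.h_e0_α0, T.h_e1_α0, T.h_f0_α0, T.h_F_α0, T.h_α0_α0, T.h_α0_α1,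 T.h_α1_f0, T.h_α1_F, T.h_e0_α1, T.h_e1_α1, T.h_f0_α1, T.h_F_α1, T.h_α1_α0, T.h_α1_α1, T.h_e0_γ0, T.h_e1_γ1, T.h_e1_γ0, T.h_e0_γ1, T.h_f0_γ0, T.h_F_γ0, T.h_γ0_e0, T.h_γ0_e1, T.h_γ0_f0, T.h_γ0_F, T.h_γ0_γ0, T.h_γ0_γ1, T.h_f0_γ1, T.h_F_γ1, T.h_γ1_e0, T.h_γ1_e1, T.h_γ1_f0, T.h_γ1_F, T.h_γ1_γ0, T.h_γ1_γ1, T.h_α0_γ1, T.h_α1_γ0, T.h_s_e0, T.h_s_e1, T.h_s_f0, T.h_s_F, T.h_e0_s, T.h_e1_s, T.h_f0_s, T.h_F_s, T.h_α0_s, T.h_α1_s, T.h_γ0_s, T.h_γ1_s, T.h_s_α0, T.h_s_α1, T.h_s_γ1, T.h_s_s, T.h_t_f0, T.h_t_e0, T.h_t_e1, T.h_t_F, T.h_e0_t, T.h_e1_t, T.h_f0_t, T.h_F_t, T.h_α1_t, T.h_γ0_t, T.h_γ1_t, T.h_t_α0, T.h_t_α1, T.h_t_γ0, T.h_t_γ1, T.h_t_t, T.h_s_t, T.h_t_s, T.k1, T.k2, h_e0_e0_, h_e1_e1_, h_f0_f0_, h_F_F_, h_e0_e1_, h_e1_e0_, h_e0_f0_, h_f0_e0_, h_e1_f0_, h_f0_e1_, h_F_e0_, h_e0_F_, h_F_e1_, h_e1_F_, h_F_f0_, h_f0_F_, h_α0_e0_,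 h_α1_e1_, h_α0_e1_, h_α1_e0_, h_α0_f0_, h_α0_F_, h_e0_α0_, h_e1_α0_, h_f0_α0_, h_F_α0_, h_α0_α0_, h_α0_α1_, h_α1_f0_, h_α1_F_, h_e0_α1_, h_e1_α1_, h_f0_α1_, h_F_α1_, h_α1_α0_, h_α1_α1_, h_e0_γ0_, h_e1_γ1_, h_e1_γ0_, h_e0_γ1_, h_f0_γ0_, h_F_γ0_, h_γ0_e0_, h_γ0_e1_, h_γ0_f0_, h_γ0_F_, h_γ0_γ0_, h_γ0_γ1_, h_f0_γ1_, h_F_γ1_, h_γ1_e0_, h_γ1_e1_, h_γ1_f0_, h_γ1_F_, h_γ1_γ0_, h_γ1_γ1_, h_α0_γ1_, h_α1_γ0_, h_s_e0_, h_s_e1_, h_s_f0_, h_s_F_, h_e0_s_, h_e1_s_, h_f0_s_, h_F_s_, h_α0_s_, h_α1_s_, h_γ0_s_, h_γ1_s_, h_s_α0_, h_s_α1_, h_s_γ1_, h_s_s_, h_t_f0_, h_t_e0_, h_t_e1_, h_t_F_, h_e0_t_, h_e1_t_, h_f0_t_, h_F_t_, h_α1_t_, h_γ0_t_, h_γ1_t_, h_t_α0_, h_t_α1_, h_t_γ0_, h_t_γ1_, h_t_t_, h_s_t_, h_t_s_, k1_, k2_]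
  try abel

end

end Pool.Agent.H155R3
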