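import Pool.Agent.H155R3.K2

set_option autoImplicit false
set_option linter.all false

/-!
# The multiplication table from the raw relations
-/

namespace Pool.Agent.H155R3

theorem DTab.mk' {R : Type*} [Ring R] (e0 e1 f0 F α0 α1 γ0 γ1 θ χ : R)
    (i0 : e0 * e0 = e0) (i1 : e1 * e1 = e1) (i2 : f0 * f0 = f0) (i3 : F * F = F)
    (o1 : e0 * e1 = 0) (o2 : e1 * e0 = 0) (o3 : e0 * f0 = 0) (o4 : f0 * e0 = 0) (o5 : e1 * f0 = 0) (o6 : f0 * e1 = 0)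
    (o7 : F * e0 = 0) (o8 : e0 * F = 0) (o9 : F * e1 = 0) (o10 : e1 * F = 0) (o11 : F * f0 = 0) (o12 : f0 * F = 0)
    (c1 : χ * e0 = 0) (c2 : e0 * χ = 0) (c3 : χ * e1 = 0) (c4 : e1 * χ = 0) (c5 : χ * f0 = 0) (c6 : f0 * χ = 0)
    (c7 : χ * F = 0) (c8 : F * χ = 0)
    (a0 : χ * α0 = α0) (a0' : α0 * e0 = α0) (a1 : χ * α1 = α1) (a1' : α1 * e1 = α1)
    (b0 : e0 * γ0 = γ0) (b0' : γ0 * χ = γ0) (b1 : e1 * γ1 = γ1) (b1' : γ1 * χ = γ1)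
    (t1 : θ * θ = 1) (t2 : θ * e0 = f0 * θ)
    (k1 : α1 * (γ1 * α0) = α0) (k2 : γ0 * (α1 * γ1) = γ0) :
    DTab e0 e1 f0 F α0 α1 γ0 γ1 (θ * e0) (e0 * θ) := by
  have t3 : e0 * θ = θ * f0 := by
    calc e0 * θ = θ * (θ * e0) * θ := by rw [← mul_assoc, t1, one_mul]
      _ = θ * (f0 * θ) * θ := by rw [t2]
      _ = θ * f0 * (θ * θ) := by simp only [mul_assoc]
      _ = θ * f0 := by rw [t1, mul_one]
  have L : ∀ {x y : R} (p : R), p * x = 0 → x = x → (y = p * y) → True := fun _ _ _ _ => trivial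
  -- helper: products through idempotent factors
  have z1 : ∀ {x y p q : R}, x * p = x → q * y = y → p * q = 0 → x * y = 0 := by
    intro x y p q h1 h2 h3
    calc x * y = (x * p) * (q * y) := by rw [h1, h2]
      _ = x * (p * q) * y := by simp only [mul_assoc]
      _ = 0 := by rw [h3, mul_zero, zero_mul]
  have s1 : (θ * e0) * e0 = θ * e0 := by rw [mul_assoc, i0]
  have s2 : f0 * (θ * e0) = θ * e0 := by rw [t2, ← mul_assoc, i2]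
  have u1 : (e0 * θ) * f0 = e0 * θ := by rw [t3, mul_assoc, i2]
  have u2 : e0 * (e0 * θ) = e0 * θ := by rw [← mul_assoc, i0]
  have f1 : χ * (θ * e0) = 0 := by rw [t2, ← mul_assoc, c5, zero_mul]
  have f2 : (e0 * θ) * χ = 0 := by rw [t3, mul_assoc, c6, mul_zero]
  refine
    { h_e0_e0 := i0, h_e1_e1 := i1, h_f0_f0 := i2, h_F_F := i3
      h_e0_e1 := o1, h_e1_e0 := o2, h_e0_f0 := o3, h_f0_e0 := o4, h_e1_f0 := o5, h_f0_e1 := o6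
      h_F_e0 := o7, h_e0_F := o8, h_F_e1 := o9, h_e1_F := o10, h_F_f0 := o11, h_f0_F := o12
      h_α0_e0 := a0', h_α1_e1 := a1', h_α0_e1 := z1 a0' i1 o1, h_α1_e0 := z1 a1' i0 o2
      h_α0_f0 := z1 a0' i2 o3, h_α0_F := z1 a0' i3 o8, h_e0_α0 := z1 i0 a0 c2, h_e1_α0 := z1 i1 a0 c4
      h_f0_α0 := z1 i2 a0 c6, h_F_α0 := z1 i3 a0 c8, h_α0_α0 := z1 a0' a0 c2, h_α0_α1 := z1 a0' a1 c2
      h_α1_f0 := z1 a1' i2 o5, h_α1_F := z1 a1' i3 o10, h_e0_α1 := z1 i0 a1 c2, h_e1_α1 := z1 i1 a1 c4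
      h_f0_α1 := z1 i2 a1 c6, h_F_α1 := z1 i3 a1 c8, h_α1_α0 := z1 a1' a0 c4, h_α1_α1 := z1 a1' a1 c4
      h_e0_γ0 := b0, h_e1_γ1 := b1, h_e1_γ0 := z1 i1 b0 o2, h_e0_γ1 := z1 i0 b1 o1
      h_f0_γ0 := z1 i2 b0 o4, h_F_γ0 := z1 i3 b0 o7, h_γ0_e0 := z1 b0' i0 c1, h_γ0_e1 := z1 b0' i1 c3
      h_γ0_f0 := z1 b0' i2 c5, h_γ0_F := z1 b0' i3 c7, h_γ0_γ0 := z1 b0' b0 c1, h_γ0_γ1 := z1 b0' b1 c3
      h_f0_γ1 := z1 i2 b1 o6, h_F_γ1 := z1 i3 b1 o9, h_γ1_e0 := z1 b1' i0 c1, h_γ1_e1 := z1 b1' i1 c3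
      h_γ1_f0 := z1 b1' i2 c5, h_γ1_F := z1 b1' i3 c7, h_γ1_γ0 := z1 b1' b0 c1, h_γ1_γ1 := z1 b1' b1 c3
      h_α0_γ1 := z1 a0' b1 o1, h_α1_γ0 := z1 a1' b0 o2
      h_s_e0 := s1, h_s_e1 := z1 s1 i1 o1, h_s_f0 := z1 s1 i2 o3, h_s_F := z1 s1 i3 o8
      h_e0_s := z1 i0 s2 o3, h_e1_s := z1 i1 s2 o5, h_f0_s := s2, h_F_s := z1 i3 s2 o11
      h_α0_s := z1 a0' s2 o3, h_α1_s := z1 a1' s2 o5, h_γ0_s := z1 b0' s2 c5, h_γ1_s := z1 b1' s2 c5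
      h_s_α0 := z1 s1 a0 c2, h_s_α1 := z1 s1 a1 c2, h_s_γ1 := z1 s1 b1 o1, h_s_s := z1 s1 s2 o3
      h_t_f0 := u1, h_t_e0 := z1 u1 i0 o4, h_t_e1 := z1 u1 i1 o6, h_t_F := z1 u1 i3 o12
      h_e0_t := u2, h_e1_t := z1 i1 u2 o2, h_f0_t := z1 i2 u2 o4, h_F_t := z1 i3 u2 o7
      h_α1_t := z1 a1' u2 o2, h_γ0_t := z1 b0' u2 c1, h_γ1_t := z1 b1' u2 c1
      h_t_α0 := z1 u1 a0 c6, h_t_α1 := z1 u1 a1 c6, h_t_γ0 := z1 u1 b0 o4, h_t_γ1 := z1 u1 b1 o6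
      h_t_t := z1 u1 u2 o4, h_s_t := ?_, h_t_s := ?_, k1 := k1, k2 := k2 }
  · calc θ * e0 * (e0 * θ) = θ * (e0 * e0) * θ := by simp only [mul_assoc]
      _ = (θ * e0) * θ := by rw [i0]
      _ = f0 * (θ * θ) := by rw [t2, mul_assoc]
      _ = f0 := by rw [t1, mul_one]
  · calc e0 * θ * (θ * e0) = e0 * (θ * θ) * e0 := by simp only [mul_assoc]
      _ = e0 := by rw [t1, mul_one, i0]

end Pool.Agent.H155R3
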