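import Pool.Agent.H155R3.K2b

set_option autoImplicit false
set_option linter.all false

/-!
# Stage zero and the refining chains
-/

namespace Pool.Agent.H155R3

section

variable {R : Type*} [Ring R]

/-- relations for stage zero -/
theorem d_w0 (e α γ : R) (h1 : e * e = e) (h2 : α * e = α) (h3 : e * α = 0) (h4 : e * γ = γ) (h5 : γ * e = 0)
    (h6 : α * α = 0) (h7 : γ * γ = 0) : dw e α γ * di e α γ = e ∧ e * dw e α γ = dw e α γ ∧ di e α γ * e = di e α γ := by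
  have h1_ : ∀ X : R, e * (e * X) = e * X := fun X => by rw [← mul_assoc, h1]
  have h2_ : ∀ X : R, α * (e * X) = α * X := fun X => by rw [← mul_assoc, h2]
  have h3_ : ∀ X : R, e * (α * X) = 0 := fun X => by rw [← mul_assoc, h3, zero_mul]
  have h4_ : ∀ X : R, e * (γ * X) = γ * X := fun X => by rw [← mul_assoc, h4]
  have h5_ : ∀ X : R, γ * (e * X) = 0 := fun X => by rw [← mul_assoc, h5, zero_mul]
  have h6_ : ∀ X : R, α * (α * X) = 0 := fun X => by rw [← mul_assoc, h6, zero_mul]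
  have h7_ : ∀ X : R, γ * (γ * X) = 0 := fun X => by rw [← mul_assoc, h7, zero_mul]
  refine ⟨?_, ?_, ?_⟩
  all_goals
    simp only [dw, di, two_mul, mul_add, add_mul, mul_sub, sub_mul, mul_assoc, mul_zero, zero_mul, add_zero, zero_add,
      sub_zero, h1, h2, h3, h4, h5, h6, h7, h1_, h2_, h3_, h4_, h5_, h6_, h7_]
  all_goals try abel

/-- A refining step. -/
structure Stage (Bp Bq J D q : R) : Prop where
  DJ : D * J = q
  qD : q * D = D
  Jq : J * q = J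
  JD : J * D = Bq - Bp
  PP : Bp * Bp = Bp
  PP' : Bq * Bp = Bp
  PP'' : Bp * Bq = Bp

theorem Stage.PJ {Bp Bq J D q : R} (S : Stage Bp Bq J D q) : Bp * J = 0 := by
  calc Bp * J = Bp * (J * (D * J)) := by rw [S.DJ, S.Jq]
    _ = (Bp * (J * D)) * J := by simp only [mul_assoc]
    _ = 0 := by rw [S.JD, mul_sub, S.PP'', S.PP, sub_self, zero_mul]

theorem Stage.DP {Bp Bq J D q : R} (S : Stage Bp Bq J D q) : D * Bp = 0 := by
  calc D * Bp = (q * D) * Bp := by rw [S.qD]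
    _ = D * ((J * D) * Bp) := by rw [← S.DJ]; simp only [mul_assoc]
    _ = 0 := by rw [S.JD, sub_mul, S.PP', S.PP, sub_self, mul_zero]

theorem Stage.mul {Bp Bq J D q : R} (S : Stage Bp Bq J D q) (p r : R) (hp : p * q = p) :
    (Bp + J * p * D) * (Bp + J * r * D) = Bp + J * (p * r) * D := by
  have h1 : Bp * (J * r * D) = 0 := by rw [mul_assoc J, ← mul_assoc, S.PJ, zero_mul]
  have h2 : (J * p * D) * Bp = 0 := by rw [mul_assoc, S.DP, mul_zero]
  have h3 : (J * p * D) * (J * r * D) = J * (p * r) * D := by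
    calc (J * p * D) * (J * r * D) = J * (p * (D * J)) * r * D := by simp only [mul_assoc]
      _ = J * (p * r) * D := by rw [S.DJ, hp]; simp only [mul_assoc]
  rw [add_mul, mul_add, mul_add, h1, h2, h3, S.PP, add_zero, zero_add]

/-- Stage from the table. -/
theorem DTab.stage {e0 e1 f0 F α0 α1 γ0 γ1 s t : R} (T : DTab e0 e1 f0 F α0 α1 γ0 γ1 s t) :
    Stage (dP0 e0 F α0 γ0) (dP1 e0 e1 f0 F α1 γ1) (dJ e0 e1 α0 α1 γ0 γ1 s) (dD e0 e1 α0 α1 γ0 γ1 t) (e1 + e0) where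
  DJ := d_DJ _ _ _ _ _ _ _ _ _ _ T
  qD := d_eD _ _ _ _ _ _ _ _ _ _ T
  Jq := d_Je _ _ _ _ _ _ _ _ _ _ T
  JD := d_JD _ _ _ _ _ _ _ _ _ _ T
  PP := d_P00 _ _ _ _ _ _ _ _ _ _ T
  PP' := d_P10 _ _ _ _ _ _ _ _ _ _ T
  PP'' := d_P01 _ _ _ _ _ _ _ _ _ _ T

/-- Stage zero. -/
theorem stage0 (e α γ : R) (h1 : e * e = e) (h2 : α * e = α) (h3 : e * α = 0) (h4 : e * γ = γ) (h5 : γ * e = 0)
    (h6 : α * α = 0) (h7 : γ * γ = 0) : Stage 0 (di e α γ * dw e α γ) (di e α γ) (dw e α γ) e where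
  DJ := (d_w0 e α γ h1 h2 h3 h4 h5 h6 h7).1
  qD := (d_w0 e α γ h1 h2 h3 h4 h5 h6 h7).2.1
  Jq := (d_w0 e α γ h1 h2 h3 h4 h5 h6 h7).2.2
  JD := by rw [sub_zero]
  PP := by simp
  PP' := by simp
  PP'' := by simp

end

end Pool.Agent.H155R3
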