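import Pool.Agent.H155R3.K1

set_option autoImplicit false

/-!
# Product kernels
-/

namespace Pool.Agent.H155R3

open MeasureTheory Finset

/-- bounded measurable functions -/
structure BM (F : Om → ℂ) : Prop where
  meas : Measurable F
  bdd : ∃ C : ℝ, ∀ z, ‖F z‖ ≤ C

theorem BM.mul {F G : Om → ℂ} (hF : BM F) (hG : BM G) : BM fun z => F z * G z := by
  obtain ⟨C, hC⟩ := hF.bdd
  obtain ⟨D, hD⟩ := hG.bdd
  refine ⟨hF.meas.mul hG.meas, C * D, fun z => ?_⟩
  rw [norm_mul]
  exact mul_le_mul (hC z) (hD z) (norm_nonneg _) ((norm_nonneg _).trans (hC z))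

theorem BM.const (c : ℂ) : BM fun _ => c := ⟨measurable_const, ‖c‖, fun _ => le_rfl⟩

theorem BM.sum {ι : Type*} (s : Finset ι) {F : ι → Om → ℂ} (hF : ∀ i, BM (F i)) : BM fun z => ∑ i ∈ s, F i z := by
  classical
  induction s using Finset.induction_on with
  | empty => simpa using BM.const 0
  | insert a s ha ih =>
    simp_rw [sum_insert ha]
    obtain ⟨C, hC⟩ := (hF a).bdd
    obtain ⟨D, hD⟩ := ih.bdd
    exact ⟨(hF a).meas.add ih.meas, C + D, fun z => (norm_add_le _ _).trans (add_le_add (hC z) (hD z))⟩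

theorem BM.prod {ι : Type*} (s : Finset ι) {F : ι → Om → ℂ} (hF : ∀ i, BM (F i)) : BM fun z => ∏ i ∈ s, F i z := by
  classical
  induction s using Finset.induction_on with
  | empty => simpa using BM.const 1
  | insert a s ha ih =>
    simp_rw [prod_insert ha]
    exact (hF a).mul ih

theorem BM.integrable {F : Om → ℂ} (hF : BM F) : Integrable F mu := by
  obtain ⟨C, hC⟩ := hF.bdd
  exact Integrable.of_bound hF.meas.aestronglyMeasurable C (Filter.Eventually.of_forall hC)

theorem BM.of_continuous {F : Om → ℂ} (hF : Continuous F) : BM F := by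
  obtain ⟨C, hC⟩ := (isCompact_range hF).isBounded.exists_norm_le
  exact ⟨hF.measurable, C, fun z => hC _ ⟨z, rfl⟩⟩

/-- Orthogonal expansion of a product of sums. -/
theorem orthE (b : ℕ) (φ : ℕ → ℕ → Om → ℂ) (hφ : ∀ x j, BM (φ x j))
    (ρ : ℕ → TT → Om)
    (hd : ∀ x j t z, φ x j (z + ρ x t) = tc t ^ ((b : ℤ) - j) * φ x j z)
    (hd' : ∀ x y j t z, x ≠ y → φ y j (z + ρ x t) = φ y j z) (d : ℕ → ℕ)
    (h0 : ∀ x, 2 * b + 1 ≤ d x + b → ∀ z, φ x (d x + b) z = 0) (n : ℕ) :
    ∀ (F : Om → ℂ), BM F → (∀ x < n, ∀ t z, F (z + ρ x t) = tc t ^ (d x : ℤ) * F z) →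
    ∫ z, F z * ∏ x ∈ range n, ∑ j ∈ range (2 * b + 1), φ x j z ∂mu =
      ∫ z, F z * ∏ x ∈ range n, φ x (d x + b) z ∂mu := by
  induction n with
  | zero => intro F _ _; simp
  | succ n ih =>
    intro F hF hFd
    have e1 : ∀ z, F z * ∏ x ∈ range (n + 1), ∑ j ∈ range (2 * b + 1), φ x j z =
        ∑ j ∈ range (2 * b + 1), (F z * φ n j z) * ∏ x ∈ range n, ∑ j ∈ range (2 * b + 1), φ x j z := by
      intro z
      rw [prod_range_succ, ← sum_mul, ← mul_sum]
      ring
    simp_rw [e1]
    have hbm : ∀ j, BM fun z => (F z * φ n j z) * ∏ x ∈ range n, ∑ j ∈ range (2 * b + 1), φ x j z := fun j =>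
      (hF.mul (hφ n j)).mul (BM.prod _ fun x => BM.sum _ fun j => hφ x j)
    rw [integral_finsetSum _ fun j _ => (hbm j).integrable]
    have e2 : ∀ j ∈ range (2 * b + 1),
        ∫ z, (F z * φ n j z) * ∏ x ∈ range n, ∑ j ∈ range (2 * b + 1), φ x j z ∂mu =
        if j = d n + b then ∫ z, F z * ∏ x ∈ range (n + 1), φ x (d x + b) z ∂mu else 0 := by
      intro j hj
      rw [ih (fun z => F z * φ n j z) (hF.mul (hφ n j))]
      · split_ifs with h
        · rw [h]
          congr 1
          funext z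
          rw [prod_range_succ]
          ring
        · apply integral_zero_of_flow _ (ρ n) ((d n : ℤ) + b - j) (by omega)
          intro t z
          have h1 : ∏ x ∈ range n, φ x (d x + b) (z + ρ n t) = ∏ x ∈ range n, φ x (d x + b) z := by
            apply prod_congr rfl
            intro x hx
            rw [mem_range] at hx
            exact hd' n x _ t z (by omega)
          rw [h1, hFd n (by omega), hd]
          have h2 : tc t ^ ((d n : ℤ) + b - j) = tc t ^ (d n : ℤ) * tc t ^ ((b : ℤ) - j) := by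
            rw [← zpow_add₀ (tc_ne t)]
            congr 1
            ring
          rw [h2]
          ring
      · intro x hx t z
        rw [hFd x (by omega), hd' x n j t z (by omega)]
        ring
    rw [sum_congr rfl e2, sum_ite_eq']
    split_ifs with h
    · rfl
    · rw [mem_range] at h
      symm
      have h1 : ∀ z, F z * ∏ x ∈ range (n + 1), φ x (d x + b) z = 0 := by
        intro z
        rw [prod_range_succ, h0 n (by omega) z]
        ring
      simp_rw [h1]
      simp

/-! ### codes of variables -/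

def vr (c n : ℕ) : ℕ := Nat.pair 0 (Nat.pair c n)
def vz (n x i : ℕ) : ℕ := Nat.pair 1 (Nat.pair n (Nat.pair x i))
def vw (n x i : ℕ) : ℕ := Nat.pair 2 (Nat.pair n (Nat.pair x i))
def vu (n x : ℕ) : ℕ := Nat.pair 3 (Nat.pair n x)

theorem vz_inj (n x : ℕ) : Function.Injective (vz n x) := by
  intro i j h
  simpa [vz, Nat.pair_eq_pair] using h

/-- twisted coordinates -/
def tau (z : Om) : Om := fun v => z v - z (Nat.pair 2 (Nat.unpair v).2)

open Classical in
/-- mask of a block -/
noncomputable def mk (n x : ℕ) (s : Om) : Om := fun v => if ∃ i, v = vz n x i then s v else 0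

theorem tau_vz (z : Om) (n x i : ℕ) : tau z (vz n x i) = z (vz n x i) - z (vw n x i) := by
  simp [tau, vz, vw, Nat.unpair_pair]

theorem mk_vz_same (s : Om) (n x i : ℕ) : mk n x s (vz n x i) = s (vz n x i) := by
  unfold mk
  rw [if_pos ⟨i, rfl⟩]

theorem mk_vz_ne (s : Om) (n x y i : ℕ) (h : x ≠ y) : mk n x s (vz n y i) = 0 := by
  unfold mk
  rw [if_neg]
  rintro ⟨j, hj⟩
  simp [vz, Nat.pair_eq_pair] at hj
  exact h hj.1.symm

theorem mk_vw (s : Om) (n x n' y i : ℕ) : mk n x s (vw n' y i) = 0 := by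
  unfold mk
  rw [if_neg]
  rintro ⟨j, hj⟩
  simp [vz, vw, Nat.pair_eq_pair] at hj

theorem mk_vu (s : Om) (n x n' y : ℕ) : mk n x s (vu n' y) = 0 := by
  unfold mk
  rw [if_neg]
  rintro ⟨j, hj⟩
  simp [vz, vu, Nat.pair_eq_pair] at hj

theorem mk_vr (s : Om) (n x c n' : ℕ) : mk n x s (vr c n') = 0 := by
  unfold mk
  rw [if_neg]
  rintro ⟨j, hj⟩
  simp [vz, vr, Nat.pair_eq_pair] at hj

theorem measurable_mk (n x : ℕ) : Measurable (mk n x) := by
  rw [measurable_pi_iff]
  intro v
  unfold mk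
  by_cases h : ∃ i, v = vz n x i
  · simp only [h, if_true]
    exact measurable_pi_apply v
  · simp only [h, if_false]
    exact measurable_const

theorem continuous_tau : Continuous tau := by
  unfold tau
  fun_prop

theorem ch_congr {v : ℕ} {z z' : Om} (h : z v = z' v) : ch v z = ch v z' := by
  unfold ch; rw [h]

theorem ee_congr (c : ℕ → ℕ) (M d : ℕ) {z z' : Om} (h : ∀ i, z (c i) = z' (c i)) : ee c M d z = ee c M d z' := by
  unfold ee
  apply sum_congr rfl; intro A _
  apply prod_congr rfl; intro i _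
  exact ch_congr (h i)

theorem om_congr (c : ℕ → ℕ) (M : ℕ) {z z' : Om} (h : ∀ i, z (c i) = z' (c i)) : om c M z = om c M z' := by
  have : SS c M z = SS c M z' := by
    unfold SS
    apply sum_congr rfl; intro i _
    exact ch_congr (h i)
  unfold om
  rw [this]

theorem ee_rot (c : ℕ → ℕ) (M d : ℕ) (t : TT) (z : Om) : ee c M d (z + fun _ => t) = tc t ^ d * ee c M d z := by
  unfold ee
  rw [mul_sum]
  apply sum_congr rfl
  intro A hA
  rw [mem_powersetCard] at hA
  have : ∀ i ∈ A, ch (c i) (z + fun _ => t) = tc t * ch (c i) z := by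
    intro i _
    rw [ch_add, mul_comm]
    rfl
  rw [prod_congr rfl this, prod_mul_distrib, prod_const, hA.2]

section block

variable (n b m M : ℕ)

/-- product of the w-variables -/
noncomputable def WW (x : ℕ) (z : Om) : ℂ := ∏ i ∈ range M, ch (vw n x i) z

/-- The block functions. -/
noncomputable def Sf (x j : ℕ) (z : Om) : ℂ :=
  (lam (vz n x) M (2 * m + j))⁻¹ * WW n M x z * ee (vz n x) M (2 * m + j) (tau z) * ch (vu n x) z ^ ((j : ℤ) - b)

/-- The dual block functions. -/
noncomputable def Ps (x j : ℕ) (z : Om) : ℂ :=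
  (starRingEnd ℂ) (WW n M x z * om (vz n x) M (tau z) ^ (2 * m + j) * ch (vu n x) z ^ ((j : ℤ) - b))

theorem norm_WW (x : ℕ) (z : Om) : ‖WW n M x z‖ = 1 := by
  unfold WW
  rw [norm_prod]
  exact prod_eq_one fun i _ => norm_ch _ _

theorem continuous_WW (x : ℕ) : Continuous (WW n M x) := by
  unfold WW
  exact continuous_finsetProd _ fun i _ => continuous_ch _

theorem continuous_ch_zpow (v : ℕ) (k : ℤ) : Continuous fun z => ch v z ^ k :=
  (continuous_ch v).zpow₀ k (fun z => Or.inl (ch_ne v z))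

theorem continuous_Sf (x j : ℕ) : Continuous (Sf n b m M x j) := by
  unfold Sf
  exact (((continuous_const.mul (continuous_WW n M x))).mul ((continuous_ee _ _ _).comp continuous_tau)).mul
    (continuous_ch_zpow _ _)

theorem BM_Ps (x j : ℕ) : BM (Ps n b m M x j) := by
  constructor
  · unfold Ps
    refine Complex.continuous_conj.measurable.comp ?_
    exact (((continuous_WW n M x).measurable).mul (((measurable_om _ _).comp continuous_tau.measurable).pow_const _)).mul
      (continuous_ch_zpow _ _).measurable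
  · refine ⟨1, fun z => ?_⟩
    unfold Ps
    rw [RCLike.norm_conj, norm_mul, norm_mul, norm_WW, one_mul, norm_pow, norm_zpow, norm_ch, one_zpow, mul_one]
    exact pow_le_one₀ (norm_nonneg _) (om_norm_le _ _ _)

theorem WW_mk (x y : ℕ) (z s : Om) : WW n M y (z + mk n x s) = WW n M y z := by
  unfold WW
  apply prod_congr rfl
  intro i _
  apply ch_congr
  rw [Pi.add_apply, mk_vw, add_zero]

theorem Sf_mk_ne (x y j : ℕ) (h : x ≠ y) (z s : Om) : Sf n b m M y j (z + mk n x s) = Sf n b m M y j z := by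
  unfold Sf
  rw [WW_mk]
  congr 1
  · congr 1
    apply ee_congr
    intro i
    rw [tau_vz, tau_vz, Pi.add_apply, Pi.add_apply, mk_vw, mk_vz_ne s n x y i h]
    simp
  · congr 1
    apply ch_congr
    rw [Pi.add_apply, mk_vu, add_zero]

theorem Sf_mk_same (x j : ℕ) (z s : Om) : Sf n b m M x j (z + mk n x s) =
    (lam (vz n x) M (2 * m + j))⁻¹ * WW n M x z * ee (vz n x) M (2 * m + j) (s + tau z) * ch (vu n x) z ^ ((j : ℤ) - b) := by
  unfold Sf
  rw [WW_mk]
  congr 1
  · congr 1
    apply ee_congr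
    intro i
    rw [tau_vz, Pi.add_apply, Pi.add_apply, Pi.add_apply, mk_vw, mk_vz_same, tau_vz]
    abel
  · congr 1
    apply ch_congr
    rw [Pi.add_apply, mk_vu, add_zero]

variable (v : ℕ → ℂ)

/-- factors of the kernel of the embedding -/
noncomputable def gfac (x : ℕ) (ζ z : Om) : ℂ :=
  ∑ j ∈ range (2 * b + 1), v j * ch x ζ ^ ((b : ℤ) - j) * Sf n b m M x j z

/-- factors of the kernel of the projection -/
noncomputable def afac (x : ℕ) (ζ z : Om) : ℂ :=
  ∑ j ∈ range (2 * b + 1), v j * ch x z ^ ((j : ℤ) - b) * Ps n b m M x j ζ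

theorem continuous_gfac (x : ℕ) : Continuous fun p : Om × Om => gfac n b m M v x p.1 p.2 := by
  unfold gfac
  apply continuous_finsetSum
  intro j _
  exact (continuous_const.mul ((continuous_ch_zpow _ _).comp continuous_fst)).mul ((continuous_Sf _ _ _ _ _ _).comp continuous_snd)

theorem measurable_afac (x : ℕ) : Measurable fun p : Om × Om => afac n b m M v x p.1 p.2 := by
  unfold afac
  apply Finset.measurable_fun_sum
  intro j _
  exact (measurable_const.mul ((continuous_ch_zpow _ _).measurable.comp measurable_snd)).mul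
    ((BM_Ps _ _ _ _ _ _).meas.comp measurable_fst)

theorem afac_bdd (x : ℕ) (ζ z : Om) : ‖afac n b m M v x ζ z‖ ≤ ∑ j ∈ range (2 * b + 1), ‖v j‖ := by
  unfold afac
  refine (norm_sum_le _ _).trans (sum_le_sum fun j _ => ?_)
  rw [norm_mul, norm_mul, norm_zpow, norm_ch, one_zpow, mul_one]
  apply mul_le_of_le_one_right (norm_nonneg _)
  unfold Ps
  rw [RCLike.norm_conj, norm_mul, norm_mul, norm_WW, one_mul, norm_pow, norm_zpow, norm_ch, one_zpow, mul_one]
  exact pow_le_one₀ (norm_nonneg _) (om_norm_le _ _ _)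

theorem gfac_mk_same (x : ℕ) (ζ z : Om) : ∃ s1 : Om, ∀ s, ‖gfac n b m M v x ζ (z + mk n x s)‖ =
    ‖∑ j ∈ range (2 * b + 1), v j * ((lam (vz n x) M (2 * m + j))⁻¹ * ee (vz n x) M (2 * m + j) (s + s1))‖ := by
  obtain ⟨t1, ht1⟩ := exists_tc (ch (vu n x) z * (ch x ζ)⁻¹) (by rw [norm_mul, norm_inv, norm_ch, norm_ch]; simp)
  refine ⟨tau z + fun _ => t1, fun s => ?_⟩
  have key : gfac n b m M v x ζ (z + mk n x s) = (WW n M x z * (tc t1 ^ (2 * m + b))⁻¹) *
      ∑ j ∈ range (2 * b + 1), v j * ((lam (vz n x) M (2 * m + j))⁻¹ * ee (vz n x) M (2 * m + j) (s + (tau z + fun _ => t1))) := by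
    unfold gfac
    rw [mul_sum]
    apply sum_congr rfl
    intro j _
    rw [Sf_mk_same, ← add_assoc, ee_rot]
    have h1 : (tc t1 ^ (2 * m + b))⁻¹ * tc t1 ^ (2 * m + j) = tc t1 ^ ((j : ℤ) - b) := by
      rw [← zpow_natCast, ← zpow_natCast, ← zpow_neg, ← zpow_add₀ (tc_ne t1)]
      congr 1
      push_cast
      ring
    have h2 : tc t1 ^ ((j : ℤ) - b) = ch (vu n x) z ^ ((j : ℤ) - b) * ch x ζ ^ ((b : ℤ) - j) := by
      rw [ht1, mul_zpow, inv_zpow', neg_sub]
    calc v j * ch x ζ ^ ((b : ℤ) - j) * ((lam (vz n x) M (2 * m + j))⁻¹ * WW n M x z *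
          ee (vz n x) M (2 * m + j) (s + tau z) * ch (vu n x) z ^ ((j : ℤ) - b))
        = WW n M x z * (ch (vu n x) z ^ ((j : ℤ) - b) * ch x ζ ^ ((b : ℤ) - j)) * (v j *
          ((lam (vz n x) M (2 * m + j))⁻¹ * ee (vz n x) M (2 * m + j) (s + tau z))) := by ring
      _ = _ := by
          rw [← h2, ← h1]
          ring
  rw [key, norm_mul, norm_mul, norm_WW, norm_inv, norm_pow, norm_tc, one_pow, inv_one, mul_one, one_mul]

theorem gfac_mk_ne (x y : ℕ) (h : x ≠ y) (ζ z s : Om) : gfac n b m M v y ζ (z + mk n x s) = gfac n b m M v y ζ z := by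
  unfold gfac
  apply sum_congr rfl
  intro j _
  rw [Sf_mk_ne n b m M x y j h]

theorem gker_bound (C1 : ℝ) (hC1 : 0 ≤ C1)
    (hC : ∀ x, ∫ z, ‖∑ j ∈ range (2 * b + 1), v j * ((lam (vz n x) M (2 * m + j))⁻¹ * ee (vz n x) M (2 * m + j) z)‖ ∂mu ≤ C1)
    (ζ : Om) (k : ℕ) : ∫ z, ‖∏ x ∈ range k, gfac n b m M v x ζ z‖ ∂mu ≤ C1 ^ k := by
  have hcg : ∀ x, Continuous fun z => gfac n b m M v x ζ z := fun x => by
    unfold gfac
    apply continuous_finsetSum
    intro j _
    exact continuous_const.mul (continuous_Sf _ _ _ _ _ _)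
  have hcP : ∀ k, Continuous fun z => ‖∏ x ∈ range k, gfac n b m M v x ζ z‖ := fun k =>
    (continuous_finsetProd _ fun x _ => hcg x).norm
  induction k with
  | zero => simp
  | succ k ih =>
    obtain ⟨C, hCC⟩ := (isCompact_range (hcP (k + 1))).isBounded.exists_norm_le
    rw [avg_shift mu (mk n k) (measurable_mk n k) _ (hcP (k + 1)).stronglyMeasurable C (fun z => hCC _ ⟨z, rfl⟩)]
    have e1 : ∀ z, ∫ s, ‖∏ x ∈ range (k + 1), gfac n b m M v x ζ (z + mk n k s)‖ ∂mu ≤
        ‖∏ x ∈ range k, gfac n b m M v x ζ z‖ * C1 := by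
      intro z
      obtain ⟨s1, hs1⟩ := gfac_mk_same n b m M v k ζ z
      have e2 : ∀ s, ‖∏ x ∈ range (k + 1), gfac n b m M v x ζ (z + mk n k s)‖ =
          ‖∏ x ∈ range k, gfac n b m M v x ζ z‖ *
          ‖∑ j ∈ range (2 * b + 1), v j * ((lam (vz n k) M (2 * m + j))⁻¹ * ee (vz n k) M (2 * m + j) (s + s1))‖ := by
        intro s
        rw [prod_range_succ, norm_mul, hs1]
        congr 2
        apply prod_congr rfl
        intro x hx
        rw [mem_range] at hx
        exact gfac_mk_ne n b m M v k x (by omega) ζ z s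
      simp_rw [e2]
      rw [integral_const_mul, integral_shift (fun s => ‖∑ j ∈ range (2 * b + 1), v j * ((lam (vz n k) M (2 * m + j))⁻¹ *
        ee (vz n k) M (2 * m + j) s)‖)]
      exact mul_le_mul_of_nonneg_left (hC k) (norm_nonneg _)
    calc ∫ z, ∫ s, ‖∏ x ∈ range (k + 1), gfac n b m M v x ζ (z + mk n k s)‖ ∂mu ∂mu
        ≤ ∫ z, ‖∏ x ∈ range k, gfac n b m M v x ζ z‖ * C1 ∂mu := by
          apply integral_mono_of_nonneg
          · exact Filter.Eventually.of_forall fun z => integral_nonneg fun _ => norm_nonneg _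
          · exact (integrable_cont_Om' (hcP k)).mul_const _
          · exact Filter.Eventually.of_forall e1
      _ = (∫ z, ‖∏ x ∈ range k, gfac n b m M v x ζ z‖ ∂mu) * C1 := integral_mul_const _ _
      _ ≤ C1 ^ k * C1 := mul_le_mul_of_nonneg_right ih hC1
      _ = C1 ^ (k + 1) := (pow_succ _ _).symm

theorem afac_single_ne (x y : ℕ) (h : x ≠ y) (ζ z : Om) (t : TT) :
    afac n b m M v y ζ (z + Pi.single x t) = afac n b m M v y ζ z := by
  unfold afac
  apply sum_congr rfl
  intro j _
  rw [ch_shift_ne h.symm]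

theorem afac_single_same (hm : 1 ≤ m) (x : ℕ) (ζ z : Om) :
    ∫ t, ‖afac n b m M v x ζ (z + Pi.single x t)‖ ∂hh ≤ ∫ t, ‖∑ j ∈ range (2 * b + 1), v j * tc t ^ j‖ ∂hh := by
  by_cases h0 : om (vz n x) M (tau ζ) = 0
  · have : ∀ t, afac n b m M v x ζ (z + Pi.single x t) = 0 := by
      intro t
      unfold afac Ps
      apply sum_eq_zero
      intro j _
      rw [h0, zero_pow (by omega)]
      simp
    simp_rw [this]
    simp only [norm_zero, integral_zero]
    exact integral_nonneg fun _ => norm_nonneg _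
  · have h1 : ‖om (vz n x) M (tau ζ)‖ = 1 := by
      apply om_norm_eq
      intro h
      apply h0
      unfold om
      rw [h]; simp
    set O := (starRingEnd ℂ) (om (vz n x) M (tau ζ)) with hO
    set U := (starRingEnd ℂ) (ch (vu n x) ζ) with hU
    have hO1 : ‖O‖ = 1 := by rw [hO, RCLike.norm_conj]; exact h1
    have hU1 : ‖U‖ = 1 := by rw [hU, RCLike.norm_conj]; exact norm_ch _ _
    have hO0 : O ≠ 0 := by intro h; rw [h] at hO1; simp at hO1
    have hU0 : U ≠ 0 := by intro h; rw [h] at hU1; simp at hU1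
    set σ : ℂ := ch x z * O * U with hσ
    have hσ1 : ‖σ‖ = 1 := by rw [hσ, norm_mul, norm_mul, norm_ch, hO1, hU1]; simp
    have key : ∀ t, ‖afac n b m M v x ζ (z + Pi.single x t)‖ = ‖∑ j ∈ range (2 * b + 1), v j * (tc t * σ) ^ j‖ := by
      intro t
      have hne : tc t * σ ≠ 0 := by
        intro h
        have h2 : ‖tc t * σ‖ = 0 := by rw [h]; simp
        rw [norm_mul, norm_tc, hσ1] at h2
        norm_num at h2
      have h3 : afac n b m M v x ζ (z + Pi.single x t) = ((starRingEnd ℂ) (WW n M x ζ) * O ^ (2 * m + b) * ((tc t * σ) ^ b)⁻¹) *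
          ∑ j ∈ range (2 * b + 1), v j * (tc t * σ) ^ j := by
        unfold afac Ps
        rw [mul_sum]
        apply sum_congr rfl
        intro j _
        rw [ch_shift_eq, map_mul, map_mul, map_pow, map_zpow₀, ← hO, ← hU]
        have h4 : ((tc t * σ) ^ b)⁻¹ * (tc t * σ) ^ j = (tc t * σ) ^ ((j : ℤ) - b) := by
          rw [← zpow_natCast, ← zpow_natCast, ← zpow_neg, ← zpow_add₀ hne]
          congr 1
          ring
        have h5 : O ^ (2 * m + j) = O ^ (2 * m + b) * O ^ ((j : ℤ) - b) := by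
          rw [← zpow_natCast, ← zpow_natCast, ← zpow_add₀ hO0]
          congr 1
          push_cast
          ring
        have h6 : (tc t * σ) ^ ((j : ℤ) - b) = (tc t * ch x z) ^ ((j : ℤ) - b) * O ^ ((j : ℤ) - b) * U ^ ((j : ℤ) - b) := by
          rw [← mul_zpow, ← mul_zpow]
          congr 1
          rw [hσ]; ring
        calc v j * (tc t * ch x z) ^ ((j : ℤ) - b) * ((starRingEnd ℂ) (WW n M x ζ) * O ^ (2 * m + j) * U ^ ((j : ℤ) - b))
            = (starRingEnd ℂ) (WW n M x ζ) * O ^ (2 * m + b) * (v j *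
              ((tc t * ch x z) ^ ((j : ℤ) - b) * O ^ ((j : ℤ) - b) * U ^ ((j : ℤ) - b))) := by rw [h5]; ring
          _ = _ := by rw [← h6, ← h4]; ring
      rw [h3, norm_mul, norm_mul, norm_mul, RCLike.norm_conj, norm_WW, norm_pow, hO1, norm_inv, norm_pow, norm_mul,
        norm_tc, hσ1]
      simp
    simp_rw [key]
    rw [rot_mean _ _ _ hσ1]

theorem aker_bound (hm : 1 ≤ m) (C2 : ℝ) (hC2 : 0 ≤ C2) (hC : ∫ t, ‖∑ j ∈ range (2 * b + 1), v j * tc t ^ j‖ ∂hh ≤ C2)
    (ζ : Om) (k : ℕ) : ∫ z, ‖∏ x ∈ range k, afac n b m M v x ζ z‖ ∂mu ≤ C2 ^ k := by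
  have hcg : ∀ x, Continuous fun z => afac n b m M v x ζ z := fun x => by
    unfold afac
    apply continuous_finsetSum
    intro j _
    exact (continuous_const.mul (continuous_ch_zpow _ _)).mul continuous_const
  have hcP : ∀ k, Continuous fun z => ‖∏ x ∈ range k, afac n b m M v x ζ z‖ := fun k =>
    (continuous_finsetProd _ fun x _ => hcg x).norm
  induction k with
  | zero => simp
  | succ k ih =>
    obtain ⟨C, hCC⟩ := (isCompact_range (hcP (k + 1))).isBounded.exists_norm_le
    rw [avg_shift hh (fun t => (Pi.single k t : Om)) (continuous_shift k).measurable _ (hcP (k + 1)).stronglyMeasurable C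
      (fun z => hCC _ ⟨z, rfl⟩)]
    have e1 : ∀ z, ∫ t, ‖∏ x ∈ range (k + 1), afac n b m M v x ζ (z + Pi.single k t)‖ ∂hh ≤
        ‖∏ x ∈ range k, afac n b m M v x ζ z‖ * C2 := by
      intro z
      have e2 : ∀ t, ‖∏ x ∈ range (k + 1), afac n b m M v x ζ (z + Pi.single k t)‖ =
          ‖∏ x ∈ range k, afac n b m M v x ζ z‖ * ‖afac n b m M v k ζ (z + Pi.single k t)‖ := by
        intro t
        rw [prod_range_succ, norm_mul]
        congr 2
        apply prod_congr rfl
        intro x hx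
        rw [mem_range] at hx
        exact afac_single_ne n b m M v k x (by omega) ζ z t
      simp_rw [e2]
      rw [integral_const_mul]
      exact mul_le_mul_of_nonneg_left ((afac_single_same n b m M v hm k ζ z).trans hC) (norm_nonneg _)
    calc ∫ z, ∫ t, ‖∏ x ∈ range (k + 1), afac n b m M v x ζ (z + Pi.single k t)‖ ∂hh ∂mu
        ≤ ∫ z, ‖∏ x ∈ range k, afac n b m M v x ζ z‖ * C2 ∂mu := by
          apply integral_mono_of_nonneg
          · exact Filter.Eventually.of_forall fun z => integral_nonneg fun _ => norm_nonneg _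
          · exact (integrable_cont_Om' (hcP k)).mul_const _
          · exact Filter.Eventually.of_forall e1
      _ = (∫ z, ‖∏ x ∈ range k, afac n b m M v x ζ z‖ ∂mu) * C2 := integral_mul_const _ _
      _ ≤ C2 ^ k * C2 := mul_le_mul_of_nonneg_right ih hC2
      _ = C2 ^ (k + 1) := (pow_succ _ _).symm

/-- biorthogonality, diagonal part -/
theorem SfPs_eq (x j : ℕ) (z : Om) : Sf n b m M x j z * Ps n b m M x j z =
    (lam (vz n x) M (2 * m + j))⁻¹ * (ee (vz n x) M (2 * m + j) (tau z) *
      (starRingEnd ℂ) (om (vz n x) M (tau z)) ^ (2 * m + j)) := by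
  unfold Sf Ps
  rw [map_mul, map_mul, map_pow, map_zpow₀]
  have h1 : WW n M x z * (starRingEnd ℂ) (WW n M x z) = 1 := by
    rw [Complex.mul_conj, Complex.normSq_eq_norm_sq, norm_WW]; simp
  have h2 : ch (vu n x) z ^ ((j : ℤ) - b) * (starRingEnd ℂ) (ch (vu n x) z) ^ ((j : ℤ) - b) = 1 := by
    rw [← mul_zpow, conj_ch, one_zpow]
  linear_combination (lam (vz n x) M (2 * m + j))⁻¹ * (ee (vz n x) M (2 * m + j) (tau z) *
      (starRingEnd ℂ) (om (vz n x) M (tau z)) ^ (2 * m + j)) * (WW n M x z * (starRingEnd ℂ) (WW n M x z)) * h2 +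
      (lam (vz n x) M (2 * m + j))⁻¹ * (ee (vz n x) M (2 * m + j) (tau z) *
      (starRingEnd ℂ) (om (vz n x) M (tau z)) ^ (2 * m + j)) * h1

theorem pair_int (d : ℕ → ℕ) (k : ℕ) (hl : ∀ x < k, lam (vz n x) M (2 * m + d x) ≠ 0) :
    ∫ z, ∏ x ∈ range k, (Sf n b m M x (d x) z * Ps n b m M x (d x) z) ∂mu = 1 := by
  have hbm : ∀ x, BM fun z => Sf n b m M x (d x) z * Ps n b m M x (d x) z := fun x =>
    (BM.of_continuous (continuous_Sf _ _ _ _ _ _)).mul (BM_Ps _ _ _ _ _ _)
  induction k with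
  | zero => simp
  | succ k ih =>
    obtain ⟨C, hCC⟩ := (BM.prod (range (k + 1)) hbm).bdd
    rw [avg_shift mu (mk n k) (measurable_mk n k) _ (BM.prod (range (k + 1)) hbm).meas.stronglyMeasurable C hCC]
    have e1 : ∀ z, ∫ s, ∏ x ∈ range (k + 1), (Sf n b m M x (d x) (z + mk n k s) * Ps n b m M x (d x) (z + mk n k s)) ∂mu =
        ∏ x ∈ range k, (Sf n b m M x (d x) z * Ps n b m M x (d x) z) := by
      intro z
      have e2 : ∀ s, ∏ x ∈ range (k + 1), (Sf n b m M x (d x) (z + mk n k s) * Ps n b m M x (d x) (z + mk n k s)) =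
          (∏ x ∈ range k, (Sf n b m M x (d x) z * Ps n b m M x (d x) z)) *
          ((lam (vz n k) M (2 * m + d k))⁻¹ * (ee (vz n k) M (2 * m + d k) (s + tau z) *
            (starRingEnd ℂ) (om (vz n k) M (s + tau z)) ^ (2 * m + d k))) := by
        intro s
        rw [prod_range_succ]
        congr 1
        · apply prod_congr rfl
          intro x hx
          rw [mem_range] at hx
          have hne : k ≠ x := by omega
          rw [SfPs_eq, SfPs_eq]
          have h1 : ∀ i, tau (z + mk n k s) (vz n x i) = tau z (vz n x i) := by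
            intro i
            rw [tau_vz, tau_vz, Pi.add_apply, Pi.add_apply, mk_vw, mk_vz_ne s n k x i hne]
            simp
          rw [ee_congr _ _ _ h1, om_congr _ _ h1]
        · rw [SfPs_eq]
          have h1 : ∀ i, tau (z + mk n k s) (vz n k i) = (s + tau z) (vz n k i) := by
            intro i
            rw [tau_vz, Pi.add_apply, Pi.add_apply, Pi.add_apply, mk_vw, mk_vz_same, tau_vz]
            abel
          rw [ee_congr _ _ _ h1, om_congr _ _ h1]
      simp_rw [e2]
      rw [integral_const_mul, integral_shift (fun s => (lam (vz n k) M (2 * m + d k))⁻¹ * (ee (vz n k) M (2 * m + d k) s *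
            (starRingEnd ℂ) (om (vz n k) M s) ^ (2 * m + d k)))]
      rw [integral_const_mul]
      have : ∫ s, ee (vz n k) M (2 * m + d k) s * (starRingEnd ℂ) (om (vz n k) M s) ^ (2 * m + d k) ∂mu =
          lam (vz n k) M (2 * m + d k) := rfl
      rw [this, inv_mul_cancel₀ (hl k (by omega)), mul_one]
    simp_rw [e1]
    exact ih fun x hx => hl x (by omega)

end block

end Pool.Agent.H155R3
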