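import Pool.Agent.H155R3.K3

set_option autoImplicit false

/-!
# The factorisation of the multipliers through the blocks
-/

namespace Pool.Agent.H155R3

open MeasureTheory Finset MvPolynomial

theorem vc_zero (a b : ℕ) (k : ℤ) (hk : (b : ℤ) ≤ |k|) : vc a b k = 0 := by
  unfold vc
  have h1 : ∀ N ∈ Finset.Ico a b, (if |k| ≤ (N : ℤ) then (1 : ℂ) else 0) = 0 := by
    intro N hN
    rw [Finset.mem_Ico] at hN
    rw [if_neg]
    have : (N : ℤ) < b := by exact_mod_cast hN.2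
    omega
  rw [sum_congr rfl h1]
  simp

theorem vc_norm' (a b : ℕ) (hab : a < b) :
    ∫ t, ‖∑ j ∈ range (2 * b + 1), vc a b ((j : ℤ) - b) * tc t ^ j‖ ∂hh ≤ ((b : ℝ) + a) / (b - a) := by
  refine le_trans (le_of_eq ?_) (vc_norm a b hab)
  congr 1
  funext t
  have h1 : ∑ k ∈ Finset.Ioo (-(b : ℤ)) b, vc a b k * tc t ^ k =
      ∑ j ∈ range (2 * b + 1), vc a b ((j : ℤ) - b) * tc t ^ ((j : ℤ) - b) := by
    have h2 : ∑ j ∈ range (2 * b + 1), vc a b ((j : ℤ) - b) * tc t ^ ((j : ℤ) - b) =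
        ∑ k ∈ (range (2 * b + 1)).image (fun j : ℕ => (j : ℤ) - b), vc a b k * tc t ^ k := by
      rw [sum_image]
      intro i _ j _ h
      simp only at h
      omega
    rw [h2]
    apply sum_subset
    · intro k hk
      rw [mem_Ioo] at hk
      rw [mem_image]
      refine ⟨(k + b).toNat, ?_, ?_⟩
      · rw [mem_range]; omega
      · omega
    · intro k hk hk'
      rw [mem_Ioo] at hk'
      rw [vc_zero, zero_mul]
      rw [le_abs]
      by_contra h
      push Not at h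
      omega
  have h3 : ∑ j ∈ range (2 * b + 1), vc a b ((j : ℤ) - b) * tc t ^ j =
      tc t ^ b * ∑ k ∈ Finset.Ioo (-(b : ℤ)) b, vc a b k * tc t ^ k := by
    rw [h1, mul_sum]
    apply sum_congr rfl
    intro j _
    rw [zpow_sub₀ (tc_ne t), zpow_natCast, zpow_natCast]
    have := pow_ne_zero b (tc_ne t)
    field_simp
  rw [h3, norm_mul, norm_pow, norm_tc, one_pow, one_mul]

/-- The parameters of the construction. -/
structure Par where
  a : ℕ → ℕ
  b : ℕ → ℕ
  m : ℕ → ℕ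
  M : ℕ → ℕ
  hab : ∀ n, a n < b n
  hba : ∀ n, b n ≤ a (n + 1)
  han : ∀ n, n ≤ a n
  hm : ∀ n, 1 ≤ m n
  hlam : ∀ n x, ∀ j ≤ 2 * b n, lam (vz n x) (M n) (2 * m n + j) ≠ 0
  hg : ∀ n x, ∫ z, ‖∑ j ∈ range (2 * b n + 1), vc (a n) (b n) ((j : ℤ) - b n) *
    ((lam (vz n x) (M n) (2 * m n + j))⁻¹ * ee (vz n x) (M n) (2 * m n + j) z)‖ ∂mu ≤ 1 + 1 / ((n : ℝ) + 1)
  ha : ∀ n, ∫ t, ‖∑ j ∈ range (2 * b n + 1), vc (a n) (b n) ((j : ℤ) - b n) * tc t ^ j‖ ∂hh ≤ 1 + 1 / ((n : ℝ) + 1)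

/-- the sequence a -/
def pa : ℕ → ℕ
  | 0 => 0
  | n + 1 => (pa n * (4 * n + 5) + 1) + (n + 1)

theorem exists_par : Nonempty Par := by
  have hn : ∀ n, n ≤ pa n := by
    intro n
    induction n with
    | zero => exact Nat.zero_le _
    | succ n _ => unfold pa; omega
  set b : ℕ → ℕ := fun n => pa n * (4 * n + 5) + 1 with hb
  have hab : ∀ n, pa n < b n := by
    intro n
    simp only [hb]
    have : pa n * 1 ≤ pa n * (4 * n + 5) := Nat.mul_le_mul_left _ (by omega)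
    omega
  have hV : ∀ n, ∫ t, ‖∑ j ∈ range (2 * b n + 1), vc (pa n) (b n) ((j : ℤ) - b n) * tc t ^ j‖ ∂hh ≤ 1 + 1 / (2 * ((n : ℝ) + 1)) := by
    intro n
    refine (vc_norm' _ _ (hab n)).trans ?_
    have h1 : (0 : ℝ) < (b n : ℝ) - pa n := by
      rw [sub_pos]; exact_mod_cast hab n
    have h2 : (b n : ℝ) = pa n * (4 * n + 5) + 1 := by simp only [hb]; push_cast; ring
    rw [div_le_iff₀ h1]
    have h3 : (1 + 1 / (2 * ((n : ℝ) + 1))) * ((b n : ℝ) - pa n) = ((b n : ℝ) - pa n) + ((b n : ℝ) - pa n) / (2 * ((n : ℝ) + 1)) := by ring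
    have h4 : 2 * (pa n : ℝ) ≤ ((b n : ℝ) - pa n) / (2 * ((n : ℝ) + 1)) := by
      rw [le_div_iff₀ (by positivity), h2]
      nlinarith
    rw [h3]
    linarith
  have hC := fun n : ℕ => lemmaC (2 * b n) (fun j => vc (pa n) (b n) ((j : ℤ) - b n)) (1 / (2 * ((n : ℝ) + 1))) (by positivity)
  choose m M hm hc using hC
  refine ⟨⟨pa, b, m, M, hab, ?_, hn, hm, ?_, ?_, ?_⟩⟩
  · intro n
    simp only [hb]
    conv_rhs => unfold pa
    omega
  · intro n x j hj
    exact (hc n (vz n x) (vz_inj n x)).1 j hj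
  · intro n x
    refine ((hc n (vz n x) (vz_inj n x)).2).trans ?_
    have h1 := hV n
    have h2 : 1 / (2 * ((n : ℝ) + 1)) + 1 / (2 * ((n : ℝ) + 1)) = 1 / ((n : ℝ) + 1) := by field_simp; ring
    linarith
  · intro n
    refine (hV n).trans ?_
    have h2 : 1 / (2 * ((n : ℝ) + 1)) + 1 / (2 * ((n : ℝ) + 1)) = 1 / ((n : ℝ) + 1) := by field_simp; ring
    have h3 : 0 ≤ 1 / (2 * ((n : ℝ) + 1)) := by positivity
    linarith

theorem cst_pow (n : ℕ) : (1 + 1 / ((n : ℝ) + 1)) ^ n ≤ 3 := by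
  have h1 : 1 + 1 / ((n : ℝ) + 1) ≤ Real.exp (1 / ((n : ℝ) + 1)) := by
    have := Real.add_one_le_exp (1 / ((n : ℝ) + 1))
    linarith
  calc (1 + 1 / ((n : ℝ) + 1)) ^ n ≤ Real.exp (1 / ((n : ℝ) + 1)) ^ n := pow_le_pow_left₀ (by positivity) h1 n
    _ = Real.exp (n * (1 / ((n : ℝ) + 1))) := (Real.exp_nat_mul _ _).symm
    _ ≤ Real.exp 1 := by
        apply Real.exp_le_exp.mpr
        rw [mul_one_div, div_le_one (by positivity)]
        linarith
    _ ≤ 3 := by
        have := Real.exp_one_lt_d9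
        linarith

theorem ev_single (x : ℕ) (t : TT) (z : Om) (κ : ℕ →₀ ℕ) :
    ev (z + Pi.single x t) (mo κ) = tc t ^ (κ x : ℤ) * ev z (mo κ) := by
  have h1 : (Pi.single x t : Om) = fl (fun i => if i = x then 1 else 0) t := by
    funext i
    unfold fl
    by_cases h : i = x
    · subst h; simp
    · simp [h]
  rw [h1, ev_fl]
  congr 2
  rw [Finsupp.weight_apply, Finsupp.sum]
  simp
  intro h; rw [h]; simp

theorem conj_tc (t : TT) : (starRingEnd ℂ) (tc t) = (tc t)⁻¹ := by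
  rw [Complex.inv_def, Complex.normSq_eq_norm_sq, norm_tc]; simp

section ops

variable (P : Par) (n : ℕ)

noncomputable def vv (j : ℕ) : ℂ := vc (P.a n) (P.b n) ((j : ℤ) - P.b n)
noncomputable def vk (k : ℕ) : ℂ := vc (P.a n) (P.b n) k

theorem vv_add (k : ℕ) : vv P n (k + P.b n) = vk P n k := by
  unfold vv vk
  congr 1
  push_cast
  ring

theorem vk_zero (k : ℕ) (hk : P.b n ≤ k) : vk P n k = 0 := by
  unfold vk
  apply vc_zero
  rw [le_abs]
  left
  exact_mod_cast hk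

theorem vk_one (k : ℕ) (hk : k ≤ P.a n) : vk P n k = 1 := by
  unfold vk
  apply vc_one _ _ (P.hab n)
  rw [abs_of_nonneg (by positivity)]
  exact_mod_cast hk

/-- block polynomials -/
noncomputable def Sp (x k : ℕ) : PP :=
  C ((lam (vz n x) (P.M n) (2 * P.m n + (k + P.b n)))⁻¹) *
    (∑ A ∈ powersetCard (2 * P.m n + (k + P.b n)) (range (P.M n)),
      ∏ i ∈ range (P.M n), (if i ∈ A then X (vz n x i) else X (vw n x i))) * X (vu n x) ^ k

noncomputable abbrev Sg (x j : ℕ) (z : Om) : ℂ := Sf n (P.b n) (P.m n) (P.M n) x j z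
noncomputable abbrev Pg (x j : ℕ) (z : Om) : ℂ := Ps n (P.b n) (P.m n) (P.M n) x j z

theorem ev_X (v : ℕ) (z : Om) : ev z (X v) = ch v z := by simp [ev]
theorem ev_C (c : ℂ) (z : Om) : ev z (C c) = c := by simp [ev]

theorem ch_tau (x i : ℕ) (z : Om) : ch (vz n x i) (tau z) = ch (vz n x i) z * (ch (vw n x i) z)⁻¹ := by
  have h1 : ch (vw n x i) z * ch (vz n x i) (tau z) = ch (vz n x i) z := by
    unfold ch
    rw [tau_vz]
    have h2 : z (vz n x i) = z (vw n x i) + (z (vz n x i) - z (vw n x i)) := by abel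
    conv_rhs => rw [h2, AddCircle.toCircle_add]
    simp
  rw [← h1]
  have := ch_ne (vw n x i) z
  field_simp

theorem ev_Sp (x k : ℕ) (z : Om) : ev z (Sp P n x k) = Sg P n x (k + P.b n) z := by
  unfold Sp Sg Sf ee WW
  rw [map_mul, map_mul, ev_C, map_pow, ev_X, map_sum]
  have h1 : ((k + P.b n : ℕ) : ℤ) - P.b n = k := by push_cast; ring
  rw [h1, zpow_natCast]
  congr 1
  rw [mul_assoc]
  congr 1
  rw [mul_sum]
  apply sum_congr rfl
  intro A hA
  rw [mem_powersetCard] at hA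
  rw [map_prod]
  have h2 : ∀ i ∈ range (P.M n), ev z (if i ∈ A then X (vz n x i) else X (vw n x i)) =
      ch (vw n x i) z * (if i ∈ A then ch (vz n x i) (tau z) else 1) := by
    intro i _
    have := ch_ne (vw n x i) z
    split_ifs with h
    · rw [ev_X, ch_tau]; field_simp
    · rw [ev_X, mul_one]
  rw [prod_congr rfl h2, prod_mul_distrib, prod_ite_mem, inter_eq_right.mpr hA.1]

open Classical in
noncomputable def gm (κ : ℕ →₀ ℕ) : PP :=
  if (∀ i, n ≤ i → κ i = 0) then X (vr 0 n) * ∏ x ∈ range n, (C (vk P n (κ x)) * Sp P n x (κ x)) else 0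

noncomputable def gP : Module.End ℂ PP := (basisMonomials ℕ ℂ).constr ℂ (gm P n)

theorem constr_mo (g : (ℕ →₀ ℕ) → PP) (κ : ℕ →₀ ℕ) : ((basisMonomials ℕ ℂ).constr ℂ g : PP →ₗ[ℂ] PP) (mo κ) = g κ := by
  have := (basisMonomials ℕ ℂ).constr_basis ℂ g κ
  rw [coe_basisMonomials] at this
  exact this

theorem gP_mo (κ : ℕ →₀ ℕ) : gP P n (mo κ) = gm P n κ := constr_mo _ _

open Classical in
theorem ev_gm (κ : ℕ →₀ ℕ) (z : Om) : ev z (gm P n κ) =
    if (∀ i, n ≤ i → κ i = 0) then ch (vr 0 n) z * ∏ x ∈ range n, (vk P n (κ x) * Sg P n x (κ x + P.b n) z) else 0 := by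
  unfold gm
  split_ifs with h
  · rw [map_mul, map_prod, ev_X]
    congr 1
    apply prod_congr rfl
    intro x _
    rw [map_mul, ev_C, ev_Sp]
  · simp

/-- the kernel of the embedding -/
noncomputable def KG (q : Om × Om) : ℂ :=
  ch (vr 0 n) q.2 * ∏ x ∈ range n, gfac n (P.b n) (P.m n) (P.M n) (vv P n) x q.1 q.2

theorem continuous_KG : Continuous (KG P n) := by
  unfold KG
  exact ((continuous_ch _).comp continuous_snd).mul (continuous_finsetProd _ fun x _ => continuous_gfac _ _ _ _ _ _)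

theorem ev_gP (q : PP) (z : Om) : ev z (gP P n q) = ∫ ζ, ev ζ q * KG P n (ζ, z) ∂mu := by
  have hKc : Continuous fun ζ => KG P n (ζ, z) := (continuous_KG P n).comp (by fun_prop)
  have hI : ∀ q : PP, Integrable (fun ζ => ev ζ q * KG P n (ζ, z)) mu := fun q =>
    integrable_cont_Om ((continuous_ev q).mul hKc)
  induction q using mo_ind with
  | h0 κ =>
    rw [gP_mo, ev_gm]
    have e1 : ∀ ζ, ev ζ (mo κ) * KG P n (ζ, z) = (ev ζ (mo κ) * ch (vr 0 n) z) *
        ∏ x ∈ range n, ∑ j ∈ range (2 * P.b n + 1), (fun x j ζ => vv P n j * ch x ζ ^ ((P.b n : ℤ) - j) * Sg P n x j z) x j ζ := by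
      intro ζ
      unfold KG gfac
      ring
    simp_rw [e1]
    have g1 : ∀ x j, BM ((fun x j ζ => vv P n j * ch x ζ ^ ((P.b n : ℤ) - j) * Sg P n x j z) x j) := by
      intro x j
      apply BM.of_continuous
      exact (continuous_const.mul (continuous_ch_zpow _ _)).mul continuous_const
    have g2 : ∀ x j t ζ, (fun x j ζ => vv P n j * ch x ζ ^ ((P.b n : ℤ) - j) * Sg P n x j z) x j (ζ + (fun x t => (Pi.single x t : Om)) x t) =
        tc t ^ ((P.b n : ℤ) - j) * (fun x j ζ => vv P n j * ch x ζ ^ ((P.b n : ℤ) - j) * Sg P n x j z) x j ζ := by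
      intro x j t ζ
      simp only
      rw [ch_shift_eq, mul_zpow]
      ring
    have g3 : ∀ x y j t ζ, x ≠ y → (fun x j ζ => vv P n j * ch x ζ ^ ((P.b n : ℤ) - j) * Sg P n x j z) y j (ζ + (fun x t => (Pi.single x t : Om)) x t) =
        (fun x j ζ => vv P n j * ch x ζ ^ ((P.b n : ℤ) - j) * Sg P n x j z) y j ζ := by
      intro x y j t ζ hxy
      simp only
      rw [ch_shift_ne hxy.symm]
    have g4 : ∀ x, 2 * P.b n + 1 ≤ κ x + P.b n → ∀ ζ, (fun x j ζ => vv P n j * ch x ζ ^ ((P.b n : ℤ) - j) * Sg P n x j z) x (κ x + P.b n) ζ = 0 := by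
      intro x hx ζ
      simp only
      rw [vv_add, vk_zero P n _ (by omega)]
      ring
    have g5 : BM (fun ζ => ev ζ (mo κ) * ch (vr 0 n) z) := BM.of_continuous ((continuous_ev _).mul continuous_const)
    have g6 : ∀ x < n, ∀ t ζ, (fun ζ => ev ζ (mo κ) * ch (vr 0 n) z) (ζ + (fun x t => (Pi.single x t : Om)) x t) =
        tc t ^ ((fun x => κ x) x : ℤ) * (fun ζ => ev ζ (mo κ) * ch (vr 0 n) z) ζ := by
      intro x _ t ζ
      simp only
      rw [ev_single]
      ring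
    rw [orthE (P.b n) (fun x j ζ => vv P n j * ch x ζ ^ ((P.b n : ℤ) - j) * Sg P n x j z) g1
      (fun x t => Pi.single x t) g2 g3 (fun x => κ x) g4 n (fun ζ => ev ζ (mo κ) * ch (vr 0 n) z) g5 g6]
    · have e2 : ∀ ζ, (ev ζ (mo κ) * ch (vr 0 n) z) * ∏ x ∈ range n, (fun x j ζ => vv P n j *
          ch x ζ ^ ((P.b n : ℤ) - j) * Sg P n x j z) x (κ x + P.b n) ζ =
          (ch (vr 0 n) z * ∏ x ∈ range n, (vk P n (κ x) * Sg P n x (κ x + P.b n) z)) *
            (ev ζ (mo κ) * ∏ x ∈ range n, (ch x ζ ^ (κ x))⁻¹) := by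
        intro ζ
        have h1 : ∀ x, (fun x j ζ => vv P n j * ch x ζ ^ ((P.b n : ℤ) - j) * Sg P n x j z) x (κ x + P.b n) ζ =
            (vk P n (κ x) * Sg P n x (κ x + P.b n) z) * (ch x ζ ^ (κ x))⁻¹ := by
          intro x
          simp only
          rw [vv_add]
          have h2 : ch x ζ ^ ((P.b n : ℤ) - ((κ x + P.b n : ℕ) : ℤ)) = (ch x ζ ^ (κ x))⁻¹ := by
            rw [← zpow_natCast, ← zpow_neg]
            congr 1
            push_cast
            ring
          rw [h2]; ring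
        simp_rw [h1]
        rw [prod_mul_distrib]
        ring
      simp_rw [e2]
      rw [integral_const_mul]
      split_ifs with h
      · have h3 : ∀ ζ, ev ζ (mo κ) * ∏ x ∈ range n, (ch x ζ ^ (κ x))⁻¹ = 1 := by
          intro ζ
          have h4 : ev ζ (mo κ) = ∏ x ∈ range n, ch x ζ ^ (κ x) := by
            rw [ev_mo, Finsupp.prod]
            apply prod_subset
            · intro i hi
              rw [mem_range]
              by_contra h5
              exact (Finsupp.mem_support_iff.mp hi) (h i (not_lt.mp h5))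
            · intro i _ hi
              rw [Finsupp.notMem_support_iff.mp hi, pow_zero]
          rw [h4, ← prod_mul_distrib]
          apply prod_eq_one
          intro x _
          exact mul_inv_cancel₀ (pow_ne_zero _ (ch_ne _ _))
        simp_rw [h3]
        simp
      · push Not at h
        obtain ⟨i, hi, hκi⟩ := h
        have h3 : ∫ ζ, ev ζ (mo κ) * ∏ x ∈ range n, (ch x ζ ^ (κ x))⁻¹ ∂mu = 0 := by
          apply integral_zero_of_flow _ (fun t => Pi.single i t) (κ i) (by exact_mod_cast hκi)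
          intro t ζ
          rw [ev_single]
          have h4 : ∏ x ∈ range n, (ch x (ζ + Pi.single i t) ^ (κ x))⁻¹ = ∏ x ∈ range n, (ch x ζ ^ (κ x))⁻¹ := by
            apply prod_congr rfl
            intro x hx
            rw [mem_range] at hx
            rw [ch_shift_ne (by omega)]
          rw [h4]
          ring
        rw [h3, mul_zero]
  | hadd p q hp hq =>
    rw [map_add, map_add, hp, hq, ← integral_add (hI p) (hI q)]
    congr 1
    funext ζ
    rw [map_add]; ring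
  | hs c p hp =>
    rw [map_smul, map_smul, hp, smul_eq_mul, ← integral_const_mul]
    congr 1
    funext ζ
    rw [map_smul, smul_eq_mul]; ring

theorem gP_le (q : PP) : NN (gP P n q) ≤ 3 * NN q := by
  unfold NN
  simp_rw [ev_gP]
  obtain ⟨C, hC⟩ := (isCompact_range (continuous_KG P n)).isBounded.exists_norm_le
  have h1 := kernel_bound (fun ζ => ev ζ q) (integrable_ev q) (KG P n) (continuous_KG P n).stronglyMeasurable C
    (fun p => hC _ ⟨p, rfl⟩) ((1 + 1 / ((n : ℝ) + 1)) ^ n) ?_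
  · refine h1.trans ?_
    exact mul_le_mul_of_nonneg_right (cst_pow n) (integral_nonneg fun _ => norm_nonneg _)
  · intro ζ
    have h2 := gker_bound n (P.b n) (P.m n) (P.M n) (vv P n) (1 + 1 / ((n : ℝ) + 1)) (by positivity) (P.hg n) ζ n
    refine le_trans (le_of_eq ?_) h2
    congr 1
    funext z
    unfold KG
    rw [norm_mul, norm_ch, one_mul]

noncomputable def am (κ : ℕ →₀ ℕ) : PP :=
  ((∏ x ∈ range n, vk P n (κ (vu n x))) *
    ∫ ζ, ev ζ (mo κ) * (starRingEnd ℂ) (ch (vr 0 n) ζ) * ∏ x ∈ range n, Pg P n x (κ (vu n x) + P.b n) ζ ∂mu) •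
    ∏ x ∈ range n, X x ^ κ (vu n x)

noncomputable def aP : Module.End ℂ PP := (basisMonomials ℕ ℂ).constr ℂ (am P n)

theorem aP_mo (κ : ℕ →₀ ℕ) : aP P n (mo κ) = am P n κ := constr_mo _ _

/-- the kernel of the projection -/
noncomputable def KA (q : Om × Om) : ℂ :=
  (starRingEnd ℂ) (ch (vr 0 n) q.1) * ∏ x ∈ range n, afac n (P.b n) (P.m n) (P.M n) (vv P n) x q.1 q.2

theorem measurable_KA : Measurable (KA P n) := by
  unfold KA
  refine Measurable.mul ?_ ?_
  · exact (Complex.continuous_conj.measurable.comp (continuous_ch _).measurable).comp measurable_fst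
  · exact Finset.measurable_fun_prod _ fun x _ => measurable_afac _ _ _ _ _ _

theorem KA_bdd : ∃ C : ℝ, ∀ q, ‖KA P n q‖ ≤ C := by
  refine ⟨∏ x ∈ range n, ∑ j ∈ range (2 * P.b n + 1), ‖vv P n j‖, fun q => ?_⟩
  unfold KA
  rw [norm_mul, RCLike.norm_conj, norm_ch, one_mul, norm_prod]
  exact prod_le_prod (fun _ _ => norm_nonneg _) fun x _ => afac_bdd _ _ _ _ _ _ _ _

theorem tau_vu (x : ℕ) (t : TT) (ζ : Om) (y i : ℕ) : tau (ζ + Pi.single (vu n x) t) (vz n y i) = tau ζ (vz n y i) := by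
  rw [tau_vz, tau_vz, Pi.add_apply, Pi.add_apply, Pi.single_eq_of_ne, Pi.single_eq_of_ne]
  · simp
  · simp [vw, vu, Nat.pair_eq_pair]
  · simp [vz, vu, Nat.pair_eq_pair]

theorem WW_vu (M : ℕ) (x : ℕ) (t : TT) (ζ : Om) (y : ℕ) : WW n M y (ζ + Pi.single (vu n x) t) = WW n M y ζ := by
  unfold WW
  apply prod_congr rfl
  intro i _
  rw [ch_shift_ne]
  simp [vw, vu, Nat.pair_eq_pair]

theorem vu_ne {x y : ℕ} (h : x ≠ y) : vu n y ≠ vu n x := by
  simp only [vu, ne_eq, Nat.pair_eq_pair, true_and]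
  exact fun h' => h h'.symm

theorem Ps_same (x j : ℕ) (t : TT) (ζ : Om) :
    Pg P n x j (ζ + Pi.single (vu n x) t) = tc t ^ ((P.b n : ℤ) - j) * Pg P n x j ζ := by
  unfold Pg Ps
  rw [WW_vu, om_congr _ _ (tau_vu n x t ζ x), ch_shift_eq, mul_zpow, map_mul, map_mul, map_mul, map_mul, map_mul,
    map_zpow₀, conj_tc, inv_zpow', neg_sub]
  ring

theorem Ps_ne (x y j : ℕ) (h : x ≠ y) (t : TT) (ζ : Om) :
    Pg P n y j (ζ + Pi.single (vu n x) t) = Pg P n y j ζ := by
  unfold Pg Ps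
  rw [WW_vu, om_congr _ _ (tau_vu n x t ζ y), ch_shift_ne (vu_ne n h)]

theorem Sf_same (x j : ℕ) (t : TT) (ζ : Om) :
    Sg P n x j (ζ + Pi.single (vu n x) t) = tc t ^ ((j : ℤ) - P.b n) * Sg P n x j ζ := by
  unfold Sg Sf
  rw [WW_vu, ee_congr _ _ _ (tau_vu n x t ζ x), ch_shift_eq, mul_zpow]
  ring

theorem Sf_ne (x y j : ℕ) (h : x ≠ y) (t : TT) (ζ : Om) :
    Sg P n y j (ζ + Pi.single (vu n x) t) = Sg P n y j ζ := by
  unfold Sg Sf
  rw [WW_vu, ee_congr _ _ _ (tau_vu n x t ζ y), ch_shift_ne (vu_ne n h)]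

theorem vr_vu (c k x : ℕ) : vr c k ≠ vu n x := by
  simp [vr, vu, Nat.pair_eq_pair]

/-- The expansion of the kernel of the projection against a homogeneous function. -/
theorem KA_exp (F : Om → ℂ) (hF : BM F) (d : ℕ → ℕ)
    (hd : ∀ x < n, ∀ t ζ, F (ζ + Pi.single (vu n x) t) = tc t ^ (d x : ℤ) * F ζ) (z : Om) :
    ∫ ζ, F ζ * KA P n (ζ, z) ∂mu = (∏ x ∈ range n, (vk P n (d x) * ch x z ^ (d x))) *
      ∫ ζ, F ζ * (starRingEnd ℂ) (ch (vr 0 n) ζ) * ∏ x ∈ range n, Pg P n x (d x + P.b n) ζ ∂mu := by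
  have e1 : ∀ ζ, F ζ * KA P n (ζ, z) = (F ζ * (starRingEnd ℂ) (ch (vr 0 n) ζ)) *
      ∏ x ∈ range n, ∑ j ∈ range (2 * P.b n + 1), (fun x j ζ => vv P n j * ch x z ^ ((j : ℤ) - P.b n) * Pg P n x j ζ) x j ζ := by
    intro ζ
    unfold KA afac
    ring
  simp_rw [e1]
  have g1 : ∀ x j, BM ((fun x j ζ => vv P n j * ch x z ^ ((j : ℤ) - P.b n) * Pg P n x j ζ) x j) := by
    intro x j
    exact (BM.const _).mul (BM_Ps _ _ _ _ _ _)
  have g2 : ∀ x j t ζ, (fun x j ζ => vv P n j * ch x z ^ ((j : ℤ) - P.b n) * Pg P n x j ζ) x j (ζ + (fun x t => (Pi.single (vu n x) t : Om)) x t) =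
      tc t ^ ((P.b n : ℤ) - j) * (fun x j ζ => vv P n j * ch x z ^ ((j : ℤ) - P.b n) * Pg P n x j ζ) x j ζ := by
    intro x j t ζ
    simp only
    rw [Ps_same]
    ring
  have g3 : ∀ x y j t ζ, x ≠ y → (fun x j ζ => vv P n j * ch x z ^ ((j : ℤ) - P.b n) * Pg P n x j ζ) y j (ζ + (fun x t => (Pi.single (vu n x) t : Om)) x t) =
      (fun x j ζ => vv P n j * ch x z ^ ((j : ℤ) - P.b n) * Pg P n x j ζ) y j ζ := by
    intro x y j t ζ hxy
    simp only
    rw [Ps_ne P n x y j hxy]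
  have g4 : ∀ x, 2 * P.b n + 1 ≤ d x + P.b n → ∀ ζ, (fun x j ζ => vv P n j * ch x z ^ ((j : ℤ) - P.b n) * Pg P n x j ζ) x (d x + P.b n) ζ = 0 := by
    intro x hx ζ
    simp only
    rw [vv_add, vk_zero P n _ (by omega)]
    ring
  have g5 : BM (fun ζ => F ζ * (starRingEnd ℂ) (ch (vr 0 n) ζ)) :=
    hF.mul (BM.of_continuous (Complex.continuous_conj.comp (continuous_ch _)))
  have g6 : ∀ x < n, ∀ t ζ, (fun ζ => F ζ * (starRingEnd ℂ) (ch (vr 0 n) ζ)) (ζ + (fun x t => (Pi.single (vu n x) t : Om)) x t) =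
      tc t ^ (d x : ℤ) * (fun ζ => F ζ * (starRingEnd ℂ) (ch (vr 0 n) ζ)) ζ := by
    intro x hx t ζ
    simp only
    rw [hd x hx, ch_shift_ne (vr_vu n 0 n x)]
    ring
  rw [orthE (P.b n) (fun x j ζ => vv P n j * ch x z ^ ((j : ℤ) - P.b n) * Pg P n x j ζ) g1
      (fun x t => Pi.single (vu n x) t) g2 g3 d g4 n (fun ζ => F ζ * (starRingEnd ℂ) (ch (vr 0 n) ζ)) g5 g6]
  · rw [← integral_const_mul]
    congr 1
    funext ζ
    have h1 : ∀ x, (fun x j ζ => vv P n j * ch x z ^ ((j : ℤ) - P.b n) * Pg P n x j ζ) x (d x + P.b n) ζ =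
        (vk P n (d x) * ch x z ^ (d x)) * Pg P n x (d x + P.b n) ζ := by
      intro x
      simp only
      rw [vv_add]
      congr 2
      rw [← zpow_natCast]
      congr 1
      push_cast
      ring
    simp_rw [h1]
    rw [prod_mul_distrib]
    ring

theorem BM_KA (z : Om) : BM fun ζ => KA P n (ζ, z) := by
  obtain ⟨C, hC⟩ := KA_bdd P n
  exact ⟨(measurable_KA P n).comp (by fun_prop), C, fun ζ => hC _⟩

theorem ev_aP (q : PP) (z : Om) : ev z (aP P n q) = ∫ ζ, ev ζ q * KA P n (ζ, z) ∂mu := by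
  have hI : ∀ q : PP, Integrable (fun ζ => ev ζ q * KA P n (ζ, z)) mu := fun q =>
    ((BM.of_continuous (continuous_ev q)).mul (BM_KA P n z)).integrable
  induction q using mo_ind with
  | h0 κ =>
    rw [aP_mo, KA_exp P n (fun ζ => ev ζ (mo κ)) (BM.of_continuous (continuous_ev _)) (fun x => κ (vu n x))
      (fun x _ t ζ => ev_single _ _ _ _) z]
    unfold am
    rw [map_smul, smul_eq_mul, map_prod]
    simp_rw [map_pow, ev_X]
    rw [prod_mul_distrib]
    ring
  | hadd p q hp hq =>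
    rw [map_add, map_add, hp, hq, ← integral_add (hI p) (hI q)]
    congr 1
    funext ζ
    rw [map_add]; ring
  | hs c p hp =>
    rw [map_smul, map_smul, hp, smul_eq_mul, ← integral_const_mul]
    congr 1
    funext ζ
    rw [map_smul, smul_eq_mul]; ring

theorem aP_le (q : PP) : NN (aP P n q) ≤ 3 * NN q := by
  unfold NN
  simp_rw [ev_aP]
  obtain ⟨C, hC⟩ := KA_bdd P n
  have h1 := kernel_bound (fun ζ => ev ζ q) (integrable_ev q) (KA P n) (measurable_KA P n).stronglyMeasurable C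
    hC ((1 + 1 / ((n : ℝ) + 1)) ^ n) ?_
  · refine h1.trans ?_
    exact mul_le_mul_of_nonneg_right (cst_pow n) (integral_nonneg fun _ => norm_nonneg _)
  · intro ζ
    have h2 := aker_bound n (P.b n) (P.m n) (P.M n) (vv P n) (P.hm n) (1 + 1 / ((n : ℝ) + 1)) (by positivity) (P.ha n) ζ n
    refine le_trans (le_of_eq ?_) h2
    congr 1
    funext z
    unfold KA
    rw [norm_mul, RCLike.norm_conj, norm_ch, one_mul]

open Classical in
/-- the multipliers -/
noncomputable def tm (κ : ℕ →₀ ℕ) : ℂ := if (∀ i, n ≤ i → κ i = 0) then ∏ x ∈ range n, vk P n (κ x) ^ 2 else 0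

noncomputable def TP : Module.End ℂ PP := dg (tm P n)

theorem ag_eq : aP P n * gP P n = TP P n := by
  apply lin_ext
  intro κ
  rw [Module.End.mul_apply, gP_mo]
  unfold TP
  rw [dg_mo]
  apply ev_inj
  intro z
  rw [ev_aP, map_smul, smul_eq_mul]
  simp_rw [ev_gm]
  unfold tm
  split_ifs with h
  · rw [KA_exp P n (fun ζ => ch (vr 0 n) ζ * ∏ x ∈ range n, (vk P n (κ x) * Sg P n x (κ x + P.b n) ζ)) _ (fun x => κ x) _ z]
    · have h4 : ev z (mo κ) = ∏ x ∈ range n, ch x z ^ (κ x) := by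
        rw [ev_mo, Finsupp.prod]
        apply prod_subset
        · intro i hi
          rw [mem_range]
          by_contra h5
          exact (Finsupp.mem_support_iff.mp hi) (h i (not_lt.mp h5))
        · intro i _ hi
          rw [Finsupp.notMem_support_iff.mp hi, pow_zero]
      have e1 : ∀ ζ, ch (vr 0 n) ζ * (∏ x ∈ range n, (vk P n (κ x) * Sg P n x (κ x + P.b n) ζ)) *
          (starRingEnd ℂ) (ch (vr 0 n) ζ) * ∏ x ∈ range n, Pg P n x (κ x + P.b n) ζ =
          (∏ x ∈ range n, vk P n (κ x)) * ∏ x ∈ range n, (Sg P n x (κ x + P.b n) ζ * Pg P n x (κ x + P.b n) ζ) := by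
        intro ζ
        rw [prod_mul_distrib, prod_mul_distrib]
        have := conj_ch (vr 0 n) ζ
        linear_combination (∏ x ∈ range n, vk P n (κ x)) * (∏ x ∈ range n, Sg P n x (κ x + P.b n) ζ) *
          (∏ x ∈ range n, Pg P n x (κ x + P.b n) ζ) * this
      simp_rw [e1]
      rw [integral_const_mul, h4, prod_mul_distrib]
      by_cases hb : ∀ x < n, κ x < P.b n
      · rw [pair_int n (P.b n) (P.m n) (P.M n) (fun x => κ x + P.b n) n
          (fun x hx => P.hlam n x _ (by have := hb x hx; omega))]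
        simp_rw [sq]
        rw [prod_mul_distrib]
        ring
      · push Not at hb
        obtain ⟨x, hx, hκx⟩ := hb
        have h5 : ∏ x ∈ range n, vk P n (κ x) = 0 := prod_eq_zero (mem_range.mpr hx) (vk_zero P n _ hκx)
        simp_rw [sq]
        rw [prod_mul_distrib, h5]
        ring
    · apply BM.of_continuous
      exact (continuous_ch _).mul (continuous_finsetProd _ fun x _ => continuous_const.mul (continuous_Sf _ _ _ _ _ _))
    · intro x hx t ζ
      rw [ch_shift_ne (vr_vu n 0 n x)]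
      rw [← mul_prod_erase (range n) _ (mem_range.mpr hx), ← mul_prod_erase (range n) _ (mem_range.mpr hx), Sf_same]
      have h1 : ∏ y ∈ (range n).erase x, (vk P n (κ y) * Sg P n y (κ y + P.b n) (ζ + Pi.single (vu n x) t)) =
          ∏ y ∈ (range n).erase x, (vk P n (κ y) * Sg P n y (κ y + P.b n) ζ) := by
        apply prod_congr rfl
        intro y hy
        rw [mem_erase] at hy
        rw [Sf_ne P n x y _ hy.1.symm]
      rw [h1]
      have h2 : ((κ x + P.b n : ℕ) : ℤ) - P.b n = κ x := by push_cast; ring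
      rw [h2]
      ring
  · simp

end ops

end Pool.Agent.H155R3
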