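import Pool.Agent.H155R3.K4

set_option autoImplicit false
set_option linter.all false

/-!
# The blocks inside the space
-/

namespace Pool.Agent.H155R3

open MeasureTheory Finset MvPolynomial

theorem weight_add (f g : ℕ → ℤ) (κ : ℕ →₀ ℕ) :
    Finsupp.weight (fun v => f v + g v) κ = Finsupp.weight f κ + Finsupp.weight g κ := by
  simp only [Finsupp.weight_apply, Finsupp.sum, smul_add, sum_add_distrib]

theorem weight_mul (c : ℤ) (f : ℕ → ℤ) (κ : ℕ →₀ ℕ) :
    Finsupp.weight (fun v => c * f v) κ = c * Finsupp.weight f κ := by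
  simp only [Finsupp.weight_apply, Finsupp.sum, mul_sum, nsmul_eq_mul]
  apply sum_congr rfl
  intro i _
  ring

theorem weight_sum {ι : Type*} (s : Finset ι) (f : ι → ℕ → ℤ) (κ : ℕ →₀ ℕ) :
    Finsupp.weight (fun v => ∑ i ∈ s, f i v) κ = ∑ i ∈ s, Finsupp.weight (f i) κ := by
  simp only [Finsupp.weight_apply, Finsupp.sum, smul_sum]
  rw [sum_comm]

theorem weight_ind (v : ℕ) (κ : ℕ →₀ ℕ) : Finsupp.weight (fun u => if u = v then (1 : ℤ) else 0) κ = κ v := by
  rw [Finsupp.weight_apply, Finsupp.sum]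
  simp
  intro h; rw [h]; simp

/-- the variables of block `n` -/
def Inn (M : ℕ → ℕ) (c n v : ℕ) : Prop :=
  v = vr c n ∨ (∃ x < n, ∃ i < M n, v = vz n x i ∨ v = vw n x i) ∨ (∃ x < n, v = vu n x)

section

variable (P : Par)

/-- the exponents of block `n` -/
structure Ga (c n : ℕ) (κ : ℕ →₀ ℕ) : Prop where
  h1 : κ (vr c n) = 1
  h2 : ∀ x < n, ∀ i < P.M n, κ (vz n x i) + κ (vw n x i) = 1
  h3 : ∀ x < n, ∑ i ∈ range (P.M n), κ (vz n x i) = (2 * P.m n + P.b n) + κ (vu n x)
  h4 : ∀ v, ¬ Inn P.M c n v → κ v = 0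

/-- union of blocks -/
def GT (c : ℕ) (T : ℕ → Prop) (κ : ℕ →₀ ℕ) : Prop := ∃ n, T n ∧ Ga P c n κ

theorem Inn_vr {M : ℕ → ℕ} {c n c' n' : ℕ} (h : Inn M c n (vr c' n')) : c' = c ∧ n' = n := by
  rcases h with h | ⟨x, _, i, _, h | h⟩ | ⟨x, _, h⟩
  · simpa [vr, Nat.pair_eq_pair] using h
  · simp [vr, vz, Nat.pair_eq_pair] at h
  · simp [vr, vw, Nat.pair_eq_pair] at h
  · simp [vr, vu, Nat.pair_eq_pair] at h

theorem Inn_vz {M : ℕ → ℕ} {c n n' x i : ℕ} (h : Inn M c n (vz n' x i)) : n' = n ∧ x < n ∧ i < M n := by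
  rcases h with h | ⟨y, hy, j, hj, h | h⟩ | ⟨y, _, h⟩
  · simp [vr, vz, Nat.pair_eq_pair] at h
  · simp [vz, Nat.pair_eq_pair] at h
    obtain ⟨rfl, rfl, rfl⟩ := h
    exact ⟨rfl, hy, hj⟩
  · simp [vz, vw, Nat.pair_eq_pair] at h
  · simp [vz, vu, Nat.pair_eq_pair] at h

theorem Inn_vw {M : ℕ → ℕ} {c n n' x i : ℕ} (h : Inn M c n (vw n' x i)) : n' = n ∧ x < n ∧ i < M n := by
  rcases h with h | ⟨y, hy, j, hj, h | h⟩ | ⟨y, _, h⟩
  · simp [vr, vw, Nat.pair_eq_pair] at h
  · simp [vz, vw, Nat.pair_eq_pair] at h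
  · simp [vw, Nat.pair_eq_pair] at h
    obtain ⟨rfl, rfl, rfl⟩ := h
    exact ⟨rfl, hy, hj⟩
  · simp [vw, vu, Nat.pair_eq_pair] at h

theorem Inn_vu {M : ℕ → ℕ} {c n n' x : ℕ} (h : Inn M c n (vu n' x)) : n' = n ∧ x < n := by
  rcases h with h | ⟨y, hy, j, hj, h | h⟩ | ⟨y, hy, h⟩
  · simp [vr, vu, Nat.pair_eq_pair] at h
  · simp [vz, vu, Nat.pair_eq_pair] at h
  · simp [vw, vu, Nat.pair_eq_pair] at h
  · simp [vu, Nat.pair_eq_pair] at h
    obtain ⟨rfl, rfl⟩ := h
    exact ⟨rfl, hy⟩

theorem Ga_vr {c n : ℕ} {κ : ℕ →₀ ℕ} (h : Ga P c n κ) (n' : ℕ) : κ (vr c n') = if n' = n then 1 else 0 := by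
  split_ifs with h1
  · rw [h1]; exact h.h1
  · exact h.h4 _ fun h2 => h1 (Inn_vr h2).2

theorem Ga_disj {c n c' n' : ℕ} {κ : ℕ →₀ ℕ} (h : Ga P c n κ) (h' : Ga P c' n' κ) : c = c' ∧ n = n' := by
  by_contra hne
  have h1 := h'.h4 (vr c n) fun h2 => hne (Inn_vr h2)
  rw [h.h1] at h1
  exact one_ne_zero h1

open Classical in
theorem GT_sep (c : ℕ) (T : ℕ → Prop) (κ : ℕ →₀ ℕ) (hκ : ¬ GT P c T κ) :
    ∃ (wt : ℕ → ℤ) (k : ℤ), (∀ κ', GT P c T κ' → Finsupp.weight wt κ' = k) ∧ Finsupp.weight wt κ ≠ k := by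
  by_cases hA : ∃ v, (∀ n, T n → ¬ Inn P.M c n v) ∧ κ v ≠ 0
  · obtain ⟨v, hv, hκv⟩ := hA
    refine ⟨fun u => if u = v then (1 : ℤ) else 0, 0, ?_, ?_⟩
    · rintro κ' ⟨n, hn, hG⟩
      rw [weight_ind, hG.h4 v (hv n hn)]
      rfl
    · rw [weight_ind]
      exact_mod_cast hκv
  by_cases hB : Finsupp.weight (fun u => if ∃ n, u = vr c n then (1 : ℤ) else 0) κ = 1
  swap
  · refine ⟨_, 1, ?_, hB⟩
    rintro κ' ⟨n, hn, hG⟩
    rw [Finsupp.weight_apply, Finsupp.sum, sum_eq_single (vr c n)]
    · rw [if_pos ⟨n, rfl⟩, hG.h1]; simp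
    · intro v hv hne
      rw [if_neg, smul_zero]
      rintro ⟨n', rfl⟩
      have h1 := Ga_vr P hG n'
      rw [if_neg (fun h => hne (by rw [h]))] at h1
      exact (Finsupp.mem_support_iff.mp hv) h1
    · intro h
      rw [Finsupp.notMem_support_iff.mp h, zero_smul]
  -- exactly one r-variable
  have hr : ∃ n, κ (vr c n) = 1 ∧ ∀ n', n' ≠ n → κ (vr c n') = 0 := by
    rw [Finsupp.weight_apply, Finsupp.sum] at hB
    have hnn : ∀ v ∈ κ.support, 0 ≤ κ v • (if ∃ n, v = vr c n then (1 : ℤ) else 0) := by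
      intro v _
      split_ifs <;> simp
    have hex : ∃ n, κ (vr c n) ≠ 0 := by
      by_contra h
      push Not at h
      have : ∑ v ∈ κ.support, κ v • (if ∃ n, v = vr c n then (1 : ℤ) else 0) = 0 := by
        apply sum_eq_zero
        intro v hv
        rw [if_neg, smul_zero]
        rintro ⟨n, rfl⟩
        exact (Finsupp.mem_support_iff.mp hv) (h n)
      omega
    obtain ⟨n, hn⟩ := hex
    have hle : ∀ n', n' ≠ n → (κ (vr c n) : ℤ) + κ (vr c n') ≤ 1 := by
      intro n' hne
      have hsub : ∑ v ∈ {vr c n, vr c n'}, κ v • (if ∃ n, v = vr c n then (1 : ℤ) else 0) ≤ 1 := by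
        by_cases h0 : κ (vr c n') = 0
        · rw [sum_pair (fun h => hne (by simpa [vr, Nat.pair_eq_pair] using h.symm)), h0]
          refine le_trans ?_ (le_of_eq hB)
          have := single_le_sum hnn (Finsupp.mem_support_iff.mpr hn)
          simpa using this
        · refine le_trans ?_ (le_of_eq hB)
          apply sum_le_sum_of_subset_of_nonneg
          · intro v hv
            simp only [mem_insert, mem_singleton] at hv
            rcases hv with rfl | rfl
            · exact Finsupp.mem_support_iff.mpr hn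
            · exact Finsupp.mem_support_iff.mpr h0
          · intro v hv _
            exact hnn v hv
      rw [sum_pair (fun h => hne (by simpa [vr, Nat.pair_eq_pair] using h.symm)), if_pos ⟨n, rfl⟩, if_pos ⟨n', rfl⟩] at hsub
      simpa using hsub
    have h1 : 1 ≤ κ (vr c n) := Nat.one_le_iff_ne_zero.mpr hn
    have h2 := hle (n + 1) (by omega)
    refine ⟨n, by omega, ?_⟩
    intro n' hne
    have := hle n' hne
    omega
  obtain ⟨n, hn1, hn0⟩ := hr
  have hTn : T n := by
    by_contra h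
    apply hA
    refine ⟨vr c n, ?_, by rw [hn1]; exact one_ne_zero⟩
    intro n' hT h2
    have := (Inn_vr h2).2
    rw [this] at h
    exact h hT
  by_cases hC : ∃ n', ∃ x < n', ∃ i < P.M n', κ (vz n' x i) + κ (vw n' x i) ≠ κ (vr c n')
  · obtain ⟨n', x, hx, i, hi, hne⟩ := hC
    refine ⟨fun v => ((if v = vz n' x i then (1 : ℤ) else 0) + (if v = vw n' x i then (1 : ℤ) else 0)) +
      (-1) * (if v = vr c n' then (1 : ℤ) else 0), 0, ?_, ?_⟩
    · rintro κ' ⟨n'', hT, hG⟩
      rw [weight_add, weight_add, weight_mul, weight_ind, weight_ind, weight_ind]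
      by_cases h : n' = n''
      · subst h
        have h1 := hG.h2 x hx i hi
        have h2 := hG.h1
        omega
      · have h1 := hG.h4 (vz n' x i) fun h' => h (Inn_vz h').1
        have h2 := hG.h4 (vw n' x i) fun h' => h (Inn_vw h').1
        have h3 := hG.h4 (vr c n') fun h' => h (Inn_vr h').2
        omega
    · rw [weight_add, weight_add, weight_mul, weight_ind, weight_ind, weight_ind]
      omega
  by_cases hD : ∃ n', ∃ x < n', (∑ i ∈ range (P.M n'), κ (vz n' x i)) ≠ (2 * P.m n' + P.b n') * κ (vr c n') + κ (vu n' x)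
  · obtain ⟨n', x, hx, hne⟩ := hD
    refine ⟨fun v => ((∑ i ∈ range (P.M n'), (if v = vz n' x i then (1 : ℤ) else 0)) +
      (-1) * (if v = vu n' x then (1 : ℤ) else 0)) +
      (-(2 * P.m n' + P.b n' : ℤ)) * (if v = vr c n' then (1 : ℤ) else 0), 0, ?_, ?_⟩
    · rintro κ' ⟨n'', hT, hG⟩
      rw [weight_add, weight_add, weight_mul, weight_mul, weight_sum, weight_ind, weight_ind]
      simp_rw [weight_ind]
      by_cases h : n' = n''
      · subst h
        have h1 := hG.h3 x hx
        have h2 := hG.h1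
        rw [h2]
        have h3 : (∑ i ∈ range (P.M n'), (κ' (vz n' x i) : ℤ)) = (2 * P.m n' + P.b n') + κ' (vu n' x) := by
          exact_mod_cast h1
        rw [h3]
        push_cast
        ring
      · have h1 : ∑ i ∈ range (P.M n'), (κ' (vz n' x i) : ℤ) = 0 := by
          apply sum_eq_zero
          intro i _
          rw [hG.h4 (vz n' x i) fun h' => h (Inn_vz h').1]
          rfl
        have h2 := hG.h4 (vu n' x) fun h' => h (Inn_vu h').1
        have h3 := hG.h4 (vr c n') fun h' => h (Inn_vr h').2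
        rw [h1, h2, h3]
        simp
    · rw [weight_add, weight_add, weight_mul, weight_mul, weight_sum, weight_ind, weight_ind]
      simp_rw [weight_ind]
      intro h
      apply hne
      have h4 : (∑ i ∈ range (P.M n'), (κ (vz n' x i) : ℤ)) = (2 * P.m n' + P.b n') * κ (vr c n') + κ (vu n' x) := by
        linarith
      exact_mod_cast h4
  exfalso
  push Not at hA hC hD
  apply hκ
  refine ⟨n, hTn, ⟨hn1, ?_, ?_, ?_⟩⟩
  · intro x hx i hi
    rw [hC n x hx i hi, hn1]
  · intro x hx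
    rw [hD n x hx, hn1, mul_one]
  · intro v hv
    by_contra h0
    have h1 : ∃ n', T n' ∧ Inn P.M c n' v := by
      by_contra h2
      push Not at h2
      exact h0 (hA v h2)
    obtain ⟨n', hT, hI⟩ := h1
    have hne : n' ≠ n := by
      rintro rfl
      exact hv hI
    have hr0 := hn0 n' hne
    rcases hI with rfl | ⟨x, hx, i, hi, rfl | rfl⟩ | ⟨x, hx, rfl⟩
    · exact h0 hr0
    · have := hC n' x hx i hi
      omega
    · have := hC n' x hx i hi
      omega
    · have h3 := hD n' x hx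
      have h4 : ∑ i ∈ range (P.M n'), κ (vz n' x i) = 0 := by
        apply sum_eq_zero
        intro i hi
        have := hC n' x hx i (mem_range.mp hi)
        omega
      rw [h4, hr0] at h3
      omega

theorem GT_le (c : ℕ) (T : ℕ → Prop) (p : PP) : NN (res (GT P c T) p) ≤ NN p := res_le _ (GT_sep P c T) p

/-- block projections -/
noncomputable def eo (c n : ℕ) : Module.End ℂ PP := res (Ga P c n)

theorem eo_eq (c n : ℕ) : eo P c n = res (GT P c fun k => k = n) := by
  apply res_congr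
  intro κ
  constructor
  · intro h; exact ⟨n, rfl, h⟩
  · rintro ⟨k, rfl, h⟩; exact h

theorem eo_le (c n : ℕ) (p : PP) : NN (eo P c n p) ≤ NN p := by
  rw [eo_eq]; exact GT_le P c _ p

noncomputable def Fo (n : ℕ) : Module.End ℂ PP := res (GT P 0 fun k => k < n) + res (GT P 1 fun k => k < n)

noncomputable def cho : Module.End ℂ PP := 1 - (res (GT P 0 fun _ => True) + res (GT P 1 fun _ => True))

theorem res_sub_left {Γ Δ : (ℕ →₀ ℕ) → Prop} (h : ∀ κ, Δ κ → Γ κ) : res Γ * res Δ = res Δ := by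
  rw [res_mul]
  exact res_congr fun κ => ⟨fun h1 => h1.2, fun h1 => ⟨h κ h1, h1⟩⟩

theorem res_sub_right {Γ Δ : (ℕ →₀ ℕ) → Prop} (h : ∀ κ, Δ κ → Γ κ) : res Δ * res Γ = res Δ := by
  rw [res_mul]
  exact res_congr fun κ => ⟨fun h1 => h1.1, fun h1 => ⟨h1, h κ h1⟩⟩

theorem res_disj {Γ Δ : (ℕ →₀ ℕ) → Prop} (h : ∀ κ, Γ κ → Δ κ → False) : res Γ * res Δ = 0 := by
  rw [res_mul]
  exact res_empty fun κ h1 => h κ h1.1 h1.2

theorem GT_disj {T T' : ℕ → Prop} {κ : ℕ →₀ ℕ} {c c' : ℕ} (hc : c ≠ c') (h : GT P c T κ) (h' : GT P c' T' κ) : False := by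
  obtain ⟨n, _, h1⟩ := h
  obtain ⟨n', _, h2⟩ := h'
  exact hc (Ga_disj P h1 h2).1

theorem eo_idem (c n : ℕ) : eo P c n * eo P c n = eo P c n := res_sub_left fun _ h => h

theorem eo_orth {c n c' n' : ℕ} (h : ¬ (c = c' ∧ n = n')) : eo P c n * eo P c' n' = 0 :=
  res_disj fun _ h1 h2 => h (Ga_disj P h1 h2)

theorem cho_res {c : ℕ} (hc : c = 0 ∨ c = 1) (T : ℕ → Prop) : cho P * res (GT P c T) = 0 := by
  unfold cho
  have hsub : ∀ κ, GT P c T κ → GT P c (fun _ => True) κ := fun κ ⟨n, _, h⟩ => ⟨n, trivial, h⟩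
  rcases hc with rfl | rfl
  · rw [sub_mul, one_mul, add_mul, res_sub_left hsub, res_disj (Γ := GT P 1 fun _ => True) (fun _ h1 h2 => GT_disj P (by norm_num) h1 h2)]
    simp
  · rw [sub_mul, one_mul, add_mul, res_sub_left hsub, res_disj (Γ := GT P 0 fun _ => True) (fun _ h1 h2 => GT_disj P (by norm_num) h1 h2)]
    simp

theorem res_comm (Γ : (ℕ →₀ ℕ) → Prop) (m : (ℕ →₀ ℕ) → ℂ) : res Γ * dg m = dg m * res Γ := by
  unfold res
  rw [dg_mul, dg_mul]
  congr 1
  funext κ
  ring

theorem cho_comm (m : (ℕ →₀ ℕ) → ℂ) : cho P * dg m = dg m * cho P := by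
  unfold cho
  rw [sub_mul, mul_sub, add_mul, mul_add, res_comm, res_comm, one_mul, mul_one]

theorem res_cho {c : ℕ} (hc : c = 0 ∨ c = 1) (T : ℕ → Prop) : res (GT P c T) * cho P = 0 := by
  have := cho_comm P (fun κ => open Classical in if GT P c T κ then 1 else 0)
  unfold res
  rw [← this]
  exact cho_res P hc T

theorem cho_eo {c : ℕ} (hc : c = 0 ∨ c = 1) (n : ℕ) : cho P * eo P c n = 0 := by
  rw [eo_eq]; exact cho_res P hc _

theorem eo_cho {c : ℕ} (hc : c = 0 ∨ c = 1) (n : ℕ) : eo P c n * cho P = 0 := by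
  rw [eo_eq]; exact res_cho P hc _

theorem cho_Fo (n : ℕ) : cho P * Fo P n = 0 := by
  unfold Fo
  rw [mul_add, cho_res P (Or.inl rfl), cho_res P (Or.inr rfl), add_zero]

theorem Fo_cho (n : ℕ) : Fo P n * cho P = 0 := by
  unfold Fo
  rw [add_mul, res_cho P (Or.inl rfl), res_cho P (Or.inr rfl), add_zero]

theorem cho_idem : cho P * cho P = cho P := by
  calc cho P * cho P = (1 - (res (GT P 0 fun _ => True) + res (GT P 1 fun _ => True))) * cho P := rfl
    _ = cho P := by
        rw [sub_mul, one_mul, add_mul, res_cho P (Or.inl rfl), res_cho P (Or.inr rfl)]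
        simp

theorem cho_le (p : PP) : NN (cho P p) ≤ 3 * NN p := by
  unfold cho
  rw [LinearMap.sub_apply, LinearMap.add_apply, Module.End.one_apply]
  have h1 := NN_sub p (res (GT P 0 fun _ => True) p + res (GT P 1 fun _ => True) p)
  have h2 := NN_add (res (GT P 0 fun _ => True) p) (res (GT P 1 fun _ => True) p)
  have h3 := GT_le P 0 (fun _ => True) p
  have h4 := GT_le P 1 (fun _ => True) p
  linarith

theorem Fo_le (n : ℕ) (p : PP) : NN (Fo P n p) ≤ 2 * NN p := by
  unfold Fo
  rw [LinearMap.add_apply]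
  have h2 := NN_add (res (GT P 0 fun k => k < n) p) (res (GT P 1 fun k => k < n) p)
  have h3 := GT_le P 0 (fun k => k < n) p
  have h4 := GT_le P 1 (fun k => k < n) p
  linarith

theorem Fo_idem (n : ℕ) : Fo P n * Fo P n = Fo P n := by
  unfold Fo
  rw [mul_add, add_mul, add_mul, res_sub_left (fun _ h => h), res_sub_left (fun _ h => h),
    res_disj (Γ := GT P 1 fun k => k < n) (fun _ h1 h2 => GT_disj P (by norm_num) h1 h2),
    res_disj (Γ := GT P 0 fun k => k < n) (fun _ h1 h2 => GT_disj P (by norm_num) h1 h2)]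
  simp

theorem Fo_eo (n k c : ℕ) (hk : n ≤ k) : Fo P n * eo P c k = 0 := by
  unfold Fo eo
  rw [add_mul, res_disj, res_disj, add_zero]
  · rintro κ ⟨j, hj, h1⟩ h2
    have := (Ga_disj P h1 h2).2
    omega
  · rintro κ ⟨j, hj, h1⟩ h2
    have := (Ga_disj P h1 h2).2
    omega

theorem eo_Fo (n k c : ℕ) (hk : n ≤ k) : eo P c k * Fo P n = 0 := by
  unfold Fo eo
  rw [mul_add, res_disj, res_disj, add_zero]
  · rintro κ h2 ⟨j, hj, h1⟩
    have := (Ga_disj P h1 h2).2
    omega
  · rintro κ h2 ⟨j, hj, h1⟩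
    have := (Ga_disj P h1 h2).2
    omega

theorem res_or {Γ Δ : (ℕ →₀ ℕ) → Prop} (h : ∀ κ, Γ κ → Δ κ → False) : res Γ + res Δ = res fun κ => Γ κ ∨ Δ κ := by
  unfold res
  rw [dg_add]
  congr 1
  funext κ
  by_cases h1 : Γ κ <;> by_cases h2 : Δ κ
  · exact absurd h2 (h κ h1)
  all_goals simp [h1, h2]

theorem Fo_succ (n : ℕ) : Fo P (n + 1) = Fo P n + (eo P 0 n + eo P 1 n) := by
  have key : ∀ c, res (GT P c fun k => k < n + 1) = res (GT P c fun k => k < n) + eo P c n := by
    intro c
    unfold eo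
    rw [res_or]
    · apply res_congr
      intro κ
      constructor
      · rintro ⟨k, hk, h⟩
        rcases Nat.lt_succ_iff_lt_or_eq.mp hk with h1 | rfl
        · left; exact ⟨k, h1, h⟩
        · right; exact h
      · rintro (⟨k, hk, h⟩ | h)
        · exact ⟨k, by omega, h⟩
        · exact ⟨n, by omega, h⟩
    · rintro κ ⟨j, hj, h1⟩ h2
      have := (Ga_disj P h1 h2).2
      omega
  unfold Fo
  rw [key, key]
  abel

/-- homogeneity of the block polynomials -/
theorem gm_weight (n : ℕ) (κ : ℕ →₀ ℕ) (wt : ℕ → ℤ) (δ : ℕ → ℤ)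
    (h : ∀ x < n, ∀ A ⊆ range (P.M n), A.card = 2 * P.m n + (κ x + P.b n) →
      (∑ i ∈ range (P.M n), if i ∈ A then wt (vz n x i) else wt (vw n x i)) + κ x * wt (vu n x) = δ x) :
    IsWeightedHomogeneous wt (gm P n κ) (wt (vr 0 n) + ∑ x ∈ range n, δ x) := by
  unfold gm
  split_ifs with h0
  · apply IsWeightedHomogeneous.mul (isWeightedHomogeneous_X _ _ _)
    apply IsWeightedHomogeneous.prod
    intro x hx
    rw [mem_range] at hx
    have e0 : δ x = 0 + δ x := by ring
    rw [e0]
    apply IsWeightedHomogeneous.mul (isWeightedHomogeneous_C _ _)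
    unfold Sp
    have key : ∀ A ∈ powersetCard (2 * P.m n + (κ x + P.b n)) (range (P.M n)),
        IsWeightedHomogeneous wt (∏ i ∈ range (P.M n), (if i ∈ A then X (vz n x i) else X (vw n x i) : PP))
          (δ x - κ x * wt (vu n x)) := by
      intro A hA
      rw [mem_powersetCard] at hA
      have h2 := h x hx A hA.1 hA.2
      have h3 : δ x - κ x * wt (vu n x) = ∑ i ∈ range (P.M n), if i ∈ A then wt (vz n x i) else wt (vw n x i) := by
        rw [← h2]; ring
      rw [h3]
      apply IsWeightedHomogeneous.prod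
      intro i _
      split_ifs
      · exact isWeightedHomogeneous_X _ _ _
      · exact isWeightedHomogeneous_X _ _ _
    have e1 : δ x = (0 + (δ x - κ x * wt (vu n x))) + (κ x) • wt (vu n x) := by
      rw [nsmul_eq_mul]; ring
    rw [e1]
    apply IsWeightedHomogeneous.mul
    · apply IsWeightedHomogeneous.mul (isWeightedHomogeneous_C _ _)
      have : ∑ A ∈ powersetCard (2 * P.m n + (κ x + P.b n)) (range (P.M n)),
        ∏ i ∈ range (P.M n), (if i ∈ A then X (vz n x i) else X (vw n x i) : PP) ∈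
          weightedHomogeneousSubmodule ℂ wt (δ x - κ x * wt (vu n x)) := by
        apply Submodule.sum_mem
        intro A hA
        exact key A hA
      exact this
    · exact (isWeightedHomogeneous_X _ _ _).pow _
  · exact isWeightedHomogeneous_zero _ _ _

theorem wt_eq {wt : ℕ → ℤ} {p : PP} {k : ℤ} (h : IsWeightedHomogeneous wt p k) {κ : ℕ →₀ ℕ} (hκ : coeff κ p ≠ 0) :
    Finsupp.weight wt κ = k := h hκ

theorem gm_supp (n : ℕ) (κ κ' : ℕ →₀ ℕ) (h : coeff κ' (gm P n κ) ≠ 0) : Ga P 0 n κ' := by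
  constructor
  · have h1 := wt_eq (gm_weight P n κ (fun v => if v = vr 0 n then (1 : ℤ) else 0) (fun _ => 0) ?_) h
    · rw [weight_ind, if_pos rfl] at h1
      simp at h1
      exact_mod_cast h1
    · intro x _ A _ _
      have e1 : ∀ i, ¬ vz n x i = vr 0 n := fun i => by simp [vz, vr, Nat.pair_eq_pair]
      have e2 : ∀ i, ¬ vw n x i = vr 0 n := fun i => by simp [vw, vr, Nat.pair_eq_pair]
      have e3 : ¬ vu n x = vr 0 n := by simp [vu, vr, Nat.pair_eq_pair]
      simp [e1, e2, e3]
  · intro x hx i hi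
    have h1 := wt_eq (gm_weight P n κ (fun v => (if v = vz n x i then (1 : ℤ) else 0) + (if v = vw n x i then (1 : ℤ) else 0))
      (fun y => if y = x then 1 else 0) ?_) h
    · rw [weight_add, weight_ind, weight_ind] at h1
      have e1 : ¬ vr 0 n = vz n x i := by simp [vz, vr, Nat.pair_eq_pair]
      have e2 : ¬ vr 0 n = vw n x i := by simp [vw, vr, Nat.pair_eq_pair]
      simp only [e1, e2, if_false, sum_ite_eq', mem_range, hx, if_true] at h1
      omega
    · intro y _ A _ _
      have e1 : ∀ j, (vz n y j = vz n x i) ↔ (y = x ∧ j = i) := fun j => by simp [vz, Nat.pair_eq_pair]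
      have e2 : ∀ j, ¬ vz n y j = vw n x i := fun j => by simp [vz, vw, Nat.pair_eq_pair]
      have e3 : ∀ j, ¬ vw n y j = vz n x i := fun j => by simp [vz, vw, Nat.pair_eq_pair]
      have e4 : ∀ j, (vw n y j = vw n x i) ↔ (y = x ∧ j = i) := fun j => by simp [vw, Nat.pair_eq_pair]
      have e5 : ¬ vu n y = vz n x i := by simp [vz, vu, Nat.pair_eq_pair]
      have e6 : ¬ vu n y = vw n x i := by simp [vw, vu, Nat.pair_eq_pair]
      simp only [e1, e2, e3, e4, e5, e6, if_false, add_zero, zero_add, mul_zero, ite_self]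
      by_cases hxy : y = x
      · simp only [hxy, true_and, if_true]
        rw [sum_ite_eq' (range (P.M n)) i, if_pos (mem_range.mpr hi)]
      · simp [hxy]
  · intro x hx
    have h1 := wt_eq (gm_weight P n κ (fun v => (∑ i ∈ range (P.M n), (if v = vz n x i then (1 : ℤ) else 0)) +
      (-1) * (if v = vu n x then (1 : ℤ) else 0)) (fun y => if y = x then 2 * P.m n + P.b n else 0) ?_) h
    · rw [weight_add, weight_sum, weight_mul, weight_ind] at h1
      simp_rw [weight_ind] at h1
      have e1 : ∀ i, ¬ vr 0 n = vz n x i := fun i => by simp [vz, vr, Nat.pair_eq_pair]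
      have e2 : ¬ vr 0 n = vu n x := by simp [vu, vr, Nat.pair_eq_pair]
      simp only [e1, e2, if_false, sum_ite_eq', mem_range, hx, if_true, sum_const_zero] at h1
      have h2 : (∑ i ∈ range (P.M n), (κ' (vz n x i) : ℤ)) = (2 * P.m n + P.b n) + κ' (vu n x) := by linarith
      exact_mod_cast h2
    · intro y _ A hA hAc
      have e1 : ∀ j i, (vz n y j = vz n x i) ↔ (y = x ∧ j = i) := fun j i => by simp [vz, Nat.pair_eq_pair]
      have e2 : ∀ j, ¬ vz n y j = vu n x := fun j => by simp [vz, vu, Nat.pair_eq_pair]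
      have e3 : ∀ j i, ¬ vw n y j = vz n x i := fun j i => by simp [vz, vw, Nat.pair_eq_pair]
      have e4 : ∀ j, ¬ vw n y j = vu n x := fun j => by simp [vw, vu, Nat.pair_eq_pair]
      have e5 : ∀ i, ¬ vu n y = vz n x i := fun i => by simp [vz, vu, Nat.pair_eq_pair]
      have e6 : (vu n y = vu n x) ↔ y = x := by simp [vu, Nat.pair_eq_pair]
      simp only [e1, e2, e3, e4, e5, e6, if_false, add_zero, zero_add, mul_zero, ite_self, sum_const_zero]
      by_cases hxy : y = x
      · simp only [hxy, true_and, if_true]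
        have h3 : ∑ j ∈ range (P.M n), (if j ∈ A then ∑ i ∈ range (P.M n), (if j = i then (1 : ℤ) else 0) else 0) = A.card := by
          have h4 : ∀ j ∈ range (P.M n), (if j ∈ A then ∑ i ∈ range (P.M n), (if j = i then (1 : ℤ) else 0) else 0) =
              if j ∈ A then 1 else 0 := by
            intro j hj
            rw [sum_ite_eq, if_pos hj]
          rw [sum_congr rfl h4, sum_ite_mem, inter_eq_right.mpr hA]
          simp
        rw [h3, hAc, hxy]
        push_cast
        ring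
      · simp [hxy]
  · intro v hv
    have h1 := wt_eq (gm_weight P n κ (fun u => if u = v then (1 : ℤ) else 0) (fun _ => 0) ?_) h
    · rw [weight_ind, if_neg (fun h' => hv (Or.inl h'.symm))] at h1
      simp at h1
      exact_mod_cast h1
    · intro x hx A _ _
      have e3 : ¬ vu n x = v := fun h' => hv (Or.inr (Or.inr ⟨x, hx, h'.symm⟩))
      rw [if_neg e3, mul_zero, add_zero]
      apply sum_eq_zero
      intro i hi
      rw [mem_range] at hi
      have e1 : ¬ vz n x i = v := fun h' => hv (Or.inr (Or.inl ⟨x, hx, i, hi, Or.inl h'.symm⟩))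
      have e2 : ¬ vw n x i = v := fun h' => hv (Or.inr (Or.inl ⟨x, hx, i, hi, Or.inr h'.symm⟩))
      rw [if_neg e1, if_neg e2, ite_self]

theorem eo_gP (n : ℕ) : eo P 0 n * gP P n = gP P n := by
  classical
  apply lin_ext
  intro κ
  rw [Module.End.mul_apply, gP_mo]
  ext κ'
  unfold eo
  rw [coeff_res]
  split_ifs with h
  · rfl
  · by_contra h1
    exact h (gm_supp P n κ κ' fun h2 => h1 h2.symm)

theorem TP_aP (n : ℕ) : TP P (n + 1) * aP P n = aP P n := by
  apply lin_ext
  intro κ
  rw [Module.End.mul_apply, aP_mo]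
  unfold am TP
  rw [map_smul]
  by_cases hb : ∀ x < n, κ (vu n x) < P.b n
  · congr 1
    set κ' : ℕ →₀ ℕ := ∑ x ∈ range n, Finsupp.single x (κ (vu n x)) with hκ'
    have h1 : ∏ x ∈ range n, (X x : PP) ^ κ (vu n x) = mo κ' := by
      rw [hκ']
      unfold mo
      have h2 : ∀ x ∈ range n, (X x : PP) ^ κ (vu n x) = monomial (Finsupp.single x (κ (vu n x))) 1 := by
        intro x _
        rw [X_pow_eq_monomial]
      rw [prod_congr rfl h2, ← monomial_sum_one]
    have h3 : ∀ y, κ' y = if y < n then κ (vu n y) else 0 := by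
      intro y
      rw [hκ', Finsupp.finset_sum_apply]
      simp_rw [Finsupp.single_apply]
      rw [sum_ite_eq']
      simp only [mem_range]
    rw [h1, dg_mo]
    have h4 : tm P (n + 1) κ' = 1 := by
      unfold tm
      rw [if_pos]
      · apply prod_eq_one
        intro x hx
        rw [mem_range] at hx
        rw [h3, vk_one, one_pow]
        split_ifs with h5
        · have := hb x h5
          have := P.hba n
          omega
        · exact Nat.zero_le _
      · intro i hi
        rw [h3, if_neg (by omega)]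
    rw [h4, one_smul]
  · push Not at hb
    obtain ⟨x, hx, hκx⟩ := hb
    have h5 : ∏ x ∈ range n, vk P n (κ (vu n x)) = 0 := prod_eq_zero (mem_range.mpr hx) (vk_zero P n _ hκx)
    rw [h5, zero_mul, zero_smul, zero_smul]

theorem gP_TP (n : ℕ) : gP P n * TP P (n + 1) = gP P n := by
  apply lin_ext
  intro κ
  unfold TP
  rw [Module.End.mul_apply, dg_mo, map_smul, gP_mo]
  by_cases h0 : ∀ i, n ≤ i → κ i = 0
  · by_cases hb : ∀ x < n, κ x < P.b n
    · have h4 : tm P (n + 1) κ = 1 := by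
        unfold tm
        rw [if_pos (fun i hi => h0 i (by omega))]
        apply prod_eq_one
        intro x hx
        rw [mem_range] at hx
        rw [vk_one, one_pow]
        by_cases h5 : x < n
        · have := hb x h5
          have := P.hba n
          omega
        · rw [h0 x (by omega)]; exact Nat.zero_le _
      rw [h4, one_smul]
    · push Not at hb
      obtain ⟨x, hx, hκx⟩ := hb
      unfold gm
      rw [if_pos h0]
      have : ∏ x ∈ range n, (C (vk P n (κ x)) * Sp P n x (κ x)) = 0 := by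
        apply prod_eq_zero (mem_range.mpr hx)
        rw [vk_zero P n _ hκx]
        simp
      rw [this]
      simp
  · unfold gm
    rw [if_neg h0]
    simp

theorem TP_eventually (p : PP) : ∃ n0, ∀ n ≥ n0, TP P n p = p := by
  induction p using mo_ind with
  | h0 κ =>
    refine ⟨(κ.support.sup id + 1) + κ.support.sup κ, fun n hn => ?_⟩
    unfold TP
    rw [dg_mo]
    have hz : ∀ i, κ.support.sup id + 1 ≤ i → κ i = 0 := by
      intro i hi
      by_contra h
      have : i ≤ κ.support.sup id := Finset.le_sup (f := id) (Finsupp.mem_support_iff.mpr h)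
      omega
    have hle : ∀ i, κ i ≤ κ.support.sup κ := by
      intro i
      by_cases h : κ i = 0
      · rw [h]; exact Nat.zero_le _
      · exact Finset.le_sup (f := κ) (Finsupp.mem_support_iff.mpr h)
    have h4 : tm P n κ = 1 := by
      unfold tm
      rw [if_pos (fun i hi => hz i (by omega))]
      apply prod_eq_one
      intro x _
      rw [vk_one, one_pow]
      have := hle x
      have := P.han n
      omega
    rw [h4, one_smul]
  | hadd p q hp hq =>
    obtain ⟨n1, h1⟩ := hp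
    obtain ⟨n2, h2⟩ := hq
    refine ⟨n1 + n2, fun n hn => ?_⟩
    rw [map_add, h1 n (by omega), h2 n (by omega)]
  | hs c p hp =>
    obtain ⟨n1, h1⟩ := hp
    refine ⟨n1, fun n hn => ?_⟩
    rw [map_smul, h1 n hn]

end

end Pool.Agent.H155R3
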