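import Mathlib

set_option autoImplicit false

/-!
# Concatenating finite chains of projections and the Grunblum criterion
-/

namespace Pool.Agent.H155R3

open Filter Topology

/-- states of the concatenation -/
def stt (l : ℕ → ℕ) : ℕ → ℕ × ℕ
  | 0 => (0, 0)
  | N + 1 => if (stt l N).2 + 1 < l (stt l N).1 then ((stt l N).1, (stt l N).2 + 1) else ((stt l N).1 + 1, 0)

theorem stt_lt (l : ℕ → ℕ) (hl : ∀ n, 1 ≤ l n) (N : ℕ) : (stt l N).2 < l (stt l N).1 := by
  induction N with
  | zero => exact hl 0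
  | succ N ih =>
    rw [stt]
    split_ifs with h
    · exact h
    · exact hl _

theorem stt_mono (l : ℕ → ℕ) (N : ℕ) : (stt l N).1 ≤ (stt l (N + 1)).1 := by
  rw [stt]
  split_ifs with h
  · exact le_rfl
  · exact Nat.le_succ _

theorem stt_unbounded (l : ℕ → ℕ) (n : ℕ) : ∃ N, stt l N = (n, 0) := by
  induction n with
  | zero => exact ⟨0, rfl⟩
  | succ n ih =>
    obtain ⟨N, hN⟩ := ih
    have key : ∀ j, j < l n → stt l (N + j) = (n, j) := by
      intro j
      induction j with
      | zero => intro _; exact hN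
      | succ j ihj =>
        intro h
        have h1 := ihj (by omega)
        rw [← add_assoc, stt, h1]
        simp only
        rw [if_pos h]
    by_cases h0 : l n = 0
    · refine ⟨N + 1, ?_⟩
      rw [stt, hN]
      simp only
      rw [if_neg (by omega)]
    · refine ⟨N + (l n - 1) + 1, ?_⟩
      rw [stt, key (l n - 1) (by omega)]
      simp only
      rw [if_neg (by omega)]

/-- Abstract statement: a refining family of projections with one-dimensional steps gives a basic sequence. -/
theorem exists_basic {P : Type*} [AddCommGroup P] [Module ℂ P] (N : P → ℝ)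
    (Q : ℕ → ℕ → Module.End ℂ P) (l : ℕ → ℕ) (hl : ∀ n, 1 ≤ l n)
    (hQ0 : ∀ n, Q n (l n) = Q (n + 1) 0) (h00 : Q 0 0 = 0)
    (hid : ∀ n j, j ≤ l n → Q n j * Q n j = Q n j)
    (hr : ∀ n j, j < l n → Q n (j + 1) * Q n j = Q n j) (hlft : ∀ n j, j < l n → Q n j * Q n (j + 1) = Q n j)
    (hrank : ∀ n j, j < l n → ∃ g : P, g ≠ 0 ∧ (Q n (j + 1) - Q n j) g = g ∧ ∀ f, ∃ c : ℂ, (Q n (j + 1) - Q n j) f = c • g)
    (C : ℝ) (hC : ∀ n j, j ≤ l n → ∀ f, N (Q n j f) ≤ C * N f)
    (hev : ∀ f, ∃ n, ∀ n' ≥ n, Q n' 0 f = f) :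
    ∃ b : ℕ → P, (∀ i, b i ≠ 0) ∧ (∀ f, f ∈ Submodule.span ℂ (Set.range b)) ∧
      ∀ (c : ℕ → ℂ) (n m : ℕ), n ≤ m → N (∑ i ∈ Finset.range n, c i • b i) ≤ C * N (∑ i ∈ Finset.range m, c i • b i) := by
  set S : ℕ → Module.End ℂ P := fun k => Q (stt l k).1 (stt l k).2 with hS
  have hSs : ∀ k, S (k + 1) = Q (stt l k).1 ((stt l k).2 + 1) := by
    intro k
    simp only [hS]
    rw [stt]
    have h1 := stt_lt l hl k
    split_ifs with h
    · rfl
    · simp only
      rw [← hQ0]
      congr 1
      omega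
  have hS0 : S 0 = 0 := h00
  have hSid : ∀ k, S k * S k = S k := fun k => hid _ _ (stt_lt l hl k).le
  have hSr : ∀ k, S (k + 1) * S k = S k := fun k => by rw [hSs]; exact hr _ _ (stt_lt l hl k)
  have hSl : ∀ k, S k * S (k + 1) = S k := fun k => by rw [hSs]; exact hlft _ _ (stt_lt l hl k)
  have hSR : ∀ k j, S (k + j) * S k = S k := by
    intro k j
    induction j with
    | zero => exact hSid k
    | succ j ih =>
      rw [← ih, ← mul_assoc]
      have := hSr (k + j)
      rw [← add_assoc, this]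
  have hSL : ∀ k j, S k * S (k + j) = S k := by
    intro k j
    induction j with
    | zero => exact hSid k
    | succ j ih =>
      have := hSl (k + j)
      rw [← ih, mul_assoc, ← add_assoc, this]
  have hb : ∀ k, ∃ g : P, g ≠ 0 ∧ (S (k + 1) - S k) g = g ∧ ∀ f, ∃ c : ℂ, (S (k + 1) - S k) f = c • g := by
    intro k
    rw [hSs]
    exact hrank _ _ (stt_lt l hl k)
  choose b hb0 hb1 hb2 using hb
  have hSb1 : ∀ k j, j < k → S k (b j) = b j := by
    intro k j hjk
    obtain ⟨i, rfl⟩ := Nat.exists_eq_add_of_lt hjk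
    have h1 : S (j + i + 1) * (S (j + 1) - S j) = S (j + 1) - S j := by
      rw [mul_sub]
      have e1 := hSR (j + 1) i
      have e2 := hSR j (i + 1)
      rw [show j + i + 1 = j + 1 + i by ring, e1, show j + 1 + i = j + (i + 1) by ring, e2]
    have h2 := congrArg (fun T : Module.End ℂ P => T (b j)) h1
    simp only [Module.End.mul_apply] at h2
    rw [hb1] at h2
    exact h2
  have hSb0 : ∀ k j, k ≤ j → S k (b j) = 0 := by
    intro k j hjk
    obtain ⟨i, rfl⟩ := Nat.exists_eq_add_of_le hjk
    have h1 : S k * (S (k + i + 1) - S (k + i)) = 0 := by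
      rw [mul_sub, hSL k i, add_assoc, hSL k (i + 1), sub_self]
    have h2 := congrArg (fun T : Module.End ℂ P => T (b (k + i))) h1
    simp only [Module.End.mul_apply] at h2
    rw [hb1] at h2
    exact h2
  refine ⟨b, hb0, ?_, ?_⟩
  · intro f
    obtain ⟨n, hn⟩ := hev f
    obtain ⟨k, hk⟩ := stt_unbounded l n
    have h1 : S k f = f := by
      simp only [hS, hk]
      exact hn n le_rfl
    have h2 : ∀ k, S k f ∈ Submodule.span ℂ (Set.range b) := by
      intro k
      induction k with
      | zero => rw [hS0]; simp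
      | succ k ih =>
        obtain ⟨c, hc⟩ := hb2 k f
        have : S (k + 1) f = S k f + c • b k := by
          rw [← hc, LinearMap.sub_apply]; abel
        rw [this]
        exact Submodule.add_mem _ ih (Submodule.smul_mem _ _ (Submodule.subset_span ⟨k, rfl⟩))
    rw [← h1]
    exact h2 k
  · intro c n m hnm
    have h1 : S n (∑ i ∈ Finset.range m, c i • b i) = ∑ i ∈ Finset.range n, c i • b i := by
      rw [map_sum]
      obtain ⟨j, rfl⟩ := Nat.exists_eq_add_of_le hnm
      rw [Finset.sum_range_add]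
      have e1 : ∑ i ∈ Finset.range n, S n (c i • b i) = ∑ i ∈ Finset.range n, c i • b i := by
        apply Finset.sum_congr rfl
        intro i hi
        rw [Finset.mem_range] at hi
        rw [map_smul, hSb1 n i hi]
      have e2 : ∑ i ∈ Finset.range j, S n (c (n + i) • b (n + i)) = 0 := by
        apply Finset.sum_eq_zero
        intro i _
        rw [map_smul, hSb0 n (n + i) (by omega), smul_zero]
      rw [e1, e2, add_zero]
    rw [← h1]
    exact hC _ _ (stt_lt l hl n).le _

/-- Grunblum criterion. -/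
theorem grunblum {E : Type*} [NormedAddCommGroup E] [NormedSpace ℂ E] [CompleteSpace E] (b : ℕ → E)
    (hb0 : ∀ i, b i ≠ 0) (C : ℝ)
    (hC : ∀ (c : ℕ → ℂ) (n m : ℕ), n ≤ m → ‖∑ i ∈ Finset.range n, c i • b i‖ ≤ C * ‖∑ i ∈ Finset.range m, c i • b i‖)
    (f : E) (hf : f ∈ closure (Submodule.span ℂ (Set.range b) : Set E)) :
    ∃! c : ℕ → ℂ, Tendsto (fun n => ∑ i ∈ Finset.range n, c i • b i) atTop (𝓝 f) := by
  have hC0 : 0 ≤ C := by
    have h := hC (fun _ => 1) 1 1 le_rfl
    simp only [Finset.sum_range_one, one_smul] at h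
    have h2 : 0 < ‖b 0‖ := norm_pos_iff.mpr (hb0 0)
    by_contra h3
    push Not at h3
    nlinarith
  have hcoef : ∀ (c : ℕ → ℂ) (i m : ℕ), i < m → ‖c i‖ * ‖b i‖ ≤ 2 * C * ‖∑ i ∈ Finset.range m, c i • b i‖ := by
    intro c i m him
    have h1 := hC c i m him.le
    have h2 := hC c (i + 1) m him
    have h3 : c i • b i = (∑ i ∈ Finset.range (i + 1), c i • b i) - ∑ i ∈ Finset.range i, c i • b i := by
      rw [Finset.sum_range_succ]; abel
    rw [← norm_smul, h3]
    refine (norm_sub_le _ _).trans ?_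
    linarith
  -- every element of the span is a finite combination
  have hspan : ∀ g ∈ Submodule.span ℂ (Set.range b), ∃ (c : ℕ → ℂ) (M : ℕ), (∀ i, M ≤ i → c i = 0) ∧
      g = ∑ i ∈ Finset.range M, c i • b i := by
    intro g hg
    rw [Finsupp.mem_span_range_iff_exists_finsupp] at hg
    obtain ⟨a, ha⟩ := hg
    refine ⟨a, a.support.sup id + 1, ?_, ?_⟩
    · intro i hi
      by_contra h
      have : i ≤ a.support.sup id := Finset.le_sup (f := id) (Finsupp.mem_support_iff.mpr h)
      omega
    · rw [← ha, Finsupp.sum]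
      apply Finset.sum_subset
      · intro i hi
        rw [Finset.mem_range]
        have : i ≤ a.support.sup id := Finset.le_sup (f := id) hi
        omega
      · intro i _ hi
        rw [Finsupp.notMem_support_iff.mp hi, zero_smul]
  rw [mem_closure_iff_seq_limit] at hf
  obtain ⟨g, hg, hgf⟩ := hf
  choose c M hc0 hcM using fun k => hspan (g k) (hg k)
  have hsumM : ∀ k m, M k ≤ m → ∑ i ∈ Finset.range m, c k i • b i = g k := by
    intro k m hm
    rw [hcM k]
    symm
    apply Finset.sum_subset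
    · intro i hi
      rw [Finset.mem_range] at *
      omega
    · intro i _ hi
      rw [Finset.mem_range, not_lt] at hi
      rw [hc0 k i hi, zero_smul]
  have hdiff : ∀ k k' n, ‖∑ i ∈ Finset.range n, (c k i - c k' i) • b i‖ ≤ C * ‖g k - g k'‖ := by
    intro k k' n
    have h1 := hC (fun i => c k i - c k' i) n (max n (max (M k) (M k'))) (le_max_left _ _)
    have h2 : ∑ i ∈ Finset.range (max n (max (M k) (M k'))), (c k i - c k' i) • b i = g k - g k' := by
      simp_rw [sub_smul]
      rw [Finset.sum_sub_distrib, hsumM k _ (by omega), hsumM k' _ (by omega)]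
    rw [h2] at h1
    exact h1
  have hcauchy : ∀ i, CauchySeq fun k => c k i := by
    intro i
    rw [Metric.cauchySeq_iff]
    intro ε hε
    have h1 := hgf.cauchySeq
    rw [Metric.cauchySeq_iff] at h1
    have hbi : 0 < ‖b i‖ := norm_pos_iff.mpr (hb0 i)
    obtain ⟨K, hK⟩ := h1 (ε * ‖b i‖ / (2 * C + 1)) (by positivity)
    refine ⟨K, fun k hk k' hk' => ?_⟩
    have h2 := hK k hk k' hk'
    rw [dist_eq_norm] at *
    have h3 := hcoef (fun i => c k i - c k' i) i (max (i + 1) (max (M k) (M k'))) (by omega)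
    have h4 : ∑ i ∈ Finset.range (max (i + 1) (max (M k) (M k'))), (c k i - c k' i) • b i = g k - g k' := by
      simp_rw [sub_smul]
      rw [Finset.sum_sub_distrib, hsumM k _ (by omega), hsumM k' _ (by omega)]
    rw [h4] at h3
    rw [lt_div_iff₀ (by positivity)] at h2
    have h5 : ‖c k i - c k' i‖ * ‖b i‖ < ε * ‖b i‖ := by
      have := norm_nonneg (g k - g k')
      nlinarith
    exact lt_of_mul_lt_mul_right h5 hbi.le
  choose a ha using fun i => cauchySeq_tendsto_of_complete (hcauchy i)
  have hlim : ∀ k n, ‖∑ i ∈ Finset.range n, (a i - c k i) • b i‖ ≤ C * ‖f - g k‖ := by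
    intro k n
    have h1 : Tendsto (fun k' => ∑ i ∈ Finset.range n, (c k' i - c k i) • b i) atTop
        (𝓝 (∑ i ∈ Finset.range n, (a i - c k i) • b i)) := by
      apply tendsto_finsetSum
      intro i _
      exact ((ha i).sub_const _).smul_const _
    have h2 : Tendsto (fun k' => C * ‖g k' - g k‖) atTop (𝓝 (C * ‖f - g k‖)) :=
      ((hgf.sub_const _).norm).const_mul _
    exact le_of_tendsto_of_tendsto' h1.norm h2 fun k' => hdiff k' k n
  have hconv : Tendsto (fun n => ∑ i ∈ Finset.range n, a i • b i) atTop (𝓝 f) := by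
    rw [Metric.tendsto_atTop]
    intro ε hε
    rw [Metric.tendsto_atTop] at hgf
    obtain ⟨K, hK⟩ := hgf (ε / (C + 2)) (by positivity)
    have h1 := hK K le_rfl
    rw [dist_eq_norm] at h1
    refine ⟨M K, fun n hn => ?_⟩
    rw [dist_eq_norm]
    have h2 : ∑ i ∈ Finset.range n, a i • b i - f = ∑ i ∈ Finset.range n, (a i - c K i) • b i + (g K - f) := by
      simp_rw [sub_smul]
      rw [Finset.sum_sub_distrib, hsumM K n hn]
      abel
    rw [h2]
    have h3 := hlim K n
    rw [norm_sub_rev] at h3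
    rw [lt_div_iff₀ (by positivity)] at h1
    calc ‖∑ i ∈ Finset.range n, (a i - c K i) • b i + (g K - f)‖ ≤ _ := norm_add_le _ _
      _ ≤ C * ‖g K - f‖ + ‖g K - f‖ := by linarith
      _ < ε := by
          have := norm_nonneg (g K - f)
          nlinarith
  refine ⟨a, hconv, ?_⟩
  · intro a' ha'
    have h1 : Tendsto (fun n => ∑ i ∈ Finset.range n, (a' i - a i) • b i) atTop (𝓝 0) := by
      have h2 : Tendsto (fun n => ∑ i ∈ Finset.range n, a i • b i) atTop (𝓝 f) := hconv
      have h3 := ha'.sub h2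
      rw [sub_self] at h3
      refine h3.congr fun n => ?_
      simp_rw [sub_smul]
      rw [Finset.sum_sub_distrib]
    funext i
    have h2 : ‖a' i - a i‖ * ‖b i‖ ≤ 0 := by
      have h3 : Tendsto (fun n => 2 * C * ‖∑ i ∈ Finset.range n, (a' i - a i) • b i‖) atTop (𝓝 (2 * C * ‖(0 : E)‖)) :=
        (h1.norm).const_mul _
      rw [norm_zero, mul_zero] at h3
      apply ge_of_tendsto h3
      filter_upwards [eventually_gt_atTop i] with n hn
      exact hcoef (fun i => a' i - a i) i n hn
    have hbi : 0 < ‖b i‖ := norm_pos_iff.mpr (hb0 i)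
    have h3 : ‖a' i - a i‖ ≤ 0 := by
      by_contra h4
      push Not at h4
      have := mul_pos h4 hbi
      linarith
    exact sub_eq_zero.mp (norm_le_zero_iff.mp h3)

end Pool.Agent.H155R3
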