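import Pool.Agent.H155R3.K5

set_option autoImplicit false
set_option linter.all false

/-!
# The copies of the blocks and the order inside a block
-/

namespace Pool.Agent.H155R3

open MeasureTheory Finset MvPolynomial

/-! ### permutations of coordinates -/

theorem mp_perm (σ : Equiv.Perm ℕ) : mu.map (fun (z : Om) (i : ℕ) => z (σ i)) = mu := by
  have h := Measure.infinitePi_map_piCongrLeft (X := fun _ : ℕ => TT)
    (μ := fun _ : ℕ => (AddCircle.haarAddCircle : Measure TT)) σ.symm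
  unfold mu
  conv_rhs => rw [← h]
  congr 1
  funext z i
  have h1 := Equiv.piCongrLeft_apply (fun _ : ℕ => TT) σ.symm z i
  rw [MeasurableEquiv.coe_piCongrLeft, h1]
  simp

noncomputable def sw (n : ℕ) : Equiv.Perm ℕ := Equiv.swap (vr 0 n) (vr 1 n)

noncomputable def tho (n : ℕ) : Module.End ℂ PP := (rename (sw n)).toLinearMap

theorem tho_mo (n : ℕ) (κ : ℕ →₀ ℕ) : tho n (mo κ) = mo (κ.mapDomain (sw n)) := by
  unfold tho mo
  rw [AlgHom.toLinearMap_apply, rename_monomial]

theorem ev_tho (n : ℕ) (p : PP) (z : Om) : ev z (tho n p) = ev (fun i => z (sw n i)) p := by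
  unfold tho ev
  rw [AlgHom.toLinearMap_apply, aeval_rename]
  rfl

theorem NN_tho (n : ℕ) (p : PP) : NN (tho n p) = NN p := by
  unfold NN
  simp_rw [ev_tho]
  conv_rhs => rw [← mp_perm (sw n)]
  rw [integral_map]
  · exact (measurable_pi_iff.mpr fun i => measurable_pi_apply _).aemeasurable
  · exact (continuous_ev p).norm.aestronglyMeasurable

theorem tho_sq (n : ℕ) : tho n * tho n = 1 := by
  apply lin_ext
  intro κ
  rw [Module.End.mul_apply, tho_mo, tho_mo, ← Finsupp.mapDomain_comp]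
  have : (sw n : ℕ → ℕ) ∘ (sw n : ℕ → ℕ) = id := by
    funext i
    simp [sw]
  rw [this, Finsupp.mapDomain_id]
  rfl

theorem sw_ne (n v : ℕ) (h0 : v ≠ vr 0 n) (h1 : v ≠ vr 1 n) : sw n v = v := Equiv.swap_apply_of_ne_of_ne h0 h1

theorem sw_map (n : ℕ) (κ : ℕ →₀ ℕ) (v : ℕ) : κ.mapDomain (sw n) v = κ (sw n v) := by
  have h := Finsupp.mapDomain_equiv_apply (f := sw n) κ v
  rw [h]
  simp [sw]

section

variable (P : Par)

theorem Ga_sw {c c' : ℕ} (hc : (c = 0 ∧ c' = 1) ∨ (c = 1 ∧ c' = 0)) (n : ℕ) (κ : ℕ →₀ ℕ) (h : Ga P c n κ) :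
    Ga P c' n (κ.mapDomain (sw n)) := by
  have hsc : sw n (vr c' n) = vr c n := by
    rcases hc with ⟨rfl, rfl⟩ | ⟨rfl, rfl⟩ <;> simp [sw]
  have hsc' : sw n (vr c n) = vr c' n := by
    rcases hc with ⟨rfl, rfl⟩ | ⟨rfl, rfl⟩ <;> simp [sw]
  have hne : c' ≠ c := by rcases hc with ⟨rfl, rfl⟩ | ⟨rfl, rfl⟩ <;> norm_num
  have hfix : ∀ v, v ≠ vr c n → v ≠ vr c' n → sw n v = v := by
    intro v h1 h2
    rcases hc with ⟨rfl, rfl⟩ | ⟨rfl, rfl⟩
    · exact sw_ne n v h1 h2
    · exact sw_ne n v h2 h1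
  have hz : ∀ x i, sw n (vz n x i) = vz n x i := fun x i =>
    hfix _ (by simp [vz, vr, Nat.pair_eq_pair]) (by simp [vz, vr, Nat.pair_eq_pair])
  have hw : ∀ x i, sw n (vw n x i) = vw n x i := fun x i =>
    hfix _ (by simp [vw, vr, Nat.pair_eq_pair]) (by simp [vw, vr, Nat.pair_eq_pair])
  have hu : ∀ x, sw n (vu n x) = vu n x := fun x =>
    hfix _ (by simp [vu, vr, Nat.pair_eq_pair]) (by simp [vu, vr, Nat.pair_eq_pair])
  constructor
  · rw [sw_map, hsc]; exact h.h1
  · intro x hx i hi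
    rw [sw_map, sw_map, hz, hw]; exact h.h2 x hx i hi
  · intro x hx
    simp_rw [sw_map, hz, hu]
    exact h.h3 x hx
  · intro v hv
    rw [sw_map]
    apply h.h4
    intro h2
    by_cases h3 : v = vr c n
    · rw [h3, hsc'] at h2
      exact hne (Inn_vr h2).1
    · have h4 : v ≠ vr c' n := fun h5 => hv (Or.inl h5)
      rw [hfix v h3 h4] at h2
      rcases h2 with h2 | h2
      · exact h3 h2
      · exact hv (Or.inr h2)

theorem tho_eo (n : ℕ) : tho n * eo P 0 n = eo P 1 n * tho n := by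
  classical
  apply lin_ext
  intro κ
  rw [Module.End.mul_apply, Module.End.mul_apply, tho_mo]
  unfold eo
  rw [res_mo, res_mo]
  have h : Ga P 0 n κ ↔ Ga P 1 n (κ.mapDomain (sw n)) := by
    constructor
    · exact Ga_sw P (Or.inl ⟨rfl, rfl⟩) n κ
    · intro h1
      have h2 := Ga_sw P (Or.inr ⟨rfl, rfl⟩) n _ h1
      have h3 : (κ.mapDomain (sw n)).mapDomain (sw n) = κ := by
        ext v
        rw [sw_map, sw_map]
        simp [sw]
      rwa [h3] at h2
  by_cases h1 : Ga P 0 n κ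
  · rw [if_pos h1, if_pos (h.mp h1), tho_mo]
  · rw [if_neg h1, if_neg (fun h2 => h1 (h.mpr h2)), map_zero]

/-! ### the order inside a block -/

theorem Ga_ext {n : ℕ} {κ κ' : ℕ →₀ ℕ} (h : Ga P 0 n κ) (h' : Ga P 0 n κ')
    (hz : ∀ x < n, ∀ i < P.M n, κ (vz n x i) = κ' (vz n x i)) : κ = κ' := by
  ext v
  by_cases hv : Inn P.M 0 n v
  · rcases hv with rfl | ⟨x, hx, i, hi, rfl | rfl⟩ | ⟨x, hx, rfl⟩
    · rw [h.h1, h'.h1]
    · exact hz x hx i hi
    · have h1 := h.h2 x hx i hi
      have h2 := h'.h2 x hx i hi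
      have h3 := hz x hx i hi
      omega
    · have h1 := h.h3 x hx
      have h2 := h'.h3 x hx
      have h3 : ∑ i ∈ range (P.M n), κ (vz n x i) = ∑ i ∈ range (P.M n), κ' (vz n x i) :=
        sum_congr rfl fun i hi => hz x hx i (mem_range.mp hi)
      omega
  · rw [h.h4 v hv, h'.h4 v hv]

/-- index set of block `n` -/
def Ix (n : ℕ) : Finset (ℕ × ℕ) := range n ×ˢ range (P.M n)

/-- number of chosen elements in a row -/
def cnt (n : ℕ) (A : Finset (ℕ × ℕ)) (x : ℕ) : ℕ := ((range (P.M n)).filter fun i => (x, i) ∈ A).card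

def vld (n : ℕ) (A : Finset (ℕ × ℕ)) : Prop := ∀ x < n, 2 * P.m n + P.b n ≤ cnt P n A x

/-- the exponent of a choice -/
noncomputable def expo (n : ℕ) (A : Finset (ℕ × ℕ)) : ℕ →₀ ℕ :=
  Finsupp.single (vr 0 n) 1 + (∑ q ∈ Ix P n, Finsupp.single (if q ∈ A then vz n q.1 q.2 else vw n q.1 q.2) 1) +
    ∑ x ∈ range n, Finsupp.single (vu n x) (cnt P n A x - (2 * P.m n + P.b n))

theorem expo_apply (n : ℕ) (A : Finset (ℕ × ℕ)) (v : ℕ) : expo P n A v =
    (if vr 0 n = v then 1 else 0) + (∑ q ∈ Ix P n, if (if q ∈ A then vz n q.1 q.2 else vw n q.1 q.2) = v then 1 else 0) +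
    ∑ x ∈ range n, if vu n x = v then cnt P n A x - (2 * P.m n + P.b n) else 0 := by
  unfold expo
  simp only [Finsupp.add_apply, Finsupp.finset_sum_apply, Finsupp.single_apply]

theorem expo_vz (n : ℕ) (A : Finset (ℕ × ℕ)) (x i : ℕ) (hx : x < n) (hi : i < P.M n) :
    expo P n A (vz n x i) = if (x, i) ∈ A then 1 else 0 := by
  rw [expo_apply, if_neg (by simp [vz, vr, Nat.pair_eq_pair]), zero_add]
  have h1 : ∑ y ∈ range n, (if vu n y = vz n x i then cnt P n A y - (2 * P.m n + P.b n) else 0) = 0 := by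
    apply sum_eq_zero
    intro y _
    rw [if_neg (by simp [vz, vu, Nat.pair_eq_pair])]
  rw [h1, add_zero, sum_eq_single (x, i)]
  · by_cases h : (x, i) ∈ A
    · simp [h]
    · have : ¬ vw n x i = vz n x i := by simp [vz, vw, Nat.pair_eq_pair]
      simp [h, this]
  · rintro ⟨y, j⟩ _ hne
    rw [if_neg]
    by_cases h : (y, j) ∈ A
    · rw [if_pos h]
      intro h2
      simp [vz, Nat.pair_eq_pair] at h2
      exact hne (by rw [h2.1, h2.2])
    · rw [if_neg h]
      simp [vz, vw, Nat.pair_eq_pair]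
  · intro h
    exact absurd (by simp [Ix, hx, hi]) h

theorem expo_vw (n : ℕ) (A : Finset (ℕ × ℕ)) (x i : ℕ) (hx : x < n) (hi : i < P.M n) :
    expo P n A (vw n x i) = if (x, i) ∈ A then 0 else 1 := by
  rw [expo_apply, if_neg (by simp [vw, vr, Nat.pair_eq_pair]), zero_add]
  have h1 : ∑ y ∈ range n, (if vu n y = vw n x i then cnt P n A y - (2 * P.m n + P.b n) else 0) = 0 := by
    apply sum_eq_zero
    intro y _
    rw [if_neg (by simp [vw, vu, Nat.pair_eq_pair])]
  rw [h1, add_zero, sum_eq_single (x, i)]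
  · by_cases h : (x, i) ∈ A
    · have : ¬ vz n x i = vw n x i := by simp [vz, vw, Nat.pair_eq_pair]
      simp [h, this]
    · simp [h]
  · rintro ⟨y, j⟩ _ hne
    rw [if_neg]
    by_cases h : (y, j) ∈ A
    · rw [if_pos h]
      simp [vz, vw, Nat.pair_eq_pair]
    · rw [if_neg h]
      intro h2
      simp [vw, Nat.pair_eq_pair] at h2
      exact hne (by rw [h2.1, h2.2])
  · intro h
    exact absurd (by simp [Ix, hx, hi]) h

theorem expo_vu (n : ℕ) (A : Finset (ℕ × ℕ)) (x : ℕ) (hx : x < n) :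
    expo P n A (vu n x) = cnt P n A x - (2 * P.m n + P.b n) := by
  rw [expo_apply, if_neg (by simp [vu, vr, Nat.pair_eq_pair]), zero_add]
  have h1 : ∑ q ∈ Ix P n, (if (if q ∈ A then vz n q.1 q.2 else vw n q.1 q.2) = vu n x then 1 else 0) = 0 := by
    apply sum_eq_zero
    intro q _
    rw [if_neg]
    split_ifs
    · simp [vz, vu, Nat.pair_eq_pair]
    · simp [vw, vu, Nat.pair_eq_pair]
  rw [h1, zero_add, sum_eq_single x]
  · simp
  · intro y _ hne
    rw [if_neg]
    simp [vu, Nat.pair_eq_pair, hne]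
  · intro h
    exact absurd (mem_range.mpr hx) h

theorem expo_Ga (n : ℕ) (A : Finset (ℕ × ℕ)) (hv : vld P n A) : Ga P 0 n (expo P n A) := by
  constructor
  · rw [expo_apply, if_pos rfl]
    have h1 : ∑ q ∈ Ix P n, (if (if q ∈ A then vz n q.1 q.2 else vw n q.1 q.2) = vr 0 n then 1 else 0) = 0 := by
      apply sum_eq_zero
      intro q _
      rw [if_neg]
      split_ifs
      · simp [vz, vr, Nat.pair_eq_pair]
      · simp [vw, vr, Nat.pair_eq_pair]
    have h2 : ∑ y ∈ range n, (if vu n y = vr 0 n then cnt P n A y - (2 * P.m n + P.b n) else 0) = 0 := by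
      apply sum_eq_zero
      intro y _
      rw [if_neg (by simp [vr, vu, Nat.pair_eq_pair])]
    rw [h1, h2]
  · intro x hx i hi
    rw [expo_vz P n A x i hx hi, expo_vw P n A x i hx hi]
    split_ifs <;> rfl
  · intro x hx
    rw [expo_vu P n A x hx]
    have h1 : ∑ i ∈ range (P.M n), expo P n A (vz n x i) = cnt P n A x := by
      unfold cnt
      rw [card_filter]
      apply sum_congr rfl
      intro i hi
      exact expo_vz P n A x i hx (mem_range.mp hi)
    rw [h1]
    have := hv x hx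
    omega
  · intro v hI
    rw [expo_apply]
    have h0 : ¬ vr 0 n = v := fun h => hI (Or.inl h.symm)
    have h1 : ∑ q ∈ Ix P n, (if (if q ∈ A then vz n q.1 q.2 else vw n q.1 q.2) = v then 1 else 0) = 0 := by
      apply sum_eq_zero
      intro q hq
      simp only [Ix, mem_product, mem_range] at hq
      rw [if_neg]
      split_ifs
      · exact fun h => hI (Or.inr (Or.inl ⟨q.1, hq.1, q.2, hq.2, Or.inl h.symm⟩))
      · exact fun h => hI (Or.inr (Or.inl ⟨q.1, hq.1, q.2, hq.2, Or.inr h.symm⟩))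
    have h2 : ∑ y ∈ range n, (if vu n y = v then cnt P n A y - (2 * P.m n + P.b n) else 0) = 0 := by
      apply sum_eq_zero
      intro y hy
      rw [if_neg fun h => hI (Or.inr (Or.inr ⟨y, mem_range.mp hy, h.symm⟩))]
    rw [if_neg h0, h1, h2]

theorem Ga_expo (n : ℕ) (κ : ℕ →₀ ℕ) (h : Ga P 0 n κ) : ∃ A ⊆ Ix P n, vld P n A ∧ expo P n A = κ := by
  set A : Finset (ℕ × ℕ) := (Ix P n).filter fun q => κ (vz n q.1 q.2) = 1 with hA
  have h1 : ∀ x < n, ∀ i < P.M n, (if (x, i) ∈ A then 1 else 0) = κ (vz n x i) := by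
    intro x hx i hi
    have h2 := h.h2 x hx i hi
    by_cases h3 : κ (vz n x i) = 1
    · rw [if_pos, h3]
      rw [hA, mem_filter]
      exact ⟨by simp [Ix, hx, hi], h3⟩
    · rw [if_neg]
      · omega
      · rw [hA, mem_filter]
        exact fun h4 => h3 h4.2
  have hv : vld P n A := by
    intro x hx
    have h2 := h.h3 x hx
    have h3 : cnt P n A x = ∑ i ∈ range (P.M n), κ (vz n x i) := by
      unfold cnt
      rw [card_filter]
      apply sum_congr rfl
      intro i hi
      exact h1 x hx i (mem_range.mp hi)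
    omega
  refine ⟨A, filter_subset _ _, hv, ?_⟩
  apply Ga_ext P (expo_Ga P n A hv) h
  intro x hx i hi
  rw [expo_vz P n A x i hx hi, h1 x hx i hi]

theorem expo_inj (n : ℕ) (A B : Finset (ℕ × ℕ)) (hA : A ⊆ Ix P n) (hB : B ⊆ Ix P n) (h : expo P n A = expo P n B) : A = B := by
  have key : ∀ q ∈ Ix P n, q ∈ A ↔ q ∈ B := by
    rintro ⟨x, i⟩ hq
    simp only [Ix, mem_product, mem_range] at hq
    have h1 := expo_vz P n A x i hq.1 hq.2
    have h2 := expo_vz P n B x i hq.1 hq.2
    rw [h, h2] at h1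
    by_cases hqa : (x, i) ∈ A <;> by_cases hqb : (x, i) ∈ B <;> simp_all
  ext q
  constructor
  · intro h1; exact (key q (hA h1)).mp h1
  · intro h1; exact (key q (hB h1)).mpr h1

/-- value of a block monomial -/
theorem ev_expo (n : ℕ) (A : Finset (ℕ × ℕ)) (hA : A ⊆ Ix P n) (hv : vld P n A) (z : Om) :
    ev z (mo (expo P n A)) = (ch (vr 0 n) z * ∏ x ∈ range n, (ch (vu n x) z ^ (2 * P.m n + P.b n))⁻¹) *
      mm (fun q : ℕ × ℕ => vz n q.1 q.2) (fun q => ch (vw n q.1 q.2)) (fun q => ch (vu n q.1)) (Ix P n) A z := by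
  have hmul : ∀ κ κ' : ℕ →₀ ℕ, ev z (mo (κ + κ')) = ev z (mo κ) * ev z (mo κ') := by
    intro κ κ'
    rw [← map_mul]
    congr 1
    unfold mo
    rw [monomial_mul, one_mul]
  have hsum : ∀ {ι : Type} (s : Finset ι) (f : ι → ℕ →₀ ℕ), ev z (mo (∑ i ∈ s, f i)) = ∏ i ∈ s, ev z (mo (f i)) := by
    classical
    intro ι s f
    induction s using Finset.induction_on with
    | empty =>
      simp [mo, ev]
    | insert a s ha ih => rw [sum_insert ha, prod_insert ha, hmul, ih]
  have hsing : ∀ v k, ev z (mo (Finsupp.single v k)) = ch v z ^ k := by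
    intro v k
    rw [ev_mo, Finsupp.prod_single_index (by simp)]
  unfold expo
  rw [hmul, hmul, hsum, hsum, hsing, pow_one]
  simp_rw [hsing, pow_one]
  have h1 : ∏ x ∈ range n, ch (vu n x) z ^ (cnt P n A x - (2 * P.m n + P.b n)) =
      (∏ x ∈ range n, (ch (vu n x) z ^ (2 * P.m n + P.b n))⁻¹) * ∏ x ∈ range n, ch (vu n x) z ^ (cnt P n A x) := by
    rw [← prod_mul_distrib]
    apply prod_congr rfl
    intro x hx
    have h2 := hv x (mem_range.mp hx)
    rw [pow_sub₀ _ (ch_ne _ _) h2]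
    ring
  have h3 : mm (fun q : ℕ × ℕ => vz n q.1 q.2) (fun q => ch (vw n q.1 q.2)) (fun q => ch (vu n q.1)) (Ix P n) A z =
      (∏ q ∈ Ix P n, ch (if q ∈ A then vz n q.1 q.2 else vw n q.1 q.2) z) * ∏ x ∈ range n, ch (vu n x) z ^ (cnt P n A x) := by
    have h4 : ∏ x ∈ range n, ch (vu n x) z ^ (cnt P n A x) = ∏ q ∈ Ix P n, (if q ∈ A then ch (vu n q.1) z else 1) := by
      unfold Ix
      rw [prod_product]
      apply prod_congr rfl
      intro x _
      simp only
      rw [prod_ite, prod_const, prod_const_one, mul_one]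
      rfl
    rw [h4, ← prod_mul_distrib]
    unfold mm
    apply prod_congr rfl
    intro q _
    split_ifs <;> simp
  rw [h1, h3]
  ring

/-- initial segments of a filtered list -/
theorem filter_take {α : Type*} (p : α → Bool) (l : List α) : ∀ N, ∃ N',
    (l.take N').filter p = (l.filter p).take N ∧ (l.drop N').filter p = (l.filter p).drop N := by
  induction l with
  | nil => intro N; exact ⟨0, by simp, by simp⟩
  | cons a l ih =>
    intro N
    by_cases ha : p a = true
    · rcases Nat.eq_zero_or_pos N with rfl | hN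
      · refine ⟨0, ?_, ?_⟩ <;> simp
      · obtain ⟨k, rfl⟩ := Nat.exists_eq_succ_of_ne_zero hN.ne'
        obtain ⟨N', h1, h2⟩ := ih k
        refine ⟨N' + 1, ?_, ?_⟩
        · simp [List.filter_cons, ha, h1]
        · simp [List.filter_cons, ha, h2]
    · obtain ⟨N', h1, h2⟩ := ih N
      refine ⟨N' + 1, ?_, ?_⟩
      · simp [List.filter_cons, ha, h1]
      · simp [List.filter_cons, ha, h2]

/-- restriction to a list of exponents -/
theorem res_list (L : List (ℕ →₀ ℕ)) (hL : L.Nodup) (f : PP) :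
    res (fun κ => κ ∈ L) f = (L.map fun κ => coeff κ f • mo κ).sum := by
  classical
  rw [← List.sum_toFinset _ hL]
  ext κ
  rw [coeff_res, coeff_sum]
  simp_rw [coeff_smul]
  unfold mo
  simp_rw [coeff_monomial, smul_eq_mul, mul_ite, mul_one, mul_zero]
  rw [sum_ite_eq' L.toFinset κ]
  simp [List.mem_toFinset]

theorem exists_list (n : ℕ) : ∃ L : List (ℕ →₀ ℕ), L.Nodup ∧ (∀ κ, κ ∈ L ↔ Ga P 0 n κ) ∧
    ∀ (N : ℕ) (f : PP), NN (res (fun κ => κ ∈ L.take N) f) ≤ 6 * NN (eo P 0 n f) := by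
  classical
  obtain ⟨l, hnd, hmem, hgood⟩ := exists_order (fun q : ℕ × ℕ => vz n q.1 q.2)
    (by
      rintro ⟨x, i⟩ ⟨y, j⟩ h
      simp [vz, Nat.pair_eq_pair] at h
      exact Prod.ext h.1 h.2)
    (fun q => ch (vw n q.1 q.2)) (fun q => ch (vu n q.1)) (fun q => continuous_ch _) (fun q => continuous_ch _)
    (fun q z => norm_ch _ _) (fun q z => norm_ch _ _)
    (fun q r t z => ch_shift_ne (by simp [vz, vw, Nat.pair_eq_pair]) _ _)
    (fun q r t z => ch_shift_ne (by simp [vz, vu, Nat.pair_eq_pair]) _ _)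
    (Ix P n)
  set l' := l.filter fun A => decide (vld P n A) with hl'
  set L := l'.map (expo P n) with hLdef
  have hl'mem : ∀ A, A ∈ l' ↔ A ⊆ Ix P n ∧ vld P n A := by
    intro A
    rw [hl', List.mem_filter, hmem]
    simp
  have hLnd : L.Nodup := by
    apply List.Nodup.map_on _ (hnd.filter _)
    intro A hA B hB h
    exact expo_inj P n A B ((hl'mem A).mp hA).1 ((hl'mem B).mp hB).1 h
  have hLmem : ∀ κ, κ ∈ L ↔ Ga P 0 n κ := by
    intro κ
    rw [hLdef, List.mem_map]
    constructor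
    · rintro ⟨A, hA, rfl⟩
      exact expo_Ga P n A ((hl'mem A).mp hA).2
    · intro h
      obtain ⟨A, h1, h2, h3⟩ := Ga_expo P n κ h
      exact ⟨A, (hl'mem A).mpr ⟨h1, h2⟩, h3⟩
  refine ⟨L, hLnd, hLmem, ?_⟩
  intro N f
  set c : Finset (ℕ × ℕ) → ℂ := fun A => if vld P n A then coeff (expo P n A) f else 0 with hc
  set mmf := mm (fun q : ℕ × ℕ => vz n q.1 q.2) (fun q => ch (vw n q.1 q.2)) (fun q => ch (vu n q.1)) (Ix P n) with hmmf
  set U : Om → ℂ := fun z => ch (vr 0 n) z * ∏ x ∈ range n, (ch (vu n x) z ^ (2 * P.m n + P.b n))⁻¹ with hU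
  have hU1 : ∀ z, ‖U z‖ = 1 := by
    intro z
    simp only [hU]
    rw [norm_mul, norm_ch, norm_prod, one_mul]
    apply prod_eq_one
    intro x _
    rw [norm_inv, norm_pow, norm_ch, one_pow, inv_one]
  have hmc : ∀ A, Continuous (mmf A) := fun A => continuous_mm _ _ _ (fun q => continuous_ch _) (fun q => continuous_ch _) _ _
  have key : ∀ l₀ : List (Finset (ℕ × ℕ)), (∀ A ∈ l₀, A ⊆ Ix P n) → ∀ z,
      ev z (((l₀.filter fun A => decide (vld P n A)).map (expo P n)).map fun κ => coeff κ f • mo κ).sum = U z * lsum l₀ c mmf z := by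
    intro l₀
    induction l₀ with
    | nil => intro _ z; simp [lsum]
    | cons A l₀ ih =>
      intro h z
      have h1 := ih (fun B hB => h B (List.mem_cons_of_mem _ hB)) z
      have h2 : lsum (A :: l₀) c mmf z = c A * mmf A z + lsum l₀ c mmf z := by simp [lsum]
      rw [h2, mul_add, ← h1]
      by_cases hv : vld P n A
      · rw [List.filter_cons_of_pos (by simpa using hv), List.map_cons, List.map_cons, List.sum_cons, map_add, map_smul,
          ev_expo P n A (h A List.mem_cons_self) hv]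
        congr 1
        simp only [hc, if_pos hv, hU, hmmf, smul_eq_mul]
        ring
      · rw [List.filter_cons_of_neg (by simpa using hv)]
        simp [hc, hv]
  obtain ⟨N', hN1, hN2⟩ := filter_take (fun A => decide (vld P n A)) l N
  have e1 : ∀ z, ev z (res (fun κ => κ ∈ L.take N) f) = U z * lsum (l.take N') c mmf z := by
    intro z
    rw [res_list _ (hLnd.sublist (List.take_sublist _ _)), ← key (l.take N') (fun A hA => (hmem A).mp (List.mem_of_mem_take hA)) z,
      hLdef, ← List.map_take, hl', ← hN1]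
  have e2 : ∀ z, ev z (eo P 0 n f) = U z * lsum l c mmf z := by
    intro z
    have h1 : eo P 0 n = res (fun κ => κ ∈ L) := res_congr fun κ => (hLmem κ).symm
    rw [h1, res_list _ hLnd, ← key l (fun A hA => (hmem A).mp hA) z]
  have hcl : ∀ l₀ : List (Finset (ℕ × ℕ)), Continuous (lsum l₀ c mmf) := fun l₀ => continuous_lsum l₀ c mmf hmc
  unfold NN
  simp_rw [e1, e2, norm_mul, hU1, one_mul]
  have h3 := hgood c N'
  have h4 : ∫ z, UU (lsum (l.take N') c mmf z) (lsum (l.drop N') c mmf z) ∂mu ≤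
      ∫ z, (6 * ‖lsum l c mmf z‖ - ‖lsum (l.take N') c mmf z‖) ∂mu := by
    apply integral_mono
    · exact integrable_cont_Om' (continuous_UU (hcl _) (hcl _))
    · exact integrable_cont_Om' ((continuous_const.mul (hcl _).norm).sub (hcl _).norm)
    · intro z
      have h5 := UU_le (lsum (l.take N') c mmf z) (lsum (l.drop N') c mmf z)
      rw [← lsum_append, List.take_append_drop] at h5
      exact h5
  have g1 : Integrable (fun z => 6 * ‖lsum l c mmf z‖) mu := integrable_cont_Om' (continuous_const.mul (hcl _).norm)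
  have g2 : Integrable (fun z => ‖lsum (l.take N') c mmf z‖) mu := integrable_cont_Om' (hcl _).norm
  rw [integral_sub g1 g2, integral_const_mul] at h4
  linarith

end

end Pool.Agent.H155R3
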