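import Pool.Agent.H155R3.K7
import Pool.Agent.H155R3.K2c
import Pool.Agent.H155R3.K6

set_option autoImplicit false
set_option linter.all false

/-!
# The basic sequence of polynomials
-/

namespace Pool.Agent.H155R3

open MeasureTheory Finset MvPolynomial

/-- uniformly bounded families of operators -/
def UB (T : ℕ → Module.End ℂ PP) : Prop := ∃ C : ℝ, 0 ≤ C ∧ ∀ n p, NN (T n p) ≤ C * NN p

theorem UB.add {T S : ℕ → Module.End ℂ PP} (hT : UB T) (hS : UB S) : UB fun n => T n + S n := by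
  obtain ⟨C, hC, h1⟩ := hT
  obtain ⟨D, hD, h2⟩ := hS
  refine ⟨C + D, by positivity, fun n p => ?_⟩
  rw [LinearMap.add_apply]
  have := NN_add (T n p) (S n p)
  have := h1 n p
  have := h2 n p
  linarith

theorem UB.sub {T S : ℕ → Module.End ℂ PP} (hT : UB T) (hS : UB S) : UB fun n => T n - S n := by
  obtain ⟨C, hC, h1⟩ := hT
  obtain ⟨D, hD, h2⟩ := hS
  refine ⟨C + D, by positivity, fun n p => ?_⟩
  rw [LinearMap.sub_apply]
  have := NN_sub (T n p) (S n p)
  have := h1 n p
  have := h2 n p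
  linarith

theorem UB.mul {T S : ℕ → Module.End ℂ PP} (hT : UB T) (hS : UB S) : UB fun n => T n * S n := by
  obtain ⟨C, hC, h1⟩ := hT
  obtain ⟨D, hD, h2⟩ := hS
  refine ⟨C * D, by positivity, fun n p => ?_⟩
  rw [Module.End.mul_apply]
  calc NN (T n (S n p)) ≤ C * NN (S n p) := h1 n _
    _ ≤ C * (D * NN p) := mul_le_mul_of_nonneg_left (h2 n p) hC
    _ = C * D * NN p := by ring

theorem UB.shift {T : ℕ → Module.End ℂ PP} (hT : UB T) : UB fun n => T (n + 1) := by
  obtain ⟨C, hC, h1⟩ := hT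
  exact ⟨C, hC, fun n p => h1 (n + 1) p⟩

theorem NN_two (p : PP) : NN ((2 : Module.End ℂ PP) p) ≤ 2 * NN p := by
  have h : (2 : Module.End ℂ PP) p = p + p := by
    have : (2 : Module.End ℂ PP) = 1 + 1 := by norm_num
    rw [this, LinearMap.add_apply, Module.End.one_apply]
  rw [h]
  have := NN_add p p
  linarith

theorem UB.two {T : ℕ → Module.End ℂ PP} (hT : UB T) : UB fun n => 2 * T n :=
  UB.mul (T := fun _ => (2 : Module.End ℂ PP)) ⟨2, by norm_num, fun _ p => NN_two p⟩ hT

section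

variable (P : Par)

/-- the maps of the factorisation -/
noncomputable def Ao (n : ℕ) : Module.End ℂ PP := cho P * aP P n * eo P 0 n
noncomputable def Go (n : ℕ) : Module.End ℂ PP := gP P n * cho P

theorem AG (n : ℕ) : Ao P n * Go P n = cho P * TP P n := by
  unfold Ao Go
  calc cho P * aP P n * eo P 0 n * (gP P n * cho P) = cho P * (aP P n * (eo P 0 n * gP P n)) * cho P := by
        simp only [mul_assoc]
    _ = cho P * TP P n * cho P := by rw [eo_gP, ag_eq]
    _ = cho P * TP P n := by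
        have h : cho P * TP P n = TP P n * cho P := cho_comm P _
        rw [h, mul_assoc, cho_idem]

theorem table (n : ℕ) : DTab (eo P 0 n) (eo P 0 (n + 1)) (eo P 1 n) (Fo P n) (Ao P n) (Ao P (n + 1)) (Go P n) (Go P (n + 1))
    (tho n * eo P 0 n) (eo P 0 n * tho n) := by
  have hT : cho P * TP P (n + 1) = TP P (n + 1) * cho P := cho_comm P _
  apply DTab.mk' _ _ _ _ _ _ _ _ _ (cho P)
  · exact eo_idem P 0 n
  · exact eo_idem P 0 (n + 1)
  · exact eo_idem P 1 n
  · exact Fo_idem P n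
  · exact eo_orth P (by omega)
  · exact eo_orth P (by omega)
  · exact eo_orth P (by omega)
  · exact eo_orth P (by omega)
  · exact eo_orth P (by omega)
  · exact eo_orth P (by omega)
  · exact Fo_eo P n n 0 le_rfl
  · exact eo_Fo P n n 0 le_rfl
  · exact Fo_eo P n (n + 1) 0 (by omega)
  · exact eo_Fo P n (n + 1) 0 (by omega)
  · exact Fo_eo P n n 1 le_rfl
  · exact eo_Fo P n n 1 le_rfl
  · exact cho_eo P (Or.inl rfl) n
  · exact eo_cho P (Or.inl rfl) n
  · exact cho_eo P (Or.inl rfl) (n + 1)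
  · exact eo_cho P (Or.inl rfl) (n + 1)
  · exact cho_eo P (Or.inr rfl) n
  · exact eo_cho P (Or.inr rfl) n
  · exact cho_Fo P n
  · exact Fo_cho P n
  · unfold Ao; rw [← mul_assoc, ← mul_assoc, cho_idem]
  · unfold Ao; rw [mul_assoc, eo_idem]
  · unfold Ao; rw [← mul_assoc, ← mul_assoc, cho_idem]
  · unfold Ao; rw [mul_assoc, eo_idem]
  · unfold Go; rw [← mul_assoc, eo_gP]
  · unfold Go; rw [mul_assoc, cho_idem]
  · unfold Go; rw [← mul_assoc, eo_gP]
  · unfold Go; rw [mul_assoc, cho_idem]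
  · exact tho_sq n
  · exact tho_eo P n
  · rw [← mul_assoc, AG, hT]
    unfold Ao
    calc TP P (n + 1) * cho P * (cho P * aP P n * eo P 0 n) = TP P (n + 1) * (cho P * cho P) * aP P n * eo P 0 n := by
          simp only [mul_assoc]
      _ = (cho P * TP P (n + 1)) * aP P n * eo P 0 n := by rw [cho_idem, hT]
      _ = cho P * (TP P (n + 1) * aP P n) * eo P 0 n := by simp only [mul_assoc]
      _ = cho P * aP P n * eo P 0 n := by rw [TP_aP]
  · rw [AG]
    unfold Go
    calc gP P n * cho P * (cho P * TP P (n + 1)) = gP P n * ((cho P * cho P) * TP P (n + 1)) := by simp only [mul_assoc]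
      _ = (gP P n * TP P (n + 1)) * cho P := by rw [cho_idem, hT, mul_assoc]
      _ = gP P n * cho P := by rw [gP_TP]

/-- The projections. -/
noncomputable def Bo (n : ℕ) : Module.End ℂ PP := dP0 (eo P 0 n) (Fo P n) (Ao P n) (Go P n)

theorem Bo_succ (n : ℕ) : Bo P (n + 1) = dP1 (eo P 0 n) (eo P 0 (n + 1)) (eo P 1 n) (Fo P n) (Ao P (n + 1)) (Go P (n + 1)) := by
  unfold Bo dP0 dP1
  rw [Fo_succ]

/-- maps of the stages: stage 0, then stage n+1 -/
noncomputable def Jo : ℕ → Module.End ℂ PP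
  | 0 => di (eo P 0 0) (Ao P 0) (Go P 0)
  | n + 1 => dJ (eo P 0 n) (eo P 0 (n + 1)) (Ao P n) (Ao P (n + 1)) (Go P n) (Go P (n + 1)) (tho n * eo P 0 n)

noncomputable def Do : ℕ → Module.End ℂ PP
  | 0 => dw (eo P 0 0) (Ao P 0) (Go P 0)
  | n + 1 => dD (eo P 0 n) (eo P 0 (n + 1)) (Ao P n) (Ao P (n + 1)) (Go P n) (Go P (n + 1)) (eo P 0 n * tho n)

/-- lower projection of a stage -/
noncomputable def Lo : ℕ → Module.End ℂ PP
  | 0 => 0
  | n + 1 => Bo P n

noncomputable def qo : ℕ → Module.End ℂ PP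
  | 0 => eo P 0 0
  | n + 1 => eo P 0 (n + 1) + eo P 0 n

theorem Fo_zero : Fo P 0 = 0 := by
  unfold Fo
  rw [res_empty, res_empty, add_zero]
  · rintro κ ⟨n, h, _⟩; omega
  · rintro κ ⟨n, h, _⟩; omega

theorem stages (n : ℕ) : Stage (Lo P n) (Lo P (n + 1)) (Jo P n) (Do P n) (qo P n) := by
  cases n with
  | zero =>
    have T := table P 0
    have h := stage0 (eo P 0 0) (Ao P 0) (Go P 0) T.h_e0_e0 T.h_α0_e0 T.h_e0_α0 T.h_e0_γ0 T.h_γ0_e0 T.h_α0_α0 T.h_γ0_γ0
    have e : Lo P (0 + 1) = di (eo P 0 0) (Ao P 0) (Go P 0) * dw (eo P 0 0) (Ao P 0) (Go P 0) := by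
      show Bo P 0 = _
      unfold Bo dP0
      rw [Fo_zero, add_zero]
    rw [e]
    exact h
  | succ n =>
    have h := (table P n).stage
    show Stage (Bo P n) (Bo P (n + 1)) _ _ _
    rw [Bo_succ]
    exact h

/-! ### bounds -/

theorem UB_eo (c : ℕ) : UB fun n => eo P c n := ⟨1, by norm_num, fun n p => by rw [one_mul]; exact eo_le P c n p⟩
theorem UB_cho : UB fun _ => cho P := ⟨3, by norm_num, fun n p => cho_le P p⟩
theorem UB_Fo : UB fun n => Fo P n := ⟨2, by norm_num, fun n p => Fo_le P n p⟩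
theorem UB_aP : UB fun n => aP P n := ⟨3, by norm_num, fun n p => aP_le P n p⟩
theorem UB_gP : UB fun n => gP P n := ⟨3, by norm_num, fun n p => gP_le P n p⟩
theorem UB_tho : UB fun n => tho n := ⟨1, by norm_num, fun n p => by rw [one_mul, NN_tho]⟩
theorem UB_Ao : UB fun n => Ao P n := ((UB_cho P).mul (UB_aP P)).mul (UB_eo P 0)
theorem UB_Go : UB fun n => Go P n := (UB_gP P).mul (UB_cho P)
theorem UB_dw : UB fun n => dw (eo P 0 n) (Ao P n) (Go P n) :=
  ((((UB_eo P 0).two).sub ((UB_Go P).mul (UB_Ao P))).mul (UB_Go P)).add ((UB_eo P 0).sub ((UB_Go P).mul (UB_Ao P)))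
theorem UB_di : UB fun n => di (eo P 0 n) (Ao P n) (Go P n) :=
  (UB_Ao P).add ((UB_eo P 0).sub ((UB_Go P).mul (UB_Ao P)))
theorem UB_Bo : UB fun n => Bo P n := ((UB_di P).mul (UB_dw P)).add (UB_Fo P)
theorem UB_U : UB fun n => dU (eo P 0 n) (Ao P n) (Ao P (n + 1)) (Go P n) :=
  ((((UB_eo P 0).two).sub ((UB_Go P).mul (UB_Ao P))).mul ((UB_Go P).mul (UB_Ao P).shift)).add
    ((UB_eo P 0).sub ((UB_Go P).mul (UB_Ao P)))
theorem UB_J1 : UB fun n => Jo P (n + 1) :=
  ((UB_di P).shift.add (UB_eo P 0)).sub (((UB_di P).sub ((UB_tho).mul (UB_eo P 0))).mul (UB_U P))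
theorem UB_D1 : UB fun n => Do P (n + 1) :=
  ((UB_dw P).shift.add (UB_eo P 0)).add
    ((((UB_Go P).shift.mul (UB_Ao P)).add ((UB_eo P 0).sub ((UB_Go P).mul (UB_Ao P)))).mul
      (((UB_eo P 0).mul UB_tho).sub (UB_dw P)))

theorem UB.unshift {T : ℕ → Module.End ℂ PP} (hT : UB fun n => T (n + 1)) (C0 : ℝ) (h0 : 0 ≤ C0)
    (h : ∀ p, NN (T 0 p) ≤ C0 * NN p) : UB T := by
  obtain ⟨C, hC, h1⟩ := hT
  refine ⟨C + C0, by positivity, fun n p => ?_⟩
  have hp := NN_nonneg p
  cases n with
  | zero => have := h p; nlinarith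
  | succ n => have := h1 n p; simp only at this; nlinarith

theorem UB_Jo : UB fun n => Jo P n := by
  obtain ⟨C, hC, h⟩ := UB_di P
  exact UB.unshift (UB_J1 P) C hC fun p => h 0 p

theorem UB_Do : UB fun n => Do P n := by
  obtain ⟨C, hC, h⟩ := UB_dw P
  exact UB.unshift (UB_D1 P) C hC fun p => h 0 p

theorem UB_Lo : UB fun n => Lo P n :=
  UB.unshift (T := Lo P) (UB_Bo P) 0 le_rfl fun p => by
    show NN ((0 : Module.End ℂ PP) p) ≤ _
    rw [LinearMap.zero_apply, NN_zero, zero_mul]

/-! ### eventual identity -/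

theorem vr_ge (c n : ℕ) : n ≤ vr c n := (Nat.right_le_pair c n).trans (Nat.right_le_pair 0 _)

theorem ev_Fo (f : PP) : ∃ n0, ∀ n ≥ n0, eo P 0 n f = 0 ∧ Fo P n f = f - cho P f := by
  classical
  induction f using mo_ind with
  | h0 κ =>
    have hG : ∀ n, κ.support.sup id < n → ∀ c, ¬ Ga P c n κ := by
      intro n hn c h
      have h1 : vr c n ∈ κ.support := by
        rw [Finsupp.mem_support_iff, h.h1]; exact one_ne_zero
      have h2 : vr c n ≤ κ.support.sup id := Finset.le_sup (f := id) h1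
      have := vr_ge c n
      omega
    refine ⟨κ.support.sup id + 1, fun n hn => ⟨?_, ?_⟩⟩
    · unfold eo
      rw [res_mo, if_neg (hG n (by omega) 0)]
    · have h1 : ∀ c, GT P c (fun k => k < n) κ ↔ GT P c (fun _ => True) κ := by
        intro c
        constructor
        · rintro ⟨k, _, h⟩; exact ⟨k, trivial, h⟩
        · rintro ⟨k, _, h⟩
          refine ⟨k, ?_, h⟩
          by_contra h2
          exact hG k (by omega) c h
      unfold Fo cho
      rw [LinearMap.add_apply, LinearMap.sub_apply, LinearMap.add_apply, Module.End.one_apply, res_mo, res_mo, res_mo, res_mo]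
      simp only [h1]
      abel
  | hadd p q hp hq =>
    obtain ⟨n1, h1⟩ := hp
    obtain ⟨n2, h2⟩ := hq
    refine ⟨n1 + n2, fun n hn => ?_⟩
    obtain ⟨a1, a2⟩ := h1 n (by omega)
    obtain ⟨b1, b2⟩ := h2 n (by omega)
    refine ⟨?_, ?_⟩
    · rw [map_add, a1, b1, add_zero]
    · rw [map_add, map_add, a2, b2]; abel
  | hs c p hp =>
    obtain ⟨n1, h1⟩ := hp
    refine ⟨n1, fun n hn => ?_⟩
    obtain ⟨a1, a2⟩ := h1 n hn
    refine ⟨?_, ?_⟩
    · rw [map_smul, a1, smul_zero]
    · rw [map_smul, map_smul, a2, smul_sub]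

theorem Bo_eventually (f : PP) : ∃ n0, ∀ n ≥ n0, Bo P n f = f := by
  obtain ⟨n1, h1⟩ := ev_Fo P f
  obtain ⟨n2, h2⟩ := TP_eventually P f
  refine ⟨n1 + n2, fun n hn => ?_⟩
  obtain ⟨he, hF⟩ := h1 n (by omega)
  have hT := h2 n (by omega)
  have T := table P n
  have hAG : Ao P n (Go P n f) = cho P f := by
    rw [← Module.End.mul_apply, AG, Module.End.mul_apply, hT]
  have hA : Ao P n f = 0 := by
    unfold Ao
    rw [Module.End.mul_apply, he, map_zero]
  have hGc : Go P n (cho P f) = Go P n f := by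
    unfold Go
    rw [← Module.End.mul_apply, mul_assoc, cho_idem]
  have heG : eo P 0 n (Go P n f) = Go P n f := by
    rw [← Module.End.mul_apply, T.h_e0_γ0]
  have hw : dw (eo P 0 n) (Ao P n) (Go P n) f = Go P n f := by
    unfold dw
    rw [LinearMap.add_apply, Module.End.mul_apply, LinearMap.sub_apply, LinearMap.sub_apply, Module.End.mul_apply,
      Module.End.mul_apply, Module.End.mul_apply, he, hA, heG, hAG, hGc, map_zero]
    have : (2 : Module.End ℂ PP) (Go P n f) = Go P n f + Go P n f := by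
      have : (2 : Module.End ℂ PP) = 1 + 1 := by norm_num
      rw [this, LinearMap.add_apply, Module.End.one_apply]
    rw [this]
    abel
  unfold Bo dP0
  rw [LinearMap.add_apply, Module.End.mul_apply, hw, hF]
  unfold di
  rw [LinearMap.add_apply, LinearMap.sub_apply, Module.End.mul_apply, hAG, hGc, heG]
  abel

/-! ### lists -/

theorem M_large (n : ℕ) : 2 * P.m n + P.b n ≤ P.M n := by
  by_contra h
  push Not at h
  apply P.hlam n 0 (P.b n) (by omega)
  unfold lam ee
  rw [powersetCard_eq_empty.mpr (by rw [card_range]; exact h)]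
  simp

theorem exists_Ga (n : ℕ) : ∃ κ, Ga P 0 n κ := by
  refine ⟨expo P n (Ix P n), expo_Ga P n _ ?_⟩
  intro x hx
  have h1 : cnt P n (Ix P n) x = P.M n := by
    unfold cnt
    rw [filter_true_of_mem]
    · exact card_range _
    · intro i hi
      simp only [Ix, mem_product, mem_range]
      exact ⟨hx, mem_range.mp hi⟩
  rw [h1]
  exact M_large P n

/-- coordinate list of a stage -/
theorem exists_stage_list (n : ℕ) : ∃ L : List (ℕ →₀ ℕ), L.Nodup ∧ 1 ≤ L.length ∧ res (fun κ => κ ∈ L) = qo P n ∧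
    ∀ (N : ℕ) (f : PP), NN (res (fun κ => κ ∈ L.take N) f) ≤ 12 * NN f := by
  classical
  cases n with
  | zero =>
    obtain ⟨L, h1, h2, h3⟩ := exists_list P 0
    refine ⟨L, h1, ?_, res_congr h2, fun N f => ?_⟩
    · obtain ⟨κ, hκ⟩ := exists_Ga P 0
      exact List.length_pos_of_mem ((h2 κ).mpr hκ)
    · have := h3 N f
      have := eo_le P 0 0 f
      have := NN_nonneg f
      linarith
  | succ n =>
    obtain ⟨L, h1, h2, h3⟩ := exists_list P (n + 1)
    obtain ⟨L', h1', h2', h3'⟩ := exists_list P n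
    have hdisj : ∀ κ, κ ∈ L → κ ∈ L' → False := by
      intro κ ha hb
      have := (Ga_disj P ((h2 κ).mp ha) ((h2' κ).mp hb)).2
      omega
    refine ⟨L ++ L', ?_, ?_, ?_, ?_⟩
    · exact List.Nodup.append h1 h1' fun κ ha hb => hdisj κ ha hb
    · obtain ⟨κ, hκ⟩ := exists_Ga P (n + 1)
      have := List.length_pos_of_mem ((h2 κ).mpr hκ)
      rw [List.length_append]
      omega
    · have e1 : res (fun κ => κ ∈ L ++ L') = res (fun κ => κ ∈ L ∨ κ ∈ L') := res_congr fun κ => List.mem_append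
      rw [e1, ← res_or hdisj, res_congr h2, res_congr h2']
      rfl
    · intro N f
      have e1 : res (fun κ => κ ∈ (L ++ L').take N) = res (fun κ => κ ∈ L.take N) + res (fun κ => κ ∈ L'.take (N - L.length)) := by
        rw [res_or]
        · apply res_congr
          intro κ
          rw [List.take_append, List.mem_append]
        · intro κ ha hb
          exact hdisj κ (List.mem_of_mem_take ha) (List.mem_of_mem_take hb)
      rw [e1, LinearMap.add_apply]
      have a1 := NN_add (res (fun κ => κ ∈ L.take N) f) (res (fun κ => κ ∈ L'.take (N - L.length)) f)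
      have a2 := h3 N f
      have a3 := h3' (N - L.length) f
      have a4 := eo_le P 0 (n + 1) f
      have a5 := eo_le P 0 n f
      linarith

theorem exists_basic_poly (P : Par) : ∃ (b : ℕ → PP) (C : ℝ), (∀ i, b i ≠ 0) ∧ (∀ f, f ∈ Submodule.span ℂ (Set.range b)) ∧
      ∀ (c : ℕ → ℂ) (n m : ℕ), n ≤ m → NN (∑ i ∈ Finset.range n, c i • b i) ≤ C * NN (∑ i ∈ Finset.range m, c i • b i) := by
  classical
  choose L hLnd hLlen hLq hLb using exists_stage_list P
  obtain ⟨CL, hCL, hL⟩ := UB_Lo P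
  obtain ⟨CJ, hCJ, hJ⟩ := UB_Jo P
  obtain ⟨CD, hCD, hD⟩ := UB_Do P
  set q : ℕ → ℕ → Module.End ℂ PP := fun n j => res (fun κ => κ ∈ (L n).take j) with hq
  set Q : ℕ → ℕ → Module.End ℂ PP := fun n j => Lo P n + Jo P n * q n j * Do P n with hQ
  have hS := stages P
  have hqq : ∀ n j, q n j * qo P n = q n j := by
    intro n j
    rw [← hLq]
    exact res_sub_right fun κ h => List.mem_of_mem_take h
  have hmul : ∀ n j k, Q n j * Q n k = Lo P n + Jo P n * (q n j * q n k) * Do P n := fun n j k =>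
    (hS n).mul _ _ (hqq n j)
  have hqle : ∀ n j k, j ≤ k → q n j * q n k = q n j ∧ q n k * q n j = q n j := by
    intro n j k hjk
    have hsub : ∀ κ, κ ∈ (L n).take j → κ ∈ (L n).take k := fun κ h => (List.take_subset_take_left _ hjk) h
    exact ⟨res_sub_right hsub, res_sub_left hsub⟩
  have hdiff : ∀ n j, Q n (j + 1) - Q n j = Jo P n * (q n (j + 1) - q n j) * Do P n := by
    intro n j
    simp only [hQ]
    rw [mul_sub, sub_mul]
    abel
  have hqdiff : ∀ n j (hj : j < (L n).length) (h : PP), (q n (j + 1) - q n j) h = coeff ((L n)[j]) h • mo ((L n)[j]) := by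
    intro n j hj h
    have h1 : q n (j + 1) h = ((L n).take (j + 1) |>.map fun κ => coeff κ h • mo κ).sum :=
      res_list _ ((hLnd n).sublist (List.take_sublist _ _)) h
    have h2 : q n j h = ((L n).take j |>.map fun κ => coeff κ h • mo κ).sum :=
      res_list _ ((hLnd n).sublist (List.take_sublist _ _)) h
    rw [LinearMap.sub_apply, h1, h2, List.take_add_one, List.getElem?_eq_getElem hj, List.map_append, List.sum_append]
    simp only [Option.toList_some, List.map_cons, List.map_nil, List.sum_cons, List.sum_nil, add_zero]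
    abel
  have s1 : ∀ n, Q n ((fun n => (L n).length) n) = Q (n + 1) 0 := by
    -- junction
    intro n
    have e1 : q n (L n).length = qo P n := by
      simp only [hq]
      rw [List.take_length, hLq]
    have e2 : q (n + 1) 0 = 0 := by
      simp only [hq, List.take_zero]
      exact res_empty fun κ => by simp
    simp only [hQ]
    rw [e1, e2, (hS n).Jq, (hS n).JD]
    simp
  have s2 : Q 0 0 = 0 := by
    have e2 : q 0 0 = 0 := by
      simp only [hq, List.take_zero]
      exact res_empty fun κ => by simp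
    simp only [hQ]
    rw [e2]
    simp [Lo]
  have s3 : ∀ n j, j ≤ (fun n => (L n).length) n → Q n j * Q n j = Q n j := by
    intro n j _
    rw [hmul, (hqle n j j le_rfl).1]
  have s4 : ∀ n j, j < (fun n => (L n).length) n → Q n (j + 1) * Q n j = Q n j := by
    intro n j _
    rw [hmul, (hqle n j (j + 1) (by omega)).2]
  have s5 : ∀ n j, j < (fun n => (L n).length) n → Q n j * Q n (j + 1) = Q n j := by
    intro n j _
    rw [hmul, (hqle n j (j + 1) (by omega)).1]
  have s6 : ∀ n j, j < (fun n => (L n).length) n → ∃ g : PP, g ≠ 0 ∧ (Q n (j + 1) - Q n j) g = g ∧ ∀ f, ∃ c : ℂ, (Q n (j + 1) - Q n j) f = c • g := by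
    intro n j hj
    have hmem : (L n)[j] ∈ L n := List.getElem_mem hj
    have hDJ : Do P n (Jo P n (mo ((L n)[j]))) = mo ((L n)[j]) := by
      rw [← Module.End.mul_apply, (hS n).DJ, ← hLq, res_mo, if_pos hmem]
    have hc : coeff ((L n)[j]) (mo ((L n)[j])) = 1 := by
      unfold mo
      rw [coeff_monomial, if_pos rfl]
    refine ⟨Jo P n (mo ((L n)[j])), ?_, ?_, ?_⟩
    · intro h
      rw [h, map_zero] at hDJ
      rw [← hDJ] at hc
      simp at hc
    · rw [hdiff, Module.End.mul_apply, Module.End.mul_apply, hDJ, hqdiff n j hj, hc, one_smul]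
    · intro f
      refine ⟨coeff ((L n)[j]) (Do P n f), ?_⟩
      rw [hdiff, Module.End.mul_apply, Module.End.mul_apply, hqdiff n j hj, map_smul]
  have s7 : ∀ n j, j ≤ (fun n => (L n).length) n → ∀ f, NN (Q n j f) ≤ (CL + CJ * (12 * CD)) * NN f := by
    intro n j _ f
    simp only [hQ]
    rw [LinearMap.add_apply, Module.End.mul_apply, Module.End.mul_apply]
    have a1 := NN_add (Lo P n f) (Jo P n (q n j (Do P n f)))
    have a2 := hL n f
    have a3 := hJ n (q n j (Do P n f))
    have a4 := hLb n j (Do P n f)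
    have a5 := hD n f
    have a6 := NN_nonneg f
    calc NN (Lo P n f + Jo P n (q n j (Do P n f))) ≤ NN (Lo P n f) + NN (Jo P n (q n j (Do P n f))) := a1
      _ ≤ CL * NN f + CJ * NN (q n j (Do P n f)) := add_le_add a2 a3
      _ ≤ CL * NN f + CJ * (12 * (CD * NN f)) := by
          apply add_le_add le_rfl
          apply mul_le_mul_of_nonneg_left _ hCJ
          refine a4.trans ?_
          exact mul_le_mul_of_nonneg_left a5 (by norm_num)
      _ = (CL + CJ * (12 * CD)) * NN f := by ring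
  have s8 : ∀ f, ∃ n, ∀ n' ≥ n, Q n' 0 f = f := by
    intro f
    obtain ⟨n0, hn0⟩ := Bo_eventually P f
    refine ⟨n0 + 1, fun n hn => ?_⟩
    obtain ⟨k, rfl⟩ := Nat.exists_eq_succ_of_ne_zero (by omega : n ≠ 0)
    have e2 : q (k + 1) 0 = 0 := by
      simp only [hq, List.take_zero]
      exact res_empty fun κ => by simp
    have e3 : Q (k + 1) 0 = Bo P k := by
      simp only [hQ]
      rw [e2]
      simp [Lo]
    show Q (k + 1) 0 f = f
    rw [e3]
    exact hn0 k (by omega)

  obtain ⟨b, h1, h2, h3⟩ := exists_basic NN Q (fun n => (L n).length) hLlen s1 s2 s3 s4 s5 s6 (CL + CJ * (12 * CD)) s7 s8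
  exact ⟨b, _, h1, h2, h3⟩

end

end Pool.Agent.H155R3
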