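import Pool.Agent.H155R3.Good

set_option autoImplicit false

namespace Pool.Agent.H155R3

open Filter Topology

abbrev ell2 : Type := lp (fun _ : ℕ => ℂ) 2

theorem two_toReal : (2 : ENNReal).toReal = (2 : ℝ) := by norm_num

theorem ell2_norm_sq (u : ell2) : ‖u‖ ^ 2 = ∑' n, ‖u n‖ ^ 2 := by
  have h := lp.norm_rpow_eq_tsum (p := 2) (E := fun _ : ℕ => ℂ) (by norm_num) u
  rw [two_toReal] at h
  simpa using h

theorem summable_geo : Summable (fun m : ℕ => ((9 : ℝ) / 16) ^ m) :=
  summable_geometric_of_lt_one (by norm_num) (by norm_num)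

theorem mem_of_bound {f : ℕ → ℂ} {C : ℝ} (h : ∀ m, ‖f m‖ ≤ C * (3 / 4) ^ m) :
    Memℓp (E := fun _ : ℕ => ℂ) f 2 := by
  apply memℓp_gen
  rw [two_toReal]
  refine Summable.of_nonneg_of_le (fun m => by positivity) (fun m => ?_) (summable_geo.mul_left (C ^ 2))
  have h1 := h m
  rw [Real.rpow_two]
  calc ‖f m‖ ^ 2 ≤ (C * (3 / 4) ^ m) ^ 2 := pow_le_pow_left₀ (norm_nonneg _) h1 2
    _ = C ^ 2 * (9 / 16) ^ m := by
      rw [mul_pow, ← pow_mul, mul_comm m 2, pow_mul]; norm_num

theorem ell2_norm_le {u : ell2} {C : ℝ} (hC : 0 ≤ C) (h : ∀ m, ‖u m‖ ≤ C * (3 / 4) ^ m) :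
    ‖u‖ ≤ 2 * C := by
  have h1 : ‖u‖ ^ 2 ≤ (2 * C) ^ 2 := by
    rw [ell2_norm_sq]
    have h2 : ∀ m, ‖u m‖ ^ 2 ≤ C ^ 2 * (9 / 16 : ℝ) ^ m := by
      intro m
      calc ‖u m‖ ^ 2 ≤ (C * (3 / 4) ^ m) ^ 2 := pow_le_pow_left₀ (norm_nonneg _) (h m) 2
        _ = C ^ 2 * (9 / 16) ^ m := by
          rw [mul_pow, ← pow_mul, mul_comm m 2, pow_mul]; norm_num
    have h3 : Summable (fun m => ‖u m‖ ^ 2) :=
      Summable.of_nonneg_of_le (fun m => by positivity) h2 (summable_geo.mul_left (C ^ 2))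
    calc ∑' n, ‖u n‖ ^ 2 ≤ ∑' n, C ^ 2 * (9 / 16 : ℝ) ^ n :=
          h3.tsum_le_tsum h2 (summable_geo.mul_left (C ^ 2))
      _ = C ^ 2 * (16 / 7) := by
          rw [tsum_mul_left, tsum_geometric_of_lt_one (by norm_num) (by norm_num)]; norm_num
      _ ≤ (2 * C) ^ 2 := by nlinarith [sq_nonneg C]
  exact le_of_sq_le_sq h1 (by positivity)

/-- Points of the disc of radius one half. -/
abbrev HD : Type := {z : ℂ // ‖z‖ < 1 / 2}

theorem pow_diff (a b : ℂ) (ha : ‖a‖ ≤ 1 / 2) (hb : ‖b‖ ≤ 1 / 2) (n : ℕ) :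
    ‖a ^ n - b ^ n‖ ≤ (4 * ‖a - b‖) * (3 / 4) ^ n := by
  induction n with
  | zero => simp
  | succ n ih =>
    have e : a ^ (n + 1) - b ^ (n + 1) = a * (a ^ n - b ^ n) + (a - b) * b ^ n := by ring
    rw [e]
    refine (norm_add_le _ _).trans ?_
    rw [norm_mul, norm_mul, norm_pow]
    have h1 : ‖b‖ ^ n ≤ (1 / 2) ^ n := pow_le_pow_left₀ (norm_nonneg _) hb n
    have h2 : ((1 : ℝ) / 2) ^ n ≤ (3 / 4) ^ n := pow_le_pow_left₀ (by norm_num) (by norm_num) n
    have h3 : ‖a‖ * ‖a ^ n - b ^ n‖ ≤ (1 / 2) * ((4 * ‖a - b‖) * (3 / 4) ^ n) :=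
      mul_le_mul ha ih (norm_nonneg _) (by norm_num)
    have h4 : ‖a - b‖ * ‖b‖ ^ n ≤ ‖a - b‖ * (3 / 4) ^ n :=
      mul_le_mul_of_nonneg_left (h1.trans h2) (norm_nonneg _)
    rw [pow_succ]
    nlinarith [norm_nonneg (a - b), pow_pos (show (0 : ℝ) < 3 / 4 by norm_num) n]

theorem kern_bound (z : ℂ) (hz : ‖z‖ ≤ 1 / 2) (m : ℕ) : ‖z ^ m‖ ≤ 1 * (3 / 4) ^ m := by
  rw [norm_pow, one_mul]
  exact pow_le_pow_left₀ (norm_nonneg _) (hz.trans (by norm_num)) m

/-- The Cauchy kernel as an element of `ℓ²`. -/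
noncomputable def kern (s : HD) : ell2 :=
  ⟨fun n => (starRingEnd ℂ s.1) ^ n, mem_of_bound (kern_bound _ (by rw [RCLike.norm_conj]; exact s.2.le))⟩

theorem kern_apply (s : HD) (n : ℕ) : kern s n = (starRingEnd ℂ s.1) ^ n := rfl

theorem kern_lip (s t : HD) : ‖kern s - kern t‖ ≤ 8 * ‖s.1 - t.1‖ := by
  have h := ell2_norm_le (u := kern s - kern t) (C := 4 * ‖s.1 - t.1‖) (by positivity) (by
    intro m
    have : (kern s - kern t : ell2) m = (starRingEnd ℂ s.1) ^ m - (starRingEnd ℂ t.1) ^ m := rfl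
    rw [this]
    have h1 := pow_diff (starRingEnd ℂ s.1) (starRingEnd ℂ t.1) (by rw [RCLike.norm_conj]; exact s.2.le)
      (by rw [RCLike.norm_conj]; exact t.2.le) m
    rw [← map_sub, RCLike.norm_conj] at h1
    exact h1)
  linarith

theorem continuous_kern : Continuous kern := by
  have : LipschitzWith 8 kern := by
    apply LipschitzWith.of_dist_le_mul
    intro s t
    rw [dist_eq_norm, Subtype.dist_eq, dist_eq_norm]
    exact kern_lip s t
  exact this.continuous

/-- The real point `t` of the small disc. -/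
noncomputable def rp (t : ℝ) (h0 : 0 < t) (h1 : t < 1 / 2) : HD :=
  ⟨(t : ℂ), by rw [Complex.norm_real, Real.norm_of_nonneg h0.le]; exact h1⟩

theorem single_mem (n : ℕ) :
    (lp.single 2 n (1 : ℂ) : ell2) ∈ (Submodule.span ℂ (Set.range kern)).topologicalClosure := by
  set W := (Submodule.span ℂ (Set.range kern)).topologicalClosure with hW
  have hk : ∀ s, kern s ∈ W := fun s =>
    Submodule.le_topologicalClosure _ (Submodule.subset_span ⟨s, rfl⟩)
  induction n using Nat.strong_induction_on with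
  | _ n ih =>
    have hcl : IsClosed (W : Set ell2) := Submodule.isClosed_topologicalClosure _
    have key : ∀ ε : ℝ, 0 < ε → ∃ v ∈ W, ‖v - (lp.single 2 n (1 : ℂ) : ell2)‖ < ε := by
      intro ε hε
      obtain ⟨t, ht0, ht1⟩ : ∃ t : ℝ, 0 < t ∧ t < min (1 / 2) (ε / (4 * 2 ^ (n + 1))) :=
        exists_between (by positivity)
      have ht2 : t < 1 / 2 := lt_of_lt_of_le ht1 (min_le_left _ _)
      have ht3 : t < ε / (4 * 2 ^ (n + 1)) := lt_of_lt_of_le ht1 (min_le_right _ _)
      have htc : (t : ℂ) ≠ 0 := by exact_mod_cast ht0.ne'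
      set s := rp t ht0 ht2 with hs
      let v : ell2 := ((t : ℂ) ^ n)⁻¹ • (kern s - ∑ k ∈ Finset.range n, (t : ℂ) ^ k • (lp.single 2 k (1 : ℂ) : ell2))
      refine ⟨v, ?_, ?_⟩
      · apply Submodule.smul_mem
        apply Submodule.sub_mem _ (hk s)
        apply Submodule.sum_mem
        intro k hk'
        exact Submodule.smul_mem _ _ (ih k (Finset.mem_range.mp hk'))
      · have hb : ∀ m, ‖(v - (lp.single 2 n (1 : ℂ) : ell2) : ell2) m‖ ≤ (t * 2 ^ (n + 1)) * (3 / 4) ^ m := by
          intro m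
          have e1 : (v - (lp.single 2 n (1 : ℂ) : ell2) : ell2) m =
              ((t : ℂ) ^ n)⁻¹ * ((t : ℂ) ^ m - ∑ k ∈ Finset.range n, (t : ℂ) ^ k * (Pi.single (M := fun _ => ℂ) k (1 : ℂ) m)) -
                Pi.single (M := fun _ => ℂ) n (1 : ℂ) m := by
            have e2 : kern s m = (t : ℂ) ^ m := by
              rw [kern_apply, hs]
              simp [rp]
            simp only [v, lp.coeFn_sub, lp.coeFn_smul, lp.coeFn_sum, Pi.sub_apply, Pi.smul_apply,
              Finset.sum_apply, lp.single_apply, smul_eq_mul, e2]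
          rw [e1]
          rcases lt_trichotomy m n with h | h | h
          · have e3 : ∑ k ∈ Finset.range n, (t : ℂ) ^ k * (Pi.single (M := fun _ => ℂ) k (1 : ℂ) m) = (t : ℂ) ^ m := by
              rw [Finset.sum_eq_single m]
              · simp
              · intro b _ hb
                rw [Pi.single_eq_of_ne hb.symm]; simp
              · intro h'
                exact absurd (Finset.mem_range.mpr h) h'
            rw [e3, Pi.single_eq_of_ne h.ne]
            simp
            positivity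
          · subst h
            have e3 : ∑ k ∈ Finset.range m, (t : ℂ) ^ k * (Pi.single (M := fun _ => ℂ) k (1 : ℂ) m) = 0 := by
              apply Finset.sum_eq_zero
              intro k hk'
              rw [Pi.single_eq_of_ne (Finset.mem_range.mp hk').ne']; simp
            rw [e3]
            simp [htc]
            positivity
          · have e3 : ∑ k ∈ Finset.range n, (t : ℂ) ^ k * (Pi.single (M := fun _ => ℂ) k (1 : ℂ) m) = 0 := by
              apply Finset.sum_eq_zero
              intro k hk'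
              have := Finset.mem_range.mp hk'
              rw [Pi.single_eq_of_ne (by omega)]; simp
            rw [e3, Pi.single_eq_of_ne h.ne', sub_zero, sub_zero]
            obtain ⟨d, rfl⟩ := Nat.exists_eq_add_of_lt h
            have e4 : ((t : ℂ) ^ n)⁻¹ * (t : ℂ) ^ (n + d + 1) = (t : ℂ) * (t : ℂ) ^ d := by
              field_simp
              ring
            rw [e4, norm_mul, norm_pow, Complex.norm_real, Real.norm_of_nonneg ht0.le, mul_assoc]
            apply mul_le_mul_of_nonneg_left _ ht0.le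
            have h1 : t ^ d ≤ (1 / 2) ^ d := pow_le_pow_left₀ ht0.le ht2.le d
            have h2 : ((1 : ℝ) / 2) ^ d = 2 ^ (n + 1) * (1 / 2) ^ (n + d + 1) := by
              have : (2 : ℝ) ^ (n + 1) * (1 / 2) ^ (n + 1) = 1 := by
                rw [← mul_pow]; norm_num
              calc ((1 : ℝ) / 2) ^ d = (2 ^ (n + 1) * (1 / 2) ^ (n + 1)) * (1 / 2) ^ d := by rw [this, one_mul]
                _ = 2 ^ (n + 1) * (1 / 2) ^ (n + d + 1) := by ring
            have h3 : ((1 : ℝ) / 2) ^ (n + d + 1) ≤ (3 / 4) ^ (n + d + 1) :=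
              pow_le_pow_left₀ (by norm_num) (by norm_num) _
            calc t ^ d ≤ (1 / 2) ^ d := h1
              _ = 2 ^ (n + 1) * (1 / 2) ^ (n + d + 1) := h2
              _ ≤ 2 ^ (n + 1) * (3 / 4) ^ (n + d + 1) := by
                apply mul_le_mul_of_nonneg_left h3 (by positivity)
        have := ell2_norm_le (by positivity) hb
        rw [lt_div_iff₀ (by positivity)] at ht3
        refine lt_of_le_of_lt this ?_
        nlinarith [pow_pos (show (0 : ℝ) < 2 by norm_num) (n + 1)]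
    have : (lp.single 2 n (1 : ℂ) : ell2) ∈ closure (W : Set ell2) := by
      rw [Metric.mem_closure_iff]
      intro ε hε
      obtain ⟨v, hv, hv'⟩ := key ε hε
      exact ⟨v, hv, by rw [dist_comm, dist_eq_norm]; exact hv'⟩
    rwa [hcl.closure_eq] at this

theorem kern_dense (g : ell2) : g ∈ closure (Submodule.span ℂ (Set.range kern) : Set ell2) := by
  set W := (Submodule.span ℂ (Set.range kern)).topologicalClosure with hW
  have hcl : IsClosed (W : Set ell2) := Submodule.isClosed_topologicalClosure _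
  have h := lp.hasSum_single (p := 2) (E := fun _ : ℕ => ℂ) (by norm_num) g
  have : g ∈ W := by
    refine hcl.mem_of_tendsto h (Eventually.of_forall fun s => ?_)
    apply Submodule.sum_mem
    intro n _
    have : (lp.single 2 n (g n) : ell2) = (g n) • (lp.single 2 n (1 : ℂ) : ell2) := by
      rw [← lp.single_smul]; simp
    rw [this]
    exact Submodule.smul_mem _ _ (single_mem n)
  exact this

instance : TopologicalSpace.SeparableSpace ell2 := by
  have h1 : TopologicalSpace.IsSeparable (Set.range kern) :=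
    TopologicalSpace.isSeparable_range continuous_kern
  have h2 := h1.span (R := ℂ)
  have h3 := h2.closure
  have h4 : closure (Submodule.span ℂ (Set.range kern) : Set ell2) = Set.univ := by
    ext g; simp [kern_dense g]
  rw [h4] at h3
  exact TopologicalSpace.isSeparable_univ_iff.mp h3

instance : Infinite HD := by
  have h : Set.Infinite {z : ℂ | ‖z‖ < 1 / 2} := by
    have : {z : ℂ | ‖z‖ < 1 / 2} = Metric.ball 0 (1 / 2) := by ext z; simp
    rw [this]
    exact (infinite_of_mem_nhds 0 (Metric.ball_mem_nhds _ (by norm_num)))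
  exact h.to_subtype

theorem kern_accum (s : HD) (ε : ℝ) (hε : 0 < ε) : {s' | ‖kern s' - kern s‖ ≤ ε}.Infinite := by
  -- points near `s`
  have h1 : Set.Infinite (Metric.ball s.1 (min (ε / 8) (1 / 2 - ‖s.1‖))) := by
    refine infinite_of_mem_nhds s.1 (Metric.ball_mem_nhds _ ?_)
    have := s.2
    exact lt_min (by positivity) (by linarith)
  have h2 : ∀ z ∈ Metric.ball s.1 (min (ε / 8) (1 / 2 - ‖s.1‖)), ‖z‖ < 1 / 2 := by
    intro z hz
    rw [Metric.mem_ball, dist_eq_norm] at hz
    have h3 := lt_of_lt_of_le hz (min_le_right _ _)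
    have : z = (z - s.1) + s.1 := by ring
    rw [this]
    exact lt_of_le_of_lt (norm_add_le _ _) (by linarith)
  intro hfin
  apply h1
  refine (hfin.image Subtype.val).subset ?_
  intro z hz
  refine ⟨⟨z, h2 z hz⟩, ?_, rfl⟩
  change ‖kern ⟨z, h2 z hz⟩ - kern s‖ ≤ ε
  refine (kern_lip _ _).trans ?_
  rw [Metric.mem_ball, dist_eq_norm] at hz
  have h3 := lt_of_lt_of_le hz (min_le_left _ _)
  change 8 * ‖z - s.1‖ ≤ ε
  linarith

theorem main_S04269 :
    ∃ Λ : ℕ → ℂ, Function.Injective Λ ∧ (∀ n, ‖Λ n‖ < 1) ∧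
      (∃ ζ : ℂ, ‖ζ‖ = 1 ∧ ζ ∉ closure (Set.range Λ)) ∧
      ∀ f : ℕ → ℂ, Summable (fun n => ‖f n‖ ^ 2) →
        ∃ c : ℕ → ℂ, Filter.Tendsto
          (fun N : ℕ => ∑' n : ℕ,
            ‖f n - ∑ k ∈ Finset.range N, c k * (starRingEnd ℂ (Λ k)) ^ n‖ ^ 2)
          Filter.atTop (nhds 0) := by
  obtain ⟨Λ, hinj, hrep⟩ := exists_representing kern (good_of_dense kern_accum kern_dense)
  refine ⟨fun n => (Λ n).1, Subtype.val_injective.comp hinj, fun n => (Λ n).2.trans (by norm_num),
    ⟨1, by simp, ?_⟩, ?_⟩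
  · intro h
    have hsub : closure (Set.range fun n => (Λ n).1) ⊆ Metric.closedBall (0 : ℂ) (1 / 2) := by
      apply closure_minimal _ Metric.isClosed_closedBall
      rintro _ ⟨n, rfl⟩
      simpa using (Λ n).2.le
    have := hsub h
    simp at this
    norm_num at this
  · intro f hf
    have hf' : Memℓp (E := fun _ : ℕ => ℂ) f 2 := by
      apply memℓp_gen
      rw [two_toReal]
      simpa using hf
    obtain ⟨c, hc⟩ := hrep ⟨f, hf'⟩
    refine ⟨c, ?_⟩
    have h1 : Tendsto (fun N => ‖(⟨f, hf'⟩ : ell2) - ∑ k ∈ Finset.range N, c k • kern (Λ k)‖ ^ 2) atTop (𝓝 0) := by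
      have h2 := (tendsto_const_nhds (x := (⟨f, hf'⟩ : ell2))).sub hc
      rw [sub_self] at h2
      have h3 := h2.norm.pow 2
      simpa using h3
    refine h1.congr fun N => ?_
    rw [ell2_norm_sq]
    apply tsum_congr
    intro n
    congr 2
    simp only [lp.coeFn_sub, Pi.sub_apply, lp.coeFn_sum, Finset.sum_apply, lp.coeFn_smul, Pi.smul_apply,
      smul_eq_mul, kern_apply]

end Pool.Agent.H155R3
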